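import Pool.Agent.Lib_helper75.RZG.Defs
import Pool.Agent.Lib_helper50.RZG.Z12

/-!
# Project RZG, part E (mean squares over the family, assembly): wanted statements

`σ₂ = (3n + 4)/8`, `θ = 99/100`, `L = log Q`, `s = 1/2 + i t₀ + z/L`.
-/

set_option autoImplicit false

namespace Pool.Agent.RZH

open MeasureTheory Matrix Complex Filter Topology Pool.Agent.GLL Pool.Agent.LAL
open scoped ENNReal ContDiff

noncomputable section

variable {n : ℕ} {O : Subring (Mt n)}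

/-- the mollified `L`-functions of the family -/
def Fm {P : ℕ} {c1 c2 Q : ℝ} {F : Set (Mt n)} (s : ∀ q : {q // q ∈ Fam P c1 c2 Q}, Sys O F q.1)
    (g : ℝ → ℝ) (θ : ℝ) (Lf : Ix s → ℂ → ℂ) (i : Ix s) (w : ℂ) : ℂ :=
  Lf i w * MG (Fe s i) (primorial ⌊Q⌋₊) g (θ * Real.log Q) w

/-- the weights -/
def wt {P : ℕ} {c1 c2 Q : ℝ} {F : Set (Mt n)} (s : ∀ q : {q // q ∈ Fam P c1 c2 Q}, Sys O F q.1)
    (k : Mt n → ℂ) (i : Ix s) : ℝ := tw s i * wE (Fe s i) k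

/-! ### EA: the basic inequality (`IF_star`, `rep`, `TOT_up`, `Ss_le`, `IF_Del`) -/

/-! ### EB: (D1), (D2) for `Re s ≤ σ₂`, (D3) -/

/-! ### EC: the far region (`TOT_crude`, `Dg_one`, `rep`, `ch_Psi`, `EG_ch`) -/

/-! ### ED: the output -/

/-- the zeros near `t₀`, scaled -/
def ZZ (Λ : ℂ → ℂ) (t₀ L : ℝ) : Set ℂ := {z | Λ (1 / 2 + t₀ * I + z / L) = 0 ∧ |z.im| ≤ 1 / 2}

end

end Pool.Agent.RZH
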