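import Pool.Agent.Lib_helper41.RZGF.R_E6
import Pool.Agent.Lib_helper96.LALZ.FF

/-!
# Project RZG: the final statement
-/

set_option autoImplicit false

namespace Pool.Agent.RZH

open MeasureTheory Matrix Complex Filter Topology Pool.Agent.GLL Pool.Agent.LAL
open scoped ENNReal ContDiff

/-- from the bad forms to the good ones -/
theorem fin_good {κ : Type} [Fintype κ] {ι : κ → Type} (w : ∀ q, ι q → ℝ≥0∞) (B : ∀ q, ι q → Prop)
    {a b : ℝ} (hb : 0 ≤ b) (ha : 0 ≤ a) (hab : a + b = 1) (hW : ∑ q, ∑' i, w q i ≠ ⊤)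
    (h : ∑ q, ∑' i, (open scoped Classical in if B q i then w q i else 0) ≤
      ENNReal.ofReal b * ∑ q, ∑' i, w q i) :
    ENNReal.ofReal a * ∑ q, ∑' i, w q i ≤
      ∑ q, ∑' i, (open scoped Classical in if B q i then 0 else w q i) := by
  classical
  have e : ∑ q, ∑' i, w q i = (∑ q, ∑' i, (if B q i then w q i else 0)) +
      ∑ q, ∑' i, (if B q i then 0 else w q i) := by
    rw [← Finset.sum_add_distrib]
    refine Finset.sum_congr rfl fun q _ => ?_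
    rw [← ENNReal.tsum_add]
    refine tsum_congr fun i => ?_
    split_ifs <;> simp
  have h1 : ENNReal.ofReal b * (∑ q, ∑' i, w q i) + ENNReal.ofReal a * ∑ q, ∑' i, w q i ≤
      ENNReal.ofReal b * (∑ q, ∑' i, w q i) + ∑ q, ∑' i, (if B q i then 0 else w q i) := by
    rw [← add_mul, ← ENNReal.ofReal_add hb ha, show b + a = 1 by linarith, ENNReal.ofReal_one,
      one_mul]
    calc _ = _ := e
      _ ≤ _ := by gcongr
  exact (ENNReal.add_le_add_iff_left (ENNReal.mul_ne_top ENNReal.ofReal_ne_top hW)).1 h1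

/-- the final statement -/
theorem fin_main (n : ℕ) (hn : 2 ≤ n) (O : Subring (Mt n)) (hO : GLL.Ord O) :
    (∃ F, IsFD O F) ∧ (∃ k : Mt n → ℂ, Sph2 k) ∧
    ∀ T : ℝ, ∃ c : ℝ, 0 < c ∧ ∃ P0 : ℕ, ∀ P : ℕ, P0 ≤ P → ∀ k : Mt n → ℂ, Sph2 k →
    ∀ c1 c2 : ℝ, 0 < c1 → c1 < c2 → ∃ a A : ℝ, 0 < a ∧ 0 < A ∧ ∃ Q0 : ℝ, ∀ Q : ℝ, Q0 ≤ Q →
    ∀ F, IsFD O F →
      (∀ q ∈ Fam P c1 c2 Q, (∃ ρ : O →+* Mq n q, IsRed O q ρ) ∧
        ∀ ρ : O →+* Mq n q, IsRed O q ρ → ∃ s : Sys O F q, s.ρ = ρ) ∧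
      ∀ s : ∀ q : {q // q ∈ Fam P c1 c2 Q}, Sys O F q.1,
        (∀ q i, ∃ Λ, IsLam ((s q).f i) ((s q).lam i) Λ) ∧
        ENNReal.ofReal (a * Q ^ n) ≤ ∑ q, ∑' i, (s q).w k i ∧
        ∑ q, ∑' i, (s q).w k i ≤ ENNReal.ofReal (A * Q ^ n) ∧
        ∀ Λ : ∀ q, (s q).ι → ℂ → ℂ, (∀ q i, IsLam ((s q).f i) ((s q).lam i) (Λ q i)) →
        ∀ t₀ : ℝ, |t₀| ≤ T →
          ENNReal.ofReal (58 / 100) * ∑ q, ∑' i, (s q).w k i ≤
            ∑ q, ∑' i, (open scoped Classical in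
              if ∀ w : ℂ, Λ q i w = 0 → |w.im - t₀| < c / Real.log Q → w.re = 1 / 2 then
                (s q).w k i else 0) ∧
          ENNReal.ofReal (16 / 100) * ∑ q, ∑' i, (s q).w k i ≤
            ∑ q, ∑' i, (open scoped Classical in
              if ∀ w : ℂ, Λ q i w = 0 → c / Real.log Q ≤ |w.im - t₀| then
                (s q).w k i else 0) := by
  classical
  obtain ⟨hF, hK, P1, h1⟩ := LAL.main_pr n hn O hO
  refine ⟨hF, hK, fun T => ?_⟩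
  obtain ⟨c, hc, P2, h2⟩ := main n hn O hO T
  refine ⟨c, hc, max P1 P2, fun P hP k hk c1 c2 hc1 hc2 => ?_⟩
  obtain ⟨a, A, ha, hA, Q1, h1⟩ := h1 P ((le_max_left _ _).trans hP) k hk 0 1 one_pos c1 c2 hc1 hc2
  obtain ⟨Q2, h2⟩ := h2 P ((le_max_right _ _).trans hP) k hk c1 c2 hc1 hc2
  refine ⟨a, A, ha, hA, max Q1 Q2, fun Q hQ F hF => ?_⟩
  obtain ⟨h3, h4⟩ := h1 Q ((le_max_left _ _).trans hQ) F hF
  refine ⟨h3, fun s => ?_⟩
  obtain ⟨h5, h6, h7, -⟩ := h4 s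
  refine ⟨h5, h6, h7, fun Λ hΛ t₀ ht => ?_⟩
  obtain ⟨h8, h9⟩ := h2 Q ((le_max_right _ _).trans hQ) F hF s Λ hΛ t₀ ht
  have hW : ∑ q, ∑' i, (s q).w k i ≠ ⊤ := (h7.trans_lt ENNReal.ofReal_lt_top).ne
  constructor
  · have := fin_good (fun q i => (s q).w k i) (fun q i => ∃ w : ℂ, Λ q i w = 0 ∧ w.re ≠ 1 / 2 ∧
      |w.im - t₀| < c / Real.log Q) (a := 58 / 100) (b := 42 / 100) (by norm_num) (by norm_num)
      (by norm_num) hW h8
    refine this.trans (le_of_eq ?_)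
    refine Finset.sum_congr rfl fun q _ => tsum_congr fun i => ?_
    by_cases hB : ∃ w : ℂ, Λ q i w = 0 ∧ w.re ≠ 1 / 2 ∧ |w.im - t₀| < c / Real.log Q
    · obtain ⟨w, w1, w2, w3⟩ := hB
      rw [if_pos ⟨w, w1, w2, w3⟩, if_neg fun h => w2 (h w w1 w3)]
    · rw [if_neg hB, if_pos fun w w1 w3 => by
        by_contra w2
        exact hB ⟨w, w1, w2, w3⟩]
  · have := fin_good (fun q i => (s q).w k i) (fun q i => ∃ w : ℂ, Λ q i w = 0 ∧
      |w.im - t₀| < c / Real.log Q) (a := 16 / 100) (b := 84 / 100) (by norm_num) (by norm_num)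
      (by norm_num) hW h9
    refine this.trans (le_of_eq ?_)
    refine Finset.sum_congr rfl fun q _ => tsum_congr fun i => ?_
    by_cases hB : ∃ w : ℂ, Λ q i w = 0 ∧ |w.im - t₀| < c / Real.log Q
    · obtain ⟨w, w1, w3⟩ := hB
      rw [if_pos ⟨w, w1, w3⟩, if_neg fun h => (h w w1).not_gt w3]
    · rw [if_neg hB, if_pos fun w w1 => by
        by_contra w3
        exact hB ⟨w, w1, not_le.1 w3⟩]

end Pool.Agent.RZH
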