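import Pool.Agent.Lib_helper42.GLM.Defs
import Pool.Agent.Lib_helper75.RZG.Defs
import Pool.Agent.Lib_helper96.GLF.O_OA3
import Pool.Agent.Lib_helper96.GLF.O_OD
import Pool.Agent.Lib_helper96.GLF.O_OH
import Pool.Agent.Lib_helper96.GLF.O_OI
import Pool.Agent.Lib_helper96.GLF.T_T6A
import Pool.Agent.Lib_helper96.GLF.T_T6C
import Pool.Agent.Lib_helper96.GLF.T_TGLUE
import Pool.Agent.Lib_helper96.GLF.T_TK
import Pool.Agent.Lib_helper96.GLF.X_GLUE_10
import Pool.Agent.Lib_helper96.GLF.X_GLUE_11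
import Pool.Agent.Lib_helper96.GLL.Defs
import Pool.Agent.Lib_helper96.GLL.DefsB

/-!
# Project RZG, block D1 (helper45): the diagonal as a quadratic form
-/

set_option autoImplicit false

namespace Pool.Agent.RZH

open MeasureTheory Matrix Complex Filter Topology Pool.Agent.GLL Pool.Agent.LAL
open scoped ENNReal ContDiff

noncomputable section

variable {n : ℕ} {O : Subring (Mt n)}

theorem d1_fin (hn : 2 ≤ n) (hO : GLL.Ord O) (x : ℝ) :
    {I : Idl O | Real.log (N I) ≤ x}.Finite := by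
  have h : {I : Idl O | Real.log (N I) ≤ x} ⊆
      ⋃ m ∈ Finset.range (⌊Real.exp x⌋₊ + 1), {I : Idl O | N I = m} := by
    intro I hI
    have hpos : (0 : ℝ) < N I := t6_N_pos hn hO I
    have h1 : (N I : ℝ) ≤ Real.exp x := (Real.log_le_iff_le_exp hpos).1 hI
    have h2 : N I ≤ ⌊Real.exp x⌋₊ := Nat.le_floor h1
    simp only [Set.mem_iUnion, Finset.mem_range]
    exact ⟨N I, by omega, rfl⟩
  exact (Set.Finite.biUnion (Finset.finite_toSet _) fun m _ => IF_fin hn hO m).subset h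

theorem d1_cast (hn : 2 ≤ n) : ((n - 1 : ℕ) : ℝ) = (n : ℝ) - 1 := by
  rw [Nat.cast_sub (by omega)]
  simp

/-- the kernel as a sum over the ideals -/
theorem d1_WA (hn : 2 ≤ n) (hO : GLL.Ord O) {k : Mt n → ℂ} (hk : Sph k) (φ : ℝ → ℂ) (w : ℝ) :
    WA O (Phi φ k) w = k2 k * ∑' J : Idl O, ((N J : ℝ) ^ (n - 1))⁻¹ *
      ‖φ (w + Real.log (N J))‖ ^ 2 := by
  unfold WA
  rw [t6_W1 hn k hk φ w, mul_left_comm, ← tsum_mul_left]
  congr 1
  refine tsum_congr fun J => ?_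
  have hpos : (0 : ℝ) < N J := t6_N_pos hn hO J
  have e : ((N J : ℝ) ^ (n - 1))⁻¹ = Real.exp (((n : ℝ) - 1) * w) *
      Real.exp (-((n : ℝ) - 1) * (w + Real.log (N J))) := by
    rw [← Real.exp_add]
    have e1 : ((n : ℝ) - 1) * w + -((n : ℝ) - 1) * (w + Real.log (N J)) =
        -(((n - 1 : ℕ) : ℝ) * Real.log (N J)) := by
      rw [d1_cast hn]
      ring
    rw [e1, Real.exp_neg, Real.exp_nat_mul, Real.exp_log hpos]
  unfold t6G
  rw [e]
  ring

/-- the ideals contained in a given ideal -/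
theorem d1_sub (hn : 2 ≤ n) (hO : GLL.Ord O) (K : Idl O) (f : Idl O → ℝ) :
    ∑' g : Idl O, (open scoped Classical in if g ≤ K then f g else 0) =
      ∑' J : Idl O, f (aI (gen K) J) ∧ ∀ J : Idl O, N (aI (gen K) J) = N K * N J := by
  classical
  obtain ⟨g0, g1, g2, g3⟩ := IF_gen hn hO K
  have hI : pI (gen K) g0 = K := Subtype.ext g1.symm
  obtain ⟨a1, a2, a3⟩ := IF_aI hn hO (gen K) g0
  rw [hI] at a1 a3
  have hinj : Function.Injective (aI (gen K) : Idl O → Idl O) := fun J J' h =>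
    le_antisymm ((a2 J J').1 h.le) ((a2 J' J).1 h.ge)
  refine ⟨?_, fun J => (a1 J).2.1⟩
  rw [← hinj.tsum_eq]
  · exact tsum_congr fun J => if_pos (a1 J).2.2
  · intro g hg
    have hgI : g ≤ K := by
      by_contra h
      exact hg (if_neg h)
    obtain ⟨J', h⟩ := a3 g hgI
    exact ⟨J', h.symm⟩

theorem d1_le (hn : 2 ≤ n) (hO : GLL.Ord O) (A A' g : Idl O) :
    g ≤ A ∧ g ≤ A' ↔ g ≤ infI A A' := by
  have h := (IF_inf hn hO A A').1
  constructor
  · rintro ⟨h1, h2⟩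
    show g.1 ≤ (infI A A').1
    rw [h]
    exact le_inf h1 h2
  · intro h1
    have h2 : g.1 ≤ (infI A A').1 := h1
    rw [h] at h2
    exact ⟨h2.trans inf_le_left, h2.trans inf_le_right⟩

theorem group_bF_pr (hn : 2 ≤ n) (hO : GLL.Ord O) {b : ℕ} (hb : 0 < b) (c : Idl O → ℝ)
    {k : Mt n → ℂ} (hk : Sph2 k) {φ : ℝ → ℂ} {A : ℝ} (hφ : TF φ A) (u : ℝ) :
    k2 k * ∑' I : Idl O, ‖bF b c I‖ ^ 2 * ((N I : ℝ) ^ (n - 1))⁻¹ *
        ‖φ (u + Real.log (N I))‖ ^ 2 =
      ∑ I ∈ PI O b, ∑ J ∈ PI O b, c I * c J * ((N (infI I J) : ℝ) ^ (n - 1))⁻¹ *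
        WA O (Phi φ k) (u + Real.log (N (infI I J))) := by
  classical
  set h : Idl O → ℝ := fun I => ((N I : ℝ) ^ (n - 1))⁻¹ * ‖φ (u + Real.log (N I))‖ ^ 2 with hh
  have hfin : (Function.support h).Finite := by
    refine (d1_fin hn hO (A - u)).subset fun I hI => ?_
    rw [Function.mem_support] at hI
    have h2 : φ (u + Real.log (N I)) ≠ 0 := by
      intro h2
      apply hI
      simp [hh, h2]
    have h3 := abs_le.1 (hφ.supp _ h2)
    rw [Set.mem_ofPred_eq]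
    linarith
  set ct : Idl O → Idl O → Idl O → ℝ := fun I J g =>
    if g ≤ infI I J then c I * c J * h g else 0 with hct
  have hcs : ∀ I J : Idl O, Summable (ct I J) := by
    intro I J
    refine summable_of_hasFiniteSupport (hfin.subset fun g hg => ?_)
    rw [Function.mem_support] at hg ⊢
    intro h0
    apply hg
    simp [hct, h0]
  have e1 : ∀ g : Idl O, ‖bF b c g‖ ^ 2 * ((N g : ℝ) ^ (n - 1))⁻¹ * ‖φ (u + Real.log (N g))‖ ^ 2 =
      ∑ I ∈ PI O b, ∑ J ∈ PI O b, ct I J g := by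
    intro g
    have e2 : ‖bF b c g‖ ^ 2 = (∑ A ∈ PI O b, if g ≤ A then c A else 0) *
        ∑ A ∈ PI O b, if g ≤ A then c A else 0 := by
      unfold bF
      rw [Complex.norm_real, Real.norm_eq_abs, sq_abs, sq]
    rw [e2, Finset.sum_mul_sum, mul_assoc, Finset.sum_mul]
    refine Finset.sum_congr rfl fun I _ => ?_
    rw [Finset.sum_mul]
    refine Finset.sum_congr rfl fun J _ => ?_
    simp only [hct, ← d1_le hn hO I J g, hh]
    by_cases h1 : g ≤ I
    · by_cases h2 : g ≤ J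
      · simp [h1, h2]
      · simp [h1, h2]
    · simp [h1]
  rw [tsum_congr e1, Summable.tsum_finsetSum fun I _ => summable_sum fun J _ => hcs I J,
    Finset.mul_sum]
  refine Finset.sum_congr rfl fun I _ => ?_
  rw [Summable.tsum_finsetSum fun J _ => hcs I J, Finset.mul_sum]
  refine Finset.sum_congr rfl fun J _ => ?_
  obtain ⟨s1, s2⟩ := d1_sub hn hO (infI I J) (fun g => c I * c J * h g)
  have e3 : ∑' g : Idl O, ct I J g = ∑' K : Idl O, c I * c J * h (aI (gen (infI I J)) K) := by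
    simp only [hct]
    exact s1
  rw [e3, tsum_mul_left, d1_WA hn hO hk.toSph]
  have e4 : ∀ K : Idl O, h (aI (gen (infI I J)) K) = ((N (infI I J) : ℝ) ^ (n - 1))⁻¹ *
      (((N K : ℝ) ^ (n - 1))⁻¹ *
        ‖φ (u + Real.log (N (infI I J)) + Real.log (N K))‖ ^ 2) := by
    intro K
    simp only [hh, s2]
    rw [Nat.cast_mul, mul_pow, mul_inv, Real.log_mul (t6_N_pos hn hO _).ne'
      (t6_N_pos hn hO _).ne', add_assoc, mul_assoc]
  rw [tsum_congr e4, tsum_mul_left]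
  ring

theorem d1_cs {φ : ℝ → ℂ} {A : ℝ} (hφ : TF φ A) : HasCompactSupport φ := by
  refine HasCompactSupport.of_support_subset_isCompact (isCompact_Icc (a := -A) (b := A)) ?_
  intro v hv
  exact abs_le.1 (hφ.supp v hv)

theorem WA_bd_pr (hn : 2 ≤ n) (hO : GLL.Ord O) {k : Mt n → ℂ} (hk : Sph2 k) {φ : ℝ → ℂ} {A : ℝ}
    (hφ : TF φ A) : ∃ C c : ℝ, 0 ≤ C ∧ 0 < c ∧ Continuous (WA O (Phi φ k)) ∧
    ∀ F, IsFD O F → ∀ v : ℝ, |WA O (Phi φ k) v - (open scoped Classical in if v ≤ 0 then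
      vol F / covO O * (k2 k * ∫ w : ℝ, ‖φ w‖ ^ 2 * Real.exp w) * Real.exp (-v) else 0)| ≤
        C * Real.exp (-(c * |v|)) := by
  classical
  obtain ⟨F0, hF0, -⟩ := IF_FD hn hO
  obtain ⟨w1, w2, ⟨C, w3⟩, w4, -⟩ := IF_W1 hn hO k hk φ hφ.smooth (d1_cs hφ) F0 hF0 (Phi φ k)
    (Or.inl rfl)
  obtain ⟨C', w4⟩ := w4 n
  have hWc : Continuous (WA O (Phi φ k)) := by
    have : WA O (Phi φ k) = fun v => Real.exp (((n : ℝ) - 1) * v) * W1 O (Phi φ k) v := rfl
    rw [this]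
    exact (Real.continuous_exp.comp (continuous_const.mul continuous_id)).mul w1
  have hn2 : (2 : ℝ) ≤ n := by exact_mod_cast hn
  refine ⟨|C| + |C'|, 1, by positivity, one_pos, hWc, fun F hF v => ?_⟩
  have hvol : vol F / covO O = vol F0 / covO O :=
    tendsto_nhds_unique (t6_Z hn hO F hF).2 (t6_Z hn hO F0 hF0).2
  rw [hvol]
  by_cases hv : v ≤ 0
  · rw [if_pos hv]
    have h := w3 v hv
    have e : WA O (Phi φ k) v - vol F0 / covO O * (k2 k * ∫ w : ℝ, ‖φ w‖ ^ 2 * Real.exp w) *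
        Real.exp (-v) = Real.exp (((n : ℝ) - 1) * v) *
        (W1 O (Phi φ k) v - vol F0 / covO O * rho1 k φ * Real.exp (-(n * v))) := by
      have e1 : Real.exp (-v) = Real.exp (((n : ℝ) - 1) * v) * Real.exp (-(n * v)) := by
        rw [← Real.exp_add]
        congr 1
        ring
      unfold WA rho1
      rw [e1]
      ring
    rw [e, abs_mul, abs_of_pos (Real.exp_pos _), mul_comm]
    have h2 : Real.exp (((n : ℝ) - 1) * v) ≤ Real.exp (-(1 * |v|)) := by
      refine Real.exp_le_exp.2 ?_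
      rw [abs_of_nonpos hv]
      nlinarith
    refine mul_le_mul (h.trans ?_) h2 (Real.exp_pos _).le (by positivity)
    have := le_abs_self C
    have := abs_nonneg C'
    linarith
  · rw [if_neg hv, sub_zero]
    have hv' : 0 ≤ v := (not_le.1 hv).le
    have h := w4 v hv'
    have h0 := w2 v
    have e : |WA O (Phi φ k) v| = Real.exp (((n : ℝ) - 1) * v) * W1 O (Phi φ k) v := by
      unfold WA
      rw [abs_of_nonneg (mul_nonneg (Real.exp_pos _).le h0)]
    have e2 : Real.exp (-(1 * |v|)) = Real.exp (((n : ℝ) - 1) * v) * Real.exp (-(n * v)) := by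
      rw [← Real.exp_add, abs_of_nonneg hv']
      congr 1
      ring
    rw [e, e2]
    calc Real.exp (((n : ℝ) - 1) * v) * W1 O (Phi φ k) v ≤
        Real.exp (((n : ℝ) - 1) * v) * (C' * Real.exp (-(n * v))) :=
          mul_le_mul_of_nonneg_left h (Real.exp_pos _).le
      _ = C' * (Real.exp (((n : ℝ) - 1) * v) * Real.exp (-(n * v))) := by ring
      _ ≤ (|C| + |C'|) * (Real.exp (((n : ℝ) - 1) * v) * Real.exp (-(n * v))) := by
          refine mul_le_mul_of_nonneg_right ?_ (by positivity)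
          have := le_abs_self C'
          have := abs_nonneg C
          linarith

theorem WA_dec_pr (hn : 2 ≤ n) (hO : GLL.Ord O) {k : Mt n → ℂ} (hk : Sph2 k) {φ : ℝ → ℂ} {A : ℝ}
    (hφ : TF φ A) (K : ℕ) : ∃ C : ℝ, 0 ≤ C ∧
    ∀ v : ℝ, 0 ≤ v → |WA O (Phi φ k) v| ≤ C * Real.exp (-(K * v)) := by
  obtain ⟨F0, hF0, -⟩ := IF_FD hn hO
  obtain ⟨w1, w2, -, w4, -⟩ := IF_W1 hn hO k hk φ hφ.smooth (d1_cs hφ) F0 hF0 (Phi φ k)
    (Or.inl rfl)
  obtain ⟨C', w4⟩ := w4 (K + n)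
  have hn2 : (2 : ℝ) ≤ n := by exact_mod_cast hn
  refine ⟨|C'|, abs_nonneg _, fun v hv => ?_⟩
  have h := w4 v hv
  have h0 := w2 v
  have e : |WA O (Phi φ k) v| = Real.exp (((n : ℝ) - 1) * v) * W1 O (Phi φ k) v := by
    unfold WA
    rw [abs_of_nonneg (mul_nonneg (Real.exp_pos _).le h0)]
  rw [e]
  calc Real.exp (((n : ℝ) - 1) * v) * W1 O (Phi φ k) v ≤
      Real.exp (((n : ℝ) - 1) * v) * (C' * Real.exp (-(((K + n : ℕ) : ℝ) * v))) :=
        mul_le_mul_of_nonneg_left h (Real.exp_pos _).le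
    _ = C' * Real.exp (-(((K : ℝ) + 1) * v)) := by
        rw [mul_left_comm, ← Real.exp_add]
        congr 2
        push_cast
        ring
    _ ≤ |C'| * Real.exp (-(K * v)) := by
        refine mul_le_mul (le_abs_self _) (Real.exp_le_exp.2 (by nlinarith)) (Real.exp_pos _).le
          (abs_nonneg _)


end

end Pool.Agent.RZH

namespace Pool.Agent.RZH

theorem WA_bd : type_of% @WA_bd_pr := @WA_bd_pr

theorem WA_dec : type_of% @WA_dec_pr := @WA_dec_pr

theorem group_bF : type_of% @group_bF_pr := @group_bF_pr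

end Pool.Agent.RZH
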