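import Pool.Agent.Lib_helper32.LALS.S_SC3
import Pool.Agent.Lib_helper42.GLM.Defs
import Pool.Agent.Lib_helper75.DZNF.BG
import Pool.Agent.Lib_helper75.RZG.Defs
import Pool.Agent.Lib_helper96.GLF.O_OA3
import Pool.Agent.Lib_helper96.GLF.O_OB
import Pool.Agent.Lib_helper96.GLF.O_OE
import Pool.Agent.Lib_helper96.GLF.O_OL2
import Pool.Agent.Lib_helper96.GLL.Defs
import Pool.Agent.Lib_helper96.GLL.DefsB

/-!
# Project RZG, block TA3
-/

set_option autoImplicit false

namespace Pool.Agent.RZH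

open MeasureTheory Matrix Complex Filter Topology Pool.Agent.GLL Pool.Agent.LAL
open scoped ENNReal ContDiff

noncomputable section

variable {n : ℕ} {O : Subring (Mt n)}

private theorem ta3_N (hn : 2 ≤ n) (hO : GLL.Ord O) (γ : Oˣ) (a : O) (h : a ≠ 0)
    (h' : (γ : O) * a ≠ 0) : N (pI ((γ : O) * a) h') = N (pI a h) := by
  have h1 := GLL.IF_det hn hO _ h'
  have h2 := GLL.IF_det hn hO _ h
  have h3 := (GLL.IF_isUnit hn hO (γ : O)).1 γ.isUnit
  have h4 : (((γ : O) * a : O) : Mt n).det = ((γ : O) : Mt n).det * (a : Mt n).det := by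
    rw [show (((γ : O) * a : O) : Mt n) = ((γ : O) : Mt n) * (a : Mt n) from rfl, Matrix.det_mul]
  rw [h4, abs_mul, h3, one_mul, ← h2] at h1
  exact_mod_cast h1

private theorem ta3_PI (hn : 2 ≤ n) (hO : GLL.Ord O) {b : ℕ} (hb : 0 < b) (I : Idl O) :
    I ∈ PI O b ↔ (b : Mt n) ∈ I.1 := by
  have h := (GLL.IF_mob hn hO b hb).2.2.1
  rw [PI, dif_pos h, Set.Finite.mem_toFinset]
  rfl

/-- the sum over `PI` as the sum over the ideals containing `g` -/
private theorem ta3_sum (hn : 2 ≤ n) (hO : GLL.Ord O) {b : ℕ} (hb : 0 < b) (g : Idl O)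
    (A : Finset (Idl O)) (hA : ∀ I, I ∈ A ↔ g ≤ I) (f : Idl O → ℝ) :
    (open scoped Classical in ∑ I ∈ PI O b, if g ≤ I then (mob O b I : ℝ) * f I else 0) =
      ∑ I ∈ A, (mob O b I : ℝ) * f I := by
  classical
  rw [← Finset.sum_filter]
  refine Finset.sum_subset_zero_on_sdiff (fun I hI => ?_) (fun I hI => ?_) (fun _ _ => rfl)
  · rw [Finset.mem_filter] at hI
    exact (hA I).2 hI.2
  · rw [Finset.mem_sdiff, Finset.mem_filter, hA] at hI
    have h0 : mob O b I = 0 := by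
      by_contra hm
      exact hI.2 ⟨(ta3_PI hn hO hb I).2 ((GLL.IF_mob hn hO b hb).1.1 I hm), hI.1⟩
    rw [h0]
    simp

private theorem ta3_g (hn : 2 ≤ n) (hO : GLL.Ord O) {g : ℝ → ℝ} {ε : ℝ} (hg : CutG g ε) {T : ℝ}
    (hT : 0 < T) (j : ℕ) (hj : 0 < j) (h : aT g T j ≠ 0) : (j : ℝ) < Real.exp T := by
  by_contra h1
  push Not at h1
  apply h
  rw [aT]
  refine hg.zero _ ?_
  rw [one_le_div hT]
  have := Real.log_le_log (Real.exp_pos T) h1
  rwa [Real.log_exp] at this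

theorem cT_facts_pr (hn : 2 ≤ n) (hO : GLL.Ord O) {g : ℝ → ℝ} {ε : ℝ} (hg : CutG g ε) {T : ℝ}
    (hT : 0 < T) {b : ℕ} (hb : 0 < b) :
    CO O b (Real.exp T) (cT O g T b) ∧ (∀ I : Idl O, N I = 1 → bF b (cT O g T b) I = 1) ∧
    (∀ X : ℕ, b = primorial X → Real.exp T ≤ X → ∀ I : Idl O, N I ≠ 1 →
      Real.log (N I) ≤ T / 2 → bF b (cT O g T b) I = 0) ∧
    ∀ I : Idl O, bF b (cT O g T b) I =
      ∑ j ∈ Finset.Icc 1 ⌊Real.exp T⌋₊, (aT g T j : ℂ) * Ajm O b j 1 I := by
  classical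
  have hNpos : ∀ I : Idl O, 0 < N I := fun I => (GLL.IF_gen hn hO I).2.2.1
  have hmob := GLL.IF_mob hn hO b hb
  have hbF : ∀ (I : Idl O) (A : Finset (Idl O)), (∀ J, J ∈ A ↔ I ≤ J) →
      bF b (cT O g T b) I = ((∑ J ∈ A, (mob O b J : ℝ) * aT g T (N J) : ℝ) : ℂ) := by
    intro I A hA
    rw [bF]
    congr 1
    rw [← ta3_sum hn hO hb I A hA (fun J => aT g T (N J))]
    rfl
  refine ⟨⟨?_, ?_, ?_⟩, ?_, ?_, ?_⟩
  · intro A
    rw [cT, abs_mul]
    refine mul_le_of_le_one_right (abs_nonneg _) ?_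
    rw [aT, abs_of_nonneg (hg.nonneg _)]
    exact hg.le_one _
  · intro A hA
    refine (ta3_g hn hO hg hT (N A) (hNpos A) ?_).le
    intro h0
    exact hA (by rw [cT, h0, mul_zero])
  · intro γ a h h'
    rw [cT, cT, hmob.2.1 γ a h h', ta3_N hn hO γ a h h']
  · intro I hI
    obtain ⟨A, hA, hAN⟩ := DZN.bg_up hn hO I
    rw [hbF I A hA]
    have hAI : A = {I} := by
      ext J
      rw [hA, Finset.mem_singleton]
      constructor
      · intro hJ
        have h1 := GLL.IF_dvd hn hO J I hJ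
        have h2 : N J = N I := by
          rw [hI] at h1 ⊢
          exact Nat.dvd_one.1 h1.1
        exact h1.2 h2
      · rintro rfl
        exact le_refl _
    rw [hAI, Finset.sum_singleton, hmob.2.2.2.1 I hI, hI, aT]
    rw [Nat.cast_one, Real.log_one, zero_div, hg.one 0 le_rfl (by norm_num)]
    norm_num
  · intro X hbX hX I hI hlog
    obtain ⟨A, hA, hAN⟩ := DZN.bg_up hn hO I
    rw [hbF I A hA]
    have h1 : ∀ J ∈ A, (mob O b J : ℝ) * aT g T (N J) = (mob O b J : ℝ) := by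
      intro J hJ
      have h2 : Real.log (N J) ≤ T / 2 := by
        refine le_trans (Real.log_le_log (by exact_mod_cast hNpos J) ?_) hlog
        exact_mod_cast hAN J hJ
      have h3 : 0 ≤ Real.log (N J) := Real.log_natCast_nonneg _
      rw [aT, hg.one _ (div_nonneg h3 hT.le), mul_one]
      rw [div_le_iff₀ hT]
      linarith
    rw [Finset.sum_congr rfl h1]
    have h4 := hmob.1.2 I
    have h5 : {J : Idl O | I ≤ J} = ↑A := by
      ext J
      simp only [Set.mem_setOf_eq, Finset.mem_coe, hA]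
    rw [h5, finsum_mem_coe_finset] at h4
    have h6 : ¬ (N I).Coprime b := by
      have h7 : (N I).minFac.Prime := Nat.minFac_prime hI
      have h8 : ((N I : ℕ) : ℝ) ≤ X := by
        have h9 : ((N I : ℕ) : ℝ) ≤ Real.exp (T / 2) := by
          rw [← Real.log_le_iff_le_exp (by exact_mod_cast hNpos I)]
          exact hlog
        refine h9.trans (le_trans (Real.exp_le_exp.2 (by linarith)) hX)
      have h10 : (N I).minFac ≤ X := (Nat.minFac_le (hNpos I)).trans (by exact_mod_cast h8)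
      have h11 : (N I).minFac ∣ b := by
        rw [hbX, primorial]
        refine Finset.dvd_prod_of_mem _ ?_
        rw [Finset.mem_filter, Finset.mem_range]
        exact ⟨by omega, h7⟩
      intro hc
      exact h7.one_lt.ne' (Nat.dvd_one.1 (hc ▸ Nat.dvd_gcd (Nat.minFac_dvd _) h11))
    rw [if_neg h6] at h4
    have h12 : ((∑ J ∈ A, (mob O b J : ℝ)) : ℝ) = 0 := by exact_mod_cast h4
    rw [h12]
    norm_num
  · intro I
    obtain ⟨A, hA, hAN⟩ := DZN.bg_up hn hO I
    rw [hbF I A hA]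
    have h1 : ∀ j ∈ Finset.Icc 1 ⌊Real.exp T⌋₊, (aT g T j : ℂ) * Ajm O b j 1 I =
        ∑ J ∈ A with N J = j, (((mob O b J : ℝ) * aT g T (N J) : ℝ) : ℂ) := by
      intro j _
      rw [DZN.bg_Ajm hn hO b j I A hA, Finset.mul_sum]
      refine Finset.sum_congr rfl fun J hJ => ?_
      rw [Finset.mem_filter] at hJ
      rw [hJ.2]
      push_cast
      ring
    rw [Finset.sum_congr rfl h1, Complex.ofReal_sum]
    have h2 : ∀ J ∈ A, (((mob O b J : ℝ) * aT g T (N J) : ℝ) : ℂ) ≠ 0 →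
        N J ∈ Finset.Icc 1 ⌊Real.exp T⌋₊ := by
      intro J _ hJ
      rw [Finset.mem_Icc]
      refine ⟨hNpos J, ?_⟩
      have h3 : aT g T (N J) ≠ 0 := by
        intro h0
        exact hJ (by rw [h0]; simp)
      exact Nat.le_floor (ta3_g hn hO hg hT (N J) (hNpos J) h3).le
    rw [← Finset.sum_filter_of_ne (p := fun J => N J ∈ Finset.Icc 1 ⌊Real.exp T⌋₊)
      (fun J hJ hne => h2 J hJ hne)]
    have h3 := Finset.sum_fiberwise_of_maps_to (s := A.filter
      (fun J => N J ∈ Finset.Icc 1 ⌊Real.exp T⌋₊)) (t := Finset.Icc 1 ⌊Real.exp T⌋₊)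
      (g := fun J : Idl O => N J) (fun J hJ => (Finset.mem_filter.1 hJ).2)
      (fun J => (((mob O b J : ℝ) * aT g T (N J) : ℝ) : ℂ))
    rw [← h3]
    refine Finset.sum_congr rfl fun j hj => ?_
    rw [Finset.filter_filter]
    refine Finset.sum_congr ?_ fun _ _ => rfl
    ext J
    simp only [Finset.mem_filter]
    constructor
    · rintro ⟨h4, _, h5⟩
      exact ⟨h4, h5⟩
    · rintro ⟨h4, h5⟩
      exact ⟨h4, h5 ▸ hj, h5⟩

end

end Pool.Agent.RZH

namespace Pool.Agent.RZH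

theorem cT_facts : type_of% @cT_facts_pr := @cT_facts_pr

end Pool.Agent.RZH
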