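import Pool.Agent.Lib_helper32.LAL.SD2
import Pool.Agent.Lib_helper32.LALS.S_SD1
import Pool.Agent.Lib_helper75.RZG.Defs
import Pool.Agent.Lib_helper96.GLF.O_OA3
import Pool.Agent.Lib_helper96.GLF.O_OE
import Pool.Agent.Lib_helper96.GLL.Defs

/-!
# Project RZG, block S4a: Möbius inversion over the ideals above
-/

set_option autoImplicit false

namespace Pool.Agent.RZH

open MeasureTheory Matrix Complex Filter Topology Pool.Agent.GLL Pool.Agent.LAL
open scoped ENNReal ContDiff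

noncomputable section

variable {n : ℕ} {O : Subring (Mt n)}

theorem s4a_mem (hn : 2 ≤ n) (hO : GLL.Ord O) (J K : Idl O) : K ∈ AI J ↔ J ≤ K :=
  LAL.mem_AI_pr hn hO J K

theorem s4a_self (hn : 2 ≤ n) (hO : GLL.Ord O) (J : Idl O) : J ∈ AI J :=
  (s4a_mem hn hO J J).2 le_rfl

theorem s4a_lt (hn : 2 ≤ n) (hO : GLL.Ord O) {K K' : Idl O} (h : K ≤ K') (hne : K' ≠ K) :
    N K' < N K := by
  have h4 := GLL.IF_dvd hn hO K' K h
  exact lt_of_le_of_ne (Nat.le_of_dvd (GLL.IF_gen hn hO K).2.2.1 h4.1) fun h => hne (h4.2 h)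

theorem s4a_erase (hn : 2 ≤ n) (hO : GLL.Ord O) {K K' : Idl O} [DecidableEq (Idl O)]
    (h : K' ∈ (AI K).erase K) : K ≤ K' ∧ N K' < N K := by
  rw [Finset.mem_erase, s4a_mem hn hO] at h
  exact ⟨h.2, s4a_lt hn hO h.2 h.1⟩

theorem s4a_step (hn : 2 ≤ n) (hO : GLL.Ord O) [DecidableEq (Idl O)] {F v : Idl O → ℝ}
    (h : IsMi F v) (K : Idl O) : v K = F K - ∑ K' ∈ (AI K).erase K, v K' := by
  have h1 := h K
  rw [← Finset.add_sum_erase (AI K) v (s4a_self hn hO K)] at h1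
  linarith

theorem s4a_exists (hn : 2 ≤ n) (hO : GLL.Ord O) (F : Idl O → ℝ) : ∃ v, IsMi F v := by
  classical
  let G : ∀ K : Idl O, (∀ K' : Idl O, N K' < N K → ℝ) → ℝ := fun K ih =>
    F K - ∑ K' ∈ (AI K).erase K, if h : N K' < N K then ih K' h else 0
  have wf : WellFounded (fun K' K : Idl O => N K' < N K) := InvImage.wf N Nat.lt_wfRel.wf
  refine ⟨wf.fix G, fun K => ?_⟩
  have h1 : wf.fix G K = F K - ∑ K' ∈ (AI K).erase K,
      if _h : N K' < N K then wf.fix G K' else 0 := wf.fix_eq G K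
  have h2 : ∑ K' ∈ (AI K).erase K, (if _h : N K' < N K then wf.fix G K' else 0) =
      ∑ K' ∈ (AI K).erase K, wf.fix G K' :=
    Finset.sum_congr rfl fun K' hK' => dif_pos (s4a_erase hn hO hK').2
  rw [← Finset.add_sum_erase (AI K) _ (s4a_self hn hO K), h1, h2]
  ring

theorem mi_spec_pr (hn : 2 ≤ n) (hO : GLL.Ord O) (F : Idl O → ℝ) : IsMi F (mi F) := by
  have h := s4a_exists hn hO F
  unfold mi
  rw [dif_pos h]
  exact h.choose_spec

/-- local uniqueness -/
theorem s4a_loc (hn : 2 ≤ n) (hO : GLL.Ord O) {F F' v v' : Idl O → ℝ} (hv : IsMi F v)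
    (hv' : IsMi F' v') : ∀ (m : ℕ) (K : Idl O), N K = m → (∀ M, K ≤ M → F M = F' M) →
      v K = v' K := by
  classical
  intro m
  induction m using Nat.strong_induction_on with
  | _ m ih =>
    intro K hK h
    rw [s4a_step hn hO hv K, s4a_step hn hO hv' K, h K le_rfl]
    congr 1
    refine Finset.sum_congr rfl fun K' hK' => ?_
    have h1 := s4a_erase hn hO hK'
    exact ih (N K') (hK ▸ h1.2) K' rfl fun M hM => h M (h1.1.trans hM)

theorem mi_uniq_pr (hn : 2 ≤ n) (hO : GLL.Ord O) {F v : Idl O → ℝ} (h : IsMi F v) : v = mi F := by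
  funext K
  exact s4a_loc hn hO h (mi_spec_pr hn hO F) (N K) K rfl fun _ _ => rfl

/-- the value at `K` depends on the ideals above `K` only -/
theorem mi_loc_pr (hn : 2 ≤ n) (hO : GLL.Ord O) {F F' : Idl O → ℝ} {K : Idl O}
    (h : ∀ M, K ≤ M → F M = F' M) : mi F K = mi F' K :=
  s4a_loc hn hO (mi_spec_pr hn hO F) (mi_spec_pr hn hO F') (N K) K rfl h

theorem s4a_zero (hn : 2 ≤ n) (hO : GLL.Ord O) : mi (fun _ : Idl O => (0 : ℝ)) = 0 := by
  refine (mi_uniq_pr hn hO (v := 0) fun K => ?_).symm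
  simp

theorem s4a_mu (hn : 2 ≤ n) (hO : GLL.Ord O) {K' K : Idl O} (h : ¬ K ≤ K') : mu K' K = 0 := by
  classical
  have h1 : mi (fun M : Idl O => if M = K' then (1 : ℝ) else 0) K =
      mi (fun _ : Idl O => (0 : ℝ)) K := by
    refine mi_loc_pr hn hO fun M hM => ?_
    rw [if_neg]
    rintro rfl
    exact h hM
  have h2 : mu K' K = mi (fun M : Idl O => if M = K' then (1 : ℝ) else 0) K := by
    unfold mu
    congr!
  rw [h2, h1, s4a_zero hn hO]
  rfl

theorem s4a_muspec (hn : 2 ≤ n) (hO : GLL.Ord O) [DecidableEq (Idl O)] (K' K : Idl O) :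
    ∑ K1 ∈ AI K, mu K' K1 = if K = K' then 1 else 0 := by
  have h := mi_spec_pr hn hO (fun M : Idl O => if M = K' then (1 : ℝ) else 0) K
  have h2 : ∀ K1, mu K' K1 = mi (fun M : Idl O => if M = K' then (1 : ℝ) else 0) K1 := by
    intro K1
    unfold mu
    congr!
  simp only [h2]
  exact h

theorem mi_mu_pr (hn : 2 ≤ n) (hO : GLL.Ord O) (F : Idl O → ℝ) (K : Idl O) :
    mi F K = ∑ K' ∈ AI K, mu K' K * F K' := by
  classical
  have key : IsMi F (fun K => ∑ K' ∈ AI K, mu K' K * F K') := by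
    intro K
    have h1 : ∀ K1 ∈ AI K, ∑ K' ∈ AI K1, mu K' K1 * F K' = ∑ K' ∈ AI K, mu K' K1 * F K' := by
      intro K1 hK1
      rw [s4a_mem hn hO] at hK1
      refine Finset.sum_subset ?_ ?_
      · intro K' hK'
        rw [s4a_mem hn hO] at hK' ⊢
        exact hK1.trans hK'
      · intro K' _ hK'
        rw [s4a_mem hn hO] at hK'
        rw [s4a_mu hn hO hK', zero_mul]
    show ∑ K1 ∈ AI K, ∑ K' ∈ AI K1, mu K' K1 * F K' = F K
    rw [Finset.sum_congr rfl h1, Finset.sum_comm]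
    have h2 : ∀ K' ∈ AI K, ∑ K1 ∈ AI K, mu K' K1 * F K' = if K = K' then F K' else 0 := by
      intro K' _
      rw [← Finset.sum_mul, s4a_muspec hn hO]
      split_ifs <;> simp
    rw [Finset.sum_congr rfl h2, Finset.sum_ite_eq, if_pos (s4a_self hn hO K)]
  rw [← mi_uniq_pr hn hO key]


end

end Pool.Agent.RZH

namespace Pool.Agent.RZH

theorem mi_loc : type_of% @mi_loc_pr := @mi_loc_pr

theorem mi_mu : type_of% @mi_mu_pr := @mi_mu_pr

theorem mi_spec : type_of% @mi_spec_pr := @mi_spec_pr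

theorem mi_uniq : type_of% @mi_uniq_pr := @mi_uniq_pr

end Pool.Agent.RZH
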