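import Pool.Agent.Lib_helper32.LAL.SD2
import Pool.Agent.Lib_helper32.LALS.S_SD1
import Pool.Agent.Lib_helper41.RZGF.R_S4a
import Pool.Agent.Lib_helper75.RZG.Defs
import Pool.Agent.Lib_helper96.GLF.O_OA3
import Pool.Agent.Lib_helper96.GLF.O_OI
import Pool.Agent.Lib_helper96.GLL.Defs
import Pool.Agent.Lib_helper96.GLL.DefsB

/-!
# Project RZG, block S5a: `cs` is not negative
-/

set_option autoImplicit false

namespace Pool.Agent.RZH

open MeasureTheory Matrix Complex Filter Topology Pool.Agent.GLL Pool.Agent.LAL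
open scoped ENNReal ContDiff

noncomputable section

variable {n : ℕ} {O : Subring (Mt n)}

/-- the subgroup of `O` of the elements of `K` -/
def s5a_K (K : Idl O) : AddSubgroup O := K.1.comap (O.subtype : O →+* Mt n).toAddMonoidHom

theorem s5a_memK (K : Idl O) (x : O) : x ∈ s5a_K K ↔ (x : Mt n) ∈ K.1 := Iff.rfl

theorem s5a_index (hn : 2 ≤ n) (hO : GLL.Ord O) (K : Idl O) : (s5a_K K).index = N K ^ n := by
  have h1 : (s5a_K K).index =
      K.1.relIndex (AddMonoidHom.range (O.subtype : O →+* Mt n).toAddMonoidHom) :=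
    AddSubgroup.index_comap _ _
  have h2 : AddMonoidHom.range (O.subtype : O →+* Mt n).toAddMonoidHom = O.toAddSubgroup := by
    ext x
    constructor
    · rintro ⟨y, rfl⟩
      exact y.2
    · intro hx
      exact ⟨⟨x, hx⟩, rfl⟩
  rw [h1, h2]
  exact LAL.ix_N_pr hn hO K

/-- the characters of `O` which are trivial on `K` -/
def s5a_X (K : Idl O) : Set (AddChar O ℂ) := {χ | ∀ x : O, (x : Mt n) ∈ K.1 → χ x = 1}

theorem s5a_range (K : Idl O) : s5a_X K =
    Set.range fun ψ : AddChar (O ⧸ s5a_K K) ℂ =>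
      ψ.compAddMonoidHom (QuotientAddGroup.mk' (s5a_K K)) := by
  ext χ
  constructor
  · intro hχ
    refine ⟨AddChar.toAddMonoidHomEquiv.symm
      (QuotientAddGroup.lift (s5a_K K) χ.toAddMonoidHom fun x hx => ?_), ?_⟩
    · rw [AddMonoidHom.mem_ker, AddChar.toAddMonoidHom_apply, hχ x hx]
      rfl
    · ext x
      rfl
  · rintro ⟨ψ, rfl⟩ x hx
    have h1 : (QuotientAddGroup.mk' (s5a_K K)) x = 0 := by
      rw [QuotientAddGroup.mk'_apply]
      exact (QuotientAddGroup.eq_zero_iff x).2 hx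
    show ψ ((QuotientAddGroup.mk' (s5a_K K)) x) = 1
    rw [h1, AddChar.map_zero_eq_one]

theorem s5a_card (hn : 2 ≤ n) (hO : GLL.Ord O) (K : Idl O) :
    (s5a_X K).Finite ∧ (s5a_X K).ncard = N K ^ n := by
  have hi := s5a_index hn hO K
  have hN : N K ^ n ≠ 0 := pow_ne_zero _ (GLL.IF_gen hn hO K).2.2.1.ne'
  have hfin : (s5a_K K).FiniteIndex := ⟨by rw [hi]; exact hN⟩
  have hfin' : Finite (O ⧸ s5a_K K) := AddSubgroup.finite_quotient_of_finiteIndex
  have : Fintype (O ⧸ s5a_K K) := Fintype.ofFinite _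
  have hinj : Function.Injective fun ψ : AddChar (O ⧸ s5a_K K) ℂ =>
      ψ.compAddMonoidHom (QuotientAddGroup.mk' (s5a_K K)) :=
    AddChar.compAddMonoidHom_injective_left _ (QuotientAddGroup.mk'_surjective _)
  rw [s5a_range K]
  refine ⟨Set.finite_range _, ?_⟩
  rw [← Set.image_univ, Set.ncard_image_of_injective _ hinj, Set.ncard_univ,
    Nat.card_eq_fintype_card, AddChar.card_eq, ← Nat.card_eq_fintype_card]
  exact hi

theorem s5a_mono {J K : Idl O} (h : J ≤ K) : s5a_X K ⊆ s5a_X J := fun _ hχ x hx => hχ x (h hx)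

theorem s5a_sup (hn : 2 ≤ n) (hO : GLL.Ord O) {K K' : Idl O} {χ : AddChar O ℂ}
    (h : χ ∈ s5a_X K) (h' : χ ∈ s5a_X K') : χ ∈ s5a_X (supI K K') := by
  intro x hx
  have h1 : (x : Mt n) ∈ K.1 ⊔ K'.1 := by
    rw [← (GLL.IF_inf hn hO K K').2.1]
    exact hx
  obtain ⟨y, hy, z, hz, hyz⟩ := AddSubgroup.mem_sup.1 h1
  have hyO : y ∈ O := K.2.2.1 y hy
  have hzO : z ∈ O := K'.2.2.1 z hz
  have h2 : x = (⟨y, hyO⟩ : O) + ⟨z, hzO⟩ := Subtype.ext hyz.symm
  rw [h2, AddChar.map_add_eq_mul, h ⟨y, hyO⟩ hy, h' ⟨z, hzO⟩ hz, one_mul]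

/-- the largest ideal on which a character is trivial -/
theorem s5a_max (hn : 2 ≤ n) (hO : GLL.Ord O) {J : Idl O} {χ : AddChar O ℂ} (h : χ ∈ s5a_X J) :
    ∃ M : Idl O, J ≤ M ∧ ∀ K : Idl O, J ≤ K → (χ ∈ s5a_X K ↔ K ≤ M) := by
  classical
  set S : Finset (Idl O) := (AI J).filter fun K => χ ∈ s5a_X K with hS
  have hmem : ∀ K, K ∈ S ↔ J ≤ K ∧ χ ∈ s5a_X K := by
    intro K
    rw [hS, Finset.mem_filter, LAL.mem_AI_pr hn hO]
  have hne : S.Nonempty := ⟨J, (hmem J).2 ⟨le_rfl, h⟩⟩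
  obtain ⟨M, hM⟩ := S.exists_maximal hne
  have hM1 := (hmem M).1 hM.1
  refine ⟨M, hM1.1, fun K hK => ⟨fun hχ => ?_, fun hKM => s5a_mono hKM hM1.2⟩⟩
  have e := (GLL.IF_inf hn hO K M).2.1
  have h1 : K ≤ supI K M := by
    show K.1 ≤ (supI K M).1
    rw [e]
    exact le_sup_left
  have h2 : M ≤ supI K M := by
    show M.1 ≤ (supI K M).1
    rw [e]
    exact le_sup_right
  have h3 : supI K M ∈ S := (hmem _).2 ⟨hK.trans h1, s5a_sup hn hO hχ hM1.2⟩
  exact h1.trans (hM.2 h3 h2)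

theorem cs_nonneg_pr (hn : 2 ≤ n) (hO : GLL.Ord O) (K : Idl O) : 0 ≤ cs K := by
  classical
  -- `J` is the ideal in question
  set J := K with hJ
  have hfin := (s5a_card hn hO J).1
  set X : Finset (AddChar O ℂ) := hfin.toFinset with hX
  have hXm : ∀ χ, χ ∈ X ↔ χ ∈ s5a_X J := fun χ => hfin.mem_toFinset
  have hmax : ∀ χ : AddChar O ℂ, ∃ M : Idl O, χ ∈ s5a_X J →
      (J ≤ M ∧ ∀ K : Idl O, J ≤ K → (χ ∈ s5a_X K ↔ K ≤ M)) := by
    intro χ
    by_cases h : χ ∈ s5a_X J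
    · obtain ⟨M, hM⟩ := s5a_max hn hO h
      exact ⟨M, fun _ => hM⟩
    · exact ⟨J, fun h' => absurd h' h⟩
  choose M hM using hmax
  set v : Idl O → ℝ := fun K => ((X.filter fun χ => M χ = K).card : ℝ) with hv
  have hsum : ∀ K : Idl O, J ≤ K → ∑ K' ∈ AI K, v K' = (N K : ℝ) ^ n := by
    intro K hK
    have h1 : (X.filter fun χ => K ≤ M χ).card = N K ^ n := by
      rw [← (s5a_card hn hO K).2, ← Set.ncard_coe_finset]
      congr 1
      ext χ
      rw [Finset.mem_coe, Finset.mem_filter, hXm]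
      constructor
      · rintro ⟨h2, h3⟩
        exact ((hM χ h2).2 K hK).2 h3
      · intro h2
        have h3 := s5a_mono hK h2
        exact ⟨h3, ((hM χ h3).2 K hK).1 h2⟩
    have h2 : (X.filter fun χ => K ≤ M χ).card =
        ∑ K' ∈ AI K, (X.filter fun χ => M χ = K').card := by
      rw [Finset.card_eq_sum_card_fiberwise (f := M) (t := AI K)]
      · refine Finset.sum_congr rfl fun K' hK' => ?_
        rw [LAL.mem_AI_pr hn hO] at hK'
        congr 1
        ext χ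
        simp only [Finset.mem_filter]
        constructor
        · rintro ⟨⟨h3, _⟩, h4⟩
          exact ⟨h3, h4⟩
        · rintro ⟨h3, h4⟩
          exact ⟨⟨h3, h4 ▸ hK'⟩, h4⟩
      · intro χ hχ
        rw [Finset.mem_coe, Finset.mem_filter] at hχ
        exact Finset.mem_coe.2 ((LAL.mem_AI_pr hn hO K _).2 hχ.2)
    rw [hv]
    simp only
    rw [← Nat.cast_sum, ← h2, h1]
    push_cast
    rfl
  have h1 : cs J = mi (fun K => ∑ K' ∈ AI K, v K') J := by
    unfold cs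
    exact mi_loc hn hO fun K hK => (hsum K hK).symm
  have h2 : v = mi (fun K => ∑ K' ∈ AI K, v K') := mi_uniq hn hO fun K => rfl
  rw [h1, ← h2]
  exact Nat.cast_nonneg _


end

end Pool.Agent.RZH

namespace Pool.Agent.RZH

theorem cs_nonneg : type_of% @cs_nonneg_pr := @cs_nonneg_pr

end Pool.Agent.RZH
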