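import Pool.Agent.Lib_helper32.LAL.SD2
import Pool.Agent.Lib_helper32.LAL.SDefs
import Pool.Agent.Lib_helper32.LALS.S_SD1
import Pool.Agent.Lib_helper32.LALS.S_SD2
import Pool.Agent.Lib_helper41.RZGF.R_S4a
import Pool.Agent.Lib_helper75.DZNF.L4
import Pool.Agent.Lib_helper75.RZG.Defs
import Pool.Agent.Lib_helper96.GLF.O_OA3
import Pool.Agent.Lib_helper96.GLF.O_OE
import Pool.Agent.Lib_helper96.GLF.O_OI
import Pool.Agent.Lib_helper96.GLL.Defs
import Pool.Agent.Lib_helper96.GLL.DefsB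

/-!
# RZG block S4b: ideals above a coprime intersection; multiplicativity of the inversion
-/

set_option autoImplicit false

namespace Pool.Agent.RZH

open MeasureTheory Matrix Complex Filter Topology Pool.Agent.GLL Pool.Agent.LAL
open scoped ENNReal ContDiff

noncomputable section

variable {n : ℕ} {O : Subring (Mt n)}

/-- the index lies in the ideal -/
theorem s4b_mem (hn : 2 ≤ n) (hO : GLL.Ord O) (K : Idl O) : ((N K ^ n : ℕ) : Mt n) ∈ K.1 := by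
  have h1 : ix O K.1 = N K ^ n := ix_N hn hO K
  have h2 := AddSubgroup.nsmul_index_mem (K.1.addSubgroupOf O.toAddSubgroup)
    (⟨1, O.one_mem⟩ : O.toAddSubgroup)
  have h3 : (K.1.addSubgroupOf O.toAddSubgroup).index = N K ^ n := h1
  rw [h3, AddSubgroup.mem_addSubgroupOf] at h2
  simpa using h2

theorem s4b_pos (hn : 2 ≤ n) (hO : GLL.Ord O) (K : Idl O) : 0 < N K ^ n :=
  Nat.pow_pos (IF_gen hn hO K).2.2.1

theorem s4b_cop (n : ℕ) {x y : ℕ} (h : x.Coprime y) : (x ^ n).Coprime (y ^ n) := Nat.Coprime.pow n n h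

/-- comparison at a coprime intersection -/
theorem s4b_le (hn : 2 ≤ n) (hO : GLL.Ord O) {b c : ℕ} (h : b.Coprime c) {M M' L : Idl O}
    (hL : (b : Mt n) ∈ L.1) (hM' : (c : Mt n) ∈ M'.1) (hle : infI M M' ≤ L) : M ≤ L := by
  intro x hx
  have hxO : x ∈ O := M.2.2.1 x hx
  refine sd2_cop L.1 (b := c) (m := b) h ?_ (sd2_bO L hL hxO)
  apply hle
  rw [(IF_inf hn hO M M').1]
  exact AddSubgroup.mem_inf.2 ⟨sd2_natmul M.1 c hx, sd2_bO M' hM' hxO⟩

theorem s4b_comm (hn : 2 ≤ n) (hO : GLL.Ord O) (M M' : Idl O) : infI M M' = infI M' M := by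
  apply Subtype.ext
  rw [(IF_inf hn hO M M').1, (IF_inf hn hO M' M).1, inf_comm]

/-- the ideals above a coprime intersection -/
theorem AI_inf_pr (hn : 2 ≤ n) (hO : GLL.Ord O) {K K' : Idl O} (h : (N K).Coprime (N K')) :
    (∀ M ∈ AI K, ∀ M' ∈ AI K', (N M).Coprime (N M') ∧ infI M M' ∈ AI (infI K K')) ∧
    (∀ f : Idl O → ℝ, ∑ M ∈ AI (infI K K'), f M = ∑ M ∈ AI K, ∑ M' ∈ AI K', f (infI M M')) ∧
    ∀ M ∈ AI K, ∀ M' ∈ AI K', ∀ L ∈ AI K, ∀ L' ∈ AI K',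
      (infI M M' ≤ infI L L' ↔ M ≤ L ∧ M' ≤ L') ∧ (infI M M' = infI L L' ↔ M = L ∧ M' = L') := by
  classical
  set b : ℕ := N K ^ n with hb
  set c : ℕ := N K' ^ n with hc
  have hb0 : 0 < b := s4b_pos hn hO K
  have hc0 : 0 < c := s4b_pos hn hO K'
  have hbc : b.Coprime c := s4b_cop n h
  have hbK : (b : Mt n) ∈ K.1 := s4b_mem hn hO K
  have hcK : (c : Mt n) ∈ K'.1 := s4b_mem hn hO K'
  have hB : ∀ M ∈ AI K, (b : Mt n) ∈ M.1 := fun M hM => ((mem_AI hn hO K M).1 hM) hbK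
  have hC : ∀ M ∈ AI K', (c : Mt n) ∈ M.1 := fun M hM => ((mem_AI hn hO K' M).1 hM) hcK
  have h1 : ∀ M ∈ AI K, ∀ M' ∈ AI K', (N M).Coprime (N M') ∧ infI M M' ∈ AI (infI K K') := by
    intro M hM M' hM'
    have h2 := DZL.crt_mem_pr hn hO hb0 hc0 hbc (hB M hM) (hC M' hM')
    refine ⟨h2.2.2.2.2.1, ?_⟩
    rw [mem_AI hn hO]
    have h3 := (DZL.la_le hn hO K K' (infI K K')).1 le_rfl
    exact (DZL.la_le hn hO M M' _).2 ⟨h3.1.trans ((mem_AI hn hO _ _).1 hM),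
      h3.2.trans ((mem_AI hn hO _ _).1 hM')⟩
  have h3 : ∀ M ∈ AI K, ∀ M' ∈ AI K', ∀ L ∈ AI K, ∀ L' ∈ AI K',
      (infI M M' ≤ infI L L' ↔ M ≤ L ∧ M' ≤ L') := by
    intro M hM M' hM' L hL L' hL'
    rw [DZL.la_le hn hO L L']
    constructor
    · rintro ⟨h4, h5⟩
      refine ⟨s4b_le hn hO hbc (hB L hL) (hC M' hM') h4, ?_⟩
      rw [s4b_comm hn hO] at h5
      exact s4b_le hn hO hbc.symm (hC L' hL') (hB M hM) h5
    · rintro ⟨h4, h5⟩
      have h6 := (DZL.la_le hn hO M M' (infI M M')).1 le_rfl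
      exact ⟨h6.1.trans h4, h6.2.trans h5⟩
  have h4 : ∀ M ∈ AI K, ∀ M' ∈ AI K', ∀ L ∈ AI K, ∀ L' ∈ AI K',
      (infI M M' = infI L L' ↔ M = L ∧ M' = L') := by
    intro M hM M' hM' L hL L' hL'
    constructor
    · intro he
      have h5 := (h3 M hM M' hM' L hL L' hL').1 he.le
      have h6 := (h3 L hL L' hL' M hM M' hM').1 he.ge
      exact ⟨le_antisymm h5.1 h6.1, le_antisymm h5.2 h6.2⟩
    · rintro ⟨rfl, rfl⟩
      rfl
  refine ⟨h1, ?_, fun M hM M' hM' L hL L' hL' => ⟨h3 M hM M' hM' L hL L' hL',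
    h4 M hM M' hM' L hL L' hL'⟩⟩
  intro f
  rw [← Finset.sum_product']
  symm
  refine Finset.sum_bij (fun p _ => infI p.1 p.2) ?_ ?_ ?_ ?_
  · intro p hp
    rw [Finset.mem_product] at hp
    exact (h1 _ hp.1 _ hp.2).2
  · intro p hp p' hp' he
    rw [Finset.mem_product] at hp hp'
    have h5 := (h4 _ hp.1 _ hp.2 _ hp'.1 _ hp'.2).1 he
    exact Prod.ext h5.1 h5.2
  · intro L hL
    have hL' := (mem_AI hn hO _ _).1 hL
    have h5 : ((b * c : ℕ) : Mt n) ∈ L.1 := hL' (DZL.crt_mem_pr hn hO hb0 hc0 hbc hbK hcK).1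
    obtain ⟨I, J, hI, hJ, he⟩ := DZL.crt_surj_pr hn hO hb0 hc0 hbc h5
    have h6 := (DZL.la_le hn hO I J L).1 he.le
    have hI' : K ≤ I := s4b_le hn hO hbc hI hcK (hL'.trans h6.1)
    have hJ' : K' ≤ J := by
      refine s4b_le hn hO hbc.symm hJ hbK ?_
      rw [s4b_comm hn hO]
      exact hL'.trans h6.2
    exact ⟨(I, J), Finset.mem_product.2 ⟨(mem_AI hn hO _ _).2 hI', (mem_AI hn hO _ _).2 hJ'⟩,
      he.symm⟩
  · intro p _
    rfl

/-- functions which are products on coprime ideals -/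
theorem mi_mul_pr (hn : 2 ≤ n) (hO : GLL.Ord O) {F : Idl O → ℝ}
    (hF : ∀ M M' : Idl O, (N M).Coprime (N M') → F (infI M M') = F M * F M') {K K' : Idl O}
    (h : (N K).Coprime (N K')) : mi F (infI K K') = mi F K * mi F K' := by
  classical
  have hmi := mi_spec hn hO F
  suffices H : ∀ m : ℕ, ∀ K K' : Idl O, N K * N K' = m → (N K).Coprime (N K') →
      mi F (infI K K') = mi F K * mi F K' from H _ K K' rfl h
  intro m
  induction m using Nat.strong_induction_on with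
  | _ m ih =>
  intro K K' hm h
  have hA := AI_inf_pr hn hO h
  have e1 := hmi (infI K K')
  rw [hA.2.1, hF K K' h, ← hmi K, ← hmi K', Finset.sum_mul_sum, ← Finset.sum_product',
    ← Finset.sum_product'] at e1
  have hmem : (K, K') ∈ AI K ×ˢ AI K' := Finset.mem_product.2
    ⟨(mem_AI hn hO _ _).2 le_rfl, (mem_AI hn hO _ _).2 le_rfl⟩
  rw [← Finset.add_sum_erase _ _ hmem, ← Finset.add_sum_erase (AI K ×ˢ AI K')
    (fun p : Idl O × Idl O => mi F p.1 * mi F p.2) hmem] at e1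
  have e2 : ∑ p ∈ (AI K ×ˢ AI K').erase (K, K'), mi F (infI p.1 p.2) =
      ∑ p ∈ (AI K ×ˢ AI K').erase (K, K'), mi F p.1 * mi F p.2 := by
    refine Finset.sum_congr rfl fun p hp => ?_
    rw [Finset.mem_erase, Finset.mem_product] at hp
    obtain ⟨hne, hp1, hp2⟩ := hp
    have h1 := (hA.1 _ hp1 _ hp2).1
    have d1 := IF_dvd hn hO p.1 K ((mem_AI hn hO _ _).1 hp1)
    have d2 := IF_dvd hn hO p.2 K' ((mem_AI hn hO _ _).1 hp2)
    have g1 := (IF_gen hn hO K).2.2.1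
    have g2 := (IF_gen hn hO K').2.2.1
    have l1 := Nat.le_of_dvd g1 d1.1
    have l2 := Nat.le_of_dvd g2 d2.1
    have hlt : N p.1 * N p.2 < m := by
      rw [← hm]
      by_cases q1 : N p.1 = N K
      · have q2 : N p.2 ≠ N K' := fun q2 => hne (Prod.ext (d1.2 q1) (d2.2 q2))
        rw [q1]
        exact Nat.mul_lt_mul_of_pos_left (lt_of_le_of_ne l2 q2) g1
      · exact Nat.mul_lt_mul_of_lt_of_le (lt_of_le_of_ne l1 q1) l2
          (lt_of_lt_of_le (IF_gen hn hO p.2).2.2.1 l2)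
    exact ih _ hlt p.1 p.2 rfl h1
  rw [e2] at e1
  exact add_right_cancel e1


end

end Pool.Agent.RZH

namespace Pool.Agent.RZH

theorem AI_inf : type_of% @AI_inf_pr := @AI_inf_pr

theorem mi_mul : type_of% @mi_mul_pr := @mi_mul_pr

end Pool.Agent.RZH
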