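import Pool.Agent.Lib_helper32.LAL.SD2
import Pool.Agent.Lib_helper32.LALS.S_SD1
import Pool.Agent.Lib_helper41.RZGF.R_S4a
import Pool.Agent.Lib_helper41.RZGF.R_S4b
import Pool.Agent.Lib_helper41.RZGF.R_S5a
import Pool.Agent.Lib_helper75.DZNF.L4
import Pool.Agent.Lib_helper75.RZG.Defs
import Pool.Agent.Lib_helper96.GLF.O_OB
import Pool.Agent.Lib_helper96.GLF.O_OE
import Pool.Agent.Lib_helper96.GLF.O_OK2
import Pool.Agent.Lib_helper96.GLL.Defs
import Pool.Agent.Lib_helper96.GLL.DefsB

/-!
# Project RZG, block S5b: facts about `cs`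
-/

set_option autoImplicit false

namespace Pool.Agent.RZH

open MeasureTheory Matrix Complex Filter Topology Pool.Agent.GLL Pool.Agent.LAL
open scoped ENNReal ContDiff

noncomputable section

variable {n : ℕ} {O : Subring (Mt n)}

private theorem s5b_spec (hn : 2 ≤ n) (hO : GLL.Ord O) (K : Idl O) :
    ∑ K' ∈ AI K, cs K' = (N K : ℝ) ^ n :=
  mi_spec hn hO (fun K : Idl O => (N K : ℝ) ^ n) K

private theorem s5b_self (hn : 2 ≤ n) (hO : GLL.Ord O) (K : Idl O) : K ∈ AI K :=
  (Pool.Agent.LAL.mem_AI_pr hn hO K K).2 le_rfl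

theorem cs_facts_pr (hn : 2 ≤ n) (hO : GLL.Ord O) :
    (∀ K : Idl O, ∑ K' ∈ AI K, cs K' = (N K : ℝ) ^ n) ∧ (∀ K : Idl O, cs K ≤ (N K : ℝ) ^ n) ∧
    (∀ K : Idl O, N K = 1 → cs K = 1) ∧
    (∀ K : Idl O, (N K).Prime → cs K = (N K : ℝ) ^ n - 1) ∧
    ∀ K K' : Idl O, (N K).Coprime (N K') → cs (infI K K') = cs K * cs K' := by
  classical
  have h1 : ∀ K : Idl O, N K = 1 → cs K = 1 := by
    intro K hK
    have hA : AI K = {K} := by
      ext K'
      rw [Pool.Agent.LAL.mem_AI_pr hn hO, Finset.mem_singleton]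
      constructor
      · intro h
        have h2 := IF_dvd hn hO K' K h
        exact h2.2 (by rw [hK] at h2 ⊢; exact Nat.dvd_one.1 h2.1)
      · intro h
        rw [h]
    have h2 := s5b_spec hn hO K
    rw [hA, Finset.sum_singleton, hK] at h2
    rw [h2]
    simp
  refine ⟨s5b_spec hn hO, fun K => ?_, h1, fun K hK => ?_, fun K K' h => ?_⟩
  · rw [← s5b_spec hn hO K]
    exact Finset.single_le_sum (f := cs) (fun K' _ => cs_nonneg hn hO K') (s5b_self hn hO K)
  · obtain ⟨T, hT, hT1, hTu⟩ := IF_top hn hO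
    have hKT : K ≠ T := by
      intro h
      rw [h, hT1] at hK
      exact Nat.not_prime_one hK
    have hA : AI K = {K, T} := by
      ext K'
      rw [Pool.Agent.LAL.mem_AI_pr hn hO, Finset.mem_insert, Finset.mem_singleton]
      constructor
      · intro h
        have h2 := IF_dvd hn hO K' K h
        rcases (Nat.dvd_prime hK).1 h2.1 with h3 | h3
        · exact Or.inr (hTu K' h3)
        · exact Or.inl (h2.2 h3)
      · rintro (h | h)
        · rw [h]
        · rw [h]
          show K.1 ≤ T.1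
          rw [hT]
          intro x hx
          exact K.2.2.1 x hx
    have h2 := s5b_spec hn hO K
    rw [hA, Finset.sum_pair hKT, h1 T hT1] at h2
    linarith
  · refine mi_mul hn hO (F := fun K : Idl O => (N K : ℝ) ^ n) (fun M M' hM => ?_) h
    rw [(IF_split' hn hO M M' hM).1]
    push_cast
    ring


end

end Pool.Agent.RZH

namespace Pool.Agent.RZH

theorem cs_facts : type_of% @cs_facts_pr := @cs_facts_pr

end Pool.Agent.RZH
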