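import Pool.Agent.Lib_helper32.LAL.SD2
import Pool.Agent.Lib_helper32.LALS.S_SC3
import Pool.Agent.Lib_helper42.GLM.Defs
import Pool.Agent.Lib_helper75.DZNF.L4
import Pool.Agent.Lib_helper75.DZNF.MD
import Pool.Agent.Lib_helper75.RZG.Defs
import Pool.Agent.Lib_helper96.GLF.O_OE
import Pool.Agent.Lib_helper96.GLF.O_OL2
import Pool.Agent.Lib_helper96.GLL.Defs
import Pool.Agent.Lib_helper96.GLL.DefsB

/-!
# Project RZG, block S6a: membership, finite sums
-/

set_option autoImplicit false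

namespace Pool.Agent.RZH

open MeasureTheory Matrix Complex Filter Topology Pool.Agent.GLL Pool.Agent.LAL
open scoped ENNReal ContDiff

noncomputable section

variable {n : ℕ} {O : Subring (Mt n)}

theorem mem_PI_pr (hn : 2 ≤ n) (hO : GLL.Ord O) {b : ℕ} (hb : 0 < b) (I : Idl O) :
    I ∈ PI O b ↔ (b : Mt n) ∈ I.1 := by
  have h := (IF_mob hn hO b hb).2.2.1
  rw [PI, dif_pos h, Set.Finite.mem_toFinset]
  rfl

theorem s6a_mem_AI (hn : 2 ≤ n) (hO : GLL.Ord O) (J K : Idl O) : K ∈ AI J ↔ J ≤ K := by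
  have h := (IF_sup hn hO J).1
  rw [AI, dif_pos h, Set.Finite.mem_toFinset]
  rfl

/-- the ideals above an ideal containing `b` -/
theorem AI_PI_pr (hn : 2 ≤ n) (hO : GLL.Ord O) {b : ℕ} (hb : 0 < b) {J : Idl O} (hJ : J ∈ PI O b)
    (f : Idl O → ℂ) : ∑ K ∈ AI J, f K =
      ∑ K ∈ PI O b, (open scoped Classical in if J ≤ K then f K else 0) := by
  classical
  rw [← Finset.sum_filter]
  have hJ' := (mem_PI_pr hn hO hb J).1 hJ
  refine Finset.sum_congr ?_ fun _ _ => rfl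
  ext K
  rw [Finset.mem_filter, s6a_mem_AI hn hO, mem_PI_pr hn hO hb]
  exact ⟨fun h => ⟨h hJ', h⟩, fun h => h.2⟩


end

end Pool.Agent.RZH

namespace Pool.Agent.RZH

theorem AI_PI : type_of% @AI_PI_pr := @AI_PI_pr

theorem mem_PI : type_of% @mem_PI_pr := @mem_PI_pr

end Pool.Agent.RZH
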