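import Pool.Agent.Lib_helper32.LAL.SD2
import Pool.Agent.Lib_helper41.RZGF.R_S5a
import Pool.Agent.Lib_helper41.RZGF.R_S5b
import Pool.Agent.Lib_helper41.RZGF.R_S6a
import Pool.Agent.Lib_helper42.GLM.Defs
import Pool.Agent.Lib_helper75.DZL.Defs
import Pool.Agent.Lib_helper75.DZN.Defs
import Pool.Agent.Lib_helper75.DZNF.TE
import Pool.Agent.Lib_helper75.DZNF.TM
import Pool.Agent.Lib_helper75.RZG.Defs
import Pool.Agent.Lib_helper96.GLF.M_MGA
import Pool.Agent.Lib_helper96.GLF.O_OB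
import Pool.Agent.Lib_helper96.GLF.O_OI
import Pool.Agent.Lib_helper96.GLF.O_OL2
import Pool.Agent.Lib_helper96.GLL.Defs
import Pool.Agent.Lib_helper96.GLL.DefsB

/-!
# Project RZG, block TF4: the diagonal sum at zero, the sum of the absolute values
-/

set_option autoImplicit false

namespace Pool.Agent.RZH

open MeasureTheory Matrix Complex Filter Topology Pool.Agent.GLL Pool.Agent.LAL
open scoped ENNReal ContDiff

noncomputable section

variable {n : ℕ} {O : Subring (Mt n)}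

/-! ### `S2 = S1` at zero -/

theorem TF4_sup (hn : 2 ≤ n) (hO : GLL.Ord O) (A A' K : Idl O) :
    supI A A' ≤ K ↔ A ≤ K ∧ A' ≤ K := by
  have h := (GLL.IF_inf hn hO A A').2.1
  constructor
  · intro hK
    have hK' : (supI A A').1 ≤ K.1 := hK
    rw [h] at hK'
    exact ⟨le_sup_left.trans hK', le_sup_right.trans hK'⟩
  · rintro ⟨h1, h2⟩
    show (supI A A').1 ≤ K.1
    rw [h]
    exact sup_le h1 h2

theorem TF4_memPI (hn : 2 ≤ n) (hO : GLL.Ord O) {b : ℕ} (hb : 0 < b) {A A' : Idl O}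
    (hA : A ∈ PI O b) : supI A A' ∈ PI O b := by
  rw [GLL.mem_PI hn hO hb] at hA ⊢
  rw [(GLL.IF_inf hn hO A A').2.1]
  exact (le_sup_left : A.1 ≤ A.1 ⊔ A'.1) hA

/-- the sum of `cs` above the sum of two ideals -/
theorem TF4_cs (hn : 2 ≤ n) (hO : GLL.Ord O) {b : ℕ} (hb : 0 < b) {A A' : Idl O}
    (hA : A ∈ PI O b) : (∑ K ∈ PI O b, (open scoped Classical in
      if A ≤ K ∧ A' ≤ K then cs K else 0)) = (N (supI A A') : ℝ) ^ n := by
  classical
  have h1 := AI_PI hn hO hb (TF4_memPI hn hO hb (A' := A') hA) (fun K => ((cs K : ℝ) : ℂ))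
  have h2 := (cs_facts hn hO).1 (supI A A')
  have h3 : ((∑ K ∈ AI (supI A A'), cs K : ℝ) : ℂ) =
      ((∑ K ∈ PI O b, (if A ≤ K ∧ A' ≤ K then cs K else 0) : ℝ) : ℂ) := by
    push_cast
    rw [h1]
    refine Finset.sum_congr rfl fun K _ => ?_
    by_cases hK : A ≤ K ∧ A' ≤ K
    · rw [if_pos hK, if_pos ((TF4_sup hn hO A A' K).2 hK)]
    · rw [if_neg hK, if_neg fun h => hK ((TF4_sup hn hO A A' K).1 h)]
      simp
  have h4 := Complex.ofReal_injective h3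
  rw [← h4, h2]

theorem TF4_pos (hn : 2 ≤ n) (hO : GLL.Ord O) {b : ℕ} (hb : 0 < b) {A : Idl O}
    (hA : A ∈ PI O b) : 0 < N A := (GLL.PI_norm hn hO hb hA).1

theorem S2_zero_pr (hn : 2 ≤ n) (hO : GLL.Ord O) {b : ℕ} (hb : 0 < b) (c : Idl O → ℝ) :
    S2 b c 0 = S1 b c 0 ∧ 0 ≤ S1 b c 0 := by
  classical
  have hz : ∀ K : Idl O, (N K : ℝ) ^ (-(0 : ℝ)) = 1 := fun K => by simp
  have h2 : S2 b c 0 = ∑ K ∈ PI O b, cs K * yK b c K ^ 2 := by
    unfold S2
    exact Finset.sum_congr rfl fun K _ => by rw [hz K, mul_one]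
  have hkey : S2 b c 0 = S1 b c 0 := by
    rw [h2]
    have h3 : ∀ K : Idl O, cs K * yK b c K ^ 2 = ∑ A ∈ PI O b, ∑ A' ∈ PI O b,
        (c A * ((N A : ℝ) ^ n)⁻¹) * (c A' * ((N A' : ℝ) ^ n)⁻¹) *
          (if A ≤ K ∧ A' ≤ K then cs K else 0) := by
      intro K
      unfold yK
      rw [sq, Finset.sum_mul_sum, Finset.mul_sum]
      refine Finset.sum_congr rfl fun A _ => ?_
      rw [Finset.mul_sum]
      refine Finset.sum_congr rfl fun A' _ => ?_
      by_cases hA : A ≤ K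
      · by_cases hA' : A' ≤ K
        · rw [if_pos hA, if_pos hA', if_pos ⟨hA, hA'⟩]
          ring
        · rw [if_neg hA', if_neg (show ¬(A ≤ K ∧ A' ≤ K) from fun h => hA' h.2)]
          ring
      · rw [if_neg hA, if_neg (show ¬(A ≤ K ∧ A' ≤ K) from fun h => hA h.1)]
        ring
    rw [Finset.sum_congr rfl fun K _ => h3 K, Finset.sum_comm]
    unfold S1
    refine Finset.sum_congr rfl fun A hA => ?_
    rw [Finset.sum_comm]
    refine Finset.sum_congr rfl fun A' hA' => ?_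
    rw [← Finset.mul_sum, TF4_cs hn hO hb hA]
    have p1 : (0 : ℝ) < N A := by exact_mod_cast TF4_pos hn hO hb hA
    have p2 : (0 : ℝ) < N A' := by exact_mod_cast TF4_pos hn hO hb hA'
    have p3 : (N (infI A A') : ℝ) * N (supI A A') = N A * N A' := by
      exact_mod_cast (GLL.IF_inf hn hO A A').2.2
    have p4 : (0 : ℝ) < N (infI A A') := by
      have h5 : (0 : ℝ) < (N (infI A A') : ℝ) * N (supI A A') := by
        rw [p3]
        exact mul_pos p1 p2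
      have h6 : (0 : ℝ) ≤ N (infI A A') := Nat.cast_nonneg _
      rcases h6.eq_or_lt with h7 | h7
      · rw [← h7, zero_mul] at h5
        exact absurd h5 (lt_irrefl _)
      · exact h7
    have e1 : (N (infI A A') : ℝ) ^ (-((n : ℝ) + 0)) = ((N (infI A A') : ℝ) ^ n)⁻¹ := by
      rw [add_zero, Real.rpow_neg p4.le, Real.rpow_natCast]
    rw [e1]
    have e2 : (N (infI A A') : ℝ) ^ n * (N (supI A A') : ℝ) ^ n = (N A : ℝ) ^ n * (N A' : ℝ) ^ n := by
      rw [← mul_pow, p3, mul_pow]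
    have q1 := (pow_pos p1 n).ne'
    have q2 := (pow_pos p2 n).ne'
    have q4 := (pow_pos p4 n).ne'
    field_simp
    linear_combination (c A * c A') * e2
  refine ⟨hkey, ?_⟩
  rw [← hkey, h2]
  exact Finset.sum_nonneg fun K _ => mul_nonneg (cs_nonneg hn hO K) (sq_nonneg _)

/-! ### The sum of the absolute values -/

theorem TF4_Em : DZN.Em (fun z : ℤ => ((|(z : ℝ)| : ℝ) : ℂ)) :=
  ⟨by simp, fun x y => by
    push_cast
    rw [abs_mul]
    push_cast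
    ring, fun x => by
    rw [Complex.norm_real, Real.norm_eq_abs, abs_abs]⟩

theorem TF4_Mu : DZN.Mu (fun _ => (1 : ℂ)) := ⟨rfl, fun _ _ _ _ _ => by simp, fun _ => by simp⟩

theorem TF4_QA (b : ℕ) : ((DZN.QA O b : ℝ) : ℂ) =
    DZN.T2 O (fun z : ℤ => ((|(z : ℝ)| : ℝ) : ℂ)) b (fun _ => (1 : ℂ)) (fun _ => (1 : ℂ))
      (fun _ => (1 : ℂ)) := by
  unfold DZN.QA DZN.T2
  push_cast
  refine Finset.sum_congr rfl fun I _ => Finset.sum_congr rfl fun J _ => ?_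
  ring

theorem TF4_mul (hn : 2 ≤ n) (hO : GLL.Ord O) (b c : ℕ) (hb : 0 < b) (hc : 0 < c)
    (h : b.Coprime c) : DZN.QA O (b * c) = DZN.QA O b * DZN.QA O c := by
  apply Complex.ofReal_injective
  rw [TF4_QA, DZN.T2_mul hn hO TF4_Em TF4_Mu TF4_Mu TF4_Mu hb hc h, ← TF4_QA, ← TF4_QA]
  push_cast
  rfl

theorem TF4_nn (b : ℕ) : 0 ≤ DZN.QA O b := by
  unfold DZN.QA
  exact Finset.sum_nonneg fun I _ => Finset.sum_nonneg fun J _ => by positivity

theorem TF4_one (hn : 2 ≤ n) (hO : GLL.Ord O) {b : ℕ} (hb : 0 < b) : 1 ≤ DZN.QA O b := by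
  obtain ⟨T, hT, hN, -⟩ := GLL.IF_top hn hO
  have hm : mob O b T = 1 := (GLL.IF_mob hn hO b hb).2.2.2.1 T hN
  have hmem : T ∈ PI O b := by
    rw [GLL.mem_PI hn hO hb, hT]
    exact natCast_mem O b
  have hnn : ∀ I J : Idl O, 0 ≤ |(mob O b I : ℝ)| * |(mob O b J : ℝ)| *
      ((N (infI I J) : ℝ) ^ n)⁻¹ := fun I J => by positivity
  have h1 : |(mob O b T : ℝ)| * |(mob O b T : ℝ)| * ((N (infI T T) : ℝ) ^ n)⁻¹ = 1 := by
    rw [GLL.infI_self hn hO, hm, hN]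
    norm_num
  unfold DZN.QA
  calc (1 : ℝ) = |(mob O b T : ℝ)| * |(mob O b T : ℝ)| * ((N (infI T T) : ℝ) ^ n)⁻¹ := h1.symm
    _ ≤ ∑ J ∈ PI O b, |(mob O b T : ℝ)| * |(mob O b J : ℝ)| * ((N (infI T J) : ℝ) ^ n)⁻¹ :=
        Finset.single_le_sum (f := fun J => |(mob O b T : ℝ)| * |(mob O b J : ℝ)| *
          ((N (infI T J) : ℝ) ^ n)⁻¹) (fun J _ => hnn T J) hmem
    _ ≤ _ := Finset.single_le_sum (f := fun I => ∑ J ∈ PI O b, |(mob O b I : ℝ)| *
          |(mob O b J : ℝ)| * ((N (infI I J) : ℝ) ^ n)⁻¹)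
          (fun I _ => Finset.sum_nonneg fun J _ => hnn I J) hmem

theorem TF4_bb {Y q : ℕ} (h : Y < q) : DZL.bb Y q = primorial Y := by
  unfold DZL.bb primorial
  refine Finset.prod_congr ?_ fun _ _ => rfl
  ext p
  simp only [Finset.mem_filter, Finset.mem_range]
  constructor
  · rintro ⟨h1, h2, -⟩
    exact ⟨h1, h2⟩
  · rintro ⟨h1, h2⟩
    exact ⟨h1, h2, by omega⟩

theorem QA_le'_pr (hn : 2 ≤ n) (hO : GLL.Ord O) : (∀ b c : ℕ, 0 < b → 0 < c → b.Coprime c →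
      DZN.QA O (b * c) = DZN.QA O b * DZN.QA O c) ∧ ∃ C : ℝ, 0 ≤ C ∧ ∀ Y b : ℕ, 3 ≤ Y →
      b ∣ primorial Y → 0 ≤ DZN.QA O b ∧ DZN.QA O b ≤ C * Real.log Y ^ 3 := by
  refine ⟨TF4_mul hn hO, ?_⟩
  obtain ⟨C, hC, h⟩ := DZN.QA_le (O := O) hn hO
  refine ⟨C, hC, ?_⟩
  intro Y b hY hb
  refine ⟨TF4_nn b, ?_⟩
  obtain ⟨q, hq1, hq⟩ := Nat.exists_infinite_primes (Y + 1)
  have h1 := h Y q (by omega) hq
  rw [TF4_bb (by omega)] at h1
  obtain ⟨c, hc⟩ := hb
  have hP := primorial_pos Y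
  have hb0 : 0 < b := Nat.pos_of_ne_zero fun h0 => by
    rw [h0, zero_mul] at hc
    omega
  have hc0 : 0 < c := Nat.pos_of_ne_zero fun h0 => by
    rw [h0, mul_zero] at hc
    omega
  have hcop : b.Coprime c := by
    have hs := squarefree_primorial Y
    rw [hc] at hs
    exact Nat.coprime_of_squarefree_mul hs
  rw [hc, TF4_mul hn hO b c hb0 hc0 hcop] at h1
  have h2 := TF4_one hn hO hc0
  have h3 := TF4_nn (O := O) b
  refine le_trans ?_ h1
  nlinarith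

end

end Pool.Agent.RZH

namespace Pool.Agent.RZH

theorem QA_le' : type_of% @QA_le'_pr := @QA_le'_pr

theorem S2_zero : type_of% @S2_zero_pr := @S2_zero_pr

end Pool.Agent.RZH
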