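import Pool.Agent.Lib_helper75.DZN.Defs
import Pool.Agent.Lib_helper75.DZNF.TE
import Pool.Agent.Lib_helper75.RZG.Defs

/-!
# Project RZG, block TA2
-/

set_option autoImplicit false

namespace Pool.Agent.RZH

open MeasureTheory Matrix Complex Filter Topology Pool.Agent.GLL Pool.Agent.LAL
open scoped ENNReal ContDiff

noncomputable section

theorem pw_mu_pr {w : ℂ} (hw : 0 ≤ w.re) : DZN.Mu (pw w) := by
  refine ⟨?_, ?_, ?_⟩
  · simp [pw]
  · intro x y hx hy _
    rw [pw, pw, pw, ← Complex.exp_add]
    congr 1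
    have h1 : (x : ℝ) ≠ 0 := by exact_mod_cast hx.ne'
    have h2 : (y : ℝ) ≠ 0 := by exact_mod_cast hy.ne'
    rw [Nat.cast_mul, Real.log_mul h1 h2]
    push_cast
    ring
  · intro x
    rw [pw, Complex.norm_exp, Real.exp_le_one_iff]
    have h1 : (-(w * (Real.log x : ℝ))).re = -(w.re * Real.log x) := by
      rw [Complex.neg_re, Complex.re_mul_ofReal]
    rw [h1]
    have h2 : 0 ≤ Real.log (x : ℝ) := Real.log_natCast_nonneg x
    have := mul_nonneg hw h2
    linarith

private theorem ta2_dvd {p : ℕ} (hp : p.Prime) (P : ℕ) : p ∣ primorial P ↔ p ≤ P := by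
  rw [primorial, hp.prime.dvd_finsetProd_iff]
  constructor
  · rintro ⟨q, hq, hpq⟩
    rw [Finset.mem_filter, Finset.mem_range] at hq
    rw [(Nat.prime_dvd_prime_iff_eq hp hq.2).1 hpq]
    omega
  · intro h
    exact ⟨p, by rw [Finset.mem_filter, Finset.mem_range]; exact ⟨by omega, hp⟩, dvd_rfl⟩

theorem primorial_bX_pr (P X : ℕ) (h : P ≤ X) :
    primorial X = primorial P * bX (primorial P) X ∧ (primorial P).Coprime (bX (primorial P) X) ∧
      bX (primorial P) X ∣ primorial X ∧ bX 1 X = primorial X ∧ 0 < bX (primorial P) X := by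
  have h1 : primorial X = primorial P * bX (primorial P) X := by
    rw [primorial, primorial, bX, ← Finset.prod_union]
    · congr 1
      ext p
      simp only [Finset.mem_filter, Finset.mem_range, Finset.mem_union]
      constructor
      · rintro ⟨h2, h3⟩
        by_cases h4 : p < P + 1
        · exact Or.inl ⟨h4, h3⟩
        · refine Or.inr ⟨h2, h3, ?_⟩
          change ¬ p ∣ primorial P
          rw [ta2_dvd h3]
          omega
      · rintro (⟨h2, h3⟩ | ⟨h2, h3, -⟩)
        · exact ⟨by omega, h3⟩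
        · exact ⟨h2, h3⟩
    · rw [Finset.disjoint_left]
      intro p hp hp'
      rw [Finset.mem_filter, Finset.mem_range] at hp
      rw [Finset.mem_filter] at hp'
      apply hp'.2.2
      change p ∣ primorial P
      rw [ta2_dvd hp.2]
      omega
  refine ⟨h1, ?_, ?_, ?_, ?_⟩
  · rw [bX]
    apply Nat.Coprime.prod_right
    intro p hp
    rw [Finset.mem_filter] at hp
    exact ((Nat.Prime.coprime_iff_not_dvd hp.2.1).2 hp.2.2).symm
  · rw [h1]
    exact dvd_mul_left _ _
  · rw [bX, primorial]
    congr 1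
    ext p
    simp only [Finset.mem_filter, Finset.mem_range, Nat.dvd_one]
    constructor
    · rintro ⟨h2, h3, -⟩
      exact ⟨h2, h3⟩
    · rintro ⟨h2, h3⟩
      exact ⟨h2, h3, h3.one_lt.ne'⟩
  · rw [bX]
    apply Finset.prod_pos
    intro p hp
    rw [Finset.mem_filter] at hp
    exact hp.2.1.pos


end

end Pool.Agent.RZH

namespace Pool.Agent.RZH

theorem primorial_bX : type_of% @primorial_bX_pr := @primorial_bX_pr

theorem pw_mu : type_of% @pw_mu_pr := @pw_mu_pr

end Pool.Agent.RZH
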