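import Pool.Agent.Lib_helper42.GLM.Defs
import Pool.Agent.Lib_helper75.DZN.Defs
import Pool.Agent.Lib_helper75.DZNF.L4
import Pool.Agent.Lib_helper75.DZNF.TM
import Pool.Agent.Lib_helper75.RZG.Defs
import Pool.Agent.Lib_helper96.GLF.M_MGA
import Pool.Agent.Lib_helper96.GLF.O_OA3
import Pool.Agent.Lib_helper96.GLF.O_OE
import Pool.Agent.Lib_helper96.GLF.O_OI
import Pool.Agent.Lib_helper96.GLF.O_OL2
import Pool.Agent.Lib_helper96.GLL.Defs
import Pool.Agent.Lib_helper96.GLL.DefsB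

/-!
# Project RZG, block TB1: the sums over pairs of ideals with a factor of the sum of the ideals are
multiplicative
-/

set_option autoImplicit false

namespace Pool.Agent.RZH

open MeasureTheory Matrix Complex Filter Topology Pool.Agent.GLL Pool.Agent.LAL
open scoped ENNReal ContDiff

noncomputable section

variable {n : ℕ} {O : Subring (Mt n)}

theorem tb1_supL (hn : 2 ≤ n) (hO : GLL.Ord O) (I J : Idl O) : I ≤ supI I J := by
  change I.1 ≤ (supI I J).1
  rw [(GLL.IF_inf hn hO I J).2.1]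
  exact le_sup_left

theorem tb1_supR (hn : 2 ≤ n) (hO : GLL.Ord O) (I J : Idl O) : J ≤ supI I J := by
  change J.1 ≤ (supI I J).1
  rw [(GLL.IF_inf hn hO I J).2.1]
  exact le_sup_right

theorem tb1_supI_le (hn : 2 ≤ n) (hO : GLL.Ord O) (I J K : Idl O) (h1 : I ≤ K) (h2 : J ≤ K) :
    supI I J ≤ K := by
  change (supI I J).1 ≤ K.1
  rw [(GLL.IF_inf hn hO I J).2.1]
  exact sup_le h1 h2

/-- distributivity for ideals of coprime norms -/
theorem tb1_sup_inf (hn : 2 ≤ n) (hO : GLL.Ord O) (I I' J J' : Idl O)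
    (h : (N I * N I').Coprime (N J * N J')) :
    supI (infI I J) (infI I' J') = infI (supI I I') (supI J J') ∧
      (N (supI I I')).Coprime (N (supI J J')) := by
  have hp : ∀ K : Idl O, 0 < N K := fun K => (GLL.IF_gen hn hO K).2.2.1
  have d1 := (GLL.IF_dvd hn hO (supI I I') I (tb1_supL hn hO I I')).1
  have d2 := (GLL.IF_dvd hn hO (supI J J') J (tb1_supL hn hO J J')).1
  have c0 : (N I).Coprime (N J) := Nat.Coprime.coprime_mul_right
    (Nat.Coprime.coprime_mul_right_right h)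
  have c0' : (N I').Coprime (N J') := Nat.Coprime.coprime_mul_left
    (Nat.Coprime.coprime_mul_left_right h)
  have c1 : (N (supI I I')).Coprime (N (supI J J')) :=
    Nat.Coprime.coprime_dvd_left d1 (Nat.Coprime.coprime_dvd_right d2 c0)
  refine ⟨?_, c1⟩
  have hle : supI (infI I J) (infI I' J') ≤ infI (supI I I') (supI J J') := by
    refine (GLL.infI_le hn hO _ _ _).2 ⟨?_, ?_⟩
    · refine tb1_supI_le hn hO _ _ _ ?_ ?_
      · exact le_trans ((GLL.infI_le hn hO _ I J).1 le_rfl).1 (tb1_supL hn hO I I')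
      · exact le_trans ((GLL.infI_le hn hO _ I' J').1 le_rfl).1 (tb1_supR hn hO I I')
    · refine tb1_supI_le hn hO _ _ _ ?_ ?_
      · exact le_trans ((GLL.infI_le hn hO _ I J).1 le_rfl).2 (tb1_supL hn hO J J')
      · exact le_trans ((GLL.infI_le hn hO _ I' J').1 le_rfl).2 (tb1_supR hn hO J J')
  have e1 := (GLL.IF_inf hn hO (infI I J) (infI I' J')).2.2
  have e2 := (GLL.IF_inf hn hO I I').2.2
  have e3 := (GLL.IF_inf hn hO J J').2.2
  have e4 := (GLL.infI_four hn hO I I' J J' h).2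
  have e5 := GLL.infI_cop hn hO _ _ c1
  have e6 := GLL.infI_cop hn hO I J c0
  have e7 := GLL.infI_cop hn hO I' J' c0'
  rw [e4, e6, e7] at e1
  have e8 : N (supI (infI I J) (infI I' J')) = N (supI I I') * N (supI J J') := by
    have hpos : 0 < N (infI I I') * N (infI J J') := Nat.mul_pos (hp _) (hp _)
    apply Nat.eq_of_mul_eq_mul_left hpos
    calc N (infI I I') * N (infI J J') * N (supI (infI I J) (infI I' J')) =
        N I * N J * (N I' * N J') := e1
      _ = (N I * N I') * (N J * N J') := by ring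
      _ = (N (infI I I') * N (supI I I')) * (N (infI J J') * N (supI J J')) := by rw [e2, e3]
      _ = _ := by ring
  exact ((GLL.IF_dvd hn hO _ _ hle).2 (e5.trans e8.symm)).symm

theorem T3_mul_pr (hn : 2 ≤ n) (hO : GLL.Ord O) {f f' h : ℕ → ℂ} (hf : DZN.Mu f)
    (hf' : DZN.Mu f') (hh : DZN.Mu h) {h' : Idl O → ℝ} (hh' : MuI h') {b c : ℕ} (hb : 0 < b)
    (hc : 0 < c) (hbc : b.Coprime c) :
    T3 O (b * c) f f' h h' = T3 O b f f' h h' * T3 O c f f' h h' := by
  have key : ∀ I ∈ PI O b, ∀ J ∈ PI O c, ∀ I' ∈ PI O b, ∀ J' ∈ PI O c,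
      (mob O (b * c) (infI I J) : ℂ) * (mob O (b * c) (infI I' J') : ℂ) *
        (f (N (infI I J)) * f' (N (infI I' J'))) *
        (h (N (infI (infI I J) (infI I' J'))) *
          ((N (infI (infI I J) (infI I' J')) : ℂ) ^ n)⁻¹) *
        (h' (supI (infI I J) (infI I' J')) : ℂ) =
      ((mob O b I : ℂ) * (mob O b I' : ℂ) * (f (N I) * f' (N I')) *
        (h (N (infI I I')) * ((N (infI I I') : ℂ) ^ n)⁻¹) * (h' (supI I I') : ℂ)) *
      ((mob O c J : ℂ) * (mob O c J' : ℂ) * (f (N J) * f' (N J')) *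
        (h (N (infI J J')) * ((N (infI J J') : ℂ) ^ n)⁻¹) * (h' (supI J J') : ℂ)) := by
    intro I hI J hJ I' hI' J' hJ'
    have hIp := (PI_norm hn hO hb hI).1
    have hJp := (PI_norm hn hO hc hJ).1
    have hIp' := (PI_norm hn hO hb hI').1
    have hJp' := (PI_norm hn hO hc hJ').1
    have mI := (mem_PI hn hO hb I).1 hI
    have mI' := (mem_PI hn hO hb I').1 hI'
    have mJ := (mem_PI hn hO hc J).1 hJ
    have mJ' := (mem_PI hn hO hc J').1 hJ'
    obtain ⟨-, n1, -, -, c1, -⟩ := DZL.crt_mem hn hO hb hc hbc mI mJ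
    obtain ⟨-, n2, -, -, c2, -⟩ := DZL.crt_mem hn hO hb hc hbc mI' mJ'
    obtain ⟨-, -, -, -, c3, -⟩ := DZL.crt_mem hn hO hb hc hbc mI mJ'
    obtain ⟨-, -, -, -, c4, -⟩ := DZL.crt_mem hn hO hb hc hbc mI' mJ
    have cc : (N I * N I').Coprime (N J * N J') :=
      Nat.Coprime.mul_left (Nat.Coprime.mul_right c1 c3) (Nat.Coprime.mul_right c4 c2)
    have n3 := (infI_four hn hO I I' J J' cc).2
    have cc' : (N (infI I I')).Coprime (N (infI J J')) :=
      Nat.Coprime.coprime_dvd_left (infI_dvd hn hO I I')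
        (Nat.Coprime.coprime_dvd_right (infI_dvd hn hO J J') cc)
    obtain ⟨s1, s2⟩ := tb1_sup_inf hn hO I I' J J' cc
    rw [s1, hh'.mul _ _ s2, n3, n1, n2, DZL.mob_mul hn hO hb hc hbc mI mJ,
      DZL.mob_mul hn hO hb hc hbc mI' mJ',
      hf.mul _ _ hIp hJp c1, hf'.mul _ _ hIp' hJp' c2,
      hh.mul _ _ (DZN.tm_pos hn hO I I' hIp hIp') (DZN.tm_pos hn hO J J' hJp hJp') cc']
    push_cast
    rw [mul_pow, mul_inv]
    ring
  unfold T3
  rw [DZN.tm_sum hn hO hb hc hbc]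
  calc _ = ∑ I ∈ PI O b, ∑ J ∈ PI O c, ∑ I' ∈ PI O b, ∑ J' ∈ PI O c,
      ((mob O b I : ℂ) * (mob O b I' : ℂ) * (f (N I) * f' (N I')) *
        (h (N (infI I I')) * ((N (infI I I') : ℂ) ^ n)⁻¹) * (h' (supI I I') : ℂ)) *
      ((mob O c J : ℂ) * (mob O c J' : ℂ) * (f (N J) * f' (N J')) *
        (h (N (infI J J')) * ((N (infI J J') : ℂ) ^ n)⁻¹) * (h' (supI J J') : ℂ)) := by
        refine Finset.sum_congr rfl fun I hI => Finset.sum_congr rfl fun J hJ => ?_
        rw [DZN.tm_sum hn hO hb hc hbc]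
        exact Finset.sum_congr rfl fun I' hI' => Finset.sum_congr rfl fun J' hJ' =>
          key I hI J hJ I' hI' J' hJ'
    _ = _ := by
        rw [Finset.sum_mul_sum]
        refine Finset.sum_congr rfl fun I _ => Finset.sum_congr rfl fun J _ => ?_
        rw [Finset.sum_mul_sum]

theorem tb1_one (hn : 2 ≤ n) (hO : GLL.Ord O) {f f' h : ℕ → ℂ} (hf : DZN.Mu f)
    (hf' : DZN.Mu f') (hh : DZN.Mu h) {h' : Idl O → ℝ} (hh' : MuI h') :
    T3 O 1 f f' h h' = 1 := by
  obtain ⟨T, hT, hN⟩ := PI_one (O := O) hn hO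
  have hm : mob O 1 T = 1 := (GLL.IF_mob hn hO 1 one_pos).2.2.2.1 T hN
  have hs : supI T T = T := by
    apply Subtype.ext
    rw [(GLL.IF_inf hn hO T T).2.1, sup_idem]
  unfold T3
  rw [hT, Finset.sum_singleton, Finset.sum_singleton, infI_self hn hO, hs, hm, hN, hf.one,
    hf'.one, hh.one, hh'.one T hN]
  norm_num

theorem T3_prod_pr (hn : 2 ≤ n) (hO : GLL.Ord O) {f f' h : ℕ → ℂ} (hf : DZN.Mu f)
    (hf' : DZN.Mu f') (hh : DZN.Mu h) {h' : Idl O → ℝ} (hh' : MuI h') (S : Finset ℕ)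
    (hS : ∀ p ∈ S, p.Prime) :
    T3 O (∏ p ∈ S, p) f f' h h' = ∏ p ∈ S, T3 O p f f' h h' := by
  classical
  induction S using Finset.induction_on with
  | empty =>
    rw [Finset.prod_empty, Finset.prod_empty]
    exact tb1_one hn hO hf hf' hh hh'
  | insert p S hp ih =>
    rw [Finset.prod_insert hp, Finset.prod_insert hp]
    have hp' : p.Prime := hS p (Finset.mem_insert_self _ _)
    have hS' : ∀ r ∈ S, r.Prime := fun r hr => hS r (Finset.mem_insert_of_mem hr)
    rw [T3_mul_pr hn hO hf hf' hh hh' hp'.pos (Finset.prod_pos fun r hr => (hS' r hr).pos), ih hS']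
    refine Nat.Coprime.prod_right fun r hr => ?_
    rw [Nat.coprime_primes hp' (hS' r hr)]
    rintro rfl
    exact hp hr


end

end Pool.Agent.RZH

namespace Pool.Agent.RZH

theorem T3_mul : type_of% @T3_mul_pr := @T3_mul_pr

theorem T3_prod : type_of% @T3_prod_pr := @T3_prod_pr

end Pool.Agent.RZH
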