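import Pool.Agent.Lib_helper32.LAL.SD2
import Pool.Agent.Lib_helper32.LALS.S_SD1
import Pool.Agent.Lib_helper41.RZGF.R_S4b
import Pool.Agent.Lib_helper41.RZGF.R_S5a
import Pool.Agent.Lib_helper41.RZGF.R_S5b
import Pool.Agent.Lib_helper75.RZG.Defs
import Pool.Agent.Lib_helper96.GLF.O_OA3
import Pool.Agent.Lib_helper96.GLF.O_OE
import Pool.Agent.Lib_helper96.GLF.O_OK2
import Pool.Agent.Lib_helper96.GLL.Defs
import Pool.Agent.Lib_helper96.GLL.DefsB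

/-!
# RZG, block TB2: the functions `hh`
-/

set_option autoImplicit false

namespace Pool.Agent.RZH

open MeasureTheory Matrix Complex Filter Topology Pool.Agent.GLL Pool.Agent.LAL
open scoped ENNReal ContDiff

noncomputable section

variable {n : ℕ} {O : Subring (Mt n)}

private theorem tb2_pos (hn : 2 ≤ n) (hO : GLL.Ord O) (I : Idl O) : 1 ≤ N I :=
  (GLL.IF_gen hn hO I).2.2.1

private theorem tb2_AI (hn : 2 ≤ n) (hO : GLL.Ord O) {J K : Idl O} (h : K ∈ AI J) :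
    N K ∣ N J ∧ (N K = N J → K = J) :=
  GLL.IF_dvd hn hO K J ((LAL.mem_AI hn hO J K).mp h)

private theorem tb2_self (hn : 2 ≤ n) (hO : GLL.Ord O) (J : Idl O) : J ∈ AI J :=
  (LAL.mem_AI hn hO J J).mpr le_rfl

private theorem tb2_one (hn : 2 ≤ n) (hO : GLL.Ord O) (ς₁ ς₂ : ℝ) (I : Idl O) (h : N I = 1) :
    hh ς₁ ς₂ I = 1 := by
  unfold hh
  have h1 : ∑ K ∈ AI I, cs K * (N K : ℝ) ^ (-ς₂) = 1 := by
    have h2 : ∑ K ∈ AI I, cs K * (N K : ℝ) ^ (-ς₂) = ∑ K ∈ AI I, cs K := by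
      refine Finset.sum_congr rfl fun K hK => ?_
      have h3 : N K = 1 := Nat.dvd_one.mp (h ▸ (tb2_AI hn hO hK).1)
      rw [h3, Nat.cast_one, Real.one_rpow, mul_one]
    rw [h2, (cs_facts hn hO).1 I, h, Nat.cast_one, one_pow]
  rw [h1, h, Nat.cast_one, Real.one_rpow, mul_one]

private theorem tb2_mul (hn : 2 ≤ n) (hO : GLL.Ord O) (ς₁ ς₂ : ℝ) (I J : Idl O)
    (h : (N I).Coprime (N J)) : hh ς₁ ς₂ (infI I J) = hh ς₁ ς₂ I * hh ς₁ ς₂ J := by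
  unfold hh
  have h0 := (GLL.IF_split' hn hO I J h).1
  obtain ⟨h1, h2, _⟩ := AI_inf hn hO (K := I) (K' := J) h
  have h3 : ∑ K ∈ AI (infI I J), cs K * (N K : ℝ) ^ (-ς₂) =
      (∑ K ∈ AI I, cs K * (N K : ℝ) ^ (-ς₂)) * ∑ K ∈ AI J, cs K * (N K : ℝ) ^ (-ς₂) := by
    rw [h2 fun K => cs K * (N K : ℝ) ^ (-ς₂), Finset.sum_mul_sum]
    refine Finset.sum_congr rfl fun M hM => Finset.sum_congr rfl fun M' hM' => ?_
    have h4 := (h1 M hM M' hM').1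
    rw [(cs_facts hn hO).2.2.2.2 M M' h4, (GLL.IF_split' hn hO M M' h4).1, Nat.cast_mul,
      Real.mul_rpow (Nat.cast_nonneg _) (Nat.cast_nonneg _)]
    ring
  rw [h3, h0, Nat.cast_mul, Real.mul_rpow (Nat.cast_nonneg _) (Nat.cast_nonneg _)]
  ring

private theorem tb2_nn (hn : 2 ≤ n) (hO : GLL.Ord O) (ς₁ ς₂ : ℝ) (I : Idl O) :
    0 ≤ hh ς₁ ς₂ I := by
  unfold hh
  refine mul_nonneg (Real.rpow_nonneg (Nat.cast_nonneg _) _) ?_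
  exact Finset.sum_nonneg fun K _ => mul_nonneg (cs_nonneg hn hO K)
    (Real.rpow_nonneg (Nat.cast_nonneg _) _)

private theorem tb2_pow {x : ℝ} (hx : 0 < x) (n : ℕ) (a : ℝ) :
    x ^ (-((n : ℝ) + a)) * x ^ n = x ^ (-a) := by
  rw [← Real.rpow_natCast x n, ← Real.rpow_add hx]
  congr 1
  ring

private theorem tb2_le (hn : 2 ≤ n) (hO : GLL.Ord O) {ς₁ ς₂ : ℝ} (h1 : 0 ≤ ς₁)
    (h2 : 0 ≤ ς₁ + ς₂) (I : Idl O) : hh ς₁ ς₂ I ≤ 1 := by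
  unfold hh
  have hN : (1 : ℝ) ≤ N I := by exact_mod_cast tb2_pos hn hO I
  have hN0 : (0 : ℝ) < N I := by linarith
  rcases le_total 0 ς₂ with h3 | h3
  · have h4 : ∑ K ∈ AI I, cs K * (N K : ℝ) ^ (-ς₂) ≤ (N I : ℝ) ^ n := by
      rw [← (cs_facts hn hO).1 I]
      refine Finset.sum_le_sum fun K _ => ?_
      have h5 : (1 : ℝ) ≤ N K := by exact_mod_cast tb2_pos hn hO K
      have h6 : (N K : ℝ) ^ (-ς₂) ≤ 1 := Real.rpow_le_one_of_one_le_of_nonpos h5 (by linarith)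
      have h7 := mul_le_mul_of_nonneg_left h6 (cs_nonneg hn hO K)
      rwa [mul_one] at h7
    calc _ ≤ (N I : ℝ) ^ (-((n : ℝ) + ς₁)) * (N I : ℝ) ^ n :=
          mul_le_mul_of_nonneg_left h4 (Real.rpow_nonneg (Nat.cast_nonneg _) _)
      _ = (N I : ℝ) ^ (-ς₁) := tb2_pow hN0 n ς₁
      _ ≤ 1 := Real.rpow_le_one_of_one_le_of_nonpos hN (by linarith)
  · have h4 : ∑ K ∈ AI I, cs K * (N K : ℝ) ^ (-ς₂) ≤ (N I : ℝ) ^ n * (N I : ℝ) ^ (-ς₂) := by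
      rw [← (cs_facts hn hO).1 I, Finset.sum_mul]
      refine Finset.sum_le_sum fun K hK => ?_
      refine mul_le_mul_of_nonneg_left ?_ (cs_nonneg hn hO K)
      have h5 : (N K : ℝ) ≤ N I := by
        exact_mod_cast Nat.le_of_dvd (tb2_pos hn hO I) (tb2_AI hn hO hK).1
      exact Real.rpow_le_rpow (Nat.cast_nonneg _) h5 (by linarith)
    calc _ ≤ (N I : ℝ) ^ (-((n : ℝ) + ς₁)) * ((N I : ℝ) ^ n * (N I : ℝ) ^ (-ς₂)) :=
          mul_le_mul_of_nonneg_left h4 (Real.rpow_nonneg (Nat.cast_nonneg _) _)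
      _ = (N I : ℝ) ^ (-ς₁) * (N I : ℝ) ^ (-ς₂) := by rw [← mul_assoc, tb2_pow hN0 n ς₁]
      _ = (N I : ℝ) ^ (-(ς₁ + ς₂)) := by
          rw [← Real.rpow_add hN0]
          congr 1
          ring
      _ ≤ 1 := Real.rpow_le_one_of_one_le_of_nonpos hN (by linarith)

/-- `0 ≤ hh ≤ 1`, multiplicative -/
theorem hh_mui_pr (hn : 2 ≤ n) (hO : GLL.Ord O) {ς₁ ς₂ : ℝ} (h1 : 0 ≤ ς₁) (h2 : 0 ≤ ς₁ + ς₂) :
    MuI (hh (O := O) ς₁ ς₂) where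
  one I hI := tb2_one hn hO ς₁ ς₂ I hI
  mul I J h := tb2_mul hn hO ς₁ ς₂ I J h
  nn I := tb2_nn hn hO ς₁ ς₂ I
  le I := tb2_le hn hO h1 h2 I

private theorem tb2_prime (hn : 2 ≤ n) (hO : GLL.Ord O) (ς₂ : ℝ) {p : ℕ} {J : Idl O}
    (hp : p.Prime) (h : N J = p) :
    ∑ K ∈ AI J, cs K * (N K : ℝ) ^ (-ς₂) = ((p : ℝ) ^ n - 1) * (p : ℝ) ^ (-ς₂) + 1 := by
  classical
  have h1 := (cs_facts hn hO).1 J
  have h2 := (cs_facts hn hO).2.2.2.1 J (h ▸ hp)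
  rw [← Finset.add_sum_erase _ _ (tb2_self hn hO J), h2, h] at h1
  rw [← Finset.add_sum_erase _ _ (tb2_self hn hO J), h2, h]
  have h3 : ∑ K ∈ (AI J).erase J, cs K * (N K : ℝ) ^ (-ς₂) = ∑ K ∈ (AI J).erase J, cs K := by
    refine Finset.sum_congr rfl fun K hK => ?_
    obtain ⟨h4, h5⟩ := Finset.mem_erase.mp hK
    obtain ⟨h6, h7⟩ := tb2_AI hn hO h5
    rw [h] at h6 h7
    rcases (Nat.dvd_prime hp).mp h6 with h8 | h8
    · rw [h8, Nat.cast_one, Real.one_rpow, mul_one]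
    · exact absurd (h7 h8) h4
  rw [h3]
  linarith

/-- the value at the ideals of prime norm, and the special case `ς₂ = 0` -/
theorem hh_val_pr (hn : 2 ≤ n) (hO : GLL.Ord O) {ς₁ ς₂ : ℝ} (h1 : 0 ≤ ς₁) (h2 : 0 ≤ ς₁ + ς₂) :
    (∀ (p : ℕ) (J : Idl O), p.Prime → N J = p →
      |hh ς₁ ς₂ J - (p : ℝ) ^ (-(ς₁ + ς₂))| ≤ 1 / p) ∧
    ∀ J : Idl O, hh ς₁ 0 J = (N J : ℝ) ^ (-ς₁) := by
  refine ⟨fun p J hp hJ => ?_, fun J => ?_⟩
  · have hp1 : (1 : ℝ) ≤ p := by exact_mod_cast hp.one_lt.le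
    have hp0 : (0 : ℝ) < p := by linarith
    have h3 : hh ς₁ ς₂ J - (p : ℝ) ^ (-(ς₁ + ς₂)) =
        (p : ℝ) ^ (-(n : ℝ)) * ((p : ℝ) ^ (-ς₁) - (p : ℝ) ^ (-(ς₁ + ς₂))) := by
      unfold hh
      rw [tb2_prime hn hO ς₂ hp hJ, hJ]
      have e1 : (p : ℝ) ^ (-((n : ℝ) + ς₁)) = (p : ℝ) ^ (-(n : ℝ)) * (p : ℝ) ^ (-ς₁) := by
        rw [← Real.rpow_add hp0]
        congr 1
        ring
      have e2 : (p : ℝ) ^ (-(ς₁ + ς₂)) = (p : ℝ) ^ (-ς₁) * (p : ℝ) ^ (-ς₂) := by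
        rw [← Real.rpow_add hp0]
        congr 1
        ring
      have e3 : (p : ℝ) ^ (-(n : ℝ)) * (p : ℝ) ^ n = 1 := by
        rw [← Real.rpow_natCast (p : ℝ) n, ← Real.rpow_add hp0]
        simp
      rw [e1, e2]
      linear_combination ((p : ℝ) ^ (-ς₁) * (p : ℝ) ^ (-ς₂)) * e3
    have h4 : 0 ≤ (p : ℝ) ^ (-ς₁) := Real.rpow_nonneg hp0.le _
    have h5 : (p : ℝ) ^ (-ς₁) ≤ 1 := Real.rpow_le_one_of_one_le_of_nonpos hp1 (by linarith)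
    have h6 : 0 ≤ (p : ℝ) ^ (-(ς₁ + ς₂)) := Real.rpow_nonneg hp0.le _
    have h7 : (p : ℝ) ^ (-(ς₁ + ς₂)) ≤ 1 := Real.rpow_le_one_of_one_le_of_nonpos hp1 (by linarith)
    have h8 : |(p : ℝ) ^ (-ς₁) - (p : ℝ) ^ (-(ς₁ + ς₂))| ≤ 1 := abs_le.mpr ⟨by linarith, by linarith⟩
    have h9 : (p : ℝ) ^ (-(n : ℝ)) ≤ 1 / p := by
      have : (1 : ℝ) / p = (p : ℝ) ^ (-(1 : ℝ)) := by
        rw [Real.rpow_neg hp0.le, Real.rpow_one, one_div]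
      rw [this]
      refine Real.rpow_le_rpow_of_exponent_le hp1 ?_
      have : (1 : ℝ) ≤ n := by exact_mod_cast (by omega : 1 ≤ n)
      linarith
    rw [h3, abs_mul, abs_of_nonneg (Real.rpow_nonneg hp0.le _)]
    calc _ ≤ (p : ℝ) ^ (-(n : ℝ)) * 1 :=
          mul_le_mul_of_nonneg_left h8 (Real.rpow_nonneg hp0.le _)
      _ ≤ 1 / p := by rw [mul_one]; exact h9
  · unfold hh
    have hN0 : (0 : ℝ) < N J := by exact_mod_cast tb2_pos hn hO J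
    have h3 : ∑ K ∈ AI J, cs K * (N K : ℝ) ^ (-(0 : ℝ)) = (N J : ℝ) ^ n := by
      rw [← (cs_facts hn hO).1 J]
      refine Finset.sum_congr rfl fun K _ => ?_
      rw [neg_zero, Real.rpow_zero, mul_one]
    rw [h3, tb2_pow hN0]


end

end Pool.Agent.RZH

namespace Pool.Agent.RZH

theorem hh_mui : type_of% @hh_mui_pr := @hh_mui_pr

theorem hh_val : type_of% @hh_val_pr := @hh_val_pr

end Pool.Agent.RZH
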