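import Pool.Agent.Lib_helper42.GLM.Defs
import Pool.Agent.Lib_helper75.DZN.Defs
import Pool.Agent.Lib_helper75.DZNF.L2
import Pool.Agent.Lib_helper75.DZNF.L3
import Pool.Agent.Lib_helper75.DZNF.TL
import Pool.Agent.Lib_helper75.RZG.Defs
import Pool.Agent.Lib_helper96.GLF.M_MGA
import Pool.Agent.Lib_helper96.GLF.O_OE
import Pool.Agent.Lib_helper96.GLF.O_OI
import Pool.Agent.Lib_helper96.GLF.O_OL2
import Pool.Agent.Lib_helper96.GLF.O_OM1B
import Pool.Agent.Lib_helper96.GLL.Defs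
import Pool.Agent.Lib_helper96.GLL.DefsB

/-!
# Project RZG, block TC1: the local sums
-/

set_option autoImplicit false

namespace Pool.Agent.RZH

open MeasureTheory Matrix Complex Filter Topology Pool.Agent.GLL Pool.Agent.LAL
open Pool.Agent.DZN Pool.Agent.DZL
open scoped ENNReal ContDiff

noncomputable section

variable {n : ℕ} {O : Subring (Mt n)}

theorem tc1_em : Em (fun x : ℤ => (x : ℂ)) := by
  refine ⟨by simp, fun x y => by push_cast; ring, fun x => ?_⟩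
  show ‖(x : ℂ)‖ = _
  rw [Complex.norm_intCast]

/-- the term of a pair -/
def tc1_t (O : Subring (Mt n)) (b : ℕ) (f f' h : ℕ → ℂ) (h' : Idl O → ℝ) (I J : Idl O) : ℂ :=
  tlt O (fun x : ℤ => (x : ℂ)) b f f' h I J * (h' (supI I J) : ℂ)

theorem tc1_nrm {f f' h : ℕ → ℂ} (hf : DZN.Mu f) (hf' : DZN.Mu f') (hh : DZN.Mu h)
    {h' : Idl O → ℝ} (hh' : MuI h') (b : ℕ) (I J : Idl O) :
    ‖tc1_t O b f f' h h' I J‖ ≤ tla O b I J := by
  rw [tc1_t, norm_mul, Complex.norm_real, Real.norm_eq_abs, abs_of_nonneg (hh'.nn _)]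
  calc _ ≤ tla O b I J * 1 := mul_le_mul (tl_nrm tc1_em hf hf' hh b I J) (hh'.le _) (hh'.nn _)
        (by rw [tla]; positivity)
    _ = _ := mul_one _

theorem T3_loc_pr (hn : 2 ≤ n) (hO : GLL.Ord O) : ∃ (K : ℝ) (B : ℕ), 1 ≤ K ∧ ∀ p : ℕ, p.Prime →
    B < p → ∀ f f' h : ℕ → ℂ, DZN.Mu f → DZN.Mu f' → DZN.Mu h → ∀ h' : Idl O → ℝ, MuI h' →
    ∀ v : ℝ, (∀ J : Idl O, N J = p → |h' J - v| ≤ 1 / p) →
      ‖T3 O p f f' h h' - (1 - (f p + f' p) * h p / p + f p * f' p * h p * v / p)‖ ≤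
        K / (p : ℝ) ^ 2 := by
  classical
  obtain ⟨B1, hB1⟩ := hO.red
  obtain ⟨B2, hB2⟩ := IF_rp hn hO
  refine ⟨(n + 1) ^ 3 * 2 ^ (7 * n) + (5 * n + 1), max B1 B2, ?_, ?_⟩
  · have h1 : (1 : ℝ) ≤ (n + 1) ^ 3 * 2 ^ (7 * n) := by
      apply one_le_mul_of_one_le_of_one_le
      · exact one_le_pow₀ (by linarith [(Nat.cast_nonneg n : (0 : ℝ) ≤ n)])
      · exact one_le_pow₀ (by norm_num)
    have : (0 : ℝ) ≤ 5 * n + 1 := by positivity
    linarith
  intro p hp hBp f f' h hf hf' hh h' hh' v hv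
  have : Fact p.Prime := ⟨hp⟩
  obtain ⟨ρ, hρ⟩ := hB1 p hp (lt_of_le_of_lt (le_max_left _ _) hBp)
  have hrp := hB2 p hp (lt_of_le_of_lt (le_max_right _ _) hBp)
  have hp0 : (0 : ℝ) < p := by exact_mod_cast hp.pos
  obtain ⟨T, hT1, hT2, hT3, hT4, hT5⟩ := tl_top hn hO
  set P := PI O p with hP
  have hmP : ∀ I, I ∈ P ↔ (p : Mt n) ∈ I.1 := fun I => mem_PI hn hO hp.pos I
  have hTP : T ∈ P := (hmP T).2 (hT5 p)
  set H := P.filter (fun I => N I = p) with hH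
  have hmH : ∀ I, I ∈ H ↔ N I = p := by
    intro I
    rw [hH, Finset.mem_filter, hmP]
    exact ⟨fun h => h.2, fun h => ⟨tl_mem hn hO hp h, h⟩⟩
  have hHc : (H.card : ℝ) = (p : ℝ) ^ (n - 1) * cp n p := by
    rw [← hrp, ← card_NI hn hO p]
    congr 2
    ext I
    rw [hmH, mem_NI hn hO]
  have hTH : T ∉ H := by
    rw [hmH, hT1]
    exact hp.one_lt.ne
  -- the codimension
  have hcN : ∀ I, (p : Mt n) ∈ I.1 → N I = p ^ aagc ρ I := fun I hI => aag_norm hn hO ρ hρ I hI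
  have hc0 : ∀ I, (p : Mt n) ∈ I.1 → (aagc ρ I = 0 ↔ I = T) := by
    intro I hI
    constructor
    · intro h0
      exact hT2 I (by rw [hcN I hI, h0, pow_zero])
    · intro h0
      have := hcN I hI
      rw [h0, hT1] at this
      rw [h0]
      by_contra h1
      exact (Nat.one_lt_pow h1 hp.one_lt).ne this
  have hc1 : ∀ I, (p : Mt n) ∈ I.1 → (aagc ρ I = 1 ↔ N I = p) := by
    intro I hI
    constructor
    · intro h0
      rw [hcN I hI, h0, pow_one]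
    · intro h0
      have := hcN I hI
      rw [h0] at this
      exact (Nat.pow_right_injective hp.two_le (by simpa using this.symm))
  set t := tc1_t O p f f' h h' with ht
  -- the main pairs
  set M : Idl O × Idl O → Prop := fun x =>
    (x.1 = T ∧ x.2 = T) ∨ (x.1 = T ∧ x.2 ∈ H) ∨ (x.1 ∈ H ∧ x.2 = T) ∨ (x.1 ∈ H ∧ x.2 = x.1) with hM
  have hsum : T3 O p f f' h h' = ∑ x ∈ P ×ˢ P, t x.1 x.2 := by
    rw [Finset.sum_product]
    rfl
  have hsplit : ∑ x ∈ P ×ˢ P, t x.1 x.2 = ∑ x ∈ (P ×ˢ P).filter M, t x.1 x.2 +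
      ∑ x ∈ (P ×ˢ P).filter (fun x => ¬ M x), t x.1 x.2 :=
    (Finset.sum_filter_add_sum_filter_not _ _ _).symm
  have hmain : ∑ x ∈ (P ×ˢ P).filter M, t x.1 x.2 =
      t T T + ∑ I ∈ H, (t T I + t I T + t I I) := by
    have hset : (P ×ˢ P).filter M = {(T, T)} ∪ (H.image (fun I => (T, I)) ∪
        (H.image (fun I => (I, T)) ∪ H.image (fun I => (I, I)))) := by
      ext ⟨I, J⟩
      simp only [Finset.mem_filter, Finset.mem_product, Finset.mem_union, Finset.mem_singleton,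
        Finset.mem_image, Prod.mk.injEq, hM]
      constructor
      · rintro ⟨-, h1 | h1 | h1 | h1⟩
        · exact Or.inl h1
        · exact Or.inr (Or.inl ⟨J, h1.2, h1.1.symm, rfl⟩)
        · exact Or.inr (Or.inr (Or.inl ⟨I, h1.1, rfl, h1.2.symm⟩))
        · exact Or.inr (Or.inr (Or.inr ⟨I, h1.1, rfl, h1.2.symm⟩))
      · rintro (h1 | ⟨K, hK, rfl, rfl⟩ | ⟨K, hK, rfl, rfl⟩ | ⟨K, hK, rfl, rfl⟩)
        · rw [h1.1, h1.2]
          exact ⟨⟨hTP, hTP⟩, Or.inl ⟨rfl, rfl⟩⟩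
        · exact ⟨⟨hTP, (Finset.mem_filter.1 hK).1⟩, Or.inr (Or.inl ⟨rfl, hK⟩)⟩
        · exact ⟨⟨(Finset.mem_filter.1 hK).1, hTP⟩, Or.inr (Or.inr (Or.inl ⟨hK, rfl⟩))⟩
        · exact ⟨⟨(Finset.mem_filter.1 hK).1, (Finset.mem_filter.1 hK).1⟩,
            Or.inr (Or.inr (Or.inr ⟨hK, rfl⟩))⟩
    rw [hset, Finset.sum_union, Finset.sum_union, Finset.sum_union, Finset.sum_singleton,
      Finset.sum_image (fun x _ y _ h => (Prod.mk.inj h).2),
      Finset.sum_image (fun x _ y _ h => (Prod.mk.inj h).1),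
      Finset.sum_image (fun x _ y _ h => (Prod.mk.inj h).1), Finset.sum_add_distrib,
      Finset.sum_add_distrib]
    · ring
    · rw [Finset.disjoint_left]
      intro x hx hx'
      simp only [Finset.mem_image] at hx hx'
      obtain ⟨K, hK, rfl⟩ := hx
      obtain ⟨K', hK', h1⟩ := hx'
      rw [Prod.mk.injEq] at h1
      exact hTH (h1.2 ▸ hK')
    · rw [Finset.disjoint_left]
      intro x hx hx'
      simp only [Finset.mem_image, Finset.mem_union] at hx hx'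
      obtain ⟨K, hK, rfl⟩ := hx
      rcases hx' with ⟨K', hK', h1⟩ | ⟨K', hK', h1⟩
      · rw [Prod.mk.injEq] at h1
        exact hTH (h1.1 ▸ hK')
      · rw [Prod.mk.injEq] at h1
        exact hTH (h1.1 ▸ hK')
    · rw [Finset.disjoint_left]
      intro x hx hx'
      rw [Finset.mem_singleton] at hx
      subst hx
      simp only [Finset.mem_image, Finset.mem_union] at hx'
      rcases hx' with ⟨K', hK', h1⟩ | ⟨K', hK', h1⟩ | ⟨K', hK', h1⟩
      · rw [Prod.mk.injEq] at h1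
        exact hTH (h1.2 ▸ hK')
      · rw [Prod.mk.injEq] at h1
        exact hTH (h1.1 ▸ hK')
      · rw [Prod.mk.injEq] at h1
        exact hTH (h1.1 ▸ hK')
  have hmobT : mob O p T = 1 := (IF_mob hn hO p hp.pos).2.2.2.1 T hT1
  have hTs : ∀ I, supI T I = T := by
    intro I
    apply hT2
    have h2 := (IF_inf hn hO T I).2.1
    have h3 : T ≤ supI T I := by
      show T.1 ≤ _
      rw [h2]
      exact le_sup_left
    exact Nat.dvd_one.1 (hT1 ▸ (IF_dvd hn hO _ _ h3).1)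
  have hsT : ∀ I, supI I T = T := by
    intro I
    apply hT2
    have h2 := (IF_inf hn hO I T).2.1
    have h3 : T ≤ supI I T := by
      show T.1 ≤ _
      rw [h2]
      exact le_sup_right
    exact Nat.dvd_one.1 (hT1 ▸ (IF_dvd hn hO _ _ h3).1)
  have hss : ∀ I : Idl O, supI I I = I := by
    intro I
    have h2 := (IF_inf hn hO I I).2.1
    apply Subtype.ext
    rw [h2, sup_idem]
  have hh'T : h' T = 1 := hh'.one T hT1
  have htTT : t T T = 1 := by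
    rw [ht, tc1_t, tlt, hmobT, hT1, (hT4 T).1, hT1, hf.one, hf'.one, hh.one, hTs, hh'T]
    simp
  have htI : ∀ I ∈ H, t T I + t I T + t I I =
      -((f p + f' p) * h p) * ((p : ℂ) ^ n)⁻¹ +
        f p * f' p * h p * (((p : ℝ) ^ n)⁻¹ * h' I : ℝ) := by
    intro I hI
    have hNI := (hmH I).1 hI
    have hmI := tl_mob hn hO hp hNI
    rw [ht, tc1_t, tc1_t, tc1_t, tlt, tlt, tlt, hmobT, hmI, hT1, (hT4 I).1, (hT4 I).2,
      infI_self hn hO, hNI, hf.one, hf'.one, hTs, hsT, hss, hh'T]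
    push_cast
    ring
  have hrest : ‖∑ x ∈ (P ×ˢ P).filter (fun x => ¬ M x), t x.1 x.2‖ ≤
      ((n + 1) ^ 3 * 2 ^ (7 * n)) / (p : ℝ) ^ 2 := by
    refine (norm_sum_le _ _).trans ((Finset.sum_le_sum fun x _ =>
      tc1_nrm hf hf' hh hh' p x.1 x.2).trans ?_)
    apply tl_rest hn hO ρ hρ
    rintro ⟨I, J⟩ hx
    rw [Finset.mem_filter, Finset.mem_product, hmP, hmP, hM] at hx
    simp only [not_or, not_and] at hx
    obtain ⟨⟨hI, hJ⟩, m1, m2, m3, m4⟩ := hx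
    refine ⟨hI, hJ, ?_⟩
    have hK : (p : Mt n) ∈ (infI I J).1 := by
      rw [(IF_inf hn hO I J).1]
      exact ⟨hI, hJ⟩
    have hK1 := (infI_le hn hO _ I J).1 (le_refl (infI I J))
    by_cases hIT : I = T
    · subst hIT
      rw [(hT4 J).1, (hc0 I hI).2 rfl]
      have h1 : aagc ρ J ≠ 0 := fun h0 => m1 rfl ((hc0 J hJ).1 h0)
      have h2 : aagc ρ J ≠ 1 := fun h0 => m2 rfl ((hmH J).2 ((hc1 J hJ).1 h0))
      have h3 : 2 ≤ aagc ρ J := by omega
      simp only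
      rw [Nat.sub_zero]
      nlinarith [Nat.zero_le ((aagc ρ J - aagc ρ J) ^ 2)]
    by_cases hJT : J = T
    · subst hJT
      rw [(hT4 I).2, (hc0 J hJ).2 rfl]
      have h1 : aagc ρ I ≠ 0 := fun h0 => hIT ((hc0 I hI).1 h0)
      have h2 : aagc ρ I ≠ 1 := fun h0 => m3 ((hmH I).2 ((hc1 I hI).1 h0)) rfl
      have h3 : 2 ≤ aagc ρ I := by omega
      simp only
      rw [Nat.sub_zero]
      nlinarith [Nat.zero_le ((aagc ρ I - aagc ρ I) ^ 2)]
    have h1 : aagc ρ I ≠ 0 := fun h0 => hIT ((hc0 I hI).1 h0)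
    have h2 : aagc ρ J ≠ 0 := fun h0 => hJT ((hc0 J hJ).1 h0)
    have hle1 : infI I J ≠ I → aagc ρ I < aagc ρ (infI I J) := fun h3 =>
      aag_lt hn hO ρ hρ _ I hK hK1.1 h3.symm
    have hle2 : infI I J ≠ J → aagc ρ J < aagc ρ (infI I J) := fun h3 =>
      aag_lt hn hO ρ hρ _ J hK hK1.2 h3.symm
    have hx : ∀ a c : ℕ, a < c → 1 ≤ (c - a) ^ 2 := fun a c hac =>
      Nat.one_le_pow _ _ (by omega)
    by_cases e1 : infI I J = I
    · by_cases e2 : infI I J = J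
      · have e3 : J = I := by rw [← e2, e1]
        have h3 : aagc ρ I ≠ 1 := fun h0 => m4 ((hmH I).2 ((hc1 I hI).1 h0)) e3
        simp only
        rw [e1, e3]
        omega
      · have h3 := hle2 e2
        have h4 := hx _ _ h3
        simp only
        rw [e1] at h3 h4 ⊢
        rw [Nat.sub_self]
        omega
    · have h3 := hle1 e1
      have h4 := hx _ _ h3
      by_cases e2 : infI I J = J
      · simp only
        rw [e2] at h3 h4 ⊢
        rw [Nat.sub_self]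
        omega
      · have h5 := hle2 e2
        have h6 := hx _ _ h5
        simp only
        omega
  -- conclusion
  have hcard : (H.card : ℝ) * ((p : ℝ) ^ n)⁻¹ - (p : ℝ)⁻¹ = (p : ℝ)⁻¹ * (cp n p - 1) := by
    rw [hHc]
    have h1 : (p : ℝ) ^ n = (p : ℝ) ^ (n - 1) * p := by
      rw [← pow_succ]
      congr 1
      omega
    rw [h1]
    field_simp
  have hcp := tl_cp n p hn hp.pos
  have h1 : |(H.card : ℝ) * ((p : ℝ) ^ n)⁻¹ - (p : ℝ)⁻¹| ≤ n / (p : ℝ) ^ 2 := by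
    rw [hcard, abs_of_nonneg (mul_nonneg (by positivity) hcp.1)]
    calc (p : ℝ)⁻¹ * (cp n p - 1) ≤ (p : ℝ)⁻¹ * (n * (p : ℝ)⁻¹) :=
          mul_le_mul_of_nonneg_left hcp.2 (by positivity)
      _ = n / (p : ℝ) ^ 2 := by rw [pow_two]; field_simp
  set D : ℝ := (H.card : ℝ) * ((p : ℝ) ^ n)⁻¹ - (p : ℝ)⁻¹ with hD
  set Δ : ℝ := ∑ I ∈ H, ((p : ℝ) ^ n)⁻¹ * (h' I - v) with hΔ
  have hHpos : (0 : ℝ) < H.card := by
    rw [hHc]
    have : (0 : ℝ) < cp n p := by linarith [hcp.1]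
    positivity
  have hp1 : (1 : ℝ) ≤ p := by exact_mod_cast hp.one_lt.le
  have hv2 : |v| ≤ 2 := by
    have h2 : 0 < H.card := by exact_mod_cast hHpos
    obtain ⟨I, hI⟩ := Finset.card_pos.1 h2
    have h3 := hv I ((hmH I).1 hI)
    have h4 := hh'.nn I
    have h5 := hh'.le I
    have h6 : (1 : ℝ) / p ≤ 1 := by
      rw [div_le_one hp0]
      exact hp1
    rw [abs_le] at h3 ⊢
    constructor <;> linarith [h3.1, h3.2]
  have hΔ2 : |Δ| ≤ (n + 1) / (p : ℝ) ^ 2 := by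
    rw [hΔ]
    refine (Finset.abs_sum_le_sum_abs _ _).trans ?_
    have h2 : ∀ I ∈ H, |((p : ℝ) ^ n)⁻¹ * (h' I - v)| ≤ ((p : ℝ) ^ n)⁻¹ * (1 / p) := by
      intro I hI
      rw [abs_mul, abs_of_pos (by positivity : (0 : ℝ) < ((p : ℝ) ^ n)⁻¹)]
      exact mul_le_mul_of_nonneg_left (hv I ((hmH I).1 hI)) (by positivity)
    refine (Finset.sum_le_card_nsmul _ _ _ h2).trans ?_
    rw [nsmul_eq_mul, ← mul_assoc]
    have h3 : (H.card : ℝ) * ((p : ℝ) ^ n)⁻¹ = (p : ℝ)⁻¹ + D := by rw [hD]; ring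
    rw [h3]
    have h4 : D ≤ n / (p : ℝ) ^ 2 := (le_abs_self _).trans h1
    have h5 : (n : ℝ) / (p : ℝ) ^ 2 ≤ n * (p : ℝ)⁻¹ := by
      rw [div_eq_mul_inv]
      apply mul_le_mul_of_nonneg_left _ (Nat.cast_nonneg n)
      apply inv_anti₀ hp0
      nlinarith
    calc ((p : ℝ)⁻¹ + D) * (1 / p) ≤ ((p : ℝ)⁻¹ + n * (p : ℝ)⁻¹) * (1 / p) := by
          apply mul_le_mul_of_nonneg_right _ (by positivity)
          linarith
      _ = (n + 1) / (p : ℝ) ^ 2 := by rw [pow_two]; field_simp; ring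
  have hval : T3 O p f f' h h' - (1 - (f p + f' p) * h p / p + f p * f' p * h p * v / p) =
      -((f p + f' p) * h p) * (D : ℂ) + f p * f' p * h p * (v * D + Δ : ℝ) +
        ∑ x ∈ (P ×ˢ P).filter (fun x => ¬ M x), t x.1 x.2 := by
    have e1 : ∑ I ∈ H, (((p : ℝ) ^ n)⁻¹ * h' I) =
        Δ + v * ((H.card : ℝ) * ((p : ℝ) ^ n)⁻¹) := by
      rw [hΔ]
      have e2 : ∀ I ∈ H, ((p : ℝ) ^ n)⁻¹ * h' I =
          ((p : ℝ) ^ n)⁻¹ * (h' I - v) + v * ((p : ℝ) ^ n)⁻¹ := fun I _ => by ring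
      rw [Finset.sum_congr rfl e2, Finset.sum_add_distrib, Finset.sum_const, nsmul_eq_mul]
      ring
    have e3 : (H.card : ℝ) * ((p : ℝ) ^ n)⁻¹ = (p : ℝ)⁻¹ + D := by rw [hD]; ring
    have e4 : (H.card : ℂ) * ((p : ℂ) ^ n)⁻¹ = (p : ℂ)⁻¹ + (D : ℂ) := by
      have e5 : (((H.card : ℝ) * ((p : ℝ) ^ n)⁻¹ : ℝ) : ℂ) = (((p : ℝ)⁻¹ + D : ℝ) : ℂ) := by
        rw [e3]
      push_cast at e5
      exact e5
    rw [hsum, hsplit, hmain, htTT, Finset.sum_congr rfl htI, Finset.sum_add_distrib,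
      Finset.sum_const, nsmul_eq_mul, ← Finset.mul_sum, ← Complex.ofReal_sum, e1, e3]
    push_cast
    linear_combination (-((f p + f' p) * h p)) * e4
  rw [hval]
  have hfp := hf.le p
  have hfp' := hf'.le p
  have hhp := hh.le p
  have hA2 : ‖-((f p + f' p) * h p)‖ ≤ 2 := by
    rw [norm_neg, norm_mul]
    have h3 := norm_add_le (f p) (f' p)
    calc _ ≤ (2 : ℝ) * 1 := mul_le_mul (by linarith) hhp (norm_nonneg _) (by norm_num)
      _ = 2 := mul_one _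
  have hB1' : ‖f p * f' p * h p‖ ≤ 1 := by
    rw [norm_mul, norm_mul]
    exact mul_le_one₀ (mul_le_one₀ hfp (norm_nonneg _) hfp') (norm_nonneg _) hhp
  have hvD : |v * D + Δ| ≤ 2 * (n / (p : ℝ) ^ 2) + (n + 1) / (p : ℝ) ^ 2 := by
    refine (abs_add_le _ _).trans (add_le_add ?_ hΔ2)
    rw [abs_mul]
    exact mul_le_mul hv2 h1 (abs_nonneg _) (by norm_num)
  refine (norm_add_le _ _).trans ?_
  have hfin1 : ‖-((f p + f' p) * h p) * (D : ℂ)‖ ≤ 2 * (n / (p : ℝ) ^ 2) := by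
    rw [norm_mul, Complex.norm_real, Real.norm_eq_abs]
    exact mul_le_mul hA2 h1 (abs_nonneg _) (by norm_num)
  have hfin2 : ‖f p * f' p * h p * (v * D + Δ : ℝ)‖ ≤
      1 * (2 * (n / (p : ℝ) ^ 2) + (n + 1) / (p : ℝ) ^ 2) := by
    rw [norm_mul, Complex.norm_real, Real.norm_eq_abs]
    exact mul_le_mul hB1' hvD (abs_nonneg _) (by norm_num)
  calc _ ≤ (2 * (n / (p : ℝ) ^ 2) + 1 * (2 * (n / (p : ℝ) ^ 2) + (n + 1) / (p : ℝ) ^ 2)) +
        ((n + 1) ^ 3 * 2 ^ (7 * n)) / (p : ℝ) ^ 2 :=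
        add_le_add ((norm_add_le _ _).trans (add_le_add hfin1 hfin2)) hrest
    _ = _ := by ring

end


end Pool.Agent.RZH

namespace Pool.Agent.RZH

theorem T3_loc : type_of% @T3_loc_pr := @T3_loc_pr

end Pool.Agent.RZH
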