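import Pool.Agent.Lib_helper32.LAL.SD2
import Pool.Agent.Lib_helper41.RZGF.R_S4a
import Pool.Agent.Lib_helper42.GLM.Defs
import Pool.Agent.Lib_helper75.DZN.Defs
import Pool.Agent.Lib_helper75.DZNF.QQ
import Pool.Agent.Lib_helper75.DZNF.TL
import Pool.Agent.Lib_helper75.RZG.Defs
import Pool.Agent.Lib_helper96.GLF.M_MGA
import Pool.Agent.Lib_helper96.GLF.O_OA3
import Pool.Agent.Lib_helper96.GLF.O_OL4
import Pool.Agent.Lib_helper96.GLL.Defs
import Pool.Agent.Lib_helper96.GLL.DefsB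

/-!
# Project RZG, block TC2
-/

set_option autoImplicit false

namespace Pool.Agent.RZH

open MeasureTheory Matrix Complex Filter Topology Pool.Agent.GLL Pool.Agent.LAL
open scoped ENNReal ContDiff

noncomputable section

variable {n : ℕ} {O : Subring (Mt n)}

/-- the term of a pair -/
private def tc2t (O : Subring (Mt n)) (b : ℕ) (f f' h : ℕ → ℂ) (h' : Idl O → ℝ) (I J : Idl O) : ℂ :=
  (mob O b I : ℂ) * (mob O b J : ℂ) * (f (N I) * f' (N J)) *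
    (h (N (infI I J)) * ((N (infI I J) : ℂ) ^ n)⁻¹) * (h' (supI I J) : ℂ)

private theorem tc2_nrm {f f' h : ℕ → ℂ} (hf : DZN.Mu f) (hf' : DZN.Mu f') (hh : DZN.Mu h)
    {h' : Idl O → ℝ} (hh' : MuI h') (b : ℕ) (I J : Idl O) :
    ‖tc2t O b f f' h h' I J‖ ≤ DZN.tla O b I J := by
  have h1 := hf.le (N I)
  have h2 := hf'.le (N J)
  have h3 := hh.le (N (infI I J))
  have h4 : ‖f (N I)‖ * ‖f' (N J)‖ ≤ 1 := mul_le_one₀ h1 (norm_nonneg _) h2
  have h5 : ‖h (N (infI I J))‖ * ((N (infI I J) : ℝ) ^ n)⁻¹ ≤ ((N (infI I J) : ℝ) ^ n)⁻¹ :=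
    mul_le_of_le_one_left (by positivity) h3
  have h6 : ‖(h' (supI I J) : ℂ)‖ ≤ 1 := by
    rw [Complex.norm_real, Real.norm_eq_abs, abs_of_nonneg (hh'.nn _)]
    exact hh'.le _
  have h7 : ∀ I : Idl O, ‖((mob O b I : ℤ) : ℂ)‖ = |(mob O b I : ℝ)| := fun I => by
    rw [← Complex.ofReal_intCast, Complex.norm_real, Real.norm_eq_abs]
  have h8 : ‖(((N (infI I J) : ℂ)) ^ n)⁻¹‖ = ((N (infI I J) : ℝ) ^ n)⁻¹ := by
    rw [norm_inv, norm_pow, Complex.norm_natCast]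
  rw [tc2t, DZN.tla, norm_mul, norm_mul, norm_mul, norm_mul, norm_mul, norm_mul, h7, h7, h8]
  calc |(mob O b I : ℝ)| * |(mob O b J : ℝ)| * (‖f (N I)‖ * ‖f' (N J)‖) *
        (‖h (N (infI I J))‖ * ((N (infI I J) : ℝ) ^ n)⁻¹) * ‖(h' (supI I J) : ℂ)‖
      ≤ |(mob O b I : ℝ)| * |(mob O b J : ℝ)| * 1 * ((N (infI I J) : ℝ) ^ n)⁻¹ * 1 := by
        gcongr
    _ = _ := by rw [mul_one, mul_one]

set_option linter.unusedVariables false in
theorem T3_bad_pr (hn : 2 ≤ n) (hO : GLL.Ord O) (p : ℕ) (hp : p.Prime) : ∃ C : ℝ, 1 ≤ C ∧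
    ∀ f f' h : ℕ → ℂ, DZN.Mu f → DZN.Mu f' → DZN.Mu h → ∀ h' : Idl O → ℝ, MuI h' →
      ‖T3 O p f f' h h'‖ ≤ C := by
  refine ⟨1 + ∑ I ∈ PI O p, ∑ J ∈ PI O p, DZN.tla O p I J, ?_, ?_⟩
  · have : 0 ≤ ∑ I ∈ PI O p, ∑ J ∈ PI O p, DZN.tla O p I J :=
      Finset.sum_nonneg fun _ _ => Finset.sum_nonneg fun _ _ => by rw [DZN.tla]; positivity
    linarith
  · intro f f' h hf hf' hh h' hh'
    rw [T3]
    refine (norm_sum_le _ _).trans ?_
    refine (Finset.sum_le_sum fun I _ => (norm_sum_le _ _).trans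
      (Finset.sum_le_sum fun J _ => tc2_nrm hf hf' hh hh' p I J)).trans ?_
    linarith

private theorem tc2_pw {ι : Type} {l : Filter ι} {a : ι → ℂ} (ha : Tendsto a l (𝓝 0)) (m : ℕ) :
    Tendsto (fun i => pw (a i) m) l (𝓝 1) := by
  have h1 : Tendsto (fun i => Complex.exp (-(a i * (Real.log m : ℝ)))) l
      (𝓝 (Complex.exp (-(0 * ((Real.log m : ℝ) : ℂ))))) :=
    (Complex.continuous_exp.tendsto _).comp ((ha.mul_const _).neg)
  rw [zero_mul, neg_zero, Complex.exp_zero] at h1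
  exact h1

private theorem tc2_rpow {ι : Type} {l : Filter ι} {s : ι → ℝ} (hs : Tendsto s l (𝓝 0)) (x : ℝ)
    (hx : 0 < x) (c : ℝ) : Tendsto (fun i => x ^ (-(c + s i))) l (𝓝 (x ^ (-c))) := by
  have h1 : Tendsto (fun i => -(c + s i)) l (𝓝 (-(c + 0))) := (hs.const_add c).neg
  rw [add_zero] at h1
  exact ((Real.continuous_const_rpow hx.ne').tendsto (-c)).comp h1

private theorem tc2_hh (hn : 2 ≤ n) (hO : GLL.Ord O) {ι : Type} {l : Filter ι} {s1 s2 : ι → ℝ}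
    (h1 : Tendsto s1 l (𝓝 0)) (h2 : Tendsto s2 l (𝓝 0)) (hN : ∀ I : Idl O, 0 < N I) (J : Idl O) :
    Tendsto (fun i => hh (s1 i) (s2 i) J) l (𝓝 1) := by
  have e0 : ∀ I : Idl O, (0 : ℝ) < N I := fun I => by exact_mod_cast hN I
  have e1 := tc2_rpow h1 (N J : ℝ) (e0 J) n
  have e2 : Tendsto (fun i => ∑ K ∈ AI J, cs K * (N K : ℝ) ^ (-(s2 i))) l
      (𝓝 (∑ K ∈ AI J, cs K * (N K : ℝ) ^ (-(0 : ℝ)))) := by
    apply tendsto_finsetSum
    intro K _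
    have e3 := tc2_rpow h2 (N K : ℝ) (e0 K) 0
    simp only [zero_add] at e3
    exact e3.const_mul _
  have e4 : (∑ K ∈ AI J, cs K * (N K : ℝ) ^ (-(0 : ℝ))) = (N J : ℝ) ^ n := by
    simp only [neg_zero, Real.rpow_zero, mul_one]
    exact mi_spec hn hO (fun K => (N K : ℝ) ^ n) J
  rw [e4] at e2
  have e5 := e1.mul e2
  have e6 : (N J : ℝ) ^ (-(n : ℝ)) * (N J : ℝ) ^ n = 1 := by
    rw [← Real.rpow_natCast, ← Real.rpow_add (e0 J), neg_add_cancel, Real.rpow_zero]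
  rw [e6] at e5
  exact e5

theorem T3_cont_pr (hn : 2 ≤ n) (hO : GLL.Ord O) {p : ℕ} (hp : p.Prime) {ι : Type} (l : Filter ι)
    {a b : ι → ℂ} {c s1 s2 : ι → ℝ} (ha : Tendsto a l (𝓝 0)) (hb : Tendsto b l (𝓝 0))
    (hc : Tendsto c l (𝓝 0)) (h1 : Tendsto s1 l (𝓝 0)) (h2 : Tendsto s2 l (𝓝 0)) :
    Tendsto (fun i => T3 O p (pw (a i)) (pw (b i)) (pw (c i)) (hh (s1 i) (s2 i))) l
      (𝓝 (rho O p : ℂ)) := by
  classical
  have hN : ∀ I : Idl O, 0 < N I := fun I => (IF_gen hn hO I).2.2.1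
  have hrho : (rho O p : ℂ) = ∑ I ∈ PI O p, ∑ J ∈ PI O p, (mob O p I : ℂ) * (mob O p J : ℂ) *
      (1 * 1) * (1 * ((N (infI I J) : ℂ) ^ n)⁻¹) * ((1 : ℝ) : ℂ) := by
    have e1 : {q : Idl O × Idl O | (p : Mt n) ∈ q.1.1 ∧ (p : Mt n) ∈ q.2.1} =
        ((PI O p ×ˢ PI O p : Finset (Idl O × Idl O)) : Set (Idl O × Idl O)) := by
      ext q
      simp only [Set.mem_ofPred_eq, Finset.coe_product, Set.mem_prod, Finset.mem_coe]
      rw [GLL.mem_PI hn hO hp.pos, GLL.mem_PI hn hO hp.pos]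
    rw [(IF_rho hn hO p hp.pos).2, e1, finsum_mem_coe_finset, Finset.sum_product]
    push_cast
    refine Finset.sum_congr rfl fun I _ => Finset.sum_congr rfl fun J _ => ?_
    ring
  rw [hrho]
  simp only [T3]
  apply tendsto_finsetSum
  intro I _
  apply tendsto_finsetSum
  intro J _
  have hc' : Tendsto (fun i => ((c i : ℝ) : ℂ)) l (𝓝 0) := by
    have := (Complex.continuous_ofReal.tendsto 0).comp hc
    rw [Complex.ofReal_zero] at this
    exact this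
  have e1 := tc2_pw ha (N I)
  have e2 := tc2_pw hb (N J)
  have e3 := tc2_pw hc' (N (infI I J))
  have e4 := (Complex.continuous_ofReal.tendsto 1).comp (tc2_hh hn hO h1 h2 hN (supI I J))
  exact (((e1.mul e2).const_mul _).mul (e3.mul_const _)).mul e4



end

end Pool.Agent.RZH

namespace Pool.Agent.RZH

theorem T3_bad : type_of% @T3_bad_pr := @T3_bad_pr

theorem T3_cont : type_of% @T3_cont_pr := @T3_cont_pr

end Pool.Agent.RZH
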