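import Pool.Agent.Lib_helper32.LALS.S_SC3
import Pool.Agent.Lib_helper42.GLM.Defs
import Pool.Agent.Lib_helper75.DZNF.L3
import Pool.Agent.Lib_helper75.DZNF.L4
import Pool.Agent.Lib_helper75.RZG.Defs
import Pool.Agent.Lib_helper96.GLF.O_OA3
import Pool.Agent.Lib_helper96.GLF.O_OE
import Pool.Agent.Lib_helper96.GLF.O_OL2
import Pool.Agent.Lib_helper96.GLL.Defs
import Pool.Agent.Lib_helper96.GLL.DefsB

/-!
# Project RZG, block TA4: the Möbius functions for different primorials agree
-/

set_option autoImplicit false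

namespace Pool.Agent.RZH

open MeasureTheory Matrix Complex Filter Topology Pool.Agent.GLL Pool.Agent.LAL
open scoped ENNReal ContDiff

noncomputable section

variable {n : ℕ} {O : Subring (Mt n)}

theorem ta4_dec {X X' : ℕ} (h : X ≤ X') : ∃ c : ℕ, 0 < c ∧ primorial X' = primorial X * c ∧
    ∀ m : ℕ, 0 < m → m ≤ X → m.Coprime c := by
  classical
  set s := (Finset.range (X + 1)).filter Nat.Prime with hs
  set s' := (Finset.range (X' + 1)).filter Nat.Prime with hs'
  have hss : s ⊆ s' := by
    refine Finset.filter_subset_filter _ fun x hx => ?_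
    rw [Finset.mem_range] at hx ⊢
    omega
  refine ⟨∏ p ∈ s' \ s, p, ?_, ?_, ?_⟩
  · refine Finset.prod_pos fun p hp => ?_
    rw [Finset.mem_sdiff, hs', Finset.mem_filter] at hp
    exact hp.1.2.pos
  · rw [mul_comm]
    exact (Finset.prod_sdiff hss).symm
  · intro m hm hmX
    refine Nat.Coprime.prod_right fun p hp => ?_
    rw [Finset.mem_sdiff, hs, hs', Finset.mem_filter, Finset.mem_filter, Finset.mem_range,
      Finset.mem_range] at hp
    have hpX : X < p := by
      by_contra h1
      exact hp.2 ⟨by omega, hp.1.2⟩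
    refine (Nat.Coprime.symm ((Nat.Prime.coprime_iff_not_dvd hp.1.2).2 fun h1 => ?_))
    have := Nat.le_of_dvd hm h1
    omega

theorem ta4_PI (hn : 2 ≤ n) (hO : GLL.Ord O) {b : ℕ} (hb : 0 < b) (A : Idl O) :
    A ∈ PI O b ↔ (b : Mt n) ∈ A.1 := by
  have h := (IF_mob hn hO b hb).2.2.1
  rw [PI, dif_pos h, Set.Finite.mem_toFinset]
  rfl

/-- the Möbius functions for different `b` agree -/
theorem mob_ext_pr (hn : 2 ≤ n) (hO : GLL.Ord O) {X X' : ℕ} (h : X ≤ X') (A : Idl O) :
    ((N A : ℝ) ≤ X → mob O (primorial X') A = mob O (primorial X) A) ∧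
    (A ∈ PI O (primorial X) → A ∈ PI O (primorial X')) ∧
    (A ∈ PI O (primorial X') → (N A : ℝ) ≤ X → A ∈ PI O (primorial X)) := by
  classical
  obtain ⟨c, hc, hcX, hcop⟩ := ta4_dec h
  have hb := primorial_pos X
  have hb' := primorial_pos X'
  refine ⟨fun hA => ?_, ?_, ?_⟩
  · rw [Nat.cast_le] at hA
    have key : ∀ m : ℕ, ∀ g : Idl O, N g = m → m ≤ X →
        mob O (primorial X') g = mob O (primorial X) g := by
      intro m
      induction m using Nat.strong_induction_on with
      | _ m ih =>
      intro g hg hm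
      have hg0 : 0 < N g := (IF_gen hn hO g).2.2.1
      have h1 := DZL.mob_fin hn hO (primorial X') hb' g
      have h2 := DZL.mob_fin hn hO (primorial X) hb g
      have h3 : (N g).Coprime (primorial X') ↔ (N g).Coprime (primorial X) := by
        rw [hcX, Nat.coprime_mul_iff_right]
        exact ⟨fun h => h.1, fun h => ⟨h, hcop _ hg0 (hg ▸ hm)⟩⟩
      set S := (IF_sup hn hO g).1.toFinset with hS
      have hgS : g ∈ S := by rw [hS, Set.Finite.mem_toFinset]; exact le_refl g
      rw [← Finset.add_sum_erase S _ hgS] at h1 h2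
      have h4 : ∑ x ∈ S.erase g, mob O (primorial X') x = ∑ x ∈ S.erase g,
          mob O (primorial X) x := by
        refine Finset.sum_congr rfl fun J hJ => ?_
        rw [Finset.mem_erase, hS, Set.Finite.mem_toFinset] at hJ
        have h5 := IF_dvd hn hO J g hJ.2
        have h6 : N J < N g := by
          refine lt_of_le_of_ne (Nat.le_of_dvd hg0 h5.1) fun h => hJ.1 (h5.2 h)
        exact ih (N J) (hg ▸ h6) J rfl (by omega)
      rw [h4] at h1
      have h5 : (if (N g).Coprime (primorial X') then (1 : ℤ) else 0) =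
          if (N g).Coprime (primorial X) then 1 else 0 := if_congr h3 rfl rfl
      rw [h5] at h1
      linarith
    exact key _ A rfl hA
  · rw [ta4_PI hn hO hb, ta4_PI hn hO hb', hcX]
    exact fun hA => DZL.la_mul hA
  · rw [ta4_PI hn hO hb, ta4_PI hn hO hb', hcX]
    intro hA hAX
    rw [Nat.cast_le] at hAX
    exact DZL.la_cop hn hO hc hA (hcop _ (IF_gen hn hO A).2.2.1 hAX)

end


end Pool.Agent.RZH

namespace Pool.Agent.RZH

theorem mob_ext : type_of% @mob_ext_pr := @mob_ext_pr

end Pool.Agent.RZH
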