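import Pool.Agent.Lib_helper41.RZGF.R_TA2
import Pool.Agent.Lib_helper41.RZGF.R_TA4
import Pool.Agent.Lib_helper41.RZGF.R_TB2
import Pool.Agent.Lib_helper42.GLM.Defs
import Pool.Agent.Lib_helper75.DZN.Defs
import Pool.Agent.Lib_helper75.DZNF.TL
import Pool.Agent.Lib_helper75.RZG.Defs
import Pool.Agent.Lib_helper96.GLF.O_OA3
import Pool.Agent.Lib_helper96.GLF.O_OI
import Pool.Agent.Lib_helper96.GLL.Defs
import Pool.Agent.Lib_helper96.GLL.DefsB

/-!
# Project RZG, block TF1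
-/

set_option autoImplicit false

namespace Pool.Agent.RZH

open MeasureTheory Matrix Complex Filter Topology Pool.Agent.GLL Pool.Agent.LAL
open scoped ENNReal ContDiff

noncomputable section

variable {n : ℕ} {O : Subring (Mt n)}

private theorem tf1_pw (w : ℂ) {m : ℕ} (hm : 0 < m) (s : ℝ) :
    pw (w + s) m = pw w m * (((m : ℝ) ^ (-s) : ℝ) : ℂ) := by
  have hm' : (0 : ℝ) < m := by exact_mod_cast hm
  rw [pw, pw, Real.rpow_def_of_pos hm', Complex.ofReal_exp, ← Complex.exp_add]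
  congr 1
  push_cast
  ring

private theorem tf1_pw' {m : ℕ} (hm : 0 < m) (s : ℝ) :
    pw s m = (((m : ℝ) ^ (-s) : ℝ) : ℂ) := by
  have h := tf1_pw 0 hm s
  rw [zero_add] at h
  rw [h]
  simp [pw]

/-- the weight of a pair -/
private def tf1W (O : Subring (Mt n)) (b : ℕ) (s : ℝ) (I J : Idl O) : ℂ :=
  (mob O b I : ℂ) * (mob O b J : ℂ) * (((N (infI I J) : ℝ) ^ (-((n : ℝ) + s)) : ℝ) : ℂ)

private theorem tf1_lin {ι : Type*} (P : Finset ι) (A : ι → ι → ℂ) (c : ℝ → ℂ) (f : ι → ℝ → ℂ)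
    (hf : ∀ J, Integrable fun t => c t * f J t) :
    ∫ p : ℝ × ℝ, c p.1 * c p.2 * ∑ J ∈ P, ∑ K ∈ P, A J K * (f J p.1 * f K p.2) =
      ∑ J ∈ P, ∑ K ∈ P, A J K * ((∫ t, c t * f J t) * ∫ t, c t * f K t) := by
  have h1 : ∀ J K, Integrable (fun p : ℝ × ℝ => A J K * ((c p.1 * f J p.1) * (c p.2 * f K p.2)))
      volume := by
    intro J K
    have := (hf J).mul_prod (hf K)
    rw [← Measure.volume_eq_prod] at this
    exact this.const_mul _
  have h2 : (fun p : ℝ × ℝ => c p.1 * c p.2 * ∑ J ∈ P, ∑ K ∈ P, A J K * (f J p.1 * f K p.2)) =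
      fun p => ∑ J ∈ P, ∑ K ∈ P, A J K * ((c p.1 * f J p.1) * (c p.2 * f K p.2)) := by
    funext p
    rw [Finset.mul_sum]
    refine Finset.sum_congr rfl fun J _ => ?_
    rw [Finset.mul_sum]
    refine Finset.sum_congr rfl fun K _ => ?_
    ring
  rw [h2, integral_finsetSum _ fun J _ => integrable_finsetSum _ fun K _ => h1 J K]
  refine Finset.sum_congr rfl fun J _ => ?_
  rw [integral_finsetSum _ fun K _ => h1 J K]
  refine Finset.sum_congr rfl fun K _ => ?_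
  rw [integral_const_mul, Measure.volume_eq_prod]
  congr 1
  exact integral_prod_mul (fun t => c t * f J t) (fun t => c t * f K t)

/-- the coefficients do not depend on the product of primes -/
private theorem tf1_cT (hn : 2 ≤ n) (hO : GLL.Ord O) {g : ℝ → ℝ} {ε : ℝ} (hg : CutG g ε)
    {T : ℝ} (hT : 1 ≤ T) {X X' : ℕ} (hX : Real.exp T ≤ X) (hX' : X ≤ X') (A : Idl O) :
    cT O g T (primorial X) A = cT O g T (primorial X') A ∧
      (A ∈ PI O (primorial X) → A ∈ PI O (primorial X')) ∧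
      (A ∈ PI O (primorial X') → A ∉ PI O (primorial X) → cT O g T (primorial X') A = 0) := by
  obtain ⟨h1, h2, h3⟩ := mob_ext hn hO hX' A
  have hz : ¬ (N A : ℝ) ≤ X → aT g T (N A) = 0 := by
    intro h
    rw [aT]
    apply hg.zero
    rw [one_le_div (by linarith)]
    have h4 : Real.exp T ≤ N A := hX.trans (not_le.1 h).le
    have h5 := Real.log_le_log (Real.exp_pos T) h4
    rwa [Real.log_exp] at h5
  refine ⟨?_, h2, ?_⟩
  · by_cases h : (N A : ℝ) ≤ X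
    · rw [cT, cT, h1 h]
    · rw [cT, cT, hz h, mul_zero, mul_zero]
  · intro h4 h5
    have h6 : ¬ (N A : ℝ) ≤ X := fun h => h5 (h3 h4 h)
    rw [cT, hz h6, mul_zero]

private theorem tf1_S1 (hn : 2 ≤ n) (hO : GLL.Ord O) {g : ℝ → ℝ} {ε : ℝ} (hg : CutG g ε)
    {T : ℝ} (hT : 1 ≤ T) {X X' : ℕ} (hX : Real.exp T ≤ X) (hX' : X ≤ X') (s : ℝ) :
    S1 (O := O) (primorial X) (cT O g T (primorial X)) s =
      ∑ A ∈ PI O (primorial X'), ∑ A' ∈ PI O (primorial X'), cT O g T (primorial X') A *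
        cT O g T (primorial X') A' * (N (infI A A') : ℝ) ^ (-((n : ℝ) + s)) := by
  have h := tf1_cT (n := n) (O := O) hn hO hg hT hX hX'
  have hsub : PI O (primorial X) ⊆ PI O (primorial X') := fun A hA => (h A).2.1 hA
  rw [S1, Finset.sum_subset hsub]
  · refine Finset.sum_congr rfl fun A _ => ?_
    rw [Finset.sum_subset hsub]
    · refine Finset.sum_congr rfl fun A' _ => ?_
      rw [(h A).1, (h A').1]
    · intro A' h1 h2
      rw [(h A').1, (h A').2.2 h1 h2, mul_zero, zero_mul]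
  · intro A h1 h2
    apply Finset.sum_eq_zero
    intro A' _
    rw [(h A).1, (h A).2.2 h1 h2, zero_mul, zero_mul]

private theorem tf1_rep {g : ℝ → ℝ} {A₀ : ℝ} {c : ℝ → ℂ}
    (hc2 : ∀ y : ℝ, 0 ≤ y → ((g y : ℝ) : ℂ) = ∫ t : ℝ, c t * Complex.exp (-((A₀ + t * I) * y)))
    {T : ℝ} (hT : 1 ≤ T) (m : ℕ) :
    ∫ t : ℝ, c t * pw ((A₀ + t * I) / T) m = ((aT g T m : ℝ) : ℂ) := by
  have h1 : 0 ≤ Real.log m / T := div_nonneg (Real.log_natCast_nonneg m) (by linarith)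
  rw [aT, hc2 _ h1]
  congr 1
  funext t
  rw [pw]
  congr 2
  push_cast
  ring

private theorem tf1_int {A₀ : ℝ} (hA₀ : 0 < A₀) {c : ℝ → ℂ} (hc : Continuous c)
    (hc1 : Integrable fun t : ℝ => ‖c t‖ * (1 + |t|) ^ 4) {T : ℝ} (hT : 1 ≤ T) (m : ℕ) :
    Integrable fun t : ℝ => c t * pw ((A₀ + t * I) / T) m := by
  refine Integrable.mono' hc1 ?_ (ae_of_all _ fun t => ?_)
  · refine (hc.mul ?_).aestronglyMeasurable
    unfold pw
    fun_prop
  · rw [norm_mul]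
    refine mul_le_mul_of_nonneg_left ?_ (norm_nonneg _)
    have h0 : 0 ≤ ((A₀ + t * I) / T : ℂ).re := by
      have : ((A₀ + t * I) / T : ℂ).re = A₀ / T := by
        rw [Complex.div_ofReal_re]
        simp
      rw [this]
      exact div_nonneg hA₀.le (by linarith)
    have h1 := (pw_mu h0).le m
    have h2 : (1 : ℝ) ≤ (1 + |t|) ^ 4 := by
      apply one_le_pow₀
      linarith [abs_nonneg t]
    exact h1.trans h2

private theorem tf1_main (hn : 2 ≤ n) (hO : GLL.Ord O) {g : ℝ → ℝ} {ε : ℝ} (hg : CutG g ε)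
    {A₀ : ℝ} (hA₀ : 0 < A₀) {c : ℝ → ℂ} (hc : Continuous c)
    (hc1 : Integrable fun t : ℝ => ‖c t‖ * (1 + |t|) ^ 4)
    (hc2 : ∀ y : ℝ, 0 ≤ y → ((g y : ℝ) : ℂ) = ∫ t : ℝ, c t * Complex.exp (-((A₀ + t * I) * y)))
    {T : ℝ} (hT : 1 ≤ T) {X X' : ℕ} (hX : Real.exp T ≤ X) (hX' : X ≤ X') (s : ℝ) :
    ((S1 (O := O) (primorial X) (cT O g T (primorial X)) s : ℝ) : ℂ) =
      ∫ p : ℝ × ℝ, c p.1 * c p.2 * ∑ J ∈ PI O (primorial X'), ∑ K ∈ PI O (primorial X'),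
        tf1W O (primorial X') s J K * (pw ((A₀ + p.1 * I) / T) (N J) *
          pw ((A₀ + p.2 * I) / T) (N K)) := by
  have h := tf1_lin (PI O (primorial X')) (tf1W O (primorial X') s) c
    (fun J t => pw ((A₀ + t * I) / T) (N J)) fun J => tf1_int hA₀ hc hc1 hT (N J)
  rw [h, tf1_S1 hn hO hg hT hX hX' s]
  push_cast
  refine Finset.sum_congr rfl fun J _ => Finset.sum_congr rfl fun K _ => ?_
  rw [tf1_rep hc2 hT, tf1_rep hc2 hT, tf1W, cT, cT]
  push_cast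
  ring

set_option linter.unusedVariables false in
theorem S1_rep_pr (hn : 2 ≤ n) (hO : GLL.Ord O) {g : ℝ → ℝ} {ε : ℝ} (hg : CutG g ε) {A₀ : ℝ}
    (hA₀ : 0 < A₀) {c : ℝ → ℂ} (hc : Continuous c)
    (hc1 : Integrable fun t : ℝ => ‖c t‖ * (1 + |t|) ^ 4)
    (hc2 : ∀ y : ℝ, 0 ≤ y → ((g y : ℝ) : ℂ) = ∫ t : ℝ, c t * Complex.exp (-((A₀ + t * I) * y)))
    {T : ℝ} (hT : 1 ≤ T) {X X' : ℕ} (hX : Real.exp T ≤ X) (hX' : X ≤ X') {ς : ℝ}
    (hς : |ς| * T < A₀) :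
    (0 ≤ ς → ((S1 (O := O) (primorial X) (cT O g T (primorial X)) ς : ℝ) : ℂ) =
      ∫ p : ℝ × ℝ, c p.1 * c p.2 * T3 O (primorial X') (pw ((A₀ + p.1 * I) / T))
        (pw ((A₀ + p.2 * I) / T)) (pw ς) (hh 0 0)) ∧
    (ς < 0 → ((S1 (O := O) (primorial X) (cT O g T (primorial X)) ς : ℝ) : ℂ) =
      ∫ p : ℝ × ℝ, c p.1 * c p.2 * T3 O (primorial X') (pw ((A₀ + p.1 * I) / T + ς))
        (pw ((A₀ + p.2 * I) / T + ς)) (pw 0) (hh (-ς) 0)) := by
  have hN : ∀ I : Idl O, 0 < N I := fun I => (IF_gen hn hO I).2.2.1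
  have hN' : ∀ I : Idl O, (0 : ℝ) < N I := fun I => by exact_mod_cast hN I
  constructor
  · intro h0
    rw [tf1_main hn hO hg hA₀ hc hc1 hc2 hT hX hX' ς]
    congr 1
    funext p
    congr 1
    rw [T3]
    refine Finset.sum_congr rfl fun J _ => Finset.sum_congr rfl fun K _ => ?_
    have h1 : hh (O := O) 0 0 (supI J K) = 1 := by
      rw [(hh_val hn hO (le_refl (0 : ℝ)) (by norm_num : (0 : ℝ) ≤ 0 + 0)).2, neg_zero,
        Real.rpow_zero]
    have h2 : (((N (infI J K) : ℝ) ^ (-((n : ℝ) + ς)) : ℝ) : ℂ) =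
        pw ς (N (infI J K)) * ((N (infI J K) : ℂ) ^ n)⁻¹ := by
      rw [tf1_pw' (hN _), neg_add, Real.rpow_add (hN' _), Real.rpow_neg (hN' _).le (n : ℝ),
        Real.rpow_natCast]
      push_cast
      ring
    rw [h1, tf1W, h2]
    push_cast
    ring
  · intro h0
    rw [tf1_main hn hO hg hA₀ hc hc1 hc2 hT hX hX' ς]
    congr 1
    funext p
    congr 1
    rw [T3]
    refine Finset.sum_congr rfl fun J _ => Finset.sum_congr rfl fun K _ => ?_
    have h1 : hh (O := O) (-ς) 0 (supI J K) = (N (supI J K) : ℝ) ^ ς := by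
      rw [(hh_val hn hO (ς₁ := -ς) (ς₂ := 0) (by linarith) (by linarith)).2, neg_neg]
    have h3 : (N (infI J K) : ℝ) * N (supI J K) = N J * N K := by
      exact_mod_cast (IF_inf hn hO J K).2.2
    have h4 : (N (infI J K) : ℝ) ^ (-ς) =
        (N J : ℝ) ^ (-ς) * (N K : ℝ) ^ (-ς) * (N (supI J K) : ℝ) ^ ς := by
      rw [← Real.mul_rpow (hN' J).le (hN' K).le, ← h3, Real.mul_rpow (hN' _).le (hN' _).le,
        mul_assoc, ← Real.rpow_add (hN' _), neg_add_cancel, Real.rpow_zero, mul_one]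
    have h2 : (((N (infI J K) : ℝ) ^ (-((n : ℝ) + ς)) : ℝ) : ℂ) =
        (((N J : ℝ) ^ (-ς) * (N K : ℝ) ^ (-ς) * (N (supI J K) : ℝ) ^ ς : ℝ) : ℂ) *
          ((N (infI J K) : ℂ) ^ n)⁻¹ := by
      rw [neg_add, Real.rpow_add (hN' _), Real.rpow_neg (hN' _).le (n : ℝ),
        Real.rpow_natCast, h4]
      push_cast
      ring
    have h5 : pw 0 (N (infI J K)) = 1 := by simp [pw]
    rw [h1, tf1W, h2, h5, tf1_pw _ (hN J), tf1_pw _ (hN K)]
    push_cast
    ring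


end

end Pool.Agent.RZH

namespace Pool.Agent.RZH

theorem S1_rep : type_of% @S1_rep_pr := @S1_rep_pr

end Pool.Agent.RZH
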