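import Pool.Agent.Lib_helper32.LAL.SD2
import Pool.Agent.Lib_helper32.LALS.S_SC3
import Pool.Agent.Lib_helper41.RZGF.R_TA2
import Pool.Agent.Lib_helper41.RZGF.R_TA4
import Pool.Agent.Lib_helper42.GLM.Defs
import Pool.Agent.Lib_helper75.DZN.Defs
import Pool.Agent.Lib_helper75.DZNF.TL
import Pool.Agent.Lib_helper75.RZG.Defs
import Pool.Agent.Lib_helper96.GLF.O_OA3
import Pool.Agent.Lib_helper96.GLF.O_OE
import Pool.Agent.Lib_helper96.GLF.O_OI
import Pool.Agent.Lib_helper96.GLF.O_OL2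
import Pool.Agent.Lib_helper96.GLL.Defs
import Pool.Agent.Lib_helper96.GLL.DefsB

/-!
# Project RZG, block TF2
-/

set_option autoImplicit false

namespace Pool.Agent.RZH

open MeasureTheory Matrix Complex Filter Topology Pool.Agent.GLL Pool.Agent.LAL
open scoped ENNReal ContDiff

noncomputable section

variable {n : ℕ} {O : Subring (Mt n)}

private theorem tf2_pw (w : ℂ) {m : ℕ} (hm : 0 < m) (s : ℝ) :
    pw (w + s) m = pw w m * (((m : ℝ) ^ (-s) : ℝ) : ℂ) := by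
  have hm' : (0 : ℝ) < m := by exact_mod_cast hm
  rw [pw, pw, Real.rpow_def_of_pos hm', Complex.ofReal_exp, ← Complex.exp_add]
  congr 1
  push_cast
  ring

private theorem tf2_pw' {m : ℕ} (hm : 0 < m) (s : ℝ) :
    pw s m = (((m : ℝ) ^ (-s) : ℝ) : ℂ) := by
  have h := tf2_pw 0 hm s
  rw [zero_add] at h
  rw [h]
  simp [pw]

private theorem tf2_lin {ι : Type*} (P : Finset ι) (A : ι → ι → ℂ) (c : ℝ → ℂ) (f : ι → ℝ → ℂ)
    (hf : ∀ J, Integrable fun t => c t * f J t) :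
    ∫ p : ℝ × ℝ, c p.1 * c p.2 * ∑ J ∈ P, ∑ K ∈ P, A J K * (f J p.1 * f K p.2) =
      ∑ J ∈ P, ∑ K ∈ P, A J K * ((∫ t, c t * f J t) * ∫ t, c t * f K t) := by
  have h1 : ∀ J K, Integrable (fun p : ℝ × ℝ => A J K * ((c p.1 * f J p.1) * (c p.2 * f K p.2)))
      volume := by
    intro J K
    have := (hf J).mul_prod (hf K)
    rw [← Measure.volume_eq_prod] at this
    exact this.const_mul _
  have h2 : (fun p : ℝ × ℝ => c p.1 * c p.2 * ∑ J ∈ P, ∑ K ∈ P, A J K * (f J p.1 * f K p.2)) =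
      fun p => ∑ J ∈ P, ∑ K ∈ P, A J K * ((c p.1 * f J p.1) * (c p.2 * f K p.2)) := by
    funext p
    rw [Finset.mul_sum]
    refine Finset.sum_congr rfl fun J _ => ?_
    rw [Finset.mul_sum]
    refine Finset.sum_congr rfl fun K _ => ?_
    ring
  rw [h2, integral_finsetSum _ fun J _ => integrable_finsetSum _ fun K _ => h1 J K]
  refine Finset.sum_congr rfl fun J _ => ?_
  rw [integral_finsetSum _ fun K _ => h1 J K]
  refine Finset.sum_congr rfl fun K _ => ?_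
  rw [integral_const_mul, Measure.volume_eq_prod]
  congr 1
  exact integral_prod_mul (fun t => c t * f J t) (fun t => c t * f K t)

/-- the coefficients do not depend on the product of primes -/
private theorem tf2_cT (hn : 2 ≤ n) (hO : GLL.Ord O) {g : ℝ → ℝ} {ε : ℝ} (hg : CutG g ε)
    {T : ℝ} (hT : 1 ≤ T) {X X' : ℕ} (hX : Real.exp T ≤ X) (hX' : X ≤ X') (A : Idl O) :
    cT O g T (primorial X) A = cT O g T (primorial X') A ∧
      (A ∈ PI O (primorial X) → A ∈ PI O (primorial X')) ∧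
      (A ∈ PI O (primorial X') → A ∉ PI O (primorial X) → cT O g T (primorial X') A = 0) := by
  obtain ⟨h1, h2, h3⟩ := mob_ext hn hO hX' A
  have hz : ¬ (N A : ℝ) ≤ X → aT g T (N A) = 0 := by
    intro h
    rw [aT]
    apply hg.zero
    rw [one_le_div (by linarith)]
    have h4 : Real.exp T ≤ N A := hX.trans (not_le.1 h).le
    have h5 := Real.log_le_log (Real.exp_pos T) h4
    rwa [Real.log_exp] at h5
  refine ⟨?_, h2, ?_⟩
  · by_cases h : (N A : ℝ) ≤ X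
    · rw [cT, cT, h1 h]
    · rw [cT, cT, hz h, mul_zero, mul_zero]
  · intro h4 h5
    have h6 : ¬ (N A : ℝ) ≤ X := fun h => h5 (h3 h4 h)
    rw [cT, hz h6, mul_zero]

private theorem tf2_X (hn : 2 ≤ n) (hO : GLL.Ord O) {g : ℝ → ℝ} {ε : ℝ} (hg : CutG g ε)
    {T : ℝ} (hT : 1 ≤ T) {X X' : ℕ} (hX : Real.exp T ≤ X) (hX' : X ≤ X')
    (G : Idl O → Idl O → ℝ) :
    ∑ A ∈ PI O (primorial X), ∑ A' ∈ PI O (primorial X), cT O g T (primorial X) A *
        cT O g T (primorial X) A' * G A A' =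
      ∑ A ∈ PI O (primorial X'), ∑ A' ∈ PI O (primorial X'), cT O g T (primorial X') A *
        cT O g T (primorial X') A' * G A A' := by
  have h := tf2_cT (n := n) (O := O) hn hO hg hT hX hX'
  have hsub : PI O (primorial X) ⊆ PI O (primorial X') := fun A hA => (h A).2.1 hA
  rw [Finset.sum_subset hsub]
  · refine Finset.sum_congr rfl fun A _ => ?_
    rw [Finset.sum_subset hsub]
    · refine Finset.sum_congr rfl fun A' _ => ?_
      rw [(h A).1, (h A').1]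
    · intro A' h1 h2
      rw [(h A').1, (h A').2.2 h1 h2, mul_zero, zero_mul]
  · intro A h1 h2
    apply Finset.sum_eq_zero
    intro A' _
    rw [(h A).1, (h A).2.2 h1 h2, zero_mul, zero_mul]

private theorem tf2_rep {g : ℝ → ℝ} {A₀ : ℝ} {c : ℝ → ℂ}
    (hc2 : ∀ y : ℝ, 0 ≤ y → ((g y : ℝ) : ℂ) = ∫ t : ℝ, c t * Complex.exp (-((A₀ + t * I) * y)))
    {T : ℝ} (hT : 1 ≤ T) (m : ℕ) :
    ∫ t : ℝ, c t * pw ((A₀ + t * I) / T) m = ((aT g T m : ℝ) : ℂ) := by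
  have h1 : 0 ≤ Real.log m / T := div_nonneg (Real.log_natCast_nonneg m) (by linarith)
  rw [aT, hc2 _ h1]
  congr 1
  funext t
  rw [pw]
  congr 2
  push_cast
  ring

private theorem tf2_int {A₀ : ℝ} (hA₀ : 0 < A₀) {c : ℝ → ℂ} (hc : Continuous c)
    (hc1 : Integrable fun t : ℝ => ‖c t‖ * (1 + |t|) ^ 4) {T : ℝ} (hT : 1 ≤ T) (m : ℕ) :
    Integrable fun t : ℝ => c t * pw ((A₀ + t * I) / T) m := by
  refine Integrable.mono' hc1 ?_ (ae_of_all _ fun t => ?_)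
  · refine (hc.mul ?_).aestronglyMeasurable
    unfold pw
    fun_prop
  · rw [norm_mul]
    refine mul_le_mul_of_nonneg_left ?_ (norm_nonneg _)
    have h0 : 0 ≤ ((A₀ + t * I) / T : ℂ).re := by
      have : ((A₀ + t * I) / T : ℂ).re = A₀ / T := by
        rw [Complex.div_ofReal_re]
        simp
      rw [this]
      exact div_nonneg hA₀.le (by linarith)
    have h1 := (pw_mu h0).le m
    have h2 : (1 : ℝ) ≤ (1 + |t|) ^ 4 := by
      apply one_le_pow₀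
      linarith [abs_nonneg t]
    exact h1.trans h2

private theorem tf2_AI (hn : 2 ≤ n) (hO : GLL.Ord O) (J K : Idl O) : K ∈ AI J ↔ J ≤ K := by
  have h : {K : Idl O | J ≤ K}.Finite := (IF_sup hn hO J).1
  rw [AI, dif_pos h, Set.Finite.mem_toFinset]
  rfl

private theorem tf2_PI (hn : 2 ≤ n) (hO : GLL.Ord O) {b : ℕ} (hb : 0 < b) (A : Idl O) :
    A ∈ PI O b ↔ (b : Mt n) ∈ A.1 := by
  have h := (IF_mob hn hO b hb).2.2.1
  rw [PI, dif_pos h, Set.Finite.mem_toFinset]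
  rfl

private theorem tf2_sup (hn : 2 ≤ n) (hO : GLL.Ord O) (A A' K : Idl O) :
    supI A A' ≤ K ↔ A ≤ K ∧ A' ≤ K := by
  show (supI A A').1 ≤ K.1 ↔ A.1 ≤ K.1 ∧ A'.1 ≤ K.1
  rw [(IF_inf hn hO A A').2.1]
  exact sup_le_iff

/-- the kernel -/
private def tf2G (ς : ℝ) (A A' : Idl O) : ℝ :=
  ((N A : ℝ) ^ n)⁻¹ * ((N A' : ℝ) ^ n)⁻¹ * ∑ K ∈ AI (supI A A'), cs K * (N K : ℝ) ^ (-ς)

private theorem tf2_S2 (hn : 2 ≤ n) (hO : GLL.Ord O) {b : ℕ} (hb : 0 < b) (c : Idl O → ℝ)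
    (ς : ℝ) :
    S2 b c ς = ∑ A ∈ PI O b, ∑ A' ∈ PI O b, c A * c A' * tf2G ς A A' := by
  classical
  have h1 : ∀ K ∈ PI O b, cs K * yK b c K ^ 2 * (N K : ℝ) ^ (-ς) = ∑ A ∈ PI O b, ∑ A' ∈ PI O b,
      (if supI A A' ≤ K then (c A * ((N A : ℝ) ^ n)⁻¹) * (c A' * ((N A' : ℝ) ^ n)⁻¹) *
        (cs K * (N K : ℝ) ^ (-ς)) else 0) := by
    intro K _
    have h2 : yK b c K ^ 2 = ∑ A ∈ PI O b, ∑ A' ∈ PI O b,
        (if supI A A' ≤ K then (c A * ((N A : ℝ) ^ n)⁻¹) * (c A' * ((N A' : ℝ) ^ n)⁻¹) else 0) := by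
      rw [yK, pow_two, Finset.sum_mul_sum]
      refine Finset.sum_congr rfl fun A _ => Finset.sum_congr rfl fun A' _ => ?_
      by_cases hA : A ≤ K
      · by_cases hA' : A' ≤ K
        · rw [if_pos hA, if_pos hA', if_pos ((tf2_sup hn hO A A' K).2 ⟨hA, hA'⟩)]
        · rw [if_neg hA', if_neg fun h => hA' ((tf2_sup hn hO A A' K).1 h).2, mul_zero]
      · rw [if_neg hA, if_neg fun h => hA ((tf2_sup hn hO A A' K).1 h).1, zero_mul]
    rw [h2, Finset.mul_sum, Finset.sum_mul]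
    refine Finset.sum_congr rfl fun A _ => ?_
    rw [Finset.mul_sum, Finset.sum_mul]
    refine Finset.sum_congr rfl fun A' _ => ?_
    by_cases h : supI A A' ≤ K
    · rw [if_pos h, if_pos h]
      ring
    · rw [if_neg h, if_neg h]
      ring
  rw [S2, Finset.sum_congr rfl h1, Finset.sum_comm]
  refine Finset.sum_congr rfl fun A hA => ?_
  rw [Finset.sum_comm]
  refine Finset.sum_congr rfl fun A' _ => ?_
  rw [← Finset.sum_filter, ← Finset.mul_sum]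
  have h3 : (PI O b).filter (fun K => supI A A' ≤ K) = AI (supI A A') := by
    ext K
    rw [Finset.mem_filter, tf2_AI hn hO, tf2_PI hn hO hb]
    constructor
    · exact fun h => h.2
    · intro h
      rw [tf2_PI hn hO hb] at hA
      exact ⟨((tf2_sup hn hO A A' K).1 h).1 hA, h⟩
  rw [h3, tf2G]
  ring

private theorem tf2_main (hn : 2 ≤ n) (hO : GLL.Ord O) {g : ℝ → ℝ} {ε : ℝ} (hg : CutG g ε)
    {A₀ : ℝ} (hA₀ : 0 < A₀) {c : ℝ → ℂ} (hc : Continuous c)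
    (hc1 : Integrable fun t : ℝ => ‖c t‖ * (1 + |t|) ^ 4)
    (hc2 : ∀ y : ℝ, 0 ≤ y → ((g y : ℝ) : ℂ) = ∫ t : ℝ, c t * Complex.exp (-((A₀ + t * I) * y)))
    {T : ℝ} (hT : 1 ≤ T) {X X' : ℕ} (hX : Real.exp T ≤ X) (hX' : X ≤ X') (s : ℝ) :
    ((S2 (O := O) (primorial X) (cT O g T (primorial X)) s : ℝ) : ℂ) =
      ∫ p : ℝ × ℝ, c p.1 * c p.2 * ∑ J ∈ PI O (primorial X'), ∑ K ∈ PI O (primorial X'),
        ((mob O (primorial X') J : ℂ) * (mob O (primorial X') K : ℂ) * (tf2G s J K : ℂ)) *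
          (pw ((A₀ + p.1 * I) / T) (N J) * pw ((A₀ + p.2 * I) / T) (N K)) := by
  have h := tf2_lin (PI O (primorial X'))
    (fun J K => (mob O (primorial X') J : ℂ) * (mob O (primorial X') K : ℂ) * (tf2G s J K : ℂ)) c
    (fun J t => pw ((A₀ + t * I) / T) (N J)) fun J => tf2_int hA₀ hc hc1 hT (N J)
  rw [h, tf2_S2 hn hO (primorial_pos X), tf2_X hn hO hg hT hX hX']
  push_cast
  refine Finset.sum_congr rfl fun J _ => Finset.sum_congr rfl fun K _ => ?_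
  rw [tf2_rep hc2 hT, tf2_rep hc2 hT, cT, cT]
  push_cast
  ring

set_option linter.unusedVariables false in
theorem S2_rep_pr (hn : 2 ≤ n) (hO : GLL.Ord O) {g : ℝ → ℝ} {ε : ℝ} (hg : CutG g ε) {A₀ : ℝ}
    (hA₀ : 0 < A₀) {c : ℝ → ℂ} (hc : Continuous c)
    (hc1 : Integrable fun t : ℝ => ‖c t‖ * (1 + |t|) ^ 4)
    (hc2 : ∀ y : ℝ, 0 ≤ y → ((g y : ℝ) : ℂ) = ∫ t : ℝ, c t * Complex.exp (-((A₀ + t * I) * y)))
    {T : ℝ} (hT : 1 ≤ T) {X X' : ℕ} (hX : Real.exp T ≤ X) (hX' : X ≤ X') {ς : ℝ}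
    (hς : |ς| * T < A₀) :
    (0 ≤ ς → ((S2 (O := O) (primorial X) (cT O g T (primorial X)) ς : ℝ) : ℂ) =
      ∫ p : ℝ × ℝ, c p.1 * c p.2 * T3 O (primorial X') (pw ((A₀ + p.1 * I) / T))
        (pw ((A₀ + p.2 * I) / T)) (pw 0) (hh 0 ς)) ∧
    (ς < 0 → ((S2 (O := O) (primorial X) (cT O g T (primorial X)) ς : ℝ) : ℂ) =
      ∫ p : ℝ × ℝ, c p.1 * c p.2 * T3 O (primorial X') (pw ((A₀ + p.1 * I) / T + ς))
        (pw ((A₀ + p.2 * I) / T + ς)) (pw (-ς)) (hh (-ς) ς)) := by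
  have hN : ∀ I : Idl O, 0 < N I := fun I => (IF_gen hn hO I).2.2.1
  have hN' : ∀ I : Idl O, (0 : ℝ) < N I := fun I => by exact_mod_cast hN I
  have h3 : ∀ J K : Idl O, (N (infI J K) : ℝ) * N (supI J K) = N J * N K := fun J K => by
    exact_mod_cast (IF_inf hn hO J K).2.2
  have h4 : ∀ J K : Idl O, ((N J : ℝ) ^ n)⁻¹ * ((N K : ℝ) ^ n)⁻¹ =
      ((N (infI J K) : ℝ) ^ n)⁻¹ * ((N (supI J K) : ℝ) ^ n)⁻¹ := by
    intro J K
    rw [← mul_inv, ← mul_inv, ← mul_pow, ← mul_pow, h3]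
  constructor
  · intro h0
    rw [tf2_main hn hO hg hA₀ hc hc1 hc2 hT hX hX' ς]
    congr 1
    funext p
    congr 1
    rw [T3]
    refine Finset.sum_congr rfl fun J _ => Finset.sum_congr rfl fun K _ => ?_
    have h1 : hh (O := O) 0 ς (supI J K) = ((N (supI J K) : ℝ) ^ n)⁻¹ *
        ∑ K ∈ AI (supI J K), cs K * (N K : ℝ) ^ (-ς) := by
      rw [hh, add_zero, Real.rpow_neg (hN' _).le, Real.rpow_natCast]
    have h5 : pw 0 (N (infI J K)) = 1 := by simp [pw]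
    rw [h1, h5, tf2G, h4]
    push_cast
    ring
  · intro h0
    rw [tf2_main hn hO hg hA₀ hc hc1 hc2 hT hX hX' ς]
    congr 1
    funext p
    congr 1
    rw [T3]
    refine Finset.sum_congr rfl fun J _ => Finset.sum_congr rfl fun K _ => ?_
    have h1 : hh (O := O) (-ς) ς (supI J K) = ((N (supI J K) : ℝ) ^ n)⁻¹ *
        (N (supI J K) : ℝ) ^ ς * ∑ K ∈ AI (supI J K), cs K * (N K : ℝ) ^ (-ς) := by
      rw [hh, show -((n : ℝ) + -ς) = -(n : ℝ) + ς by ring, Real.rpow_add (hN' _),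
        Real.rpow_neg (hN' _).le, Real.rpow_natCast]
    have h6 : (N J : ℝ) ^ (-ς) * (N K : ℝ) ^ (-ς) * ((N (infI J K) : ℝ) ^ ς *
        (N (supI J K) : ℝ) ^ ς) = 1 := by
      rw [← Real.mul_rpow (hN' J).le (hN' K).le, ← Real.mul_rpow (hN' _).le (hN' _).le, h3,
        ← Real.rpow_add (mul_pos (hN' J) (hN' K)), neg_add_cancel, Real.rpow_zero]
    have h7 : pw (-ς) (N (infI J K)) = (((N (infI J K) : ℝ) ^ ς : ℝ) : ℂ) := by
      have := tf2_pw' (hN (infI J K)) (-ς)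
      rw [neg_neg] at this
      rw [← this]
      push_cast
      rfl
    have h8 : ((((N J : ℝ) ^ (-ς) * (N K : ℝ) ^ (-ς) * ((N (infI J K) : ℝ) ^ ς *
        (N (supI J K) : ℝ) ^ ς) : ℝ)) : ℂ) = 1 := by
      rw [h6]
      simp
    rw [h1, h7, tf2_pw _ (hN J), tf2_pw _ (hN K), tf2G, h4]
    push_cast
    push_cast at h8
    linear_combination (-(mob O (primorial X') J : ℂ) * (mob O (primorial X') K : ℂ) *
      (pw ((A₀ + p.1 * I) / T) (N J) * pw ((A₀ + p.2 * I) / T) (N K)) *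
      ((N (infI J K) : ℂ) ^ n)⁻¹ * ((N (supI J K) : ℂ) ^ n)⁻¹ *
      ∑ K ∈ AI (supI J K), (cs K : ℂ) * (((N K : ℝ) ^ (-ς) : ℝ) : ℂ)) * h8


end

end Pool.Agent.RZH

namespace Pool.Agent.RZH

theorem S2_rep : type_of% @S2_rep_pr := @S2_rep_pr

end Pool.Agent.RZH
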