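import Pool.Agent.Lib_helper32.LAL.SD2
import Pool.Agent.Lib_helper32.LALS.S_SC3
import Pool.Agent.Lib_helper41.RZGF.R_TA2
import Pool.Agent.Lib_helper42.GLM.Defs
import Pool.Agent.Lib_helper75.DZN.Defs
import Pool.Agent.Lib_helper75.DZNF.L3
import Pool.Agent.Lib_helper75.DZNF.L4
import Pool.Agent.Lib_helper75.DZNF.TL
import Pool.Agent.Lib_helper75.RZG.Defs
import Pool.Agent.Lib_helper96.GLF.O_OA3
import Pool.Agent.Lib_helper96.GLF.O_OE
import Pool.Agent.Lib_helper96.GLF.O_OI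
import Pool.Agent.Lib_helper96.GLF.O_OL2
import Pool.Agent.Lib_helper96.GLL.Defs
import Pool.Agent.Lib_helper96.GLL.DefsB

/-!
# Project RZG, block TF3
-/

set_option autoImplicit false

namespace Pool.Agent.RZH

open MeasureTheory Matrix Complex Filter Topology Pool.Agent.GLL Pool.Agent.LAL
open scoped ENNReal ContDiff

noncomputable section

variable {n : ℕ} {O : Subring (Mt n)}

private theorem tf3_lin {ι : Type*} (P : Finset ι) (A : ι → ι → ℂ) (c : ℝ → ℂ) (f : ι → ℝ → ℂ)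
    (hf : ∀ J, Integrable fun t => c t * f J t) :
    ∫ p : ℝ × ℝ, c p.1 * c p.2 * ∑ J ∈ P, ∑ K ∈ P, A J K * (f J p.1 * f K p.2) =
      ∑ J ∈ P, ∑ K ∈ P, A J K * ((∫ t, c t * f J t) * ∫ t, c t * f K t) := by
  have h1 : ∀ J K, Integrable (fun p : ℝ × ℝ => A J K * ((c p.1 * f J p.1) * (c p.2 * f K p.2)))
      volume := by
    intro J K
    have := (hf J).mul_prod (hf K)
    rw [← Measure.volume_eq_prod] at this
    exact this.const_mul _
  have h2 : (fun p : ℝ × ℝ => c p.1 * c p.2 * ∑ J ∈ P, ∑ K ∈ P, A J K * (f J p.1 * f K p.2)) =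
      fun p => ∑ J ∈ P, ∑ K ∈ P, A J K * ((c p.1 * f J p.1) * (c p.2 * f K p.2)) := by
    funext p
    rw [Finset.mul_sum]
    refine Finset.sum_congr rfl fun J _ => ?_
    rw [Finset.mul_sum]
    refine Finset.sum_congr rfl fun K _ => ?_
    ring
  rw [h2, integral_finsetSum _ fun J _ => integrable_finsetSum _ fun K _ => h1 J K]
  refine Finset.sum_congr rfl fun J _ => ?_
  rw [integral_finsetSum _ fun K _ => h1 J K]
  refine Finset.sum_congr rfl fun K _ => ?_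
  rw [integral_const_mul, Measure.volume_eq_prod]
  congr 1
  exact integral_prod_mul (fun t => c t * f J t) (fun t => c t * f K t)

private theorem tf3_rep {g : ℝ → ℝ} {A₀ : ℝ} {c : ℝ → ℂ}
    (hc2 : ∀ y : ℝ, 0 ≤ y → ((g y : ℝ) : ℂ) = ∫ t : ℝ, c t * Complex.exp (-((A₀ + t * I) * y)))
    {T : ℝ} (hT : 1 ≤ T) (m : ℕ) :
    ∫ t : ℝ, c t * pw ((A₀ + t * I) / T) m = ((aT g T m : ℝ) : ℂ) := by
  have h1 : 0 ≤ Real.log m / T := div_nonneg (Real.log_natCast_nonneg m) (by linarith)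
  rw [aT, hc2 _ h1]
  congr 1
  funext t
  rw [pw]
  congr 2
  push_cast
  ring

private theorem tf3_int {A₀ : ℝ} (hA₀ : 0 < A₀) {c : ℝ → ℂ} (hc : Continuous c)
    (hc1 : Integrable fun t : ℝ => ‖c t‖ * (1 + |t|) ^ 4) {T : ℝ} (hT : 1 ≤ T) (m : ℕ) :
    Integrable fun t : ℝ => c t * pw ((A₀ + t * I) / T) m := by
  refine Integrable.mono' hc1 ?_ (ae_of_all _ fun t => ?_)
  · refine (hc.mul ?_).aestronglyMeasurable
    unfold pw
    fun_prop
  · rw [norm_mul]
    refine mul_le_mul_of_nonneg_left ?_ (norm_nonneg _)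
    have h0 : 0 ≤ ((A₀ + t * I) / T : ℂ).re := by
      have : ((A₀ + t * I) / T : ℂ).re = A₀ / T := by
        rw [Complex.div_ofReal_re]
        simp
      rw [this]
      exact div_nonneg hA₀.le (by linarith)
    have h1 := (pw_mu h0).le m
    have h2 : (1 : ℝ) ≤ (1 + |t|) ^ 4 := by
      apply one_le_pow₀
      linarith [abs_nonneg t]
    exact h1.trans h2

private theorem tf3_AI (hn : 2 ≤ n) (hO : GLL.Ord O) (J K : Idl O) : K ∈ AI J ↔ J ≤ K := by
  have h : {K : Idl O | J ≤ K}.Finite := (IF_sup hn hO J).1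
  rw [AI, dif_pos h, Set.Finite.mem_toFinset]
  rfl

private theorem tf3_PI (hn : 2 ≤ n) (hO : GLL.Ord O) {b : ℕ} (hb : 0 < b) (A : Idl O) :
    A ∈ PI O b ↔ (b : Mt n) ∈ A.1 := by
  have h := (IF_mob hn hO b hb).2.2.1
  rw [PI, dif_pos h, Set.Finite.mem_toFinset]
  rfl

private theorem tf3_sup (hn : 2 ≤ n) (hO : GLL.Ord O) (A A' K : Idl O) :
    supI A A' ≤ K ↔ A ≤ K ∧ A' ≤ K := by
  show (supI A A').1 ≤ K.1 ↔ A.1 ≤ K.1 ∧ A'.1 ≤ K.1
  rw [(IF_inf hn hO A A').2.1]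
  exact sup_le_iff

/-- the kernel -/
private def tf3G (ς : ℝ) (A A' : Idl O) : ℝ :=
  ((N A : ℝ) ^ n)⁻¹ * ((N A' : ℝ) ^ n)⁻¹ * ∑ K ∈ AI (supI A A'), cs K * (N K : ℝ) ^ (-ς)

private theorem tf3_S2 (hn : 2 ≤ n) (hO : GLL.Ord O) {b : ℕ} (hb : 0 < b) (c : Idl O → ℝ)
    (ς : ℝ) :
    S2 b c ς = ∑ A ∈ PI O b, ∑ A' ∈ PI O b, c A * c A' * tf3G ς A A' := by
  classical
  have h1 : ∀ K ∈ PI O b, cs K * yK b c K ^ 2 * (N K : ℝ) ^ (-ς) = ∑ A ∈ PI O b, ∑ A' ∈ PI O b,
      (if supI A A' ≤ K then (c A * ((N A : ℝ) ^ n)⁻¹) * (c A' * ((N A' : ℝ) ^ n)⁻¹) *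
        (cs K * (N K : ℝ) ^ (-ς)) else 0) := by
    intro K _
    have h2 : yK b c K ^ 2 = ∑ A ∈ PI O b, ∑ A' ∈ PI O b,
        (if supI A A' ≤ K then (c A * ((N A : ℝ) ^ n)⁻¹) * (c A' * ((N A' : ℝ) ^ n)⁻¹) else 0) := by
      rw [yK, pow_two, Finset.sum_mul_sum]
      refine Finset.sum_congr rfl fun A _ => Finset.sum_congr rfl fun A' _ => ?_
      by_cases hA : A ≤ K
      · by_cases hA' : A' ≤ K
        · rw [if_pos hA, if_pos hA', if_pos ((tf3_sup hn hO A A' K).2 ⟨hA, hA'⟩)]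
        · rw [if_neg hA', if_neg fun h => hA' ((tf3_sup hn hO A A' K).1 h).2, mul_zero]
      · rw [if_neg hA, if_neg fun h => hA ((tf3_sup hn hO A A' K).1 h).1, zero_mul]
    rw [h2, Finset.mul_sum, Finset.sum_mul]
    refine Finset.sum_congr rfl fun A _ => ?_
    rw [Finset.mul_sum, Finset.sum_mul]
    refine Finset.sum_congr rfl fun A' _ => ?_
    by_cases h : supI A A' ≤ K
    · rw [if_pos h, if_pos h]
      ring
    · rw [if_neg h, if_neg h]
      ring
  rw [S2, Finset.sum_congr rfl h1, Finset.sum_comm]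
  refine Finset.sum_congr rfl fun A hA => ?_
  rw [Finset.sum_comm]
  refine Finset.sum_congr rfl fun A' _ => ?_
  rw [← Finset.sum_filter, ← Finset.mul_sum]
  have h3 : (PI O b).filter (fun K => supI A A' ≤ K) = AI (supI A A') := by
    ext K
    rw [Finset.mem_filter, tf3_AI hn hO, tf3_PI hn hO hb]
    constructor
    · exact fun h => h.2
    · intro h
      rw [tf3_PI hn hO hb] at hA
      exact ⟨((tf3_sup hn hO A A' K).1 h).1 hA, h⟩
  rw [h3, tf3G]
  ring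

private theorem tf3_pwm (w : ℂ) {x y : ℕ} (hx : 0 < x) (hy : 0 < y) :
    pw w (x * y) = pw w x * pw w y := by
  have h1 : (x : ℝ) ≠ 0 := by exact_mod_cast hx.ne'
  have h2 : (y : ℝ) ≠ 0 := by exact_mod_cast hy.ne'
  rw [pw, pw, pw, ← Complex.exp_add, Nat.cast_mul, Real.log_mul h1 h2]
  congr 1
  push_cast
  ring

/-- the Möbius function for `b c` at the ideals of norm prime to `c` -/
private theorem tf3_ext (hn : 2 ≤ n) (hO : GLL.Ord O) {b c : ℕ} (hb : 0 < b) (hc : 0 < c)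
    {A : Idl O} (hA : (N A).Coprime c) : mob O (b * c) A = mob O b A ∧
    (A ∈ PI O (b * c) → A ∈ PI O b) := by
  classical
  have hbc : 0 < b * c := Nat.mul_pos hb hc
  constructor
  · have key : ∀ m : ℕ, ∀ g : Idl O, N g = m → m.Coprime c → mob O (b * c) g = mob O b g := by
      intro m
      induction m using Nat.strong_induction_on with
      | _ m ih =>
      intro g hg hm
      have hg0 : 0 < N g := (IF_gen hn hO g).2.2.1
      have h1 := DZL.mob_fin hn hO (b * c) hbc g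
      have h2 := DZL.mob_fin hn hO b hb g
      have h3 : (N g).Coprime (b * c) ↔ (N g).Coprime b := by
        rw [Nat.coprime_mul_iff_right]
        exact ⟨fun h => h.1, fun h => ⟨h, hg ▸ hm⟩⟩
      set S := (IF_sup hn hO g).1.toFinset with hS
      have hgS : g ∈ S := by rw [hS, Set.Finite.mem_toFinset]; exact le_refl g
      rw [← Finset.add_sum_erase S _ hgS] at h1 h2
      have h4 : ∑ x ∈ S.erase g, mob O (b * c) x = ∑ x ∈ S.erase g, mob O b x := by
        refine Finset.sum_congr rfl fun J hJ => ?_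
        rw [Finset.mem_erase, hS, Set.Finite.mem_toFinset] at hJ
        have h5 := IF_dvd hn hO J g hJ.2
        have h6 : N J < N g := by
          refine lt_of_le_of_ne (Nat.le_of_dvd hg0 h5.1) fun h => hJ.1 (h5.2 h)
        exact ih (N J) (hg ▸ h6) J rfl (Nat.Coprime.coprime_dvd_left (hg ▸ h5.1) hm)
      rw [h4] at h1
      have h5 : (if (N g).Coprime (b * c) then (1 : ℤ) else 0) =
          if (N g).Coprime b then 1 else 0 := if_congr h3 rfl rfl
      rw [h5] at h1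
      linarith
    exact key _ A rfl hA
  · rw [tf3_PI hn hO hb, tf3_PI hn hO hbc]
    exact fun h => DZL.la_cop hn hO hc h hA

private theorem tf3_dec (b₀ : ℕ) {X X' : ℕ} (h : X ≤ X') : ∃ c : ℕ, 0 < c ∧
    bX b₀ X' = bX b₀ X * c ∧ ∀ m : ℕ, 0 < m → m ≤ X → m.Coprime c := by
  classical
  set s := (Finset.range (X + 1)).filter (fun p => p.Prime ∧ ¬ p ∣ b₀) with hs
  set s' := (Finset.range (X' + 1)).filter (fun p => p.Prime ∧ ¬ p ∣ b₀) with hs'
  have hss : s ⊆ s' := by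
    refine Finset.filter_subset_filter _ fun x hx => ?_
    rw [Finset.mem_range] at hx ⊢
    omega
  refine ⟨∏ p ∈ s' \ s, p, ?_, ?_, ?_⟩
  · refine Finset.prod_pos fun p hp => ?_
    rw [Finset.mem_sdiff, hs', Finset.mem_filter] at hp
    exact hp.1.2.1.pos
  · rw [mul_comm]
    exact (Finset.prod_sdiff hss).symm
  · intro m hm hmX
    refine Nat.Coprime.prod_right fun p hp => ?_
    rw [Finset.mem_sdiff, hs, hs', Finset.mem_filter, Finset.mem_filter, Finset.mem_range,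
      Finset.mem_range] at hp
    have hpX : X < p := by
      by_contra h1
      exact hp.2 ⟨by omega, hp.1.2⟩
    refine (Nat.Coprime.symm ((Nat.Prime.coprime_iff_not_dvd hp.1.2.1).2 fun h1 => ?_))
    have := Nat.le_of_dvd hm h1
    omega

/-- the coefficients do not depend on the product of primes -/
private theorem tf3_X (hn : 2 ≤ n) (hO : GLL.Ord O) {g : ℝ → ℝ} {ε : ℝ} (hg : CutG g ε)
    {T : ℝ} (hT : 1 ≤ T) (b₀ : ℕ) {X X' : ℕ} (hX : Real.exp T ≤ X) (hX' : X ≤ X')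
    (hpos : ∀ Y, 0 < bX b₀ Y) (I : Idl O) (G : Idl O → Idl O → ℝ) :
    ∑ A ∈ PI O (bX b₀ X), ∑ A' ∈ PI O (bX b₀ X), ((mob O (bX b₀ X) A : ℝ) * aT g T (N I * N A)) *
        ((mob O (bX b₀ X) A' : ℝ) * aT g T (N I * N A')) * G A A' =
      ∑ A ∈ PI O (bX b₀ X'), ∑ A' ∈ PI O (bX b₀ X'),
        ((mob O (bX b₀ X') A : ℝ) * aT g T (N I * N A)) *
        ((mob O (bX b₀ X') A' : ℝ) * aT g T (N I * N A')) * G A A' := by
  have hN : ∀ I : Idl O, 0 < N I := fun I => (IF_gen hn hO I).2.2.1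
  obtain ⟨c, hc, hcX, hcop⟩ := tf3_dec b₀ hX'
  have hz : ∀ A : Idl O, ¬ N A ≤ X → aT g T (N I * N A) = 0 := by
    intro A h
    rw [aT]
    apply hg.zero
    rw [one_le_div (by linarith)]
    have h3 : N A ≤ N I * N A := Nat.le_mul_of_pos_left _ (hN I)
    have h4 : Real.exp T ≤ ((N I * N A : ℕ) : ℝ) := by
      refine hX.trans ?_
      exact_mod_cast (not_le.1 h).le.trans h3
    have h5 := Real.log_le_log (Real.exp_pos T) h4
    rwa [Real.log_exp] at h5
  have h1 : ∀ A : Idl O, (mob O (bX b₀ X) A : ℝ) * aT g T (N I * N A) =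
      (mob O (bX b₀ X') A : ℝ) * aT g T (N I * N A) := by
    intro A
    by_cases h : N A ≤ X
    · rw [hcX, (tf3_ext hn hO (hpos X) hc (hcop _ (hN A) h)).1]
    · rw [hz A h, mul_zero, mul_zero]
  have hsub : PI O (bX b₀ X) ⊆ PI O (bX b₀ X') := by
    intro A hA
    rw [tf3_PI hn hO (hpos X)] at hA
    rw [tf3_PI hn hO (hpos X'), hcX]
    exact DZL.la_mul hA
  have h2 : ∀ A ∈ PI O (bX b₀ X'), A ∉ PI O (bX b₀ X) →
      (mob O (bX b₀ X') A : ℝ) * aT g T (N I * N A) = 0 := by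
    intro A hA hA'
    rw [hz A, mul_zero]
    intro h
    rw [hcX] at hA
    exact hA' ((tf3_ext hn hO (hpos X) hc (hcop _ (hN A) h)).2 hA)
  rw [Finset.sum_subset hsub]
  · refine Finset.sum_congr rfl fun A _ => ?_
    rw [Finset.sum_subset hsub]
    · refine Finset.sum_congr rfl fun A' _ => ?_
      rw [h1 A, h1 A']
    · intro A' h3 h4
      rw [h1 A', h2 A' h3 h4, mul_zero, zero_mul]
  · intro A h3 h4
    apply Finset.sum_eq_zero
    intro A' _
    rw [h1 A, h2 A h3 h4, zero_mul, zero_mul]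

private theorem tf3_Ss (b₀ b₂ : ℕ) (c : Idl O → ℝ) :
    Ss b₀ b₂ c = ∑ I ∈ PI O b₀, S2 b₂ (fun J => c (infI I J)) 0 := by
  rw [Ss]
  refine Finset.sum_congr rfl fun I _ => ?_
  rw [S2]
  refine Finset.sum_congr rfl fun K _ => ?_
  rw [neg_zero, Real.rpow_zero, mul_one]
  rfl

/-- the sums over the primes larger than `P`; `b₀ = primorial P` -/
theorem Ss_rep_pr (hn : 2 ≤ n) (hO : GLL.Ord O) {g : ℝ → ℝ} {ε : ℝ} (hg : CutG g ε) {A₀ : ℝ}
    (hA₀ : 0 < A₀) {c : ℝ → ℂ} (hc : Continuous c)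
    (hc1 : Integrable fun t : ℝ => ‖c t‖ * (1 + |t|) ^ 4)
    (hc2 : ∀ y : ℝ, 0 ≤ y → ((g y : ℝ) : ℂ) = ∫ t : ℝ, c t * Complex.exp (-((A₀ + t * I) * y)))
    {T : ℝ} (hT : 1 ≤ T) {P X X' : ℕ} (hP : P ≤ X) (hX : Real.exp T ≤ X) (hX' : X ≤ X') :
    ((Ss (O := O) (primorial P) (bX (primorial P) X) (cT O g T (primorial X)) : ℝ) : ℂ) =
      ∑ J ∈ PI O (primorial P), ((mob O (primorial P) J : ℂ)) ^ 2 *
      ∫ p : ℝ × ℝ, c p.1 * c p.2 * (pw ((A₀ + p.1 * I) / T) (N J) *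
        pw ((A₀ + p.2 * I) / T) (N J)) * T3 O (bX (primorial P) X') (pw ((A₀ + p.1 * I) / T))
        (pw ((A₀ + p.2 * I) / T)) (pw 0) (hh 0 0) := by
  have hN : ∀ I : Idl O, 0 < N I := fun I => (IF_gen hn hO I).2.2.1
  have hN' : ∀ I : Idl O, (0 : ℝ) < N I := fun I => by exact_mod_cast hN I
  obtain ⟨hb1, hb2, -, -, hb3⟩ := primorial_bX P X hP
  have hpos : ∀ Y, 0 < bX (primorial P) Y := by
    intro Y
    rw [bX]
    apply Finset.prod_pos
    intro p hp
    rw [Finset.mem_filter] at hp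
    exact hp.2.1.pos
  rw [tf3_Ss, Complex.ofReal_sum]
  refine Finset.sum_congr rfl fun J hJ => ?_
  rw [tf3_PI hn hO (primorial_pos P)] at hJ
  have h1 : S2 (bX (primorial P) X) (fun K => cT O g T (primorial X) (infI J K)) 0 =
      (mob O (primorial P) J : ℝ) ^ 2 * ∑ A ∈ PI O (bX (primorial P) X),
        ∑ A' ∈ PI O (bX (primorial P) X),
        ((mob O (bX (primorial P) X) A : ℝ) * aT g T (N J * N A)) *
        ((mob O (bX (primorial P) X) A' : ℝ) * aT g T (N J * N A')) * tf3G 0 A A' := by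
    have h2 : ∀ A ∈ PI O (bX (primorial P) X), cT O g T (primorial X) (infI J A) =
        (mob O (primorial P) J : ℝ) * ((mob O (bX (primorial P) X) A : ℝ) *
          aT g T (N J * N A)) := by
      intro A hA
      rw [tf3_PI hn hO hb3] at hA
      rw [cT, (DZL.crt_mem hn hO (primorial_pos P) hb3 hb2 hJ hA).2.1, hb1,
        DZL.mob_mul hn hO (primorial_pos P) hb3 hb2 hJ hA]
      push_cast
      ring
    rw [tf3_S2 hn hO hb3, Finset.mul_sum]
    refine Finset.sum_congr rfl fun A hA => ?_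
    rw [Finset.mul_sum]
    refine Finset.sum_congr rfl fun A' hA' => ?_
    rw [h2 A hA, h2 A' hA']
    ring
  rw [h1, tf3_X hn hO hg hT (primorial P) hX hX' hpos J]
  have h5 := tf3_lin (PI O (bX (primorial P) X'))
    (fun K L => (mob O (bX (primorial P) X') K : ℂ) * (mob O (bX (primorial P) X') L : ℂ) *
      (tf3G 0 K L : ℂ)) c
    (fun K t => pw ((A₀ + t * I) / T) (N J * N K)) fun K => tf3_int hA₀ hc hc1 hT (N J * N K)
  have h6 : (((mob O (primorial P) J : ℝ) ^ 2 * ∑ A ∈ PI O (bX (primorial P) X'),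
      ∑ A' ∈ PI O (bX (primorial P) X'),
        ((mob O (bX (primorial P) X') A : ℝ) * aT g T (N J * N A)) *
        ((mob O (bX (primorial P) X') A' : ℝ) * aT g T (N J * N A')) * tf3G 0 A A' : ℝ) : ℂ) =
      (mob O (primorial P) J : ℂ) ^ 2 * ∫ p : ℝ × ℝ, c p.1 * c p.2 *
        ∑ K ∈ PI O (bX (primorial P) X'), ∑ L ∈ PI O (bX (primorial P) X'),
        ((mob O (bX (primorial P) X') K : ℂ) * (mob O (bX (primorial P) X') L : ℂ) *
          (tf3G 0 K L : ℂ)) *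
          (pw ((A₀ + p.1 * I) / T) (N J * N K) * pw ((A₀ + p.2 * I) / T) (N J * N L)) := by
    rw [h5]
    push_cast
    congr 1
    refine Finset.sum_congr rfl fun K _ => Finset.sum_congr rfl fun L _ => ?_
    have h7 := tf3_rep (g := g) hc2 hT (N J * N K)
    have h8 := tf3_rep (g := g) hc2 hT (N J * N L)
    rw [h7, h8]
    ring
  rw [h6]
  congr 1
  congr 1
  funext p
  rw [mul_assoc (c p.1 * c p.2)]
  congr 1
  rw [T3, Finset.mul_sum]
  refine Finset.sum_congr rfl fun K _ => ?_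
  rw [Finset.mul_sum]
  refine Finset.sum_congr rfl fun L _ => ?_
  have h3 : (N (infI K L) : ℝ) * N (supI K L) = N K * N L := by
    exact_mod_cast (IF_inf hn hO K L).2.2
  have h4 : ((N K : ℝ) ^ n)⁻¹ * ((N L : ℝ) ^ n)⁻¹ =
      ((N (infI K L) : ℝ) ^ n)⁻¹ * ((N (supI K L) : ℝ) ^ n)⁻¹ := by
    rw [← mul_inv, ← mul_inv, ← mul_pow, ← mul_pow, h3]
  have h9 : hh (O := O) 0 0 (supI K L) = ((N (supI K L) : ℝ) ^ n)⁻¹ *
      ∑ K ∈ AI (supI K L), cs K * (N K : ℝ) ^ (-(0 : ℝ)) := by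
    rw [hh, add_zero, Real.rpow_neg (hN' _).le, Real.rpow_natCast]
  have h10 : pw 0 (N (infI K L)) = 1 := by simp [pw]
  rw [h9, h10, tf3G, h4, tf3_pwm _ (hN J) (hN K), tf3_pwm _ (hN J) (hN L)]
  push_cast
  ring


end

end Pool.Agent.RZH

namespace Pool.Agent.RZH

theorem Ss_rep : type_of% @Ss_rep_pr := @Ss_rep_pr

end Pool.Agent.RZH
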