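import Pool.Agent.Lib_helper41.RZGF.R_D1
import Pool.Agent.Lib_helper41.RZGF.R_TA3
import Pool.Agent.Lib_helper41.RZGF.R_TF4
import Pool.Agent.Lib_helper41.RZGF.R_TG
import Pool.Agent.Lib_helper42.GLM.Defs
import Pool.Agent.Lib_helper75.DZN.Defs
import Pool.Agent.Lib_helper75.RZG.Defs
import Pool.Agent.Lib_helper96.GLF.O_OD
import Pool.Agent.Lib_helper96.GLF.O_OI
import Pool.Agent.Lib_helper96.GLF.T_T6A
import Pool.Agent.Lib_helper96.GLF.T_T6C
import Pool.Agent.Lib_helper96.GLF.T_TK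
import Pool.Agent.Lib_helper96.GLF.X_GLUE_11
import Pool.Agent.Lib_helper96.GLL.Defs
import Pool.Agent.Lib_helper96.GLL.DefsB

/-!
# Project RZG, block D2 (helper45): the sums `Dq`
-/

set_option autoImplicit false

namespace Pool.Agent.RZH

open MeasureTheory Matrix Complex Filter Topology Pool.Agent.GLL Pool.Agent.LAL
open scoped ENNReal ContDiff

noncomputable section

variable {n : ℕ} {O : Subring (Mt n)}

/-! ### The kernel -/

theorem d2_exp_int (σ a b : ℝ) (hσ : σ ≠ 0) :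
    ∫ v in a..b, Real.exp (σ * v) = (Real.exp (σ * b) - Real.exp (σ * a)) / σ := by
  rw [intervalIntegral.integral_comp_mul_left (f := Real.exp) hσ, integral_exp, smul_eq_mul]
  field_simp

theorem d2_exp_le {ξ : ℝ} (h : |ξ| ≤ 1 / 2) (v : ℝ) :
    Real.exp ((1 + ξ) * v) ≤ Real.exp (1 / 2 * v) + Real.exp (3 / 2 * v) := by
  have h1 := abs_le.1 h
  rcases le_total 0 v with hv | hv
  · have : Real.exp ((1 + ξ) * v) ≤ Real.exp (3 / 2 * v) :=
      Real.exp_le_exp.2 (mul_le_mul_of_nonneg_right (by linarith) hv)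
    have := Real.exp_pos (1 / 2 * v)
    linarith
  · have : Real.exp ((1 + ξ) * v) ≤ Real.exp (1 / 2 * v) :=
      Real.exp_le_exp.2 (mul_le_mul_of_nonpos_right (by linarith) hv)
    have := Real.exp_pos (3 / 2 * v)
    linarith

theorem d2_ker {W : ℝ → ℝ} (hW : Continuous W) {A r C : ℝ} (hA : 0 ≤ A) (hC : 0 ≤ C)
    (h0 : ∀ v, A < v → W v = 0) (h1 : ∀ v ≤ 0, |W v - r * Real.exp (-v)| ≤ C)
    (h2 : ∀ v, 0 < v → |W v| ≤ C) {ξ U : ℝ} (hξ : ξ ≠ 0) (hξ' : |ξ| ≤ 1 / 2) :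
    ∃ T : ℝ, |T| ≤ C * (4 * Real.exp (3 / 2 * A)) ∧ ∀ l : ℝ, 0 ≤ l → l ≤ U →
      |(∫ u in (-U)..A, Real.exp ((1 + ξ) * u) * W (u + l)) -
        Real.exp (-((1 + ξ) * l)) * (r * ((1 - Real.exp (-(ξ * (U - l)))) / ξ) + T)| ≤
        Real.exp (-((1 + ξ) * l)) * (C * 2 * Real.exp (-((U - l) / 2))) := by
  have hb := abs_le.1 hξ'
  set G : ℝ → ℝ := fun v => Real.exp ((1 + ξ) * v) with hG
  have hGc : Continuous G := by rw [hG]; fun_prop
  have hGp : ∀ v, 0 < G v := fun v => Real.exp_pos _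
  set E : ℝ → ℝ := fun v => W v - r * Real.exp (-v) with hE
  have hEc : Continuous E := by rw [hE]; fun_prop
  have hGE : ∀ a b : ℝ, IntervalIntegrable (fun v => G v * E v) volume a b :=
    fun a b => (hGc.mul hEc).intervalIntegrable a b
  have hGW : ∀ a b : ℝ, IntervalIntegrable (fun v => G v * W v) volume a b :=
    fun a b => (hGc.mul hW).intervalIntegrable a b
  have hGle : ∀ v ≤ 0, G v ≤ Real.exp (1 / 2 * v) := fun v hv =>
    Real.exp_le_exp.2 (mul_le_mul_of_nonpos_right (by linarith) hv)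
  have hneg : ∀ a b : ℝ, a ≤ b → b ≤ 0 → |∫ v in a..b, G v * E v| ≤ C * 2 * Real.exp (b / 2) := by
    intro a b hab hb0
    have i1 : ‖∫ v in a..b, G v * E v‖ ≤ ∫ v in a..b, C * Real.exp (1 / 2 * v) := by
      refine intervalIntegral.norm_integral_le_of_norm_le hab (Eventually.of_forall fun v hv => ?_)
        (Continuous.intervalIntegrable (by fun_prop) _ _)
      have hv0 : v ≤ 0 := hv.2.trans hb0
      rw [norm_mul, Real.norm_eq_abs, Real.norm_eq_abs, abs_of_pos (hGp v), mul_comm]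
      exact mul_le_mul (h1 v hv0) (hGle v hv0) (hGp v).le hC
    rw [intervalIntegral.integral_const_mul, d2_exp_int _ _ _ (by norm_num)] at i1
    rw [Real.norm_eq_abs] at i1
    refine i1.trans ?_
    have e1 : 1 / 2 * b = b / 2 := by ring
    rw [e1]
    have e2 := Real.exp_pos (1 / 2 * a)
    have e3 : (Real.exp (b / 2) - Real.exp (1 / 2 * a)) / (1 / 2) ≤ 2 * Real.exp (b / 2) := by
      rw [div_le_iff₀ (by norm_num)]
      linarith
    calc C * ((Real.exp (b / 2) - Real.exp (1 / 2 * a)) / (1 / 2)) ≤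
        C * (2 * Real.exp (b / 2)) := mul_le_mul_of_nonneg_left e3 hC
      _ = C * 2 * Real.exp (b / 2) := by ring
  have hpos : |∫ v in (0 : ℝ)..A, G v * W v| ≤ C * (2 * Real.exp (3 / 2 * A)) := by
    have i1 : ‖∫ v in (0 : ℝ)..A, G v * W v‖ ≤ ∫ v in (0 : ℝ)..A, C * Real.exp (3 / 2 * v) := by
      refine intervalIntegral.norm_integral_le_of_norm_le hA (Eventually.of_forall fun v hv => ?_)
        (Continuous.intervalIntegrable (by fun_prop) _ _)
      have hv0 : 0 < v := hv.1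
      rw [norm_mul, Real.norm_eq_abs, Real.norm_eq_abs, abs_of_pos (hGp v), mul_comm]
      exact mul_le_mul (h2 v hv0) (Real.exp_le_exp.2
        (mul_le_mul_of_nonneg_right (by linarith) hv0.le)) (hGp v).le hC
    rw [intervalIntegral.integral_const_mul, d2_exp_int _ _ _ (by norm_num)] at i1
    rw [Real.norm_eq_abs] at i1
    refine i1.trans ?_
    refine mul_le_mul_of_nonneg_left ?_ hC
    rw [div_le_iff₀ (by norm_num)]
    have e2 := Real.exp_pos (3 / 2 * (0 : ℝ))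
    have e3 := Real.exp_pos (3 / 2 * A)
    linarith
  by_cases hU : 0 ≤ U
  swap
  · exact ⟨0, by rw [abs_zero]; positivity, fun l h3 h4 => absurd (h3.trans h4) hU⟩
  refine ⟨(∫ v in (-U)..0, G v * E v) + ∫ v in (0 : ℝ)..A, G v * W v, ?_, fun l hl hlU => ?_⟩
  · have i1 := hneg (-U) 0 (by linarith) le_rfl
    rw [zero_div, Real.exp_zero, mul_one] at i1
    have i2 : (1 : ℝ) ≤ Real.exp (3 / 2 * A) := Real.one_le_exp (by linarith)
    have i3 := mul_le_mul_of_nonneg_left i2 hC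
    calc |(∫ v in (-U)..0, G v * E v) + ∫ v in (0 : ℝ)..A, G v * W v| ≤
        |∫ v in (-U)..0, G v * E v| + |∫ v in (0 : ℝ)..A, G v * W v| := abs_add_le _ _
      _ ≤ C * 2 + C * (2 * Real.exp (3 / 2 * A)) := add_le_add i1 hpos
      _ ≤ C * (4 * Real.exp (3 / 2 * A)) := by linarith
  · have s1 : (∫ u in (-U)..A, Real.exp ((1 + ξ) * u) * W (u + l)) =
        Real.exp (-((1 + ξ) * l)) * ∫ v in (-U + l)..(A + l), G v * W v := by
      rw [← intervalIntegral.integral_comp_add_right (fun v => G v * W v) l,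
        ← intervalIntegral.integral_const_mul]
      refine intervalIntegral.integral_congr fun u _ => ?_
      simp only [hG]
      rw [← mul_assoc, ← Real.exp_add]
      congr 2
      ring
    have s2 : ∫ v in (-U + l)..(A + l), G v * W v = (∫ v in (-U + l)..0, G v * W v) +
        ∫ v in (0 : ℝ)..A, G v * W v := by
      have z : ∫ v in A..(A + l), G v * W v = 0 := by
        refine intervalIntegral.integral_zero_ae (Eventually.of_forall fun v hv => ?_)
        rw [Set.uIoc_of_le (by linarith)] at hv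
        rw [h0 v hv.1, mul_zero]
      rw [← intervalIntegral.integral_add_adjacent_intervals (hGW (-U + l) A) (hGW A (A + l)), z,
        add_zero, intervalIntegral.integral_add_adjacent_intervals (hGW _ _) (hGW _ _)]
    have s3 : ∫ v in (-U + l)..0, G v * W v = r * ((1 - Real.exp (-(ξ * (U - l)))) / ξ) +
        ∫ v in (-U + l)..0, G v * E v := by
      have e : ∀ v, G v * W v = r * Real.exp (ξ * v) + G v * E v := by
        intro v
        simp only [hG, hE]
        have e1 : Real.exp (ξ * v) = Real.exp ((1 + ξ) * v) * Real.exp (-v) := by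
          rw [← Real.exp_add]
          congr 1
          ring
        rw [e1]
        ring
      rw [intervalIntegral.integral_congr (g := fun v => r * Real.exp (ξ * v) + G v * E v)
        (fun v _ => e v), intervalIntegral.integral_add
        (Continuous.intervalIntegrable (by fun_prop) _ _) (hGE _ _),
        intervalIntegral.integral_const_mul, d2_exp_int _ _ _ hξ, mul_zero, Real.exp_zero]
      congr 4
      ring_nf
    have s4 : ∫ v in (-U + l)..0, G v * E v = (∫ v in (-U)..0, G v * E v) -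
        ∫ v in (-U)..(-U + l), G v * E v := by
      rw [← intervalIntegral.integral_add_adjacent_intervals (hGE (-U) (-U + l)) (hGE (-U + l) 0)]
      ring
    have s5 := hneg (-U) (-U + l) (by linarith) (by linarith)
    rw [s1, s2, s3, s4, ← mul_sub, abs_mul, abs_of_pos (Real.exp_pos _)]
    refine mul_le_mul_of_nonneg_left ?_ (Real.exp_pos _).le
    have e3 : r * ((1 - Real.exp (-(ξ * (U - l)))) / ξ) +
        ((∫ v in (-U)..0, G v * E v) - ∫ v in (-U)..(-U + l), G v * E v) +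
        (∫ v in (0 : ℝ)..A, G v * W v) - (r * ((1 - Real.exp (-(ξ * (U - l)))) / ξ) +
        ((∫ v in (-U)..0, G v * E v) + ∫ v in (0 : ℝ)..A, G v * W v)) =
        -∫ v in (-U)..(-U + l), G v * E v := by ring
    rw [e3, abs_neg]
    have e4 : (-U + l) / 2 = -((U - l) / 2) := by ring
    rw [e4] at s5
    exact s5

/-- the left side -/
theorem d2_left {φ : ℝ → ℂ} {A : ℝ} (hφ : TF φ A) {ξ U l : ℝ} (hl : 0 ≤ l) (hU : l + A < U) :
    ∫ u in (-U)..A, Real.exp ((1 + ξ) * u) * ‖φ (u + l)‖ ^ 2 =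
      Real.exp (-((1 + ξ) * l)) * ∫ w : ℝ, ‖φ w‖ ^ 2 * Real.exp ((1 + ξ) * w) := by
  have s1 : (∫ u in (-U)..A, Real.exp ((1 + ξ) * u) * ‖φ (u + l)‖ ^ 2) =
      Real.exp (-((1 + ξ) * l)) *
        ∫ v in (-U + l)..(A + l), ‖φ v‖ ^ 2 * Real.exp ((1 + ξ) * v) := by
    rw [← intervalIntegral.integral_comp_add_right
      (fun v => ‖φ v‖ ^ 2 * Real.exp ((1 + ξ) * v)) l, ← intervalIntegral.integral_const_mul]
    refine intervalIntegral.integral_congr fun u _ => ?_
    have e : Real.exp ((1 + ξ) * u) = Real.exp (-((1 + ξ) * l)) * Real.exp ((1 + ξ) * (u + l)) := by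
      rw [← Real.exp_add]
      congr 1
      ring
    simp only [e]
    ring
  rw [s1, intervalIntegral.integral_eq_integral_of_support_subset]
  intro v hv
  rw [Function.mem_support] at hv
  have h : φ v ≠ 0 := by
    rintro h
    apply hv
    rw [h]
    simp
  have h2 := abs_le.1 (hφ.supp v h)
  exact ⟨by linarith, by linarith⟩


/-! ### Ideals of bounded norm -/

theorem d2_fin (hn : 2 ≤ n) (hO : GLL.Ord O) (x : ℝ) :
    {I : Idl O | Real.log (N I) ≤ x}.Finite := by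
  have h : {I : Idl O | Real.log (N I) ≤ x} ⊆
      ⋃ m ∈ Finset.range (⌊Real.exp x⌋₊ + 1), {I : Idl O | N I = m} := by
    intro I hI
    have hpos : (0 : ℝ) < N I := t6_N_pos hn hO I
    have h1 : (N I : ℝ) ≤ Real.exp x := (Real.log_le_iff_le_exp hpos).1 hI
    have h2 : N I ≤ ⌊Real.exp x⌋₊ := Nat.le_floor h1
    simp only [Set.mem_iUnion, Finset.mem_range]
    exact ⟨N I, by omega, rfl⟩
  exact (Set.Finite.biUnion (Finset.finite_toSet _) fun m _ => IF_fin hn hO m).subset h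

theorem d2_log_nn (hn : 2 ≤ n) (hO : GLL.Ord O) (I : Idl O) : 0 ≤ Real.log (N I) :=
  Real.log_nonneg (t6_N_one hn hO I)

theorem d2_pw (hn : 2 ≤ n) (hO : GLL.Ord O) (I : Idl O) (ξ : ℝ) :
    ((N I : ℝ) ^ (n - 1))⁻¹ * Real.exp (-((1 + ξ) * Real.log (N I))) =
      (N I : ℝ) ^ (-((n : ℝ) + ξ)) ∧
    ((N I : ℝ) ^ n)⁻¹ * Real.exp (-(ξ * Real.log (N I))) = (N I : ℝ) ^ (-((n : ℝ) + ξ)) := by
  have hpos : (0 : ℝ) < N I := t6_N_pos hn hO I
  have e : ∀ m : ℕ, ((N I : ℝ) ^ m)⁻¹ = Real.exp (-(m * Real.log (N I))) := by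
    intro m
    rw [Real.exp_neg, Real.exp_nat_mul, Real.exp_log hpos]
  rw [e, e, Real.rpow_def_of_pos hpos, ← Real.exp_add, ← Real.exp_add]
  constructor
  · congr 1
    have h1 : ((n - 1 : ℕ) : ℝ) = (n : ℝ) - 1 := by
      rw [Nat.cast_sub (by omega)]
      simp
    rw [h1]
    ring
  · congr 1
    ring

theorem d2_inf (hn : 2 ≤ n) (hO : GLL.Ord O) (I J : Idl O) :
    Real.log (N (infI I J)) ≤ Real.log (N I) + Real.log (N J) := by
  have h := (IF_inf hn hO I J).2.2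
  rw [← Real.log_mul (t6_N_pos hn hO I).ne' (t6_N_pos hn hO J).ne']
  refine Real.log_le_log (t6_N_pos hn hO _) ?_
  have h1 : (N (infI I J) : ℝ) * N (supI I J) = (N I : ℝ) * N J := by exact_mod_cast h
  rw [← h1]
  exact le_mul_of_one_le_right (t6_N_pos hn hO _).le (t6_N_one hn hO _)

theorem d2_WA0 (hn : 2 ≤ n) {k : Mt n → ℂ} (hk : Sph2 k) {φ : ℝ → ℂ} {A : ℝ}
    (hφ : TF φ A) (hO : GLL.Ord O) {v : ℝ} (hv : A < v) : WA O (Phi φ k) v = 0 := by
  unfold WA
  rw [t6_W1 hn k hk.toSph φ v]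
  have h : ∀ I : Idl O, t6G n φ (v + Real.log (N I)) = 0 := by
    intro I
    have h1 : φ (v + Real.log (N I)) = 0 := by
      by_contra h
      have h2 := abs_le.1 (hφ.supp _ h)
      have h3 := d2_log_nn hn hO I
      linarith
    unfold t6G
    rw [h1]
    simp
  simp only [h, tsum_zero, mul_zero]

/-! ### The inequality for fixed `L` -/

theorem d2_ineq (hn : 2 ≤ n) (hO : GLL.Ord O) {k : Mt n → ℂ} (hk : Sph2 k) (hk2 : 0 < k2 k)
    {φ : ℝ → ℂ} {A : ℝ} (hA : 0 ≤ A) (hφ : TF φ A) {C κ : ℝ} (hC : 0 ≤ C)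
    (hW : Continuous (WA O (Phi φ k)))
    (hbd : ∀ v : ℝ, |WA O (Phi φ k) v - (open scoped Classical in if v ≤ 0 then
      κ * (k2 k * ∫ w : ℝ, ‖φ w‖ ^ 2 * Real.exp w) * Real.exp (-v) else 0)| ≤ C)
    {b : ℕ} (hb : 0 < b) (c : Idl O → ℝ) {t : ℝ} (ht : ∀ I, c I ≠ 0 → Real.log (N I) ≤ t)
    {ξ U hi : ℝ} (hξ : ξ ≠ 0) (hξ' : |ξ| ≤ 1 / 2) (hU : 2 * t ≤ U) (hhi : hi + A < U)
    (hU0 : 0 ≤ U) :
    k2 k * (∫ w : ℝ, ‖φ w‖ ^ 2 * Real.exp ((1 + ξ) * w)) * Dq b c ξ (-1) hi ≤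
      κ * (k2 k * ∫ w : ℝ, ‖φ w‖ ^ 2 * Real.exp w) / ξ *
        (S1 b c ξ - Real.exp (-(ξ * U)) * S1 b c 0) +
      C * (4 * Real.exp (3 / 2 * A)) * |S1 b c ξ| +
      C * 2 * Real.exp (|ξ| * (2 * t)) * Real.exp (-((U - 2 * t) / 2)) *
        ∑ I ∈ PI O b, ∑ J ∈ PI O b, |c I| * |c J| * ((N (infI I J) : ℝ) ^ n)⁻¹ := by
  classical
  set r : ℝ := κ * (k2 k * ∫ w : ℝ, ‖φ w‖ ^ 2 * Real.exp w) with hr
  set M : ℝ := ∫ w : ℝ, ‖φ w‖ ^ 2 * Real.exp ((1 + ξ) * w) with hM
  set W : ℝ → ℝ := WA O (Phi φ k) with hWdef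
  obtain ⟨T, hT, hker⟩ := d2_ker (ξ := ξ) (U := U) hW hA hC (fun v hv => d2_WA0 hn hk hφ hO hv)
    (fun v hv => by have := hbd v; rwa [if_pos hv] at this)
    (fun v hv => by have := hbd v; rwa [if_neg (not_le.2 hv), sub_zero] at this) hξ hξ'
  have hφc : Continuous φ := hφ.smooth.continuous
  set S : Finset (Idl O) := (d2_fin hn hO hi).toFinset with hS
  have hSm : ∀ I : Idl O, I ∈ S ↔ Real.log (N I) ≤ hi := fun I => by
    rw [hS, Set.Finite.mem_toFinset, Set.mem_ofPred_eq]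
  -- the left side
  have hD : Dq b c ξ (-1) hi ≤ ∑ I ∈ S, ‖bF b c I‖ ^ 2 * (N I : ℝ) ^ (-((n : ℝ) + ξ)) := by
    unfold Dq
    rw [tsum_eq_sum (s := S)]
    · refine Finset.sum_le_sum fun I _ => ?_
      split_ifs
      · exact le_rfl
      · positivity
    · intro I hI
      rw [hSm] at hI
      exact if_neg fun h => hI h.2
  set F : Idl O → ℝ → ℝ := fun I u =>
    ‖bF b c I‖ ^ 2 * ((N I : ℝ) ^ (n - 1))⁻¹ * ‖φ (u + Real.log (N I))‖ ^ 2 with hF
  have hF0 : ∀ I u, 0 ≤ F I u := fun I u => by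
    simp only [hF]
    positivity
  set Rr : ℝ → ℝ := fun u => ∑ I ∈ PI O b, ∑ J ∈ PI O b,
    c I * c J * ((N (infI I J) : ℝ) ^ (n - 1))⁻¹ * W (u + Real.log (N (infI I J))) with hRr
  have hpt : ∀ u : ℝ, k2 k * ∑ I ∈ S, F I u ≤ Rr u := by
    intro u
    have h1 : Summable fun I : Idl O => F I u := by
      refine summable_of_hasFiniteSupport ((d2_fin hn hO (A - u)).subset fun I hI => ?_)
      rw [Function.mem_support] at hI
      have h2 : φ (u + Real.log (N I)) ≠ 0 := by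
        intro h2
        apply hI
        simp [hF, h2]
      have h3 := abs_le.1 (hφ.supp _ h2)
      rw [Set.mem_ofPred_eq]
      linarith
    have h2 := h1.sum_le_tsum S fun I _ => hF0 I u
    have h3 := group_bF hn hO hb c hk hφ u
    simp only [hRr]
    rw [← h3]
    exact mul_le_mul_of_nonneg_left h2 hk2.le
  -- integrate
  have hFc : ∀ I, Continuous (F I) := fun I => by
    simp only [hF]
    fun_prop
  have hRc : Continuous Rr := by
    simp only [hRr]
    refine continuous_finsetSum _ fun I _ => continuous_finsetSum _ fun J _ => ?_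
    exact continuous_const.mul (hW.comp (continuous_id.add continuous_const))
  have hGc : Continuous fun u : ℝ => Real.exp ((1 + ξ) * u) := by fun_prop
  have hint := intervalIntegral.integral_mono_on (μ := volume) (a := -U) (b := A) (by linarith)
    (f := fun u => Real.exp ((1 + ξ) * u) * (k2 k * ∑ I ∈ S, F I u))
    (g := fun u => Real.exp ((1 + ξ) * u) * Rr u)
    ((hGc.mul (continuous_const.mul (continuous_finsetSum _ fun I _ => hFc I))).intervalIntegrable
      _ _) ((hGc.mul hRc).intervalIntegrable _ _)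
    (fun u _ => mul_le_mul_of_nonneg_left (hpt u) (Real.exp_pos _).le)
  have hL : ∫ u in (-U)..A, Real.exp ((1 + ξ) * u) * (k2 k * ∑ I ∈ S, F I u) =
      k2 k * M * ∑ I ∈ S, ‖bF b c I‖ ^ 2 * (N I : ℝ) ^ (-((n : ℝ) + ξ)) := by
    have e1 : ∀ u, Real.exp ((1 + ξ) * u) * (k2 k * ∑ I ∈ S, F I u) =
        ∑ I ∈ S, k2 k * (‖bF b c I‖ ^ 2 * ((N I : ℝ) ^ (n - 1))⁻¹) *
          (Real.exp ((1 + ξ) * u) * ‖φ (u + Real.log (N I))‖ ^ 2) := by
      intro u
      rw [Finset.mul_sum, Finset.mul_sum]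
      refine Finset.sum_congr rfl fun I _ => ?_
      simp only [hF]
      ring
    simp only [e1]
    rw [intervalIntegral.integral_finsetSum fun I _ =>
      Continuous.intervalIntegrable (by fun_prop) _ _, Finset.mul_sum]
    refine Finset.sum_congr rfl fun I hI => ?_
    rw [intervalIntegral.integral_const_mul, d2_left hφ (d2_log_nn hn hO I)
      (by linarith [(hSm I).1 hI]), ← (d2_pw hn hO I ξ).1]
    ring
  have hR : ∫ u in (-U)..A, Real.exp ((1 + ξ) * u) * Rr u =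
      ∑ I ∈ PI O b, ∑ J ∈ PI O b, c I * c J * ((N (infI I J) : ℝ) ^ (n - 1))⁻¹ *
        ∫ u in (-U)..A, Real.exp ((1 + ξ) * u) * W (u + Real.log (N (infI I J))) := by
    have e1 : ∀ u, Real.exp ((1 + ξ) * u) * Rr u = ∑ I ∈ PI O b, ∑ J ∈ PI O b,
        c I * c J * ((N (infI I J) : ℝ) ^ (n - 1))⁻¹ *
          (Real.exp ((1 + ξ) * u) * W (u + Real.log (N (infI I J)))) := by
      intro u
      simp only [hRr]
      rw [Finset.mul_sum]
      refine Finset.sum_congr rfl fun I _ => ?_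
      rw [Finset.mul_sum]
      refine Finset.sum_congr rfl fun J _ => ?_
      ring
    simp only [e1]
    have hci : ∀ I J : Idl O, Continuous fun u : ℝ =>
        c I * c J * ((N (infI I J) : ℝ) ^ (n - 1))⁻¹ *
          (Real.exp ((1 + ξ) * u) * W (u + Real.log (N (infI I J)))) := fun I J =>
      continuous_const.mul (hGc.mul (hW.comp (continuous_id.add continuous_const)))
    rw [intervalIntegral.integral_finsetSum fun I _ =>
      (continuous_finsetSum _ fun J _ => hci I J).intervalIntegrable _ _]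
    refine Finset.sum_congr rfl fun I _ => ?_
    rw [intervalIntegral.integral_finsetSum fun J _ => (hci I J).intervalIntegrable _ _]
    refine Finset.sum_congr rfl fun J _ => ?_
    rw [intervalIntegral.integral_const_mul]
  -- the main term and the error
  set mt : Idl O → Idl O → ℝ := fun I J => c I * c J * ((N (infI I J) : ℝ) ^ (-((n : ℝ) + ξ)) *
    (r * ((1 - Real.exp (-(ξ * (U - Real.log (N (infI I J)))))) / ξ) + T)) with hmt
  have hterm : ∀ I ∈ PI O b, ∀ J ∈ PI O b,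
      c I * c J * ((N (infI I J) : ℝ) ^ (n - 1))⁻¹ *
        (∫ u in (-U)..A, Real.exp ((1 + ξ) * u) * W (u + Real.log (N (infI I J)))) ≤
      mt I J + C * 2 * Real.exp (|ξ| * (2 * t)) * Real.exp (-((U - 2 * t) / 2)) *
        (|c I| * |c J| * ((N (infI I J) : ℝ) ^ n)⁻¹) := by
    intro I _ J _
    by_cases hz : c I = 0 ∨ c J = 0
    · have : c I * c J = 0 := by
        rcases hz with h | h <;> rw [h] <;> ring
      simp only [hmt, this]
      have h0 : 0 ≤ C * 2 * Real.exp (|ξ| * (2 * t)) * Real.exp (-((U - 2 * t) / 2)) *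
        (|c I| * |c J| * ((N (infI I J) : ℝ) ^ n)⁻¹) := by positivity
      linarith
    · push Not at hz
      set l : ℝ := Real.log (N (infI I J)) with hl
      have hl0 : 0 ≤ l := d2_log_nn hn hO _
      have hl1 : l ≤ 2 * t := by
        have := d2_inf hn hO I J
        have h1 := ht I hz.1
        have h2 := ht J hz.2
        linarith
      have h1 := hker l hl0 (hl1.trans hU)
      set Y : ℝ := ∫ u in (-U)..A, Real.exp ((1 + ξ) * u) * W (u + l) with hY
      set X : ℝ := Real.exp (-((1 + ξ) * l)) *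
        (r * ((1 - Real.exp (-(ξ * (U - l)))) / ξ) + T) with hX
      have hw : 0 ≤ ((N (infI I J) : ℝ) ^ (n - 1))⁻¹ := by positivity
      have e1 : mt I J = c I * c J * ((N (infI I J) : ℝ) ^ (n - 1))⁻¹ * X := by
        simp only [hmt, hX, ← (d2_pw hn hO (infI I J) ξ).1]
        ring
      have e2 : c I * c J * ((N (infI I J) : ℝ) ^ (n - 1))⁻¹ * (Y - X) ≤
          |c I| * |c J| * ((N (infI I J) : ℝ) ^ (n - 1))⁻¹ *
            (Real.exp (-((1 + ξ) * l)) * (C * 2 * Real.exp (-((U - l) / 2)))) := by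
        refine (le_abs_self _).trans ?_
        rw [abs_mul, abs_mul, abs_mul, abs_of_nonneg hw]
        exact mul_le_mul_of_nonneg_left h1 (by positivity)
      have e3 : ((N (infI I J) : ℝ) ^ (n - 1))⁻¹ * Real.exp (-((1 + ξ) * l)) =
          ((N (infI I J) : ℝ) ^ n)⁻¹ * Real.exp (-(ξ * l)) := by
        rw [(d2_pw hn hO (infI I J) ξ).1, (d2_pw hn hO (infI I J) ξ).2]
      have e4 : Real.exp (-(ξ * l)) ≤ Real.exp (|ξ| * (2 * t)) := by
        refine Real.exp_le_exp.2 ?_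
        calc -(ξ * l) ≤ |ξ| * l := by
              have := neg_abs_le ξ
              nlinarith
          _ ≤ |ξ| * (2 * t) := mul_le_mul_of_nonneg_left hl1 (abs_nonneg _)
      have e5 : Real.exp (-((U - l) / 2)) ≤ Real.exp (-((U - 2 * t) / 2)) :=
        Real.exp_le_exp.2 (by linarith)
      have e6 : |c I| * |c J| * ((N (infI I J) : ℝ) ^ (n - 1))⁻¹ *
            (Real.exp (-((1 + ξ) * l)) * (C * 2 * Real.exp (-((U - l) / 2)))) ≤
          C * 2 * Real.exp (|ξ| * (2 * t)) * Real.exp (-((U - 2 * t) / 2)) *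
            (|c I| * |c J| * ((N (infI I J) : ℝ) ^ n)⁻¹) := by
        calc |c I| * |c J| * ((N (infI I J) : ℝ) ^ (n - 1))⁻¹ *
            (Real.exp (-((1 + ξ) * l)) * (C * 2 * Real.exp (-((U - l) / 2))))
            = |c I| * |c J| * (((N (infI I J) : ℝ) ^ (n - 1))⁻¹ * Real.exp (-((1 + ξ) * l))) *
              (C * 2 * Real.exp (-((U - l) / 2))) := by ring
          _ = |c I| * |c J| * ((N (infI I J) : ℝ) ^ n)⁻¹ * (C * 2) *
              (Real.exp (-(ξ * l)) * Real.exp (-((U - l) / 2))) := by rw [e3]; ring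
          _ ≤ |c I| * |c J| * ((N (infI I J) : ℝ) ^ n)⁻¹ * (C * 2) *
              (Real.exp (|ξ| * (2 * t)) * Real.exp (-((U - 2 * t) / 2))) := by
              refine mul_le_mul_of_nonneg_left ?_ (by positivity)
              exact mul_le_mul e4 e5 (Real.exp_pos _).le (Real.exp_pos _).le
          _ = _ := by ring
      have e7 : c I * c J * ((N (infI I J) : ℝ) ^ (n - 1))⁻¹ * Y = mt I J +
          c I * c J * ((N (infI I J) : ℝ) ^ (n - 1))⁻¹ * (Y - X) := by
        rw [e1]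
        ring
      rw [e7]
      linarith
  have hsum : ∑ I ∈ PI O b, ∑ J ∈ PI O b, mt I J =
      r / ξ * (S1 b c ξ - Real.exp (-(ξ * U)) * S1 b c 0) + T * S1 b c ξ := by
    unfold S1
    rw [Finset.mul_sum, ← Finset.sum_sub_distrib, Finset.mul_sum, Finset.mul_sum,
      ← Finset.sum_add_distrib]
    refine Finset.sum_congr rfl fun I _ => ?_
    rw [Finset.mul_sum, ← Finset.sum_sub_distrib, Finset.mul_sum, Finset.mul_sum,
      ← Finset.sum_add_distrib]
    refine Finset.sum_congr rfl fun J _ => ?_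
    simp only [hmt]
    set l : ℝ := Real.log (N (infI I J)) with hl
    have e1 : (N (infI I J) : ℝ) ^ (-((n : ℝ) + ξ)) =
        (N (infI I J) : ℝ) ^ (-((n : ℝ) + 0)) * Real.exp (-(ξ * l)) := by
      rw [← (d2_pw hn hO (infI I J) ξ).2, ← (d2_pw hn hO (infI I J) 0).2, zero_mul, neg_zero,
        Real.exp_zero, mul_one]
    have e2 : Real.exp (-(ξ * (U - l))) * Real.exp (-(ξ * l)) = Real.exp (-(ξ * U)) := by
      rw [← Real.exp_add]
      congr 1
      ring
    rw [e1, ← e2]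
    field_simp
  rw [hL, hR] at hint
  have h1 : k2 k * M * Dq b c ξ (-1) hi ≤
      k2 k * M * ∑ I ∈ S, ‖bF b c I‖ ^ 2 * (N I : ℝ) ^ (-((n : ℝ) + ξ)) := by
    refine mul_le_mul_of_nonneg_left hD (mul_nonneg hk2.le ?_)
    exact integral_nonneg fun w => by positivity
  have h2 : ∑ I ∈ PI O b, ∑ J ∈ PI O b, c I * c J * ((N (infI I J) : ℝ) ^ (n - 1))⁻¹ *
        (∫ u in (-U)..A, Real.exp ((1 + ξ) * u) * W (u + Real.log (N (infI I J)))) ≤
      ∑ I ∈ PI O b, ∑ J ∈ PI O b, (mt I J +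
        C * 2 * Real.exp (|ξ| * (2 * t)) * Real.exp (-((U - 2 * t) / 2)) *
        (|c I| * |c J| * ((N (infI I J) : ℝ) ^ n)⁻¹)) :=
    Finset.sum_le_sum fun I hI => Finset.sum_le_sum fun J hJ => hterm I hI J hJ
  have h3 : ∑ I ∈ PI O b, ∑ J ∈ PI O b, (mt I J +
        C * 2 * Real.exp (|ξ| * (2 * t)) * Real.exp (-((U - 2 * t) / 2)) *
        (|c I| * |c J| * ((N (infI I J) : ℝ) ^ n)⁻¹)) =
      r / ξ * (S1 b c ξ - Real.exp (-(ξ * U)) * S1 b c 0) + T * S1 b c ξ +
      C * 2 * Real.exp (|ξ| * (2 * t)) * Real.exp (-((U - 2 * t) / 2)) *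
        ∑ I ∈ PI O b, ∑ J ∈ PI O b, |c I| * |c J| * ((N (infI I J) : ℝ) ^ n)⁻¹ := by
    rw [← hsum, Finset.mul_sum, ← Finset.sum_add_distrib]
    refine Finset.sum_congr rfl fun I _ => ?_
    rw [Finset.mul_sum, ← Finset.sum_add_distrib]
  have h4 : T * S1 b c ξ ≤ C * (4 * Real.exp (3 / 2 * A)) * |S1 b c ξ| := by
    refine (le_abs_self _).trans ?_
    rw [abs_mul]
    exact mul_le_mul_of_nonneg_right hT (abs_nonneg _)
  linarith


/-! ### The theorem -/

theorem d2_TF : ∃ (φ : ℝ → ℂ) (A : ℝ), 0 ≤ A ∧ TF φ A ∧ HasCompactSupport φ ∧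
    ∀ v ∈ Set.Icc (-1 : ℝ) 1, φ v = 1 := by
  obtain ⟨φ, h1, h2, h3⟩ := t6_phi
  obtain ⟨A, hA⟩ := h2.isCompact.isBounded.exists_norm_le
  refine ⟨φ, max A 0, le_max_right _ _, ⟨h1, fun v hv => ?_⟩, h2, h3⟩
  exact (hA v (subset_tsupport _ hv)).trans (le_max_left _ _)

theorem Dq_main_pr (hn : 2 ≤ n) (hO : GLL.Ord O) {g : ℝ → ℝ} {ε : ℝ} (hg : CutG g ε)
    (hε0 : 0 ≤ ε) (hε : ε ≤ 1) {θ : ℝ}
    (hθ : 0 < θ) (hθ1 : θ < 1) (B : ℝ) {x₀ : ℝ} (hx₀ : x₀ ≠ 0) {δ : ℝ} (hδ : 0 < δ) :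
    ∀ᶠ p : ℝ × ℝ in atTop ×ˢ 𝓝 x₀, ∀ F, IsFD O F →
      Dq (O := O) (primorial ⌊Real.exp p.1⌋₊) (cT O g (θ * p.1) (primorial ⌊Real.exp p.1⌋₊))
        (2 * p.2 / p.1) (-1) (2 * p.1 + B) ≤
      vol F / covO O * (p.1 / (2 * p.2)) * (S1 (O := O) (primorial ⌊Real.exp p.1⌋₊)
        (cT O g (θ * p.1) (primorial ⌊Real.exp p.1⌋₊)) (2 * p.2 / p.1) -
        Real.exp (-(4 * p.2)) * S1 (O := O) (primorial ⌊Real.exp p.1⌋₊)
        (cT O g (θ * p.1) (primorial ⌊Real.exp p.1⌋₊)) 0) + δ := by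
  classical
  obtain ⟨k, hk, hk2⟩ := t6_Sph2 hn
  obtain ⟨φ, A, hA, hφ, hφc, hφ1⟩ := d2_TF
  obtain ⟨C, cc, hC, hcc, hWc, hbd⟩ := WA_bd hn hO hk hφ
  obtain ⟨H0, hH0, hF0, hS⟩ := S_lim hn hO
  obtain ⟨-, CQ, hCQ, hQA⟩ := QA_le' hn hO
  set M : ℝ → ℝ := fun σ => ∫ w : ℝ, ‖φ w‖ ^ 2 * Real.exp (σ * w) with hM
  have hMc : Continuous M := t6_Mcont hφ.smooth.continuous hφc
  have hMp : ∀ σ, 0 < M σ := t6_Mpos hφ.smooth.continuous hφc hφ1
  set s1 : ℝ × ℝ → ℝ := fun p => S1 (O := O) (primorial ⌊Real.exp p.1⌋₊)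
    (cT O g (θ * p.1) (primorial ⌊Real.exp p.1⌋₊)) (2 * p.2 / p.1) with hs1
  set s0 : ℝ × ℝ → ℝ := fun p => S1 (O := O) (primorial ⌊Real.exp p.1⌋₊)
    (cT O g (θ * p.1) (primorial ⌊Real.exp p.1⌋₊)) 0 with hs0
  set a : ℝ := H0 * (2 * x₀ + J2 g θ (2 * x₀)) with ha
  set b : ℝ := H0 * (0 + J2 g θ 0) with hb
  set l : Filter (ℝ × ℝ) := atTop ×ˢ 𝓝 x₀ with hl
  have f1 : Tendsto (fun p : ℝ × ℝ => p.1) l atTop := tendsto_fst
  have f2 : Tendsto (fun p : ℝ × ℝ => p.2) l (𝓝 x₀) := tendsto_snd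
  have hpos : ∀ᶠ p : ℝ × ℝ in l, 0 < p.1 := f1.eventually (eventually_gt_atTop 0)
  have t1 : Tendsto (fun p => p.1 * s1 p) l (𝓝 a) := by
    have h := (hS g ε hg hε0 hε θ hθ hθ1 (2 * x₀)).1
    exact h.comp (f1.prodMk (f2.const_mul 2))
  have t0 : Tendsto (fun p => p.1 * s0 p) l (𝓝 b) := by
    have h := (hS g ε hg hε0 hε θ hθ hθ1 0).1
    have h2 := h.comp (f1.prodMk (tendsto_const_nhds (x := (0 : ℝ)) (f := l)))
    refine h2.congr fun p => ?_
    simp only [Function.comp_apply, hs0, zero_div]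
  have hξ0 : Tendsto (fun p : ℝ × ℝ => 2 * p.2 / p.1) l (𝓝 0) := (f2.const_mul 2).div_atTop f1
  have hM1 : Tendsto (fun p : ℝ × ℝ => M (1 + 2 * p.2 / p.1)) l (𝓝 (M 1)) := by
    have h := (hMc.tendsto (1 + 0)).comp (hξ0.const_add 1)
    rwa [add_zero] at h
  set U : ℝ × ℝ → ℝ := fun p => 2 * p.1 + B + A + 1 with hU
  have hξU : Tendsto (fun p : ℝ × ℝ => Real.exp (-(2 * p.2 / p.1 * U p))) l
      (𝓝 (Real.exp (-(4 * x₀)))) := by
    refine (Real.continuous_exp.tendsto _).comp ?_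
    refine Tendsto.neg ?_
    have h1 : Tendsto (fun p : ℝ × ℝ => 4 * p.2 + 2 * p.2 * (B + A + 1) / p.1) l
        (𝓝 (4 * x₀ + 0)) := (f2.const_mul 4).add (((f2.const_mul 2).mul_const _).div_atTop f1)
    rw [add_zero] at h1
    refine h1.congr' ?_
    filter_upwards [hpos] with p hp
    simp only [hU]
    field_simp
    ring
  have hx4 : Tendsto (fun p : ℝ × ℝ => Real.exp (-(4 * p.2))) l (𝓝 (Real.exp (-(4 * x₀)))) :=
    (Real.continuous_exp.tendsto _).comp (f2.const_mul 4).neg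
  have hs1z : Tendsto s1 l (𝓝 0) := by
    have h := t1.div_atTop f1
    refine h.congr' ?_
    filter_upwards [hpos] with p hp
    field_simp
  -- the two error functions
  set Y1 : ℝ × ℝ → ℝ := fun p => 1 / (2 * p.2) * (M 1 / M (1 + 2 * p.2 / p.1) *
    (p.1 * s1 p - Real.exp (-(2 * p.2 / p.1 * U p)) * (p.1 * s0 p)) -
    (p.1 * s1 p - Real.exp (-(4 * p.2)) * (p.1 * s0 p))) with hY1
  have hY1z : Tendsto Y1 l (𝓝 0) := by
    have h : Tendsto Y1 l (𝓝 (1 / (2 * x₀) * (M 1 / M 1 *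
        (a - Real.exp (-(4 * x₀)) * b) - (a - Real.exp (-(4 * x₀)) * b)))) := by
      refine (Tendsto.div tendsto_const_nhds (f2.const_mul 2) (by simpa using hx₀)).mul ?_
      exact ((tendsto_const_nhds.div hM1 (hMp 1).ne').mul (t1.sub (hξU.mul t0))).sub
        (t1.sub (hx4.mul t0))
    have e : 1 / (2 * x₀) * (M 1 / M 1 *
        (a - Real.exp (-(4 * x₀)) * b) - (a - Real.exp (-(4 * x₀)) * b)) = 0 := by
      rw [div_self (hMp 1).ne']
      ring
    rwa [e] at h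
  set er : ℝ × ℝ → ℝ := fun p => C * 2 * Real.exp (4 * θ * |p.2|) *
    (Real.exp (-((B + A + 1) / 2)) * Real.exp (-((1 - θ) * p.1))) * (CQ * p.1 ^ 3) with her
  have herz : Tendsto er l (𝓝 0) := by
    have h1 : Tendsto (fun p : ℝ × ℝ => p.1 ^ 3 * Real.exp (-((1 - θ) * p.1))) l (𝓝 0) := by
      have h2 : Tendsto (fun L : ℝ => L ^ 3 * Real.exp (-((1 - θ) * L))) atTop (𝓝 0) := by
        have h3 := Real.tendsto_pow_mul_exp_neg_atTop_nhds_zero 3
        have h4 : Tendsto (fun L : ℝ => (1 - θ) * L) atTop atTop :=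
          tendsto_id.const_mul_atTop (by linarith)
        have h5 := (h3.comp h4).const_mul (((1 - θ) ^ 3)⁻¹)
        rw [mul_zero] at h5
        refine h5.congr fun L => ?_
        simp only [Function.comp_apply]
        have : (1 - θ) ≠ 0 := by linarith
        field_simp
      exact h2.comp f1
    have h3 : Tendsto (fun p : ℝ × ℝ => C * 2 * Real.exp (4 * θ * |p.2|) *
        Real.exp (-((B + A + 1) / 2)) * CQ * (p.1 ^ 3 * Real.exp (-((1 - θ) * p.1)))) l
        (𝓝 (C * 2 * Real.exp (4 * θ * |x₀|) * Real.exp (-((B + A + 1) / 2)) * CQ * 0)) := by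
      refine Tendsto.mul ?_ h1
      refine (((((Real.continuous_exp.tendsto _).comp ((f2.abs).const_mul (4 * θ))).const_mul
        (C * 2)).mul_const _).mul_const _)
    rw [mul_zero] at h3
    refine h3.congr fun p => ?_
    simp only [her]
    ring
  set Y2 : ℝ × ℝ → ℝ := fun p => (C * (4 * Real.exp (3 / 2 * A)) * |s1 p| + er p) /
    (k2 k * M (1 + 2 * p.2 / p.1)) with hY2
  have hY2z : Tendsto Y2 l (𝓝 0) := by
    have h : Tendsto Y2 l (𝓝 ((C * (4 * Real.exp (3 / 2 * A)) * |(0 : ℝ)| + 0) /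
        (k2 k * M 1))) :=
      ((hs1z.abs.const_mul _).add herz).div (hM1.const_mul _) (mul_pos hk2 (hMp 1)).ne'
    simpa using h
  have hfin : Tendsto (fun p => H0⁻¹ * |Y1 p| + Y2 p) l (𝓝 0) := by
    have h := (hY1z.abs.const_mul H0⁻¹).add hY2z
    simpa using h
  -- the estimate
  have hxne : ∀ᶠ p : ℝ × ℝ in l, p.2 ≠ 0 := f2.eventually_ne hx₀
  have hξs : ∀ᶠ p : ℝ × ℝ in l, |2 * p.2 / p.1| < 1 / 2 := by
    have h := hξ0.abs
    rw [abs_zero] at h
    exact h.eventually (gt_mem_nhds (by norm_num))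
  have hU2 : ∀ᶠ p : ℝ × ℝ in l, -(B + A + 1) / (2 * (1 - θ)) ≤ p.1 :=
    f1.eventually (eventually_ge_atTop _)
  have h3 : ∀ᶠ p : ℝ × ℝ in l, Real.log 3 ≤ p.1 := f1.eventually (eventually_ge_atTop _)
  filter_upwards [hpos, hxne, hξs, hU2, h3, hfin.eventually (gt_mem_nhds hδ)] with p hp hxp hξp
    hU2p h3p hfp F hF
  set L : ℝ := p.1 with hLdef
  set x : ℝ := p.2 with hxdef
  set κ : ℝ := vol F / covO O with hκ
  have hκ0 : 0 ≤ κ := div_nonneg (IF_vol hn hO F hF).le (GLL.T.covO_pos_pr hO).le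
  have hκ1 : κ ≤ H0⁻¹ := by
    have := hF0 F hF
    rw [← one_div, le_div_iff₀ hH0]
    exact this
  have hξne : 2 * x / L ≠ 0 := div_ne_zero (mul_ne_zero two_ne_zero hxp) hp.ne'
  have hU2q : 2 * (θ * L) ≤ U p := by
    rw [div_le_iff₀ (by linarith)] at hU2p
    simp only [hU]
    nlinarith
  have hU0 : 0 ≤ U p := le_trans (by positivity) hU2q
  set Yn : ℕ := ⌊Real.exp L⌋₊ with hYn
  have hY3 : 3 ≤ Yn := by
    refine Nat.le_floor ?_
    have := Real.exp_le_exp.2 h3p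
    rw [Real.exp_log (by norm_num)] at this
    exact_mod_cast this
  have hYL : Real.log Yn ≤ L := by
    have h1 : (0 : ℝ) < Yn := by
      have : 0 < Yn := by omega
      exact_mod_cast this
    rw [Real.log_le_iff_le_exp h1]
    exact Nat.floor_le (Real.exp_pos _).le
  have hYL0 : 0 ≤ Real.log Yn := Real.log_natCast_nonneg _
  have hbp : 0 < primorial Yn := primorial_pos _
  obtain ⟨hCO, -, -, -⟩ := cT_facts hn hO hg (T := θ * L) (by positivity) hbp
  set c : Idl O → ℝ := cT O g (θ * L) (primorial Yn) with hc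
  have hcut : ∀ I, c I ≠ 0 → Real.log (N I) ≤ θ * L := fun I hI =>
    (Real.log_le_iff_le_exp (t6_N_pos hn hO I)).2 (hCO.cut I hI)
  have main := d2_ineq hn hO hk hk2 hA hφ hC (κ := κ) hWc
    (fun v => (hbd F hF v).trans (mul_le_of_le_one_right hC (Real.exp_le_one_iff.2
      (by have := mul_nonneg hcc.le (abs_nonneg v); linarith)))) hbp c hcut (ξ := 2 * x / L)
    (U := U p) (hi := 2 * L + B) hξne hξp.le hU2q (by simp only [hU]; linarith) hU0
  have e1 : ∫ w : ℝ, ‖φ w‖ ^ 2 * Real.exp w = M 1 := by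
    simp only [hM, one_mul]
  have e2 : ∫ w : ℝ, ‖φ w‖ ^ 2 * Real.exp ((1 + 2 * x / L) * w) = M (1 + 2 * x / L) := rfl
  rw [e1, e2] at main
  -- the last term
  have hQ : ∑ I ∈ PI O (primorial Yn), ∑ J ∈ PI O (primorial Yn),
      |c I| * |c J| * ((N (infI I J) : ℝ) ^ n)⁻¹ ≤ CQ * L ^ 3 := by
    have q1 : ∑ I ∈ PI O (primorial Yn), ∑ J ∈ PI O (primorial Yn),
        |c I| * |c J| * ((N (infI I J) : ℝ) ^ n)⁻¹ ≤ DZN.QA O (primorial Yn) := by
      unfold DZN.QA
      refine Finset.sum_le_sum fun I _ => Finset.sum_le_sum fun J _ => ?_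
      exact mul_le_mul_of_nonneg_right (mul_le_mul (hCO.le I) (hCO.le J) (abs_nonneg _)
        (abs_nonneg _)) (by positivity)
    have q2 := (hQA Yn (primorial Yn) hY3 dvd_rfl).2
    refine q1.trans (q2.trans ?_)
    exact mul_le_mul_of_nonneg_left (pow_le_pow_left₀ hYL0 hYL 3) hCQ
  have e3 : |2 * x / L| * (2 * (θ * L)) = 4 * θ * |x| := by
    rw [abs_div, abs_mul, abs_of_pos hp, abs_of_pos (by norm_num : (0 : ℝ) < 2)]
    field_simp
    ring
  have e4 : Real.exp (-((U p - 2 * (θ * L)) / 2)) =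
      Real.exp (-((B + A + 1) / 2)) * Real.exp (-((1 - θ) * L)) := by
    rw [← Real.exp_add]
    congr 1
    simp only [hU]
    ring
  rw [e3, e4] at main
  have her1 : C * 2 * Real.exp (4 * θ * |x|) *
      (Real.exp (-((B + A + 1) / 2)) * Real.exp (-((1 - θ) * L))) *
      ∑ I ∈ PI O (primorial Yn), ∑ J ∈ PI O (primorial Yn),
        |c I| * |c J| * ((N (infI I J) : ℝ) ^ n)⁻¹ ≤ er p := by
    simp only [her]
    exact mul_le_mul_of_nonneg_left hQ (by positivity)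
  set D : ℝ := Dq (primorial Yn) c (2 * x / L) (-1) (2 * L + B) with hD
  have hk2M : 0 < k2 k * M (1 + 2 * x / L) := mul_pos hk2 (hMp _)
  have m1 : D ≤ κ * (M 1 / M (1 + 2 * x / L)) / (2 * x / L) *
      (s1 p - Real.exp (-(2 * x / L * U p)) * s0 p) + Y2 p := by
    have h1 : k2 k * M (1 + 2 * x / L) * D ≤
        κ * (k2 k * M 1) / (2 * x / L) * (s1 p - Real.exp (-(2 * x / L * U p)) * s0 p) +
        (C * (4 * Real.exp (3 / 2 * A)) * |s1 p| + er p) := by
      have : κ * (k2 k * M 1) / (2 * x / L) * (s1 p - Real.exp (-(2 * x / L * U p)) * s0 p) =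
        κ * (k2 k * M 1) / (2 * x / L) * (S1 (primorial Yn) c (2 * x / L) -
          Real.exp (-(2 * x / L * U p)) * S1 (primorial Yn) c 0) := rfl
      have h5 : |s1 p| = |S1 (primorial Yn) c (2 * x / L)| := rfl
      rw [this, h5]
      linarith
    have h2 : D ≤ (κ * (k2 k * M 1) / (2 * x / L) *
        (s1 p - Real.exp (-(2 * x / L * U p)) * s0 p) +
        (C * (4 * Real.exp (3 / 2 * A)) * |s1 p| + er p)) / (k2 k * M (1 + 2 * x / L)) := by
      rw [le_div_iff₀ hk2M]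
      linarith
    refine h2.trans (le_of_eq ?_)
    rw [add_div]
    congr 1
    have := (hMp (1 + 2 * x / L)).ne'
    field_simp
  have m2 : κ * (M 1 / M (1 + 2 * x / L)) / (2 * x / L) *
      (s1 p - Real.exp (-(2 * x / L * U p)) * s0 p) =
      κ * (L / (2 * x)) * (s1 p - Real.exp (-(4 * x)) * s0 p) + κ * Y1 p := by
    simp only [hY1, ← hLdef, ← hxdef]
    have := (hMp (1 + 2 * x / L)).ne'
    field_simp
    ring
  have m3 : κ * Y1 p ≤ H0⁻¹ * |Y1 p| :=
    (mul_le_mul_of_nonneg_left (le_abs_self _) hκ0).trans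
      (mul_le_mul_of_nonneg_right hκ1 (abs_nonneg _))
  calc D ≤ κ * (L / (2 * x)) * (s1 p - Real.exp (-(4 * x)) * s0 p) + κ * Y1 p + Y2 p := by
        rw [← m2]
        exact m1
    _ ≤ κ * (L / (2 * x)) * (s1 p - Real.exp (-(4 * x)) * s0 p) + δ := by linarith


end

end Pool.Agent.RZH

namespace Pool.Agent.RZH

theorem Dq_main : type_of% @Dq_main_pr := @Dq_main_pr

end Pool.Agent.RZH
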