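import Pool.Agent.Lib_helper41.RZGF.R_D1
import Pool.Agent.Lib_helper41.RZGF.R_D2
import Pool.Agent.Lib_helper41.RZGF.R_TA2
import Pool.Agent.Lib_helper41.RZGF.R_TA3
import Pool.Agent.Lib_helper41.RZGF.R_TF4
import Pool.Agent.Lib_helper41.RZGF.R_TG
import Pool.Agent.Lib_helper42.GLM.Defs
import Pool.Agent.Lib_helper75.DZN.Defs
import Pool.Agent.Lib_helper75.DZNF.KI
import Pool.Agent.Lib_helper75.RZG.Defs
import Pool.Agent.Lib_helper96.GLF.M_MGA
import Pool.Agent.Lib_helper96.GLF.O_OA3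
import Pool.Agent.Lib_helper96.GLF.O_OB
import Pool.Agent.Lib_helper96.GLF.O_OD
import Pool.Agent.Lib_helper96.GLF.O_OI
import Pool.Agent.Lib_helper96.GLF.T_T6A
import Pool.Agent.Lib_helper96.GLF.T_TK
import Pool.Agent.Lib_helper96.GLF.X_GLUE_10
import Pool.Agent.Lib_helper96.GLF.X_GLUE_11
import Pool.Agent.Lib_helper96.GLL.Defs
import Pool.Agent.Lib_helper96.GLL.DefsB

/-!
# Project RZG, block D3: bounds for the sums `Dq`
-/

set_option autoImplicit false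

namespace Pool.Agent.RZH

open MeasureTheory Matrix Complex Filter Topology Pool.Agent.GLL Pool.Agent.LAL
open scoped ENNReal ContDiff

noncomputable section

variable {n : ℕ} {O : Subring (Mt n)}

private theorem d3_pos (hn : 2 ≤ n) (hO : GLL.Ord O) (I : Idl O) : 0 < N I :=
  (GLL.IF_gen hn hO I).2.2.1

/-- finitely many ideals of bounded norm -/
private theorem d3_fin (hn : 2 ≤ n) (hO : GLL.Ord O) (hi : ℝ) :
    {I : Idl O | Real.log (N I) ≤ hi}.Finite := by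
  refine ((Finset.range (⌊Real.exp hi⌋₊ + 1)).finite_toSet.biUnion fun m _ =>
    GLL.IF_fin hn hO m).subset fun I hI => ?_
  rw [Set.mem_iUnion₂]
  refine ⟨N I, ?_, rfl⟩
  rw [Finset.mem_coe, Finset.mem_range, Nat.lt_succ_iff]
  refine Nat.le_floor ?_
  have h0 : (0 : ℝ) < N I := by exact_mod_cast d3_pos hn hO I
  have h1 : Real.log (N I) ≤ hi := hI
  calc (N I : ℝ) = Real.exp (Real.log (N I)) := (Real.exp_log h0).symm
    _ ≤ Real.exp hi := Real.exp_le_exp.mpr h1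

open scoped Classical in
private theorem d3_summ (hn : 2 ≤ n) (hO : GLL.Ord O) (b : ℕ) (c : Idl O → ℝ) (ξ lo hi : ℝ) :
    Summable fun I : Idl O => if lo < Real.log (N I) ∧ Real.log (N I) ≤ hi then
      ‖bF b c I‖ ^ 2 * (N I : ℝ) ^ (-((n : ℝ) + ξ)) else 0 := by
  apply summable_of_hasFiniteSupport
  refine (d3_fin hn hO hi).subset fun I hI => ?_
  rw [Function.mem_support] at hI
  by_contra h
  apply hI
  rw [if_neg]
  exact fun h' => h h'.2

private theorem d3_nonneg (b : ℕ) (c : Idl O → ℝ) (ξ lo hi : ℝ) : 0 ≤ Dq b c ξ lo hi := by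
  classical
  unfold Dq
  refine tsum_nonneg fun I => ?_
  split_ifs
  · positivity
  · exact le_rfl

private theorem d3_mono (hn : 2 ≤ n) (hO : GLL.Ord O) {b : ℕ} {c : Idl O → ℝ}
    {ξ ξ' lo hi lo' hi' K : ℝ} (hK : 0 ≤ K)
    (h : ∀ I : Idl O, lo < Real.log (N I) → Real.log (N I) ≤ hi →
      lo' < Real.log (N I) ∧ Real.log (N I) ≤ hi' ∧
      (N I : ℝ) ^ (-((n : ℝ) + ξ)) ≤ K * (N I : ℝ) ^ (-((n : ℝ) + ξ'))) :
    Dq b c ξ lo hi ≤ K * Dq b c ξ' lo' hi' := by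
  classical
  unfold Dq
  rw [← tsum_mul_left]
  refine (d3_summ hn hO b c ξ lo hi).tsum_le_tsum (fun I => ?_)
    ((d3_summ hn hO b c ξ' lo' hi').mul_left K)
  by_cases h1 : lo < Real.log (N I) ∧ Real.log (N I) ≤ hi
  · obtain ⟨h2, h3, h4⟩ := h I h1.1 h1.2
    rw [if_pos h1, if_pos ⟨h2, h3⟩]
    calc ‖bF b c I‖ ^ 2 * (N I : ℝ) ^ (-((n : ℝ) + ξ))
        ≤ ‖bF b c I‖ ^ 2 * (K * (N I : ℝ) ^ (-((n : ℝ) + ξ'))) :=
          mul_le_mul_of_nonneg_left h4 (by positivity)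
      _ = K * (‖bF b c I‖ ^ 2 * (N I : ℝ) ^ (-((n : ℝ) + ξ'))) := by ring
  · rw [if_neg h1]
    refine mul_nonneg hK ?_
    split_ifs
    · positivity
    · exact le_rfl

private theorem d3_rpow (hn : 2 ≤ n) (hO : GLL.Ord O) (I : Idl O) (y : ℝ) :
    (N I : ℝ) ^ y = Real.exp (y * Real.log (N I)) := by
  have h0 : (0 : ℝ) < N I := by exact_mod_cast d3_pos hn hO I
  rw [Real.rpow_def_of_pos h0, mul_comm]

private theorem d3_log (hn : 2 ≤ n) (hO : GLL.Ord O) (I : Idl O) : 0 ≤ Real.log (N I) :=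
  Real.log_nonneg (by exact_mod_cast d3_pos hn hO I)

/-- the bound of `J₂` -/
private theorem d3_J {g : ℝ → ℝ} {ε : ℝ} (hg : CutG g ε) (hε0 : 0 ≤ ε) (hε : ε ≤ 1) {θ : ℝ}
    (hθ : 0 < θ) (hθ1 : θ < 1) : J2 g θ 2 ≤ 8 / θ := by
  have h := (J_facts hg hε0 hε hθ hθ1).2.2.1 2
  have hi : (∫ u in (1 / 2 : ℝ)..1, Real.exp (-(θ * 2 * u))) ≤ 1 / 2 := by
    have h1 : (∫ u in (1 / 2 : ℝ)..1, Real.exp (-(θ * 2 * u))) ≤ ∫ _u in (1 / 2 : ℝ)..1, (1 : ℝ) := by
      refine intervalIntegral.integral_mono_on (by norm_num) ?_ ?_ fun u hu => ?_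
      · exact (Continuous.intervalIntegrable (by fun_prop) _ _)
      · exact (Continuous.intervalIntegrable (by fun_prop) _ _)
      · rw [Real.exp_le_one_iff]
        have : 0 ≤ u := by linarith [hu.1]
        have : 0 ≤ θ * 2 * u := by positivity
        linarith
    rw [intervalIntegral.integral_const, smul_eq_mul] at h1
    linarith
  have h0 : 0 ≤ ∫ u in (1 / 2 : ℝ)..1, Real.exp (-(θ * 2 * u)) :=
    intervalIntegral.integral_nonneg (by norm_num) fun u _ => (Real.exp_pos _).le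
  have h2 : 4 / θ * (∫ u in (1 / 2 : ℝ)..1, Real.exp (-(θ * 2 * u))) ≤ 2 / θ := by
    calc 4 / θ * (∫ u in (1 / 2 : ℝ)..1, Real.exp (-(θ * 2 * u))) ≤ 4 / θ * (1 / 2) :=
          mul_le_mul_of_nonneg_left hi (by positivity)
      _ = 2 / θ := by ring
  have h3 : 0 ≤ 4 / θ * (∫ u in (1 / 2 : ℝ)..1, Real.exp (-(θ * 2 * u))) := by positivity
  have h4 : (1 + ε) ^ 2 ≤ 4 := by nlinarith
  calc J2 g θ 2 ≤ (1 + ε) ^ 2 * (4 / θ * ∫ u in (1 / 2 : ℝ)..1, Real.exp (-(θ * 2 * u))) := h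
    _ ≤ 4 * (2 / θ) := mul_le_mul h4 h2 h3 (by norm_num)
    _ = 8 / θ := by ring

/-- the case `x = 1` -/
private theorem d3_one (hn : 2 ≤ n) (hO : GLL.Ord O) {g : ℝ → ℝ} {ε : ℝ} (hg : CutG g ε)
    (hε0 : 0 ≤ ε) (hε : ε ≤ 1) {θ : ℝ} (hθ : 0 < θ) (hθ1 : θ < 1) (B : ℝ) :
    ∀ᶠ L : ℝ in atTop,
      Dq (O := O) (primorial ⌊Real.exp L⌋₊) (cT O g (θ * L) (primorial ⌊Real.exp L⌋₊))
        (2 / L) (-1) (2 * L + B) ≤ (3 + 8 / θ) / 2 + 1 := by
  obtain ⟨F, hF, -⟩ := GLL.IF_FD hn hO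
  obtain ⟨H₀, hH₀, hHF, hlim⟩ := S_lim hn hO
  have hJ := d3_J hg hε0 hε hθ hθ1
  have hV : 0 < vol F / covO O := div_pos (GLL.IF_vol hn hO F hF) (GLL.T.covO_pos hO)
  have hm := Dq_main hn hO hg hε0 hε hθ hθ1 B (one_ne_zero) (one_pos)
  have ht : Tendsto (fun L : ℝ => (L, (1 : ℝ))) atTop (atTop ×ˢ 𝓝 (1 : ℝ)) :=
    tendsto_id.prodMk tendsto_const_nhds
  have ht2 : Tendsto (fun L : ℝ => (L, (2 : ℝ))) atTop (atTop ×ˢ 𝓝 (2 : ℝ)) :=
    tendsto_id.prodMk tendsto_const_nhds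
  have hm1 := ht.eventually hm
  have hS := (hlim g ε hg hε0 hε θ hθ hθ1 2).1.comp ht2
  have hS1 := hS.eventually (gt_mem_nhds (show H₀ * (2 + J2 g θ 2) < H₀ * (3 + J2 g θ 2) by
    nlinarith))
  filter_upwards [hm1, hS1, eventually_ge_atTop (1 : ℝ)] with L h1 h2 h3
  have h1' := h1 F hF
  simp only [Function.comp] at h2
  simp only [mul_one] at h1'
  have hb : 0 < primorial ⌊Real.exp L⌋₊ := primorial_pos _
  have hz := (S2_zero (O := O) hn hO hb (cT O g (θ * L) (primorial ⌊Real.exp L⌋₊))).2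
  have h4 : L * S1 (O := O) (primorial ⌊Real.exp L⌋₊)
      (cT O g (θ * L) (primorial ⌊Real.exp L⌋₊)) (2 / L) ≤ H₀ * (3 + 8 / θ) := by
    refine h2.le.trans (mul_le_mul_of_nonneg_left ?_ hH₀.le)
    linarith
  set s1 := S1 (O := O) (primorial ⌊Real.exp L⌋₊)
      (cT O g (θ * L) (primorial ⌊Real.exp L⌋₊)) (2 / L) with hs1
  set s0 := S1 (O := O) (primorial ⌊Real.exp L⌋₊)
      (cT O g (θ * L) (primorial ⌊Real.exp L⌋₊)) 0 with hs0
  refine h1'.trans ?_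
  have h5 : vol F / covO O * (L / 2) * (s1 - Real.exp (-4) * s0) ≤
      vol F / covO O * (L / 2) * s1 := by
    refine mul_le_mul_of_nonneg_left ?_ (by positivity)
    have := Real.exp_pos (-4)
    nlinarith [mul_nonneg this.le hz]
  have h6 : vol F / covO O * (L / 2) * s1 ≤ (3 + 8 / θ) / 2 := by
    calc vol F / covO O * (L / 2) * s1 = vol F / covO O * (L * s1) / 2 := by ring
      _ ≤ vol F / covO O * (H₀ * (3 + 8 / θ)) / 2 := by
          have := mul_le_mul_of_nonneg_left h4 hV.le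
          linarith
      _ = (vol F / covO O * H₀) * (3 + 8 / θ) / 2 := by ring
      _ ≤ 1 * (3 + 8 / θ) / 2 := by
          have := mul_le_mul_of_nonneg_right (hHF F hF) (show 0 ≤ 3 + 8 / θ by positivity)
          linarith
      _ = (3 + 8 / θ) / 2 := by ring
  linarith

/-- the constant does not depend on `g`, `L` -/
theorem Dq_bd_pr (hn : 2 ≤ n) (hO : GLL.Ord O) {θ : ℝ} (hθ : 0 < θ) (hθ1 : θ < 1) (R : ℝ) :
    ∃ C : ℝ, 0 ≤ C ∧ ∀ (g : ℝ → ℝ) (ε : ℝ), CutG g ε → 0 ≤ ε → ε ≤ 1 → ∀ B : ℝ, ∃ L₀ : ℝ,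
    ∀ L : ℝ, L₀ ≤ L → ∀ x : ℝ, -R ≤ x →
      Dq (O := O) (primorial ⌊Real.exp L⌋₊) (cT O g (θ * L) (primorial ⌊Real.exp L⌋₊))
        (2 * x / L) (-1) (2 * L + B) ≤ C ∧
      (1 ≤ x → Dq (O := O) (primorial ⌊Real.exp L⌋₊)
        (cT O g (θ * L) (primorial ⌊Real.exp L⌋₊)) (2 * x / L) (θ / 2 * L) (2 * L + B) ≤
          C * Real.exp (-(θ * x))) := by
  set C₁ : ℝ := (3 + 8 / θ) / 2 + 1 with hC₁
  have hC₁0 : 0 ≤ C₁ := by positivity
  set K : ℝ := Real.exp (3 * (2 + 2 * |R|)) with hK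
  refine ⟨(K + Real.exp θ) * C₁, by positivity, fun g ε hg hε0 hε B => ?_⟩
  obtain ⟨L₁, hL₁⟩ := eventually_atTop.1 (d3_one (O := O) hn hO hg hε0 hε hθ hθ1 B)
  refine ⟨max L₁ (max 1 |B|), fun L hL x hx => ?_⟩
  have hLa : L₁ ≤ L := (le_max_left _ _).trans hL
  have hLb : 1 ≤ L := ((le_max_left _ _).trans (le_max_right _ _)).trans hL
  have hLc : |B| ≤ L := ((le_max_right _ _).trans (le_max_right _ _)).trans hL
  have hL0 : 0 < L := by linarith
  have hB : B ≤ L := (le_abs_self B).trans hLc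
  have hRx : -x ≤ |R| := by linarith [le_abs_self R]
  have h1 := hL₁ L hLa
  have hD0 := d3_nonneg (primorial ⌊Real.exp L⌋₊)
    (cT O g (θ * L) (primorial ⌊Real.exp L⌋₊)) (2 / L) (-1) (2 * L + B)
  have hK0 : 0 ≤ K := (Real.exp_pos _).le
  constructor
  · have h2 : Dq (O := O) (primorial ⌊Real.exp L⌋₊) (cT O g (θ * L) (primorial ⌊Real.exp L⌋₊))
        (2 * x / L) (-1) (2 * L + B) ≤ K * Dq (O := O) (primorial ⌊Real.exp L⌋₊)
        (cT O g (θ * L) (primorial ⌊Real.exp L⌋₊)) (2 / L) (-1) (2 * L + B) := by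
      refine d3_mono hn hO hK0 fun I hI1 hI2 => ⟨hI1, hI2, ?_⟩
      have hl := d3_log hn hO I
      rw [d3_rpow hn hO, d3_rpow hn hO, hK, ← Real.exp_add]
      refine Real.exp_le_exp.mpr ?_
      have e1 : -((n : ℝ) + 2 * x / L) * Real.log (N I) =
          -((n : ℝ) + 2 / L) * Real.log (N I) + (2 - 2 * x) * (Real.log (N I) / L) := by
        field_simp
        ring
      rw [e1]
      have hq0 : 0 ≤ Real.log (N I) / L := by positivity
      have hq1 : Real.log (N I) / L ≤ 3 := by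
        rw [div_le_iff₀ hL0]
        linarith
      have h3 : (2 - 2 * x) * (Real.log (N I) / L) ≤ 3 * (2 + 2 * |R|) := by
        calc (2 - 2 * x) * (Real.log (N I) / L) ≤ (2 + 2 * |R|) * (Real.log (N I) / L) :=
              mul_le_mul_of_nonneg_right (by linarith) hq0
          _ ≤ (2 + 2 * |R|) * 3 := mul_le_mul_of_nonneg_left hq1 (by positivity)
          _ = 3 * (2 + 2 * |R|) := by ring
      linarith
    calc _ ≤ _ := h2
      _ ≤ K * C₁ := mul_le_mul_of_nonneg_left h1 hK0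
      _ ≤ (K + Real.exp θ) * C₁ := by
          have := mul_nonneg (Real.exp_pos θ).le hC₁0
          linarith
  · intro hx1
    have h2 : Dq (O := O) (primorial ⌊Real.exp L⌋₊) (cT O g (θ * L) (primorial ⌊Real.exp L⌋₊))
        (2 * x / L) (θ / 2 * L) (2 * L + B) ≤ Real.exp (θ - θ * x) *
        Dq (O := O) (primorial ⌊Real.exp L⌋₊)
        (cT O g (θ * L) (primorial ⌊Real.exp L⌋₊)) (2 / L) (-1) (2 * L + B) := by
      refine d3_mono hn hO (Real.exp_pos _).le fun I hI1 hI2 => ⟨?_, hI2, ?_⟩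
      · have := d3_log hn hO I
        linarith
      have hl := d3_log hn hO I
      rw [d3_rpow hn hO, d3_rpow hn hO, ← Real.exp_add]
      refine Real.exp_le_exp.mpr ?_
      have e1 : -((n : ℝ) + 2 * x / L) * Real.log (N I) =
          -((n : ℝ) + 2 / L) * Real.log (N I) - (2 * x - 2) * (Real.log (N I) / L) := by
        field_simp
        ring
      rw [e1]
      have hq1 : θ / 2 ≤ Real.log (N I) / L := by
        rw [le_div_iff₀ hL0]
        exact hI1.le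
      have h3 : (2 * x - 2) * (θ / 2) ≤ (2 * x - 2) * (Real.log (N I) / L) :=
        mul_le_mul_of_nonneg_left hq1 (by linarith)
      linarith
    calc _ ≤ _ := h2
      _ ≤ Real.exp (θ - θ * x) * C₁ := mul_le_mul_of_nonneg_left h1 (Real.exp_pos _).le
      _ = Real.exp θ * C₁ * Real.exp (-(θ * x)) := by
          rw [sub_eq_add_neg, Real.exp_add]
          ring
      _ ≤ (K + Real.exp θ) * C₁ * Real.exp (-(θ * x)) := by
          refine mul_le_mul_of_nonneg_right ?_ (Real.exp_pos _).le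
          have := mul_nonneg hK0 hC₁0
          linarith

/-- `S1` at `0` is small, for every `ε` -/
private theorem d3_S1 (hn : 2 ≤ n) (hO : GLL.Ord O) {g : ℝ → ℝ} {ε : ℝ} (hg : CutG g ε) {θ : ℝ}
    (hθ : 0 < θ) (hθ1 : θ < 1) : ∃ C L₀ : ℝ, 0 ≤ C ∧ ∀ L : ℝ, L₀ ≤ L →
      S1 (O := O) (primorial ⌊Real.exp L⌋₊) (cT O g (θ * L) (primorial ⌊Real.exp L⌋₊)) 0 ≤
        C / L := by
  classical
  obtain ⟨C, L₀, hC, h⟩ := Ss_le (O := O) hn hO 0 hg hθ hθ1
  refine ⟨C, L₀, hC, fun L hL => ?_⟩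
  have h1 := h L hL
  set X := ⌊Real.exp L⌋₊ with hX
  set c := cT O g (θ * L) (primorial X) with hc
  have hp0 : primorial 0 = 1 := primorial_zero
  have hbX : bX (primorial 0) X = primorial X := by
    rw [hp0]
    exact (primorial_bX 0 X (Nat.zero_le _)).2.2.2.1
  rw [hbX, hp0] at h1
  have hb : 0 < primorial X := primorial_pos _
  rw [← (S2_zero hn hO hb c).1]
  refine le_of_eq_of_le ?_ h1
  obtain ⟨T, hT, hT1, hT2⟩ := GLL.IF_top hn hO
  obtain ⟨T', hT', hT'1⟩ := GLL.PI_one hn hO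
  have hTT : T' = T := hT2 T' hT'1
  rw [Ss, hT', hTT, Finset.sum_singleton, S2]
  refine Finset.sum_congr rfl fun K _ => ?_
  rw [neg_zero, Real.rpow_zero, mul_one]
  congr 2
  rw [yK, yI]
  refine Finset.sum_congr rfl fun J _ => ?_
  have e : infI T J = J := by
    refine Subtype.ext ?_
    rw [(GLL.IF_inf hn hO T J).1, hT]
    exact inf_eq_right.mpr fun x hx => J.2.2.1 x hx
  rw [e]

/-- a bump function -/
private theorem d3_bump (B : ℝ) (hB : 0 < B) : ∃ φ : ℝ → ℂ, TF φ (B + 1) ∧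
    ∀ v, |v| ≤ B → φ v = 1 := by
  let f : ContDiffBump (0 : ℝ) := ⟨B, B + 1, hB, by linarith⟩
  refine ⟨fun v => ((f v : ℝ) : ℂ), ⟨?_, fun v hv => ?_⟩, fun v hv => ?_⟩
  · exact Complex.ofRealCLM.contDiff.comp f.contDiff
  · by_contra h
    push Not at h
    apply hv
    have h1 : f v = 0 := by
      refine f.zero_of_le_dist ?_
      rw [Real.dist_eq, sub_zero]
      exact h.le
    rw [h1]
    rfl
  · have h1 : f v = 1 := by
      refine f.one_of_mem_closedBall ?_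
      rw [Metric.mem_closedBall, Real.dist_eq, sub_zero]
      exact hv
    simp only [h1]
    norm_num

/-- the right hand side of `group_bF` at `u = -2L` -/
private theorem d3_rhs (hn : 2 ≤ n) (hO : GLL.Ord O) {b : ℕ} (hb : 0 < b) {c : Idl O → ℝ}
    {Y L θ : ℝ} (hL : 0 ≤ L) (hθ1 : θ < 1) (hY : Y = Real.exp (θ * L)) (hc : CO O b Y c)
    {W : ℝ → ℝ} {D C c₁ : ℝ} (hC : 0 ≤ C) (hc₁ : 0 < c₁)
    (hW : ∀ v : ℝ, |W v - (open scoped Classical in if v ≤ 0 then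
      D * Real.exp (-v) else 0)| ≤ C * Real.exp (-(c₁ * |v|))) :
    Real.exp (-(2 * L)) * ∑ I ∈ PI O b, ∑ J ∈ PI O b, c I * c J *
        ((N (infI I J) : ℝ) ^ (n - 1))⁻¹ * W (-(2 * L) + Real.log (N (infI I J))) ≤
      D * S1 b c 0 + C * Real.exp (-(2 * (1 - θ) * L)) * DZN.QA O b := by
  classical
  rw [S1, DZN.QA, ← Finset.sum_product', ← Finset.sum_product', ← Finset.sum_product',
    Finset.mul_sum, Finset.mul_sum, Finset.mul_sum, ← Finset.sum_add_distrib]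
  refine Finset.sum_le_sum fun p hp => ?_
  obtain ⟨h1, h2, h3, h4⟩ := DZN.ki_pos hn hO hb hp
  have h1' : (0 : ℝ) < N p.1 := by exact_mod_cast h1
  have h2' : (0 : ℝ) < N p.2 := by exact_mod_cast h2
  have h3' : (0 : ℝ) < N (infI p.1 p.2) := by exact_mod_cast h3
  have h4' : (N (infI p.1 p.2) : ℝ) ≤ N p.1 * N p.2 := by exact_mod_cast h4
  have hrp : (N (infI p.1 p.2) : ℝ) ^ (-((n : ℝ) + 0)) = ((N (infI p.1 p.2) : ℝ) ^ n)⁻¹ := by
    rw [add_zero, Real.rpow_neg h3'.le, Real.rpow_natCast]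
  rw [hrp]
  by_cases h0 : c p.1 = 0 ∨ c p.2 = 0
  · have e1 : c p.1 * c p.2 = 0 := by
      rcases h0 with h | h <;> rw [h] <;> ring
    rw [e1]
    simp only [zero_mul, mul_zero, zero_add]
    positivity
  push Not at h0
  have hN1 := hc.cut _ h0.1
  have hN2 := hc.cut _ h0.2
  set m : ℝ := (N (infI p.1 p.2) : ℝ) with hm
  have hmle : m ≤ Real.exp (2 * θ * L) := by
    calc m ≤ N p.1 * N p.2 := h4'
      _ ≤ Y * Y := mul_le_mul hN1 hN2 h2'.le (h1'.le.trans hN1)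
      _ = Real.exp (2 * θ * L) := by
          rw [hY, ← Real.exp_add]
          congr 1
          ring
  have hlog : Real.log m ≤ 2 * θ * L := by
    rw [← Real.log_exp (2 * θ * L)]
    exact Real.log_le_log h3' hmle
  have hv : -(2 * L) + Real.log m ≤ 0 := by nlinarith
  have hW1 := hW (-(2 * L) + Real.log m)
  rw [if_pos hv] at hW1
  have hexp1 : Real.exp (-(c₁ * |-(2 * L) + Real.log m|)) ≤ 1 := by
    rw [Real.exp_le_one_iff]
    have := mul_nonneg hc₁.le (abs_nonneg (-(2 * L) + Real.log m))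
    linarith
  have hW2 : |W (-(2 * L) + Real.log m) - D * Real.exp (-(-(2 * L) + Real.log m))| ≤ C :=
    hW1.trans (mul_le_of_le_one_right hC hexp1)
  have hn1 : m ^ (n - 1) * m = m ^ n := by
    rw [← pow_succ, Nat.sub_add_cancel (by omega)]
  have hmn : 0 < m ^ n := pow_pos h3' n
  have hmn1 : 0 < m ^ (n - 1) := pow_pos h3' (n - 1)
  have e2 : Real.exp (-(2 * L)) * ((m ^ (n - 1))⁻¹ * Real.exp (-(-(2 * L) + Real.log m))) =
      (m ^ n)⁻¹ := by
    rw [neg_add, neg_neg, Real.exp_add, Real.exp_neg (Real.log m), Real.exp_log h3', ← hn1,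
      Real.exp_neg]
    have := Real.exp_pos (2 * L)
    field_simp
  have e3 : Real.exp (-(2 * L)) * (c p.1 * c p.2 * (m ^ (n - 1))⁻¹ *
      W (-(2 * L) + Real.log m)) = D * (c p.1 * c p.2 * (m ^ n)⁻¹) +
      Real.exp (-(2 * L)) * (c p.1 * c p.2 * (m ^ (n - 1))⁻¹ *
        (W (-(2 * L) + Real.log m) - D * Real.exp (-(-(2 * L) + Real.log m)))) := by
    rw [← e2]
    ring
  rw [e3]
  refine add_le_add le_rfl ?_
  have h5 : c p.1 * c p.2 * (m ^ (n - 1))⁻¹ *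
      (W (-(2 * L) + Real.log m) - D * Real.exp (-(-(2 * L) + Real.log m))) ≤
      |(mob O b p.1 : ℝ)| * |(mob O b p.2 : ℝ)| * (m ^ (n - 1))⁻¹ * C := by
    refine (le_abs_self _).trans ?_
    rw [abs_mul, abs_mul, abs_mul, abs_of_pos (inv_pos.mpr hmn1)]
    refine mul_le_mul (mul_le_mul_of_nonneg_right
      (mul_le_mul (hc.le _) (hc.le _) (abs_nonneg _) (abs_nonneg _)) (inv_pos.mpr hmn1).le)
      hW2 (abs_nonneg _) (by positivity)
  have h6 : Real.exp (-(2 * L)) * (m ^ (n - 1))⁻¹ ≤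
      Real.exp (-(2 * (1 - θ) * L)) * (m ^ n)⁻¹ := by
    have e4 : (m ^ (n - 1))⁻¹ = m * (m ^ n)⁻¹ := by
      rw [← hn1]
      field_simp
    have e5 : Real.exp (-(2 * (1 - θ) * L)) = Real.exp (-(2 * L)) * Real.exp (2 * θ * L) := by
      rw [← Real.exp_add]
      congr 1
      ring
    rw [e4, e5, mul_assoc]
    refine mul_le_mul_of_nonneg_left ?_ (Real.exp_pos _).le
    exact mul_le_mul_of_nonneg_right hmle (inv_pos.mpr hmn).le
  calc Real.exp (-(2 * L)) * (c p.1 * c p.2 * (m ^ (n - 1))⁻¹ *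
        (W (-(2 * L) + Real.log m) - D * Real.exp (-(-(2 * L) + Real.log m))))
      ≤ Real.exp (-(2 * L)) * (|(mob O b p.1 : ℝ)| * |(mob O b p.2 : ℝ)| *
        (m ^ (n - 1))⁻¹ * C) := mul_le_mul_of_nonneg_left h5 (Real.exp_pos _).le
    _ = (Real.exp (-(2 * L)) * (m ^ (n - 1))⁻¹) *
        (|(mob O b p.1 : ℝ)| * |(mob O b p.2 : ℝ)| * C) := by ring
    _ ≤ (Real.exp (-(2 * (1 - θ) * L)) * (m ^ n)⁻¹) *
        (|(mob O b p.1 : ℝ)| * |(mob O b p.2 : ℝ)| * C) :=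
        mul_le_mul_of_nonneg_right h6 (by positivity)
    _ = C * Real.exp (-(2 * (1 - θ) * L)) * (|(mob O b p.1 : ℝ)| * |(mob O b p.2 : ℝ)| *
        (m ^ n)⁻¹) := by ring

open scoped Classical in
private theorem d3_win (hn : 2 ≤ n) (hO : GLL.Ord O) (b : ℕ) (c : Idl O → ℝ) {φ : ℝ → ℂ}
    {A B L R x : ℝ} (hφ : TF φ A) (hφ1 : ∀ v, |v| ≤ |B| → φ v = 1) (hL : 1 ≤ L) (hLB : |B| ≤ L)
    (hx : -R ≤ x) :
    Dq b c (2 * x / L) (2 * L - B) (2 * L + B) ≤ Real.exp (|B| + 6 * |R|) *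
      (Real.exp (-(2 * L)) * ∑' I : Idl O, ‖bF b c I‖ ^ 2 * ((N I : ℝ) ^ (n - 1))⁻¹ *
        ‖φ (-(2 * L) + Real.log (N I))‖ ^ 2) := by
  have hL0 : 0 < L := by linarith
  have hs : Summable fun I : Idl O => ‖bF b c I‖ ^ 2 * ((N I : ℝ) ^ (n - 1))⁻¹ *
        ‖φ (-(2 * L) + Real.log (N I))‖ ^ 2 := by
    apply summable_of_hasFiniteSupport
    refine (d3_fin hn hO (A + 2 * L)).subset fun I hI => ?_
    rw [Function.mem_support] at hI
    have h1 : φ (-(2 * L) + Real.log (N I)) ≠ 0 := by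
      intro h
      apply hI
      rw [h]
      simp
    have h2 := hφ.supp _ h1
    have h3 := le_abs_self (-(2 * L) + Real.log (N I))
    show Real.log (N I) ≤ A + 2 * L
    linarith
  unfold Dq
  rw [← tsum_mul_left, ← tsum_mul_left]
  refine (d3_summ hn hO b c _ _ _).tsum_le_tsum (fun I => ?_) ((hs.mul_left _).mul_left _)
  by_cases h1 : 2 * L - B < Real.log (N I) ∧ Real.log (N I) ≤ 2 * L + B
  · rw [if_pos h1]
    have hB1 := le_abs_self B
    have hB2 := neg_abs_le B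
    have ht := d3_log hn hO I
    have hN0 : (0 : ℝ) < N I := by exact_mod_cast d3_pos hn hO I
    have hφv : φ (-(2 * L) + Real.log (N I)) = 1 := by
      refine hφ1 _ ?_
      rw [abs_le]
      constructor <;> linarith [h1.1, h1.2]
    rw [hφv, norm_one, one_pow, mul_one]
    have e1 : ((N I : ℝ) ^ (n - 1))⁻¹ = Real.exp (-(((n : ℝ) - 1) * Real.log (N I))) := by
      rw [Real.exp_neg, mul_comm, ← Real.rpow_def_of_pos hN0, ← Real.rpow_natCast]
      congr 2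
      rw [Nat.cast_sub (by omega)]
      norm_num
    have h2 : (N I : ℝ) ^ (-((n : ℝ) + 2 * x / L)) ≤ Real.exp (|B| + 6 * |R|) *
        (Real.exp (-(2 * L)) * ((N I : ℝ) ^ (n - 1))⁻¹) := by
      rw [d3_rpow hn hO, e1, ← Real.exp_add, ← Real.exp_add]
      refine Real.exp_le_exp.mpr ?_
      have e2 : -((n : ℝ) + 2 * x / L) * Real.log (N I) =
          -(((n : ℝ) - 1) * Real.log (N I)) - Real.log (N I) +
            2 * (-x) * (Real.log (N I) / L) := by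
        field_simp
        ring
      rw [e2]
      have hq0 : 0 ≤ Real.log (N I) / L := by positivity
      have hq1 : Real.log (N I) / L ≤ 3 := by
        rw [div_le_iff₀ hL0]
        linarith [h1.2]
      have hRx : -x ≤ |R| := by linarith [le_abs_self R]
      have h3 : 2 * (-x) * (Real.log (N I) / L) ≤ 6 * |R| := by
        calc 2 * (-x) * (Real.log (N I) / L) ≤ 2 * |R| * (Real.log (N I) / L) :=
              mul_le_mul_of_nonneg_right (by linarith) hq0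
          _ ≤ 2 * |R| * 3 := mul_le_mul_of_nonneg_left hq1 (by positivity)
          _ = 6 * |R| := by ring
      linarith [h1.1]
    calc ‖bF b c I‖ ^ 2 * (N I : ℝ) ^ (-((n : ℝ) + 2 * x / L))
        ≤ ‖bF b c I‖ ^ 2 * (Real.exp (|B| + 6 * |R|) *
          (Real.exp (-(2 * L)) * ((N I : ℝ) ^ (n - 1))⁻¹)) :=
          mul_le_mul_of_nonneg_left h2 (by positivity)
      _ = Real.exp (|B| + 6 * |R|) * (Real.exp (-(2 * L)) *
          (‖bF b c I‖ ^ 2 * ((N I : ℝ) ^ (n - 1))⁻¹)) := by ring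
  · rw [if_neg h1]
    positivity

/-- windows of bounded length near `2L` are small -/
theorem Dq_edge_pr (hn : 2 ≤ n) (hO : GLL.Ord O) {g : ℝ → ℝ} {ε : ℝ} (hg : CutG g ε)
    (hε0 : 0 ≤ ε) (hε : ε ≤ 1) {θ : ℝ}
    (hθ : 0 < θ) (hθ1 : θ < 1) (R B : ℝ) {δ : ℝ} (hδ : 0 < δ) : ∃ L₀ : ℝ,
    ∀ L : ℝ, L₀ ≤ L → ∀ x : ℝ, -R ≤ x →
      Dq (O := O) (primorial ⌊Real.exp L⌋₊) (cT O g (θ * L) (primorial ⌊Real.exp L⌋₊))
        (2 * x / L) (2 * L - B) (2 * L + B) ≤ δ := by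
  obtain ⟨φ, hφ, hφ1⟩ := d3_bump (|B| + 1) (by positivity)
  obtain ⟨k, hk, hk0⟩ := GLL.t6_Sph2 hn
  obtain ⟨F, hF, -⟩ := GLL.IF_FD hn hO
  obtain ⟨CW, c₁, hCW, hc₁, -, hW⟩ := WA_bd hn hO hk hφ
  have hW' := hW F hF
  obtain ⟨CS, LS, hCS, hS⟩ := d3_S1 (O := O) hn hO hg hθ hθ1
  obtain ⟨-, CQ, hCQ, hQ⟩ := QA_le' (O := O) hn hO
  have hV : 0 < vol F / covO O := div_pos (GLL.IF_vol hn hO F hF) (GLL.T.covO_pos hO)
  set D : ℝ := vol F / covO O * (k2 k * ∫ w : ℝ, ‖φ w‖ ^ 2 * Real.exp w) with hD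
  have hD0 : 0 ≤ D := by
    refine mul_nonneg hV.le (mul_nonneg hk0.le (integral_nonneg fun w => ?_))
    positivity
  set a : ℝ := 2 * (1 - θ) with ha
  have ha0 : 0 < a := by rw [ha]; linarith
  set M : ℝ := Real.exp (|B| + 6 * |R|) / k2 k with hM
  have hM0 : 0 < M := by positivity
  have hlim : Tendsto (fun L : ℝ => M * (D * (CS / L) + CW * CQ / a ^ 3 *
      ((a * L) ^ 3 * Real.exp (-(a * L))))) atTop (𝓝 (M * (D * 0 + CW * CQ / a ^ 3 * 0))) := by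
    refine (Tendsto.add ?_ ?_).const_mul M
    · exact (tendsto_const_nhds.div_atTop tendsto_id).const_mul D
    · refine Tendsto.const_mul _ ?_
      exact (Real.tendsto_pow_mul_exp_neg_atTop_nhds_zero 3).comp
        (tendsto_id.const_mul_atTop ha0)
  have hev := hlim.eventually (gt_mem_nhds (show M * (D * 0 + CW * CQ / a ^ 3 * 0) < δ by
    simpa using hδ))
  obtain ⟨L₁, hL₁⟩ := eventually_atTop.1 hev
  refine ⟨max (max L₁ LS) (max 2 |B|), fun L hL x hx => ?_⟩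
  have hLa : L₁ ≤ L := ((le_max_left _ _).trans (le_max_left _ _)).trans hL
  have hLb : LS ≤ L := ((le_max_right _ _).trans (le_max_left _ _)).trans hL
  have hLc : 2 ≤ L := ((le_max_left _ _).trans (le_max_right _ _)).trans hL
  have hLd : |B| ≤ L := ((le_max_right _ _).trans (le_max_right _ _)).trans hL
  have hL0 : 0 < L := by linarith
  have hb : 0 < primorial ⌊Real.exp L⌋₊ := primorial_pos _
  have hCO := (cT_facts (O := O) hn hO hg (mul_pos hθ hL0) hb).1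
  have h1 := d3_win hn hO (primorial ⌊Real.exp L⌋₊)
    (cT O g (θ * L) (primorial ⌊Real.exp L⌋₊)) hφ
    (fun v hv => hφ1 v (by linarith)) (by linarith) hLd hx
  have h2 := group_bF hn hO hb (cT O g (θ * L) (primorial ⌊Real.exp L⌋₊)) hk hφ (-(2 * L))
  have h3 := d3_rhs hn hO hb hL0.le hθ1 rfl hCO hCW hc₁ hW'
  rw [← h2] at h3
  have h4 := hS L hLb
  have h3' : 3 ≤ ⌊Real.exp L⌋₊ := by
    refine Nat.le_floor ?_
    have := Real.add_one_le_exp L
    push_cast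
    linarith
  have h5 := hQ ⌊Real.exp L⌋₊ (primorial ⌊Real.exp L⌋₊) h3' dvd_rfl
  have h6 : Real.log (⌊Real.exp L⌋₊ : ℝ) ≤ L := by
    have h7 : (0 : ℝ) < (⌊Real.exp L⌋₊ : ℝ) := by
      have : 0 < ⌊Real.exp L⌋₊ := by omega
      exact_mod_cast this
    calc Real.log (⌊Real.exp L⌋₊ : ℝ) ≤ Real.log (Real.exp L) :=
          Real.log_le_log h7 (Nat.floor_le (Real.exp_pos _).le)
      _ = L := Real.log_exp L
  have h7 : 0 ≤ Real.log (⌊Real.exp L⌋₊ : ℝ) := Real.log_natCast_nonneg _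
  have h8 : DZN.QA O (primorial ⌊Real.exp L⌋₊) ≤ CQ * L ^ 3 :=
    h5.2.trans (mul_le_mul_of_nonneg_left (pow_le_pow_left₀ h7 h6 3) hCQ)
  set S : ℝ := ∑' I : Idl O, ‖bF (primorial ⌊Real.exp L⌋₊)
    (cT O g (θ * L) (primorial ⌊Real.exp L⌋₊)) I‖ ^ 2 * ((N I : ℝ) ^ (n - 1))⁻¹ *
        ‖φ (-(2 * L) + Real.log (N I))‖ ^ 2 with hSdef
  set s0 := S1 (O := O) (primorial ⌊Real.exp L⌋₊)
      (cT O g (θ * L) (primorial ⌊Real.exp L⌋₊)) 0 with hs0
  refine h1.trans (le_trans ?_ (hL₁ L hLa).le)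
  have h9 : Real.exp (-(2 * L)) * (k2 k * S) ≤ D * (CS / L) +
      CW * Real.exp (-(a * L)) * (CQ * L ^ 3) := by
    refine h3.trans (add_le_add (mul_le_mul_of_nonneg_left h4 hD0) ?_)
    exact mul_le_mul_of_nonneg_left h8 (by positivity)
  calc Real.exp (|B| + 6 * |R|) * (Real.exp (-(2 * L)) * S)
      = M * (Real.exp (-(2 * L)) * (k2 k * S)) := by
        rw [hM]
        field_simp
    _ ≤ M * (D * (CS / L) + CW * Real.exp (-(a * L)) * (CQ * L ^ 3)) :=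
        mul_le_mul_of_nonneg_left h9 hM0.le
    _ = M * (D * (CS / L) + CW * CQ / a ^ 3 * ((a * L) ^ 3 * Real.exp (-(a * L)))) := by
        field_simp



end

end Pool.Agent.RZH

namespace Pool.Agent.RZH

theorem Dq_bd : type_of% @Dq_bd_pr := @Dq_bd_pr

theorem Dq_edge : type_of% @Dq_edge_pr := @Dq_edge_pr

end Pool.Agent.RZH
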