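import Pool.Agent.Lib_helper75.RZG.Defs

/-!
# RZG block X2b (helper72): `ph φ κ s` is a test function
-/

set_option autoImplicit false

namespace Pool.Agent.RZH

open MeasureTheory Matrix Complex Filter Topology Pool.Agent.GLL Pool.Agent.LAL
open scoped ENNReal ContDiff

noncomputable section

/-- the kernel of the convolution -/
private def x2b_f (κ : ℝ → ℝ) (s : ℂ) (t : ℝ) : ℂ :=
  (κ (-t) : ℂ) * Complex.exp (s * ((-t : ℝ) : ℂ))

private theorem x2b_supp {L A₁ : ℝ} {κ : ℝ → ℝ} (hκ : CF L A₁ κ) (s : ℂ) :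
    HasCompactSupport (x2b_f κ s) := by
  refine HasCompactSupport.of_support_subset_isCompact
    (isCompact_Icc (a := -A₁) (b := 2 * L)) fun t ht => ?_
  have h1 : κ (-t) ≠ 0 := by
    intro h0
    apply ht
    simp [x2b_f, h0]
  have h2 := hκ.supp _ h1
  exact ⟨by linarith [h2.2], by linarith [h2.1]⟩

private theorem x2b_meas {L A₁ : ℝ} {κ : ℝ → ℝ} (hκ : CF L A₁ κ) (s : ℂ) :
    Measurable (x2b_f κ s) := by
  unfold x2b_f
  have h1 : Measurable fun t : ℝ => ((κ (-t) : ℝ) : ℂ) :=
    Complex.measurable_ofReal.comp (hκ.meas.comp measurable_neg)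
  have h2 : Measurable fun t : ℝ => Complex.exp (s * ((-t : ℝ) : ℂ)) := by
    apply Continuous.measurable
    fun_prop
  exact h1.mul h2

private theorem x2b_int {L A₁ : ℝ} {κ : ℝ → ℝ} (hκ : CF L A₁ κ) (s : ℂ) :
    Integrable (x2b_f κ s) := by
  have hint : Integrable ((Set.Icc (-A₁) (2 * L)).indicator
      (fun t : ℝ => Real.exp (|s.re| * |t|))) := by
    rw [integrable_indicator_iff measurableSet_Icc]
    exact (Continuous.continuousOn (by fun_prop)).integrableOn_Icc
  refine hint.mono' (x2b_meas hκ s).aestronglyMeasurable (ae_of_all _ fun t => ?_)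
  by_cases ht : κ (-t) = 0
  · simp only [x2b_f, ht]
    simp only [Complex.ofReal_zero, zero_mul, norm_zero]
    apply Set.indicator_nonneg
    intro x _
    positivity
  · have h2 := hκ.supp _ ht
    have hmem : t ∈ Set.Icc (-A₁) (2 * L) := ⟨by linarith [h2.2], by linarith [h2.1]⟩
    rw [Set.indicator_of_mem hmem]
    unfold x2b_f
    rw [norm_mul, Complex.norm_real, Complex.norm_exp]
    have h3 : (s * ((-t : ℝ) : ℂ)).re = s.re * (-t) := by
      simp
    rw [h3]
    calc ‖κ (-t)‖ * Real.exp (s.re * -t) ≤ 1 * Real.exp (|s.re| * |t|) := by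
          apply mul_le_mul (hκ.le _) _ (by positivity) zero_le_one
          apply Real.exp_le_exp.2
          calc s.re * -t ≤ |s.re * -t| := le_abs_self _
            _ = |s.re| * |t| := by rw [abs_mul, abs_neg]
      _ = Real.exp (|s.re| * |t|) := one_mul _

private theorem x2b_phi {φ : ℝ → ℂ} {A : ℝ} (hφ : TF φ A) : HasCompactSupport φ := by
  refine HasCompactSupport.of_support_subset_isCompact
    (isCompact_Icc (a := -A) (b := A)) fun t ht => ?_
  exact abs_le.1 (hφ.supp t ht)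

private theorem x2b_eq (φ : ℝ → ℂ) (κ : ℝ → ℝ) (s : ℂ) :
    ph φ κ s = convolution (x2b_f κ s) φ (ContinuousLinearMap.mul ℝ ℂ) volume := by
  funext v
  rw [convolution_def]
  unfold ph
  rw [← integral_neg_eq_self]
  refine integral_congr_ae (ae_of_all _ fun t => ?_)
  simp only [ContinuousLinearMap.mul_apply', x2b_f]
  congr 2
  ring

theorem ph_TF_pr {φ : ℝ → ℂ} {A : ℝ} (hφ : TF φ A) {L A₁ : ℝ} {κ : ℝ → ℝ} (hκ : CF L A₁ κ)
    (s : ℂ) : ContDiff ℝ ∞ (ph φ κ s) ∧ HasCompactSupport (ph φ κ s) := by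
  rw [x2b_eq]
  refine ⟨?_, ?_⟩
  · exact (x2b_phi hφ).contDiff_convolution_right _ (x2b_int hκ s).locallyIntegrable hφ.smooth
  · exact (x2b_supp hκ s).convolution _ (x2b_phi hφ)


end

end Pool.Agent.RZH

namespace Pool.Agent.RZH

theorem ph_TF : type_of% @ph_TF_pr := @ph_TF_pr

end Pool.Agent.RZH
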