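import Pool.Agent.Lib_helper32.LAL.Defs
import Pool.Agent.Lib_helper32.LAL.DefsB
import Pool.Agent.Lib_helper41.LALF.G_IF_act
import Pool.Agent.Lib_helper41.LALF.G_IF_act_sum
import Pool.Agent.Lib_helper41.RZGF.R_TA3
import Pool.Agent.Lib_helper42.GLM.Defs
import Pool.Agent.Lib_helper75.DZN.Defs
import Pool.Agent.Lib_helper75.DZNF.BG
import Pool.Agent.Lib_helper75.RZG.Defs
import Pool.Agent.Lib_helper96.GLL.Defs
import Pool.Agent.Lib_helper96.GLL.DefsB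

/-!
# Project RZG, block M1: the mollified density as an eigenvalue
-/

set_option autoImplicit false

namespace Pool.Agent.RZH

open MeasureTheory Matrix Complex Filter Topology Pool.Agent.GLL Pool.Agent.LAL
open scoped ENNReal ContDiff

noncomputable section

variable {n : ℕ} {O : Subring (Mt n)}

theorem m1_eq (hn : 2 ≤ n) (hO : GLL.Ord O) {g : ℝ → ℝ} {ε : ℝ} (hg : CutG g ε) {T : ℝ}
    (hT : 0 < T) {b : ℕ} (hb : 0 < b) :
    bF b (cT O g T b) = fun I =>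
      ∑ j ∈ Finset.Icc 1 ⌊Real.exp T⌋₊, (aT g T j : ℂ) * Ajm O b j 1 I :=
  funext (cT_facts hn hO hg hT hb).2.2.2

theorem bF_ok_pr (hn : 2 ≤ n) (hO : GLL.Ord O) {g : ℝ → ℝ} {ε : ℝ} (hg : CutG g ε) {T : ℝ}
    (hT : 0 < T) {b : ℕ} (hb : 0 < b) :
    IsHk (bF b (cT O g T b)) ∧
    ∀ (q : ℕ) [NeZero q] (ρ : O →+* Mq n q), LAL.QOK O q ρ → ∀ E : LAL.Eig ρ,
      LAL.Act E (bF b (cT O g T b)) := by
  rw [m1_eq hn hO hg hT hb]
  constructor
  · intro γ x h h'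
    have h1 := (DZN.bG_ok hn hO hb 0 (fun _ => 0)).2.1
    exact Finset.sum_congr rfl fun j _ => by rw [h1 j γ x h h']
  · intro q _ ρ h E
    refine LAL.IF_act_sum hn hO h E (Finset.Icc 1 ⌊Real.exp T⌋₊) (fun j => (aT g T j : ℂ))
      (fun j => Ajm O b j 1) fun j hj => ?_
    rw [Finset.mem_Icc] at hj
    exact LAL.IF_act hn hO h E b j 1 hb (by omega) one_pos (Nat.coprime_one_right j)

/-- polynomial bound, uniformly in `b` -/
theorem bF_bd_pr (hn : 2 ≤ n) (hO : GLL.Ord O) : ∃ s0 : ℝ, 0 ≤ s0 ∧ ∀ b : ℕ, 0 < b →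
    ∀ c : Idl O → ℝ, (∀ A, |c A| ≤ |(mob O b A : ℝ)|) → ∀ g : Idl O,
      ‖bF b c g‖ ≤ 2 * (N g : ℝ) ^ s0 := by
  classical
  obtain ⟨s0, hs0, h⟩ := DZN.bg_sum hn hO
  refine ⟨s0, hs0, fun b hb c hc g => ?_⟩
  unfold bF
  rw [Complex.norm_real, Real.norm_eq_abs]
  have h1 : ∑ A ∈ PI O b, (if g ≤ A then c A else 0) = ∑ A ∈ (PI O b).filter (fun A => g ≤ A), c A :=
    (Finset.sum_filter _ _).symm
  obtain ⟨A, hA, hAN⟩ := DZN.bg_up hn hO g
  calc |∑ A ∈ PI O b, (if g ≤ A then c A else 0)|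
      = |∑ A ∈ (PI O b).filter (fun A => g ≤ A), c A| := by rw [← h1]
    _ ≤ ∑ A ∈ (PI O b).filter (fun A => g ≤ A), |c A| := Finset.abs_sum_le_sum_abs _ _
    _ ≤ ∑ A ∈ (PI O b).filter (fun A => g ≤ A), |(mob O b A : ℝ)| :=
        Finset.sum_le_sum fun A _ => hc A
    _ ≤ 2 * (N g : ℝ) ^ s0 := by
        refine h b hb _ _ (fun I hI => ?_) (Nat.cast_nonneg _)
        rw [Finset.mem_filter] at hI
        exact_mod_cast hAN I ((hA I).2 hI.2)

end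


end Pool.Agent.RZH

namespace Pool.Agent.RZH

theorem bF_bd : type_of% @bF_bd_pr := @bF_bd_pr

theorem bF_ok : type_of% @bF_ok_pr := @bF_ok_pr

end Pool.Agent.RZH
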