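import Pool.Agent.Lib_helper32.LAL.Defs
import Pool.Agent.Lib_helper32.LAL.DefsB
import Pool.Agent.Lib_helper41.LALF.G_IF_chA
import Pool.Agent.Lib_helper41.LALF.G_IF_ch_sum
import Pool.Agent.Lib_helper41.LALF.G_IF_lam_one
import Pool.Agent.Lib_helper41.RZGF.R_TA3
import Pool.Agent.Lib_helper75.DZNF.BG
import Pool.Agent.Lib_helper75.RZG.Defs
import Pool.Agent.Lib_helper96.GLF.H_GLUE_6
import Pool.Agent.Lib_helper96.GLF.M_MGF1
import Pool.Agent.Lib_helper96.GLL.Defs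
import Pool.Agent.Lib_helper96.GLL.DefsB

set_option autoImplicit false

namespace Pool.Agent.RZH

open MeasureTheory Matrix Complex Filter Topology Pool.Agent.GLL Pool.Agent.LAL
open scoped ENNReal ContDiff

noncomputable section

variable {n : ℕ} {O : Subring (Mt n)}

theorem m2_Aj (hn : 2 ≤ n) (hO : GLL.Ord O) {q : ℕ} [NeZero q] {ρ : O →+* Mq n q}
    (h : LAL.QOK O q ρ) (E : LAL.Eig ρ) {b j : ℕ} (hb : 0 < b) (hj : 0 < j)
    {Φ : Mt n → ℂ} (hΦ : Rap Φ) (w : ℝ) :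
    LAL.ch E (Ajm O b j 1) (fun X => Φ (Real.exp (w / n) • X)) =
      ((Real.exp (-(w * (((n : ℝ) - 1) / 2))) : ℝ) : ℂ) * LAL.vE E b j *
        LAL.DE E Φ (Real.log j + w) := by
  have hn0 : (n : ℝ) ≠ 0 := by
    have : n ≠ 0 := by omega
    exact_mod_cast this
  rw [LAL.IF_chA hn hO h E b j 1 hb hj one_pos (Nat.coprime_one_right j) Φ hΦ (Real.exp (w / n))
    (Real.exp_pos _)]
  have e1 : Real.exp (w / n) ^ (-((n : ℝ) * (((n : ℝ) - 1) / 2))) =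
      Real.exp (-(w * (((n : ℝ) - 1) / 2))) := by
    rw [← Real.exp_mul]
    congr 1
    field_simp
  have e2 : Real.log ((j : ℝ) * ((1 : ℕ) : ℝ)) + n * Real.log (Real.exp (w / n)) =
      Real.log j + w := by
    rw [Real.log_exp, Nat.cast_one, mul_one]
    field_simp
  rw [e1, e2, LAL.IF_lam_one hn hO h E, mul_one]

theorem EG_ch_pr (hn : 2 ≤ n) (hO : GLL.Ord O) {q : ℕ} [NeZero q] {ρ : O →+* Mq n q}
    (h : LAL.QOK O q ρ) (E : LAL.Eig ρ) {g : ℝ → ℝ} {ε : ℝ} (hg : CutG g ε) {T : ℝ}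
    (hT : 0 < T) {b : ℕ} (hb : 0 < b) {Φ : Mt n → ℂ} (hΦ : Rap Φ) (u : ℝ) :
    EG E b g T Φ u = ((Real.exp (u * (((n : ℝ) - 1) / 2)) : ℝ) : ℂ) *
      LAL.ch E (bF b (cT O g T b)) (fun X => Φ (Real.exp (u / n) • X)) := by
  obtain ⟨C, hC⟩ := GLL.IF_Ajm_le hn hO b hb
  have h1 : bF b (cT O g T b) = fun I => ∑ j ∈ Finset.Icc 1 ⌊Real.exp T⌋₊,
      (aT g T j : ℂ) * Ajm O b j 1 I := funext fun I => (cT_facts hn hO hg hT hb).2.2.2 I
  rw [h1, LAL.IF_ch_sum hn hO h E (Finset.Icc 1 ⌊Real.exp T⌋₊) (fun j => (aT g T j : ℂ))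
    (fun j => Ajm O b j 1)
    ((n ^ 3 + 1 : ℕ) : ℝ) C (fun j _ I => by rw [Real.rpow_natCast]; exact hC j 1 I) _
    (Rap_smul hΦ (Real.exp_pos _)), Finset.mul_sum]
  unfold EG
  refine Finset.sum_congr rfl fun j hj => ?_
  rw [Finset.mem_Icc] at hj
  rw [m2_Aj hn hO h E hb (by omega) hΦ u]
  have h3 : ((Real.exp (u * (((n : ℝ) - 1) / 2)) : ℝ) : ℂ) *
      ((Real.exp (-(u * (((n : ℝ) - 1) / 2))) : ℝ) : ℂ) = 1 := by
    rw [← Complex.ofReal_mul, ← Real.exp_add, add_neg_cancel, Real.exp_zero, Complex.ofReal_one]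
  rw [add_comm u (Real.log j)]
  linear_combination (-(aT g T j : ℂ) * LAL.vE E b j * LAL.DE E Φ (Real.log j + u)) * h3

end

end Pool.Agent.RZH

namespace Pool.Agent.RZH

theorem EG_ch : type_of% @EG_ch_pr := @EG_ch_pr

end Pool.Agent.RZH
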