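import Pool.Agent.Lib_helper32.LAL.Defs
import Pool.Agent.Lib_helper32.LAL.DefsB
import Pool.Agent.Lib_helper41.RZGF.R_M2
import Pool.Agent.Lib_helper75.DZNF.BG
import Pool.Agent.Lib_helper75.RZG.Defs
import Pool.Agent.Lib_helper96.GLF.O_OA3
import Pool.Agent.Lib_helper96.GLF.O_OD
import Pool.Agent.Lib_helper96.GLF.T_TE
import Pool.Agent.Lib_helper96.GLF.T_TGLUE
import Pool.Agent.Lib_helper96.GLL.Defs
import Pool.Agent.Lib_helper96.GLL.DefsB

/-!
# Project RZG, block M3
-/

set_option autoImplicit false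

namespace Pool.Agent.RZH

open MeasureTheory Matrix Complex Filter Topology Pool.Agent.GLL Pool.Agent.LAL
open scoped ENNReal ContDiff

noncomputable section

variable {n : ℕ} {O : Subring (Mt n)}

private theorem m3_fin (hn : 2 ≤ n) (hO : GLL.Ord O) (M : ℕ) :
    {I : Idl O | N I ≤ M}.Finite := by
  have h : {I : Idl O | N I ≤ M} = ⋃ m ∈ Finset.range (M + 1), {I : Idl O | N I = m} := by
    ext I
    simp only [Set.mem_setOf_eq, Set.mem_iUnion, Finset.mem_range, exists_prop]
    constructor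
    · intro h
      exact ⟨N I, by omega, rfl⟩
    · rintro ⟨m, hm, rfl⟩
      omega
  rw [h]
  exact Set.Finite.biUnion (Finset.finite_toSet _) fun m _ => GLL.IF_fin hn hO m

/-- the values of the integrals of `Phi` -/
private theorem m3_II (hn : 2 ≤ n) {k : Mt n → ℂ} (hk : Sph k) (ψ : ℝ → ℂ) (v : ℝ)
    (G : Mt n → ℂ) : (II fun g => Phi ψ k (Real.exp (v / n) • g) * G g) =
      ψ v * ((Real.exp (-(v * (((n : ℝ) - 1) / 2))) : ℝ) : ℂ) * II fun g => k g * G g := by
  rw [← GLL.T.te_mul]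
  refine GLL.T.te_congr hn fun g hg => ?_
  rw [GLL.T.Phi_val hn hk ψ v g hg]
  ring

private theorem m3_intg {φ : ℝ → ℂ} {A : ℝ} (hφ : TF φ A) {L A₁ : ℝ} {κ : ℝ → ℝ}
    (hκ : CF L A₁ κ) (s : ℂ) (v : ℝ) :
    Integrable fun u : ℝ => (κ u : ℂ) * Complex.exp (s * u) * φ (u + v) := by
  have hc : Continuous fun u : ℝ => Complex.exp (s * u) * φ (u + v) := by
    have := hφ.smooth.continuous
    fun_prop
  have hs : HasCompactSupport fun u : ℝ => Complex.exp (s * u) * φ (u + v) := by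
    refine HasCompactSupport.intro (K := Set.Icc (-A - v) (A - v)) isCompact_Icc fun u hu => ?_
    have h0 : φ (u + v) = 0 := by
      by_contra hne
      have := abs_le.1 (hφ.supp _ hne)
      exact hu ⟨by linarith [this.1], by linarith [this.2]⟩
    rw [h0, mul_zero]
  have hi : Integrable (fun u : ℝ => Complex.exp (s * u) * φ (u + v)) (volume : Measure ℝ) :=
    hc.integrable_of_hasCompactSupport hs
  have h1 : (fun u : ℝ => (κ u : ℂ) * Complex.exp (s * u) * φ (u + v)) =
      fun u : ℝ => (κ u : ℂ) * (Complex.exp (s * u) * φ (u + v)) := by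
    funext u
    ring
  rw [h1]
  refine hi.bdd_mul (c := 1) (Complex.measurable_ofReal.comp hκ.meas).aestronglyMeasurable ?_
  refine Filter.Eventually.of_forall fun u => ?_
  rw [Complex.norm_real, Real.norm_eq_abs]
  exact hκ.le u

theorem ch_Psi_pr (hn : 2 ≤ n) (hO : GLL.Ord O) {q : ℕ} [NeZero q] {ρ : O →+* Mq n q}
    (h : LAL.QOK O q ρ) (E : LAL.Eig ρ) {g : ℝ → ℝ} {ε : ℝ} (hg : CutG g ε) {T : ℝ}
    (hT : 0 < T) {b : ℕ} (hb : 0 < b) {k : Mt n → ℂ} (hk : Sph2 k) {φ : ℝ → ℂ} {A : ℝ}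
    (hφ : TF φ A) {L A₁ : ℝ} {κ : ℝ → ℝ} (hκ : CF L A₁ κ) (s : ℂ) :
    LAL.ch E (bF b (cT O g T b)) (Phi (ph φ κ s) k) =
      ∫ u : ℝ, (κ u : ℂ) * Complex.exp (s * u) * EG E b g T (Phi φ k) u := by
  classical
  have hn0 : (n : ℝ) ≠ 0 := by
    have : n ≠ 0 := by omega
    exact_mod_cast this
  have hφc : HasCompactSupport φ := by
    refine HasCompactSupport.intro (K := Set.Icc (-A) A) isCompact_Icc fun u hu => ?_
    by_contra hne
    have := abs_le.1 (hφ.supp _ hne)
    exact hu ⟨this.1, this.2⟩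
  have hRap : Rap (Phi φ k) := (GLL.IF_Phi hn k hk φ hφ.smooth hφc).1.rap
  set c : Idl O → ℂ := bF b (cT O g T b) with hc
  set d : ℂ := E.f E.x0 E.u0 with hd
  set G : Idl O → Mt n → ℂ := fun I g =>
    ∑ w : Vq n q, if ρ (gen I) *ᵥ w = E.u0 then E.f ((gen I : Mt n)⁻¹ * E.x0 * g) w else 0 with hG
  set X : Idl O → ℂ := fun I =>
    ((Real.exp (-(Real.log (N I) * (((n : ℝ) - 1) / 2))) : ℝ) : ℂ) * II fun g => k g * G I g with hX
  -- the eigenvalue for a general function
  have hch : ∀ ψ : ℝ → ℂ, LAL.ch E c (Phi ψ k) =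
      (∑' I : Idl O, c I * (ψ (Real.log (N I)) * X I)) / d := by
    intro ψ
    rw [LAL.ch]
    congr 1
    refine tsum_congr fun I => ?_
    rw [m3_II hn hk.toSph ψ (Real.log (N I)) (G I), hX]
    ring
  have hch2 : ∀ u : ℝ, EG E b g T (Phi φ k) u =
      (∑' I : Idl O, c I * (φ (u + Real.log (N I)) * X I)) / d := by
    intro u
    rw [EG_ch hn hO h E hg hT hb hRap u, LAL.ch, ← mul_div_assoc, ← tsum_mul_left]
    congr 1
    refine tsum_congr fun I => ?_
    have h1 : (II fun g => (fun X : Mt n => Phi φ k (Real.exp (u / n) • X))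
        (Real.exp (Real.log (N I) / n) • g) * G I g) =
        φ (u + Real.log (N I)) *
          ((Real.exp (-((u + Real.log (N I)) * (((n : ℝ) - 1) / 2))) : ℝ) : ℂ) *
          II fun g => k g * G I g := by
      rw [← m3_II hn hk.toSph φ (u + Real.log (N I)) (G I)]
      congr 1
      funext x
      show Phi φ k (Real.exp (u / n) • Real.exp (Real.log (N I) / n) • x) * G I x = _
      rw [smul_smul, ← Real.exp_add]
      congr 4
      field_simp
    have h2 : ((Real.exp (u * (((n : ℝ) - 1) / 2)) : ℝ) : ℂ) *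
        ((Real.exp (-((u + Real.log (N I)) * (((n : ℝ) - 1) / 2))) : ℝ) : ℂ) =
        ((Real.exp (-(Real.log (N I) * (((n : ℝ) - 1) / 2))) : ℝ) : ℂ) := by
      rw [← Complex.ofReal_mul, ← Real.exp_add]
      congr 2
      ring
    show ((Real.exp (u * (((n : ℝ) - 1) / 2)) : ℝ) : ℂ) * (bF b (cT O g T b) I *
      (II fun g => (fun X : Mt n => Phi φ k (Real.exp (u / n) • X))
        (Real.exp (Real.log (N I) / n) • g) * G I g)) = _
    rw [h1, ← hc, hX]
    show _ = c I * (φ (u + Real.log (N I)) *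
      (((Real.exp (-(Real.log (N I) * (((n : ℝ) - 1) / 2))) : ℝ) : ℂ) * II fun g => k g * G I g))
    rw [← h2]
    ring
  -- finiteness
  set M : ℕ := ⌈Real.exp (A + 2 * L)⌉₊ with hM
  set F : Finset (Idl O) := (m3_fin hn hO M).toFinset with hF
  have hout : ∀ I : Idl O, I ∉ F → ∀ u : ℝ, κ u ≠ 0 → φ (u + Real.log (N I)) = 0 := by
    intro I hI u hu
    by_contra hne
    apply hI
    rw [hF, Set.Finite.mem_toFinset]
    show N I ≤ M
    have h1 := (abs_le.1 (hφ.supp _ hne)).2
    have h2 := (hκ.supp u hu).1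
    have h3 : Real.log (N I) ≤ A + 2 * L := by linarith
    have h4 : (0 : ℝ) < N I := by exact_mod_cast (GLL.IF_gen hn hO I).2.2.1
    have h5 : (N I : ℝ) ≤ Real.exp (A + 2 * L) := (Real.log_le_iff_le_exp h4).1 h3
    exact_mod_cast h5.trans (Nat.le_ceil _)
  rw [hch]
  have hph : ∀ I : Idl O, I ∉ F → c I * (ph φ κ s (Real.log (N I)) * X I) = 0 := by
    intro I hI
    have h0 : ph φ κ s (Real.log (N I)) = 0 := by
      rw [ph]
      refine integral_eq_zero_of_ae (Filter.Eventually.of_forall fun u => ?_)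
      show (κ u : ℂ) * Complex.exp (s * u) * φ (u + Real.log (N I)) = 0
      by_cases hu : κ u = 0
      · rw [hu]
        simp
      · rw [hout I hI u hu, mul_zero]
    rw [h0, zero_mul, mul_zero]
  rw [tsum_eq_sum (s := F) fun I hI => hph I hI]
  have hR : ∀ u : ℝ, (κ u : ℂ) * Complex.exp (s * u) * EG E b g T (Phi φ k) u =
      ∑ I ∈ F, c I * X I / d * ((κ u : ℂ) * Complex.exp (s * u) * φ (u + Real.log (N I))) := by
    intro u
    by_cases hu : κ u = 0
    · rw [hu]
      simp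
    · rw [hch2 u, tsum_eq_sum (s := F) fun I hI => by rw [hout I hI u hu, zero_mul, mul_zero],
        Finset.sum_div, Finset.mul_sum]
      refine Finset.sum_congr rfl fun I _ => ?_
      ring
  rw [integral_congr_ae (Filter.Eventually.of_forall hR),
    integral_finsetSum _ fun I _ => (m3_intg hφ hκ s (Real.log (N I))).const_mul _, Finset.sum_div]
  refine Finset.sum_congr rfl fun I _ => ?_
  rw [integral_const_mul]
  show c I * (ph φ κ s (Real.log (N I)) * X I) / d = c I * X I / d * ph φ κ s (Real.log (N I))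
  ring

end

end Pool.Agent.RZH

namespace Pool.Agent.RZH

theorem ch_Psi : type_of% @ch_Psi_pr := @ch_Psi_pr

end Pool.Agent.RZH
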