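import Pool.Agent.Lib_helper32.LAL.Defs
import Pool.Agent.Lib_helper32.LAL.DefsB
import Pool.Agent.Lib_helper41.LALF.G_IF_lam_one
import Pool.Agent.Lib_helper41.LALF.G_IF_vE
import Pool.Agent.Lib_helper75.RZG.Defs
import Pool.Agent.Lib_helper96.GLL.Defs

set_option autoImplicit false

namespace Pool.Agent.RZH

open MeasureTheory Matrix Complex Filter Topology Pool.Agent.GLL Pool.Agent.LAL
open scoped ENNReal ContDiff

noncomputable section

variable {n : ℕ} {O : Subring (Mt n)}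

/-- the coefficients of `L M` -/
theorem coefL_pr (hn : 2 ≤ n) (hO : GLL.Ord O) {q : ℕ} [NeZero q] {ρ : O →+* Mq n q}
    (h : LAL.QOK O q ρ) (E : LAL.Eig ρ) {X x : ℕ} (hx : 0 < x) (hxX : x ≤ X) :
    ∑ p ∈ x.divisorsAntidiagonal, LAL.vE E (primorial X) p.1 * E.lam p.2 =
      if x = 1 then 1 else 0 := by
  obtain ⟨s0, hs0⟩ := LAL.IF_vE hn hO
  have h1 := (hs0 (primorial X) (primorial_pos X) q ρ h E).2.2.2 x hx
  rw [h1]
  by_cases hx1 : x = 1
  · subst hx1
    simp [LAL.IF_lam_one hn hO h E]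
  rw [if_neg hx1]
  obtain ⟨p, hp, hpx⟩ := Nat.exists_prime_and_dvd hx1
  have hpb : p ∣ primorial X := by
    unfold primorial
    refine Finset.dvd_prod_of_mem (fun p => p) ?_
    rw [Finset.mem_filter, Finset.mem_range]
    exact ⟨by have := Nat.le_of_dvd hx hpx; omega, hp⟩
  rw [if_neg]
  intro hc
  exact hp.one_lt.ne' (Nat.eq_one_of_dvd_coprimes hc hpx hpb)

end

end Pool.Agent.RZH

namespace Pool.Agent.RZH

theorem coefL : type_of% @coefL_pr := @coefL_pr

end Pool.Agent.RZH
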