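import Pool.Agent.Lib_helper32.LAL.Defs
import Pool.Agent.Lib_helper32.LAL.DefsB
import Pool.Agent.Lib_helper41.LALF.G_IF_DE_dec
import Pool.Agent.Lib_helper41.LALF.G_IF_FE
import Pool.Agent.Lib_helper41.LALF.G_IF_kPhi
import Pool.Agent.Lib_helper41.LALF.G_IF_mellin
import Pool.Agent.Lib_helper42.GLM.Defs
import Pool.Agent.Lib_helper42.LAM.Defs
import Pool.Agent.Lib_helper75.DZNF.TA
import Pool.Agent.Lib_helper75.RZG.Defs
import Pool.Agent.Lib_helper96.GLF.M_MGJ1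
import Pool.Agent.Lib_helper96.GLF.M_MHL1
import Pool.Agent.Lib_helper96.GLF.T_TGLUE
import Pool.Agent.Lib_helper96.GLL.Defs
import Pool.Agent.Lib_helper96.GLL.DefsB

/-!
# Project RZG, block M6: the transform of the mollified density

Ported from LAL ME1 (helper94), LAL MR1 (helper65) and DZNF/TA.
-/

set_option autoImplicit false

namespace Pool.Agent.RZH

open MeasureTheory Matrix Complex Filter Topology Pool.Agent.GLL Pool.Agent.LAL
open scoped ENNReal ContDiff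

noncomputable section

variable {n : ℕ} {O : Subring (Mt n)}

theorem m6_compact {φ : ℝ → ℂ} {A : ℝ} (hφ : TF φ A) : HasCompactSupport φ := by
  refine HasCompactSupport.intro (K := Metric.closedBall (0 : ℝ) A)
    (isCompact_closedBall _ _) fun v hv => ?_
  by_contra h
  refine hv ?_
  rw [Metric.mem_closedBall, dist_zero_right, Real.norm_eq_abs]
  exact hφ.supp v h

section eig

variable {q : ℕ} [NeZero q] {ρ : O →+* Mq n q}

theorem m6_DE (hn : 2 ≤ n) (hO : GLL.Ord O) (h : LAL.QOK O q ρ) (E : LAL.Eig ρ) {Φ : Mt n → ℂ}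
    (hΦ : Cls Φ) (K : ℝ) : ∃ C : ℝ, 0 ≤ C ∧ ∀ u : ℝ,
      ‖LAL.DE E Φ u‖ ≤ C * Real.exp (-(K * |u|)) := by
  obtain ⟨om, hom, hFE⟩ := LAL.IF_FE hn hO h E
  obtain ⟨k, hk⟩ := exists_nat_ge K
  obtain ⟨C1, hC1⟩ := LAL.IF_DE_dec hn hO Φ hΦ.rap k
  obtain ⟨-, h1, h1'⟩ := hC1 q ρ h E
  obtain ⟨C2, hC2⟩ := LAL.IF_DE_dec hn hO (sh Φ) (mgj1_rap hΦ) (k + 1)
  obtain ⟨-, h2, -⟩ := hC2 q ρ h E
  set l := LAL.ell O q with hl
  -- it is enough to have the exponent `k`
  suffices hs : ∃ C : ℝ, 0 ≤ C ∧ ∀ u : ℝ, ‖LAL.DE E Φ u‖ ≤ C * Real.exp (-((k : ℝ) * |u|)) by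
    obtain ⟨C, hC, hu⟩ := hs
    refine ⟨C, hC, fun u => (hu u).trans (mul_le_mul_of_nonneg_left (Real.exp_le_exp.2 ?_) hC)⟩
    have := mul_le_mul_of_nonneg_right hk (abs_nonneg u)
    linarith
  refine ⟨|C1| + |C2| * Real.exp (((k : ℝ) + 1 / 2) * l) +
    |C1| * Real.exp ((n : ℝ) ^ 4 * |l| + k * |l|), by positivity, fun u => ?_⟩
  have p1 : 0 ≤ |C1| * Real.exp (-((k : ℝ) * |u|)) := by positivity
  have p2 : 0 ≤ |C2| * Real.exp (((k : ℝ) + 1 / 2) * l) * Real.exp (-((k : ℝ) * |u|)) := by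
    positivity
  have p3 : 0 ≤ |C1| * Real.exp ((n : ℝ) ^ 4 * |l| + k * |l|) *
      Real.exp (-((k : ℝ) * |u|)) := by positivity
  rw [add_mul, add_mul]
  rcases le_total 0 u with hu | hu
  · have h3 := h1 u hu
    have h4 : C1 * Real.exp (-((k : ℝ) * u)) ≤ |C1| * Real.exp (-((k : ℝ) * |u|)) := by
      rw [abs_of_nonneg hu]
      exact mul_le_mul_of_nonneg_right (le_abs_self _) (Real.exp_pos _).le
    linarith
  · rcases le_total u (-l) with hul | hul
    · have h3 : ‖LAL.DE E Φ u‖ = Real.exp (-u - l / 2) * ‖LAL.DE E (sh Φ) (-u - l)‖ := by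
        rw [hFE Φ hΦ u, norm_mul, norm_mul, hom, one_mul, Complex.norm_real, Real.norm_eq_abs,
          Real.abs_exp, Complex.norm_conj]
      have h4 := h2 (-u - l) (by linarith)
      have h5 : ‖LAL.DE E (sh Φ) (-u - l)‖ ≤
          |C2| * Real.exp (-(((k + 1 : ℕ) : ℝ) * (-u - l))) :=
        h4.trans (mul_le_mul_of_nonneg_right (le_abs_self _) (Real.exp_pos _).le)
      have h6 : Real.exp (-u - l / 2) * (|C2| * Real.exp (-(((k + 1 : ℕ) : ℝ) * (-u - l)))) =
          |C2| * Real.exp (((k : ℝ) + 1 / 2) * l) * Real.exp (-((k : ℝ) * |u|)) := by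
        rw [abs_of_nonpos hu, mul_assoc |C2|, ← Real.exp_add,
          mul_left_comm, ← Real.exp_add]
        congr 2
        push_cast
        ring
      have h7 := mul_le_mul_of_nonneg_left h5 (Real.exp_pos (-u - l / 2)).le
      rw [h6] at h7
      linarith
    · have h3 := h1' u hu
      have h4 : C1 * Real.exp (-((n : ℝ) ^ 4 * u)) ≤
          |C1| * Real.exp ((n : ℝ) ^ 4 * |l| + k * |l|) * Real.exp (-((k : ℝ) * |u|)) := by
        have h5 : |u| ≤ |l| := by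
          rw [abs_of_nonpos hu]
          exact (by linarith : -u ≤ l).trans (le_abs_self l)
        rw [mul_assoc, ← Real.exp_add]
        refine mul_le_mul (le_abs_self _) (Real.exp_le_exp.2 ?_) (Real.exp_pos _).le
          (abs_nonneg _)
        have h6 := mul_le_mul_of_nonneg_left h5 (by positivity : (0 : ℝ) ≤ (n : ℝ) ^ 4)
        have h7 := mul_le_mul_of_nonneg_left h5 (Nat.cast_nonneg k : (0 : ℝ) ≤ (k : ℝ))
        have h8 : (n : ℝ) ^ 4 * |u| = -((n : ℝ) ^ 4 * u) := by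
          rw [abs_of_nonpos hu]
          ring
        linarith
      linarith

theorem m6_transform (hn : 2 ≤ n) (hO : GLL.Ord O) (h : LAL.QOK O q ρ) (E : LAL.Eig ρ)
    {k : Mt n → ℂ} (hk : Sph2 k) {φ : ℝ → ℂ} (hφ : ContDiff ℝ ∞ φ) (hφ' : HasCompactSupport φ)
    {Lf : ℂ → ℂ} (hL : LAL.IsLf E Lf) (s : ℂ) :
    Integrable (fun u : ℝ => LAL.DE E (Phi φ k) u * Complex.exp (s * u)) ∧
    ∫ u : ℝ, LAL.DE E (Phi φ k) u * Complex.exp (s * u) = phh φ s * E.kh k * Lf s := by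
  have hCls : Cls (Phi φ k) := (GLL.IF_Phi hn k hk φ hφ hφ').1
  have hcont : Continuous (LAL.DE E (Phi φ k)) := by
    obtain ⟨C, hC⟩ := LAL.IF_DE_dec hn hO (Phi φ k) hCls.rap 0
    exact (hC q ρ h E).1
  have hd : ∀ K : ℝ, ∃ C : ℝ, 0 ≤ C ∧ ∀ u : ℝ,
      ‖LAL.DE E (Phi φ k) u‖ ≤ C * Real.exp (-(K * |u|)) := m6_DE hn hO h E hCls
  refine ⟨(mhl1_lap hcont hd s).1, ?_⟩
  have hdiff1 : Differentiable ℂ fun z : ℂ =>
      ∫ u : ℝ, LAL.DE E (Phi φ k) u * Complex.exp (z * u) :=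
    fun z => (mhl1_lap hcont hd z).2.differentiableAt
  have hdiff2 : Differentiable ℂ fun z : ℂ => phh φ z * E.kh k * Lf z :=
    ((phh_diff_pr hφ hφ').mul_const _).mul hL.1
  have han1 : AnalyticOnNhd ℂ (fun z : ℂ => ∫ u : ℝ, LAL.DE E (Phi φ k) u * Complex.exp (z * u))
      Set.univ := fun z _ => hdiff1.analyticAt z
  have han2 : AnalyticOnNhd ℂ (fun z : ℂ => phh φ z * E.kh k * Lf z) Set.univ :=
    fun z _ => hdiff2.analyticAt z
  have hev : (fun z : ℂ => ∫ u : ℝ, LAL.DE E (Phi φ k) u * Complex.exp (z * u)) =ᶠ[𝓝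
      (((n : ℝ) ^ 4 + 3 : ℝ) : ℂ)] fun z : ℂ => phh φ z * E.kh k * Lf z := by
    have hopen : IsOpen {z : ℂ | (n : ℝ) ^ 4 + 2 < z.re} :=
      isOpen_lt continuous_const Complex.continuous_re
    have hmem : (((n : ℝ) ^ 4 + 3 : ℝ) : ℂ) ∈ {z : ℂ | (n : ℝ) ^ 4 + 2 < z.re} := by
      change (n : ℝ) ^ 4 + 2 < ((((n : ℝ) ^ 4 + 3 : ℝ) : ℂ)).re
      rw [Complex.ofReal_re]
      linarith
    filter_upwards [hopen.mem_nhds hmem] with z hz
    obtain ⟨-, -, -, h4⟩ := LAL.IF_mellin hn hO h E (Phi φ k) hCls.rap z hz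
    rw [h4, hL.2 z hz]
    have h5 : ∫ v : ℝ, LAL.kE E (Phi φ k) v * Complex.exp (z * v) = phh φ z * E.kh k := by
      unfold phh
      rw [← integral_mul_const]
      refine integral_congr_ae (Eventually.of_forall fun v => ?_)
      simp only
      rw [LAL.IF_kPhi hn k hk φ hφ.continuous E v]
      ring
    rw [h5]
    ring
  have := AnalyticOnNhd.eq_of_eventuallyEq han1 han2 hev
  exact congrFun this s

end eig

theorem EG_transform_pr (hn : 2 ≤ n) (hO : GLL.Ord O) {q : ℕ} [NeZero q] {ρ : O →+* Mq n q}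
    (h : LAL.QOK O q ρ) (E : LAL.Eig ρ) {k : Mt n → ℂ} (hk : Sph2 k) {φ : ℝ → ℂ} {A : ℝ}
    (hφ : TF φ A) {Lf : ℂ → ℂ} (hL : LAL.IsLf E Lf) {g : ℝ → ℝ} {ε : ℝ} (hg : CutG g ε) {T : ℝ}
    (hT : 0 < T) {b : ℕ} (hb : 0 < b) (s : ℂ) :
    Integrable (fun u : ℝ => EG E b g T (Phi φ k) u * Complex.exp (s * u)) ∧
    ∫ u : ℝ, EG E b g T (Phi φ k) u * Complex.exp (s * u) =
      phh φ s * E.kh k * (Lf s * MG E b g T s) := by
  obtain ⟨hI, hT⟩ := m6_transform hn hO h E hk hφ.smooth (m6_compact hφ) hL s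
  have hsh : ∀ j : ℕ, (fun u : ℝ => LAL.DE E (Phi φ k) (u + Real.log j) * Complex.exp (s * u)) =
      fun u : ℝ => Complex.exp (-(s * (Real.log j : ℝ))) *
        (fun t : ℝ => LAL.DE E (Phi φ k) t * Complex.exp (s * t)) (u + Real.log j) := by
    intro j
    funext u
    have e1 : Complex.exp (s * ((u + Real.log j : ℝ) : ℂ)) =
        Complex.exp (s * (Real.log j : ℝ)) * Complex.exp (s * u) := by
      rw [← Complex.exp_add]
      congr 1
      push_cast
      ring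
    have e2 : Complex.exp (-(s * (Real.log j : ℝ))) * Complex.exp (s * (Real.log j : ℝ)) = 1 := by
      rw [← Complex.exp_add, neg_add_cancel, Complex.exp_zero]
    simp only
    rw [e1]
    linear_combination (-(LAL.DE E (Phi φ k) (u + Real.log j) * Complex.exp (s * u))) * e2
  have hIj : ∀ j : ℕ, Integrable fun u : ℝ =>
      LAL.DE E (Phi φ k) (u + Real.log j) * Complex.exp (s * u) := by
    intro j
    rw [hsh j]
    exact (hI.comp_add_right (Real.log j)).const_mul _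
  have hTj : ∀ j : ℕ, ∫ u : ℝ, LAL.DE E (Phi φ k) (u + Real.log j) * Complex.exp (s * u) =
      Complex.exp (-(s * (Real.log j : ℝ))) * (phh φ s * E.kh k * Lf s) := by
    intro j
    rw [hsh j, integral_const_mul]
    congr 1
    rw [integral_add_right_eq_self (μ := volume)
      (fun t : ℝ => LAL.DE E (Phi φ k) t * Complex.exp (s * t)) (Real.log j)]
    exact hT
  have hfun : (fun u : ℝ => EG E b g T (Phi φ k) u * Complex.exp (s * u)) =
      fun u : ℝ => ∑ j ∈ Finset.Icc 1 ⌊Real.exp T⌋₊, ((aT g T j : ℂ) * LAL.vE E b j) *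
        (LAL.DE E (Phi φ k) (u + Real.log j) * Complex.exp (s * u)) := by
    funext u
    unfold EG
    rw [Finset.sum_mul]
    refine Finset.sum_congr rfl fun j _ => ?_
    ring
  refine ⟨?_, ?_⟩
  · rw [hfun]
    exact integrable_finsetSum _ fun j _ => (hIj j).const_mul _
  · rw [hfun, integral_finsetSum _ fun j _ => (hIj j).const_mul _]
    unfold MG
    rw [Finset.mul_sum, Finset.mul_sum]
    refine Finset.sum_congr rfl fun j _ => ?_
    rw [integral_const_mul, hTj j]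
    ring

end

end Pool.Agent.RZH

namespace Pool.Agent.RZH

theorem EG_transform : type_of% @EG_transform_pr := @EG_transform_pr

end Pool.Agent.RZH
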