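import Pool.Agent.Lib_helper32.LAL.Defs
import Pool.Agent.Lib_helper32.LAL.DefsB
import Pool.Agent.Lib_helper41.LALF.G_IF_DE_dec
import Pool.Agent.Lib_helper41.LALF.G_IF_FE
import Pool.Agent.Lib_helper41.LALF.G_IF_vE
import Pool.Agent.Lib_helper75.DZNF.FE
import Pool.Agent.Lib_helper75.RZG.Defs
import Pool.Agent.Lib_helper96.GLF.O_ON2
import Pool.Agent.Lib_helper96.GLF.T_TGLUE
import Pool.Agent.Lib_helper96.GLL.Defs
import Pool.Agent.Lib_helper96.GLL.DefsB

/-! # Project RZG, block M7: the far tail of the mollified density -/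

set_option autoImplicit false

namespace Pool.Agent.RZH

open MeasureTheory Matrix Complex Filter Topology Pool.Agent.GLL Pool.Agent.LAL
open scoped ENNReal ContDiff

noncomputable section

variable {n : ℕ} {O : Subring (Mt n)}

/-- the density to the left of the functional equation -/
theorem m7_DE (hn : 2 ≤ n) (hO : GLL.Ord O) {S : Mt n → ℂ} (hS : Cls S) (hS' : Rap (sh S))
    (K : ℕ) : ∃ C : ℝ, 0 ≤ C ∧ ∀ (q : ℕ) [NeZero q] (ρ : O →+* Mq n q), LAL.QOK O q ρ →
    ∀ E : LAL.Eig ρ, Continuous (LAL.DE E S) ∧ ∀ v : ℝ, v ≤ -(LAL.ell O q) →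
      ‖LAL.DE E S v‖ ≤ C * Real.exp ((K - 1) * v + (K - 1 / 2) * LAL.ell O q) := by
  obtain ⟨C, hC⟩ := LAL.IF_DE_dec hn hO (sh S) hS' K
  obtain ⟨C', hC'⟩ := LAL.IF_DE_dec hn hO S hS.rap 0
  refine ⟨|C|, abs_nonneg _, fun q _ ρ h E => ⟨(hC' q ρ h E).1, fun v hv => ?_⟩⟩
  obtain ⟨om, hom, hfe⟩ := LAL.IF_FE hn hO h E
  have h1 := (hC q ρ h E).2.1 (-v - LAL.ell O q) (by linarith)
  rw [hfe S hS v, norm_mul, norm_mul, hom, one_mul, Complex.norm_real, Real.norm_eq_abs, abs_of_pos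
    (Real.exp_pos _), RCLike.norm_conj]
  calc Real.exp (-v - LAL.ell O q / 2) * ‖LAL.DE E (sh S) (-v - LAL.ell O q)‖
      ≤ Real.exp (-v - LAL.ell O q / 2) * (C * Real.exp (-(K * (-v - LAL.ell O q)))) :=
        mul_le_mul_of_nonneg_left h1 (Real.exp_pos _).le
    _ ≤ Real.exp (-v - LAL.ell O q / 2) * (|C| * Real.exp (-(K * (-v - LAL.ell O q)))) := by
        gcongr
        exact le_abs_self C
    _ = |C| * (Real.exp (-v - LAL.ell O q / 2) * Real.exp (-(K * (-v - LAL.ell O q)))) := by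
        ring
    _ = |C| * Real.exp ((K - 1) * v + (K - 1 / 2) * LAL.ell O q) := by
        rw [← Real.exp_add]
        congr 2
        ring

/-- the mollified density, pointwise -/
theorem m7_EG (hn : 2 ≤ n) (hO : GLL.Ord O) {S : Mt n → ℂ} (hS : Cls S) (hS' : Rap (sh S)) :
    ∃ s1 : ℝ, 0 ≤ s1 ∧ ∀ K : ℕ, 1 ≤ K → ∃ C : ℝ, 0 ≤ C ∧ ∀ (q : ℕ) [NeZero q]
    (ρ : O →+* Mq n q), LAL.QOK O q ρ → ∀ (E : LAL.Eig ρ) (g : ℝ → ℝ) (ε : ℝ), CutG g ε →
    ∀ b : ℕ, 0 < b → ∀ T : ℝ, 0 ≤ T → Continuous (EG E b g T S) ∧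
      ∀ u : ℝ, u + T ≤ -(LAL.ell O q) → ‖EG E b g T S u‖ ≤
        C * Real.exp (s1 * T + (K - 1) * (u + T) + (K - 1 / 2) * LAL.ell O q) := by
  obtain ⟨s0, hs0⟩ := LAL.IF_vE hn hO
  refine ⟨1 + |s0|, by positivity, fun K hK => ?_⟩
  obtain ⟨C, hC0, hC⟩ := m7_DE hn hO hS hS' K
  refine ⟨2 * C, by positivity, fun q _ ρ h E g ε hg b hb T hT => ⟨?_, fun u hu => ?_⟩⟩
  · unfold EG
    refine continuous_finsetSum _ fun j _ => ?_
    exact continuous_const.mul ((hC q ρ h E).1.comp (continuous_id.add continuous_const))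
  · have hKr : (1 : ℝ) ≤ K := by exact_mod_cast hK
    have hterm : ∀ j ∈ Finset.Icc 1 ⌊Real.exp T⌋₊,
        ‖(aT g T j : ℂ) * LAL.vE E b j * LAL.DE E S (u + Real.log j)‖ ≤
          2 * Real.exp (|s0| * T) * (C * Real.exp ((K - 1) * (u + T) +
            (K - 1 / 2) * LAL.ell O q)) := by
      intro j hj
      rw [Finset.mem_Icc] at hj
      have hj1 : (1 : ℝ) ≤ j := by exact_mod_cast hj.1
      have hjT : (j : ℝ) ≤ Real.exp T :=
        (Nat.le_floor_iff (Real.exp_pos T).le).1 hj.2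
      have hlog : Real.log j ≤ T := by
        rw [Real.log_le_iff_le_exp (by linarith)]
        exact hjT
      have hlog0 : 0 ≤ Real.log j := Real.log_nonneg hj1
      have ha : ‖(aT g T j : ℂ)‖ ≤ 1 := by
        rw [Complex.norm_real, Real.norm_eq_abs, aT, abs_of_nonneg (hg.nonneg _)]
        exact hg.le_one _
      have hv : ‖LAL.vE E b j‖ ≤ 2 * Real.exp (|s0| * T) := by
        refine ((hs0 b hb q ρ h E).2.1 j).trans ?_
        gcongr
        rw [Real.rpow_def_of_pos (by linarith), Real.exp_le_exp]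
        calc Real.log j * s0 ≤ Real.log j * |s0| :=
              mul_le_mul_of_nonneg_left (le_abs_self s0) hlog0
          _ ≤ T * |s0| := mul_le_mul_of_nonneg_right hlog (abs_nonneg _)
          _ = |s0| * T := mul_comm _ _
      have hd := (hC q ρ h E).2 (u + Real.log j) (by linarith)
      have hd' : ‖LAL.DE E S (u + Real.log j)‖ ≤
          C * Real.exp ((K - 1) * (u + T) + (K - 1 / 2) * LAL.ell O q) := by
        refine hd.trans ?_
        apply mul_le_mul_of_nonneg_left _ hC0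
        rw [Real.exp_le_exp]
        have h5 : ((K : ℝ) - 1) * (u + Real.log j) ≤ (K - 1) * (u + T) :=
          mul_le_mul_of_nonneg_left (by linarith) (by linarith)
        linarith
      rw [norm_mul, norm_mul]
      calc ‖(aT g T j : ℂ)‖ * ‖LAL.vE E b j‖ * ‖LAL.DE E S (u + Real.log j)‖
          ≤ 1 * (2 * Real.exp (|s0| * T)) *
            (C * Real.exp ((K - 1) * (u + T) + (K - 1 / 2) * LAL.ell O q)) := by
            gcongr
        _ = _ := by rw [one_mul]
    calc ‖EG E b g T S u‖ ≤ ∑ j ∈ Finset.Icc 1 ⌊Real.exp T⌋₊,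
          ‖(aT g T j : ℂ) * LAL.vE E b j * LAL.DE E S (u + Real.log j)‖ := norm_sum_le _ _
      _ ≤ ∑ j ∈ Finset.Icc 1 ⌊Real.exp T⌋₊, 2 * Real.exp (|s0| * T) *
          (C * Real.exp ((K - 1) * (u + T) + (K - 1 / 2) * LAL.ell O q)) :=
          Finset.sum_le_sum hterm
      _ = (⌊Real.exp T⌋₊ : ℝ) * (2 * Real.exp (|s0| * T) *
          (C * Real.exp ((K - 1) * (u + T) + (K - 1 / 2) * LAL.ell O q))) := by
          rw [Finset.sum_const, Nat.card_Icc, nsmul_eq_mul]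
          simp
      _ ≤ Real.exp T * (2 * Real.exp (|s0| * T) *
          (C * Real.exp ((K - 1) * (u + T) + (K - 1 / 2) * LAL.ell O q))) := by
          gcongr
          exact Nat.floor_le (Real.exp_pos T).le
      _ = 2 * C * (Real.exp T * Real.exp (|s0| * T) *
          Real.exp ((K - 1) * (u + T) + (K - 1 / 2) * LAL.ell O q)) := by ring
      _ = 2 * C * Real.exp ((1 + |s0|) * T + (K - 1) * (u + T) +
          (K - 1 / 2) * LAL.ell O q) := by
          rw [← Real.exp_add, ← Real.exp_add]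
          congr 2
          ring

/-- the tail `u ≤ -2 log Q`: functional equation -/
theorem EG_far_pr (hn : 2 ≤ n) (hO : GLL.Ord O) {k : Mt n → ℂ} (hk : Sph2 k) {φ : ℝ → ℂ} {A : ℝ}
    (hφ : TF φ A) {θ : ℝ} (hθ : 0 < θ) (hθ1 : θ < 1) (c2 S₀ : ℝ) (K : ℕ) : ∃ Q0 : ℝ, 1 ≤ Q0 ∧
    ∀ Q : ℝ, Q0 ≤ Q → ∀ (q : ℕ) [NeZero q] (ρ : O →+* Mq n q), LAL.QOK O q ρ →
    (q : ℝ) ≤ c2 * Q → ∀ (E : LAL.Eig ρ) (g : ℝ → ℝ) (ε : ℝ), CutG g ε → ∀ b : ℕ, 0 < b →
    ∀ s : ℂ, |s.re| ≤ S₀ →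
      IntegrableOn (fun u : ℝ => ‖EG E b g (θ * Real.log Q) (Phi φ k) u * Complex.exp (s * u)‖)
        (Set.Iic (-(2 * Real.log Q))) ∧
      ∫ u in Set.Iic (-(2 * Real.log Q)),
        ‖EG E b g (θ * Real.log Q) (Phi φ k) u * Complex.exp (s * u)‖ ≤ (Q ^ K)⁻¹ := by
  have hcs : HasCompactSupport φ := by
    refine HasCompactSupport.of_support_subset_isCompact (isCompact_Icc (a := -A) (b := A)) ?_
    intro v hv
    exact abs_le.1 (hφ.supp v hv)
  obtain ⟨hΦ, hΦ', -⟩ := GLL.IF_Phi hn k hk φ hφ.smooth hcs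
  have hd : 0 < dO O := (IF_vp hn hO).2.1
  have hd1 : (1 : ℝ) ≤ (dO O : ℕ) := by exact_mod_cast hd
  obtain ⟨s1, hs10, hm7⟩ := m7_EG hn hO hΦ hΦ'
  obtain ⟨K', hK'⟩ := exists_nat_ge (max (2 + |S₀|)
    (1 + (s1 * θ + 1 / 2 + 2 * |S₀| + K + 1) / (1 - θ)))
  have hK1 : 2 + |S₀| ≤ (K' : ℝ) := (le_max_left _ _).trans hK'
  have hK2 : 1 + (s1 * θ + 1 / 2 + 2 * |S₀| + K + 1) / (1 - θ) ≤ (K' : ℝ) :=
    (le_max_right _ _).trans hK'
  have hθ' : 0 < 1 - θ := by linarith
  have hS0 : 0 ≤ |S₀| := abs_nonneg _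
  have hK3 : s1 * θ + 1 / 2 + 2 * |S₀| + K + 1 ≤ (K' - 1) * (1 - θ) := by
    rw [← div_le_iff₀ hθ']
    linarith
  have hK4 : 1 ≤ K' := by
    have : (1 : ℝ) ≤ K' := by linarith
    exact_mod_cast this
  obtain ⟨C, hC0, hC⟩ := hm7 K' hK4
  set c3 : ℝ := Real.log (max c2 1) + Real.log (dO O) with hc3
  have hc3' : 0 ≤ c3 :=
    add_nonneg (Real.log_nonneg (le_max_right _ _)) (Real.log_nonneg hd1)
  refine ⟨max (Real.exp (c3 / (1 - θ))) (C * Real.exp ((K' - 1 / 2) * c3)), ?_, ?_⟩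
  · refine le_trans ?_ (le_max_left _ _)
    exact Real.one_le_exp (by positivity)
  intro Q hQ q _ ρ h hq E g ε hg b hb s hs
  have hQ1 : Real.exp (c3 / (1 - θ)) ≤ Q := (le_max_left _ _).trans hQ
  have hQ2 : C * Real.exp ((K' - 1 / 2) * c3) ≤ Q := (le_max_right _ _).trans hQ
  have hQ0 : 0 < Q := lt_of_lt_of_le (Real.exp_pos _) hQ1
  have hQ11 : 1 ≤ Q := le_trans (Real.one_le_exp (by positivity)) hQ1
  set L : ℝ := Real.log Q with hL
  have hL0 : 0 ≤ L := Real.log_nonneg hQ11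
  have hL1 : c3 ≤ (1 - θ) * L := by
    have h1 : c3 / (1 - θ) ≤ L := by
      rw [hL, Real.le_log_iff_exp_le hQ0]
      exact hQ1
    rwa [div_le_iff₀ hθ', mul_comm] at h1
  have hq0 : (0 : ℝ) < q := by
    have := NeZero.pos q
    exact_mod_cast this
  have hell : LAL.ell O q ≤ L + c3 := by
    have h1 : (q : ℝ) ≤ max c2 1 * Q :=
      hq.trans (mul_le_mul_of_nonneg_right (le_max_left _ _) hQ0.le)
    have hm : (0 : ℝ) < max c2 1 := lt_of_lt_of_le one_pos (le_max_right _ _)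
    have h2 : Real.log q ≤ Real.log (max c2 1 * Q) := Real.log_le_log hq0 h1
    rw [Real.log_mul hm.ne' hQ0.ne'] at h2
    unfold LAL.ell
    rw [Real.log_mul hq0.ne' (by linarith), hc3]
    linarith
  obtain ⟨hcont, hbd⟩ := hC q ρ h E g ε hg b hb (θ * L) (by positivity)
  have hKr : (1 : ℝ) ≤ K' := by exact_mod_cast hK4
  have hpt : ∀ u ∈ Set.Iic (-(2 * L)), ‖EG E b g (θ * L) (Phi φ k) u * Complex.exp (s * u)‖ ≤
      (C * Real.exp ((K' - 1 / 2) * c3) * Real.exp (-((K + 1) * L)) * Real.exp (2 * L)) *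
        Real.exp u := by
    intro u hu
    have hu' : u ≤ -(2 * L) := hu
    have h1 := hbd u (by nlinarith)
    rw [norm_mul, Complex.norm_exp]
    have h2 : (s * u).re ≤ |S₀| * (-u) := by
      rw [Complex.mul_re, Complex.ofReal_re, Complex.ofReal_im, mul_zero, sub_zero]
      have h3 : s.re * u ≤ |s.re * u| := le_abs_self _
      rw [abs_mul, abs_of_nonpos (show u ≤ 0 by linarith)] at h3
      have h4 : |s.re| ≤ |S₀| := hs.trans (le_abs_self _)
      have h5 : |s.re| * -u ≤ |S₀| * -u := mul_le_mul_of_nonneg_right h4 (by linarith)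
      linarith
    calc ‖EG E b g (θ * L) (Phi φ k) u‖ * Real.exp (s * u).re
        ≤ (C * Real.exp (s1 * (θ * L) + (K' - 1) * (u + θ * L) +
            (K' - 1 / 2) * LAL.ell O q)) * Real.exp (|S₀| * (-u)) := by
          gcongr
      _ = C * Real.exp (s1 * (θ * L) + (K' - 1) * (u + θ * L) +
            (K' - 1 / 2) * LAL.ell O q + |S₀| * (-u)) := by
          rw [mul_assoc, ← Real.exp_add]
      _ ≤ C * Real.exp ((K' - 1 / 2) * c3 + -((K + 1) * L) + 2 * L + u) := by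
          apply mul_le_mul_of_nonneg_left _ hC0
          rw [Real.exp_le_exp]
          have h6 : ((K' : ℝ) - 1 / 2) * LAL.ell O q ≤ (K' - 1 / 2) * (L + c3) :=
            mul_le_mul_of_nonneg_left hell (by linarith)
          have h7 : (s1 * θ + 1 / 2 + 2 * |S₀| + K + 1) * L ≤ (K' - 1) * (1 - θ) * L :=
            mul_le_mul_of_nonneg_right hK3 hL0
          have h8 : ((K' : ℝ) - 1 - |S₀| - 1) * (u + 2 * L) ≤ 0 :=
            mul_nonpos_of_nonneg_of_nonpos (by linarith) (by linarith)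
          nlinarith
      _ = _ := by
          rw [Real.exp_add, Real.exp_add, Real.exp_add]
          ring
  have hint : IntegrableOn (fun u : ℝ =>
      (C * Real.exp ((K' - 1 / 2) * c3) * Real.exp (-((K + 1) * L)) * Real.exp (2 * L)) *
        Real.exp u) (Set.Iic (-(2 * L))) :=
    (integrableOn_exp_Iic _).const_mul _
  have hint' : IntegrableOn (fun u : ℝ =>
      ‖EG E b g (θ * L) (Phi φ k) u * Complex.exp (s * u)‖) (Set.Iic (-(2 * L))) := by
    refine Integrable.mono' hint ?_ ?_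
    · apply Continuous.aestronglyMeasurable
      fun_prop
    · refine (ae_restrict_iff' measurableSet_Iic).2 (ae_of_all _ fun u hu => ?_)
      rw [norm_norm]
      exact hpt u hu
  refine ⟨hint', ?_⟩
  calc ∫ u in Set.Iic (-(2 * L)), ‖EG E b g (θ * L) (Phi φ k) u * Complex.exp (s * u)‖
      ≤ ∫ u in Set.Iic (-(2 * L)),
          (C * Real.exp ((K' - 1 / 2) * c3) * Real.exp (-((K + 1) * L)) * Real.exp (2 * L)) *
          Real.exp u := setIntegral_mono_on hint' hint measurableSet_Iic hpt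
    _ = C * Real.exp ((K' - 1 / 2) * c3) * Real.exp (-((K + 1) * L)) * Real.exp (2 * L) *
          Real.exp (-(2 * L)) := by
        rw [integral_const_mul, integral_exp_Iic]
    _ = C * Real.exp ((K' - 1 / 2) * c3) * Real.exp (-((K + 1) * L)) := by
        rw [mul_assoc _ (Real.exp (2 * L)), ← Real.exp_add]
        simp
    _ ≤ Q * Real.exp (-((K + 1) * L)) :=
        mul_le_mul_of_nonneg_right hQ2 (Real.exp_pos _).le
    _ = (Q ^ K)⁻¹ := by
        have h9 : Real.exp (-((K + 1) * L)) = (Q ^ (K + 1))⁻¹ := by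
          rw [Real.exp_neg]
          congr 1
          rw [hL, ← Real.rpow_natCast, Real.rpow_def_of_pos hQ0]
          congr 1
          push_cast
          ring
        rw [h9, pow_succ, mul_inv]
        field_simp


end

end Pool.Agent.RZH

namespace Pool.Agent.RZH

theorem EG_far : type_of% @EG_far_pr := @EG_far_pr

end Pool.Agent.RZH
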