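import Pool.Agent.Lib_helper32.LAL.SDefs
import Pool.Agent.Lib_helper32.LALS.S_SB
import Pool.Agent.Lib_helper42.GLM.Defs
import Pool.Agent.Lib_helper75.RZG.Defs
import Pool.Agent.Lib_helper96.GLF.O_OC
import Pool.Agent.Lib_helper96.GLF.X_XA
import Pool.Agent.Lib_helper96.GLL.Defs
import Pool.Agent.Lib_helper96.GLL.DefsB
import Pool.Agent.Lib_helper96.LAL.Tr

/-!
# Project RZG, block X1: symmetry, finiteness, continuity
-/

set_option autoImplicit false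
set_option linter.unusedVariables false

namespace Pool.Agent.RZH

open MeasureTheory Matrix Complex Filter Topology Pool.Agent.GLL Pool.Agent.LAL
open scoped ENNReal ContDiff

noncomputable section

variable {n : ℕ} {O : Subring (Mt n)}

theorem x1_neg {β : Mt n → ℝ} (hβ : Bt β) (X : Mt n) : β (-X) = β X := by
  have h := hβ.tst.bi (-1) 1 (by simp) (by simp) X
  simp only [Matrix.mul_one, neg_mul, Matrix.one_mul] at h
  exact_mod_cast h

theorem x1_conj {Φ : Mt n → ℂ} {β : Mt n → ℝ} (hβ : Bt β) (Q z z' : ℝ) (x y Y h : Mt n)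
    (A A' D : AddSubgroup (Mt n)) (p : O × O) :
    s2T2 O Φ (fun X => (β X : ℂ)) Q z' z x y Y h A A' D p =
      (starRingEnd ℂ) (s2T2 O Φ (fun X => (β X : ℂ)) Q z z' x y Y h A' A D p.swap) := by
  classical
  obtain ⟨a, a'⟩ := p
  unfold s2T2
  simp only [Prod.swap_prod_mk]
  have hiff : ((a : Mt n) ∈ A ∧ (a' : Mt n) ∈ A' ∧ ∃ δ ∈ D, (a : Mt n) - a' = h * δ) ↔
      ((a' : Mt n) ∈ A' ∧ (a : Mt n) ∈ A ∧ ∃ δ ∈ D, (a' : Mt n) - a = h * δ) := by
    constructor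
    · rintro ⟨h1, h2, δ, h3, h4⟩
      refine ⟨h2, h1, -δ, D.neg_mem h3, ?_⟩
      rw [mul_neg, ← h4, neg_sub]
    · rintro ⟨h1, h2, δ, h3, h4⟩
      refine ⟨h2, h1, -δ, D.neg_mem h3, ?_⟩
      rw [mul_neg, ← h4, neg_sub]
  by_cases hc : ((a : Mt n) ∈ A ∧ (a' : Mt n) ∈ A' ∧ ∃ δ ∈ D, (a : Mt n) - a' = h * δ)
  · rw [if_pos hc, if_pos (hiff.mp hc)]
    unfold s2W2
    simp only [map_mul, Complex.conj_conj, Complex.conj_ofReal]
    have e : Q ^ (-(1 / (n : ℝ))) • (Y⁻¹ * h⁻¹ * ((a' : Mt n) - a) * y) =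
        -(Q ^ (-(1 / (n : ℝ))) • (Y⁻¹ * h⁻¹ * ((a : Mt n) - a') * y)) := by
      rw [← neg_sub (a : Mt n) (a' : Mt n), mul_neg, neg_mul, smul_neg]
    rw [e, x1_neg hβ]
    ring
  · rw [if_neg hc, if_neg (fun h' => hc (hiff.mpr h')), map_zero]

theorem x1_SW {Φ : Mt n → ℂ} {β : Mt n → ℝ} (hβ : Bt β) (b₀ : ℕ) (Q u u' : ℝ) (A A' : Idl O)
    (x y Y : Mt n) :
    SW b₀ β Φ Q u' u A A' x y Y = (starRingEnd ℂ) (SW b₀ β Φ Q u u' A' A x y Y) := by
  classical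
  unfold SW
  rw [map_sum]
  refine Finset.sum_congr rfl fun D _ => ?_
  rw [map_mul, Complex.conj_tsum]
  congr 1
  · rw [← Complex.ofReal_intCast, Complex.conj_ofReal]
  refine tsum_congr fun h => ?_
  by_cases h0 : h = 0
  · rw [if_pos h0, if_pos h0, map_zero]
  · rw [if_neg h0, if_neg h0, Complex.conj_tsum, ← (Equiv.prodComm O O).tsum_eq]
    exact tsum_congr fun p => x1_conj hβ Q _ _ x y Y h A.1 A'.1 (tS D) p.swap

/-- the sum is hermitian -/
theorem Gt_symm_pr (hn : 2 ≤ n) (hO : GLL.Ord O) {Φ : Mt n → ℂ} (hΦ : Tst Φ) {β : Mt n → ℝ}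
    (hβ : Bt β) (b₀ b : ℕ) (hb₀ : 0 < b₀) (c : Idl O → ℝ) {Q : ℝ} (hQ : 0 < Q) (u u' : ℝ) (R : ℝ)
    {x y Y : Mt n} (hx : x ∈ K1 n R) (hy : y ∈ K1 n R) (hY : Y ∈ K1 n R) :
    Gt b₀ b β Φ c Q u' u x y Y = (starRingEnd ℂ) (Gt b₀ b β Φ c Q u u' x y Y) := by
  classical
  unfold Gt
  rw [map_sum, Finset.sum_comm]
  refine Finset.sum_congr rfl fun A' _ => ?_
  rw [map_sum]
  refine Finset.sum_congr rfl fun A _ => ?_
  rw [map_mul, Complex.conj_ofReal, x1_SW hβ b₀ Q u u' A A' x y Y, mul_comm (c A) (c A')]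

/-- the inverses are bounded on the compact set -/
theorem x1_inv (C ε : ℝ) (hε : 0 < ε) : ∃ B : ℝ, 0 ≤ B ∧ ∀ X : Mt n, nr X ≤ C → ε ≤ |X.det| →
    nr X⁻¹ ≤ B := by
  have hK : IsCompact {X : Mt n | nr X ≤ C ∧ ε ≤ |X.det|} := by
    have h1 : IsCompact {X : Mt n | nr X ≤ C} := GLL.X.cpt_ball C
    have h2 : IsClosed {X : Mt n | ε ≤ |X.det|} :=
      isClosed_le continuous_const (Continuous.matrix_det continuous_id).abs
    exact h1.inter_right h2
  have hc : ContinuousOn (fun X : Mt n => nr X⁻¹) {X : Mt n | nr X ≤ C ∧ ε ≤ |X.det|} := by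
    have h1 : (fun X : Mt n => X⁻¹) = fun X : Mt n => (X.det)⁻¹ • X.adjugate := by
      funext X
      rw [Matrix.inv_def, Ring.inverse_eq_inv']
    have h2 : ContinuousOn (fun X : Mt n => X⁻¹) {X : Mt n | nr X ≤ C ∧ ε ≤ |X.det|} := by
      rw [h1]
      refine ContinuousOn.smul (ContinuousOn.inv₀
        (Continuous.matrix_det continuous_id).continuousOn ?_)
        (Continuous.matrix_adjugate continuous_id).continuousOn
      intro X hX h0
      have h3 := hX.2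
      simp only [id] at h0
      rw [h0, abs_zero] at h3
      linarith
    exact GLL.X.nr_cont.comp_continuousOn h2
  obtain ⟨B, hB⟩ := hK.bddAbove_image hc
  refine ⟨max B 0, le_max_right _ _, fun X h1 h2 => ?_⟩
  exact (hB (Set.mem_image_of_mem _ ⟨h1, h2⟩)).trans (le_max_left _ _)

theorem x1_det {n : ℕ} {R : ℝ} {x : Mt n} (hx : x ∈ K1 n R) : x.det ≠ 0 := by
  intro h
  have h1 := hx.1
  rw [h] at h1
  simp at h1

theorem x1_nrneg (X : Mt n) : nr (-X) = nr X := by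
  have := GLL.X.nr_smul (-1) X
  simpa using this

/-- the bound for `h` -/
theorem x1_hb (h d X y Y : Mt n) (q P R B : ℝ) (hq : 0 < q) (hX : X = q • (Y⁻¹ * h⁻¹ * d * y))
    (hXd : X.det ≠ 0) (hYd : Y.det ≠ 0) (hhd : h.det ≠ 0) (hd : nr d ≤ 2 * P) (hy : nr y ≤ R)
    (hXi : nr X⁻¹ ≤ B) (hYi : nr Y⁻¹ ≤ R) : nr h ≤ q * (2 * P) * R * B * R := by
  have hXu : IsUnit X.det := isUnit_iff_ne_zero.mpr hXd
  have hYu : IsUnit Y.det := isUnit_iff_ne_zero.mpr hYd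
  have hhu : IsUnit h.det := isUnit_iff_ne_zero.mpr hhd
  have e : h = q • (d * y) * X⁻¹ * Y⁻¹ := by
    have e1 : h * (Y * X) = q • (d * y) := by
      rw [hX, Matrix.mul_smul, Matrix.mul_smul]
      congr 1
      calc h * (Y * (Y⁻¹ * h⁻¹ * d * y)) = h * ((Y * Y⁻¹) * h⁻¹ * d * y) := by
            simp only [Matrix.mul_assoc]
        _ = (h * h⁻¹) * (d * y) := by
            rw [Matrix.mul_nonsing_inv Y hYu, Matrix.one_mul]
            simp only [Matrix.mul_assoc]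
        _ = d * y := by
            rw [Matrix.mul_nonsing_inv _ hhu, Matrix.one_mul]
    rw [← e1]
    calc h = h * (Y * (X * X⁻¹) * Y⁻¹) := by
          rw [Matrix.mul_nonsing_inv X hXu, Matrix.mul_one, Matrix.mul_nonsing_inv Y hYu,
            Matrix.mul_one]
      _ = h * (Y * X) * X⁻¹ * Y⁻¹ := by simp only [Matrix.mul_assoc]
  have hR : 0 ≤ R := (GLL.X.nr_nonneg y).trans hy
  have hP0 : 0 ≤ 2 * P := (GLL.X.nr_nonneg _).trans hd
  have hB : 0 ≤ B := (GLL.X.nr_nonneg _).trans hXi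
  have h7 : nr (q • (d * y)) ≤ q * (2 * P * R) := by
    rw [GLL.X.nr_smul, abs_of_pos hq]
    refine mul_le_mul_of_nonneg_left ((GLL.X.nr_mul _ _).trans ?_) hq.le
    exact mul_le_mul hd hy (GLL.X.nr_nonneg _) hP0
  have h8 : nr (q • (d * y) * X⁻¹) ≤ q * (2 * P * R) * B :=
    (GLL.X.nr_mul _ _).trans (mul_le_mul h7 hXi (GLL.X.nr_nonneg _) (by positivity))
  have h9 : nr (q • (d * y) * X⁻¹ * Y⁻¹) ≤ q * (2 * P * R) * B * R :=
    (GLL.X.nr_mul _ _).trans (mul_le_mul h8 hYi (GLL.X.nr_nonneg _) (by positivity))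
  rw [← e] at h9
  linarith

/-- all sums are finite, uniformly for `u`, `u'` in a compact set and `x`, `y`, `Y` in `K1` -/
theorem SW_fin_pr (hn : 2 ≤ n) (hO : GLL.Ord O) {Φ : Mt n → ℂ} (hΦ : Tst Φ) {β : Mt n → ℝ}
    (hβ : Bt β) (R T Q : ℝ) (hQ : 0 < Q) : ∃ (H : Finset O) (S : Finset (O × O)),
      ∀ u u' : ℝ, |u| ≤ T → |u'| ≤ T → ∀ x ∈ K1 n R, ∀ y ∈ K1 n R, ∀ Y ∈ K1 n R,
      (∀ h : O, h ≠ 0 → h ∉ H → ∀ p : O × O, s2W2 Φ (fun X => (β X : ℂ)) Q (Real.exp (u / n))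
        (Real.exp (u' / n)) x y Y h p.1 p.2 = 0) ∧
      ∀ p : O × O, p ∉ S → ∀ h : O, h ≠ 0 → s2W2 Φ (fun X => (β X : ℂ)) Q (Real.exp (u / n))
        (Real.exp (u' / n)) x y Y h p.1 p.2 = 0 := by
  classical
  obtain ⟨C0, hC0⟩ := IF_ball hn hO
  obtain ⟨CΦ, hCΦ⟩ := hΦ.supp
  obtain ⟨Cβ, hCβ⟩ := hβ.tst.supp
  obtain ⟨ε, hε, hdet⟩ := hβ.tst.det
  obtain ⟨B, hB0, hB⟩ := x1_inv (n := n) Cβ ε hε
  have hn0 : (0 : ℝ) < n := by
    have : 0 < n := by omega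
    exact_mod_cast this
  set P : ℝ := R ^ 2 * (max CΦ 0 * Real.exp (T / n)) with hP
  set q : ℝ := Q ^ (-(1 / (n : ℝ))) with hq
  have hq0 : 0 < q := Real.rpow_pos_of_pos hQ _
  set P2 : ℝ := q * (2 * P) * R * B * R with hP2
  have hf1 := (hC0 (max 1 P) (le_max_left _ _)).1
  have hf2 := (hC0 (max 1 P2) (le_max_left _ _)).1
  -- the elements `a`
  have key1 : ∀ u : ℝ, |u| ≤ T → ∀ x ∈ K1 n R, ∀ y ∈ K1 n R, ∀ a : O,
      Φ (Real.exp (u / n) • (x⁻¹ * a * y)) ≠ 0 → nr (a : Mt n) ≤ P := by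
    intro u hu x hx y hy a ha
    have hxd := x1_det hx
    have hyd := x1_det hy
    have hxu : IsUnit x.det := isUnit_iff_ne_zero.mpr hxd
    have hxi : (x⁻¹).det ≠ 0 := (Matrix.isUnit_nonsing_inv_det x hxu).ne_zero
    have h3 : nr (x⁻¹)⁻¹ ≤ R := by
      rw [Matrix.nonsing_inv_nonsing_inv x hxu]
      exact hx.2.1
    have hs : 0 < Real.exp (u / n) := Real.exp_pos _
    have h4 := sb_key x⁻¹ y (a : Mt n) hxi hyd hs h3 hy.2.2 (le_max_right CΦ 0)
      ((hCΦ _ ha).trans (le_max_left CΦ 0))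
    refine h4.trans ?_
    rw [hP, mul_div_assoc]
    have h5 : max CΦ 0 / Real.exp (u / n) ≤ max CΦ 0 * Real.exp (T / n) := by
      rw [div_eq_mul_inv, ← Real.exp_neg]
      refine mul_le_mul_of_nonneg_left (Real.exp_le_exp.mpr ?_) (le_max_right _ _)
      rw [← neg_div]
      have := (abs_le.mp hu).1
      exact div_le_div_of_nonneg_right (by linarith) hn0.le
    exact mul_le_mul_of_nonneg_left h5 (sq_nonneg R)
  have key2 : ∀ u u' : ℝ, |u| ≤ T → |u'| ≤ T → ∀ x ∈ K1 n R, ∀ y ∈ K1 n R, ∀ Y ∈ K1 n R,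
      ∀ h a a' : O, h ≠ 0 → s2W2 Φ (fun X => (β X : ℂ)) Q (Real.exp (u / n))
        (Real.exp (u' / n)) x y Y h a a' ≠ 0 →
      nr (a : Mt n) ≤ P ∧ nr (a' : Mt n) ≤ P ∧ nr (h : Mt n) ≤ P2 := by
    intro u u' hu hu' x hx y hy Y hY h a a' h0 hne
    unfold s2W2 at hne
    have h1 : Φ (Real.exp (u / n) • (x⁻¹ * a * y)) ≠ 0 := by
      intro hz
      rw [hz, zero_mul, zero_mul] at hne
      exact hne rfl
    have h2 : Φ (Real.exp (u' / n) • (x⁻¹ * a' * y)) ≠ 0 := by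
      intro hz
      rw [hz, map_zero, mul_zero, zero_mul] at hne
      exact hne rfl
    have h3 : ((β (Q ^ (-(1 / (n : ℝ))) • (Y⁻¹ * (h : Mt n)⁻¹ * ((a : Mt n) - a') * y)) : ℝ) : ℂ) ≠ 0 := by
      intro hz
      refine hne ?_
      show _ * ((β (Q ^ (-(1 / (n : ℝ))) • (Y⁻¹ * (h : Mt n)⁻¹ * ((a : Mt n) - a') * y)) : ℝ) : ℂ) = 0
      rw [hz, mul_zero]
    have ha := key1 u hu x hx y hy a h1
    have ha' := key1 u' hu' x hx y hy a' h2
    refine ⟨ha, ha', ?_⟩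
    set X : Mt n := q • (Y⁻¹ * (h : Mt n)⁻¹ * ((a : Mt n) - a') * y) with hX
    have h4 : nr X ≤ Cβ := hCβ X h3
    have h5 : ε ≤ |X.det| := hdet X h3
    have h6 : nr X⁻¹ ≤ B := hB X h4 h5
    have hXd : X.det ≠ 0 := by
      intro hz
      rw [hz, abs_zero] at h5
      linarith
    have hhd : (h : Mt n).det ≠ 0 := fun hz => h0 (Subtype.ext (hO.div h h.2 hz))
    have hs : nr ((a : Mt n) - (a' : Mt n)) ≤ 2 * P := by
      rw [sub_eq_add_neg]
      refine (GLL.X.nr_add _ _).trans ?_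
      rw [x1_nrneg]
      linarith
    exact x1_hb (h : Mt n) ((a : Mt n) - (a' : Mt n)) X y Y q P R B hq0 hX hXd (x1_det hY) hhd hs
      hy.2.1 h6 hY.2.2
  refine ⟨hf2.toFinset, hf1.toFinset ×ˢ hf1.toFinset, fun u u' hu hu' x hx y hy Y hY => ⟨?_, ?_⟩⟩
  · intro h h0 hh p
    by_contra hne
    have h1 := (key2 u u' hu hu' x hx y hy Y hY h p.1 p.2 h0 hne).2.2
    exact hh (hf2.mem_toFinset.mpr (h1.trans (le_max_right _ _)))
  · intro p hp h h0
    by_contra hne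
    have h1 := key2 u u' hu hu' x hx y hy Y hY h p.1 p.2 h0 hne
    refine hp (Finset.mem_product.mpr ⟨?_, ?_⟩)
    · exact hf1.mem_toFinset.mpr (h1.1.trans (le_max_right _ _))
    · exact hf1.mem_toFinset.mpr (h1.2.1.trans (le_max_right _ _))

/-- the finite form of `SW` -/
theorem x1_fin {Φ : Mt n → ℂ} {β : Mt n → ℝ} (b₀ : ℕ) (Q u u' : ℝ) (A A' : Idl O)
    (x y Y : Mt n) (H : Finset O) (S : Finset (O × O))
    (h1 : ∀ h : O, h ≠ 0 → h ∉ H → ∀ p : O × O, s2W2 Φ (fun X => (β X : ℂ)) Q (Real.exp (u / n))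
        (Real.exp (u' / n)) x y Y h p.1 p.2 = 0)
    (h2 : ∀ p : O × O, p ∉ S → ∀ h : O, h ≠ 0 → s2W2 Φ (fun X => (β X : ℂ)) Q (Real.exp (u / n))
        (Real.exp (u' / n)) x y Y h p.1 p.2 = 0) :
    SW b₀ β Φ Q u u' A A' x y Y = (open scoped Classical in
      ∑ D ∈ PI (tr O) b₀, (mob (tr O) b₀ D : ℂ) * ∑ h ∈ H, if h = 0 then 0 else
        ∑ p ∈ S, s2T2 O Φ (fun X => (β X : ℂ)) Q (Real.exp (u / n)) (Real.exp (u' / n)) x y Y h
          A.1 A'.1 (tS D) p) := by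
  classical
  unfold SW
  refine Finset.sum_congr rfl fun D _ => ?_
  congr 1
  have h3 : ∀ h : O, h ≠ 0 → ∀ p : O × O, p ∉ S →
      s2T2 O Φ (fun X => (β X : ℂ)) Q (Real.exp (u / n)) (Real.exp (u' / n)) x y Y h
          A.1 A'.1 (tS D) p = 0 := by
    intro h h0 p hp
    unfold s2T2
    split_ifs
    · exact h2 p hp h h0
    · rfl
  rw [tsum_eq_sum (s := H)]
  · refine Finset.sum_congr rfl fun h _ => ?_
    by_cases h0 : h = 0
    · rw [if_pos h0, if_pos h0]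
    · rw [if_neg h0, if_neg h0]
      exact tsum_eq_sum fun p hp => h3 h h0 p hp
  · intro h hh
    by_cases h0 : h = 0
    · rw [if_pos h0]
    · rw [if_neg h0]
      have h4 : ∀ p : O × O, s2T2 O Φ (fun X => (β X : ℂ)) Q (Real.exp (u / n))
          (Real.exp (u' / n)) x y Y h A.1 A'.1 (tS D) p = 0 := by
        intro p
        unfold s2T2
        split_ifs
        · exact h1 h h0 hh p
        · rfl
      rw [tsum_congr h4, tsum_zero]

theorem Gt_cont_pr (hn : 2 ≤ n) (hO : GLL.Ord O) {Φ : Mt n → ℂ} (hΦ : Tst Φ) {β : Mt n → ℝ}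
    (hβ : Bt β) (b₀ b : ℕ) (c : Idl O → ℝ) {Q : ℝ} (hQ : 0 < Q) (R : ℝ)
    {x y Y : Mt n} (hx : x ∈ K1 n R) (hy : y ∈ K1 n R) (hY : Y ∈ K1 n R) :
    Continuous (fun p : ℝ × ℝ => Gt b₀ b β Φ c Q p.1 p.2 x y Y) := by
  classical
  have hΦc : Continuous Φ := hΦ.smooth.continuous
  rw [continuous_iff_continuousAt]
  intro p0
  set T : ℝ := max |p0.1| |p0.2| + 1 with hT
  obtain ⟨H, S, hHS⟩ := SW_fin_pr hn hO hΦ hβ R T Q hQ
  have hcont : Continuous fun p : ℝ × ℝ => ∑ A ∈ PI O b, ∑ A' ∈ PI O b,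
      ((c A * c A' : ℝ) : ℂ) * ∑ D ∈ PI (tr O) b₀, (mob (tr O) b₀ D : ℂ) *
        ∑ h ∈ H, if h = 0 then 0 else
        ∑ q ∈ S, s2T2 O Φ (fun X => (β X : ℂ)) Q (Real.exp (p.1 / n)) (Real.exp (p.2 / n)) x y Y h
          A.1 A'.1 (tS D) q := by
    refine continuous_finsetSum _ fun A _ => continuous_finsetSum _ fun A' _ => ?_
    refine continuous_const.mul (continuous_finsetSum _ fun D _ => ?_)
    refine continuous_const.mul (continuous_finsetSum _ fun h _ => ?_)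
    by_cases h0 : h = 0
    · simp only [if_pos h0]
      exact continuous_const
    · simp only [if_neg h0]
      refine continuous_finsetSum _ fun q _ => ?_
      unfold s2T2
      split_ifs
      · unfold s2W2
        refine ((hΦc.comp ?_).mul ((Complex.continuous_conj.comp (hΦc.comp ?_)))).mul
          continuous_const
        · exact (Real.continuous_exp.comp (continuous_fst.div_const _)).smul continuous_const
        · exact (Real.continuous_exp.comp (continuous_snd.div_const _)).smul continuous_const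
      · exact continuous_const
  refine hcont.continuousAt.congr ?_
  have hnhds : ∀ᶠ p : ℝ × ℝ in 𝓝 p0, |p.1| < T ∧ |p.2| < T := by
    have h1 : ∀ᶠ p : ℝ × ℝ in 𝓝 p0, |p.1| < T :=
      (continuous_fst.abs.continuousAt).eventually_lt continuousAt_const (by
        rw [hT]
        have := le_max_left |p0.1| |p0.2|
        linarith)
    have h2 : ∀ᶠ p : ℝ × ℝ in 𝓝 p0, |p.2| < T :=
      (continuous_snd.abs.continuousAt).eventually_lt continuousAt_const (by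
        rw [hT]
        have := le_max_right |p0.1| |p0.2|
        linarith)
    exact h1.and h2
  filter_upwards [hnhds] with p hp
  have hh := hHS p.1 p.2 hp.1.le hp.2.le x hx y hy Y hY
  unfold Gt
  refine Finset.sum_congr rfl fun A _ => Finset.sum_congr rfl fun A' _ => ?_
  rw [x1_fin b₀ Q p.1 p.2 A A' x y Y H S hh.1 hh.2]


end

end Pool.Agent.RZH

namespace Pool.Agent.RZH

theorem Gt_cont : type_of% @Gt_cont_pr := @Gt_cont_pr

theorem Gt_symm : type_of% @Gt_symm_pr := @Gt_symm_pr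

theorem SW_fin : type_of% @SW_fin_pr := @SW_fin_pr

end Pool.Agent.RZH
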