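import Pool.Agent.Lib_helper16.GLL.XDefs
import Pool.Agent.Lib_helper32.LAL.SD2
import Pool.Agent.Lib_helper32.LAL.SDefs
import Pool.Agent.Lib_helper32.LALS.S_SA1
import Pool.Agent.Lib_helper32.LALS.S_SC3
import Pool.Agent.Lib_helper32.LALS.S_SH4
import Pool.Agent.Lib_helper32.LALS.S_SN
import Pool.Agent.Lib_helper41.RZGF.R_X1
import Pool.Agent.Lib_helper41.RZGF.R_X2b
import Pool.Agent.Lib_helper42.GLM.Defs
import Pool.Agent.Lib_helper75.RZG.Defs
import Pool.Agent.Lib_helper94.LAL.S2D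
import Pool.Agent.Lib_helper96.GLF.X_XA
import Pool.Agent.Lib_helper96.GLF.X_XB
import Pool.Agent.Lib_helper96.GLF.X_XE1
import Pool.Agent.Lib_helper96.GLF.X_XE2
import Pool.Agent.Lib_helper96.GLF.X_XG
import Pool.Agent.Lib_helper96.GLL.Defs
import Pool.Agent.Lib_helper96.GLL.DefsB
import Pool.Agent.Lib_helper96.LAL.Tr

/-!
# Project RZG, block X2 (helper45): the off-diagonal as a double integral
-/

set_option autoImplicit false

namespace Pool.Agent.RZH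

open MeasureTheory Matrix Complex Filter Topology Pool.Agent.GLL Pool.Agent.LAL
open scoped ENNReal ContDiff

noncomputable section

variable {n : ℕ} {O : Subring (Mt n)}

theorem x2_cs {φ : ℝ → ℂ} {A : ℝ} (hφ : TF φ A) : HasCompactSupport φ :=
  HasCompactSupport.intro (K := Set.Icc (-A) A) isCompact_Icc fun v hv => by
    by_contra h
    exact hv (abs_le.1 (hφ.supp v h))

/-- the weight times a continuous function -/
theorem x2_om_int {L A₁ : ℝ} {κ : ℝ → ℝ} (hκ : CF L A₁ κ) (s : ℂ) {f : ℝ → ℂ}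
    (hf : Continuous f) : Integrable (fun u : ℝ => om n κ s u * f u) := by
  have e : (fun u : ℝ => om n κ s u * f u) = fun u : ℝ => (κ u : ℂ) * (Complex.exp (s * u) *
      ((Real.exp (u * (((n : ℝ) - 1) / 2)) : ℝ) : ℂ) * f u) := by
    funext u
    unfold om
    ring
  rw [e]
  have hc : Continuous fun u : ℝ => Complex.exp (s * u) *
      ((Real.exp (u * (((n : ℝ) - 1) / 2)) : ℝ) : ℂ) * f u := by
    refine Continuous.mul (Continuous.mul ?_ ?_) hf
    · exact Complex.continuous_exp.comp (continuous_const.mul Complex.continuous_ofReal)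
    · exact Complex.continuous_ofReal.comp (Real.continuous_exp.comp
        (continuous_id.mul continuous_const))
  have h1 : IntegrableOn (fun u : ℝ => Complex.exp (s * u) *
      ((Real.exp (u * (((n : ℝ) - 1) / 2)) : ℝ) : ℂ) * f u) (Set.Icc (-(2 * L)) A₁) :=
    hc.continuousOn.integrableOn_compact isCompact_Icc
  have h2 : IntegrableOn (fun u : ℝ => (κ u : ℂ) * (Complex.exp (s * u) *
      ((Real.exp (u * (((n : ℝ) - 1) / 2)) : ℝ) : ℂ) * f u)) (Set.Icc (-(2 * L)) A₁) := by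
    refine Integrable.bdd_mul (c := 1) h1 ?_ (ae_of_all _ fun u => ?_)
    · exact (Complex.measurable_ofReal.comp hκ.meas).aestronglyMeasurable
    · rw [Complex.norm_real, Real.norm_eq_abs]
      exact hκ.le u
  refine (integrableOn_iff_integrable_of_support_subset fun u hu => ?_).1 h2
  rw [Function.mem_support] at hu
  have h3 : κ u ≠ 0 := by
    intro h
    apply hu
    rw [h]
    simp
  have h4 := hκ.supp u h3
  exact ⟨h4.1.le, h4.2⟩

/-- the test function `Ψ` -/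
theorem x2_Psi (hn : 2 ≤ n) {k : Mt n → ℂ} (hk : Sph2 k) (φ : ℝ → ℂ) (κ : ℝ → ℝ) (s : ℂ)
    (X : Mt n) :
    Phi (ph φ κ s) k X = ∫ u : ℝ, om n κ s u * Phi φ k (Real.exp (u / n) • X) := by
  have hn0 : (n : ℝ) ≠ 0 := by
    have : n ≠ 0 := by omega
    exact_mod_cast this
  by_cases hX : X.det = 0
  · have h1 : ∀ u : ℝ, (Real.exp (u / n) • X).det = 0 := by
      intro u
      rw [det_smul, hX, mul_zero]
    simp only [Phi, hX, h1, if_true, mul_zero, integral_zero]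
  · have hpos : 0 < |X.det| := abs_pos.2 hX
    have hdet : ∀ u : ℝ, |(Real.exp (u / n) • X).det| = Real.exp u * |X.det| := by
      intro u
      rw [det_smul, Fintype.card_fin, abs_mul, abs_pow, abs_of_pos (Real.exp_pos _),
        ← Real.exp_nat_mul]
      congr 2
      field_simp
    have hne : ∀ u : ℝ, (Real.exp (u / n) • X).det ≠ 0 := by
      intro u
      rw [← abs_pos, hdet]
      exact mul_pos (Real.exp_pos _) hpos
    have hval : ∀ u : ℝ, om n κ s u * Phi φ k (Real.exp (u / n) • X) =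
        (κ u : ℂ) * Complex.exp (s * u) * φ (u + Real.log |X.det|) *
          (((|X.det| ^ (-(((n : ℝ) - 1) / 2)) : ℝ) : ℂ) * k X) := by
      intro u
      have h1 : (Real.exp (u * (((n : ℝ) - 1) / 2))) *
          (Real.exp u * |X.det|) ^ (-(((n : ℝ) - 1) / 2)) = |X.det| ^ (-(((n : ℝ) - 1) / 2)) := by
        rw [Real.mul_rpow (Real.exp_pos _).le hpos.le, ← Real.exp_mul, ← mul_assoc,
          ← Real.exp_add]
        have : u * (((n : ℝ) - 1) / 2) + u * (-(((n : ℝ) - 1) / 2)) = 0 := by ring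
        rw [this, Real.exp_zero, one_mul]
      unfold Phi om
      rw [if_neg (hne u), hdet, Real.log_mul (Real.exp_pos _).ne' hpos.ne', Real.log_exp,
        hk.scal _ _ (Real.exp_pos _) hX]
      have h2 : (((Real.exp (u * (((n : ℝ) - 1) / 2)) : ℝ)) : ℂ) *
          (((Real.exp u * |X.det|) ^ (-(((n : ℝ) - 1) / 2)) : ℝ) : ℂ) =
          ((|X.det| ^ (-(((n : ℝ) - 1) / 2)) : ℝ) : ℂ) := by
        rw [← Complex.ofReal_mul, h1]
      rw [← h2]
      ring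
    simp only [hval]
    rw [integral_mul_const]
    unfold Phi
    rw [if_neg hX]
    unfold ph
    ring

/-! ### The calculus of the double integrals -/

/-- `f` is integrable against the weights, with the value `v` -/
structure x2_G (n : ℕ) (κ : ℝ → ℝ) (s : ℂ) (f : ℝ → ℝ → ℂ) (v : ℂ) : Prop where
  i1 : ∀ u : ℝ, Integrable fun u' : ℝ => om n κ s u * (starRingEnd ℂ) (om n κ s u') * f u u'
  i2 : Integrable fun u : ℝ => ∫ u' : ℝ, om n κ s u * (starRingEnd ℂ) (om n κ s u') * f u u'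
  eq : DI n κ s f = v

theorem x2_G.congr {κ : ℝ → ℝ} {s : ℂ} {f g : ℝ → ℝ → ℂ} {v : ℂ} (h : x2_G n κ s f v)
    (hfg : ∀ u u' : ℝ, κ u ≠ 0 → κ u' ≠ 0 → f u u' = g u u') : x2_G n κ s g v := by
  have e : (fun u u' : ℝ => om n κ s u * (starRingEnd ℂ) (om n κ s u') * f u u') =
      fun u u' : ℝ => om n κ s u * (starRingEnd ℂ) (om n κ s u') * g u u' := by
    funext u u'
    by_cases h1 : κ u = 0
    · simp [om, h1]
    · by_cases h2 : κ u' = 0
      · simp [om, h2]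
      · rw [hfg u u' h1 h2]
  have e' : ∀ u u' : ℝ, om n κ s u * (starRingEnd ℂ) (om n κ s u') * f u u' =
      om n κ s u * (starRingEnd ℂ) (om n κ s u') * g u u' := fun u u' =>
    congrFun (congrFun e u) u'
  refine ⟨fun u => ?_, ?_, ?_⟩
  · simpa only [e'] using h.i1 u
  · simpa only [e'] using h.i2
  · rw [← h.eq]
    unfold DI
    simp only [e']

theorem x2_G.zero {κ : ℝ → ℝ} {s : ℂ} : x2_G n κ s (fun _ _ => 0) 0 :=
  ⟨fun u => by simp, by simp, by simp [DI]⟩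

theorem x2_G.unique {κ : ℝ → ℝ} {s : ℂ} {f : ℝ → ℝ → ℂ} {v : ℂ} (h : x2_G n κ s f v)
    (h0 : ∀ u u' : ℝ, κ u ≠ 0 → κ u' ≠ 0 → f u u' = 0) : v = 0 := by
  have h1 := h.congr (g := fun _ _ => 0) h0
  rw [← h1.eq]
  simp [DI]

theorem x2_G.add {κ : ℝ → ℝ} {s : ℂ} {f g : ℝ → ℝ → ℂ} {v w : ℂ} (hf : x2_G n κ s f v)
    (hg : x2_G n κ s g w) : x2_G n κ s (fun u u' => f u u' + g u u') (v + w) := by
  have e : ∀ u : ℝ, ∫ u' : ℝ, om n κ s u * (starRingEnd ℂ) (om n κ s u') * (f u u' + g u u') =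
      (∫ u' : ℝ, om n κ s u * (starRingEnd ℂ) (om n κ s u') * f u u') +
        ∫ u' : ℝ, om n κ s u * (starRingEnd ℂ) (om n κ s u') * g u u' := by
    intro u
    rw [← integral_add (hf.i1 u) (hg.i1 u)]
    refine integral_congr_ae (ae_of_all _ fun u' => ?_)
    simp only [mul_add]
  refine ⟨fun u => ?_, ?_, ?_⟩
  · simp only [mul_add]
    exact (hf.i1 u).add (hg.i1 u)
  · simp only [e]
    exact hf.i2.add hg.i2
  · unfold DI
    simp only [e]
    rw [integral_add hf.i2 hg.i2, ← hf.eq, ← hg.eq]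
    rfl

theorem x2_G.mul {κ : ℝ → ℝ} {s : ℂ} {f : ℝ → ℝ → ℂ} {v : ℂ} (hf : x2_G n κ s f v) (c : ℂ) :
    x2_G n κ s (fun u u' => c * f u u') (c * v) := by
  have e0 : ∀ u u' : ℝ, om n κ s u * (starRingEnd ℂ) (om n κ s u') * (c * f u u') =
      c * (om n κ s u * (starRingEnd ℂ) (om n κ s u') * f u u') := fun u u' => by ring
  refine ⟨fun u => ?_, ?_, ?_⟩
  · simp only [e0]
    exact (hf.i1 u).const_mul c
  · simp only [e0, integral_const_mul]
    exact hf.i2.const_mul c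
  · unfold DI
    simp only [e0, integral_const_mul]
    rw [← hf.eq]
    rfl

theorem x2_G.sum {κ : ℝ → ℝ} {s : ℂ} {ι : Type} (S : Finset ι) {f : ι → ℝ → ℝ → ℂ} {v : ι → ℂ}
    (h : ∀ i ∈ S, x2_G n κ s (f i) (v i)) :
    x2_G n κ s (fun u u' => ∑ i ∈ S, f i u u') (∑ i ∈ S, v i) := by
  classical
  induction S using Finset.induction_on with
  | empty => simpa using x2_G.zero
  | insert i S hi ih =>
    simp only [Finset.sum_insert hi]
    exact (h i (Finset.mem_insert_self _ _)).add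
      (ih fun j hj => h j (Finset.mem_insert_of_mem hj))

theorem x2_G.tsum {κ : ℝ → ℝ} {s : ℂ} {ι : Type} (S : Finset ι) {f : ι → ℝ → ℝ → ℂ} {v : ι → ℂ}
    (h : ∀ i, x2_G n κ s (f i) (v i))
    (h0 : ∀ i, i ∉ S → ∀ u u' : ℝ, κ u ≠ 0 → κ u' ≠ 0 → f i u u' = 0) :
    x2_G n κ s (fun u u' => ∑' i, f i u u') (∑' i, v i) ∧ ∑' i, v i = ∑ i ∈ S, v i := by
  have h1 : ∑' i, v i = ∑ i ∈ S, v i := tsum_eq_sum fun i hi => (h i).unique (h0 i hi)
  refine ⟨?_, h1⟩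
  rw [h1]
  refine (x2_G.sum S fun i _ => h i).congr fun u u' hu hu' => ?_
  rw [tsum_eq_sum fun i hi => h0 i hi u u' hu hu']

/-- the basic case -/
theorem x2_base (hn : 2 ≤ n) {k : Mt n → ℂ} (hk : Sph2 k) {φ : ℝ → ℂ} {A : ℝ} (hφ : TF φ A)
    {L A₁ : ℝ} {κ : ℝ → ℝ} (hκ : CF L A₁ κ) (s : ℂ) (X X' : Mt n) :
    x2_G n κ s (fun u u' => Phi φ k (Real.exp (u / n) • X) *
      (starRingEnd ℂ) (Phi φ k (Real.exp (u' / n) • X')))
      (Phi (ph φ κ s) k X * (starRingEnd ℂ) (Phi (ph φ κ s) k X')) := by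
  have hΦ : Tst (Phi φ k) := LAL.IF_TstPhi hn k hk φ hφ.smooth (x2_cs hφ)
  have hc : Continuous (Phi φ k) := hΦ.smooth.continuous
  have hc' : ∀ X : Mt n, Continuous fun u : ℝ => Phi φ k (Real.exp (u / n) • X) := by
    intro X
    have h1 : Continuous fun u : ℝ => Real.exp (u / n) • X :=
      (Real.continuous_exp.comp (continuous_id.div_const _)).smul continuous_const
    exact hc.comp h1
  have hi : ∀ X : Mt n, Integrable fun u : ℝ => om n κ s u * Phi φ k (Real.exp (u / n) • X) :=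
    fun X => x2_om_int hκ s (hc' X)
  have e0 : ∀ u u' : ℝ, om n κ s u * (starRingEnd ℂ) (om n κ s u') *
      (Phi φ k (Real.exp (u / n) • X) * (starRingEnd ℂ) (Phi φ k (Real.exp (u' / n) • X'))) =
      (om n κ s u * Phi φ k (Real.exp (u / n) • X)) *
        (starRingEnd ℂ) (om n κ s u' * Phi φ k (Real.exp (u' / n) • X')) := by
    intro u u'
    rw [map_mul]
    ring
  have hconj : Integrable fun u' : ℝ =>
      (starRingEnd ℂ) (om n κ s u' * Phi φ k (Real.exp (u' / n) • X')) :=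
    (Complex.conjLIE.toContinuousLinearEquiv.toContinuousLinearMap.integrable_comp (hi X'))
  have e1 : ∀ u : ℝ, ∫ u' : ℝ, om n κ s u * (starRingEnd ℂ) (om n κ s u') *
      (Phi φ k (Real.exp (u / n) • X) * (starRingEnd ℂ) (Phi φ k (Real.exp (u' / n) • X'))) =
      (om n κ s u * Phi φ k (Real.exp (u / n) • X)) *
        (starRingEnd ℂ) (Phi (ph φ κ s) k X') := by
    intro u
    simp only [e0]
    rw [integral_const_mul, integral_conj, ← x2_Psi hn hk φ κ s X']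
  refine ⟨fun u => ?_, ?_, ?_⟩
  · simp only [e0]
    exact hconj.const_mul _
  · simp only [e1]
    exact (hi X).mul_const _
  · unfold DI
    simp only [e1]
    rw [integral_mul_const, ← x2_Psi hn hk φ κ s X]

/-! ### The sums -/

theorem x2_W (hn : 2 ≤ n) {k : Mt n → ℂ} (hk : Sph2 k) {φ : ℝ → ℂ} {A : ℝ} (hφ : TF φ A)
    {L A₁ : ℝ} {κ : ℝ → ℝ} (hκ : CF L A₁ κ) (s : ℂ) (β : Mt n → ℂ) (Q : ℝ)
    (x y Y h a a' : Mt n) :
    x2_G n κ s (fun u u' => s2W2 (Phi φ k) β Q (Real.exp (u / n)) (Real.exp (u' / n)) x y Y h a a')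
      (s2W (Phi (ph φ κ s) k) β Q 1 x y Y h a a') := by
  have h1 := (x2_base hn hk hφ hκ s (x⁻¹ * a * y) (x⁻¹ * a' * y)).mul
    (β (Q ^ (-(1 / (n : ℝ))) • (Y⁻¹ * h⁻¹ * (a - a') * y)))
  have e : s2W (Phi (ph φ κ s) k) β Q 1 x y Y h a a' =
      β (Q ^ (-(1 / (n : ℝ))) • (Y⁻¹ * h⁻¹ * (a - a') * y)) *
      (Phi (ph φ κ s) k (x⁻¹ * a * y) * (starRingEnd ℂ) (Phi (ph φ κ s) k (x⁻¹ * a' * y))) := by
    unfold s2W
    rw [one_smul, one_smul]
    ring
  rw [e]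
  refine h1.congr fun u u' _ _ => ?_
  unfold s2W2
  ring

theorem x2_T (hn : 2 ≤ n) {k : Mt n → ℂ} (hk : Sph2 k) {φ : ℝ → ℂ} {A : ℝ} (hφ : TF φ A)
    {L A₁ : ℝ} {κ : ℝ → ℝ} (hκ : CF L A₁ κ) (s : ℂ) (β : Mt n → ℂ) (Q : ℝ)
    (x y Y h : Mt n) (B B' D : AddSubgroup (Mt n)) (p : O × O) :
    x2_G n κ s (fun u u' => s2T2 O (Phi φ k) β Q (Real.exp (u / n)) (Real.exp (u' / n)) x y Y h
        B B' D p)
      (s2T O (Phi (ph φ κ s) k) β Q 1 x y Y h B B' D p) := by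
  classical
  unfold s2T2 s2T
  by_cases hc : (p.1 : Mt n) ∈ B ∧ (p.2 : Mt n) ∈ B' ∧ ∃ δ ∈ D, (p.1 : Mt n) - p.2 = h * δ
  · simp only [if_pos hc]
    exact x2_W hn hk hφ hκ s β Q x y Y h p.1 p.2
  · simp only [if_neg hc]
    exact x2_G.zero


/-- the integrand of the switch for `Ψ` -/
def x2_V (b₀ : ℕ) (β : Mt n → ℝ) (S : Mt n → ℂ) (Q : ℝ) (A A' : Idl O) (x y Y : Mt n) : ℂ :=
  open scoped Classical in
  ∑ D ∈ PI (tr O) b₀, (mob (tr O) b₀ D : ℂ) * ∑' h : O, if h = 0 then 0 else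
    ∑' p : O × O, s2T O S (fun X => (β X : ℂ)) Q 1 x y Y h A.1 A'.1 (tS D) p

/-- pointwise, with finite sums which do not depend on `Y` -/
theorem x2_SW (hn : 2 ≤ n) (hO : GLL.Ord O) {k : Mt n → ℂ} (hk : Sph2 k) {φ : ℝ → ℂ} {A : ℝ}
    (hφ : TF φ A) {β : Mt n → ℝ} (hβ : Bt β) (R : ℝ) {Q L A₁ : ℝ} (hQ : 0 < Q) {κ : ℝ → ℝ}
    (hκ : CF L A₁ κ) (s : ℂ) : ∃ (H : Finset O) (S : Finset (O × O)), ∀ x ∈ K1 n R,
      ∀ y ∈ K1 n R, ∀ Y ∈ K1 n R, ∀ (b₀ : ℕ) (B B' : Idl O),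
      x2_G n κ s (fun u u' => SW b₀ β (Phi φ k) Q u u' B B' x y Y)
        (x2_V b₀ β (Phi (ph φ κ s) k) Q B B' x y Y) ∧
      x2_V b₀ β (Phi (ph φ κ s) k) Q B B' x y Y =
        ∑ D ∈ PI (tr O) b₀, (mob (tr O) b₀ D : ℂ) * ∑ h ∈ H,
          (open scoped Classical in if h = 0 then 0 else
            ∑ p ∈ S, s2T O (Phi (ph φ κ s) k) (fun X => (β X : ℂ)) Q 1 x y Y h B.1 B'.1
              (tS D) p) := by
  classical
  have hΦ : Tst (Phi φ k) := LAL.IF_TstPhi hn k hk φ hφ.smooth (x2_cs hφ)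
  obtain ⟨H, S, hHS⟩ := SW_fin hn hO hΦ hβ R (max (2 * L) |A₁|) Q hQ
  have hT : ∀ u : ℝ, κ u ≠ 0 → |u| ≤ max (2 * L) |A₁| := by
    intro u hu
    obtain ⟨h1, h2⟩ := hκ.supp u hu
    rw [abs_le]
    have h3 := le_max_left (2 * L) |A₁|
    have h4 := le_max_right (2 * L) |A₁|
    have h5 := le_abs_self A₁
    exact ⟨by linarith, by linarith⟩
  refine ⟨H, S, fun x hx y hy Y hY b₀ B B' => ?_⟩
  have hW0 : ∀ u u' : ℝ, κ u ≠ 0 → κ u' ≠ 0 →
      (∀ h : O, h ≠ 0 → h ∉ H → ∀ p : O × O, s2W2 (Phi φ k) (fun X => (β X : ℂ)) Q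
        (Real.exp (u / n)) (Real.exp (u' / n)) x y Y h p.1 p.2 = 0) ∧
      ∀ p : O × O, p ∉ S → ∀ h : O, h ≠ 0 → s2W2 (Phi φ k) (fun X => (β X : ℂ)) Q
        (Real.exp (u / n)) (Real.exp (u' / n)) x y Y h p.1 p.2 = 0 :=
    fun u u' hu hu' => hHS u u' (hT u hu) (hT u' hu') x hx y hy Y hY
  have hT0 : ∀ (D : Idl (tr O)) (h : O) (p : O × O) (u u' : ℝ),
      s2W2 (Phi φ k) (fun X => (β X : ℂ)) Q (Real.exp (u / n)) (Real.exp (u' / n)) x y Y h
        p.1 p.2 = 0 → s2T2 O (Phi φ k) (fun X => (β X : ℂ)) Q (Real.exp (u / n))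
        (Real.exp (u' / n)) x y Y h B.1 B'.1 (tS D) p = 0 := by
    intro D h p u u' h0
    unfold s2T2
    rw [h0]
    exact ite_self _
  -- the sums over the pairs
  have hp : ∀ (D : Idl (tr O)) (h : O), h ≠ 0 →
      x2_G n κ s (fun u u' => ∑' p : O × O, s2T2 O (Phi φ k) (fun X => (β X : ℂ)) Q
        (Real.exp (u / n)) (Real.exp (u' / n)) x y Y h B.1 B'.1 (tS D) p)
        (∑' p : O × O, s2T O (Phi (ph φ κ s) k) (fun X => (β X : ℂ)) Q 1 x y Y h B.1 B'.1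
          (tS D) p) ∧
      ∑' p : O × O, s2T O (Phi (ph φ κ s) k) (fun X => (β X : ℂ)) Q 1 x y Y h B.1 B'.1
          (tS D) p = ∑ p ∈ S, s2T O (Phi (ph φ κ s) k) (fun X => (β X : ℂ)) Q 1 x y Y h B.1 B'.1
          (tS D) p := by
    intro D h hh
    exact x2_G.tsum S (fun p => x2_T hn hk hφ hκ s (fun X => (β X : ℂ)) Q x y Y h B.1 B'.1
      (tS D) p) fun p hpS u u' hu hu' => hT0 D h p u u' ((hW0 u u' hu hu').2 p hpS h hh)
  -- the sums over `h`
  have hh : ∀ D : Idl (tr O),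
      x2_G n κ s (fun u u' => ∑' h : O, if h = 0 then 0 else ∑' p : O × O,
        s2T2 O (Phi φ k) (fun X => (β X : ℂ)) Q
        (Real.exp (u / n)) (Real.exp (u' / n)) x y Y h B.1 B'.1 (tS D) p)
        (∑' h : O, if h = 0 then 0 else ∑' p : O × O, s2T O (Phi (ph φ κ s) k)
          (fun X => (β X : ℂ)) Q 1 x y Y h B.1 B'.1 (tS D) p) ∧
      (∑' h : O, if h = 0 then 0 else ∑' p : O × O, s2T O (Phi (ph φ κ s) k)
          (fun X => (β X : ℂ)) Q 1 x y Y h B.1 B'.1 (tS D) p) =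
        ∑ h ∈ H, if h = 0 then 0 else ∑' p : O × O, s2T O (Phi (ph φ κ s) k)
          (fun X => (β X : ℂ)) Q 1 x y Y h B.1 B'.1 (tS D) p := by
    intro D
    refine x2_G.tsum H (fun h => ?_) fun h hhH u u' hu hu' => ?_
    · by_cases h0 : h = 0
      · simp only [if_pos h0]
        exact x2_G.zero
      · simp only [if_neg h0]
        exact (hp D h h0).1
    · by_cases h0 : h = 0
      · rw [if_pos h0]
      · rw [if_neg h0]
        have : ∀ p : O × O, s2T2 O (Phi φ k) (fun X => (β X : ℂ)) Q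
            (Real.exp (u / n)) (Real.exp (u' / n)) x y Y h B.1 B'.1 (tS D) p = 0 :=
          fun p => hT0 D h p u u' ((hW0 u u' hu hu').1 h h0 hhH p)
        simp only [this, tsum_zero]
  constructor
  · unfold SW x2_V
    exact x2_G.sum _ fun D _ => (hh D).1.mul _
  · unfold x2_V
    refine Finset.sum_congr rfl fun D _ => ?_
    rw [(hh D).2]
    congr 1
    refine Finset.sum_congr rfl fun h _ => ?_
    by_cases h0 : h = 0
    · rw [if_pos h0, if_pos h0]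
    · rw [if_neg h0, if_neg h0, (hp D h h0).2]

/-- almost all points of `F` are in `K1` -/
theorem x2_K1 (hn : 2 ≤ n) {F : Set (Mt n)} {R : ℝ} (hF : IsFG O F R) :
    ∀ᵐ Y ∂((X.hm n).restrict F), Y ∈ K1 n R := by
  have h1 : ∀ᵐ Y ∂((X.hm n).restrict F), |Y.det| = 1 :=
    ae_restrict_of_ae (X.hm_supp (by omega : 1 ≤ n))
  filter_upwards [h1, ae_restrict_mem hF.meas] with Y hY1 hYF
  obtain ⟨b1, b2⟩ := hF.bd Y hYF
  rw [X.hat_one hY1] at b1 b2
  exact ⟨hY1, b1, b2⟩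

theorem x2_int (hn : 2 ≤ n) (hO : GLL.Ord O) {β : Mt n → ℝ} (hβ : Bt β) {F : Set (Mt n)} {R : ℝ}
    (hF : IsFG O F R) (S : Mt n → ℂ) (Q : ℝ) (x y h : Mt n) (B B' D : AddSubgroup (Mt n))
    (p : O × O) : Integrable (fun Y => s2T O S (fun X => (β X : ℂ)) Q 1 x y Y h B B' D p)
      ((X.hm n).restrict F) := by
  classical
  unfold s2T
  by_cases hc : (p.1 : Mt n) ∈ B ∧ (p.2 : Mt n) ∈ B' ∧ ∃ δ ∈ D, (p.1 : Mt n) - p.2 = h * δ
  · simp only [if_pos hc]
    unfold s2W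
    refine Integrable.const_mul ?_ _
    obtain ⟨-, -, -, C, hC⟩ := Tst_rap hn hβ.tst
    have hβc : Continuous fun X : Mt n => (β X : ℂ) := hβ.tst.smooth.continuous
    have hfin := X.fd_fin hn hO hF.toIsFD
    have hfin' : IsFiniteMeasure ((X.hm n).restrict F) := ⟨by
      rw [Measure.restrict_apply_univ]
      exact hfin⟩
    refine Integrable.of_bound ?_ C (ae_of_all _ fun Y => hC _)
    refine (X.cont_aesm (by omega : 1 ≤ n) _ ?_).1.restrict
    have hcc : ContinuousOn (fun Y : Mt n => Y⁻¹ * h⁻¹ * ((p.1 : Mt n) - p.2) * y)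
        {x | x.det ≠ 0} :=
      ((X.inv_cont.mul continuousOn_const).mul continuousOn_const).mul continuousOn_const
    have hcc2 : ContinuousOn (fun Y : Mt n => (Q ^ (-(1 / (n : ℝ))) : ℝ) •
        (Y⁻¹ * h⁻¹ * ((p.1 : Mt n) - p.2) * y)) {x | x.det ≠ 0} :=
      (continuous_const_smul (Q ^ (-(1 / (n : ℝ))) : ℝ)).comp_continuousOn hcc
    exact hβc.comp_continuousOn hcc2
  · simp only [if_neg hc]
    exact integrable_zero _ _ _

theorem OF_exp_pr (hn : 2 ≤ n) (hO : GLL.Ord O) {k : Mt n → ℂ} (hk : Sph2 k) {φ : ℝ → ℂ} {A : ℝ}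
    (hφ : TF φ A) {β : Mt n → ℝ} (hβ : Bt β) (b₀ b : ℕ) (hb₀ : 0 < b₀) {F : Set (Mt n)} {R : ℝ}
    (hF : IsFG O F R) (c : Idl O → ℝ) {Q L A₁ : ℝ} (hQ : 0 < Q) {κ : ℝ → ℝ} (hκ : CF L A₁ κ)
    (s : ℂ) {x y : Mt n} (hx : x ∈ K1 n R) (hy : y ∈ K1 n R) :
    IntegrableOn (fun Y => DI n κ s fun u u' => Gt b₀ b β (Phi φ k) c Q u u' x y Y) F (X.hm n) ∧
    ∑ I ∈ PI O b, ∑ I' ∈ PI O b, ((c I * c I' : ℝ) : ℂ) *
        OF b₀ β Q I I' (Phi (ph φ κ s) k) x y =
      ∫ Y in F, (DI n κ s fun u u' => Gt b₀ b β (Phi φ k) c Q u u' x y Y) ∂(X.hm n) := by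
  classical
  obtain ⟨hψ1, hψ2⟩ := ph_TF hφ hκ s
  have hΨ : Tst (Phi (ph φ κ s) k) := LAL.IF_TstPhi hn k hk _ hψ1 hψ2
  obtain ⟨H, S, hHS⟩ := x2_SW hn hO hk hφ hβ R hQ hκ s
  set Ψ : Mt n → ℂ := Phi (ph φ κ s) k with hΨdef
  have hK := x2_K1 hn hF
  -- integrability of the integrands of the switch
  have hVi : ∀ B B' : Idl O, Integrable (fun Y => x2_V b₀ β Ψ Q B B' x y Y)
      ((X.hm n).restrict F) := by
    intro B B'
    have h1 : Integrable (fun Y => ∑ D ∈ PI (tr O) b₀, (mob (tr O) b₀ D : ℂ) * ∑ h ∈ H,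
        (if h = 0 then 0 else ∑ p ∈ S, s2T O Ψ (fun X => (β X : ℂ)) Q 1 x y Y h B.1 B'.1
          (tS D) p)) ((X.hm n).restrict F) := by
      refine integrable_finsetSum _ fun D _ => Integrable.const_mul
        (integrable_finsetSum _ fun h _ => ?_) _
      by_cases h0 : h = 0
      · simp only [if_pos h0]
        exact integrable_zero _ _ _
      · simp only [if_neg h0]
        exact integrable_finsetSum _ fun p _ => x2_int hn hO hβ hF Ψ Q x y h B.1 B'.1 (tS D) p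
    refine h1.congr ?_
    filter_upwards [hK] with Y hY
    exact ((hHS x hx y hy Y hY b₀ B B').2).symm
  have hOF : ∀ B B' : Idl O, OF b₀ β Q B B' Ψ x y =
      ∫ Y in F, x2_V b₀ β Ψ Q B B' x y Y ∂(X.hm n) := by
    intro B B'
    have h1 := switch_pr hn hO hΨ hβ b₀ hb₀ hF B B' hQ one_pos hx.1 hy.1
    simp only [one_smul] at h1
    exact h1
  have hG : ∀ Y ∈ K1 n R, DI n κ s (fun u u' => Gt b₀ b β (Phi φ k) c Q u u' x y Y) =
      ∑ I ∈ PI O b, ∑ I' ∈ PI O b, ((c I * c I' : ℝ) : ℂ) * x2_V b₀ β Ψ Q I I' x y Y := by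
    intro Y hY
    unfold Gt
    exact (x2_G.sum _ fun I _ => x2_G.sum _ fun I' _ =>
      ((hHS x hx y hy Y hY b₀ I I').1).mul _).eq
  have hsum : Integrable (fun Y => ∑ I ∈ PI O b, ∑ I' ∈ PI O b,
      ((c I * c I' : ℝ) : ℂ) * x2_V b₀ β Ψ Q I I' x y Y) ((X.hm n).restrict F) :=
    integrable_finsetSum _ fun I _ => integrable_finsetSum _ fun I' _ => (hVi I I').const_mul _
  have hae : (fun Y => ∑ I ∈ PI O b, ∑ I' ∈ PI O b, ((c I * c I' : ℝ) : ℂ) *
      x2_V b₀ β Ψ Q I I' x y Y) =ᵐ[(X.hm n).restrict F]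
      fun Y => DI n κ s fun u u' => Gt b₀ b β (Phi φ k) c Q u u' x y Y := by
    filter_upwards [hK] with Y hY
    exact (hG Y hY).symm
  refine ⟨hsum.congr hae, ?_⟩
  rw [← integral_congr_ae hae]
  rw [integral_finsetSum _ fun I _ => integrable_finsetSum _ fun I' _ => (hVi I I').const_mul _]
  refine Finset.sum_congr rfl fun I _ => ?_
  rw [integral_finsetSum _ fun I' _ => (hVi I I').const_mul _]
  refine Finset.sum_congr rfl fun I' _ => ?_
  rw [integral_const_mul, hOF I I']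


end

end Pool.Agent.RZH

namespace Pool.Agent.RZH

theorem OF_exp : type_of% @OF_exp_pr := @OF_exp_pr

end Pool.Agent.RZH
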