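import Pool.Agent.Lib_helper16.GLL.XDefs
import Pool.Agent.Lib_helper32.LAL.SD2
import Pool.Agent.Lib_helper32.LAL.SDefs
import Pool.Agent.Lib_helper32.LALS.S_SA1
import Pool.Agent.Lib_helper32.LALS.S_SB
import Pool.Agent.Lib_helper32.LALS.S_SI1
import Pool.Agent.Lib_helper32.LALS.S_SI3
import Pool.Agent.Lib_helper32.LALS.S_SJ1
import Pool.Agent.Lib_helper32.LALS.S_SN
import Pool.Agent.Lib_helper42.GLM.Defs
import Pool.Agent.Lib_helper75.RZG.Defs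
import Pool.Agent.Lib_helper96.GLF.O_OA3
import Pool.Agent.Lib_helper96.GLF.O_OD
import Pool.Agent.Lib_helper96.GLF.T_TE
import Pool.Agent.Lib_helper96.GLL.Defs
import Pool.Agent.Lib_helper96.GLL.DefsB
import Pool.Agent.Lib_helper96.LAL.DefsC
import Pool.Agent.Lib_helper96.LAL.Tr

/-! # RZG, block X3: the total sum for the coefficients `bF` -/

set_option autoImplicit false
set_option linter.unusedVariables false

namespace Pool.Agent.RZH

open MeasureTheory Matrix Complex Filter Topology Pool.Agent.GLL Pool.Agent.LAL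
open scoped ENNReal ContDiff

noncomputable section

variable {n : ℕ} {O : Subring (Mt n)}

theorem x3_cO (b : ℕ) (c : Idl O → ℝ) (α : O) (hα : α ≠ 0) :
    cO (bF b c) α = ∑ I ∈ PI O b, (c I : ℂ) *
      (open scoped Classical in if (α : Mt n) ∈ I.1 then 1 else 0) := by
  classical
  unfold cO
  rw [dif_pos hα]
  unfold bF
  push_cast
  refine Finset.sum_congr rfl fun I _ => ?_
  by_cases h : (α : Mt n) ∈ I.1
  · rw [if_pos h, if_pos ((si1_le α hα _).2 h), mul_one]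
  · rw [if_neg h, if_neg fun h' => h ((si1_le α hα _).1 h'), mul_zero, Complex.ofReal_zero]

theorem x3_few (hn : 2 ≤ n) (hO : GLL.Ord O) {Φ : Mt n → ℂ} (hΦ : Tst Φ) (R : ℝ) :
    ∃ A : Finset O, ∀ x ∈ K1 n R, ∀ y ∈ K1 n R, ∀ a : O, a ∉ A → Φ (x⁻¹ * a * y) = 0 := by
  obtain ⟨A, hA⟩ := few' hn hO hΦ one_pos R
  exact ⟨A, fun x hx y hy a ha => by simpa only [one_smul] using hA x hx y hy a ha⟩

theorem x3_HSL (hn : 2 ≤ n) (hO : GLL.Ord O) {Φ : Mt n → ℂ} (hΦ : Tst Φ) (b : ℕ)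
    (c : Idl O → ℝ) {x y : Mt n} (hx : |x.det| = 1) (hy : |y.det| = 1) (Λ : Idl (tr O)) :
    HSL (bF b c) Φ Λ x y = (DG (bF b c) Φ x y : ℂ) +
      ∑ I ∈ PI O b, ∑ I' ∈ PI O b, ((c I * c I' : ℝ) : ℂ) * OP I I' Φ Λ x y := by
  classical
  have hfin := few hn hO hΦ one_pos hx hy
  set A := hfin.toFinset with hA
  have hA' : ∀ b : O, b ∉ A → Φ (x⁻¹ * (b : Mt n) * y) = 0 := by
    intro b hb
    by_contra h
    refine hb (hfin.mem_toFinset.2 ?_)
    show Φ ((1 : ℝ) • (x⁻¹ * (b : Mt n) * y)) ≠ 0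
    rwa [one_smul]
  have hA0 : ∀ b ∈ A, b ≠ 0 := by
    rintro b hb rfl
    have := hfin.mem_toFinset.1 hb
    apply this
    simp [Tst_zero hn hΦ]
  set c' := bF b c with hc
  set w : O → ℂ := fun b => Φ (x⁻¹ * (b : Mt n) * y) with hw
  -- the pair sum
  have h1 : HSL c' Φ Λ x y = ∑ p ∈ A ×ˢ A,
      (if ((p.1 : Mt n) - (p.2 : Mt n))ᵀ ∈ Λ.1 then
        cO c' p.1 * (starRingEnd ℂ) (cO c' p.2) * (w p.1 * (starRingEnd ℂ) (w p.2)) else 0) := by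
    unfold HSL
    refine (tsum_eq_sum (s := A ×ˢ A) ?_).trans (Finset.sum_congr rfl fun p _ => rfl)
    rintro ⟨b, b'⟩ hb
    rw [Finset.mem_product, not_and_or] at hb
    rcases hb with hb | hb <;> simp [hA' _ hb]
  have h2 : (DG c' Φ x y : ℂ) = ∑ p ∈ A ×ˢ A,
      (if p.1 = p.2 then
        cO c' p.1 * (starRingEnd ℂ) (cO c' p.2) * (w p.1 * (starRingEnd ℂ) (w p.2)) else 0) := by
    unfold DG
    rw [tsum_eq_sum (s := A)]
    · rw [Finset.sum_product]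
      push_cast
      refine Finset.sum_congr rfl fun b hb => ?_
      rw [Finset.sum_ite_eq, if_pos hb, Complex.mul_conj', Complex.mul_conj']
    · intro b hb
      simp [hA' _ hb]
  have h3 : ∀ B B' : Idl O, OP B B' Φ Λ x y = ∑ p ∈ A ×ˢ A,
      (if (p.1 : Mt n) ∈ B.1 ∧ (p.2 : Mt n) ∈ B'.1 ∧ p.1 ≠ p.2 ∧
        (p.1 : Mt n) - p.2 ∈ tS Λ then w p.1 * (starRingEnd ℂ) (w p.2) else 0) := by
    intro B B'
    unfold OP
    refine (tsum_eq_sum (s := A ×ˢ A) ?_).trans (Finset.sum_congr rfl fun p _ => rfl)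
    rintro ⟨b, b'⟩ hb
    rw [Finset.mem_product, not_and_or] at hb
    rcases hb with hb | hb <;> simp [hA' _ hb]
  have h4 : ∀ d d' : O, d ≠ 0 → d' ≠ 0 → cO c' d * (starRingEnd ℂ) (cO c' d') =
      ∑ I ∈ PI O b, ∑ I' ∈ PI O b, ((c I * c I' : ℝ) : ℂ) *
          (if (d : Mt n) ∈ I.1 ∧ (d' : Mt n) ∈ I'.1 then 1 else 0) := by
    intro d d' hd hd'
    rw [hc, x3_cO b c d hd, x3_cO b c d' hd']
    simp only [map_sum, map_mul, Complex.conj_ofReal]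
    rw [Finset.sum_mul_sum]
    refine Finset.sum_congr rfl fun I _ => Finset.sum_congr rfl fun I' _ => ?_
    by_cases k1 : (d : Mt n) ∈ I.1 <;> by_cases k2 : (d' : Mt n) ∈ I'.1 <;>
      simp [k1, k2]
  have h5 : ∀ p ∈ A ×ˢ A, (if ((p.1 : Mt n) - (p.2 : Mt n))ᵀ ∈ Λ.1 then
        cO c' p.1 * (starRingEnd ℂ) (cO c' p.2) * (w p.1 * (starRingEnd ℂ) (w p.2)) else 0) =
      (if p.1 = p.2 then
        cO c' p.1 * (starRingEnd ℂ) (cO c' p.2) * (w p.1 * (starRingEnd ℂ) (w p.2)) else 0) +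
      (if p.1 ≠ p.2 ∧ (p.1 : Mt n) - p.2 ∈ tS Λ then
        cO c' p.1 * (starRingEnd ℂ) (cO c' p.2) * (w p.1 * (starRingEnd ℂ) (w p.2)) else 0) := by
    rintro ⟨b, b'⟩ -
    by_cases hb : b = b'
    · subst hb
      simp
    · by_cases hm : ((b : Mt n) - (b' : Mt n))ᵀ ∈ Λ.1
      · have hm' : (b : Mt n) - (b' : Mt n) ∈ tS Λ := hm
        simp only [hb, if_pos hm, hm', ne_eq, not_false_eq_true, and_self, if_true, if_false,
          zero_add]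
      · have hm' : ¬ (b : Mt n) - (b' : Mt n) ∈ tS Λ := hm
        simp only [hb, if_neg hm, hm', and_false, if_false, add_zero]
  rw [h1, Finset.sum_congr rfl h5, Finset.sum_add_distrib, ← h2]
  congr 1
  simp only [h3, Finset.mul_sum]
  have h6 : ∀ p ∈ A ×ˢ A, (if p.1 ≠ p.2 ∧ (p.1 : Mt n) - p.2 ∈ tS Λ then
        cO c' p.1 * (starRingEnd ℂ) (cO c' p.2) * (w p.1 * (starRingEnd ℂ) (w p.2)) else 0) =
      ∑ I ∈ PI O b, ∑ I' ∈ PI O b, ((c I * c I' : ℝ) : ℂ) *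
          (if (p.1 : Mt n) ∈ I.1 ∧ (p.2 : Mt n) ∈ I'.1 ∧ p.1 ≠ p.2 ∧
            (p.1 : Mt n) - p.2 ∈ tS Λ then w p.1 * (starRingEnd ℂ) (w p.2) else 0) := by
    rintro ⟨d, d'⟩ hp
    rw [Finset.mem_product] at hp
    split_ifs with hc1
    · rw [h4 d d' (hA0 _ hp.1) (hA0 _ hp.2)]
      simp only [Finset.sum_mul]
      refine Finset.sum_congr rfl fun I _ => Finset.sum_congr rfl fun I' _ => ?_
      by_cases k1 : (d : Mt n) ∈ I.1 <;> by_cases k2 : (d' : Mt n) ∈ I'.1 <;>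
        simp [k1, k2, hc1.1, hc1.2]
    · symm
      refine Finset.sum_eq_zero fun I _ => Finset.sum_eq_zero fun I' _ => ?_
      rw [if_neg, mul_zero]
      exact fun h => hc1 h.2.2
  rw [Finset.sum_congr rfl h6]
  rw [Finset.sum_comm]
  refine Finset.sum_congr rfl fun I _ => ?_
  rw [Finset.sum_comm]

theorem x3_TOT (hn : 2 ≤ n) (hO : GLL.Ord O) {Φ : Mt n → ℂ} (hΦ : Tst Φ) {β : Mt n → ℝ}
    (hβ : Bt β) (b₀ b : ℕ) {F : Set (Mt n)} {R : ℝ} (hF : IsFG O F R) {Q : ℝ} (hQ : 0 < Q)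
    (c : Idl O → ℝ) :
    TOT F b₀ β Q (bF b c) Φ =
      (Del O b₀ β Q * (∫ x in F, ∫ y in F, DG (bF b c) Φ x y ∂(X.hm n) ∂(X.hm n)) : ℝ) +
      ∫ x in F, ∫ y in F, (∑ I ∈ PI O b, ∑ I' ∈ PI O b, ((c I * c I' : ℝ) : ℂ) *
        OF b₀ β Q I I' Φ x y) ∂(X.hm n) ∂(X.hm n) := by
  classical
  obtain ⟨A, hA⟩ := x3_few hn hO hΦ R
  set c' := bF b c with hc
  set ν := (si3_mu n F).prod (si3_mu n F) with hν
  set G : O × O → Mt n × Mt n → ℂ := fun p q => Φ (q.1⁻¹ * (p.1 : Mt n) * q.2) *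
    (starRingEnd ℂ) (Φ (q.1⁻¹ * (p.2 : Mt n) * q.2)) with hG
  have hGi : ∀ p, Integrable (G p) ν := fun p => by
    simpa only [one_smul] using si3_G hn hO hΦ 1 hF.toIsFD p.1 p.2
  -- the diagonal
  set gD : Mt n × Mt n → ℂ := fun q => ∑ b ∈ A, ((‖cO c' b‖ ^ 2 : ℝ) : ℂ) * G (b, b) q with hgD
  have hD : SI3 F R (fun x y => (DG c' Φ x y : ℂ)) gD := by
    refine ⟨integrable_finsetSum _ fun b _ => (hGi _).const_mul _, ?_⟩
    intro x hx y hy
    show ((DG c' Φ x y : ℝ) : ℂ) = ∑ b ∈ A, ((‖cO c' b‖ ^ 2 : ℝ) : ℂ) * G (b, b) (x, y)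
    unfold DG
    rw [tsum_eq_sum (s := A)]
    · push_cast
      refine Finset.sum_congr rfl fun b _ => ?_
      simp only [hG]
      rw [Complex.mul_conj']
    · intro b hb
      simp [hA x hx y hy b hb]
  -- the pairs
  set gO : Idl O → Idl O → Idl (tr O) → Mt n × Mt n → ℂ := fun B B' Λ q =>
    ∑ p ∈ A ×ˢ A, if (p.1 : Mt n) ∈ B.1 ∧ (p.2 : Mt n) ∈ B'.1 ∧ p.1 ≠ p.2 ∧
        (p.1 : Mt n) - p.2 ∈ tS Λ then G p q else 0 with hgO
  have hOP1 : ∀ B B' Λ, ∀ x ∈ K1 n R, ∀ y ∈ K1 n R, OP B B' Φ Λ x y = gO B B' Λ (x, y) := by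
    intro B B' Λ x hx y hy
    unfold OP
    refine (tsum_eq_sum (s := A ×ˢ A) ?_).trans (Finset.sum_congr rfl fun p _ => rfl)
    rintro ⟨b, b'⟩ hb
    rw [Finset.mem_product, not_and_or] at hb
    rcases hb with hb | hb <;> simp [hA x hx y hy _ hb]
  have hgOi : ∀ B B' Λ, Integrable (gO B B' Λ) ν := by
    intro B B' Λ
    refine integrable_finsetSum _ fun p _ => ?_
    split_ifs
    · exact hGi p
    · exact integrable_zero _ _ _
  set gS : Idl (tr O) → Mt n × Mt n → ℂ := fun Λ q => ∑ I ∈ PI O b, ∑ I' ∈ PI O b,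
    ((c I * c I' : ℝ) : ℂ) * gO I I' Λ q with hgS
  have hgSi : ∀ Λ, Integrable (gS Λ) ν := fun Λ =>
    integrable_finsetSum _ fun I _ => integrable_finsetSum _ fun I' _ =>
      (hgOi _ _ _).const_mul _
  have hH : ∀ Λ, HSI F c' Φ Λ = (∫ q, gD q ∂ν) + ∫ q, gS Λ q ∂ν := by
    intro Λ
    have h3 : SI3 F R (HSL c' Φ Λ) (fun q => gD q + gS Λ q) := by
      refine ⟨hD.int.add (hgSi Λ), ?_⟩
      intro x hx y hy
      rw [hc, x3_HSL hn hO hΦ b c hx.1 hy.1 Λ, ← hc, hD.eq x hx y hy]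
      simp only [hgS, ← hOP1 _ _ _ x hx y hy]
    unfold HSI
    rw [si3_int hn hO hF h3, integral_add hD.int (hgSi Λ)]
  -- the sum over the left ideals
  have hLf := si3_Lfin hn hO hβ hQ (O := O)
  set Ls := hLf.toFinset with hLs
  set w : Idl (tr O) → ℂ := fun Λ => if (N Λ).Coprime b₀ then (et β (N Λ / Q) : ℂ) else 0 with hw
  have hLs0 : ∀ Λ, Λ ∉ Ls → et β (N Λ / Q) = 0 := by
    intro Λ h
    by_contra h0
    exact h (hLf.mem_toFinset.2 h0)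
  have hDel : (Del O b₀ β Q : ℂ) = ∑ Λ ∈ Ls, w Λ := by
    unfold Del
    rw [tsum_eq_sum (s := Ls)]
    · push_cast
      refine Finset.sum_congr rfl fun Λ _ => ?_
      simp only [hw]
      split_ifs <;> simp
    · intro Λ h
      simp [hLs0 Λ h]
  have hDD : ((∫ x in F, ∫ y in F, DG c' Φ x y ∂(X.hm n) ∂(X.hm n) : ℝ) : ℂ) = ∫ q, gD q ∂ν := by
    rw [← si3_int hn hO hF hD, ← integral_complex_ofReal]
    refine integral_congr_ae (ae_of_all _ fun x => ?_)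
    exact integral_complex_ofReal.symm
  have hOF : ∫ x in F, ∫ y in F, (∑ I ∈ PI O b, ∑ I' ∈ PI O b, ((c I * c I' : ℝ) : ℂ) *
        OF b₀ β Q I I' Φ x y) ∂(X.hm n) ∂(X.hm n) = ∑ Λ ∈ Ls, w Λ * ∫ q, gS Λ q ∂ν := by
    have h3 : SI3 F R (fun x y => ∑ I ∈ PI O b, ∑ I' ∈ PI O b, ((c I * c I' : ℝ) : ℂ) *
        OF b₀ β Q I I' Φ x y) (fun q => ∑ Λ ∈ Ls, w Λ * gS Λ q) := by
      refine ⟨integrable_finsetSum _ fun Λ _ => (hgSi _).const_mul _, ?_⟩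
      intro x hx y hy
      have h4 : ∀ B B', OF b₀ β Q B B' Φ x y = ∑ Λ ∈ Ls, w Λ * gO B B' Λ (x, y) := by
        intro B B'
        unfold OF
        rw [tsum_eq_sum (s := Ls)]
        · refine Finset.sum_congr rfl fun Λ _ => ?_
          rw [hOP1 _ _ _ x hx y hy]
          simp only [hw]
          split_ifs <;> simp
        · intro Λ h
          simp [hLs0 Λ h]
      simp only [h4, hgS, Finset.mul_sum]
      symm
      rw [Finset.sum_comm]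
      refine Finset.sum_congr rfl fun I _ => ?_
      rw [Finset.sum_comm]
      refine Finset.sum_congr rfl fun I' _ => Finset.sum_congr rfl fun Λ _ => ?_
      ring
    rw [si3_int hn hO hF h3, integral_finsetSum _ fun Λ _ => (hgSi _).const_mul _]
    simp only [integral_const_mul]
  have hT : TOT F b₀ β Q c' Φ = ∑ Λ ∈ Ls, w Λ * HSI F c' Φ Λ := by
    unfold TOT
    rw [tsum_eq_sum (s := Ls)]
    · refine Finset.sum_congr rfl fun Λ _ => ?_
      simp only [hw]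
      split_ifs <;> simp
    · intro Λ h
      simp [hLs0 Λ h]
  rw [hT, hOF]
  simp only [hH, mul_add, Finset.sum_add_distrib]
  rw [← Finset.sum_mul, ← hDel, ← hDD]
  push_cast
  rfl

theorem x3_II (hn : 2 ≤ n) {k : Mt n → ℂ} (hk : Sph2 k) (φ : ℝ → ℂ) (v : ℝ) :
    (II fun g : Mt n => ‖Phi φ k (Real.exp (v / n) • g)‖ ^ 2) =
      ‖φ v‖ ^ 2 * Real.exp (-(v * ((n : ℝ) - 1))) * k2 k := by
  have h2 : (II fun g : Mt n => ((‖Phi φ k (Real.exp (v / n) • g)‖ ^ 2 : ℝ) : ℂ)) =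
      ((‖φ v‖ ^ 2 * Real.exp (-(v * ((n : ℝ) - 1))) * k2 k : ℝ) : ℂ) := by
    rw [k2, Complex.ofReal_mul, ← GLL.T.te_real, ← GLL.T.te_mul]
    refine GLL.T.te_congr hn fun g hg => ?_
    rw [GLL.T.Phi_val_pr hn hk.toSph φ v g hg, norm_mul, norm_mul, Complex.norm_real,
      Real.norm_eq_abs, abs_of_pos (Real.exp_pos _), ← Complex.ofReal_mul]
    congr 1
    rw [mul_pow, mul_pow, ← Real.exp_nat_mul]
    congr 3
    push_cast
    ring
  rw [GLL.T.te_real] at h2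
  exact_mod_cast h2

theorem TOT_bF_pr (hn : 2 ≤ n) (hO : GLL.Ord O) {k : Mt n → ℂ} (hk : Sph2 k) {ψ : ℝ → ℂ}
    (hψ : ContDiff ℝ ∞ ψ) (hψ' : HasCompactSupport ψ) {β : Mt n → ℝ} (hβ : Bt β)
    (b₀ b : ℕ) (hb : 0 < b) {F : Set (Mt n)} {R : ℝ} (hF : IsFG O F R) (c : Idl O → ℝ) {Q : ℝ}
    (hQ : 0 < Q) :
    (Summable fun I : Idl O => ‖bF b c I‖ ^ 2 * ((N I : ℝ) ^ (n - 1))⁻¹ *
      ‖ψ (Real.log (N I))‖ ^ 2) ∧
    TOT F b₀ β Q (bF b c) (Phi ψ k) =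
      ((Del O b₀ β Q * (vol F * (k2 k * ∑' I : Idl O, ‖bF b c I‖ ^ 2 *
        ((N I : ℝ) ^ (n - 1))⁻¹ * ‖ψ (Real.log (N I))‖ ^ 2)) : ℝ) : ℂ) +
      ∫ x in F, ∫ y in F, (∑ I ∈ PI O b, ∑ I' ∈ PI O b, ((c I * c I' : ℝ) : ℂ) *
        OF b₀ β Q I I' (Phi ψ k) x y) ∂(X.hm n) ∂(X.hm n) := by
  have hΦ : Tst (Phi ψ k) := IF_TstPhi hn k hk ψ hψ hψ'
  constructor
  · -- finitely many terms
    obtain ⟨T, hT⟩ : ∃ T : ℝ, ∀ v, ψ v ≠ 0 → |v| ≤ T := by
      obtain ⟨T, hT⟩ := hψ'.isCompact.isBounded.subset_closedBall 0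
      refine ⟨T, fun v hv => ?_⟩
      have := hT (subset_tsupport _ hv)
      rwa [Metric.mem_closedBall, dist_zero_right, Real.norm_eq_abs] at this
    refine summable_of_hasFiniteSupport ?_
    refine Set.Finite.subset (Set.Finite.biUnion
      (Finset.finite_toSet (Finset.range (⌊Real.exp T⌋₊ + 1))) (fun m _ => IF_fin hn hO m)) ?_
    intro I hI
    have h1 : ψ (Real.log (N I)) ≠ 0 := by
      intro h0
      apply hI
      simp [h0]
    have h2 := (le_abs_self _).trans (hT _ h1)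
    have h0 : (0 : ℝ) < N I := by exact_mod_cast (IF_gen hn hO I).2.2.1
    have h3 : (N I : ℝ) ≤ Real.exp T := (Real.log_le_iff_le_exp h0).1 h2
    simp only [Set.mem_iUnion]
    refine ⟨N I, ?_, rfl⟩
    simp only [Finset.coe_range, Set.mem_Iio]
    exact Nat.lt_succ_of_le (Nat.le_floor h3)
  · have h1 := diag_unf hn hO hΦ hF (bF b c) one_pos
    simp only [one_smul, one_mul] at h1
    have h4 : (∑' I : Idl O, ‖bF b c I‖ ^ 2 *
        II fun g => ‖Phi ψ k (Real.exp (Real.log (N I) / n) • g)‖ ^ 2) =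
        k2 k * ∑' I : Idl O, ‖bF b c I‖ ^ 2 * ((N I : ℝ) ^ (n - 1))⁻¹ *
          ‖ψ (Real.log (N I))‖ ^ 2 := by
      rw [← tsum_mul_left]
      refine tsum_congr fun I => ?_
      rw [x3_II hn hk]
      have h0 : (0 : ℝ) < N I := by exact_mod_cast (IF_gen hn hO I).2.2.1
      have h2 : Real.exp (-(Real.log (N I) * ((n : ℝ) - 1))) = ((N I : ℝ) ^ (n - 1))⁻¹ := by
        rw [Real.exp_neg]
        congr 1
        have h3 : ((n : ℝ) - 1) = ((n - 1 : ℕ) : ℝ) := by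
          rw [Nat.cast_sub (by omega), Nat.cast_one]
        rw [h3, mul_comm, Real.exp_nat_mul, Real.exp_log h0]
      rw [h2]
      ring
    rw [x3_TOT hn hO hΦ hβ b₀ b hF hQ c, h1, h4]

end

end Pool.Agent.RZH

namespace Pool.Agent.RZH

theorem TOT_bF : type_of% @TOT_bF_pr := @TOT_bF_pr

end Pool.Agent.RZH
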