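import Pool.Agent.Lib_helper32.LAL.SDefs
import Pool.Agent.Lib_helper32.LALS.S_SD1
import Pool.Agent.Lib_helper32.LALS.S_SD2
import Pool.Agent.Lib_helper32.LALS.S_SE2
import Pool.Agent.Lib_helper42.GLM.Defs
import Pool.Agent.Lib_helper75.RZG.Defs
import Pool.Agent.Lib_helper94.LAL.S2D
import Pool.Agent.Lib_helper96.GLF.O_OA3
import Pool.Agent.Lib_helper96.GLF.O_OA4
import Pool.Agent.Lib_helper96.GLF.O_OI
import Pool.Agent.Lib_helper96.GLF.O_OL2
import Pool.Agent.Lib_helper96.GLL.Defs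
import Pool.Agent.Lib_helper96.GLL.DefsB
import Pool.Agent.Lib_helper96.LAL.Tr

/-!
# Project RZG, block F2: the local factor of the far part
-/

set_option autoImplicit false

namespace Pool.Agent.RZH

open MeasureTheory Matrix Complex Filter Topology Pool.Agent.GLL Pool.Agent.LAL
open scoped ENNReal ContDiff

noncomputable section

variable {n : ℕ} {O : Subring (Mt n)}

theorem gF_facts_pr (hn : 2 ≤ n) (hO : GLL.Ord O) (b₀ : ℕ) (hb₀ : 0 < b₀) :
    (∀ I : Idl O, (b₀ : Mt n) ∈ I.1 → ∀ h c a' : O, gF b₀ I (h + (b₀ : O) * c) a' = gF b₀ I h a') ∧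
    ∃ C : ℝ, 0 < C ∧ ∀ I : Idl O, (b₀ : Mt n) ∈ I.1 → ∀ h a' : O, |gF b₀ I h a'| ≤ C := by
  constructor
  · intro I hI h c a'
    have key : ∀ D : Idl (tr O), I.1 ⊔ hD ((h + (b₀ : O) * c : O) : Mt n) (tS D) =
        I.1 ⊔ hD (h : Mt n) (tS D) := by
      intro D
      refine le_antisymm (se2_hD I hI h c D) ?_
      have h1 := se2_hD I hI (h + (b₀ : O) * c) (-c) D
      have h2 : h + (b₀ : O) * c + (b₀ : O) * -c = h := by rw [mul_neg, add_neg_cancel_right]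
      rwa [h2] at h1
    unfold gF
    refine Finset.sum_congr rfl fun D _ => ?_
    rw [key D]
  · have hb1 : (1 : ℝ) ≤ (b₀ : ℝ) := by exact_mod_cast hb₀
    refine ⟨(∑ D ∈ PI (tr O) b₀, |(mob (tr O) b₀ D : ℝ)|) * (((b₀ : ℝ) ^ n) ^ n) + 1, ?_, ?_⟩
    · have h1 : 0 ≤ ∑ D ∈ PI (tr O) b₀, |(mob (tr O) b₀ D : ℝ)| :=
        Finset.sum_nonneg fun _ _ => abs_nonneg _
      positivity
    · intro I hI h a'
      have hN : N I ∣ b₀ ^ n := (IF_mob hn hO b₀ hb₀).2.2.2.2 I hI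
      have hN1 : N I ≤ b₀ ^ n := Nat.le_of_dvd (pow_pos hb₀ n) hN
      have hN0 : 0 < N I := (IF_gen hn hO I).2.2.1
      have key : ∀ D : Idl (tr O),
          (ix O (I.1 ⊔ hD (h : Mt n) (tS D)) : ℝ) ≤ ((b₀ : ℝ) ^ n) ^ n := by
        intro D
        have h1 : ix O (I.1 ⊔ hD (h : Mt n) (tS D)) ∣ ix O I.1 :=
          AddSubgroup.relIndex_dvd_of_le_left _ le_sup_left
        rw [ix_N hn hO I] at h1
        have h2 : ix O (I.1 ⊔ hD (h : Mt n) (tS D)) ≤ (b₀ ^ n) ^ n :=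
          (Nat.le_of_dvd (pow_pos hN0 n) h1).trans (Nat.pow_le_pow_left hN1 n)
        exact_mod_cast h2
      have hinv : ∀ D : Idl (tr O), |((ix O (tS D) : ℝ))⁻¹| ≤ 1 := by
        intro D
        rw [abs_of_nonneg (by positivity)]
        exact Nat.cast_inv_le_one _
      have h3 : |gF b₀ I h a'| ≤
          ∑ D ∈ PI (tr O) b₀, |(mob (tr O) b₀ D : ℝ)| * ((b₀ : ℝ) ^ n) ^ n := by
        unfold gF
        refine (Finset.abs_sum_le_sum_abs _ _).trans (Finset.sum_le_sum fun D _ => ?_)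
        have hk : |(open scoped Classical in if (a' : Mt n) ∈ I.1 ⊔ hD (h : Mt n) (tS D) then
            (ix O (I.1 ⊔ hD (h : Mt n) (tS D)) : ℝ) else 0)| ≤ ((b₀ : ℝ) ^ n) ^ n := by
          split_ifs
          · rw [Nat.abs_cast]
            exact key D
          · rw [abs_zero]
            positivity
        rw [abs_mul, abs_mul]
        calc |(mob (tr O) b₀ D : ℝ)| * |((ix O (tS D) : ℝ))⁻¹| *
              |(open scoped Classical in if (a' : Mt n) ∈ I.1 ⊔ hD (h : Mt n) (tS D) then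
                (ix O (I.1 ⊔ hD (h : Mt n) (tS D)) : ℝ) else 0)| ≤
            |(mob (tr O) b₀ D : ℝ)| * 1 * ((b₀ : ℝ) ^ n) ^ n := by
              refine mul_le_mul (mul_le_mul_of_nonneg_left (hinv D) (abs_nonneg _)) hk
                (abs_nonneg _) (by positivity)
          _ = _ := by rw [mul_one]
      rw [← Finset.sum_mul] at h3
      linarith

/-- as `ix_fac` -/
theorem mem_fac_pr (hn : 2 ≤ n) (hO : GLL.Ord O) {b₀ : ℕ} (hb₀ : 0 < b₀) (I J : Idl O)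
    (hI : (b₀ : Mt n) ∈ I.1) (hJ : (N J).Coprime b₀) (D : Idl (tr O)) (hD' : (b₀ : Mt n) ∈ D.1)
    (h a' : O) : (a' : Mt n) ∈ (infI I J).1 ⊔ hD (h : Mt n) (tS D) ↔
      (a' : Mt n) ∈ I.1 ⊔ hD (h : Mt n) (tS D) ∧
        (a' : Mt n) ∈ J.1 ⊔ hD (h : Mt n) O.toAddSubgroup := by
  have hDO : tS D ≤ O.toAddSubgroup := by
    intro x hx
    rw [mem_tS] at hx
    have := D.2.2.1 _ hx
    rw [mem_tr, Matrix.transpose_transpose] at this
    exact this
  have hhD : hD (h : Mt n) (tS D) ≤ hD (h : Mt n) O.toAddSubgroup := AddSubgroup.map_mono hDO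
  have hc : (N J ^ n).Coprime b₀ := Nat.Coprime.pow_left n hJ
  have hbD : ∀ c ∈ O, (b₀ : Mt n) * c ∈ tS D := by
    intro c hcO
    rw [mem_tS]
    have e : ((b₀ : Mt n) * c)ᵀ = (b₀ : Mt n) * cᵀ := by
      rw [Matrix.transpose_mul, Matrix.transpose_natCast, (Nat.cast_commute b₀ (cᵀ)).eq]
    rw [e]
    refine D.2.2.2 _ hD' _ ?_
    rw [mem_tr, Matrix.transpose_transpose]
    exact hcO
  rw [(IF_inf hn hO I J).1]
  constructor
  · intro hz
    exact ⟨(sup_le (inf_le_left.trans le_sup_left) le_sup_right :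
        I.1 ⊓ J.1 ⊔ hD (h : Mt n) (tS D) ≤ I.1 ⊔ hD (h : Mt n) (tS D)) hz,
      (sup_le (inf_le_right.trans le_sup_left) (hhD.trans le_sup_right) :
        I.1 ⊓ J.1 ⊔ hD (h : Mt n) (tS D) ≤ J.1 ⊔ hD (h : Mt n) O.toAddSubgroup) hz⟩
  · rintro ⟨hz1, hz2⟩
    obtain ⟨i, hi, _, ⟨d, hd, rfl⟩, e1⟩ := AddSubgroup.mem_sup.1 hz1
    obtain ⟨j, hj, _, ⟨c, hc', rfl⟩, e2⟩ := AddSubgroup.mem_sup.1 hz2
    refine sd2_cop _ hc ?_ ?_
    · rw [← e2, mul_add]
      refine AddSubgroup.mem_sup.2 ⟨_, AddSubgroup.mem_inf.2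
        ⟨sd2_bO I hI (J.2.2.1 j hj), sd2_natmul _ _ hj⟩, _, ⟨(b₀ : Mt n) * c, hbD c hc', ?_⟩, rfl⟩
      exact sd2_hD _ O.toAddSubgroup b₀ hc'
    · rw [← e1, mul_add]
      refine AddSubgroup.mem_sup.2 ⟨_, AddSubgroup.mem_inf.2
        ⟨sd2_natmul _ _ hi, pow_mem hn hO J i (I.2.2.1 i hi)⟩, _,
        ⟨((N J ^ n : ℕ) : Mt n) * d, sd2_natmul _ _ hd, ?_⟩, rfl⟩
      exact sd2_hD _ _ _ hd


end

end Pool.Agent.RZH

namespace Pool.Agent.RZH

theorem gF_facts : type_of% @gF_facts_pr := @gF_facts_pr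

theorem mem_fac : type_of% @mem_fac_pr := @mem_fac_pr

end Pool.Agent.RZH
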