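import Pool.Agent.Lib_helper32.LAL.SD2
import Pool.Agent.Lib_helper32.LAL.SDefs
import Pool.Agent.Lib_helper32.LALS.S_SD1
import Pool.Agent.Lib_helper32.LALS.S_SD3
import Pool.Agent.Lib_helper41.RZGF.R_S4a
import Pool.Agent.Lib_helper75.RZG.Defs
import Pool.Agent.Lib_helper94.LAL.S2D
import Pool.Agent.Lib_helper96.GLL.Defs

/-! # Project RZG, block F3: the inversion over the ideals containing `J + h O` -/

set_option autoImplicit false

namespace Pool.Agent.RZH

open MeasureTheory Matrix Complex Filter Topology Pool.Agent.GLL Pool.Agent.LAL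
open scoped ENNReal ContDiff

noncomputable section

variable {n : ℕ} {O : Subring (Mt n)}

/-- the ideal `J + h O` -/
theorem f3_id (J : Idl O) (h : O) : IsId O (J.1 ⊔ hD (h : Mt n) O.toAddSubgroup) := by
  refine ⟨?_, ?_, ?_⟩
  · obtain ⟨x, hx, hx0⟩ := J.2.1
    exact ⟨x, AddSubgroup.mem_sup_left hx, hx0⟩
  · intro x hx
    obtain ⟨y, hy, z, hz, rfl⟩ := AddSubgroup.mem_sup.1 hx
    obtain ⟨c, hc, rfl⟩ := hz
    exact O.add_mem (J.2.2.1 y hy) (O.mul_mem h.2 hc)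
  · intro x hx a ha
    obtain ⟨y, hy, z, hz, rfl⟩ := AddSubgroup.mem_sup.1 hx
    obtain ⟨c, hc, rfl⟩ := hz
    rw [Matrix.add_mul]
    refine AddSubgroup.add_mem _ (AddSubgroup.mem_sup_left (J.2.2.2 y hy a ha))
      (AddSubgroup.mem_sup_right ?_)
    exact ⟨c * a, O.mul_mem hc ha, by
      show (h : Mt n) * (c * a) = (h : Mt n) * c * a
      rw [Matrix.mul_assoc]⟩

theorem fK_sum_pr (hn : 2 ≤ n) (hO : GLL.Ord O) (J : Idl O) (h a' : O) :
    (open scoped Classical in if (a' : Mt n) ∈ J.1 ⊔ hD (h : Mt n) O.toAddSubgroup then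
      (ix O (J.1 ⊔ hD (h : Mt n) O.toAddSubgroup) : ℝ) else 0) =
      ∑ K ∈ AI J, (open scoped Classical in if (h : Mt n) ∈ K.1 then fK a' K else 0) := by
  classical
  set M : Idl O := ⟨J.1 ⊔ hD (h : Mt n) O.toAddSubgroup, f3_id J h⟩ with hMdef
  have hJM : J ≤ M := by
    show J.1 ≤ J.1 ⊔ hD (h : Mt n) O.toAddSubgroup
    exact le_sup_left
  have h1 : (ix O (J.1 ⊔ hD (h : Mt n) O.toAddSubgroup) : ℝ) = (N M : ℝ) ^ n := by
    have := ix_N hn hO M
    rw [← Nat.cast_pow, ← this]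
  have h2 := mi_spec hn hO (fun M : Idl O => if (a' : Mt n) ∈ M.1 then (N M : ℝ) ^ n else 0) M
  have h3 : ∑ K ∈ AI J, (if (h : Mt n) ∈ K.1 then fK a' K else 0) = ∑ K ∈ AI M, fK a' K := by
    rw [← Finset.sum_filter]
    refine Finset.sum_congr ?_ fun _ _ => rfl
    ext K
    rw [Finset.mem_filter, mem_AI hn hO, mem_AI hn hO]
    constructor
    · rintro ⟨hK1, hK2⟩
      show J.1 ⊔ hD (h : Mt n) O.toAddSubgroup ≤ K.1
      refine sup_le hK1 ?_
      rintro x ⟨c, hc, rfl⟩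
      exact K.2.2.2 h hK2 c hc
    · intro hK
      have hK' : J.1 ⊔ hD (h : Mt n) O.toAddSubgroup ≤ K.1 := hK
      refine ⟨hJM.trans hK, hK' (AddSubgroup.mem_sup_right ?_)⟩
      exact ⟨1, O.one_mem, by
        show (h : Mt n) * 1 = h
        rw [Matrix.mul_one]⟩
  have h4 : ∀ K : Idl O, fK a' K =
      mi (fun M : Idl O => if (a' : Mt n) ∈ M.1 then (N M : ℝ) ^ n else 0) K := by
    intro K
    unfold fK
    congr 1
  rw [h3, Finset.sum_congr rfl fun K _ => h4 K, h2, h1]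


end

end Pool.Agent.RZH

namespace Pool.Agent.RZH

theorem fK_sum : type_of% @fK_sum_pr := @fK_sum_pr

end Pool.Agent.RZH
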