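import Pool.Agent.Lib_helper32.LAL.SD2
import Pool.Agent.Lib_helper32.LAL.SDefs
import Pool.Agent.Lib_helper32.LALS.S_SF
import Pool.Agent.Lib_helper75.RZG.Defs
import Pool.Agent.Lib_helper96.GLF.X_GLUE_1
import Pool.Agent.Lib_helper96.GLF.X_XA
import Pool.Agent.Lib_helper96.GLL.Defs
import Pool.Agent.Lib_helper96.GLL.DefsB

/-!
# Project RZG, block S3: second Poisson summation with a translation
-/

set_option autoImplicit false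

namespace Pool.Agent.RZH

open MeasureTheory Matrix Complex Filter Topology Pool.Agent.GLL Pool.Agent.LAL
open scoped ENNReal ContDiff

noncomputable section

variable {n : ℕ} {O : Subring (Mt n)}

theorem s3_fin (hn : 2 ≤ n) (hO : GLL.Ord O) {Ψ : Mt n → ℂ} (hΨ : Sm Ψ) {s : ℝ} (hs : 0 < s)
    {A Y : Mt n} (hA : A.det ≠ 0) (hY : Y.det ≠ 0) (T : Mt n) :
    {h : O | Ψ (s • (A * (h : Mt n) * Y) + T) ≠ 0}.Finite := by
  obtain ⟨C, hC⟩ := hΨ.supp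
  refine (X.in_ball hn hO (nr A⁻¹ * (s⁻¹ * (C + nr (-T))) * nr Y⁻¹)).subset fun h hh => ?_
  have h0 := hC _ hh
  have h1 : nr (s • (A * (h : Mt n) * Y)) ≤ C + nr (-T) := by
    have h4 := X.nr_add (s • (A * (h : Mt n) * Y) + T) (-T)
    rw [add_neg_cancel_right] at h4
    linarith
  rw [s5_ns, abs_of_pos hs] at h1
  have h2 : nr (A * (h : Mt n) * Y) ≤ s⁻¹ * (C + nr (-T)) := by
    rw [← div_eq_inv_mul, le_div_iff₀ hs, mul_comm]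
    exact h1
  have h3 : (h : Mt n) = A⁻¹ * (A * (h : Mt n) * Y) * Y⁻¹ := by
    rw [Matrix.mul_assoc A⁻¹, Matrix.mul_assoc (A * (h : Mt n)), s5_ii' hY, Matrix.mul_one,
      ← Matrix.mul_assoc, s5_ii hA, Matrix.one_mul]
  show nr (h : Mt n) ≤ _
  calc nr (h : Mt n) = nr (A⁻¹ * (A * (h : Mt n) * Y) * Y⁻¹) := by rw [← h3]
    _ ≤ nr (A⁻¹ * (A * (h : Mt n) * Y)) * nr Y⁻¹ := s5_nm _ _
    _ ≤ (nr A⁻¹ * nr (A * (h : Mt n) * Y)) * nr Y⁻¹ :=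
      mul_le_mul_of_nonneg_right (s5_nm _ _) (s5_nn _)
    _ ≤ _ := mul_le_mul_of_nonneg_right (mul_le_mul_of_nonneg_left h2 (s5_nn _)) (s5_nn _)

theorem s3_shift {s : ℝ} (hs : 0 < s) {A Y : Mt n} (hA : A.det ≠ 0) (hY : Y.det ≠ 0)
    (B T : Mt n) : s • (A * B * Y) + T = s • (A * (B + A⁻¹ * (s⁻¹ • T) * Y⁻¹) * Y) := by
  have h1 : A * (A⁻¹ * (s⁻¹ • T) * Y⁻¹) * Y = s⁻¹ • T := by
    rw [Matrix.mul_assoc A⁻¹, ← Matrix.mul_assoc A, s5_ii' hA, Matrix.one_mul, Matrix.mul_assoc,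
      s5_ii hY, Matrix.mul_one]
  rw [Matrix.mul_add, Matrix.add_mul, h1, smul_add, smul_smul, mul_inv_cancel₀ hs.ne', one_smul]

theorem per_poisT_pr (hn : 2 ≤ n) (hO : GLL.Ord O) {Ψ : Mt n → ℂ} (hΨ : Sm Ψ) (b : ℕ)
    (hb : 0 < b) (R : ℝ) (K : ℕ) : ∃ C : ℝ, 0 ≤ C ∧
    ∀ s : ℝ, 0 < s → s ≤ 1 → ∀ X Y : Mt n, X.det ≠ 0 → Y.det ≠ 0 → nr X ≤ R → nr X⁻¹ ≤ R →
    nr Y ≤ R → nr Y⁻¹ ≤ R → ∀ T : Mt n, ∀ g : O → ℝ, (∀ a c : O, g (a + (b : O) * c) = g a) →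
    (∀ a, |g a| ≤ 1) → ‖(∑' h : O, (g h : ℂ) * Ψ (s • (X * h * Y) + T)) -
      ((mn b g * (covO O)⁻¹ * (s ^ (n ^ 2) * |X.det| ^ n * |Y.det| ^ n)⁻¹ : ℝ) : ℂ) *
        ∫ Z : Mt n, Ψ Z‖ ≤ C * s ^ K := by
  classical
  obtain ⟨C, hC0, hC⟩ := s5_core hn hO hΨ b hb R K
  obtain ⟨m, r, Φ, hΦ⟩ := s5_res hO b hb
  refine ⟨m * C, by positivity, fun s hs hs1 A Y hA hY hAR hAi hYR hYi T g hgp hg => ?_⟩
  have hbR : (0 : ℝ) < b := by exact_mod_cast hb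
  have hΦ' : ∀ a : O, ∀ k : Fin m, Φ (a, k) = r k + (b : O) * a := by
    intro a k
    apply Subtype.ext
    rw [hΦ]
    show (b : ℝ) • (a : Mt n) + (r k : Mt n) = (r k : Mt n) + ((b : O) : Mt n) * (a : Mt n)
    have hb' : ((b : O) : Mt n) = (b : Mt n) := by simp
    rw [hb', add_comm]
    congr 1
    rw [← nsmul_eq_mul, Nat.cast_smul_eq_nsmul]
  have hfs : (Function.support fun h : O =>
      (g h : ℂ) * Ψ (s • (A * (h : Mt n) * Y) + T)).Finite := by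
    refine (s3_fin hn hO hΨ hs hA hY T).subset fun h hh => ?_
    intro h1
    apply hh
    show (g h : ℂ) * Ψ (s • (A * (h : Mt n) * Y) + T) = 0
    rw [h1, mul_zero]
  have hsum : Summable fun h : O => (g h : ℂ) * Ψ (s • (A * (h : Mt n) * Y) + T) :=
    summable_of_hasFiniteSupport hfs
  have hsum2 : Summable fun p : O × Fin m =>
      (g (Φ p) : ℂ) * Ψ (s • (A * (Φ p : Mt n) * Y) + T) := (Φ.summable_iff).2 hsum
  rw [← Φ.tsum_eq]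
  rw [← (Equiv.prodComm (Fin m) O).tsum_eq]
  have hsum3 : Summable fun c : Fin m × O => (g (Φ (Equiv.prodComm (Fin m) O c)) : ℂ) *
      Ψ (s • (A * (Φ (Equiv.prodComm (Fin m) O c) : Mt n) * Y) + T) :=
    ((Equiv.prodComm (Fin m) O).summable_iff).2 hsum2
  rw [hsum3.tsum_prod]
  rw [tsum_fintype]
  set M0 : ℂ := (((covO O)⁻¹ * ((s * b) ^ (n ^ 2) * |A.det| ^ n * |Y.det| ^ n)⁻¹ : ℝ) : ℂ) *
          ∫ Z : Mt n, Ψ Z with hM0
  have hmain : ((mn b g * (covO O)⁻¹ * (s ^ (n ^ 2) * |A.det| ^ n * |Y.det| ^ n)⁻¹ : ℝ) : ℂ) *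
        ∫ Z : Mt n, Ψ Z = ∑ k : Fin m, (g (r k) : ℂ) * M0 := by
    rw [← Finset.sum_mul, ← Complex.ofReal_sum, ← s5_mn b m r Φ hΦ' g hgp, hM0, mn, ← mul_assoc,
      ← Complex.ofReal_mul]
    congr 2
    rw [mul_pow, div_eq_mul_inv]
    rw [mul_inv, mul_inv, mul_inv, mul_inv, mul_inv]
    ring
  rw [hmain, ← Finset.sum_sub_distrib]
  refine (norm_sum_le _ _).trans ?_
  have h1 : ∀ k : Fin m, ‖(∑' a : O, (g (Φ (Equiv.prodComm (Fin m) O (k, a))) : ℂ) *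
      Ψ (s • (A * (Φ (Equiv.prodComm (Fin m) O (k, a)) : Mt n) * Y) + T)) - (g (r k) : ℂ) * M0‖ ≤
        C * s ^ K := by
    intro k
    have h2 : ∀ a : O, (g (Φ (Equiv.prodComm (Fin m) O (k, a))) : ℂ) *
        Ψ (s • (A * (Φ (Equiv.prodComm (Fin m) O (k, a)) : Mt n) * Y) + T) =
        (g (r k) : ℂ) * Ψ (s • (A * ((b : ℝ) • (a : Mt n) +
          ((r k : Mt n) + A⁻¹ * (s⁻¹ • T) * Y⁻¹)) * Y)) := by
      intro a
      have h3 : Equiv.prodComm (Fin m) O (k, a) = (a, k) := rfl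
      rw [h3, s3_shift hs hA hY, hΦ (a, k), hΦ' a k, hgp, add_assoc]
    simp only [h2]
    rw [tsum_mul_left, ← mul_sub, norm_mul, Complex.norm_real, Real.norm_eq_abs]
    calc |g (r k)| * ‖(∑' a : O, Ψ (s • (A * ((b : ℝ) • (a : Mt n) +
          ((r k : Mt n) + A⁻¹ * (s⁻¹ • T) * Y⁻¹)) * Y))) - M0‖
        ≤ 1 * (C * s ^ K) :=
          mul_le_mul (hg _) (hC s hs hs1 A Y hA hY hAR hAi hYR hYi _) (norm_nonneg _) zero_le_one
      _ = C * s ^ K := one_mul _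
  calc ∑ k : Fin m, ‖(∑' a : O, (g (Φ (Equiv.prodComm (Fin m) O (k, a))) : ℂ) *
      Ψ (s • (A * (Φ (Equiv.prodComm (Fin m) O (k, a)) : Mt n) * Y) + T)) - (g (r k) : ℂ) * M0‖
      ≤ ∑ _k : Fin m, C * s ^ K := Finset.sum_le_sum fun k _ => h1 k
    _ = m * C * s ^ K := by
      rw [Finset.sum_const, Finset.card_univ, Fintype.card_fin, nsmul_eq_mul, mul_assoc]

end


end Pool.Agent.RZH

namespace Pool.Agent.RZH

theorem per_poisT : type_of% @per_poisT_pr := @per_poisT_pr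

end Pool.Agent.RZH
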