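import Pool.Agent.Lib_helper32.LAL.SDefs
import Pool.Agent.Lib_helper32.LALS.S_SG1
import Pool.Agent.Lib_helper75.RZG.Defs
import Pool.Agent.Lib_helper96.GLF.A_AB
import Pool.Agent.Lib_helper96.GLF.O_OA3
import Pool.Agent.Lib_helper96.GLF.X_XB
import Pool.Agent.Lib_helper96.GLL.Defs

/-!
# Project RZG, block S8a: reduction of the sum over `K` to `O`
-/

set_option autoImplicit false

namespace Pool.Agent.RZH

open MeasureTheory Matrix Complex Filter Topology Pool.Agent.GLL Pool.Agent.LAL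
open scoped ENNReal ContDiff

noncomputable section

variable {n : ℕ} {O : Subring (Mt n)}

theorem red_K_pr (hn : 2 ≤ n) (hO : GLL.Ord O) {F : Set (Mt n)} {R : ℝ} (hF : IsFG O F R) (b : ℕ)
    (g : O → ℝ) (hg : ∀ a c : O, g (a + (b : O) * c) = g a) (K : Idl O) (x : Mt n)
    (hx : |x.det| = 1) : ∃ x₁ ∈ K1 n R, ∃ g₁ : O → ℝ, (∀ a c : O, g₁ (a + (b : O) * c) = g₁ a) ∧
      g₁ 0 = g 0 ∧ (∀ a, ∃ h, g₁ a = g h) ∧
      ∀ (S : Mt n → ℂ) (s : ℝ) (Y : Mt n), 0 < s → (∑' h : O, open scoped Classical in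
          if h ≠ 0 ∧ (h : Mt n) ∈ K.1 then (g h : ℂ) * S (s • (x⁻¹ * h * Y)) else 0) =
        ∑' h : O, open scoped Classical in if h ≠ 0 then
          (g₁ h : ℂ) * S ((s * (N K : ℝ) ^ (1 / (n : ℝ))) • (x₁⁻¹ * h * Y)) else 0 := by
  classical
  have hn0 : (n : ℝ) ≠ 0 := by
    have : (0 : ℝ) < n := by exact_mod_cast (by omega : 0 < n)
    exact this.ne'
  obtain ⟨hk0, hK, hNK, hkd⟩ := IF_gen hn hO K
  set k : O := gen K with hk
  have hNKR : (0 : ℝ) < N K := by exact_mod_cast hNK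
  have hkdet : (k : Mt n).det ≠ 0 := by
    intro h0
    rw [h0, abs_zero] at hkd
    exact hNKR.ne hkd
  have hxdet : x.det ≠ 0 := by
    intro h0
    rw [h0, abs_zero] at hx
    exact zero_ne_one hx
  have hkx : ((k : Mt n)⁻¹ * x).det ≠ 0 := by
    rw [Matrix.det_mul, Matrix.det_nonsing_inv, Ring.inverse_eq_inv']
    exact mul_ne_zero (inv_ne_zero hkdet) hxdet
  obtain ⟨γ, hγ, -⟩ := hF.toIsFD.uniq _ hkx
  set x₂ : Mt n := ((γ : O) : Mt n) * ((k : Mt n)⁻¹ * x) with hx₂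
  have hγdet : ((γ : O) : Mt n).det ≠ 0 := by
    intro h0
    have := LAL.sg1_unit hn hO γ
    rw [h0, abs_zero] at this
    exact zero_ne_one this
  have hx₂det : |x₂.det| = (N K : ℝ)⁻¹ := by
    rw [hx₂, Matrix.det_mul, Matrix.det_mul, Matrix.det_nonsing_inv, Ring.inverse_eq_inv', abs_mul,
      abs_mul, LAL.sg1_unit hn hO γ, hx, abs_inv, hkd]
    ring
  have hx₂ne : x₂.det ≠ 0 := by
    intro h0
    rw [h0, abs_zero] at hx₂det
    exact (inv_pos.2 hNKR).ne hx₂det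
  have hhat : hat x₂ = (N K : ℝ) ^ (1 / (n : ℝ)) • x₂ := by
    rw [hat, hx₂det, Real.inv_rpow hNKR.le, ← Real.rpow_neg hNKR.le, neg_neg]
  have hc0 : 0 < (N K : ℝ) ^ (1 / (n : ℝ)) := Real.rpow_pos_of_pos hNKR _
  obtain ⟨hb1, hb2⟩ := hF.bd x₂ hγ
  have hdet1 : |(hat x₂).det| = 1 := X.hat_det (by omega) hx₂ne
  refine ⟨hat x₂, ⟨hdet1, hb1, hb2⟩, fun h => g (k * ((γ⁻¹ : Oˣ) : O) * h), ?_, ?_, ?_, ?_⟩
  · intro a c
    have h1 : k * ((γ⁻¹ : Oˣ) : O) * (a + (b : O) * c) =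
        k * ((γ⁻¹ : Oˣ) : O) * a + (b : O) * (k * ((γ⁻¹ : Oˣ) : O) * c) := by
      rw [mul_add]
      congr 1
      rw [← mul_assoc (k * ((γ⁻¹ : Oˣ) : O)), ← (Nat.cast_commute b (k * ((γ⁻¹ : Oˣ) : O))).eq,
        mul_assoc]
    show g (k * ((γ⁻¹ : Oˣ) : O) * (a + (b : O) * c)) = _
    rw [h1, hg]
  · show g (k * ((γ⁻¹ : Oˣ) : O) * 0) = _
    rw [mul_zero]
  · intro a
    exact ⟨_, rfl⟩
  · intro S s Y _hs
    -- the change of variables
    have hinj : Function.Injective fun h : O => k * ((γ⁻¹ : Oˣ) : O) * h := by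
      intro h h' he
      have h1 : (k : Mt n) * (((γ⁻¹ : Oˣ) : O) : Mt n) * (h : Mt n) =
          (k : Mt n) * (((γ⁻¹ : Oˣ) : O) : Mt n) * (h' : Mt n) := congrArg Subtype.val he
      have h2 : (((γ⁻¹ : Oˣ) : O) : Mt n) * (h : Mt n) = (((γ⁻¹ : Oˣ) : O) : Mt n) * (h' : Mt n) := by
        have := congrArg (fun M : Mt n => (k : Mt n)⁻¹ * M) h1
        simpa [← Matrix.mul_assoc, LAL.sg1_ii hkdet] using this
      have h3 : ((γ⁻¹ : Oˣ) : O) * h = ((γ⁻¹ : Oˣ) : O) * h' := Subtype.ext h2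
      calc h = (γ : O) * (((γ⁻¹ : Oˣ) : O) * h) := by rw [← mul_assoc, Units.mul_inv, one_mul]
        _ = (γ : O) * (((γ⁻¹ : Oˣ) : O) * h') := by rw [h3]
        _ = h' := by rw [← mul_assoc, Units.mul_inv, one_mul]
    have hz : ∀ h : O, k * ((γ⁻¹ : Oˣ) : O) * h ≠ 0 ↔ h ≠ 0 := by
      intro h
      constructor
      · rintro h1 rfl
        exact h1 (mul_zero _)
      · intro h1 h2
        apply h1
        apply hinj
        show k * ((γ⁻¹ : Oˣ) : O) * h = k * ((γ⁻¹ : Oˣ) : O) * 0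
        rw [h2, mul_zero]
    have hmem : ∀ h : O, ((k * ((γ⁻¹ : Oˣ) : O) * h : O) : Mt n) ∈ K.1 := by
      intro h
      rw [hK]
      refine ⟨((((γ⁻¹ : Oˣ) : O) * h : O) : Mt n), (((γ⁻¹ : Oˣ) : O) * h : O).2, ?_⟩
      show (k : Mt n) * ((((γ⁻¹ : Oˣ) : O) * h : O) : Mt n) = ((k * ((γ⁻¹ : Oˣ) : O) * h : O) : Mt n)
      rw [mul_assoc]
      rfl
    have hkey : ∀ h : O, x⁻¹ * ((k * ((γ⁻¹ : Oˣ) : O) * h : O) : Mt n) =
        (N K : ℝ) ^ (1 / (n : ℝ)) • ((hat x₂)⁻¹ * (h : Mt n)) := by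
      intro h
      have e1 : (hat x₂)⁻¹ = ((N K : ℝ) ^ (1 / (n : ℝ)))⁻¹ • x₂⁻¹ := by
        rw [hhat]
        refine Matrix.inv_eq_left_inv ?_
        rw [Matrix.smul_mul, Matrix.mul_smul, smul_smul, inv_mul_cancel₀ hc0.ne', one_smul,
          LAL.sg1_ii hx₂ne]
      rw [e1, Matrix.smul_mul, smul_smul, mul_inv_cancel₀ hc0.ne', one_smul]
      have e2 : x₂⁻¹ = x⁻¹ * ((k : Mt n) * (((γ⁻¹ : Oˣ) : O) : Mt n)) := by
        refine Matrix.inv_eq_left_inv ?_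
        have e3 : (((γ⁻¹ : Oˣ) : O) : Mt n) * ((γ : O) : Mt n) = 1 := by
          have : ((γ⁻¹ : Oˣ) : O) * (γ : O) = 1 := γ.inv_mul
          exact congrArg Subtype.val this
        rw [hx₂]
        calc x⁻¹ * ((k : Mt n) * (((γ⁻¹ : Oˣ) : O) : Mt n)) * (((γ : O) : Mt n) *
            ((k : Mt n)⁻¹ * x)) = x⁻¹ * ((k : Mt n) * ((((γ⁻¹ : Oˣ) : O) : Mt n) *
              ((γ : O) : Mt n)) * (k : Mt n)⁻¹) * x := by simp only [Matrix.mul_assoc]
          _ = 1 := by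
            rw [e3, Matrix.mul_one, LAL.sg1_ii' hkdet, Matrix.mul_one, LAL.sg1_ii hxdet]
      rw [e2]
      show x⁻¹ * ((k : Mt n) * (((γ⁻¹ : Oˣ) : O) : Mt n) * (h : Mt n)) = _
      simp only [Matrix.mul_assoc]
    rw [← hinj.tsum_eq]
    · refine tsum_congr fun h => ?_
      by_cases h0 : h = 0
      · rw [if_neg (not_not.2 h0), if_neg]
        rintro ⟨h1, -⟩
        exact (hz h).1 h1 h0
      · rw [if_pos ⟨(hz h).2 h0, hmem h⟩, if_pos h0]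
        congr 2
        rw [Matrix.mul_assoc, ← Matrix.mul_assoc, hkey h, Matrix.smul_mul, smul_smul]
    · intro h hh
      by_cases hc : h ≠ 0 ∧ (h : Mt n) ∈ K.1
      · obtain ⟨h0, h1⟩ := hc
        rw [hK] at h1
        obtain ⟨c, hcO, hce⟩ := h1
        refine ⟨(γ : O) * ⟨c, hcO⟩, ?_⟩
        show k * ((γ⁻¹ : Oˣ) : O) * ((γ : O) * ⟨c, hcO⟩) = h
        rw [mul_assoc, ← mul_assoc ((γ⁻¹ : Oˣ) : O), Units.inv_mul, one_mul]
        exact Subtype.ext hce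
      · exfalso
        apply hh
        show (if h ≠ 0 ∧ (h : Mt n) ∈ K.1 then
          (g h : ℂ) * S (s • (x⁻¹ * h * Y)) else 0) = 0
        rw [if_neg hc]


end

end Pool.Agent.RZH

namespace Pool.Agent.RZH

theorem red_K : type_of% @red_K_pr := @red_K_pr

end Pool.Agent.RZH
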