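import Pool.Agent.Lib_helper16.GLL.XDefs
import Pool.Agent.Lib_helper32.LAL.SD2
import Pool.Agent.Lib_helper32.LAL.SDefs
import Pool.Agent.Lib_helper32.LALS.S_EX
import Pool.Agent.Lib_helper32.LALS.S_SB
import Pool.Agent.Lib_helper32.LALS.S_SG3
import Pool.Agent.Lib_helper41.RZGF.R_F2
import Pool.Agent.Lib_helper41.RZGF.R_S3
import Pool.Agent.Lib_helper41.RZGF.R_S8a
import Pool.Agent.Lib_helper75.RZG.Defs
import Pool.Agent.Lib_helper96.GLF.O_OA3
import Pool.Agent.Lib_helper96.GLF.X_XA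
import Pool.Agent.Lib_helper96.GLL.Defs
import Pool.Agent.Lib_helper96.GLL.DefsB

/-!
# Project RZG, block F4: the sums over `h` in the far part
-/

set_option autoImplicit false

namespace Pool.Agent.RZH

open MeasureTheory Matrix Complex Filter Topology Pool.Agent.GLL Pool.Agent.LAL
open scoped ENNReal ContDiff

noncomputable section

variable {n : ℕ} {O : Subring (Mt n)}

/-- the sum over `O` -/
theorem f4_pt (hn : 2 ≤ n) (hO : GLL.Ord O) {Φ : Mt n → ℂ} (hΦ : Tst Φ)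
    (h0 : ∫ X : Mt n, Φ X = 0) {β : Mt n → ℝ} (hβ : Bt β) (b : ℕ) (hb : 0 < b) (R Cg : ℝ)
    (hCg : 0 < Cg) : ∃ C : ℝ, 0 ≤ C ∧ ∀ σ : ℝ, 0 < σ → ∀ x₁ ∈ K1 n R,
    ∀ Y ∈ K1 n R, ∀ X' : Mt n, nr X' ≤ R → Φ X' = 0 →
    ∀ g₁ : O → ℝ, (∀ a c : O, g₁ (a + (b : O) * c) = g₁ a) →
    (∀ a, |g₁ a| ≤ Cg) →
    ‖∑' h : O, open scoped Classical in if h ≠ 0 then
        (g₁ h : ℂ) * s2Th Φ (fun X => (β X : ℂ)) (σ • (x₁⁻¹ * h * Y)) X' else 0‖ ≤ C := by
  classical
  have hPs : Sm Φ := hΦ.toSm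
  have hPc : Continuous Φ := hPs.smooth.continuous
  obtain ⟨CP, hCP⟩ := hPs.supp
  obtain ⟨Cβ, hCβ⟩ := hβ.tst.supp
  obtain ⟨ε, hε, hεβ⟩ := hβ.tst.det
  have hβc' : Continuous fun X => (β X : ℂ) := hβ.tst.smooth.continuous
  have hβc : Continuous β := by
    have := Complex.continuous_re.comp hβc'
    simpa [Function.comp_def] using this
  have hβs : HasCompactSupport β := by
    refine HasCompactSupport.intro (X.cpt_ball Cβ) fun X hX => ?_
    by_contra h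
    exact hX (hCβ X (by exact_mod_cast h))
  have hΦs : HasCompactSupport Φ := by
    refine HasCompactSupport.intro (X.cpt_ball CP) fun X hX => ?_
    by_contra h
    exact hX (hCP X h)
  obtain ⟨Cm, hCm⟩ := hPc.bounded_above_of_compact_support hΦs
  obtain ⟨Ci, hCi0, hCi⟩ := sg3_inv n Cβ ε hε
  set R' : ℝ := max (max R (|R| * |Cβ|)) (|Ci| * |R|) with hR'
  obtain ⟨C1, hC1, hC1'⟩ := per_poisT hn hO hPs b hb R' 0
  obtain ⟨Cc, hCc, hcnt⟩ := cnt hn hO R ((CP + R) * Ci)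
  set Bn : ℝ := ∫ H : Mt n, ‖(β H : ℂ)‖ with hBn
  have hBn0 : 0 ≤ Bn := integral_nonneg fun _ => norm_nonneg _
  have hCm0 : 0 ≤ Cm := (norm_nonneg _).trans (hCm 0)
  have hβi : Integrable fun H : Mt n => ‖(β H : ℂ)‖ :=
    (hβc'.integrable_of_hasCompactSupport
      (hβs.comp_left (g := fun r : ℝ => (r : ℂ)) Complex.ofReal_zero)).norm
  refine ⟨Bn * (Cg * C1) + Cc * (Cg * (Bn * Cm)), by positivity,
    fun σ hσ x₁ hx₁ Y hY X' hX' hΦX g₁ hper hbd => ?_⟩
  obtain ⟨hx1, hx2, hx3⟩ := hx₁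
  obtain ⟨hY1, hY2, hY3⟩ := hY
  have hx0 : x₁.det ≠ 0 := sg3_ne hx1
  have hY0 : Y.det ≠ 0 := sg3_ne hY1
  have hxi0 : (x₁⁻¹).det ≠ 0 := by
    rw [Matrix.det_nonsing_inv, Ring.inverse_eq_inv']
    exact inv_ne_zero hx0
  have hR0 : 0 ≤ R := (X.nr_nonneg Y).trans hY2
  -- the finite set
  obtain ⟨hfin, hcard, -⟩ := hcnt σ hσ x₁⁻¹ Y hxi0 hY0 hx3
    (by rw [Matrix.nonsing_inv_nonsing_inv _ (isUnit_iff_ne_zero.2 hx0)]; exact hx2) hY2 hY3
  set A0 : Finset O := hfin.toFinset with hA0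
  set A : Finset O := insert 0 A0 with hA
  have hz : ∀ a : O, a ∉ A → ∀ H : Mt n, β H ≠ 0 → Φ (σ • (x₁⁻¹ * a * Y) * H + X') = 0 := by
    intro a ha H hH
    by_contra hne
    apply ha
    rw [hA, Finset.mem_insert]
    by_cases ha0 : a = 0
    · exact Or.inl ha0
    right
    rw [hA0, Set.Finite.mem_toFinset]
    refine ⟨ha0, ?_⟩
    have e0 := hCP _ hne
    have e1 : nr (σ • (x₁⁻¹ * (a : Mt n) * Y) * H) ≤ CP + R := by
      have h1 : σ • (x₁⁻¹ * (a : Mt n) * Y) * H =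
          (σ • (x₁⁻¹ * (a : Mt n) * Y) * H + X') + -X' := by abel
      rw [h1]
      refine (X.nr_add _ _).trans ?_
      have h2 : nr (-X') = nr X' := by
        have := X.nr_smul (-1) X'
        rwa [neg_one_smul, abs_neg, abs_one, one_mul] at this
      exact add_le_add e0 (h2.trans_le hX')
    have hH' : (β H : ℂ) ≠ 0 := by exact_mod_cast hH
    have e2 := hCi H (hCβ H hH') (hεβ H hH')
    have hHd : H.det ≠ 0 := by
      intro h'
      have := hεβ H hH'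
      rw [h', abs_zero] at this
      linarith
    have e3 : σ • (x₁⁻¹ * (a : Mt n) * Y) = σ • (x₁⁻¹ * (a : Mt n) * Y) * H * H⁻¹ := by
      rw [Matrix.mul_assoc _ H, Matrix.mul_nonsing_inv _ (isUnit_iff_ne_zero.2 hHd),
        Matrix.mul_one]
    rw [e3]
    refine (X.nr_mul _ _).trans ?_
    exact mul_le_mul e1 e2 (X.nr_nonneg _) ((X.nr_nonneg _).trans e1)
  have hs0 : ∀ a : O, a ∉ A → s2Th Φ (fun X => (β X : ℂ)) (σ • (x₁⁻¹ * a * Y)) X' = 0 := by
    intro a ha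
    unfold s2Th
    rw [← integral_zero (Mt n) ℂ (μ := volume)]
    congr 1
    funext H
    show (β H : ℂ) * _ = 0
    by_cases hH : β H = 0
    · rw [hH, Complex.ofReal_zero, zero_mul]
    · rw [hz a ha H hH, mul_zero]
  have hzero : s2Th Φ (fun X => (β X : ℂ)) 0 X' = 0 := by
    unfold s2Th
    rw [← integral_zero (Mt n) ℂ (μ := volume)]
    congr 1
    funext H
    rw [Matrix.zero_mul, zero_add, hΦX, mul_zero]
  have hbdd : ∀ B : Mt n, ‖s2Th Φ (fun X => (β X : ℂ)) B X'‖ ≤ Bn * Cm := by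
    intro B
    unfold s2Th
    refine (norm_integral_le_of_norm_le (hβi.mul_const Cm) (ae_of_all _ fun H => ?_)).trans ?_
    · rw [norm_mul]
      exact mul_le_mul_of_nonneg_left (hCm _) (norm_nonneg _)
    · rw [integral_mul_const]
  have h0A0 : (0 : O) ∉ A0 := by
    rw [hA0, Set.Finite.mem_toFinset]
    rintro ⟨h1, -⟩
    exact h1 rfl
  have e1 : (∑' h : O, if h ≠ 0 then
        (g₁ h : ℂ) * s2Th Φ (fun X => (β X : ℂ)) (σ • (x₁⁻¹ * h * Y)) X' else 0) =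
      ∑ h ∈ A0, (g₁ h : ℂ) * s2Th Φ (fun X => (β X : ℂ)) (σ • (x₁⁻¹ * h * Y)) X' := by
    rw [tsum_eq_sum (s := A0) (fun h hh => by
      by_cases h' : h ≠ 0
      · rw [if_pos h', hs0 h (by
          rw [hA, Finset.mem_insert]
          rintro (h1 | h1)
          · exact h' h1
          · exact hh h1), mul_zero]
      · rw [if_neg h'])]
    refine Finset.sum_congr rfl fun h hh => ?_
    rw [if_pos]
    rintro rfl
    exact h0A0 hh
  rw [e1]
  rcases le_or_gt σ 1 with hσ1 | hσ1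
  · -- Poisson summation
    have e1' : ∑ h ∈ A0, (g₁ h : ℂ) * s2Th Φ (fun X => (β X : ℂ)) (σ • (x₁⁻¹ * h * Y)) X' =
        ∑ h ∈ A, (g₁ h : ℂ) * s2Th Φ (fun X => (β X : ℂ)) (σ • (x₁⁻¹ * h * Y)) X' := by
      rw [hA, Finset.sum_insert h0A0]
      have e3 : σ • (x₁⁻¹ * ((0 : O) : Mt n) * Y) = 0 := by
        rw [ZeroMemClass.coe_zero, Matrix.mul_zero, Matrix.zero_mul, smul_zero]
      rw [e3, hzero, mul_zero, zero_add]
    rw [e1']
    have hfi : ∀ B : Mt n, Integrable fun H : Mt n => (β H : ℂ) * Φ (B * H + X') := by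
      intro B
      have h1 : Continuous fun H : Mt n => (β H : ℂ) * Φ (B * H + X') :=
        (Complex.continuous_ofReal.comp hβc).mul
          (hPc.comp ((continuous_const.mul continuous_id).add continuous_const))
      refine h1.integrable_of_hasCompactSupport ?_
      refine HasCompactSupport.mul_right ?_
      exact hβs.comp_left (g := fun r : ℝ => (r : ℂ)) Complex.ofReal_zero
    have e2 : ∑ h ∈ A, (g₁ h : ℂ) * s2Th Φ (fun X => (β X : ℂ)) (σ • (x₁⁻¹ * h * Y)) X' =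
        ∫ H : Mt n, (β H : ℂ) * ∑ h ∈ A, (g₁ h : ℂ) * Φ (σ • (x₁⁻¹ * h * Y) * H + X') := by
      simp only [Finset.mul_sum]
      rw [integral_finsetSum]
      · apply Finset.sum_congr rfl
        intro h _
        unfold s2Th
        rw [← integral_const_mul]
        congr 1
        funext H
        ring
      · intro h _
        have := (hfi (σ • (x₁⁻¹ * (h : Mt n) * Y))).const_mul (g₁ h : ℂ)
        refine this.congr (ae_of_all _ fun H => ?_)
        simp only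
        ring
    rw [e2]
    have hbound : ∀ H : Mt n, ‖(β H : ℂ) * ∑ h ∈ A, (g₁ h : ℂ) *
        Φ (σ • (x₁⁻¹ * h * Y) * H + X')‖ ≤ ‖(β H : ℂ)‖ * (Cg * C1) := by
      intro H
      rw [norm_mul]
      by_cases hH : β H = 0
      · rw [hH, Complex.ofReal_zero, norm_zero, zero_mul, zero_mul]
      refine mul_le_mul_of_nonneg_left ?_ (norm_nonneg _)
      have hH' : (β H : ℂ) ≠ 0 := by exact_mod_cast hH
      have a1 := hCβ H hH'
      have a2 := hεβ H hH'
      have a3 := hCi H a1 a2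
      have hHd : H.det ≠ 0 := by
        intro h'
        rw [h', abs_zero] at a2
        linarith
      have hYH : (Y * H).det ≠ 0 := by
        rw [Matrix.det_mul]
        exact mul_ne_zero hY0 hHd
      have b1 : nr (Y * H) ≤ R' := by
        refine (X.nr_mul _ _).trans ((mul_le_mul (hY2.trans (le_abs_self R))
          (a1.trans (le_abs_self Cβ)) (X.nr_nonneg _) (abs_nonneg _)).trans ?_)
        exact (le_max_right _ _).trans (le_max_left _ _)
      have b2 : nr (Y * H)⁻¹ ≤ R' := by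
        rw [sg3_mul_inv]
        refine (X.nr_mul _ _).trans ((mul_le_mul (a3.trans (le_abs_self Ci))
          (hY3.trans (le_abs_self R)) (X.nr_nonneg _) (abs_nonneg _)).trans ?_)
        exact le_max_right _ _
      have hRR : R ≤ R' := (le_max_left _ _).trans (le_max_left _ _)
      have b3 : nr (x₁⁻¹)⁻¹ ≤ R' := by
        rw [Matrix.nonsing_inv_nonsing_inv _ (isUnit_iff_ne_zero.2 hx0)]
        exact hx2.trans hRR
      have b4 := hC1' σ hσ hσ1 x₁⁻¹ (Y * H) hxi0 hYH (hx3.trans hRR) b3 b1 b2 X'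
        (fun a => g₁ a / Cg) (fun a c => by simp only [hper a c])
        (fun a => by
          rw [abs_div, abs_of_pos hCg, div_le_one hCg]
          exact hbd a)
      rw [h0, mul_zero, sub_zero, pow_zero, mul_one] at b4
      have b5 : (∑' h : O, ((g₁ h / Cg : ℝ) : ℂ) * Φ (σ • (x₁⁻¹ * h * (Y * H)) + X')) =
          (Cg : ℂ)⁻¹ * ∑ h ∈ A, (g₁ h : ℂ) * Φ (σ • (x₁⁻¹ * h * Y) * H + X') := by
        have c1 : ∀ h : O, σ • (x₁⁻¹ * (h : Mt n) * (Y * H)) = σ • (x₁⁻¹ * h * Y) * H := by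
          intro h
          rw [Matrix.smul_mul, Matrix.mul_assoc (x₁⁻¹ * (h : Mt n)) Y H]
        simp only [c1]
        rw [tsum_eq_sum (s := A) (fun h hh => by rw [hz h hh H hH, mul_zero]), Finset.mul_sum]
        apply Finset.sum_congr rfl
        intro h _
        push_cast
        ring
      rw [b5, norm_mul, norm_inv, Complex.norm_real, Real.norm_eq_abs, abs_of_pos hCg,
        inv_mul_le_iff₀ hCg] at b4
      exact b4
    refine (norm_integral_le_of_norm_le (hβi.mul_const _) (ae_of_all _ hbound)).trans ?_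
    rw [integral_mul_const, ← hBn]
    have : 0 ≤ Cc * (Cg * (Bn * Cm)) := by positivity
    linarith
  · -- few elements
    have hcard1 : (A0.card : ℝ) ≤ Cc := by
      have h1 : (A0.card : ℝ) ≤ Cc * σ ^ (-((n : ℝ) ^ 2)) := by
        refine le_trans (le_of_eq ?_) hcard
        rw [hA0, Nat.card_coe_set_eq, Set.ncard_eq_toFinset_card _ hfin]
      have h2 : σ ^ (-((n : ℝ) ^ 2)) ≤ 1 :=
        Real.rpow_le_one_of_one_le_of_nonpos hσ1.le (by
          have : 0 ≤ (n : ℝ) ^ 2 := by positivity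
          linarith)
      calc (A0.card : ℝ) ≤ Cc * σ ^ (-((n : ℝ) ^ 2)) := h1
        _ ≤ Cc * 1 := by gcongr
        _ = Cc := mul_one _
    have h3 : ‖∑ h ∈ A0, (g₁ h : ℂ) * s2Th Φ (fun X => (β X : ℂ)) (σ • (x₁⁻¹ * h * Y)) X'‖ ≤
        ∑ _h ∈ A0, Cg * (Bn * Cm) := by
      refine (norm_sum_le _ _).trans (Finset.sum_le_sum fun h _ => ?_)
      rw [norm_mul, Complex.norm_real, Real.norm_eq_abs]
      exact mul_le_mul (hbd h) (hbdd _) (norm_nonneg _) hCg.le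
    refine h3.trans ?_
    rw [Finset.sum_const, nsmul_eq_mul]
    have h4 : (A0.card : ℝ) * (Cg * (Bn * Cm)) ≤ Cc * (Cg * (Bn * Cm)) := by gcongr
    have h5 : 0 ≤ Bn * (Cg * C1) := by positivity
    linarith

theorem f4_K1 {R R' : ℝ} (h : R ≤ R') {x : Mt n} (hx : x ∈ K1 n R) : x ∈ K1 n R' :=
  ⟨hx.1, hx.2.1.trans h, hx.2.2.trans h⟩

/-- the sums over `h ∈ K` are bounded; `|det X'|` small, so that `Φ(X') = 0` -/
theorem far_K_pr (hn : 2 ≤ n) (hO : GLL.Ord O) {Φ : Mt n → ℂ} (hΦ : Tst Φ)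
    (h0 : ∫ X : Mt n, Φ X = 0) {β : Mt n → ℝ} (hβ : Bt β) (b₀ : ℕ) (hb₀ : 0 < b₀) (R : ℝ) :
    ∃ C : ℝ, 0 < C ∧ ∀ I : Idl O, (b₀ : Mt n) ∈ I.1 → ∀ (K : Idl O) (a' : O) (s : ℝ), 0 < s →
      ∀ x ∈ K1 n R, ∀ Y ∈ K1 n R, ∀ X' : Mt n, nr X' ≤ R → Φ X' = 0 →
        ‖∑' h : O, (open scoped Classical in if h ≠ 0 ∧ (h : Mt n) ∈ K.1 then
          (gF b₀ I h a' : ℂ) * s2Th Φ (fun X => (β X : ℂ)) (s • (x⁻¹ * h * Y)) X' else 0)‖ ≤ C := by
  classical
  obtain ⟨hper, Cg, hCg, hgb⟩ := gF_facts hn hO b₀ hb₀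
  obtain ⟨F, R0, hF⟩ := exFG hn hO
  obtain ⟨C, hC0, hC⟩ := f4_pt hn hO hΦ h0 hβ b₀ hb₀ (max R R0) Cg hCg
  refine ⟨C + 1, by linarith, ?_⟩
  intro I hI K a' s hs x hx Y hY X' hX' hΦX
  obtain ⟨x₁, hx₁, g₁, hp, -, hg, hred⟩ := red_K hn hO hF b₀ (fun h => gF b₀ I h a')
    (fun a c => hper I hI a c a') K x hx.1
  have hNK : 0 < (N K : ℝ) := by exact_mod_cast (IF_gen hn hO K).2.2.1
  have h1 := hred (fun B => s2Th Φ (fun X => (β X : ℂ)) B X') s Y hs
  have h2 := hC (s * (N K : ℝ) ^ (1 / (n : ℝ))) (by positivity) x₁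
    (f4_K1 (le_max_right _ _) hx₁) Y (f4_K1 (le_max_left _ _) hY) X'
    (hX'.trans (le_max_left _ _)) hΦX g₁ hp (fun a => by
      obtain ⟨h, hh⟩ := hg a
      rw [hh]
      exact hgb I hI h a')
  rw [← h1] at h2
  linarith


end

end Pool.Agent.RZH

namespace Pool.Agent.RZH

theorem far_K : type_of% @far_K_pr := @far_K_pr

end Pool.Agent.RZH
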