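import Pool.Agent.Lib_helper75.RZG.Defs
import Pool.Agent.Lib_helper94.LAL.S2D
import Pool.Agent.Lib_helper94.RZG.F1
import Pool.Agent.Lib_helper94.RZG.N0
import Pool.Agent.Lib_helper94.RZG.N1
import Pool.Agent.Lib_helper96.GLL.Defs
import Pool.Agent.Lib_helper96.GLL.DefsB

set_option autoImplicit false

namespace Pool.Agent.RZH

open MeasureTheory Matrix Complex Filter Topology Pool.Agent.GLL Pool.Agent.LAL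
open scoped ENNReal ContDiff

noncomputable section

variable {n : ℕ} {O : Subring (Mt n)}

theorem N1_pr (hn : 2 ≤ n) (hO : GLL.Ord O) {Φ β : Mt n → ℂ}
    (hΦ : ContDiff ℝ ∞ (fun x : Fin n → Fin n → ℝ => Φ (Matrix.of x))) (hΦc : HasCompactSupport Φ)
    (hβ : ContDiff ℝ ∞ (fun x : Fin n → Fin n → ℝ => β (Matrix.of x))) (hβc : HasCompactSupport β)
    (hβd : ∃ c : ℝ, 0 < c ∧ ∀ H, β H ≠ 0 → c ≤ |H.det|)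
    {b0 : ℕ} (hb0 : 0 < b0) (R : ℝ) {θ θ1 : ℝ} (hθ : θ + θ1 < 1) (k : ℕ) :
    ∃ C : ℝ, ∀ Q z z' : ℝ, 1 ≤ Q → 0 < z → z ≤ z' → (z' / z) ^ n ≤ Q ^ θ1 → (z ^ n)⁻¹ ≤ Q ^ 3 →
      ∀ x y Y : Mt n, |x.det| = 1 → |y.det| = 1 → |Y.det| = 1 → nr x ≤ R → nr y ≤ R → nr Y ≤ R →
      ∀ A A' : Idl O, (N A : ℝ) ≤ Q ^ θ → (N A' : ℝ) ≤ Q ^ θ →
      ∀ D : AddSubgroup (Mt n), D ≤ O.toAddSubgroup → (∀ a ∈ O, (b0 : Mt n) * a ∈ D) →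
      ∀ h : O, h ≠ 0 →
        Summable (fun p : O × O => s2T2 O Φ β Q z z' x y Y h A.1 A'.1 D p) ∧
        ‖∑' p : O × O, s2T2 O Φ β Q z z' x y Y h A.1 A'.1 D p -
          ((((covO O ^ 2)⁻¹ * (((N A : ℝ) * N A') ^ n)⁻¹ * ((D.relIndex O.toAddSubgroup : ℝ))⁻¹ *
            ((A.1 ⊔ A'.1 ⊔ hD (h : Mt n) D).relIndex O.toAddSubgroup : ℝ) *
            Q ^ n * (z' ^ (n ^ 2))⁻¹ : ℝ)) : ℂ) * s2J Φ β (z / z') (BB Q z x Y h)‖ ≤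
          C * (Q ^ k)⁻¹ :=
  RZG.N1 hn hO hΦ hΦc hβ hβc hβd hb0 R hθ k

theorem N1_supp_pr (hn : 2 ≤ n) {Φ β : Mt n → ℂ} (hΦc : HasCompactSupport Φ)
    (hβc : HasCompactSupport β) (hβd : ∃ c : ℝ, 0 < c ∧ ∀ H, β H ≠ 0 → c ≤ |H.det|) :
    ∃ C : ℝ, 0 ≤ C ∧ (∀ (τ : ℝ) (B H W : Mt n), 0 ≤ τ → τ ≤ 1 →
        Φ (B * H + τ • W) * (starRingEnd ℂ) (Φ W) * β H ≠ 0 → nr B ≤ C) ∧
      (∀ (τ : ℝ) (B : Mt n), 0 ≤ τ → τ ≤ 1 → s2J Φ β τ B ≠ 0 → nr B ≤ C) ∧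
      ∀ Q z z' : ℝ, 0 < Q → 0 < z → z ≤ z' → ∀ x y Y h : Mt n, x.det ≠ 0 → y.det ≠ 0 →
        Y.det ≠ 0 → h.det ≠ 0 → ∀ a a' : Mt n, s2W2 Φ β Q z z' x y Y h a a' ≠ 0 →
        nr (BB Q z x Y h) ≤ C :=
  RZG.N1_supp hn hΦc hβc hβd

theorem F1_pr (hn : 2 ≤ n) (hO : GLL.Ord O) {Φ β : Mt n → ℂ}
    (hΦ : ContDiff ℝ ∞ (fun x : Fin n → Fin n → ℝ => Φ (Matrix.of x))) (hΦc : HasCompactSupport Φ)
    (hβ : ContDiff ℝ ∞ (fun x : Fin n → Fin n → ℝ => β (Matrix.of x))) (hβc : HasCompactSupport β)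
    (hβd : ∃ c : ℝ, 0 < c ∧ ∀ H, β H ≠ 0 → c ≤ |H.det|)
    {b0 : ℕ} (hb0 : 0 < b0) (R : ℝ) {θ : ℝ} (hθ : θ < 1) (k : ℕ) :
    ∃ C : ℝ, ∀ Q z : ℝ, 1 ≤ Q →
      ∀ x y Y : Mt n, |y.det| = 1 → |Y.det| = 1 →
      ∀ A : Idl O, (N A : ℝ) ≤ Q ^ θ →
      ∀ D : AddSubgroup (Mt n), D ≤ O.toAddSubgroup → (∀ a ∈ O, (b0 : Mt n) * a ∈ D) →
      ∀ h : O, h ≠ 0 → ∀ a' : Mt n, nr (z • (x⁻¹ * a' * y)) ≤ R →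
        Summable (s2T1 O Φ β Q z x y Y h A.1 D a') ∧
        ‖∑' a : O, s2T1 O Φ β Q z x y Y h A.1 D a' a -
          ((open scoped Classical in if a' ∈ A.1 ⊔ hD (h : Mt n) D then
            (covO O)⁻¹ * ((N A : ℝ) ^ n)⁻¹ * ((D.relIndex O.toAddSubgroup : ℝ))⁻¹ *
            ((A.1 ⊔ hD (h : Mt n) D).relIndex O.toAddSubgroup : ℝ) * Q ^ n else 0 : ℝ) : ℂ) *
            s2Th Φ β (BB Q z x Y h) (z • (x⁻¹ * a' * y))‖ ≤ C * (Q ^ k)⁻¹ := by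
  classical
  obtain ⟨C, hC⟩ := RZG.F1 hn hO hΦ hΦc hβ hβc hβd hb0 R hθ k
  refine ⟨C, ?_⟩
  intro Q z hQ x y Y hy hY A hA D hDO hDb h hh a' hX
  have := hC Q z hQ x y Y hy hY A hA D hDO hDb h hh a' hX
  refine ⟨this.1, ?_⟩
  refine le_trans (le_of_eq ?_) this.2
  congr


end

end Pool.Agent.RZH

namespace Pool.Agent.RZH

theorem F1 : type_of% @F1_pr := @F1_pr

theorem N1 : type_of% @N1_pr := @N1_pr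

theorem N1_supp : type_of% @N1_supp_pr := @N1_supp_pr

end Pool.Agent.RZH
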