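import Pool.Agent.Lib_helper32.LAL.SD2
import Pool.Agent.Lib_helper32.LAL.SDefs
import Pool.Agent.Lib_helper32.LALS.S_SA1
import Pool.Agent.Lib_helper32.LALS.S_SB
import Pool.Agent.Lib_helper32.LALS.S_SD2
import Pool.Agent.Lib_helper32.LALS.S_SH1
import Pool.Agent.Lib_helper41.RZGF.R_F2
import Pool.Agent.Lib_helper41.RZGF.R_F3
import Pool.Agent.Lib_helper41.RZGF.R_F4
import Pool.Agent.Lib_helper41.RZGF.R_N1
import Pool.Agent.Lib_helper41.RZGF.R_S6a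
import Pool.Agent.Lib_helper42.GLM.Defs
import Pool.Agent.Lib_helper75.RZG.Defs
import Pool.Agent.Lib_helper94.LAL.S2
import Pool.Agent.Lib_helper94.LAL.S2D
import Pool.Agent.Lib_helper96.GLF.O_OA3
import Pool.Agent.Lib_helper96.GLF.O_OE
import Pool.Agent.Lib_helper96.GLF.O_OI
import Pool.Agent.Lib_helper96.GLF.T_TK
import Pool.Agent.Lib_helper96.GLF.X_XA
import Pool.Agent.Lib_helper96.GLL.Defs
import Pool.Agent.Lib_helper96.GLL.DefsB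
import Pool.Agent.Lib_helper96.LAL.Tr

/-!
# Project RZG, block F5: the sum over the pairs in the far part
-/

set_option autoImplicit false

namespace Pool.Agent.RZH

open MeasureTheory Matrix Complex Filter Topology Pool.Agent.GLL Pool.Agent.LAL
open scoped ENNReal ContDiff

noncomputable section

variable {n : ℕ} {O : Subring (Mt n)}

theorem f5_swap {Φ β : Mt n → ℂ} {Q z z' : ℝ} {x y Y h : Mt n} {A A' D : AddSubgroup (Mt n)}
    (As As' : Finset O) (h1 : ∀ a : O, a ∉ As → Φ (z' • (x⁻¹ * a * y)) = 0)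
    (h2 : ∀ a : O, a ∉ As' → Φ (z • (x⁻¹ * a * y)) = 0) :
    ∑' p : O × O, s2T2 O Φ β Q z z' x y Y h A A' D p =
      ∑ a' ∈ As, (open scoped Classical in if (a' : Mt n) ∈ A' then
        (starRingEnd ℂ) (Φ (z' • (x⁻¹ * a' * y))) else 0) *
        ∑' a : O, s2T1 O Φ β Q z x y Y h A D a' a := by
  classical
  have hp : ∀ p, p ∉ As' ×ˢ As → s2T2 O Φ β Q z z' x y Y h A A' D p = 0 := by
    intro p hp
    rw [Finset.mem_product, not_and_or] at hp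
    unfold s2T2 s2W2
    split_ifs
    · rcases hp with hp | hp
      · rw [h2 _ hp, zero_mul, zero_mul]
      · rw [h1 _ hp, map_zero, mul_zero, zero_mul]
    · rfl
  rw [tsum_eq_sum (s := As' ×ˢ As) (fun p hpp => hp p hpp), Finset.sum_product_right]
  refine Finset.sum_congr rfl fun a' _ => ?_
  have h3 : ∀ a : O, a ∉ As' → s2T1 O Φ β Q z x y Y h A D a' a = 0 := by
    intro a ha
    unfold s2T1
    split_ifs
    · rw [h2 _ ha, zero_mul]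
    · rfl
  rw [tsum_eq_sum (s := As') (fun a ha => h3 a ha), Finset.mul_sum]
  refine Finset.sum_congr rfl fun a _ => ?_
  unfold s2T2 s2T1 s2W2
  by_cases c1 : (a' : Mt n) ∈ A'
  · by_cases c2 : (a : Mt n) ∈ A ∧ ∃ δ ∈ D, (a : Mt n) - a' = h * δ
    · rw [if_pos ⟨c2.1, c1, c2.2⟩, if_pos c1, if_pos c2]
      ring
    · rw [if_neg (fun c => c2 ⟨c.1, c.2.2⟩), if_neg c2, mul_zero]
  · rw [if_neg (fun c => c1 c.2.1), if_neg c1, zero_mul]

theorem f5_fin (hn : 2 ≤ n) {Φ : Mt n → ℂ} {CP ε : ℝ}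
    (hCP : ∀ X, Φ X ≠ 0 → nr X ≤ CP) (hε : 0 < ε) (hΦε : ∀ X, Φ X ≠ 0 → ε ≤ |X.det|)
    {R : ℝ} {Ca : ℝ} (hcnt : ∀ s : ℝ, 0 < s →
    ∀ X Y : Mt n, X.det ≠ 0 → Y.det ≠ 0 → nr X ≤ R → nr X⁻¹ ≤ R → nr Y ≤ R → nr Y⁻¹ ≤ R →
      {a : O | a ≠ 0 ∧ nr (s • (X * (a : Mt n) * Y)) ≤ CP}.Finite ∧
      (Nat.card {a : O | a ≠ 0 ∧ nr (s • (X * (a : Mt n) * Y)) ≤ CP} : ℝ) ≤
        Ca * s ^ (-((n : ℝ) ^ 2)) ∧
      (Ca < s → {a : O | a ≠ 0 ∧ nr (s • (X * (a : Mt n) * Y)) ≤ CP} = ∅))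
    {x y : Mt n} (hx : x ∈ K1 n R) (hy : y ∈ K1 n R) {z : ℝ} (hz : 0 < z) :
    ∃ As : Finset O, (∀ a : O, a ∉ As → Φ (z • (x⁻¹ * a * y)) = 0) ∧
      (As.card : ℝ) ≤ Ca * z ^ (-((n : ℝ) ^ 2)) := by
  classical
  have hxd : x.det ≠ 0 := LAL94.ne_of_abs_one hx.1
  have hyd : y.det ≠ 0 := LAL94.ne_of_abs_one hy.1
  have hinv : (x⁻¹)⁻¹ = x := Matrix.nonsing_inv_nonsing_inv _ (isUnit_iff_ne_zero.mpr hxd)
  have hxid : (x⁻¹).det ≠ 0 := by
    rw [← abs_pos, LAL94.dinv, hx.1]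
    norm_num
  obtain ⟨hfin, hcard, -⟩ := hcnt z hz x⁻¹ y hxid hyd hx.2.2 (by rw [hinv]; exact hx.2.1)
    hy.2.1 hy.2.2
  refine ⟨hfin.toFinset, ?_, ?_⟩
  · intro a ha
    by_contra hne
    apply ha
    rw [Set.Finite.mem_toFinset]
    refine ⟨?_, hCP _ hne⟩
    rintro rfl
    have h1 := hΦε _ hne
    rw [ZeroMemClass.coe_zero, Matrix.mul_zero, Matrix.zero_mul, smul_zero] at h1
    have : Nonempty (Fin n) := ⟨⟨0, by omega⟩⟩
    rw [Matrix.det_zero, abs_zero] at h1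
    linarith
  · refine le_trans (le_of_eq ?_) hcard
    rw [Nat.card_coe_set_eq, Set.ncard_eq_toFinset_card _ hfin]

/-- the algebra of the local factors -/
theorem f5_alg (hn : 2 ≤ n) (hO : GLL.Ord O) {b₀ : ℕ} (hb₀ : 0 < b₀) (I J : Idl O)
    (hI : (b₀ : Mt n) ∈ I.1) (hJ : (N J).Coprime b₀) (h a' : O) :
    (∑ D ∈ PI (tr O) b₀, (mob (tr O) b₀ D : ℝ) *
      ((ix O (tS D) : ℝ)⁻¹ * (open scoped Classical in
        if (a' : Mt n) ∈ (infI I J).1 ⊔ hD (h : Mt n) (tS D) then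
          (ix O ((infI I J).1 ⊔ hD (h : Mt n) (tS D)) : ℝ) else 0))) =
      gF b₀ I h a' *
        ∑ K ∈ AI J, (open scoped Classical in if (h : Mt n) ∈ K.1 then fK a' K else 0) := by
  classical
  rw [← fK_sum hn hO J h a']
  unfold gF
  rw [Finset.sum_mul]
  refine Finset.sum_congr rfl fun D hD' => ?_
  have hDm : (b₀ : Mt n) ∈ D.1 := (mem_PI hn (ord_tr hn hO) hb₀ D).1 hD'
  have h1 := mem_fac hn hO hb₀ I J hI hJ D hDm h a'
  have h2 := LAL.ix_fac hn hO hb₀ dvd_rfl I J hI hJ D hDm h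
  by_cases c1 : (a' : Mt n) ∈ I.1 ⊔ hD (h : Mt n) (tS D)
  · by_cases c2 : (a' : Mt n) ∈ J.1 ⊔ hD (h : Mt n) O.toAddSubgroup
    · rw [if_pos (h1.2 ⟨c1, c2⟩), if_pos c1, if_pos c2, h2]
      push_cast
      ring
    · rw [if_neg (fun c => c2 (h1.1 c).2), if_neg c2, mul_zero, mul_zero, mul_zero]
  · rw [if_neg (fun c => c1 (h1.1 c).1), if_neg c1]
    ring

theorem f5_num {cH cA Cc Ca Cm c1 Q : ℝ} {M n : ℕ} (h1 : 0 ≤ cA) (h2 : 0 ≤ Cc)
    (h3 : 0 ≤ Ca) (h4 : 0 ≤ Cm) (h5 : 0 ≤ c1) (hQ1 : 1 ≤ Q) (hH : cH ≤ Cc * Q ^ (2 * n))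
    (hA : cA ≤ Ca * Q ^ (2 * n)) :
    cH * (cA * (Cm * (c1 * (Q ^ (M + 5 * n))⁻¹))) ≤ Cc * (Ca * (Cm * c1)) * (Q ^ M)⁻¹ := by
  have hQ0 : 0 < Q := by linarith
  calc cH * (cA * (Cm * (c1 * (Q ^ (M + 5 * n))⁻¹)))
        ≤ (Cc * Q ^ (2 * n)) * ((Ca * Q ^ (2 * n)) * (Cm * (c1 * (Q ^ (M + 5 * n))⁻¹))) := by
          gcongr
      _ = Cc * (Ca * (Cm * c1)) * (Q ^ M)⁻¹ * (Q ^ n)⁻¹ := by
          rw [show M + 5 * n = M + 2 * n + 2 * n + n by ring, pow_add, pow_add, pow_add]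
          field_simp
      _ ≤ Cc * (Ca * (Cm * c1)) * (Q ^ M)⁻¹ * 1 := by
          refine mul_le_mul_of_nonneg_left (inv_le_one_of_one_le₀ (one_le_pow₀ hQ1))
            (by positivity)
      _ = _ := mul_one _

theorem f5_sums {ι κ α : Type*} (Ds : Finset ι) (Ks : Finset κ) (Hs As : Finset α) (m : ι → ℂ)
    (M1 : ℂ) (w : α → ℂ) (co : ι → α → α → ℂ) (Th g : α → α → ℂ) (f : α → κ → ℂ)
    (P : α → κ → Prop) [∀ h K, Decidable (P h K)]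
    (hh : ∀ h a, ∑ D ∈ Ds, m D * co D h a = g h a * ∑ K ∈ Ks, if P h K then f a K else 0) :
    ∑ D ∈ Ds, m D * ∑ h ∈ Hs, ∑ a ∈ As, w a * (M1 * co D h a * Th h a) =
      ∑ a ∈ As, M1 * (w a * ∑ K ∈ Ks, f a K * ∑ h ∈ Hs,
        if P h K then g h a * Th h a else 0) := by
  have h1 : ∀ h a, ∑ D ∈ Ds, m D * (w a * (M1 * co D h a * Th h a)) =
      M1 * (w a * (g h a * Th h a * ∑ K ∈ Ks, if P h K then f a K else 0)) := by
    intro h a
    calc ∑ D ∈ Ds, m D * (w a * (M1 * co D h a * Th h a)) =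
        M1 * (w a * Th h a) * ∑ D ∈ Ds, m D * co D h a := by
          rw [Finset.mul_sum]
          exact Finset.sum_congr rfl fun D _ => by ring
      _ = _ := by
          rw [hh]
          ring
  calc ∑ D ∈ Ds, m D * ∑ h ∈ Hs, ∑ a ∈ As, w a * (M1 * co D h a * Th h a)
      = ∑ D ∈ Ds, ∑ h ∈ Hs, ∑ a ∈ As, m D * (w a * (M1 * co D h a * Th h a)) := by
        refine Finset.sum_congr rfl fun D _ => ?_
        rw [Finset.mul_sum]
        refine Finset.sum_congr rfl fun h _ => ?_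
        rw [Finset.mul_sum]
    _ = ∑ h ∈ Hs, ∑ a ∈ As, ∑ D ∈ Ds, m D * (w a * (M1 * co D h a * Th h a)) := by
        rw [Finset.sum_comm]
        refine Finset.sum_congr rfl fun h _ => ?_
        rw [Finset.sum_comm]
    _ = ∑ a ∈ As, ∑ h ∈ Hs, M1 * (w a * (g h a * Th h a *
          ∑ K ∈ Ks, if P h K then f a K else 0)) := by
        rw [Finset.sum_comm]
        exact Finset.sum_congr rfl fun a _ => Finset.sum_congr rfl fun h _ => h1 h a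
    _ = _ := by
        refine Finset.sum_congr rfl fun a _ => ?_
        rw [← Finset.mul_sum, ← Finset.mul_sum]
        congr 2
        calc ∑ h ∈ Hs, g h a * Th h a * ∑ K ∈ Ks, (if P h K then f a K else 0)
            = ∑ h ∈ Hs, ∑ K ∈ Ks, g h a * Th h a * (if P h K then f a K else 0) :=
              Finset.sum_congr rfl fun h _ => Finset.mul_sum _ _ _
          _ = ∑ K ∈ Ks, ∑ h ∈ Hs, g h a * Th h a * (if P h K then f a K else 0) :=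
              Finset.sum_comm
          _ = _ := by
              refine Finset.sum_congr rfl fun K _ => ?_
              rw [Finset.mul_sum]
              refine Finset.sum_congr rfl fun h _ => ?_
              split_ifs
              · ring
              · ring

theorem far_SW_pr (hn : 2 ≤ n) (hO : GLL.Ord O) {Φ : Mt n → ℂ} (hΦ : Tst Φ)
    (h0 : ∫ X : Mt n, Φ X = 0) {β : Mt n → ℝ} (hβ : Bt β) (b₀ : ℕ) (hb₀ : 0 < b₀) (R A₁ : ℝ)
    {θ : ℝ} (hθ0 : 0 ≤ θ) (hθ : θ < 1) (M : ℕ) : ∃ C r₁ Q0 : ℝ, 0 ≤ C ∧ 0 ≤ r₁ ∧ 1 ≤ Q0 ∧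
      ∀ Q u u' : ℝ, Q0 ≤ Q → u + r₁ ≤ u' → u' ≤ A₁ → -(2 * Real.log Q) ≤ u →
      ∀ x ∈ K1 n R, ∀ y ∈ K1 n R, ∀ Y ∈ K1 n R, ∀ I J A' : Idl O, (b₀ : Mt n) ∈ I.1 →
      (N J).Coprime b₀ → (N J : ℝ) ≤ Q ^ θ →
        ‖SW b₀ β Φ Q u u' (infI I J) A' x y Y‖ ≤
          C * Q ^ n * ((N J : ℝ) ^ n)⁻¹ * (∑' a' : O, (open scoped Classical in
            if (a' : Mt n) ∈ A'.1 then ‖Φ (Real.exp (u' / n) • (x⁻¹ * a' * y))‖ *
              ∑ K ∈ AI J, |fK a' K| else 0)) + C * (Q ^ M)⁻¹ := by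
  classical
  obtain ⟨-, hΦc, -, -⟩ := Tst_rap hn hΦ
  obtain ⟨-, hβc, -, -⟩ := Tst_rap hn hβ.tst
  have hβd : ∃ c : ℝ, 0 < c ∧ ∀ H, (fun X => (β X : ℂ)) H ≠ 0 → c ≤ |H.det| := hβ.tst.det
  obtain ⟨CP, hCP⟩ := hΦ.supp
  obtain ⟨ε, hε, hεΦ⟩ := hΦ.det
  obtain ⟨Cd, hCd⟩ := (X.cpt_ball (n := n) CP).exists_bound_of_continuousOn
    (f := fun X : Mt n => X.det) (continuous_id.matrix_det).continuousOn
  have hΦcont : Continuous Φ := hΦ.toSm.smooth.continuous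
  obtain ⟨Cm, hCm⟩ := hΦcont.bounded_above_of_compact_support hΦc
  have hCm0 : 0 ≤ Cm := (norm_nonneg _).trans (hCm 0)
  set θ' : ℝ := (1 + θ) / 2 with hθ'
  have hθ1 : θ' < 1 := by rw [hθ']; linarith
  have hθ2 : 0 < θ' - θ := by rw [hθ']; linarith
  obtain ⟨C1, hC1⟩ := F1 hn hO hΦ.smooth hΦc hβ.tst.smooth hβc hβd hb₀ CP hθ1 (M + 5 * n)
  obtain ⟨CB, hCB0, hS0, -, hW0⟩ := N1_supp hn hΦc hβc hβd
  obtain ⟨Cc, hCc, hcnt⟩ := cnt hn hO R CB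
  obtain ⟨Ca, hCa, hcnta⟩ := cnt hn hO R CP
  obtain ⟨Cf, hCf, hfar⟩ := far_K hn hO hΦ h0 hβ b₀ hb₀ (max R CP)
  set Smb : ℝ := ∑ D ∈ PI (tr O) b₀, |((mob (tr O) b₀ D : ℤ) : ℝ)| with hSmb
  have hSmb0 : 0 ≤ Smb := Finset.sum_nonneg fun _ _ => abs_nonneg _
  have hcv : 0 < covO O := T.covO_pos hO
  set CE : ℝ := Smb * (Cc * (Ca * (Cm * |C1|))) with hCE
  have hCE0 : 0 ≤ CE := by positivity
  set Cd' : ℝ := |Cd| + 1 with hCd'
  have hCd'0 : 0 < Cd' := by positivity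
  refine ⟨(covO O)⁻¹ * Cf + CE, max 0 (Real.log (Cd' / ε) + 1),
    max 1 (((b₀ : ℝ) ^ n) ^ (1 / (θ' - θ))), by positivity, le_max_left _ _,
    le_max_left _ _, ?_⟩
  intro Q u u' hQ huu hu'A hu2 x hx y hy Y hY I J A' hI hJ hNJ
  have hQ1 : 1 ≤ Q := (le_max_left _ _).trans hQ
  have hQ0 : 0 < Q := by linarith
  have hn0 : (n : ℝ) ≠ 0 := by
    have : (0 : ℝ) < n := by exact_mod_cast (by omega : 0 < n)
    exact this.ne'
  have hnpos : (0 : ℝ) < n := by exact_mod_cast (by omega : 0 < n)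
  -- the norm of the ideal
  have hbQ : (b₀ : ℝ) ^ n ≤ Q ^ (θ' - θ) := by
    have h1 : ((b₀ : ℝ) ^ n) ^ (1 / (θ' - θ)) ≤ Q := (le_max_right _ _).trans hQ
    have h2 := Real.rpow_le_rpow (by positivity) h1 hθ2.le
    rwa [← Real.rpow_mul (by positivity), one_div, inv_mul_cancel₀ hθ2.ne', Real.rpow_one] at h2
  set A := infI I J with hAdef
  have hA : (N A : ℝ) ≤ Q ^ θ' := by
    have h1 : (N (infI I J) : ℝ) ≤ (b₀ : ℝ) ^ n * N J := by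
      exact_mod_cast LAL.sh1_inf hn hO hb₀ I J hI
    calc (N (infI I J) : ℝ) ≤ (b₀ : ℝ) ^ n * N J := h1
      _ ≤ Q ^ (θ' - θ) * Q ^ θ := by gcongr
      _ = Q ^ θ' := by rw [← Real.rpow_add hQ0, sub_add_cancel]
  have hNJ0 : (0 : ℝ) < N J := by exact_mod_cast (IF_gen hn hO J).2.2.1
  have hNA0 : (0 : ℝ) < N A := by exact_mod_cast (IF_gen hn hO A).2.2.1
  have hAJ : (N J : ℝ) ≤ N A := by
    have h1 : A ≤ J := by
      show A.1 ≤ J.1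
      rw [hAdef, (IF_inf hn hO I J).1]
      exact inf_le_right
    have h2 := (IF_dvd hn hO J A h1).1
    exact_mod_cast Nat.le_of_dvd (by exact_mod_cast hNA0) h2
  -- the scales
  set z : ℝ := Real.exp (u / n) with hzdef
  set z' : ℝ := Real.exp (u' / n) with hz'def
  have hz : 0 < z := Real.exp_pos _
  have hz' : 0 < z' := Real.exp_pos _
  have hr0 : 0 ≤ max 0 (Real.log (Cd' / ε) + 1) := le_max_left _ _
  have huu0 : u ≤ u' := by linarith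
  have hzn : z ^ n = Real.exp u := by
    rw [hzdef, ← Real.exp_nat_mul, mul_div_cancel₀ _ hn0]
  have hzn' : z' ^ n = Real.exp u' := by
    rw [hz'def, ← Real.exp_nat_mul, mul_div_cancel₀ _ hn0]
  have hzz : z ≤ z' := Real.exp_le_exp.2 (div_le_div_of_nonneg_right huu0 hnpos.le)
  have hlog : 0 ≤ Real.log Q := Real.log_nonneg hQ1
  have hτ0 : 0 ≤ z / z' := by positivity
  have hτ1 : z / z' ≤ 1 := (div_le_one hz').2 hzz
  have hxd : x.det ≠ 0 := LAL94.ne_of_abs_one hx.1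
  have hyd : y.det ≠ 0 := LAL94.ne_of_abs_one hy.1
  have hYd : Y.det ≠ 0 := LAL94.ne_of_abs_one hY.1
  have hinv : (x⁻¹)⁻¹ = x := Matrix.nonsing_inv_nonsing_inv _ (isUnit_iff_ne_zero.mpr hxd)
  have hxid : (x⁻¹).det ≠ 0 := by
    rw [← abs_pos, LAL94.dinv, hx.1]
    norm_num
  set s : ℝ := z * Q ^ (1 / (n : ℝ)) with hs
  have hs0 : 0 < s := by positivity
  -- the finite sets
  obtain ⟨As, hAs, hAsc⟩ := f5_fin hn hCP hε hεΦ hcnta hx hy hz'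
  obtain ⟨As', hAs', -⟩ := f5_fin hn hCP hε hεΦ hcnta hx hy hz
  obtain ⟨hfin, hcard, -⟩ := hcnt s hs0 x⁻¹ Y hxid hYd hx.2.2 (by rw [hinv]; exact hx.2.1)
    hY.2.1 hY.2.2
  obtain ⟨Hs, hmemH, hcardH0⟩ : ∃ Hs : Finset O,
      (∀ h : O, h ∈ Hs ↔ h ≠ 0 ∧ nr (s • (x⁻¹ * (h : Mt n) * Y)) ≤ CB) ∧
      (Hs.card : ℝ) ≤ Cc * s ^ (-((n : ℝ) ^ 2)) := by
    refine ⟨hfin.toFinset, fun h => ?_, ?_⟩
    · rw [Set.Finite.mem_toFinset]
      rfl
    · refine le_trans (le_of_eq ?_) hcard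
      rw [Nat.card_coe_set_eq, Set.ncard_eq_toFinset_card _ hfin]
  have hBB : ∀ h : O, BB Q z x Y (h : Mt n) = s • (x⁻¹ * (h : Mt n) * Y) := fun h => rfl
  have hrp : ∀ t : ℝ, 0 < t → t ^ (-((n : ℝ) ^ 2)) = ((t ^ n)⁻¹) ^ n := by
    intro t ht
    rw [Real.rpow_neg ht.le]
    have h4 : ((n : ℝ) ^ 2) = ((n ^ 2 : ℕ) : ℝ) := by push_cast; ring
    rw [h4, Real.rpow_natCast, sq, pow_mul, inv_pow]
  have hQ2 : ∀ v : ℝ, -(2 * Real.log Q) ≤ v → (Real.exp v)⁻¹ ≤ Q ^ 2 := by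
    intro v hv
    have h1 : Q ^ 2 = Real.exp (2 * Real.log Q) := by
      rw [← Real.exp_log (show (0 : ℝ) < Q ^ 2 by positivity), Real.log_pow]
      norm_num
    rw [h1, ← Real.exp_neg]
    exact Real.exp_le_exp.2 (by linarith)
  have hcardA : (As.card : ℝ) ≤ Ca * Q ^ (2 * n) := by
    refine hAsc.trans (mul_le_mul_of_nonneg_left ?_ hCa.le)
    rw [hrp z' hz', hzn', pow_mul]
    exact pow_le_pow_left₀ (by positivity) (hQ2 u' (by linarith)) n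
  have hcardH : (Hs.card : ℝ) ≤ Cc * Q ^ (2 * n) := by
    refine hcardH0.trans (mul_le_mul_of_nonneg_left ?_ hCc.le)
    rw [hrp s hs0, hs, mul_pow, LAL94.rpow_n hn hQ0, hzn, mul_inv, mul_pow, pow_mul]
    have h4 : (Q⁻¹) ^ n ≤ 1 := pow_le_one₀ (by positivity) (inv_le_one_of_one_le₀ hQ1)
    calc ((Real.exp u)⁻¹) ^ n * (Q⁻¹) ^ n ≤ (Q ^ 2) ^ n * 1 := by
          gcongr
          exact hQ2 u hu2
      _ = (Q ^ 2) ^ n := mul_one _
  -- abbreviations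
  let w : O → ℂ := fun a' => if (a' : Mt n) ∈ A'.1 then
    (starRingEnd ℂ) (Φ (z' • (x⁻¹ * a' * y))) else 0
  let Th : O → O → ℂ := fun h a' => s2Th Φ (fun X => (β X : ℂ)) (s • (x⁻¹ * (h : Mt n) * Y))
    (z • (x⁻¹ * (a' : Mt n) * y))
  let T1 : Idl (tr O) → O → O → ℂ := fun D h a' => ∑' a : O,
    s2T1 O Φ (fun X => (β X : ℂ)) Q z x y Y h A.1 (tS D) a' a
  let co : Idl (tr O) → O → O → ℝ := fun D h a' => (ix O (tS D) : ℝ)⁻¹ *
    (if (a' : Mt n) ∈ A.1 ⊔ hD (h : Mt n) (tS D) then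
      (ix O (A.1 ⊔ hD (h : Mt n) (tS D)) : ℝ) else 0)
  set M1 : ℝ := (covO O)⁻¹ * ((N A : ℝ) ^ n)⁻¹ * Q ^ n with hM1
  have hM1p : 0 ≤ M1 := by positivity
  have hw : ∀ a', ‖w a'‖ ≤ Cm := by
    intro a'
    show ‖(if (a' : Mt n) ∈ A'.1 then
      (starRingEnd ℂ) (Φ (z' • (x⁻¹ * a' * y))) else 0)‖ ≤ Cm
    split_ifs
    · rw [RCLike.norm_conj]
      exact hCm _
    · rw [norm_zero]
      exact hCm0
  have hwΦ : ∀ a', w a' ≠ 0 → Φ (z' • (x⁻¹ * a' * y)) ≠ 0 := by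
    intro a' ha' h1
    apply ha'
    show (if (a' : Mt n) ∈ A'.1 then
      (starRingEnd ℂ) (Φ (z' • (x⁻¹ * a' * y))) else 0) = 0
    rw [h1, map_zero, ite_self]
  have hzsmul : ∀ a' : O, z • (x⁻¹ * (a' : Mt n) * y) =
      (z / z') • (z' • (x⁻¹ * (a' : Mt n) * y)) := by
    intro a'
    rw [smul_smul, div_mul_cancel₀ _ hz'.ne']
  have hnrX : ∀ a', w a' ≠ 0 → nr (z • (x⁻¹ * (a' : Mt n) * y)) ≤ CP := by
    intro a' ha'
    have h1 := hCP _ (hwΦ a' ha')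
    rw [hzsmul a', X.nr_smul, abs_of_nonneg hτ0]
    calc (z / z') * nr (z' • (x⁻¹ * (a' : Mt n) * y)) ≤
        1 * nr (z' • (x⁻¹ * (a' : Mt n) * y)) := mul_le_mul_of_nonneg_right hτ1 (X.nr_nonneg _)
      _ ≤ CP := by rw [one_mul]; exact h1
  -- small determinant
  have hΦX : ∀ a', w a' ≠ 0 → Φ (z • (x⁻¹ * (a' : Mt n) * y)) = 0 := by
    intro a' ha'
    by_contra h1
    have h2 := hεΦ _ h1
    have h3 := hCP _ (hwΦ a' ha')
    have h4 : |(z' • (x⁻¹ * (a' : Mt n) * y)).det| ≤ Cd := by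
      have := hCd (z' • (x⁻¹ * (a' : Mt n) * y)) h3
      rwa [Real.norm_eq_abs] at this
    rw [hzsmul a', Matrix.det_smul, Fintype.card_fin, abs_mul,
      abs_of_nonneg (pow_nonneg hτ0 n), div_pow, hzn, hzn', ← Real.exp_sub] at h2
    have h5 : u - u' ≤ -(Real.log (Cd' / ε) + 1) := by
      have := le_max_right 0 (Real.log (Cd' / ε) + 1)
      linarith
    have h6 : Real.exp (u - u') * Cd' < ε := by
      have h7 : Real.exp (u - u') < ε / Cd' := by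
        have h8 : ε / Cd' = Real.exp (-(Real.log (Cd' / ε))) := by
          rw [Real.exp_neg, Real.exp_log (by positivity), inv_div]
        rw [h8]
        exact Real.exp_lt_exp.2 (by linarith)
      calc Real.exp (u - u') * Cd' < ε / Cd' * Cd' := by gcongr
        _ = ε := div_mul_cancel₀ _ hCd'0.ne'
    have h9 : Real.exp (u - u') * |(z' • (x⁻¹ * (a' : Mt n) * y)).det| ≤
        Real.exp (u - u') * Cd' := by
      refine mul_le_mul_of_nonneg_left (h4.trans ?_) (Real.exp_pos _).le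
      rw [hCd']
      linarith [le_abs_self Cd]
    linarith
  -- outside `Hs` everything vanishes
  have hTh0 : ∀ a', w a' ≠ 0 → ∀ h : O, h ≠ 0 → h ∉ Hs → Th h a' = 0 := by
    intro a' ha' h hh hhs
    have h1 : ¬ nr (s • (x⁻¹ * (h : Mt n) * Y)) ≤ CB := fun h2 => hhs ((hmemH h).2 ⟨hh, h2⟩)
    show (∫ H : Mt n, (β H : ℂ) * Φ (s • (x⁻¹ * (h : Mt n) * Y) * H +
      z • (x⁻¹ * (a' : Mt n) * y))) = 0
    rw [← integral_zero (Mt n) ℂ (μ := volume)]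
    congr 1
    funext H
    by_contra h2
    apply h1
    refine hS0 (z / z') _ H (z' • (x⁻¹ * (a' : Mt n) * y)) hτ0 hτ1 ?_
    rw [← hzsmul a']
    intro h3
    rcases mul_eq_zero.1 h3 with h4 | h4
    · rcases mul_eq_zero.1 h4 with h5 | h5
      · exact h2 (by rw [h5, mul_zero])
      · rw [map_eq_zero] at h5
        exact hwΦ a' ha' h5
    · exact h2 (by rw [h4, zero_mul])
  have hmemP : ∀ D ∈ PI (tr O) b₀, (b₀ : Mt n) ∈ D.1 := fun D hD' =>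
    (mem_PI hn (ord_tr hn hO) hb₀ D).1 hD'
  -- step 1
  have hstep1 : ∀ D ∈ PI (tr O) b₀, (∑' h : O, if h = 0 then (0 : ℂ) else
      ∑' p : O × O, s2T2 O Φ (fun X => (β X : ℂ)) Q z z' x y Y h A.1 A'.1 (tS D) p) =
        ∑ h ∈ Hs, ∑ a' ∈ As, w a' * T1 D h a' := by
    intro D hD'
    rw [tsum_eq_sum (s := Hs)]
    · refine Finset.sum_congr rfl fun h hh => ?_
      rw [if_neg ((hmemH h).1 hh).1]
      exact f5_swap As As' hAs hAs'
    · intro h hh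
      by_cases hh0 : h = 0
      · rw [if_pos hh0]
      · rw [if_neg hh0]
        have h1 : ¬ nr (s • (x⁻¹ * (h : Mt n) * Y)) ≤ CB := fun h2 => hh ((hmemH h).2 ⟨hh0, h2⟩)
        have hdh : (h : Mt n).det ≠ 0 := fun h0 => hh0 (Subtype.ext (hO.div h h.2 h0))
        refine (tsum_congr fun p => ?_).trans tsum_zero
        unfold s2T2
        split_ifs with h3
        · by_contra h4
          exact h1 (hW0 Q z z' hQ0 hz hzz x y Y h hxd hyd hYd hdh _ _ h4)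
        · rfl
  -- step 2
  have hstep2 : ∀ D ∈ PI (tr O) b₀, ‖(∑ h ∈ Hs, ∑ a' ∈ As, w a' * T1 D h a') -
      ∑ h ∈ Hs, ∑ a' ∈ As, w a' * ((M1 : ℂ) * (co D h a' : ℂ) * Th h a')‖ ≤
      Cc * (Ca * (Cm * |C1|)) * (Q ^ M)⁻¹ := by
    intro D hD'
    obtain ⟨d1, d2⟩ := LAL.sh1_tS D (hmemP D hD')
    rw [← Finset.sum_sub_distrib]
    have h2 : ∀ h ∈ Hs, ‖(∑ a' ∈ As, w a' * T1 D h a') -
        ∑ a' ∈ As, w a' * ((M1 : ℂ) * (co D h a' : ℂ) * Th h a')‖ ≤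
        ∑ _a' ∈ As, Cm * (|C1| * (Q ^ (M + 5 * n))⁻¹) := by
      intro h hh
      rw [← Finset.sum_sub_distrib]
      refine (norm_sum_le _ _).trans (Finset.sum_le_sum fun a' _ => ?_)
      rw [← mul_sub, norm_mul]
      by_cases ha' : w a' = 0
      · rw [ha', norm_zero, zero_mul]
        positivity
      refine mul_le_mul (hw a') ?_ (norm_nonneg _) hCm0
      have h3 := (hC1 Q z hQ1 x y Y hy.1 hY.1 A hA (tS D) d1 d2 h ((hmemH h).1 hh).1 a'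
        (hnrX a' ha')).2
      refine le_trans (le_of_eq ?_) (h3.trans
        (mul_le_mul_of_nonneg_right (le_abs_self _) (by positivity)))
      congr 2
      show (M1 : ℂ) * (co D h a' : ℂ) * Th h a' = _ * s2Th Φ (fun X => (β X : ℂ))
        (BB Q z x Y (h : Mt n)) (z • (x⁻¹ * (a' : Mt n) * y))
      rw [hBB]
      congr 1
      rw [← Complex.ofReal_mul]
      congr 1
      show M1 * ((ix O (tS D) : ℝ)⁻¹ * (if (a' : Mt n) ∈ A.1 ⊔ hD (h : Mt n) (tS D) then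
        (ix O (A.1 ⊔ hD (h : Mt n) (tS D)) : ℝ) else 0)) = _
      rw [hM1]
      unfold ix
      split_ifs
      · ring
      · ring
    refine (norm_sum_le _ _).trans ((Finset.sum_le_sum h2).trans ?_)
    rw [Finset.sum_const, Finset.sum_const, nsmul_eq_mul, nsmul_eq_mul]
    exact f5_num (Nat.cast_nonneg _) hCc.le hCa.le hCm0 (abs_nonneg _) hQ1
      hcardH hcardA
  -- step 3: algebra
  have halg : ∑ D ∈ PI (tr O) b₀, (mob (tr O) b₀ D : ℂ) *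
      ∑ h ∈ Hs, ∑ a' ∈ As, w a' * ((M1 : ℂ) * (co D h a' : ℂ) * Th h a') =
      ∑ a' ∈ As, (M1 : ℂ) * (w a' * ∑ K ∈ AI J, (fK a' K : ℂ) *
        ∑ h ∈ Hs, (if (h : Mt n) ∈ K.1 then (gF b₀ I h a' : ℂ) * Th h a' else 0)) := by
    refine f5_sums (PI (tr O) b₀) (AI J) Hs As (fun D => (mob (tr O) b₀ D : ℂ)) (M1 : ℂ) w
      (fun D h a' => (co D h a' : ℂ)) Th (fun h a' => (gF b₀ I h a' : ℂ))
      (fun a' K => (fK a' K : ℂ)) (fun h K => (h : Mt n) ∈ K.1) ?_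
    intro h a'
    have h2 := congrArg (fun r : ℝ => (r : ℂ)) (f5_alg hn hO hb₀ I J hI hJ h a')
    have h3 : ((∑ D ∈ PI (tr O) b₀, (mob (tr O) b₀ D : ℝ) * co D h a' : ℝ) : ℂ) =
        ((gF b₀ I h a' * ∑ K ∈ AI J, (if (h : Mt n) ∈ K.1 then fK a' K else 0) : ℝ) : ℂ) := h2
    rw [Complex.ofReal_sum, Complex.ofReal_mul, Complex.ofReal_sum] at h3
    refine Eq.trans ?_ (h3.trans ?_)
    · refine Finset.sum_congr rfl fun D _ => ?_
      have h4 : ((mob (tr O) b₀ D : ℤ) : ℂ) = (((mob (tr O) b₀ D : ℤ) : ℝ) : ℂ) :=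
        (Complex.ofReal_intCast _).symm
      show ((mob (tr O) b₀ D : ℤ) : ℂ) * ((co D h a' : ℝ) : ℂ) = _
      rw [h4]
      exact (Complex.ofReal_mul _ _).symm
    · congr 1
      refine Finset.sum_congr rfl fun K _ => ?_
      split_ifs
      · rfl
      · exact Complex.ofReal_zero
  -- step 4: the far sums
  have hfar1 : ∀ a' : O, w a' ≠ 0 → ∀ K : Idl O,
      ‖∑ h ∈ Hs, (if (h : Mt n) ∈ K.1 then (gF b₀ I h a' : ℂ) * Th h a' else 0)‖ ≤ Cf := by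
    intro a' ha' K
    have h1 := hfar I hI K a' s hs0 x ⟨hx.1, hx.2.1.trans (le_max_left _ _),
      hx.2.2.trans (le_max_left _ _)⟩ Y ⟨hY.1, hY.2.1.trans (le_max_left _ _),
      hY.2.2.trans (le_max_left _ _)⟩ (z • (x⁻¹ * (a' : Mt n) * y))
      ((hnrX a' ha').trans (le_max_right _ _)) (hΦX a' ha')
    refine le_trans (le_of_eq ?_) h1
    congr 1
    rw [tsum_eq_sum (s := Hs)]
    · refine Finset.sum_congr rfl fun h hh => ?_
      have h2 := ((hmemH h).1 hh).1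
      by_cases h3 : (h : Mt n) ∈ K.1
      · rw [if_pos h3, if_pos ⟨h2, h3⟩]
      · rw [if_neg h3, if_neg (fun c => h3 c.2)]
    · intro h hh
      by_cases h3 : h ≠ 0 ∧ (h : Mt n) ∈ K.1
      · rw [if_pos h3]
        have := hTh0 a' ha' h h3.1 hh
        exact mul_eq_zero_of_right _ this
      · rw [if_neg h3]
  -- the sum over a'
  have hsum : (∑' a' : O, if (a' : Mt n) ∈ A'.1 then ‖Φ (z' • (x⁻¹ * a' * y))‖ *
      ∑ K ∈ AI J, |fK a' K| else 0) = ∑ a' ∈ As, ‖w a'‖ * ∑ K ∈ AI J, |fK a' K| := by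
    rw [tsum_eq_sum (s := As)]
    · refine Finset.sum_congr rfl fun a' _ => ?_
      show _ = ‖(if (a' : Mt n) ∈ A'.1 then
        (starRingEnd ℂ) (Φ (z' • (x⁻¹ * a' * y))) else 0)‖ * _
      split_ifs
      · rw [RCLike.norm_conj]
      · rw [norm_zero, zero_mul]
    · intro a' ha'
      rw [hAs a' ha', norm_zero, zero_mul, ite_self]
  have hmain : ‖∑ D ∈ PI (tr O) b₀, (mob (tr O) b₀ D : ℂ) *
      ∑ h ∈ Hs, ∑ a' ∈ As, w a' * ((M1 : ℂ) * (co D h a' : ℂ) * Th h a')‖ ≤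
      M1 * Cf * ∑ a' ∈ As, ‖w a'‖ * ∑ K ∈ AI J, |fK a' K| := by
    rw [halg, Finset.mul_sum]
    refine (norm_sum_le _ _).trans (Finset.sum_le_sum fun a' _ => ?_)
    rw [norm_mul, norm_mul, Complex.norm_real, Real.norm_of_nonneg hM1p]
    by_cases ha' : w a' = 0
    · rw [ha', norm_zero, zero_mul, zero_mul, mul_zero, mul_zero]
    · have h1 : ‖∑ K ∈ AI J, (fK a' K : ℂ) *
          ∑ h ∈ Hs, (if (h : Mt n) ∈ K.1 then (gF b₀ I h a' : ℂ) * Th h a' else 0)‖ ≤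
          Cf * ∑ K ∈ AI J, |fK a' K| := by
        rw [Finset.mul_sum]
        refine (norm_sum_le _ _).trans (Finset.sum_le_sum fun K _ => ?_)
        rw [norm_mul, Complex.norm_real, Real.norm_eq_abs, mul_comm Cf]
        exact mul_le_mul_of_nonneg_left (hfar1 a' ha' K) (abs_nonneg _)
      calc M1 * (‖w a'‖ * ‖∑ K ∈ AI J, (fK a' K : ℂ) *
          ∑ h ∈ Hs, (if (h : Mt n) ∈ K.1 then (gF b₀ I h a' : ℂ) * Th h a' else 0)‖)
          ≤ M1 * (‖w a'‖ * (Cf * ∑ K ∈ AI J, |fK a' K|)) := by gcongr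
        _ = _ := by ring
  -- the end
  have herr : ‖SW b₀ β Φ Q u u' A A' x y Y - ∑ D ∈ PI (tr O) b₀, (mob (tr O) b₀ D : ℂ) *
      ∑ h ∈ Hs, ∑ a' ∈ As, w a' * ((M1 : ℂ) * (co D h a' : ℂ) * Th h a')‖ ≤
      CE * (Q ^ M)⁻¹ := by
    have h1 : SW b₀ β Φ Q u u' A A' x y Y = ∑ D ∈ PI (tr O) b₀, (mob (tr O) b₀ D : ℂ) *
        ∑ h ∈ Hs, ∑ a' ∈ As, w a' * T1 D h a' := by
      unfold SW
      refine Finset.sum_congr rfl fun D hD' => ?_
      rw [← hstep1 D hD']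
    rw [h1, ← Finset.sum_sub_distrib]
    refine (norm_sum_le _ _).trans ?_
    calc ∑ D ∈ PI (tr O) b₀, ‖(mob (tr O) b₀ D : ℂ) * (∑ h ∈ Hs, ∑ a' ∈ As, w a' * T1 D h a') -
        (mob (tr O) b₀ D : ℂ) * ∑ h ∈ Hs, ∑ a' ∈ As, w a' *
          ((M1 : ℂ) * (co D h a' : ℂ) * Th h a')‖
        ≤ ∑ D ∈ PI (tr O) b₀, |((mob (tr O) b₀ D : ℤ) : ℝ)| *
          (Cc * (Ca * (Cm * |C1|)) * (Q ^ M)⁻¹) := by
          refine Finset.sum_le_sum fun D hD' => ?_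
          rw [← mul_sub, norm_mul]
          have h4 : ‖((mob (tr O) b₀ D : ℤ) : ℂ)‖ = |((mob (tr O) b₀ D : ℤ) : ℝ)| := by
            rw [← Complex.ofReal_intCast, Complex.norm_real, Real.norm_eq_abs]
          rw [h4]
          exact mul_le_mul_of_nonneg_left (hstep2 D hD') (abs_nonneg _)
      _ = CE * (Q ^ M)⁻¹ := by
          rw [← Finset.sum_mul, ← hSmb, hCE]
          ring
  have hM1le : M1 ≤ (covO O)⁻¹ * Q ^ n * ((N J : ℝ) ^ n)⁻¹ := by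
    rw [hM1]
    have h1 : ((N A : ℝ) ^ n)⁻¹ ≤ ((N J : ℝ) ^ n)⁻¹ := by
      apply inv_anti₀ (by positivity)
      exact pow_le_pow_left₀ hNJ0.le hAJ n
    calc (covO O)⁻¹ * ((N A : ℝ) ^ n)⁻¹ * Q ^ n ≤ (covO O)⁻¹ * ((N J : ℝ) ^ n)⁻¹ * Q ^ n := by
          gcongr
      _ = _ := by ring
  rw [hsum]
  set W : ℝ := ∑ a' ∈ As, ‖w a'‖ * ∑ K ∈ AI J, |fK a' K| with hW
  have hW0 : 0 ≤ W := Finset.sum_nonneg fun _ _ =>
    mul_nonneg (norm_nonneg _) (Finset.sum_nonneg fun _ _ => abs_nonneg _)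
  have h1 : ‖SW b₀ β Φ Q u u' A A' x y Y‖ ≤ M1 * Cf * W + CE * (Q ^ M)⁻¹ := by
    have := norm_le_norm_add_norm_sub' (SW b₀ β Φ Q u u' A A' x y Y)
      (∑ D ∈ PI (tr O) b₀, (mob (tr O) b₀ D : ℂ) *
      ∑ h ∈ Hs, ∑ a' ∈ As, w a' * ((M1 : ℂ) * (co D h a' : ℂ) * Th h a'))
    linarith
  refine h1.trans ?_
  have h2 : M1 * Cf * W ≤ ((covO O)⁻¹ * Cf + CE) * Q ^ n * ((N J : ℝ) ^ n)⁻¹ * W := by
    calc M1 * Cf * W ≤ ((covO O)⁻¹ * Q ^ n * ((N J : ℝ) ^ n)⁻¹) * Cf * W := by gcongr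
      _ = ((covO O)⁻¹ * Cf) * (Q ^ n * ((N J : ℝ) ^ n)⁻¹ * W) := by ring
      _ ≤ ((covO O)⁻¹ * Cf + CE) * (Q ^ n * ((N J : ℝ) ^ n)⁻¹ * W) := by
          gcongr
          linarith
      _ = _ := by ring
  have h3 : CE * (Q ^ M)⁻¹ ≤ ((covO O)⁻¹ * Cf + CE) * (Q ^ M)⁻¹ := by
    have : 0 ≤ (covO O)⁻¹ * Cf := by positivity
    gcongr
    linarith
  linarith


end

end Pool.Agent.RZH

namespace Pool.Agent.RZH

theorem far_SW : type_of% @far_SW_pr := @far_SW_pr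

end Pool.Agent.RZH
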