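import Pool.Agent.Lib_helper32.LALS.S_SQ
import Pool.Agent.Lib_helper75.DZNF.L3
import Pool.Agent.Lib_helper75.DZNF.L4
import Pool.Agent.Lib_helper75.RZG.Defs
import Pool.Agent.Lib_helper96.GLF.O_OA3
import Pool.Agent.Lib_helper96.GLF.O_OD
import Pool.Agent.Lib_helper96.GLF.O_OL2
import Pool.Agent.Lib_helper96.GLF.O_OL3
import Pool.Agent.Lib_helper96.GLL.Defs
import Pool.Agent.Lib_helper96.GLL.DefsB

/-!
# Project RZG, block S6c: polynomially many ideals
-/

set_option autoImplicit false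

namespace Pool.Agent.RZH

open MeasureTheory Matrix Complex Filter Topology Pool.Agent.GLL Pool.Agent.LAL
open scoped ENNReal ContDiff

noncomputable section

variable {n : ℕ} {O : Subring (Mt n)}

/-- the Möbius function is polynomially bounded -/
theorem s6c_mob (hn : 2 ≤ n) (hO : GLL.Ord O) : ∃ s0 : ℝ, 0 < s0 ∧ ∀ b : ℕ, 0 < b →
    ∀ (A : Idl O) (Y : ℝ), (N A : ℝ) ≤ Y → |(mob O b A : ℝ)| ≤ 2 * Y ^ s0 := by
  classical
  obtain ⟨s0, hs0, h⟩ := IF_mob_sum hn hO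
  refine ⟨s0, hs0, fun b hb A Y hA => ?_⟩
  have hpos : ∀ I : Idl O, (0 : ℝ) < N I := fun I => by
    exact_mod_cast (IF_gen hn hO I).2.2.1
  have hY : 0 < Y := (hpos A).trans_le hA
  by_cases hm : mob O b A = 0
  · rw [hm]
    simp only [Int.cast_zero, abs_zero]
    positivity
  · have hfin := (IF_mob hn hO b hb).2.2.1
    have h1 := h b hb
    rw [finsum_mem_eq_finite_toFinset_sum _ hfin] at h1
    have hAm : A ∈ hfin.toFinset := by
      rw [Set.Finite.mem_toFinset]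
      exact (IF_mob hn hO b hb).1.1 A hm
    have h2 : |(mob O b A : ℝ)| * (N A : ℝ) ^ (-s0) ≤ 2 := by
      refine le_trans ?_ h1
      refine Finset.single_le_sum (f := fun I : Idl O => |(mob O b I : ℝ)| * (N I : ℝ) ^ (-s0))
        (fun I _ => ?_) hAm
      have := hpos I
      positivity
    have h3 : (N A : ℝ) ^ s0 ≤ Y ^ s0 := Real.rpow_le_rpow (hpos A).le hA hs0.le
    have h4 : |(mob O b A : ℝ)| ≤ 2 * (N A : ℝ) ^ s0 := by
      rw [Real.rpow_neg (hpos A).le, ← div_eq_mul_inv,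
        div_le_iff₀ (Real.rpow_pos_of_pos (hpos A) _)] at h2
      exact h2
    exact h4.trans (mul_le_mul_of_nonneg_left h3 zero_le_two)

/-- polynomially many ideals -/
theorem s6c_card (hn : 2 ≤ n) (hO : GLL.Ord O) (Y : ℝ) (hY : 1 ≤ Y) (S : Finset (Idl O))
    (hS : ∀ A ∈ S, (N A : ℝ) ≤ Y) : (S.card : ℝ) ≤ Y ^ (n ^ 3 + 1) := by
  classical
  have hpos : ∀ I : Idl O, 0 < N I := fun I => (IF_gen hn hO I).2.2.1
  have h1 : S.card = ∑ m ∈ Finset.Icc 1 ⌊Y⌋₊, (S.filter fun A => N A = m).card := by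
    refine Finset.card_eq_sum_card_fiberwise fun A hA => ?_
    rw [Finset.mem_coe, Finset.mem_Icc]
    exact ⟨hpos A, Nat.le_floor (hS A hA)⟩
  have h2 : ∀ m ∈ Finset.Icc 1 ⌊Y⌋₊, ((S.filter fun A => N A = m).card : ℝ) ≤ Y ^ (n ^ 3) := by
    intro m hm
    rw [Finset.mem_Icc] at hm
    have hfin := IF_fin hn hO m
    have h3 : (S.filter fun A => N A = m).card ≤ rI O m := by
      have h4 : S.filter (fun A => N A = m) ⊆ hfin.toFinset := by
        intro A hA
        rw [Finset.mem_filter] at hA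
        rw [Set.Finite.mem_toFinset]
        exact hA.2
      refine (Finset.card_le_card h4).trans (le_of_eq ?_)
      rw [← Set.ncard_eq_toFinset_card _ hfin]
      rfl
    have h5 : ((S.filter fun A => N A = m).card : ℝ) ≤ (m : ℝ) ^ (n ^ 3) := by
      exact_mod_cast h3.trans (IF_rI_le hn hO m (by omega))
    refine h5.trans (pow_le_pow_left₀ (Nat.cast_nonneg m) ?_ _)
    exact (Nat.cast_le.2 hm.2).trans (Nat.floor_le (by linarith))
  rw [h1]
  push_cast
  refine (Finset.sum_le_sum h2).trans ?_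
  rw [Finset.sum_const, Nat.card_Icc, Nat.add_sub_cancel, nsmul_eq_mul, pow_succ, mul_comm]
  exact mul_le_mul_of_nonneg_left (Nat.floor_le (by linarith)) (by positivity)

theorem PI_cnt_pr (hn : 2 ≤ n) (hO : GLL.Ord O) : ∃ C : ℝ, 0 < C ∧ ∀ (b : ℕ) (Y : ℝ), 0 < b →
    1 ≤ Y → (∀ A : Idl O, (N A : ℝ) ≤ Y → |(mob O b A : ℝ)| ≤ C * Y ^ C) ∧
      ∀ S : Finset (Idl O), (∀ A ∈ S, (N A : ℝ) ≤ Y) → (S.card : ℝ) ≤ C * Y ^ C := by
  obtain ⟨s0, hs0, h⟩ := s6c_mob hn hO
  have hC : (0 : ℝ) ≤ (n : ℝ) ^ 3 := by positivity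
  refine ⟨2 + s0 + ((n : ℝ) ^ 3 + 1), by positivity, fun b Y hb hY => ⟨fun A hA => ?_,
    fun S hS => ?_⟩⟩
  · refine (h b hb A Y hA).trans ?_
    refine mul_le_mul (by linarith) (Real.rpow_le_rpow_of_exponent_le hY (by linarith))
      (by positivity) (by positivity)
  · refine (s6c_card hn hO Y hY S hS).trans ?_
    have h1 : Y ^ (n ^ 3 + 1) = Y ^ ((n : ℝ) ^ 3 + 1) := by
      rw [← Real.rpow_natCast]
      congr 1
      push_cast
      ring
    rw [h1]
    have h2 : Y ^ ((n : ℝ) ^ 3 + 1) ≤ Y ^ (2 + s0 + ((n : ℝ) ^ 3 + 1)) :=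
      Real.rpow_le_rpow_of_exponent_le hY (by linarith)
    refine h2.trans (le_mul_of_one_le_left (by positivity) (by linarith))


end

end Pool.Agent.RZH

namespace Pool.Agent.RZH

theorem PI_cnt : type_of% @PI_cnt_pr := @PI_cnt_pr

end Pool.Agent.RZH
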