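import Pool.Agent.Lib_helper32.LAL.SD2
import Pool.Agent.Lib_helper32.LAL.SDefs
import Pool.Agent.Lib_helper32.LALS.S_EX
import Pool.Agent.Lib_helper32.LALS.S_SA1
import Pool.Agent.Lib_helper32.LALS.S_SB
import Pool.Agent.Lib_helper32.LALS.S_SD1
import Pool.Agent.Lib_helper32.LALS.S_SH1
import Pool.Agent.Lib_helper41.RZGF.R_F5
import Pool.Agent.Lib_helper41.RZGF.R_S4a
import Pool.Agent.Lib_helper41.RZGF.R_S6a
import Pool.Agent.Lib_helper41.RZGF.R_S6b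
import Pool.Agent.Lib_helper41.RZGF.R_S6c
import Pool.Agent.Lib_helper41.RZGF.R_S8a
import Pool.Agent.Lib_helper42.GLM.Defs
import Pool.Agent.Lib_helper75.DZNF.L4
import Pool.Agent.Lib_helper75.RZG.Defs
import Pool.Agent.Lib_helper94.LAL.S2
import Pool.Agent.Lib_helper96.GLF.O_OA3
import Pool.Agent.Lib_helper96.GLF.O_OE
import Pool.Agent.Lib_helper96.GLF.O_OI
import Pool.Agent.Lib_helper96.GLL.Defs
import Pool.Agent.Lib_helper96.GLL.DefsB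

/-!
# Project RZG, block F6: the far part, sum over the ideals
-/

set_option autoImplicit false

namespace Pool.Agent.RZH

open MeasureTheory Matrix Complex Filter Topology Pool.Agent.GLL Pool.Agent.LAL
open scoped ENNReal ContDiff

noncomputable section

variable {n : ℕ} {O : Subring (Mt n)}

/-- the sum over `O` -/
theorem f6_O (hn : 2 ≤ n) (hO : GLL.Ord O) {Φ : Mt n → ℂ} (hΦ : Tst Φ) (R : ℝ) :
    ∃ C : ℝ, 0 < C ∧ ∀ s : ℝ, 0 < s → ∀ x ∈ K1 n R, ∀ y ∈ K1 n R, ∃ As : Finset O,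
      (∀ a : O, a ≠ 0 → a ∉ As → Φ (s • (x⁻¹ * a * y)) = 0) ∧
      ∑ a ∈ As, ‖Φ (s • (x⁻¹ * a * y))‖ ≤ C * ((s ^ n) ^ n)⁻¹ := by
  classical
  obtain ⟨-, hΦc, -, -⟩ := Tst_rap hn hΦ
  obtain ⟨CP, hCP⟩ := hΦ.supp
  have hΦcont : Continuous Φ := hΦ.toSm.smooth.continuous
  obtain ⟨Cm, hCm⟩ := hΦcont.bounded_above_of_compact_support hΦc
  have hCm0 : 0 ≤ Cm := (norm_nonneg _).trans (hCm 0)
  obtain ⟨Ca, hCa, hcnta⟩ := cnt hn hO R CP
  refine ⟨Ca * Cm + 1, by positivity, fun s hs x hx y hy => ?_⟩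
  have hxd : x.det ≠ 0 := LAL94.ne_of_abs_one hx.1
  have hyd : y.det ≠ 0 := LAL94.ne_of_abs_one hy.1
  have hinv : (x⁻¹)⁻¹ = x := Matrix.nonsing_inv_nonsing_inv _ (isUnit_iff_ne_zero.mpr hxd)
  have hxid : (x⁻¹).det ≠ 0 := by
    rw [← abs_pos, LAL94.dinv, hx.1]
    norm_num
  obtain ⟨hfin, hcard, -⟩ := hcnta s hs x⁻¹ y hxid hyd hx.2.2 (by rw [hinv]; exact hx.2.1)
    hy.2.1 hy.2.2
  have hcard' : (hfin.toFinset.card : ℝ) ≤ Ca * ((s ^ n) ^ n)⁻¹ := by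
    refine le_trans (le_of_eq ?_) (hcard.trans (le_of_eq ?_))
    · rw [Nat.card_coe_set_eq, Set.ncard_eq_toFinset_card _ hfin]
    · congr 1
      rw [Real.rpow_neg hs.le]
      have h4 : ((n : ℝ) ^ 2) = ((n ^ 2 : ℕ) : ℝ) := by push_cast; ring
      rw [h4, Real.rpow_natCast, sq, pow_mul]
  refine ⟨hfin.toFinset, fun a h0 ha => ?_, ?_⟩
  · by_contra hne
    apply ha
    rw [Set.Finite.mem_toFinset]
    exact ⟨h0, hCP _ hne⟩
  · have hs0 : 0 ≤ ((s ^ n) ^ n)⁻¹ := by positivity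
    refine (Finset.sum_le_card_nsmul _ _ Cm fun a _ => hCm _).trans ?_
    rw [nsmul_eq_mul]
    calc (hfin.toFinset.card : ℝ) * Cm ≤ (Ca * ((s ^ n) ^ n)⁻¹) * Cm :=
          mul_le_mul_of_nonneg_right hcard' hCm0
      _ ≤ _ := by nlinarith

theorem f6_zero (hn : 2 ≤ n) {Φ : Mt n → ℂ} (hΦ : Tst Φ) : Φ 0 = 0 := by
  obtain ⟨ε, hε, hεΦ⟩ := hΦ.det
  by_contra h
  have h1 := hεΦ _ h
  have : Nonempty (Fin n) := ⟨⟨0, by omega⟩⟩
  rw [Matrix.det_zero, abs_zero] at h1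
  linarith

/-- the sum over an ideal -/
theorem f6_K (hn : 2 ≤ n) (hO : GLL.Ord O) {Φ : Mt n → ℂ} (hΦ : Tst Φ) (R : ℝ) :
    ∃ C : ℝ, 0 < C ∧ ∀ s : ℝ, 0 < s → ∀ x ∈ K1 n R, ∀ y ∈ K1 n R, ∀ K : Idl O,
      (∑' a : O, open scoped Classical in if (a : Mt n) ∈ K.1 then
        ‖Φ (s • (x⁻¹ * a * y))‖ else 0) ≤ C * ((s ^ n) ^ n)⁻¹ * ((N K : ℝ) ^ n)⁻¹ := by
  classical
  obtain ⟨F, R0, hF⟩ := exFG hn hO
  obtain ⟨C, hC, hC'⟩ := f6_O hn hO hΦ (max R R0)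
  refine ⟨C, hC, fun s hs x hx y hy K => ?_⟩
  obtain ⟨x₁, hx₁, g₁, -, -, hg, hred⟩ := red_K hn hO hF 1 (fun _ => (1 : ℝ))
    (fun _ _ => rfl) K x hx.1
  have h1 := hred (fun B => (‖Φ B‖ : ℂ)) s y hs
  have hNK : 0 < (N K : ℝ) := by exact_mod_cast (IF_gen hn hO K).2.2.1
  have hn0 : (n : ℝ) ≠ 0 := by
    have : n ≠ 0 := by omega
    exact_mod_cast this
  set σ : ℝ := s * (N K : ℝ) ^ (1 / (n : ℝ)) with hσ
  have hσ0 : 0 < σ := by positivity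
  have hσn : σ ^ n = s ^ n * N K := by
    rw [hσ, mul_pow, ← Real.rpow_natCast ((N K : ℝ) ^ (1 / (n : ℝ))) n, ← Real.rpow_mul hNK.le,
      one_div_mul_cancel hn0, Real.rpow_one]
  obtain ⟨As, hAs, hsum⟩ := hC' σ hσ0 x₁ ⟨hx₁.1, hx₁.2.1.trans (le_max_right _ _),
    hx₁.2.2.trans (le_max_right _ _)⟩ y ⟨hy.1, hy.2.1.trans (le_max_left _ _),
    hy.2.2.trans (le_max_left _ _)⟩
  have hg1 : ∀ h, g₁ h = 1 := fun h => by
    obtain ⟨h', hh⟩ := hg h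
    exact hh
  have h2 : (∑' a : O, if (a : Mt n) ∈ K.1 then ‖Φ (s • (x⁻¹ * a * y))‖ else 0) =
      ∑' a : O, if a ≠ 0 then ‖Φ (σ • (x₁⁻¹ * a * y))‖ else 0 := by
    have h3 : ((∑' a : O, if (a : Mt n) ∈ K.1 then ‖Φ (s • (x⁻¹ * a * y))‖ else 0 : ℝ) : ℂ) =
        ((∑' a : O, if a ≠ 0 then ‖Φ (σ • (x₁⁻¹ * a * y))‖ else 0 : ℝ) : ℂ) := by
      rw [Complex.ofReal_tsum, Complex.ofReal_tsum]
      refine Eq.trans (tsum_congr fun a => ?_) (h1.trans (tsum_congr fun a => ?_))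
      · by_cases ha : (a : Mt n) ∈ K.1
        · by_cases h0 : a = 0
          · have c1 : ¬ (a ≠ 0 ∧ (a : Mt n) ∈ K.1) := fun c => c.1 h0
            rw [if_pos ha, if_neg c1, h0, ZeroMemClass.coe_zero, Matrix.mul_zero,
              Matrix.zero_mul, smul_zero, f6_zero hn hΦ, norm_zero, Complex.ofReal_zero]
          · have c1 : a ≠ 0 ∧ (a : Mt n) ∈ K.1 := ⟨h0, ha⟩
            rw [if_pos ha, if_pos c1, Complex.ofReal_one, one_mul]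
        · have c1 : ¬ (a ≠ 0 ∧ (a : Mt n) ∈ K.1) := fun c => ha c.2
          rw [if_neg ha, if_neg c1, Complex.ofReal_zero]
      · by_cases h0 : a ≠ 0
        · rw [if_pos h0, if_pos h0, hg1, Complex.ofReal_one, one_mul]
        · rw [if_neg h0, if_neg h0, Complex.ofReal_zero]
    exact_mod_cast h3
  rw [h2]
  have h4 : (∑' a : O, if a ≠ 0 then ‖Φ (σ • (x₁⁻¹ * a * y))‖ else 0) ≤
      ∑ a ∈ As, ‖Φ (σ • (x₁⁻¹ * a * y))‖ := by
    rw [tsum_eq_sum (s := As) (fun a ha => by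
      by_cases h0 : a ≠ 0
      · rw [if_pos h0, hAs a h0 ha, norm_zero]
      · rw [if_neg h0])]
    refine Finset.sum_le_sum fun a _ => ?_
    split_ifs
    · exact le_rfl
    · exact norm_nonneg _
  refine h4.trans (hsum.trans (le_of_eq ?_))
  rw [hσn, mul_pow, mul_inv]
  ring

theorem f6_mem_inf (hn : 2 ≤ n) (hO : GLL.Ord O) (A K : Idl O) (X : Mt n) :
    X ∈ (infI A K).1 ↔ X ∈ A.1 ∧ X ∈ K.1 := by
  rw [(IF_inf hn hO A K).1]
  exact AddSubgroup.mem_inf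

theorem f6_fK (hn : 2 ≤ n) (hO : GLL.Ord O) (a' : O) (K : Idl O) :
    |fK a' K| ≤ ∑ K' ∈ AI K, |mu K' K| * (N K' : ℝ) ^ n *
      (open scoped Classical in if (a' : Mt n) ∈ K'.1 then (1 : ℝ) else 0) := by
  classical
  unfold fK
  rw [mi_mu hn hO]
  refine (Finset.abs_sum_le_sum_abs _ _).trans (Finset.sum_le_sum fun K' _ => ?_)
  rw [abs_mul, mul_assoc]
  refine mul_le_mul_of_nonneg_left ?_ (abs_nonneg _)
  split_ifs
  · rw [mul_one, abs_of_nonneg (by positivity)]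
  · rw [abs_zero, mul_zero]

/-- the double sum over the ideals above `J` -/
def f6_G (J J' : Idl O) : ℝ :=
  ∑ K ∈ AI J, ∑ K' ∈ AI K, |mu K' K| * (N K' : ℝ) ^ n * ((N (infI J' K') : ℝ) ^ n)⁻¹

theorem f6_sum (hn : 2 ≤ n) (hO : GLL.Ord O) {Φ : Mt n → ℂ} (hΦ : Tst Φ) (R : ℝ) :
    ∃ C : ℝ, 0 < C ∧ ∀ s : ℝ, 0 < s → ∀ x ∈ K1 n R, ∀ y ∈ K1 n R, ∀ J A' J' : Idl O, A' ≤ J' →
      (∑' a' : O, (open scoped Classical in if (a' : Mt n) ∈ A'.1 then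
        ‖Φ (s • (x⁻¹ * a' * y))‖ * ∑ K ∈ AI J, |fK a' K| else 0)) ≤
      C * ((s ^ n) ^ n)⁻¹ * f6_G J J' := by
  classical
  obtain ⟨C, hC, hC'⟩ := f6_K hn hO hΦ R
  obtain ⟨C0, hC0, hC0'⟩ := f6_O hn hO hΦ R
  refine ⟨C, hC, fun s hs x hx y hy J A' J' hAJ => ?_⟩
  obtain ⟨As, hAs, -⟩ := hC0' s hs x hx y hy
  have hz : ∀ a : O, a ∉ As → ‖Φ (s • (x⁻¹ * a * y))‖ = 0 := by
    intro a ha
    rw [norm_eq_zero]
    by_cases h0 : a = 0
    · rw [h0, ZeroMemClass.coe_zero, Matrix.mul_zero, Matrix.zero_mul, smul_zero, f6_zero hn hΦ]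
    · exact hAs a h0 ha
  have h1 : (∑' a' : O, (if (a' : Mt n) ∈ A'.1 then
        ‖Φ (s • (x⁻¹ * a' * y))‖ * ∑ K ∈ AI J, |fK a' K| else 0)) =
      ∑ a' ∈ As, (if (a' : Mt n) ∈ A'.1 then
        ‖Φ (s • (x⁻¹ * a' * y))‖ * ∑ K ∈ AI J, |fK a' K| else 0) :=
    tsum_eq_sum (fun a ha => by rw [hz a ha, zero_mul, ite_self])
  have h2 : ∀ K' : Idl O, ∑ a' ∈ As, (if (a' : Mt n) ∈ A'.1 ∧ (a' : Mt n) ∈ K'.1 then
      ‖Φ (s • (x⁻¹ * a' * y))‖ else 0) ≤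
      C * ((s ^ n) ^ n)⁻¹ * ((N (infI J' K') : ℝ) ^ n)⁻¹ := by
    intro K'
    have h3 := hC' s hs x hx y hy (infI A' K')
    rw [tsum_eq_sum (s := As) (fun a ha => by rw [hz a ha, ite_self])] at h3
    have h4 : ∑ a' ∈ As, (if (a' : Mt n) ∈ A'.1 ∧ (a' : Mt n) ∈ K'.1 then
        ‖Φ (s • (x⁻¹ * a' * y))‖ else 0) = ∑ a' ∈ As, (if (a' : Mt n) ∈ (infI A' K').1 then
        ‖Φ (s • (x⁻¹ * a' * y))‖ else 0) := by
      refine Finset.sum_congr rfl fun a' _ => ?_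
      by_cases h5 : (a' : Mt n) ∈ (infI A' K').1
      · rw [if_pos h5, if_pos ((f6_mem_inf hn hO A' K' _).1 h5)]
      · rw [if_neg h5, if_neg (fun c => h5 ((f6_mem_inf hn hO A' K' _).2 c))]
    rw [h4]
    refine h3.trans (mul_le_mul_of_nonneg_left ?_ (by positivity))
    have h6 : infI A' K' ≤ infI J' K' := by
      show (infI A' K').1 ≤ (infI J' K').1
      rw [(IF_inf hn hO A' K').1, (IF_inf hn hO J' K').1]
      exact inf_le_inf_right _ hAJ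
    have h7 := (IF_dvd hn hO _ _ h6).1
    have h8 : 0 < N (infI A' K') := (IF_gen hn hO _).2.2.1
    have h9 : 0 < N (infI J' K') := (IF_gen hn hO _).2.2.1
    have h10 : (N (infI J' K') : ℝ) ≤ N (infI A' K') := by
      exact_mod_cast Nat.le_of_dvd h8 h7
    have h11 : (0 : ℝ) < N (infI J' K') := by exact_mod_cast h9
    exact inv_anti₀ (by positivity) (pow_le_pow_left₀ h11.le h10 n)
  rw [h1]
  calc ∑ a' ∈ As, (if (a' : Mt n) ∈ A'.1 then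
        ‖Φ (s • (x⁻¹ * a' * y))‖ * ∑ K ∈ AI J, |fK a' K| else 0)
      ≤ ∑ a' ∈ As, ∑ K ∈ AI J, ∑ K' ∈ AI K, |mu K' K| * (N K' : ℝ) ^ n *
          (if (a' : Mt n) ∈ A'.1 ∧ (a' : Mt n) ∈ K'.1 then
            ‖Φ (s • (x⁻¹ * a' * y))‖ else 0) := by
        refine Finset.sum_le_sum fun a' _ => ?_
        by_cases ha : (a' : Mt n) ∈ A'.1
        · rw [if_pos ha, Finset.mul_sum]
          refine Finset.sum_le_sum fun K _ => ?_
          calc ‖Φ (s • (x⁻¹ * (a' : Mt n) * y))‖ * |fK a' K|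
              ≤ ‖Φ (s • (x⁻¹ * (a' : Mt n) * y))‖ * ∑ K' ∈ AI K, |mu K' K| * (N K' : ℝ) ^ n *
                (if (a' : Mt n) ∈ K'.1 then (1 : ℝ) else 0) :=
                mul_le_mul_of_nonneg_left (f6_fK hn hO a' K) (norm_nonneg _)
            _ = _ := by
                rw [Finset.mul_sum]
                refine Finset.sum_congr rfl fun K' _ => ?_
                by_cases hb : (a' : Mt n) ∈ K'.1
                · rw [if_pos hb, if_pos ⟨ha, hb⟩]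
                  ring
                · rw [if_neg hb, if_neg (fun c => hb c.2)]
                  ring
        · rw [if_neg ha]
          refine Finset.sum_nonneg fun K _ => Finset.sum_nonneg fun K' _ => ?_
          rw [if_neg (fun c => ha c.1), mul_zero]
    _ = ∑ K ∈ AI J, ∑ K' ∈ AI K, |mu K' K| * (N K' : ℝ) ^ n *
          ∑ a' ∈ As, (if (a' : Mt n) ∈ A'.1 ∧ (a' : Mt n) ∈ K'.1 then
            ‖Φ (s • (x⁻¹ * a' * y))‖ else 0) := by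
        rw [Finset.sum_comm]
        refine Finset.sum_congr rfl fun K _ => ?_
        rw [Finset.sum_comm]
        refine Finset.sum_congr rfl fun K' _ => ?_
        rw [Finset.mul_sum]
    _ ≤ ∑ K ∈ AI J, ∑ K' ∈ AI K, |mu K' K| * (N K' : ℝ) ^ n *
          (C * ((s ^ n) ^ n)⁻¹ * ((N (infI J' K') : ℝ) ^ n)⁻¹) := by
        refine Finset.sum_le_sum fun K _ => Finset.sum_le_sum fun K' _ => ?_
        exact mul_le_mul_of_nonneg_left (h2 K') (by positivity)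
    _ = C * ((s ^ n) ^ n)⁻¹ * f6_G J J' := by
        unfold f6_G
        rw [Finset.mul_sum]
        refine Finset.sum_congr rfl fun K _ => ?_
        rw [Finset.mul_sum]
        refine Finset.sum_congr rfl fun K' _ => ?_
        ring

theorem f6_sumPI (hn : 2 ≤ n) (hO : GLL.Ord O) {b c : ℕ} (hb : 0 < b) (hc : 0 < c)
    (h : b.Coprime c) (f : Idl O → ℝ) :
    ∑ A ∈ PI O (b * c), f A = ∑ I ∈ PI O b, ∑ J ∈ PI O c, f (infI I J) := by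
  have h1 := sum_PI hn hO hb hc h (fun A => (f A : ℂ))
  exact_mod_cast h1

theorem f6_AI (hn : 2 ≤ n) (hO : GLL.Ord O) {b : ℕ} (hb : 0 < b) {J : Idl O} (hJ : J ∈ PI O b)
    (f : Idl O → ℝ) : ∑ K ∈ AI J, f K =
      ∑ K ∈ PI O b, (open scoped Classical in if J ≤ K then f K else 0) := by
  classical
  have h1 := AI_PI hn hO hb hJ (fun K => (f K : ℂ))
  have h2 : ((∑ K ∈ AI J, f K : ℝ) : ℂ) = ((∑ K ∈ PI O b, if J ≤ K then f K else 0 : ℝ) : ℂ) := by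
    rw [Complex.ofReal_sum, h1, Complex.ofReal_sum]
    refine Finset.sum_congr rfl fun K _ => ?_
    split_ifs
    · rfl
    · exact Complex.ofReal_zero.symm
  exact_mod_cast h2

/-- `FS` in terms of `f6_G` -/
theorem f6_FS (hn : 2 ≤ n) (hO : GLL.Ord O) {b : ℕ} (hb : 0 < b) :
    FS O b = ∑ J ∈ PI O b, ∑ J' ∈ PI O b, |(mob O b J : ℝ)| * |(mob O b J' : ℝ)| *
      (((N J : ℝ) ^ n)⁻¹ * f6_G J J') := by
  classical
  have hG : ∀ J ∈ PI O b, ∀ J' ∈ PI O b, f6_G J J' = ∑ K ∈ PI O b, ∑ K' ∈ PI O b,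
      if J ≤ K ∧ K ≤ K' then |mu K' K| * (N K' : ℝ) ^ n * ((N (infI J' K') : ℝ) ^ n)⁻¹ else 0 := by
    intro J hJ J' _
    unfold f6_G
    rw [f6_AI hn hO hb hJ]
    refine Finset.sum_congr rfl fun K hK => ?_
    by_cases h1 : J ≤ K
    · rw [if_pos h1, f6_AI hn hO hb hK]
      refine Finset.sum_congr rfl fun K' _ => ?_
      by_cases h2 : K ≤ K'
      · rw [if_pos h2, if_pos ⟨h1, h2⟩]
      · rw [if_neg h2, if_neg (fun c => h2 c.2)]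
    · rw [if_neg h1]
      refine (Finset.sum_eq_zero fun K' _ => ?_).symm
      rw [if_neg (fun c => h1 c.1)]
  unfold FS
  calc ∑ A' ∈ PI O b, ∑ K' ∈ PI O b, ∑ K ∈ PI O b, ∑ A ∈ PI O b,
      (if A ≤ K ∧ K ≤ K' then |(mob O b A' : ℝ)| * |(mob O b A : ℝ)| * |mu K' K| *
        ((N (infI A' K') : ℝ) ^ n)⁻¹ * (N K' : ℝ) ^ n * ((N A : ℝ) ^ n)⁻¹ else 0)
      = ∑ A' ∈ PI O b, ∑ A ∈ PI O b, ∑ K ∈ PI O b, ∑ K' ∈ PI O b,
      (if A ≤ K ∧ K ≤ K' then |(mob O b A' : ℝ)| * |(mob O b A : ℝ)| * |mu K' K| *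
        ((N (infI A' K') : ℝ) ^ n)⁻¹ * (N K' : ℝ) ^ n * ((N A : ℝ) ^ n)⁻¹ else 0) := by
        refine Finset.sum_congr rfl fun A' _ => ?_
        rw [Finset.sum_comm]
        rw [Finset.sum_congr rfl fun K _ => Finset.sum_comm]
        rw [Finset.sum_comm]
    _ = ∑ A ∈ PI O b, ∑ A' ∈ PI O b, ∑ K ∈ PI O b, ∑ K' ∈ PI O b,
      (if A ≤ K ∧ K ≤ K' then |(mob O b A' : ℝ)| * |(mob O b A : ℝ)| * |mu K' K| *
        ((N (infI A' K') : ℝ) ^ n)⁻¹ * (N K' : ℝ) ^ n * ((N A : ℝ) ^ n)⁻¹ else 0) :=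
        Finset.sum_comm
    _ = _ := by
        refine Finset.sum_congr rfl fun J hJ => Finset.sum_congr rfl fun J' hJ' => ?_
        rw [hG J hJ J' hJ', Finset.mul_sum, Finset.mul_sum]
        refine Finset.sum_congr rfl fun K _ => ?_
        rw [Finset.mul_sum, Finset.mul_sum]
        refine Finset.sum_congr rfl fun K' _ => ?_
        split_ifs
        · ring
        · ring

/-- the sum of the coefficients -/
theorem f6_c {C0 : ℝ} (hC0 : 0 < C0) {b : ℕ} (hb : 0 < b)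
    (hcnt : ∀ (b : ℕ) (Y : ℝ), 0 < b →
    1 ≤ Y → (∀ A : Idl O, (N A : ℝ) ≤ Y → |(mob O b A : ℝ)| ≤ C0 * Y ^ C0) ∧
      ∀ S : Finset (Idl O), (∀ A ∈ S, (N A : ℝ) ≤ Y) → (S.card : ℝ) ≤ C0 * Y ^ C0)
    {θ Q : ℝ} (hQ : 1 ≤ Q) (hθ0 : 0 ≤ θ) (hθ : θ < 1) {c : Idl O → ℝ} (hc : CO O b (Q ^ θ) c) :
    (∑ A ∈ PI O b, |c A|) ^ 2 ≤ C0 ^ 4 * Q ^ ⌈4 * C0⌉₊ := by
  classical
  have hQ0 : 0 < Q := by linarith
  have hY : 1 ≤ Q ^ θ := Real.one_le_rpow hQ hθ0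
  obtain ⟨h1, h2⟩ := hcnt b (Q ^ θ) hb hY
  have h3 : (Q ^ θ) ^ C0 ≤ Q ^ C0 := by
    refine Real.rpow_le_rpow (by positivity) ?_ hC0.le
    calc Q ^ θ ≤ Q ^ (1 : ℝ) := Real.rpow_le_rpow_of_exponent_le hQ hθ.le
      _ = Q := Real.rpow_one Q
  have h4 : ∑ A ∈ PI O b, |c A| ≤ (C0 * Q ^ C0) * (C0 * Q ^ C0) := by
    have h5 : ∑ A ∈ PI O b, |c A| = ∑ A ∈ (PI O b).filter (fun A => c A ≠ 0), |c A| := by
      rw [Finset.sum_filter]
      refine Finset.sum_congr rfl fun A _ => ?_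
      by_cases h : c A = 0
      · rw [if_neg (not_not.2 h), h, abs_zero]
      · rw [if_pos h]
    rw [h5]
    have h6 : ∀ A ∈ (PI O b).filter (fun A => c A ≠ 0), |c A| ≤ C0 * Q ^ C0 := by
      intro A hA
      have hA' := hc.cut A (Finset.mem_filter.1 hA).2
      exact (hc.le A).trans ((h1 A hA').trans (mul_le_mul_of_nonneg_left h3 hC0.le))
    refine (Finset.sum_le_card_nsmul _ _ _ h6).trans ?_
    rw [nsmul_eq_mul]
    refine mul_le_mul_of_nonneg_right ?_ (by positivity)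
    refine (h2 _ fun A hA => hc.cut A (Finset.mem_filter.1 hA).2).trans ?_
    exact mul_le_mul_of_nonneg_left h3 hC0.le
  have h7 : 0 ≤ ∑ A ∈ PI O b, |c A| := Finset.sum_nonneg fun _ _ => abs_nonneg _
  calc (∑ A ∈ PI O b, |c A|) ^ 2 ≤ ((C0 * Q ^ C0) * (C0 * Q ^ C0)) ^ 2 :=
        pow_le_pow_left₀ h7 h4 2
    _ = C0 ^ 4 * Q ^ (4 * C0) := by
        rw [mul_comm 4 C0, Real.rpow_mul hQ0.le]
        have h8 : (Q ^ C0) ^ (4 : ℝ) = (Q ^ C0) ^ (4 : ℕ) := by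
          rw [← Real.rpow_natCast]
          norm_num
        rw [h8]
        ring
    _ ≤ C0 ^ 4 * Q ^ ⌈4 * C0⌉₊ := by
        refine mul_le_mul_of_nonneg_left ?_ (by positivity)
        rw [← Real.rpow_natCast]
        exact Real.rpow_le_rpow_of_exponent_le hQ (Nat.le_ceil _)

theorem f6_fin {ι κ : Type*} (S : Finset ι) (T : Finset κ) (a : ι → ℝ) (b : κ → ℝ) (K : ℝ)
    (g : κ → κ → ℝ) :
    ∑ I ∈ S, ∑ J ∈ T, ∑ I' ∈ S, ∑ J' ∈ T, a I * b J * (a I' * b J') * (K * g J J') =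
      K * (∑ I ∈ S, a I) ^ 2 * ∑ J ∈ T, ∑ J' ∈ T, b J * b J' * g J J' := by
  calc ∑ I ∈ S, ∑ J ∈ T, ∑ I' ∈ S, ∑ J' ∈ T, a I * b J * (a I' * b J') * (K * g J J')
      = ∑ I ∈ S, ∑ J ∈ T, (∑ I' ∈ S, a I') * ∑ J' ∈ T, a I * b J * b J' * (K * g J J') := by
        refine Finset.sum_congr rfl fun I _ => Finset.sum_congr rfl fun J _ => ?_
        rw [Finset.sum_mul_sum]
        refine Finset.sum_congr rfl fun I' _ => Finset.sum_congr rfl fun J' _ => ?_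
        ring
    _ = ∑ I ∈ S, a I * ((∑ I' ∈ S, a I') *
          (K * ∑ J ∈ T, ∑ J' ∈ T, b J * b J' * g J J')) := by
        refine Finset.sum_congr rfl fun I _ => ?_
        rw [Finset.mul_sum, Finset.mul_sum, Finset.mul_sum]
        refine Finset.sum_congr rfl fun J _ => ?_
        rw [mul_left_comm]
        congr 1
        rw [Finset.mul_sum, Finset.mul_sum]
        refine Finset.sum_congr rfl fun J' _ => ?_
        ring
    _ = _ := by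
        rw [← Finset.sum_mul]
        ring

theorem far0_pr (hn : 2 ≤ n) (hO : GLL.Ord O) {Φ : Mt n → ℂ} (hΦ : Tst Φ)
    (h0 : ∫ X : Mt n, Φ X = 0) {β : Mt n → ℝ} (hβ : Bt β) (b₀ : ℕ) (hb₀ : 0 < b₀) (R A₁ : ℝ)
    {θ : ℝ} (hθ0 : 0 ≤ θ) (hθ : θ < 1) : ∃ C r₁ Q0 : ℝ, 0 ≤ C ∧ 0 ≤ r₁ ∧ 1 ≤ Q0 ∧
      ∀ Q u u' : ℝ, Q0 ≤ Q → u + r₁ ≤ u' → u' ≤ A₁ → -(2 * Real.log Q) ≤ u →
      ∀ b₂ : ℕ, 0 < b₂ → b₀.Coprime b₂ → ∀ c : Idl O → ℝ, CO O (b₀ * b₂) (Q ^ θ) c →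
      ∀ x ∈ K1 n R, ∀ y ∈ K1 n R, ∀ Y ∈ K1 n R,
        ‖Gt b₀ (b₀ * b₂) β Φ c Q u u' x y Y‖ ≤
          C * Q ^ n * Real.exp (-(n * u')) * (FS O b₂ + 1) := by
  classical
  obtain ⟨C0, hC0, hcnt⟩ := PI_cnt hn hO
  obtain ⟨C1, r₁, Q0, hC1, hr₁, hQ0, hSW⟩ := far_SW hn hO hΦ h0 hβ b₀ hb₀ R A₁ hθ0 hθ ⌈4 * C0⌉₊
  obtain ⟨C2, hC2, hsum⟩ := f6_sum hn hO hΦ R
  set Sb : ℝ := ∑ I ∈ PI O b₀, |(mob O b₀ I : ℝ)| with hSb
  refine ⟨C1 * C2 * Sb ^ 2 + C1 * C0 ^ 4 * Real.exp (n * A₁), r₁, Q0, by positivity, hr₁, hQ0, ?_⟩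
  intro Q u u' hQ huu hu'A hu2 b₂ hb₂ hcop c hc x hx y hy Y hY
  have hQ1 : 1 ≤ Q := hQ0.trans hQ
  have hQp : 0 < Q := by linarith
  have hn0 : (n : ℝ) ≠ 0 := by
    have : n ≠ 0 := by omega
    exact_mod_cast this
  have hb : 0 < b₀ * b₂ := Nat.mul_pos hb₀ hb₂
  set E : ℝ := Real.exp (-(n * u')) with hE
  have hEz : ((Real.exp (u' / n) ^ n) ^ n)⁻¹ = E := by
    rw [← Real.exp_nat_mul, mul_div_cancel₀ _ hn0, ← Real.exp_nat_mul, hE, Real.exp_neg]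
  have hE0 : 0 < E := Real.exp_pos _
  set M : ℕ := ⌈4 * C0⌉₊ with hM
  have hGnn : ∀ J J' : Idl O, 0 ≤ f6_G J J' := by
    intro J J'
    unfold f6_G
    exact Finset.sum_nonneg fun K _ => Finset.sum_nonneg fun K' _ => by positivity
  -- one pair
  have hpair : ∀ I ∈ PI O b₀, ∀ J ∈ PI O b₂, ∀ I' ∈ PI O b₀, ∀ J' ∈ PI O b₂,
      |c (infI I J) * c (infI I' J')| * ‖SW b₀ β Φ Q u u' (infI I J) (infI I' J') x y Y‖ ≤
      |(mob O b₀ I : ℝ)| * |(mob O b₂ J : ℝ)| * (|(mob O b₀ I' : ℝ)| * |(mob O b₂ J' : ℝ)|) *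
        ((C1 * C2 * Q ^ n * E) * (((N J : ℝ) ^ n)⁻¹ * f6_G J J')) +
      |c (infI I J)| * |c (infI I' J')| * (C1 * (Q ^ M)⁻¹) := by
    intro I hI J hJ I' hI' J' hJ'
    have hIb := (mem_PI hn hO hb₀ I).1 hI
    have hI'b := (mem_PI hn hO hb₀ I').1 hI'
    have hJb := (mem_PI hn hO hb₂ J).1 hJ
    have hJ'b := (mem_PI hn hO hb₂ J').1 hJ'
    have hm : |c (infI I J)| ≤ |(mob O b₀ I : ℝ)| * |(mob O b₂ J : ℝ)| := by
      refine (hc.le _).trans (le_of_eq ?_)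
      rw [DZL.mob_mul hn hO hb₀ hb₂ hcop hIb hJb, Int.cast_mul, abs_mul]
    have hm' : |c (infI I' J')| ≤ |(mob O b₀ I' : ℝ)| * |(mob O b₂ J' : ℝ)| := by
      refine (hc.le _).trans (le_of_eq ?_)
      rw [DZL.mob_mul hn hO hb₀ hb₂ hcop hI'b hJ'b, Int.cast_mul, abs_mul]
    have hNJi : 0 ≤ ((N J : ℝ) ^ n)⁻¹ := by positivity
    by_cases hc0 : c (infI I J) = 0
    · rw [hc0, zero_mul, abs_zero, zero_mul, zero_mul, zero_mul, add_zero]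
      have := hGnn J J'
      positivity
    have hcut := hc.cut _ hc0
    have hfac := PI_facts hn hO hb₀ hb₂ hcop hI hI hJ hJ
    have hNJ : (N J : ℝ) ≤ Q ^ θ := by
      refine le_trans ?_ hcut
      rw [hfac.2.2.2.1]
      have h1 : 0 < N I := (IF_gen hn hO I).2.2.1
      exact_mod_cast Nat.le_mul_of_pos_left (N J) h1
    have h1 := hSW Q u u' hQ huu hu'A hu2 x hx y hy Y hY I J (infI I' J') hIb hfac.1 hNJ
    have hle : infI I' J' ≤ J' := by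
      show (infI I' J').1 ≤ J'.1
      rw [(IF_inf hn hO I' J').1]
      exact inf_le_right
    have h2 := hsum (Real.exp (u' / n)) (Real.exp_pos _) x hx y hy J (infI I' J') J' hle
    rw [hEz] at h2
    have h3 : ‖SW b₀ β Φ Q u u' (infI I J) (infI I' J') x y Y‖ ≤
        (C1 * C2 * Q ^ n * E) * (((N J : ℝ) ^ n)⁻¹ * f6_G J J') + C1 * (Q ^ M)⁻¹ := by
      refine h1.trans (add_le_add ?_ le_rfl)
      calc C1 * Q ^ n * ((N J : ℝ) ^ n)⁻¹ * (∑' a' : O, (if (a' : Mt n) ∈ (infI I' J').1 then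
            ‖Φ (Real.exp (u' / n) • (x⁻¹ * a' * y))‖ * ∑ K ∈ AI J, |fK a' K| else 0))
          ≤ C1 * Q ^ n * ((N J : ℝ) ^ n)⁻¹ * (C2 * E * f6_G J J') := by
            refine mul_le_mul_of_nonneg_left h2 (by positivity)
        _ = _ := by ring
    rw [abs_mul]
    calc |c (infI I J)| * |c (infI I' J')| *
          ‖SW b₀ β Φ Q u u' (infI I J) (infI I' J') x y Y‖
        ≤ |c (infI I J)| * |c (infI I' J')| *
          ((C1 * C2 * Q ^ n * E) * (((N J : ℝ) ^ n)⁻¹ * f6_G J J') + C1 * (Q ^ M)⁻¹) := by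
          gcongr
      _ = |c (infI I J)| * |c (infI I' J')| *
          ((C1 * C2 * Q ^ n * E) * (((N J : ℝ) ^ n)⁻¹ * f6_G J J')) +
          |c (infI I J)| * |c (infI I' J')| * (C1 * (Q ^ M)⁻¹) := by ring
      _ ≤ _ := by
          refine add_le_add ?_ le_rfl
          refine mul_le_mul_of_nonneg_right ?_ ?_
          · exact mul_le_mul hm hm' (abs_nonneg _) (by positivity)
          · have := hGnn J J'
            positivity
  -- the sum over the pairs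
  have h1 : ‖Gt b₀ (b₀ * b₂) β Φ c Q u u' x y Y‖ ≤
      ∑ I ∈ PI O b₀, ∑ J ∈ PI O b₂, ∑ I' ∈ PI O b₀, ∑ J' ∈ PI O b₂,
        |c (infI I J) * c (infI I' J')| *
          ‖SW b₀ β Φ Q u u' (infI I J) (infI I' J') x y Y‖ := by
    unfold Gt
    calc ‖∑ A ∈ PI O (b₀ * b₂), ∑ A' ∈ PI O (b₀ * b₂), ((c A * c A' : ℝ) : ℂ) *
          SW b₀ β Φ Q u u' A A' x y Y‖
        ≤ ∑ A ∈ PI O (b₀ * b₂), ∑ A' ∈ PI O (b₀ * b₂), |c A * c A'| *
          ‖SW b₀ β Φ Q u u' A A' x y Y‖ := by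
          refine (norm_sum_le _ _).trans (Finset.sum_le_sum fun A _ => ?_)
          refine (norm_sum_le _ _).trans (Finset.sum_le_sum fun A' _ => ?_)
          rw [norm_mul, Complex.norm_real, Real.norm_eq_abs]
      _ = _ := by
          rw [f6_sumPI hn hO hb₀ hb₂ hcop]
          refine Finset.sum_congr rfl fun I _ => Finset.sum_congr rfl fun J _ => ?_
          rw [f6_sumPI hn hO hb₀ hb₂ hcop]
  have h2 : ∑ I ∈ PI O b₀, ∑ J ∈ PI O b₂, ∑ I' ∈ PI O b₀, ∑ J' ∈ PI O b₂,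
      |c (infI I J)| * |c (infI I' J')| * (C1 * (Q ^ M)⁻¹) =
      (∑ A ∈ PI O (b₀ * b₂), |c A|) ^ 2 * (C1 * (Q ^ M)⁻¹) := by
    rw [sq, f6_sumPI hn hO hb₀ hb₂ hcop, Finset.sum_mul, Finset.sum_mul]
    refine Finset.sum_congr rfl fun I _ => ?_
    rw [Finset.sum_mul, Finset.sum_mul]
    refine Finset.sum_congr rfl fun J _ => ?_
    rw [Finset.mul_sum, Finset.sum_mul]
    refine Finset.sum_congr rfl fun I' _ => ?_
    rw [Finset.mul_sum, Finset.sum_mul]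
  have h3 := f6_c hC0 hb hcnt hQ1 hθ0 hθ hc
  have h4 : (∑ A ∈ PI O (b₀ * b₂), |c A|) ^ 2 * (C1 * (Q ^ M)⁻¹) ≤ C1 * C0 ^ 4 := by
    calc (∑ A ∈ PI O (b₀ * b₂), |c A|) ^ 2 * (C1 * (Q ^ M)⁻¹)
        ≤ (C0 ^ 4 * Q ^ M) * (C1 * (Q ^ M)⁻¹) := by gcongr
      _ = C1 * C0 ^ 4 := by
          field_simp
  have hFS : 0 ≤ FS O b₂ := by
    rw [f6_FS hn hO hb₂]
    refine Finset.sum_nonneg fun J _ => Finset.sum_nonneg fun J' _ => ?_
    have := hGnn J J'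
    positivity
  have h5 : C1 * C0 ^ 4 ≤ C1 * C0 ^ 4 * Real.exp (n * A₁) * Q ^ n * E := by
    have h6 : 1 ≤ Real.exp (n * A₁) * E := by
      rw [hE, ← Real.exp_add]
      apply Real.one_le_exp
      have : (n : ℝ) * u' ≤ n * A₁ := by gcongr
      linarith
    have h7 : 1 ≤ Q ^ n := one_le_pow₀ hQ1
    calc C1 * C0 ^ 4 = C1 * C0 ^ 4 * (1 * 1) := by ring
      _ ≤ C1 * C0 ^ 4 * ((Real.exp (n * A₁) * E) * Q ^ n) := by gcongr
      _ = _ := by ring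
  calc ‖Gt b₀ (b₀ * b₂) β Φ c Q u u' x y Y‖
      ≤ _ := h1
    _ ≤ ∑ I ∈ PI O b₀, ∑ J ∈ PI O b₂, ∑ I' ∈ PI O b₀, ∑ J' ∈ PI O b₂,
        (|(mob O b₀ I : ℝ)| * |(mob O b₂ J : ℝ)| * (|(mob O b₀ I' : ℝ)| * |(mob O b₂ J' : ℝ)|) *
        ((C1 * C2 * Q ^ n * E) * (((N J : ℝ) ^ n)⁻¹ * f6_G J J')) +
      |c (infI I J)| * |c (infI I' J')| * (C1 * (Q ^ M)⁻¹)) :=
        Finset.sum_le_sum fun I hI => Finset.sum_le_sum fun J hJ =>
          Finset.sum_le_sum fun I' hI' => Finset.sum_le_sum fun J' hJ' =>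
            hpair I hI J hJ I' hI' J' hJ'
    _ = (C1 * C2 * Q ^ n * E) * Sb ^ 2 * FS O b₂ +
        (∑ A ∈ PI O (b₀ * b₂), |c A|) ^ 2 * (C1 * (Q ^ M)⁻¹) := by
        simp only [Finset.sum_add_distrib]
        rw [h2, f6_fin (PI O b₀) (PI O b₂) (fun I => |(mob O b₀ I : ℝ)|)
          (fun J => |(mob O b₂ J : ℝ)|) (C1 * C2 * Q ^ n * E)
          (fun J J' => ((N J : ℝ) ^ n)⁻¹ * f6_G J J'), f6_FS hn hO hb₂]
    _ ≤ (C1 * C2 * Q ^ n * E) * Sb ^ 2 * (FS O b₂ + 1) +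
        C1 * C0 ^ 4 * Real.exp (n * A₁) * Q ^ n * E * (FS O b₂ + 1) := by
        refine add_le_add ?_ ?_
        · refine mul_le_mul_of_nonneg_left (by linarith) (by positivity)
        · refine (h4.trans h5).trans ?_
          refine le_mul_of_one_le_right (by positivity) (by linarith)
    _ = _ := by ring


end

end Pool.Agent.RZH

namespace Pool.Agent.RZH

theorem far0 : type_of% @far0_pr := @far0_pr

end Pool.Agent.RZH
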