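import Pool.Agent.Lib_helper32.LAL.SD2
import Pool.Agent.Lib_helper32.LALS.S_SD1
import Pool.Agent.Lib_helper41.RZGF.R_S4a
import Pool.Agent.Lib_helper41.RZGF.R_S4b
import Pool.Agent.Lib_helper75.DZNF.L3
import Pool.Agent.Lib_helper75.DZNF.L4
import Pool.Agent.Lib_helper75.RZG.Defs
import Pool.Agent.Lib_helper96.GLF.H_HD2
import Pool.Agent.Lib_helper96.GLF.O_OA3
import Pool.Agent.Lib_helper96.GLF.O_OE
import Pool.Agent.Lib_helper96.GLF.O_OH
import Pool.Agent.Lib_helper96.GLL.Defs
import Pool.Agent.Lib_helper96.GLL.DefsB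

/-!
# Project RZG, block F7a: the Möbius function of the intervals
-/

set_option autoImplicit false

namespace Pool.Agent.RZH

open MeasureTheory Matrix Complex Filter Topology Pool.Agent.GLL Pool.Agent.LAL
open scoped ENNReal ContDiff

noncomputable section

variable {n : ℕ} {O : Subring (Mt n)}

theorem f7a_spec (hn : 2 ≤ n) (hO : GLL.Ord O) (K' L : Idl O) :
    ∑ P ∈ AI L, mu K' P = open scoped Classical in if L = K' then (1 : ℝ) else 0 :=
  mi_spec hn hO (open scoped Classical in fun M => if M = K' then (1 : ℝ) else 0) L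

theorem f7a_lt (hn : 2 ≤ n) (hO : GLL.Ord O) {L P : Idl O} (h : L ≤ P) (hne : P ≠ L) :
    N P < N L := by
  have h1 := IF_dvd hn hO P L h
  refine lt_of_le_of_ne (Nat.le_of_dvd (IF_gen hn hO L).2.2.1 h1.1) fun h2 => hne (h1.2 h2)

theorem f7a_le (hn : 2 ≤ n) (hO : GLL.Ord O) {L P : Idl O} (h : L ≤ P) : N P ≤ N L :=
  Nat.le_of_dvd (IF_gen hn hO L).2.2.1 (IF_dvd hn hO P L h).1

/-- `mu K' P = 0` unless `P ≤ K'` -/
theorem f7a_zero (hn : 2 ≤ n) (hO : GLL.Ord O) (K' : Idl O) :
    ∀ P : Idl O, ¬ P ≤ K' → mu K' P = 0 := by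
  classical
  have key : ∀ m : ℕ, ∀ P : Idl O, N P = m → ¬ P ≤ K' → mu K' P = 0 := by
    intro m
    induction m using Nat.strong_induction_on with
    | _ m ih =>
    intro P hP hn'
    have e1 := f7a_spec hn hO K' P
    rw [if_neg (fun h => hn' h.le)] at e1
    rw [Finset.sum_eq_single P] at e1
    · exact e1
    · intro P' hP' hne
      have h1 := (mem_AI hn hO P P').1 hP'
      exact ih (N P') (hP ▸ f7a_lt hn hO h1 hne) P' rfl fun h2 => hn' (h1.trans h2)
    · intro h1
      exact absurd ((mem_AI hn hO P P).2 le_rfl) h1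
  exact fun P => key _ P rfl

theorem mu_mul_pr (hn : 2 ≤ n) (hO : GLL.Ord O) {K K' M M' : Idl O} (hK : K ≤ K') (hM : M ≤ M')
    (h : (N K).Coprime (N M)) : mu (infI K' M') (infI K M) = mu K' K * mu M' M := by
  classical
  obtain ⟨hA1, -, hA3⟩ := AI_inf hn hO h
  have hK' : K' ∈ AI K := (mem_AI hn hO K K').2 hK
  have hM' : M' ∈ AI M := (mem_AI hn hO M M').2 hM
  have key : ∀ m : ℕ, ∀ L ∈ AI K, ∀ L' ∈ AI M, N L + N L' = m →
      mu (infI K' M') (infI L L') = mu K' L * mu M' L' := by
    intro m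
    induction m using Nat.strong_induction_on with
    | _ m ih =>
    intro L hL L' hL' hm
    have hcop : (N L).Coprime (N L') := (hA1 L hL L' hL').1
    obtain ⟨-, hB2, -⟩ := AI_inf hn hO hcop
    have e1 := f7a_spec hn hO (infI K' M') (infI L L')
    rw [hB2] at e1
    have e2 : (∑ P ∈ AI L, mu K' P) * (∑ P' ∈ AI L', mu M' P') =
        (if L = K' then (1 : ℝ) else 0) * (if L' = M' then (1 : ℝ) else 0) := by
      rw [f7a_spec hn hO, f7a_spec hn hO]
    rw [Finset.sum_mul_sum] at e2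
    have e3 : (if infI L L' = infI K' M' then (1 : ℝ) else 0) =
        (if L = K' then (1 : ℝ) else 0) * (if L' = M' then (1 : ℝ) else 0) := by
      have h1 := (hA3 L hL L' hL' K' hK' M' hM').2
      by_cases h2 : L = K'
      · by_cases h3 : L' = M'
        · rw [if_pos (h1.2 ⟨h2, h3⟩), if_pos h2, if_pos h3, one_mul]
        · rw [if_neg (fun c => h3 (h1.1 c).2), if_neg h3, mul_zero]
      · rw [if_neg (fun c => h2 (h1.1 c).1), if_neg h2, zero_mul]
    have e4 : ∑ P ∈ AI L, ∑ P' ∈ AI L', (mu (infI K' M') (infI P P') - mu K' P * mu M' P') = 0 := by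
      simp only [Finset.sum_sub_distrib]
      rw [e1, e2, e3, sub_self]
    have hLL : L ∈ AI L := (mem_AI hn hO L L).2 le_rfl
    have hLL' : L' ∈ AI L' := (mem_AI hn hO L' L').2 le_rfl
    have hKL := (mem_AI hn hO K L).1 hL
    have hML := (mem_AI hn hO M L').1 hL'
    rw [Finset.sum_eq_single L] at e4
    · rw [Finset.sum_eq_single L'] at e4
      · linarith
      · intro P' hP' hne
        have h1 := (mem_AI hn hO L' P').1 hP'
        have h2 := f7a_lt hn hO h1 hne
        rw [ih (N L + N P') (by omega) L hL P' ((mem_AI hn hO M P').2 (hML.trans h1)) rfl, sub_self]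
      · intro h1
        exact absurd hLL' h1
    · intro P hP hne
      have h1 := (mem_AI hn hO L P).1 hP
      have h2 := f7a_lt hn hO h1 hne
      refine Finset.sum_eq_zero fun P' hP' => ?_
      have h3 := (mem_AI hn hO L' P').1 hP'
      have h4 := f7a_le hn hO h3
      rw [ih (N P + N P') (by omega) P ((mem_AI hn hO K P).2 (hKL.trans h1)) P'
        ((mem_AI hn hO M P').2 (hML.trans h3)) rfl, sub_self]
    · intro h1
      exact absurd hLL h1
  exact key _ K ((mem_AI hn hO K K).2 le_rfl) M ((mem_AI hn hO M M).2 le_rfl) rfl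

theorem f7a_AI (hn : 2 ≤ n) (hO : GLL.Ord O) (J : Idl O) :
    AI J = (IF_sup hn hO J).1.toFinset := by
  ext K
  rw [mem_AI hn hO, Set.Finite.mem_toFinset]
  rfl

/-- `mu(k' O, k' J) = mob(b, J)` -/
theorem mu_mob_pr (hn : 2 ≤ n) (hO : GLL.Ord O) {b : ℕ} (hb : 0 < b) {K K' : Idl O} (h : K ≤ K')
    (hK : (b : Mt n) ∈ K.1) : ∃ J : Idl O, (b : Mt n) ∈ J.1 ∧ K = aI (gen K') J ∧
      N K = N K' * N J ∧ mu K' K = mob O b J := by
  classical
  have hk0 : gen K' ≠ 0 := (IF_gen hn hO K').1
  obtain ⟨hI1, hI2, -⟩ := IF_aI hn hO (gen K') hk0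
  obtain ⟨J, rfl⟩ := GLH.hd2_surj hn hO h
  have hbJ : (b : Mt n) ∈ J.1 := by
    have h1 : (b : Mt n) * (gen K' : Mt n) ∈ (aI (gen K') J).1 :=
      (aI (gen K') J).2.2.2 _ hK _ (gen K').2
    rw [(hI1 J).1] at h1
    obtain ⟨j, hj, hj'⟩ := h1
    have h2 : (AddMonoidHom.mulLeft (gen K' : Mt n)) j =
        (AddMonoidHom.mulLeft (gen K' : Mt n)) (b : Mt n) := by
      rw [hj']
      exact (Nat.cast_commute b (gen K' : Mt n)).eq
    rwa [oh_inj hO (gen K') hk0 h2] at hj
  have hle : ∀ g : Idl O, aI (gen K') g ≤ K' := fun g => (GLH.hd2_aI hn hO K' g).2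
  have hN : ∀ g : Idl O, N (aI (gen K') g) = N K' * N g := fun g => (GLH.hd2_aI hn hO K' g).1
  have hK'pos : 0 < N K' := (IF_gen hn hO K').2.2.1
  have key : ∀ m : ℕ, ∀ g : Idl O, N g = m → (b : Mt n) ∈ g.1 →
      mu K' (aI (gen K') g) = mob O b g := by
    intro m
    induction m using Nat.strong_induction_on with
    | _ m ih =>
    intro g hg hbg
    have e1 := f7a_spec hn hO K' (aI (gen K') g)
    have e2 : ∑ P ∈ AI (aI (gen K') g), mu K' P = ∑ P ∈ AI g, mu K' (aI (gen K') P) := by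
      have h1 : ∑ P ∈ AI g, mu K' (aI (gen K') P) =
          ∑ P ∈ (AI g).image (fun P => aI (gen K') P), mu K' P := by
        rw [Finset.sum_image]
        intro P _ P' _ hPP
        exact GLH.hd2_inj hn hO K' P P' hPP
      rw [h1]
      symm
      apply Finset.sum_subset
      · intro P hP
        rw [Finset.mem_image] at hP
        obtain ⟨P0, hP0, rfl⟩ := hP
        rw [mem_AI hn hO] at hP0 ⊢
        exact (hI2 g P0).2 hP0
      · intro P hP hP'
        apply f7a_zero hn hO
        intro hPK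
        apply hP'
        obtain ⟨P0, rfl⟩ := GLH.hd2_surj hn hO hPK
        rw [Finset.mem_image]
        refine ⟨P0, ?_, rfl⟩
        rw [mem_AI hn hO] at hP ⊢
        exact (hI2 g P0).1 hP
    rw [e2] at e1
    have e3 := DZL.mob_fin hn hO b hb g
    rw [← f7a_AI hn hO g] at e3
    have e3' : ∑ P ∈ AI g, (mob O b P : ℝ) = if (N g).Coprime b then 1 else 0 := by
      have := congrArg (fun z : ℤ => (z : ℝ)) e3
      simp only [Int.cast_sum] at this
      rw [this]
      split_ifs <;> simp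
    have e4 : (if aI (gen K') g = K' then (1 : ℝ) else 0) =
        if (N g).Coprime b then (1 : ℝ) else 0 := by
      have h1 : aI (gen K') g = K' ↔ (N g).Coprime b := by
        constructor
        · intro h2
          have h3 := hN g
          rw [h2] at h3
          have h4 : N g = 1 := by
            have : N K' * 1 = N K' * N g := by rw [mul_one]; exact h3
            exact (Nat.eq_of_mul_eq_mul_left hK'pos this).symm
          rw [h4]
          exact Nat.coprime_one_left b
        · intro h2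
          have h3 : N g ∣ b ^ n := DZL.la_dvd hn hO hb hbg
          have h4 : N g = 1 := Nat.Coprime.eq_one_of_dvd (Nat.Coprime.pow_right n h2) h3
          have h5 := (IF_dvd hn hO K' (aI (gen K') g) (hle g)).2
          exact (h5 (by rw [hN g, h4, mul_one])).symm
      by_cases h2 : (N g).Coprime b
      · rw [if_pos h2, if_pos (h1.2 h2)]
      · rw [if_neg h2, if_neg (fun c => h2 (h1.1 c))]
    rw [e4, ← e3'] at e1
    have hgg : g ∈ AI g := (mem_AI hn hO g g).2 le_rfl
    rw [← Finset.add_sum_erase _ _ hgg, ← Finset.add_sum_erase _ _ hgg] at e1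
    have e5 : ∑ P ∈ (AI g).erase g, mu K' (aI (gen K') P) =
        ∑ P ∈ (AI g).erase g, (mob O b P : ℝ) := by
      refine Finset.sum_congr rfl fun P hP => ?_
      rw [Finset.mem_erase, mem_AI hn hO] at hP
      exact ih (N P) (hg ▸ f7a_lt hn hO hP.2 hP.1) P rfl (hP.2 hbg)
    rw [e5] at e1
    linarith
  exact ⟨J, hbJ, rfl, hN J, key _ J rfl hbJ⟩


end

end Pool.Agent.RZH

namespace Pool.Agent.RZH

theorem mu_mob : type_of% @mu_mob_pr := @mu_mob_pr

theorem mu_mul : type_of% @mu_mul_pr := @mu_mul_pr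

end Pool.Agent.RZH
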