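import Pool.Agent.Lib_helper32.LALS.S_SC3
import Pool.Agent.Lib_helper42.GLM.Defs
import Pool.Agent.Lib_helper75.DZNF.L4
import Pool.Agent.Lib_helper75.DZNF.TM
import Pool.Agent.Lib_helper75.RZG.Defs
import Pool.Agent.Lib_helper96.GLF.O_OI
import Pool.Agent.Lib_helper96.GLF.O_OL2
import Pool.Agent.Lib_helper96.GLL.Defs
import Pool.Agent.Lib_helper96.GLL.DefsB

/-!
# Project RZG, block S6b: Chinese remainder theorem for `PI`
-/

set_option autoImplicit false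

namespace Pool.Agent.RZH

open MeasureTheory Matrix Complex Filter Topology Pool.Agent.GLL Pool.Agent.LAL
open scoped ENNReal ContDiff

noncomputable section

variable {n : ℕ} {O : Subring (Mt n)}

theorem s6b_mem (hn : 2 ≤ n) (hO : GLL.Ord O) {b : ℕ} (hb : 0 < b) (I : Idl O) :
    I ∈ PI O b ↔ (b : Mt n) ∈ I.1 := by
  have h := (IF_mob hn hO b hb).2.2.1
  rw [PI, dif_pos h, Set.Finite.mem_toFinset]
  rfl

/-- the sum over the ideals containing `b c` -/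
theorem sum_PI_pr (hn : 2 ≤ n) (hO : GLL.Ord O) {b c : ℕ} (hb : 0 < b) (hc : 0 < c)
    (h : b.Coprime c) (f : Idl O → ℂ) :
    ∑ A ∈ PI O (b * c), f A = ∑ I ∈ PI O b, ∑ J ∈ PI O c, f (infI I J) :=
  DZN.tm_sum hn hO hb hc h f

/-- `c x` is in `J` if `c` is -/
theorem s6b_cmul {J : Idl O} {c : ℕ} (hJ : (c : Mt n) ∈ J.1) {x : Mt n} (hx : x ∈ O) :
    (c : Mt n) * x ∈ J.1 := J.2.2.2 _ hJ x hx

/-- `c x` is in `I` if `x` is -/
theorem s6b_cmul' {I : Idl O} (c : ℕ) {x : Mt n} (hx : x ∈ I.1) :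
    (c : Mt n) * x ∈ I.1 := by
  rw [← nsmul_eq_mul]
  exact I.1.nsmul_mem hx c

/-- `x` is in `K` if `b x` and `c x` are -/
theorem s6b_bez {b c : ℕ} (h : b.Coprime c) (K : AddSubgroup (Mt n)) {x : Mt n}
    (h1 : (b : Mt n) * x ∈ K) (h2 : (c : Mt n) * x ∈ K) : x ∈ K := by
  have hg : (b : ℤ) * Nat.gcdA b c + (c : ℤ) * Nat.gcdB b c = 1 := by
    rw [← Nat.gcd_eq_gcd_ab, h]
    rfl
  have h3 : x = (Nat.gcdA b c) • ((b : Mt n) * x) + (Nat.gcdB b c) • ((c : Mt n) * x) := by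
    have h4 : ((b : ℤ) * Nat.gcdA b c + (c : ℤ) * Nat.gcdB b c) • x = x := by
      rw [hg, one_zsmul]
    have hbx : (b : Mt n) * x = (b : ℤ) • x := by
      rw [← nsmul_eq_mul, natCast_zsmul]
    have hcx : (c : Mt n) * x = (c : ℤ) • x := by
      rw [← nsmul_eq_mul, natCast_zsmul]
    rw [hbx, hcx, smul_smul, smul_smul, ← add_smul, mul_comm (Nat.gcdA b c),
      mul_comm (Nat.gcdB b c), h4]
  rw [h3]
  exact K.add_mem (K.zsmul_mem h1 _) (K.zsmul_mem h2 _)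

theorem s6b_le {b c : ℕ} (h : b.Coprime c) {I J K : Idl O} (hJ : (c : Mt n) ∈ J.1)
    (hK : (b : Mt n) ∈ K.1) (hle : I.1 ⊓ J.1 ≤ K.1) : I ≤ K := by
  intro x hx
  have hxO : x ∈ O := I.2.2.1 x hx
  exact s6b_bez h K.1 (s6b_cmul hK hxO)
    (hle (AddSubgroup.mem_inf.2 ⟨s6b_cmul' c hx, s6b_cmul hJ hxO⟩))

theorem s6b_sup {b c : ℕ} (h : b.Coprime c) {I I' J J' : Idl O} (hI : (b : Mt n) ∈ I.1)
    (hI' : (b : Mt n) ∈ I'.1) (hJ : (c : Mt n) ∈ J.1) (hJ' : (c : Mt n) ∈ J'.1) :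
    (I.1 ⊓ J.1) ⊔ (I'.1 ⊓ J'.1) = (I.1 ⊔ I'.1) ⊓ (J.1 ⊔ J'.1) := by
  apply le_antisymm
  · refine sup_le ?_ ?_
    · exact le_inf (inf_le_left.trans le_sup_left) (inf_le_right.trans le_sup_left)
    · exact le_inf (inf_le_left.trans le_sup_right) (inf_le_right.trans le_sup_right)
  · intro x hx
    rw [AddSubgroup.mem_inf, AddSubgroup.mem_sup, AddSubgroup.mem_sup] at hx
    obtain ⟨⟨i, hi, i', hi', hxi⟩, j, hj, j', hj', hxj⟩ := hx
    refine s6b_bez h _ ?_ ?_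
    · rw [← hxj, mul_add]
      refine AddSubgroup.add_mem _ (AddSubgroup.mem_sup_left ?_) (AddSubgroup.mem_sup_right ?_)
      · exact AddSubgroup.mem_inf.2 ⟨s6b_cmul hI (J.2.2.1 j hj), s6b_cmul' b hj⟩
      · exact AddSubgroup.mem_inf.2 ⟨s6b_cmul hI' (J'.2.2.1 j' hj'), s6b_cmul' b hj'⟩
    · rw [← hxi, mul_add]
      refine AddSubgroup.add_mem _ (AddSubgroup.mem_sup_left ?_) (AddSubgroup.mem_sup_right ?_)
      · exact AddSubgroup.mem_inf.2 ⟨s6b_cmul' c hi, s6b_cmul hJ (I.2.2.1 i hi)⟩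
      · exact AddSubgroup.mem_inf.2 ⟨s6b_cmul' c hi', s6b_cmul hJ' (I'.2.2.1 i' hi')⟩

theorem PI_facts_pr (hn : 2 ≤ n) (hO : GLL.Ord O) {b c : ℕ} (hb : 0 < b) (hc : 0 < c)
    (h : b.Coprime c) {I I' J J' : Idl O} (hI : I ∈ PI O b) (hI' : I' ∈ PI O b) (hJ : J ∈ PI O c)
    (hJ' : J' ∈ PI O c) : (N J).Coprime b ∧ (N I).Coprime c ∧ (N I).Coprime (N J) ∧
      N (infI I J) = N I * N J ∧ (infI I J ≤ infI I' J' ↔ I ≤ I' ∧ J ≤ J') ∧
      infI (infI I J) (infI I' J') = infI (infI I I') (infI J J') ∧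
      supI (infI I J) (infI I' J') = infI (supI I I') (supI J J') ∧
      infI I I' ∈ PI O b ∧ supI I I' ∈ PI O b := by
  rw [s6b_mem hn hO hb] at hI hI'
  rw [s6b_mem hn hO hc] at hJ hJ'
  obtain ⟨-, h2, h3, h4, h5, -⟩ := DZL.crt_mem hn hO hb hc h hI hJ
  have e := fun A B : Idl O => (IF_inf hn hO A B).1
  have e' := fun A B : Idl O => (IF_inf hn hO A B).2.1
  refine ⟨h4, h3, h5, h2, ⟨fun hle => ⟨?_, ?_⟩, fun hle => ?_⟩, ?_, ?_, ?_, ?_⟩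
  · have h6 : I.1 ⊓ J.1 ≤ I'.1 ⊓ J'.1 := by
      rw [← e, ← e]; exact hle
    exact s6b_le h hJ hI' (h6.trans inf_le_left)
  · have h6 : I.1 ⊓ J.1 ≤ I'.1 ⊓ J'.1 := by
      rw [← e, ← e]; exact hle
    refine s6b_le h.symm hI hJ' ?_
    rw [inf_comm]
    exact h6.trans inf_le_right
  · show (infI I J).1 ≤ (infI I' J').1
    rw [e, e]
    exact inf_le_inf hle.1 hle.2
  · apply Subtype.ext
    rw [e, e, e, e, e, e]
    exact inf_inf_inf_comm _ _ _ _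
  · apply Subtype.ext
    rw [e', e, e, e, e', e']
    exact s6b_sup h hI hI' hJ hJ'
  · rw [s6b_mem hn hO hb, e]
    exact AddSubgroup.mem_inf.2 ⟨hI, hI'⟩
  · rw [s6b_mem hn hO hb, e']
    exact AddSubgroup.mem_sup_left hI


end

end Pool.Agent.RZH

namespace Pool.Agent.RZH

theorem PI_facts : type_of% @PI_facts_pr := @PI_facts_pr

theorem sum_PI : type_of% @sum_PI_pr := @sum_PI_pr

end Pool.Agent.RZH
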