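import Pool.Agent.Lib_helper32.LAL.SD2
import Pool.Agent.Lib_helper32.LALS.S_SD1
import Pool.Agent.Lib_helper41.RZGF.R_F7a
import Pool.Agent.Lib_helper41.RZGF.R_S4a
import Pool.Agent.Lib_helper41.RZGF.R_S6b
import Pool.Agent.Lib_helper42.GLM.Defs
import Pool.Agent.Lib_helper75.DZNF.L4
import Pool.Agent.Lib_helper75.DZNF.TM
import Pool.Agent.Lib_helper75.RZG.Defs
import Pool.Agent.Lib_helper96.GLF.M_MGA
import Pool.Agent.Lib_helper96.GLF.O_OL2
import Pool.Agent.Lib_helper96.GLL.Defs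
import Pool.Agent.Lib_helper96.GLL.DefsB

/-!
# Project RZG, block F7b: the absolute sum `FS` is multiplicative
-/

set_option autoImplicit false

namespace Pool.Agent.RZH

open MeasureTheory Matrix Complex Filter Topology Pool.Agent.GLL Pool.Agent.LAL
open scoped ENNReal ContDiff

noncomputable section

variable {n : ℕ} {O : Subring (Mt n)}

/-- a real sum over the ideals containing `b c` -/
theorem f7b_sum (hn : 2 ≤ n) (hO : GLL.Ord O) {b c : ℕ} (hb : 0 < b) (hc : 0 < c)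
    (hbc : b.Coprime c) (G : Idl O → ℝ) :
    ∑ K ∈ PI O (b * c), G K = ∑ I ∈ PI O b, ∑ J ∈ PI O c, G (infI I J) := by
  rw [← Finset.sum_product']
  symm
  refine Finset.sum_nbij (fun p => infI p.1 p.2) ?_ ?_ ?_ ?_
  · intro p hp
    rw [Finset.mem_product] at hp
    rw [GLL.mem_PI hn hO (Nat.mul_pos hb hc)]
    exact (DZL.crt_mem hn hO hb hc hbc ((GLL.mem_PI hn hO hb _).1 hp.1)
      ((GLL.mem_PI hn hO hc _).1 hp.2)).1
  · intro p hp p' hp' he
    rw [Finset.mem_coe, Finset.mem_product] at hp hp'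
    obtain ⟨h1, h2⟩ := DZL.crt_inj hn hO hb hc hbc ((GLL.mem_PI hn hO hb _).1 hp.1)
      ((GLL.mem_PI hn hO hc _).1 hp.2) ((GLL.mem_PI hn hO hb _).1 hp'.1)
      ((GLL.mem_PI hn hO hc _).1 hp'.2) he
    exact Prod.ext h1 h2
  · intro K hK
    rw [Finset.mem_coe, GLL.mem_PI hn hO (Nat.mul_pos hb hc)] at hK
    obtain ⟨I, J, hI, hJ, rfl⟩ := DZL.crt_surj hn hO hb hc hbc hK
    refine ⟨(I, J), ?_, rfl⟩
    rw [Finset.mem_coe, Finset.mem_product]
    exact ⟨(GLL.mem_PI hn hO hb _).2 hI, (GLL.mem_PI hn hO hc _).2 hJ⟩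
  · intro p _
    rfl

/-- the summand of `FS` -/
def f7b_s (b : ℕ) (A' K' K A : Idl O) : ℝ :=
  open scoped Classical in
  if A ≤ K ∧ K ≤ K' then |(mob O b A' : ℝ)| * |(mob O b A : ℝ)| * |mu K' K| *
      ((N (infI A' K') : ℝ) ^ n)⁻¹ * (N K' : ℝ) ^ n * ((N A : ℝ) ^ n)⁻¹ else 0

theorem f7b_FS (b : ℕ) : FS O b =
    ∑ A' ∈ PI O b, ∑ K' ∈ PI O b, ∑ K ∈ PI O b, ∑ A ∈ PI O b, f7b_s b A' K' K A := rfl

theorem f7b_key (hn : 2 ≤ n) (hO : GLL.Ord O) {b c : ℕ} (hb : 0 < b) (hc : 0 < c)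
    (h : b.Coprime c) {A' K' K A : Idl O} {B' L' L B : Idl O} (hA' : A' ∈ PI O b)
    (hK' : K' ∈ PI O b) (hK : K ∈ PI O b) (hA : A ∈ PI O b) (hB' : B' ∈ PI O c)
    (hL' : L' ∈ PI O c) (hL : L ∈ PI O c) (hB : B ∈ PI O c) :
    f7b_s (b * c) (infI A' B') (infI K' L') (infI K L) (infI A B) =
      f7b_s b A' K' K A * f7b_s c B' L' L B := by
  have e1 : infI A B ≤ infI K L ↔ A ≤ K ∧ B ≤ L :=
    (PI_facts hn hO hb hc h hA hK hB hL).2.2.2.2.1
  have e2 : infI K L ≤ infI K' L' ↔ K ≤ K' ∧ L ≤ L' :=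
    (PI_facts hn hO hb hc h hK hK' hL hL').2.2.2.2.1
  have e3 := PI_facts hn hO hb hc h hA' hK' hB' hL'
  have mA' := (GLL.mem_PI hn hO hb _).1 hA'
  have mA := (GLL.mem_PI hn hO hb _).1 hA
  have mB' := (GLL.mem_PI hn hO hc _).1 hB'
  have mB := (GLL.mem_PI hn hO hc _).1 hB
  have e4 := DZL.mob_mul hn hO hb hc h mA' mB'
  have e5 := DZL.mob_mul hn hO hb hc h mA mB
  have e6 : N (infI K' L') = N K' * N L' := (PI_facts hn hO hb hc h hK' hK' hL' hL').2.2.2.1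
  have e7 : N (infI A B) = N A * N B := (PI_facts hn hO hb hc h hA hA hB hB).2.2.2.1
  have e8 : N (infI (infI A' B') (infI K' L')) = N (infI A' K') * N (infI B' L') := by
    rw [e3.2.2.2.2.2.1]
    have h1 : infI A' K' ∈ PI O b := e3.2.2.2.2.2.2.2.1
    have h2 : infI B' L' ∈ PI O c :=
      (PI_facts hn hO hc hb h.symm hB' hL' hA' hK').2.2.2.2.2.2.2.1
    exact (PI_facts hn hO hb hc h h1 h1 h2 h2).2.2.2.1
  have e9 : (N K).Coprime (N L) := (PI_facts hn hO hb hc h hK hK hL hL).2.2.1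
  unfold f7b_s
  by_cases c1 : A ≤ K ∧ K ≤ K'
  · by_cases c2 : B ≤ L ∧ L ≤ L'
    · rw [if_pos c1, if_pos c2, if_pos ⟨e1.2 ⟨c1.1, c2.1⟩, e2.2 ⟨c1.2, c2.2⟩⟩, e4, e5, e6, e7, e8,
        mu_mul hn hO c1.2 c2.2 e9]
      push_cast
      rw [abs_mul, abs_mul, abs_mul, mul_pow, mul_pow, mul_pow, mul_inv, mul_inv]
      ring
    · rw [if_neg c2, mul_zero, if_neg]
      rintro ⟨h1, h2⟩
      exact c2 ⟨(e1.1 h1).2, (e2.1 h2).2⟩
  · rw [if_neg c1, zero_mul, if_neg]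
    rintro ⟨h1, h2⟩
    exact c1 ⟨(e1.1 h1).1, (e2.1 h2).1⟩

theorem f7b_one (hn : 2 ≤ n) (hO : GLL.Ord O) : FS O 1 = 1 := by
  obtain ⟨T, hT, hN⟩ := GLL.PI_one (O := O) hn hO
  have hm : mob O 1 T = 1 := (IF_mob hn hO 1 one_pos).2.2.2.1 T hN
  have hmem : ((1 : ℕ) : Mt n) ∈ T.1 :=
    (GLL.mem_PI hn hO one_pos _).1 (by rw [hT]; exact Finset.mem_singleton_self T)
  have hAI : AI T = {T} := by
    ext K
    rw [LAL.mem_AI hn hO, Finset.mem_singleton]
    constructor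
    · intro h
      have h1 : K ∈ PI O 1 := (GLL.mem_PI hn hO one_pos _).2 (h hmem)
      rw [hT] at h1
      exact Finset.mem_singleton.1 h1
    · rintro rfl
      exact le_rfl
  have hmu : mu T T = 1 := by
    classical
    have h1 := mi_spec hn hO (fun M : Idl O => if M = T then (1 : ℝ) else 0) T
    rw [hAI, Finset.sum_singleton] at h1
    simp only [if_pos] at h1
    unfold mu
    convert h1
  rw [f7b_FS, hT]
  simp only [Finset.sum_singleton]
  unfold f7b_s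
  rw [if_pos ⟨le_rfl, le_rfl⟩, hm, hmu, GLL.infI_self hn hO, hN]
  norm_num

theorem FS_mul_pr (hn : 2 ≤ n) (hO : GLL.Ord O) {b c : ℕ} (hb : 0 < b) (hc : 0 < c)
    (h : b.Coprime c) : FS O (b * c) = FS O b * FS O c ∧ FS O 1 = 1 := by
  refine ⟨?_, f7b_one hn hO⟩
  rw [f7b_FS, f7b_FS, f7b_FS, f7b_sum hn hO hb hc h]
  calc _ = ∑ A' ∈ PI O b, ∑ B' ∈ PI O c, ∑ K' ∈ PI O b, ∑ L' ∈ PI O c, ∑ K ∈ PI O b,
      ∑ L ∈ PI O c, ∑ A ∈ PI O b, ∑ B ∈ PI O c, f7b_s b A' K' K A * f7b_s c B' L' L B := by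
        refine Finset.sum_congr rfl fun A' hA' => Finset.sum_congr rfl fun B' hB' => ?_
        rw [f7b_sum hn hO hb hc h]
        refine Finset.sum_congr rfl fun K' hK' => Finset.sum_congr rfl fun L' hL' => ?_
        rw [f7b_sum hn hO hb hc h]
        refine Finset.sum_congr rfl fun K hK => Finset.sum_congr rfl fun L hL => ?_
        rw [f7b_sum hn hO hb hc h]
        exact Finset.sum_congr rfl fun A hA => Finset.sum_congr rfl fun B hB =>
          f7b_key hn hO hb hc h hA' hK' hK hA hB' hL' hL hB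
    _ = _ := by
        rw [Finset.sum_mul_sum]
        refine Finset.sum_congr rfl fun A' _ => Finset.sum_congr rfl fun B' _ => ?_
        rw [Finset.sum_mul_sum]
        refine Finset.sum_congr rfl fun K' _ => Finset.sum_congr rfl fun L' _ => ?_
        rw [Finset.sum_mul_sum]
        refine Finset.sum_congr rfl fun K _ => Finset.sum_congr rfl fun L _ => ?_
        rw [Finset.sum_mul_sum]

end

end Pool.Agent.RZH

namespace Pool.Agent.RZH

theorem FS_mul : type_of% @FS_mul_pr := @FS_mul_pr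

end Pool.Agent.RZH
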