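import Pool.Agent.Lib_helper41.RZGF.R_F7a
import Pool.Agent.Lib_helper41.RZGF.R_S6a
import Pool.Agent.Lib_helper42.GLM.Defs
import Pool.Agent.Lib_helper75.DZNF.L1
import Pool.Agent.Lib_helper75.DZNF.L2
import Pool.Agent.Lib_helper75.DZNF.L3
import Pool.Agent.Lib_helper75.DZNF.TL
import Pool.Agent.Lib_helper75.RZG.Defs
import Pool.Agent.Lib_helper96.GLF.M_MGA
import Pool.Agent.Lib_helper96.GLF.O_OI
import Pool.Agent.Lib_helper96.GLF.O_OL2
import Pool.Agent.Lib_helper96.GLL.Defs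
import Pool.Agent.Lib_helper96.GLL.DefsB

/-!
# Project RZG, block F7c: the absolute sum of the far part at a prime
-/

set_option autoImplicit false

namespace Pool.Agent.RZH

open MeasureTheory Matrix Complex Filter Topology Pool.Agent.GLL Pool.Agent.LAL Pool.Agent.DZL
  Module
open scoped ENNReal ContDiff

noncomputable section

variable {n : ℕ} {O : Subring (Mt n)}

/-- the number of the ideals contained in a given one -/
theorem f7c_sub {p : ℕ} [Fact p.Prime] (ρ : O →+* Mq n p) (h : IsRed O p ρ) (I : Idl O)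
    (hI : (p : Mt n) ∈ I.1) (c r : ℕ) (hc : aagc ρ I = c) (hcr : c + r ≤ n) :
    Nat.card {J : Idl O // (p : Mt n) ∈ J.1 ∧ J ≤ I ∧ aagc ρ J = c + r} ≤
      2 ^ n * p ^ (r * (n - (c + r))) := by
  have hp : p.Prime := Fact.out
  set U : Submodule (ZMod p) (Fin n → ZMod p) := aagW ρ I with hU
  have hfU : finrank (ZMod p) U = n - c := by
    have h1 := Submodule.finrank_quotient_add_finrank U
    rw [Module.finrank_fin_fun] at h1
    have h2 : finrank (ZMod p) ((Fin n → ZMod p) ⧸ U) = c := hc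
    omega
  have h0 := card_sub_le (p := p) U (n - (c + r))
  have hW : ∀ J : {J : Idl O // (p : Mt n) ∈ J.1 ∧ J ≤ I ∧ aagc ρ J = c + r},
      aagW ρ J.1 ≤ U := fun J => (aag_le ρ h J.1 I J.2.1 hI).1 J.2.2.1
  have hfin : Finite {W : Submodule (ZMod p) U // finrank (ZMod p) W = n - (c + r)} := by
    have : Finite (Submodule (ZMod p) U) := Finite.of_injective
      (fun W => (W : Set U)) SetLike.coe_injective
    infer_instance
  have hfr : ∀ J : {J : Idl O // (p : Mt n) ∈ J.1 ∧ J ≤ I ∧ aagc ρ J = c + r},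
      finrank (ZMod p) ((aagW ρ J.1).comap U.subtype) = n - (c + r) := by
    intro J
    have h1 := (Submodule.comapSubtypeEquivOfLe (hW J)).finrank_eq
    rw [h1]
    have h2 := Submodule.finrank_quotient_add_finrank (aagW ρ J.1)
    rw [Module.finrank_fin_fun] at h2
    have h3 : finrank (ZMod p) ((Fin n → ZMod p) ⧸ aagW ρ J.1) = c + r := J.2.2.2
    omega
  have h1 : Nat.card {J : Idl O // (p : Mt n) ∈ J.1 ∧ J ≤ I ∧ aagc ρ J = c + r} ≤
      Nat.card {W : Submodule (ZMod p) U // finrank (ZMod p) W = n - (c + r)} := by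
    apply Nat.card_le_card_of_injective (fun J :
      {J : Idl O // (p : Mt n) ∈ J.1 ∧ J ≤ I ∧ aagc ρ J = c + r} =>
      (⟨(aagW ρ J.1).comap U.subtype, hfr J⟩ :
        {W : Submodule (ZMod p) U // finrank (ZMod p) W = n - (c + r)}))
    intro J K hJK
    have h2 : (aagW ρ J.1).comap U.subtype = (aagW ρ K.1).comap U.subtype :=
      congrArg Subtype.val hJK
    have h3 : aagW ρ J.1 = aagW ρ K.1 := by
      have h4 := congrArg (Submodule.map U.subtype) h2
      rw [Submodule.map_comap_subtype, Submodule.map_comap_subtype, inf_eq_right.2 (hW J),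
        inf_eq_right.2 (hW K)] at h4
      exact h4
    exact Subtype.ext (aag_inj ρ h _ _ J.2.1 K.2.1 h3)
  refine h1.trans ?_
  rw [hfU] at h0
  set m := n - (c + r) with hm
  have h2 : n - c = m + r := by omega
  rw [h2] at h0
  have h3 : p ^ (m * (m + r)) = p ^ (r * m) * p ^ (m * m) := by
    rw [← pow_add]
    congr 1
    ring
  rw [h3, ← mul_assoc] at h0
  have h4 := Nat.le_of_mul_le_mul_right h0 (pow_pos hp.pos _)
  refine h4.trans ?_
  apply Nat.mul_le_mul_right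
  apply Nat.pow_le_pow_right (by norm_num)
  omega

/-- twice the binomial coefficient -/
theorem f7c_ch (a : ℕ) : (2 * a.choose 2 : ℤ) = a * a - a := by
  have := Nat.choose_two_right a
  have h5 := Nat.mul_div_cancel' (Nat.even_mul_pred_self a).two_dvd
  rw [← this] at h5
  rcases Nat.eq_zero_or_pos a with rfl | h6
  · simp
  · have h7 : ((a - 1 : ℕ) : ℤ) = a - 1 := by omega
    have h8 : ((2 * a.choose 2 : ℕ) : ℤ) = ((a * (a - 1) : ℕ) : ℤ) := by rw [h5]
    push_cast at h8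
    rw [h7] at h8
    linarith

/-- the exponents -/
theorem f7c_exp (n a m c t l : ℕ) (hc : c ≤ n) (ha : a ≤ c) (hm : m ≤ c) (hcm : c ≤ a + m)
    (hk : m + t + l ≤ n) (h : 1 ≤ a + m + t + l) :
    ((n - c) * c + (c - a) * a + (c - m) * m) + t * (n - (m + t)) + l * (n - (m + t + l)) +
      a.choose 2 + (m + t + l).choose 2 + t.choose 2 + n * m + 1 ≤ n * c + n * (m + t + l) := by
  obtain ⟨z, hz⟩ := Nat.exists_eq_add_of_le hc
  obtain ⟨x, hx⟩ := Nat.exists_eq_add_of_le ha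
  obtain ⟨y, hy⟩ := Nat.exists_eq_add_of_le hm
  obtain ⟨w, hw⟩ := Nat.exists_eq_add_of_le hk
  obtain ⟨e, he⟩ := Nat.exists_eq_add_of_le hcm
  have h1 : c - a = x := by omega
  have h2 : c - m = y := by omega
  have h3 : n - c = z := by omega
  have h4 : n - (m + t + l) = w := by omega
  have h5 : n - (m + t) = l + w := by omega
  have h6 := f7c_ch a
  have h7 := f7c_ch (m + t + l)
  have h8 := f7c_ch t
  -- `x = m - e`, `y = a - e`
  have hxe : m = x + e := by omega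
  have hye : a = y + e := by omega
  rw [h1, h2, h3, h4, h5]
  have hkey : (2 : ℤ) ≤ y * y + x * x + a + m + 2 * t + l * l + l := by
    rcases Nat.eq_zero_or_pos t with ht | ht
    · rcases Nat.eq_zero_or_pos l with hl | hl
      · subst ht hl
        rcases Nat.lt_or_ge (a + m) 2 with h9 | h9
        · have h10 : e = 0 := by omega
          subst h10
          have h11 : y + x = 1 := by omega
          have h12 : (y : ℤ) + x = 1 := by exact_mod_cast h11
          have h13 : (a : ℤ) + m = 1 := by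
            have : a + m = 1 := by omega
            exact_mod_cast this
          have h14 : (1 : ℤ) ≤ y * y + x * x := by
            have h15 : 1 ≤ y * y + x * x := by
              rcases Nat.eq_zero_or_pos y with h16 | h16
              · have : x = 1 := by omega
                rw [this]
                omega
              · nlinarith
            exact_mod_cast h15
          push_cast
          linarith
        · have h9' : (2 : ℤ) ≤ a + m := by exact_mod_cast h9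
          push_cast
          nlinarith [mul_self_nonneg (x : ℤ), mul_self_nonneg (y : ℤ)]
      · have hl' : (1 : ℤ) ≤ l := by exact_mod_cast hl
        have := mul_self_nonneg (x : ℤ)
        have := mul_self_nonneg (y : ℤ)
        have : (0 : ℤ) ≤ a := Int.natCast_nonneg a
        have : (0 : ℤ) ≤ m := Int.natCast_nonneg m
        have : (0 : ℤ) ≤ t := Int.natCast_nonneg t
        nlinarith
    · have ht' : (1 : ℤ) ≤ t := by exact_mod_cast ht
      have := mul_self_nonneg (x : ℤ)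
      have := mul_self_nonneg (y : ℤ)
      have : (0 : ℤ) ≤ a := Int.natCast_nonneg a
      have : (0 : ℤ) ≤ m := Int.natCast_nonneg m
      have : (0 : ℤ) ≤ l := Int.natCast_nonneg l
      nlinarith
  have hn : (n : ℤ) = m + t + l + w := by exact_mod_cast hw
  have hn' : (n : ℤ) = c + z := by exact_mod_cast hz
  have hc' : (c : ℤ) = x + y + e := by
    have : c = x + y + e := by omega
    exact_mod_cast this
  have ha' : (a : ℤ) = y + e := by exact_mod_cast hye
  have hm' : (m : ℤ) = x + e := by exact_mod_cast hxe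
  zify
  push_cast at h7
  have hz' : (z : ℤ) = n - c := by linarith
  have hw' : (w : ℤ) = n - (m + t + l) := by linarith
  have h9 : (2 : ℤ) * ((z * c + x * a + y * m) + t * (l + w) + l * w + (a.choose 2 : ℕ) +
      ((m + t + l).choose 2 : ℕ) + (t.choose 2 : ℕ) + n * m + 1) ≤
        2 * (n * c + n * (m + t + l)) := by
    have e1 : (2 : ℤ) * ((z * c + x * a + y * m) + t * (l + w) + l * w + (a.choose 2 : ℕ) +
      ((m + t + l).choose 2 : ℕ) + (t.choose 2 : ℕ) + n * m + 1) =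
      2 * (z * c + x * a + y * m) + 2 * t * (l + w) + 2 * l * w + (a * a - a) +
        ((m + t + l) * (m + t + l) - (m + t + l)) + (t * t - t) + 2 * n * m + 2 := by
      rw [← h6, ← h7, ← h8]
      ring
    rw [e1, hz', hw', hc']
    rw [ha', hm'] at hkey ⊢
    nlinarith
  linarith

open scoped Classical in
/-- the number of the quadruples `(A', K', K, A)` of a class -/
theorem f7c_count (hn : 2 ≤ n) (hO : GLL.Ord O) {p : ℕ} [Fact p.Prime] (ρ : O →+* Mq n p)
    (h : IsRed O p ρ) (a m c t l : ℕ) (ha : a ≤ c) (hm : m ≤ c) (hc : c ≤ n)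
    (hk : m + t + l ≤ n) (S : Finset (Idl O × Idl O × Idl O × Idl O))
    (hS : ∀ x ∈ S, (p : Mt n) ∈ x.1.1 ∧ (p : Mt n) ∈ x.2.1.1 ∧ (p : Mt n) ∈ x.2.2.1.1 ∧
      (p : Mt n) ∈ x.2.2.2.1 ∧ x.2.2.2 ≤ x.2.2.1 ∧ x.2.2.1 ≤ x.2.1 ∧ aagc ρ x.1 = a ∧
      aagc ρ x.2.1 = m ∧ aagc ρ (infI x.1 x.2.1) = c ∧ aagc ρ x.2.2.1 = m + t ∧
      aagc ρ x.2.2.2 = m + t + l) :
    S.card ≤ 2 ^ (5 * n) * p ^ (((n - c) * c + (c - a) * a + (c - m) * m) +
      t * (n - (m + t)) + l * (n - (m + t + l))) := by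
  have hp : p.Prime := Fact.out
  set F : Idl O × Idl O × Idl O × Idl O → Idl O × Idl O × Idl O :=
    fun x => (x.1, x.2.1, x.2.2.1) with hF
  set G : Idl O × Idl O × Idl O → Idl O × Idl O := fun x => (x.1, x.2.1) with hG
  have h1 : S.card ≤ (2 ^ n * p ^ (l * (n - (m + t + l)))) * (S.image F).card := by
    apply Finset.card_le_mul_card_image
    intro y hy
    rw [Finset.mem_image] at hy
    obtain ⟨x0, hx0, rfl⟩ := hy
    obtain ⟨q1, q2, q3, q4, q5, q6, q7, q8, q9, q10, q11⟩ := hS x0 hx0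
    have hle : (S.filter fun x => F x = F x0).card ≤
        ((S.filter fun x => F x = F x0).image fun x => x.2.2.2).card := by
      rw [Finset.card_image_of_injOn]
      intro x hx y hy hxy
      have hx1 := (Finset.mem_filter.1 (Finset.mem_coe.1 hx)).2
      have hy1 := (Finset.mem_filter.1 (Finset.mem_coe.1 hy)).2
      have h2 : F x = F y := by rw [hx1, hy1]
      simp only [hF, Prod.mk.injEq] at h2
      obtain ⟨x1, x2, x3, x4⟩ := x
      obtain ⟨y1, y2, y3, y4⟩ := y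
      simp only at h2 hxy
      obtain ⟨rfl, rfl, rfl⟩ := h2
      rw [hxy]
    refine hle.trans ?_
    refine le_trans ?_ (f7c_sub ρ h x0.2.2.1 q3 (m + t) l q10 hk)
    have := DZN.tl_fin hn hO hp (fun J : Idl O => (p : Mt n) ∈ J.1 ∧ J ≤ x0.2.2.1 ∧
      aagc ρ J = m + t + l) fun J hJ => hJ.1
    refine fin_card_le _ (fun J : Idl O => (p : Mt n) ∈ J.1 ∧ J ≤ x0.2.2.1 ∧
      aagc ρ J = m + t + l) fun J hJ => ?_
    rw [Finset.mem_image] at hJ
    obtain ⟨x, hx, rfl⟩ := hJ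
    rw [Finset.mem_filter] at hx
    obtain ⟨w1, w2, w3, w4, w5, w6, w7, w8, w9, w10, w11⟩ := hS x hx.1
    have h2 := hx.2
    simp only [hF, Prod.mk.injEq] at h2
    refine ⟨w4, ?_, w11⟩
    rw [← h2.2.2]
    exact w5
  have h2 : (S.image F).card ≤ (2 ^ n * p ^ (t * (n - (m + t)))) *
      ((S.image F).image G).card := by
    apply Finset.card_le_mul_card_image
    intro y hy
    rw [Finset.mem_image] at hy
    obtain ⟨y0, hy0, rfl⟩ := hy
    rw [Finset.mem_image] at hy0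
    obtain ⟨x0, hx0, rfl⟩ := hy0
    obtain ⟨q1, q2, q3, q4, q5, q6, q7, q8, q9, q10, q11⟩ := hS x0 hx0
    have hle : ((S.image F).filter fun x => G x = G (F x0)).card ≤
        (((S.image F).filter fun x => G x = G (F x0)).image fun x => x.2.2).card := by
      rw [Finset.card_image_of_injOn]
      intro x hx y hy hxy
      have hx1 := (Finset.mem_filter.1 (Finset.mem_coe.1 hx)).2
      have hy1 := (Finset.mem_filter.1 (Finset.mem_coe.1 hy)).2
      have h2 : G x = G y := by rw [hx1, hy1]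
      simp only [hG, Prod.mk.injEq] at h2
      obtain ⟨x1, x2, x3⟩ := x
      obtain ⟨y1, y2, y3⟩ := y
      simp only at h2 hxy
      obtain ⟨rfl, rfl⟩ := h2
      rw [hxy]
    refine hle.trans ?_
    refine le_trans ?_ (f7c_sub ρ h x0.2.1 q2 m t q8 (by omega))
    have := DZN.tl_fin hn hO hp (fun J : Idl O => (p : Mt n) ∈ J.1 ∧ J ≤ x0.2.1 ∧
      aagc ρ J = m + t) fun J hJ => hJ.1
    refine fin_card_le _ (fun J : Idl O => (p : Mt n) ∈ J.1 ∧ J ≤ x0.2.1 ∧
      aagc ρ J = m + t) fun J hJ => ?_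
    rw [Finset.mem_image] at hJ
    obtain ⟨y, hy, rfl⟩ := hJ
    rw [Finset.mem_filter, Finset.mem_image] at hy
    obtain ⟨⟨x, hx, rfl⟩, h2⟩ := hy
    obtain ⟨w1, w2, w3, w4, w5, w6, w7, w8, w9, w10, w11⟩ := hS x hx
    simp only [hG, hF, Prod.mk.injEq] at h2
    refine ⟨w3, ?_, w10⟩
    rw [← h2.2]
    exact w6
  have h3 := DZN.tl_count hn hO ρ h a m c ha hm hc ((S.image F).image G) (by
    intro y hy
    rw [Finset.mem_image] at hy
    obtain ⟨y0, hy0, rfl⟩ := hy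
    rw [Finset.mem_image] at hy0
    obtain ⟨x, hx, rfl⟩ := hy0
    obtain ⟨w1, w2, w3, w4, w5, w6, w7, w8, w9, w10, w11⟩ := hS x hx
    exact ⟨w1, w2, w7, w8, w9⟩)
  refine (h1.trans (Nat.mul_le_mul_left _ (h2.trans (Nat.mul_le_mul_left _ h3)))).trans ?_
  apply le_of_eq
  generalize (n - c) * c + (c - a) * a + (c - m) * m = X
  rw [show 5 * n = n + (n + 3 * n) by ring, pow_add, pow_add,
    show X + t * (n - (m + t)) + l * (n - (m + t + l)) =
      l * (n - (m + t + l)) + (t * (n - (m + t)) + X) by ring, pow_add p, pow_add p]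
  ring

/-- the term of the absolute sum -/
def f7c_t (O : Subring (Mt n)) (b : ℕ) (x : Idl O × Idl O × Idl O × Idl O) : ℝ :=
  |(mob O b x.1 : ℝ)| * |(mob O b x.2.2.2 : ℝ)| * |mu x.2.1 x.2.2.1| *
    ((N (infI x.1 x.2.1) : ℝ) ^ n)⁻¹ * (N x.2.1 : ℝ) ^ n * ((N x.2.2.2 : ℝ) ^ n)⁻¹

open scoped Classical in
/-- the sum over a class -/
theorem f7c_class (hn : 2 ≤ n) (hO : GLL.Ord O) {p : ℕ} [Fact p.Prime] (ρ : O →+* Mq n p)
    (h : IsRed O p ρ) (a m c t l : ℕ) (ha : a ≤ c) (hm : m ≤ c) (hc : c ≤ n) (hcm : c ≤ a + m)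
    (hk : m + t + l ≤ n) (he : 1 ≤ a + m + t + l) (S : Finset (Idl O × Idl O × Idl O × Idl O))
    (hS : ∀ x ∈ S, (p : Mt n) ∈ x.1.1 ∧ (p : Mt n) ∈ x.2.1.1 ∧ (p : Mt n) ∈ x.2.2.1.1 ∧
      (p : Mt n) ∈ x.2.2.2.1 ∧ x.2.2.2 ≤ x.2.2.1 ∧ x.2.2.1 ≤ x.2.1 ∧ aagc ρ x.1 = a ∧
      aagc ρ x.2.1 = m ∧ aagc ρ (infI x.1 x.2.1) = c ∧ aagc ρ x.2.2.1 = m + t ∧
      aagc ρ x.2.2.2 = m + t + l) :
    ∑ x ∈ S, f7c_t O p x ≤ 2 ^ (11 * n) / (p : ℝ) := by
  have hp : p.Prime := Fact.out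
  have hp0 : (0 : ℝ) < p := by exact_mod_cast hp.pos
  have hN : ∀ I : Idl O, (p : Mt n) ∈ I.1 → N I = p ^ aagc ρ I := fun I hI =>
    aag_norm hn hO ρ h I hI
  have h1 : ∀ x ∈ S, f7c_t O p x ≤
      ((4 ^ a * p ^ a.choose 2 * (4 ^ (m + t + l) * p ^ (m + t + l).choose 2) *
        (4 ^ t * p ^ t.choose 2) : ℕ) : ℝ) * ((p : ℝ) ^ (n * c))⁻¹ * (p : ℝ) ^ (n * m) *
          ((p : ℝ) ^ (n * (m + t + l)))⁻¹ := by
    intro x hx
    obtain ⟨w1, w2, w3, w4, w5, w6, w7, w8, w9, w10, w11⟩ := hS x hx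
    have h7 : (p : Mt n) ∈ (infI x.1 x.2.1).1 := by
      rw [(IF_inf hn hO x.1 x.2.1).1]
      exact ⟨w1, w2⟩
    have h8 := hN _ h7
    have h9 := mob_p_le hn hO ρ h a x.1 w1 w7
    have h10 := mob_p_le hn hO ρ h (m + t + l) x.2.2.2 w4 w11
    have h11 : |(mob O p x.1 : ℝ)| ≤ ((4 ^ a * p ^ a.choose 2 : ℕ) : ℝ) := by
      rw [← Int.cast_abs, Int.abs_eq_natAbs]
      exact_mod_cast h9
    have h12 : |(mob O p x.2.2.2 : ℝ)| ≤
        ((4 ^ (m + t + l) * p ^ (m + t + l).choose 2 : ℕ) : ℝ) := by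
      rw [← Int.cast_abs, Int.abs_eq_natAbs]
      exact_mod_cast h10
    have h13 : |mu x.2.1 x.2.2.1| ≤ ((4 ^ t * p ^ t.choose 2 : ℕ) : ℝ) := by
      obtain ⟨J, hJ1, hJ2, hJ3, hJ4⟩ := mu_mob hn hO hp.pos w6 w3
      rw [hJ4]
      have h14 : aagc ρ J = t := by
        rw [hN _ w3, hN _ w2, hN _ hJ1, w8, w10, ← pow_add] at hJ3
        have h15 := Nat.pow_right_injective hp.two_le hJ3
        omega
      have h15 := mob_p_le hn hO ρ h t J hJ1 h14
      rw [← Int.cast_abs, Int.abs_eq_natAbs]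
      exact_mod_cast h15
    rw [f7c_t, h8, w9, hN _ w2, w8, hN _ w4, w11]
    have e1 : ∀ k : ℕ, (((p ^ k : ℕ) : ℝ)) ^ n = (p : ℝ) ^ (n * k) := by
      intro k
      push_cast
      rw [← pow_mul, mul_comm]
    rw [e1, e1, e1]
    have h16 : |(mob O p x.1 : ℝ)| * |(mob O p x.2.2.2 : ℝ)| * |mu x.2.1 x.2.2.1| ≤
        ((4 ^ a * p ^ a.choose 2 * (4 ^ (m + t + l) * p ^ (m + t + l).choose 2) *
        (4 ^ t * p ^ t.choose 2) : ℕ) : ℝ) := by
      rw [Nat.cast_mul (4 ^ a * p ^ a.choose 2 * (4 ^ (m + t + l) * p ^ (m + t + l).choose 2)),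
        Nat.cast_mul (4 ^ a * p ^ a.choose 2)]
      exact mul_le_mul (mul_le_mul h11 h12 (abs_nonneg _) (Nat.cast_nonneg _)) h13
        (abs_nonneg _) (by positivity)
    gcongr
  refine (Finset.sum_le_card_nsmul _ _ _ h1).trans ?_
  rw [nsmul_eq_mul]
  have h2 := f7c_count hn hO ρ h a m c t l ha hm hc hk S hS
  have h3 := f7c_exp n a m c t l hc ha hm hcm hk he
  set E := ((n - c) * c + (c - a) * a + (c - m) * m) + t * (n - (m + t)) +
    l * (n - (m + t + l)) with hE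
  have h4 : S.card * (4 ^ a * p ^ a.choose 2 * (4 ^ (m + t + l) * p ^ (m + t + l).choose 2) *
        (4 ^ t * p ^ t.choose 2)) * p ^ (n * m) * p ≤
      2 ^ (11 * n) * (p ^ (n * c) * p ^ (n * (m + t + l))) := by
    calc S.card * (4 ^ a * p ^ a.choose 2 * (4 ^ (m + t + l) * p ^ (m + t + l).choose 2) *
        (4 ^ t * p ^ t.choose 2)) * p ^ (n * m) * p
        ≤ (2 ^ (5 * n) * p ^ E) * (4 ^ a * p ^ a.choose 2 *
          (4 ^ (m + t + l) * p ^ (m + t + l).choose 2) * (4 ^ t * p ^ t.choose 2)) *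
            p ^ (n * m) * p := by gcongr
      _ = (2 ^ (5 * n) * 4 ^ a * 4 ^ (m + t + l) * 4 ^ t) *
            p ^ (E + a.choose 2 + (m + t + l).choose 2 + t.choose 2 + n * m + 1) := by
          rw [pow_succ, pow_add p _ (n * m), pow_add p _ (t.choose 2),
            pow_add p _ ((m + t + l).choose 2), pow_add p _ (a.choose 2)]
          ring
      _ ≤ 2 ^ (11 * n) * p ^ (n * c + n * (m + t + l)) := by
          apply Nat.mul_le_mul
          · have e : (4 : ℕ) = 2 ^ 2 := by norm_num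
            rw [e, ← pow_mul, ← pow_mul, ← pow_mul, ← pow_add, ← pow_add, ← pow_add]
            apply Nat.pow_le_pow_right (by norm_num)
            omega
          · exact Nat.pow_le_pow_right hp.pos h3
      _ = _ := by rw [pow_add]
  have h5 : ((S.card : ℝ) * ((4 ^ a * p ^ a.choose 2 *
      (4 ^ (m + t + l) * p ^ (m + t + l).choose 2) * (4 ^ t * p ^ t.choose 2) : ℕ) : ℝ)) *
        (p : ℝ) ^ (n * m) * p ≤ 2 ^ (11 * n) * ((p : ℝ) ^ (n * c) * (p : ℝ) ^ (n * (m + t + l))) := by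
    exact_mod_cast h4
  rw [le_div_iff₀ hp0]
  have h6 : (0 : ℝ) < (p : ℝ) ^ (n * c) * (p : ℝ) ^ (n * (m + t + l)) := by positivity
  rw [← div_le_iff₀ h6] at h5
  refine le_trans (le_of_eq ?_) h5
  field_simp

open scoped Classical in
/-- the absolute sum as a sum over quadruples -/
theorem f7c_FS (O : Subring (Mt n)) (b : ℕ) : FS O b =
    ∑ x ∈ (PI O b ×ˢ (PI O b ×ˢ (PI O b ×ˢ PI O b))).filter
      (fun x => x.2.2.2 ≤ x.2.2.1 ∧ x.2.2.1 ≤ x.2.1), f7c_t O b x := by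
  rw [Finset.sum_filter, Finset.sum_product]
  unfold FS
  refine Finset.sum_congr rfl fun A' _ => ?_
  rw [Finset.sum_product]
  refine Finset.sum_congr rfl fun K' _ => ?_
  rw [Finset.sum_product]
  refine Finset.sum_congr rfl fun K _ => Finset.sum_congr rfl fun A _ => ?_
  by_cases h : A ≤ K ∧ K ≤ K'
  · rw [if_pos h, if_pos h]
    rfl
  · rw [if_neg h, if_neg h]

open scoped Classical in
/-- all the quadruples but one -/
theorem f7c_rest (hn : 2 ≤ n) (hO : GLL.Ord O) {p : ℕ} [Fact p.Prime] (ρ : O →+* Mq n p)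
    (h : IsRed O p ρ) (S : Finset (Idl O × Idl O × Idl O × Idl O))
    (hS : ∀ x ∈ S, (p : Mt n) ∈ x.1.1 ∧ (p : Mt n) ∈ x.2.1.1 ∧ (p : Mt n) ∈ x.2.2.1.1 ∧
      (p : Mt n) ∈ x.2.2.2.1 ∧ x.2.2.2 ≤ x.2.2.1 ∧ x.2.2.1 ≤ x.2.1 ∧
      1 ≤ aagc ρ x.1 + aagc ρ x.2.2.2) :
    ∑ x ∈ S, f7c_t O p x ≤ ((n + 1) ^ 5 * 2 ^ (11 * n)) / (p : ℝ) := by
  have hp : p.Prime := Fact.out
  set R := Finset.range (n + 1) with hR
  set F : Idl O × Idl O × Idl O × Idl O → ℕ × ℕ × ℕ × ℕ × ℕ := fun x =>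
    (aagc ρ x.1, aagc ρ x.2.1, aagc ρ (infI x.1 x.2.1), aagc ρ x.2.2.1, aagc ρ x.2.2.2) with hF
  have h1 : ∀ x ∈ S, F x ∈ R ×ˢ (R ×ˢ (R ×ˢ (R ×ˢ R))) := by
    intro x _
    simp only [hF, Finset.mem_product, hR, Finset.mem_range]
    have e1 := aagc_le ρ x.1
    have e2 := aagc_le ρ x.2.1
    have e3 := aagc_le ρ (infI x.1 x.2.1)
    have e4 := aagc_le ρ x.2.2.1
    have e5 := aagc_le ρ x.2.2.2
    refine ⟨?_, ?_, ?_, ?_, ?_⟩ <;> omega
  rw [← Finset.sum_fiberwise_of_maps_to h1]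
  have hle : ∀ I J : Idl O, (p : Mt n) ∈ I.1 → I ≤ J → aagc ρ J ≤ aagc ρ I := by
    intro I J hI hIJ
    by_cases e : J = I
    · rw [e]
    · exact (aag_lt hn hO ρ h I J hI hIJ e).le
  have hN : ∀ I : Idl O, (p : Mt n) ∈ I.1 → N I = p ^ aagc ρ I := fun I hI =>
    aag_norm hn hO ρ h I hI
  have h2 : ∀ t ∈ R ×ˢ (R ×ˢ (R ×ˢ (R ×ˢ R))), ∑ x ∈ S with F x = t, f7c_t O p x ≤
      2 ^ (11 * n) / (p : ℝ) := by
    rintro ⟨a, m, c, κ, k⟩ _
    rcases Finset.eq_empty_or_nonempty (S.filter fun x => F x = (a, m, c, κ, k)) with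
      h3 | ⟨x0, hx0⟩
    · rw [h3, Finset.sum_empty]
      positivity
    · rw [Finset.mem_filter] at hx0
      obtain ⟨hx, hx'⟩ := hx0
      simp only [hF, Prod.mk.injEq] at hx'
      obtain ⟨f1, f2, f3, f4, f5⟩ := hx'
      obtain ⟨w1, w2, w3, w4, w5, w6, w7⟩ := hS x0 hx
      have e4 : (p : Mt n) ∈ (infI x0.1 x0.2.1).1 := by
        rw [(IF_inf hn hO x0.1 x0.2.1).1]
        exact ⟨w1, w2⟩
      have e5 := (infI_le hn hO _ x0.1 x0.2.1).1 (le_refl (infI x0.1 x0.2.1))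
      have e6 : (p : Mt n) ∈ (supI x0.1 x0.2.1).1 := by
        rw [(IF_inf hn hO x0.1 x0.2.1).2.1]
        exact AddSubgroup.mem_sup_left w1
      have e7 := (IF_inf hn hO x0.1 x0.2.1).2.2
      rw [hN _ e4, hN _ e6, hN _ w1, hN _ w2, ← pow_add, ← pow_add] at e7
      have e8 := Nat.pow_right_injective hp.two_le e7
      have e9 := hle _ _ e4 e5.1
      have e10 := hle _ _ e4 e5.2
      have e11 := hle _ _ w4 w5
      have e12 := hle _ _ w3 w6
      have e13 := aagc_le ρ (infI x0.1 x0.2.1)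
      have e14 := aagc_le ρ x0.2.2.2
      rw [f1, f5] at w7
      rw [f1, f2, f3] at e8
      rw [f1, f3] at e9
      rw [f2, f3] at e10
      rw [f4, f5] at e11
      rw [f2, f4] at e12
      rw [f3] at e13
      rw [f5] at e14
      obtain ⟨t, ht⟩ := Nat.exists_eq_add_of_le e12
      obtain ⟨l, hl⟩ := Nat.exists_eq_add_of_le e11
      apply f7c_class hn hO ρ h a m c t l e9 e10 e13 (by omega) (by omega) (by omega)
      intro x hx
      rw [Finset.mem_filter] at hx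
      obtain ⟨hx1, hx2⟩ := hx
      simp only [hF, Prod.mk.injEq] at hx2
      obtain ⟨g1, g2, g3, g4, g5⟩ := hx2
      obtain ⟨v1, v2, v3, v4, v5, v6, -⟩ := hS x hx1
      exact ⟨v1, v2, v3, v4, v5, v6, g1, g2, g3, by omega, by omega⟩
  refine (Finset.sum_le_sum h2).trans ?_
  rw [Finset.sum_const, Finset.card_product, Finset.card_product, Finset.card_product,
    Finset.card_product, hR, Finset.card_range, nsmul_eq_mul]
  apply le_of_eq
  push_cast
  ring

theorem FS_loc_pr (hn : 2 ≤ n) (hO : GLL.Ord O) : ∃ C : ℝ, 1 ≤ C ∧ ∀ p : ℕ, p.Prime →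
    FS O p ≤ 1 + C / p := by
  classical
  obtain ⟨B1, hB1⟩ := hO.red
  refine ⟨(n + 1) ^ 5 * 2 ^ (11 * n) + ∑ q ∈ Finset.range (B1 + 1), (q : ℝ) * |FS O q|, ?_, ?_⟩
  · have h1 : (1 : ℝ) ≤ (n + 1) ^ 5 * 2 ^ (11 * n) := by
      apply one_le_mul_of_one_le_of_one_le
      · exact one_le_pow₀ (by linarith [(Nat.cast_nonneg n : (0 : ℝ) ≤ n)])
      · exact one_le_pow₀ (by norm_num)
    have h2 : (0 : ℝ) ≤ ∑ q ∈ Finset.range (B1 + 1), (q : ℝ) * |FS O q| :=
      Finset.sum_nonneg fun q _ => by positivity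
    linarith
  intro p hp
  have hp0 : (0 : ℝ) < p := by exact_mod_cast hp.pos
  rcases Nat.lt_or_ge B1 p with hBp | hBp
  · have : Fact p.Prime := ⟨hp⟩
    obtain ⟨ρ, hρ⟩ := hB1 p hp hBp
    obtain ⟨T, hT1, hT2, hT3, hT4, hT5⟩ := DZN.tl_top hn hO
    have hmP : ∀ I, I ∈ PI O p ↔ (p : Mt n) ∈ I.1 := fun I => mem_PI hn hO hp.pos I
    have hN : ∀ I : Idl O, (p : Mt n) ∈ I.1 → N I = p ^ aagc ρ I := fun I hI =>
      aag_norm hn hO ρ hρ I hI
    have hc0 : ∀ I, (p : Mt n) ∈ I.1 → aagc ρ I = 0 → I = T := fun I hI h0 =>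
      hT2 I (by rw [hN I hI, h0, pow_zero])
    have hTP : T ∈ PI O p := (hmP T).2 (hT5 p)
    rw [f7c_FS]
    set Q := (PI O p ×ˢ (PI O p ×ˢ (PI O p ×ˢ PI O p))).filter
      (fun x => x.2.2.2 ≤ x.2.2.1 ∧ x.2.2.1 ≤ x.2.1) with hQ
    have hx0 : (T, T, T, T) ∈ Q := by
      rw [hQ, Finset.mem_filter]
      exact ⟨Finset.mem_product.2 ⟨hTP, Finset.mem_product.2 ⟨hTP,
        Finset.mem_product.2 ⟨hTP, hTP⟩⟩⟩, le_rfl, le_rfl⟩
    rw [← Finset.add_sum_erase Q _ hx0]
    have h1 : f7c_t O p (T, T, T, T) = 1 := by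
      have h2 : mob O p T = 1 := (IF_mob hn hO p hp.pos).2.2.2.1 T hT1
      have h3 : mu T T = 1 := by
        obtain ⟨J, hJ1, -, hJ3, hJ4⟩ := mu_mob hn hO hp.pos (le_refl T) (hT5 p)
        rw [hT1, one_mul] at hJ3
        rw [hJ4, (IF_mob hn hO p hp.pos).2.2.2.1 J hJ3.symm]
        norm_num
      rw [f7c_t]
      simp only
      rw [h2, h3, (hT4 T).1, hT1]
      norm_num
    rw [h1]
    have h2 := f7c_rest hn hO ρ hρ (Q.erase (T, T, T, T)) (by
      rintro ⟨A', K', K, A⟩ hx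
      rw [Finset.mem_erase, hQ, Finset.mem_filter, Finset.mem_product, Finset.mem_product,
        Finset.mem_product, hmP, hmP, hmP, hmP] at hx
      obtain ⟨hne, ⟨g1, g2, g3, g4⟩, g5, g6⟩ := hx
      simp only at g1 g2 g3 g4 g5 g6
      refine ⟨g1, g2, g3, g4, g5, g6, ?_⟩
      by_contra hlt
      simp only at hlt
      apply hne
      have e1 : A' = T := hc0 A' g1 (by omega)
      have e2 : A = T := hc0 A g4 (by omega)
      have e3 : K = T := le_antisymm (hT3 K) (by rw [← e2]; exact g5)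
      have e4 : K' = T := le_antisymm (hT3 K') (by rw [← e3]; exact g6)
      rw [e1, e2, e3, e4])
    have h3 : ((n + 1) ^ 5 * 2 ^ (11 * n)) / (p : ℝ) ≤ ((n + 1) ^ 5 * 2 ^ (11 * n) +
        ∑ q ∈ Finset.range (B1 + 1), (q : ℝ) * |FS O q|) / p := by
      have h4 : (0 : ℝ) ≤ ∑ q ∈ Finset.range (B1 + 1), (q : ℝ) * |FS O q| :=
        Finset.sum_nonneg fun q _ => by positivity
      gcongr
      linarith
    linarith
  · have h1 : (p : ℝ) * |FS O p| ≤ ∑ q ∈ Finset.range (B1 + 1), (q : ℝ) * |FS O q| :=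
      Finset.single_le_sum (f := fun q : ℕ => (q : ℝ) * |FS O q|) (fun q _ => by positivity)
        (Finset.mem_range.2 (by omega))
    have h2 : FS O p ≤ ((n + 1) ^ 5 * 2 ^ (11 * n) +
        ∑ q ∈ Finset.range (B1 + 1), (q : ℝ) * |FS O q|) / p := by
      rw [le_div_iff₀ hp0]
      have h3 : FS O p * p ≤ p * |FS O p| := by
        rw [mul_comm]
        exact mul_le_mul_of_nonneg_left (le_abs_self _) hp0.le
      have h4 : (0 : ℝ) ≤ (n + 1) ^ 5 * 2 ^ (11 * n) := by positivity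
      linarith
    linarith

end

end Pool.Agent.RZH

namespace Pool.Agent.RZH

theorem FS_loc : type_of% @FS_loc_pr := @FS_loc_pr

end Pool.Agent.RZH
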