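import Pool.Agent.Lib_helper32.LAL.SDefs
import Pool.Agent.Lib_helper41.RZGF.R_F6
import Pool.Agent.Lib_helper41.RZGF.R_F7b
import Pool.Agent.Lib_helper41.RZGF.R_F7c
import Pool.Agent.Lib_helper42.GLM.Defs
import Pool.Agent.Lib_helper75.DZN.Defs
import Pool.Agent.Lib_helper75.DZNF.PS
import Pool.Agent.Lib_helper75.DZNF.TE
import Pool.Agent.Lib_helper75.RZG.Defs
import Pool.Agent.Lib_helper96.GLL.Defs
import Pool.Agent.Lib_helper96.GLL.DefsB

/-!
# Project RZG, block F8: the bound for `FS`, the far part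
-/

set_option autoImplicit false

namespace Pool.Agent.RZH

open MeasureTheory Matrix Complex Filter Topology Pool.Agent.GLL Pool.Agent.LAL
open scoped ENNReal ContDiff

noncomputable section

variable {n : ℕ} {O : Subring (Mt n)}

theorem f8_nonneg (b : ℕ) : 0 ≤ FS O b := by
  classical
  unfold FS
  refine Finset.sum_nonneg fun A' _ => Finset.sum_nonneg fun K' _ => Finset.sum_nonneg fun K _ =>
    Finset.sum_nonneg fun A _ => ?_
  split_ifs
  · positivity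
  · exact le_rfl

theorem f8_prod (hn : 2 ≤ n) (hO : GLL.Ord O) (S : Finset ℕ) (hS : ∀ p ∈ S, p.Prime) :
    FS O (∏ p ∈ S, p) = ∏ p ∈ S, FS O p := by
  classical
  induction S using Finset.induction_on with
  | empty =>
    rw [Finset.prod_empty, Finset.prod_empty]
    exact (FS_mul hn hO one_pos one_pos (Nat.coprime_one_right 1)).2
  | insert p S hp ih =>
    rw [Finset.prod_insert hp, Finset.prod_insert hp]
    have hp' : p.Prime := hS p (Finset.mem_insert_self _ _)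
    have hS' : ∀ r ∈ S, r.Prime := fun r hr => hS r (Finset.mem_insert_of_mem hr)
    rw [(FS_mul hn hO hp'.pos (Finset.prod_pos fun r hr => (hS' r hr).pos) ?_).1, ih hS']
    refine Nat.Coprime.prod_right fun r hr => ?_
    rw [Nat.coprime_primes hp' (hS' r hr)]
    rintro rfl
    exact hp hr

theorem f8_sq {Y b : ℕ} (hb : b ∣ primorial Y) : b = ∏ p ∈ b.primeFactors, p ∧
    b.primeFactors ⊆ (Finset.range (Y + 1)).filter Nat.Prime ∧ 0 < b := by
  have h0 : primorial Y ≠ 0 := (primorial_pos Y).ne'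
  have hsq : Squarefree (primorial Y) := squarefree_primorial Y
  refine ⟨(Nat.prod_primeFactors_of_squarefree (hsq.squarefree_of_dvd hb)).symm, ?_,
    Nat.pos_of_dvd_of_pos hb (primorial_pos Y)⟩
  intro p hp
  have h1 : p.Prime := Nat.prime_of_mem_primeFactors hp
  have h2 : p ∣ primorial Y := (Nat.dvd_of_mem_primeFactors hp).trans hb
  unfold primorial at h2
  obtain ⟨q, hq, hpq⟩ := (h1.prime.dvd_finsetProd_iff _).1 h2
  have h3 : p = q := (Nat.prime_dvd_prime_iff_eq h1 (Finset.mem_filter.1 hq).2).1 hpq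
  rw [h3]
  exact hq

theorem FS_le_pr (hn : 2 ≤ n) (hO : GLL.Ord O) : ∃ C : ℝ, 1 ≤ C ∧ ∀ (Y b : ℕ), 3 ≤ Y →
    b ∣ primorial Y → 0 ≤ FS O b ∧ FS O b ≤ C * Real.log Y ^ C := by
  obtain ⟨C, hC, hloc⟩ := FS_loc (O := O) hn hO
  obtain ⟨D, hD, hs⟩ := DZN.pr_sum
  have hC0 : 0 ≤ C := by linarith
  refine ⟨max C (Real.exp (C * D)), le_max_of_le_left hC, ?_⟩
  intro Y b hY hb
  refine ⟨f8_nonneg b, ?_⟩
  obtain ⟨h1, h2, h3⟩ := f8_sq hb
  have hY' : (3 : ℝ) ≤ Y := by exact_mod_cast hY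
  have hL : 1 ≤ Real.log Y := by
    rw [Real.le_log_iff_exp_le (by linarith)]
    have := Real.exp_one_lt_d9
    linarith
  have hL0 : 0 < Real.log Y := by linarith
  have h4 : ∑ p ∈ (Finset.range (Y + 1)).filter Nat.Prime, (p : ℝ)⁻¹ ≤
      Real.log (Real.log Y) + D := by
    refine le_trans (le_of_eq ?_) (hs Y (by omega) 0 0 le_rfl (by norm_num)).2
    refine Finset.sum_congr rfl fun p _ => ?_
    simp [DZN.pY]
  have h5 : FS O b ≤ Real.exp (C * (Real.log (Real.log Y) + D)) := by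
    rw [h1, f8_prod hn hO _ fun p hp => Nat.prime_of_mem_primeFactors hp]
    calc ∏ p ∈ b.primeFactors, FS O p ≤ ∏ p ∈ b.primeFactors, Real.exp (C * (p : ℝ)⁻¹) := by
          refine Finset.prod_le_prod (fun p _ => f8_nonneg p) fun p hp => ?_
          refine (hloc p (Nat.prime_of_mem_primeFactors hp)).trans ?_
          rw [div_eq_mul_inv]
          have := Real.add_one_le_exp (C * (p : ℝ)⁻¹)
          linarith
      _ = Real.exp (C * ∑ p ∈ b.primeFactors, (p : ℝ)⁻¹) := by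
          rw [← Real.exp_sum, Finset.mul_sum]
      _ ≤ _ := by
          apply Real.exp_le_exp.2
          apply mul_le_mul_of_nonneg_left _ hC0
          refine le_trans ?_ h4
          exact Finset.sum_le_sum_of_subset_of_nonneg h2 fun p _ _ => by positivity
  have h6 : Real.exp (C * (Real.log (Real.log Y) + D)) =
      Real.exp (C * D) * Real.log Y ^ C := by
    rw [Real.rpow_def_of_pos hL0, ← Real.exp_add]
    congr 1
    ring
  rw [h6] at h5
  refine h5.trans ?_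
  apply mul_le_mul (le_max_right _ _) _ (Real.rpow_nonneg hL0.le _)
    ((Real.exp_pos _).le.trans (le_max_right _ _))
  exact Real.rpow_le_rpow_of_exponent_le hL (le_max_left _ _)

theorem far_pr (hn : 2 ≤ n) (hO : GLL.Ord O) {Φ : Mt n → ℂ} (hΦ : Tst Φ)
    (h0 : ∫ X : Mt n, Φ X = 0) {β : Mt n → ℝ} (hβ : Bt β) (b₀ : ℕ) (hb₀ : 0 < b₀) (R A₁ : ℝ)
    {θ : ℝ} (hθ0 : 0 ≤ θ) (hθ : θ < 1) : ∃ C r₁ Q0 : ℝ, 0 ≤ C ∧ 0 ≤ r₁ ∧ 1 ≤ Q0 ∧
      ∀ Q u u' : ℝ, Q0 ≤ Q → u + r₁ ≤ u' → u' ≤ A₁ → -(2 * Real.log Q) ≤ u →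
      ∀ b₂ : ℕ, b₂ ∣ primorial ⌊Q⌋₊ → b₀.Coprime b₂ → ∀ c : Idl O → ℝ,
      CO O (b₀ * b₂) (Q ^ θ) c → ∀ x ∈ K1 n R, ∀ y ∈ K1 n R, ∀ Y ∈ K1 n R,
        ‖Gt b₀ (b₀ * b₂) β Φ c Q u u' x y Y‖ ≤
          C * Q ^ n * Real.exp (-(n * u')) * Real.log Q ^ C := by
  obtain ⟨C, r₁, Q0, hC, hr, hQ0, hfar⟩ := far0 hn hO hΦ h0 hβ b₀ hb₀ R A₁ hθ0 hθ
  obtain ⟨D, hD, hFS⟩ := FS_le_pr (O := O) hn hO
  have hD0 : 0 ≤ D := by linarith
  refine ⟨max (C * (D + 1)) D, r₁, max Q0 3, le_max_of_le_right hD0, hr, le_max_of_le_left hQ0, ?_⟩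
  intro Q u u' hQ hu hu' hu2 b₂ hb₂ hcop c hc x hx y hy Y hY
  have hQ1 : Q0 ≤ Q := (le_max_left _ _).trans hQ
  have hQ3 : 3 ≤ Q := (le_max_right _ _).trans hQ
  have hb₂0 : 0 < b₂ := Nat.pos_of_dvd_of_pos hb₂ (primorial_pos _)
  have h1 := hfar Q u u' hQ1 hu hu' hu2 b₂ hb₂0 hcop c hc x hx y hy Y hY
  have hfl : 3 ≤ ⌊Q⌋₊ := Nat.le_floor (by exact_mod_cast hQ3)
  have h2 := (hFS ⌊Q⌋₊ b₂ hfl hb₂).2
  have hfl' : (3 : ℝ) ≤ (⌊Q⌋₊ : ℝ) := by exact_mod_cast hfl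
  have hlog1 : 1 ≤ Real.log (⌊Q⌋₊ : ℝ) := by
    rw [Real.le_log_iff_exp_le (by linarith)]
    have := Real.exp_one_lt_d9
    linarith
  have hlog2 : Real.log (⌊Q⌋₊ : ℝ) ≤ Real.log Q :=
    Real.log_le_log (by linarith) (Nat.floor_le (by linarith))
  have hlog3 : 1 ≤ Real.log Q := hlog1.trans hlog2
  have h3 : Real.log (⌊Q⌋₊ : ℝ) ^ D ≤ Real.log Q ^ D :=
    Real.rpow_le_rpow (by linarith) hlog2 hD0
  have h4 : 1 ≤ Real.log Q ^ D := Real.one_le_rpow hlog3 hD0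
  have h5 : FS O b₂ + 1 ≤ (D + 1) * Real.log Q ^ D := by
    have := mul_le_mul_of_nonneg_left h3 hD0
    linarith
  have h6 : 0 ≤ C * Q ^ n * Real.exp (-(n * u')) :=
    mul_nonneg (mul_nonneg hC (pow_nonneg (by linarith) _)) (Real.exp_pos _).le
  refine h1.trans ?_
  refine (mul_le_mul_of_nonneg_left h5 h6).trans ?_
  have h7 : Real.log Q ^ D ≤ Real.log Q ^ max (C * (D + 1)) D :=
    Real.rpow_le_rpow_of_exponent_le hlog3 (le_max_right _ _)
  have h8 : 0 ≤ Q ^ n * Real.exp (-(n * u')) :=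
    mul_nonneg (pow_nonneg (by linarith) _) (Real.exp_pos _).le
  calc C * Q ^ n * Real.exp (-(n * u')) * ((D + 1) * Real.log Q ^ D) =
      (C * (D + 1)) * (Q ^ n * Real.exp (-(n * u'))) * Real.log Q ^ D := by ring
    _ ≤ max (C * (D + 1)) D * (Q ^ n * Real.exp (-(n * u'))) *
        Real.log Q ^ max (C * (D + 1)) D := by
        apply mul_le_mul _ h7 (Real.rpow_nonneg (by linarith) _)
        · exact mul_nonneg (le_max_of_le_right hD0) h8
        · exact mul_le_mul_of_nonneg_right (le_max_left _ _) h8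
    _ = _ := by ring

end

end Pool.Agent.RZH

namespace Pool.Agent.RZH

theorem FS_le : type_of% @FS_le_pr := @FS_le_pr

theorem far : type_of% @far_pr := @far_pr

end Pool.Agent.RZH
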