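import Pool.Agent.Lib_helper16.GLL.XDefs
import Pool.Agent.Lib_helper32.LALS.S_SN
import Pool.Agent.Lib_helper75.RZG.Defs
import Pool.Agent.Lib_helper96.GLF.T_TD
import Pool.Agent.Lib_helper96.GLF.T_TE
import Pool.Agent.Lib_helper96.GLF.X_XE2
import Pool.Agent.Lib_helper96.GLL.Defs
import Pool.Agent.Lib_helper96.GLL.DefsB

/-!
# Project RZG, block S9a: polar coordinates
-/

set_option autoImplicit false

namespace Pool.Agent.RZH

open MeasureTheory Matrix Complex Filter Topology Pool.Agent.GLL Pool.Agent.LAL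
open scoped ENNReal ContDiff

noncomputable section

variable {n : ℕ} {O : Subring (Mt n)}

theorem S9a_cs {φ : ℝ → ℂ} {A : ℝ} (hφ : TF φ A) : HasCompactSupport φ := by
  refine HasCompactSupport.intro (isCompact_Icc : IsCompact (Set.Icc (-A) A)) fun x hx => ?_
  by_contra h
  exact hx (abs_le.1 (hφ.supp x h))

theorem S9a_smul (a b : ℝ) (g : Mt n) :
    Real.exp (a / n) • (Real.exp (b / n) • g) = Real.exp ((b + a) / n) • g := by
  rw [smul_smul, ← Real.exp_add]
  congr 2
  ring

theorem Phi_tau_pr (hn : 2 ≤ n) {k : Mt n → ℂ} (hk : Sph2 k) {φ : ℝ → ℂ} {A : ℝ} (hφ : TF φ A)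
    (u u' : ℝ) :
    ∫ W : Mt n, Phi φ k (Real.exp ((u - u') / n) • W) * (starRingEnd ℂ) (Phi φ k W) =
      ((k2 k * Real.exp (-(((n : ℝ) - 1) / 2 * (u - u'))) * Real.exp u' : ℝ) : ℂ) *
        Phc φ u u' := by
  have hcs' := S9a_cs hφ
  have hcont : Continuous (Phi φ k) := (T.Phi_smooth hn hk hφ.smooth hcs').continuous
  have hcs : HasCompactSupport (Phi φ k) := T.Phi_cs hn hk.toSph hcs'
  have hcont2 : Continuous fun W : Mt n => Phi φ k (Real.exp ((u - u') / n) • W) *
      (starRingEnd ℂ) (Phi φ k W) := by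
    have h1 : Continuous fun W : Mt n => Phi φ k (Real.exp ((u - u') / n) • W) :=
      hcont.comp (continuous_const_smul _)
    have h2 : Continuous fun W : Mt n => (starRingEnd ℂ) (Phi φ k W) :=
      Complex.continuous_conj.comp hcont
    exact h1.mul h2
  have hcs2 : HasCompactSupport fun W : Mt n => Phi φ k (Real.exp ((u - u') / n) • W) *
      (starRingEnd ℂ) (Phi φ k W) := by
    refine hcs.mono fun X hX => ?_
    rw [Function.mem_support] at hX ⊢
    intro h0
    apply hX
    rw [h0]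
    simp
  have hint := hcont2.integrable_of_hasCompactSupport hcs2 (μ := volume)
  rw [X.IF_radial_pr hn _ hint]
  have h2 : ∀ v : ℝ, (II fun g : Mt n => Phi φ k (Real.exp ((u - u') / n) •
      (Real.exp (v / n) • g)) * (starRingEnd ℂ) (Phi φ k (Real.exp (v / n) • g))) =
      (φ (v + (u - u')) * (starRingEnd ℂ) (φ v) *
        ((Real.exp (-((v + (u - u')) * (((n : ℝ) - 1) / 2))) *
          Real.exp (-(v * (((n : ℝ) - 1) / 2))) : ℝ) : ℂ)) * ((k2 k : ℝ) : ℂ) := by
    intro v
    rw [k2, ← T.te_real, ← T.te_mul]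
    refine T.te_congr hn fun g hg => ?_
    rw [S9a_smul, T.Phi_val hn hk.toSph φ _ g hg, T.Phi_val hn hk.toSph φ v g hg, map_mul,
      map_mul, Complex.conj_ofReal]
    have h3 : ((‖k g‖ ^ 2 : ℝ) : ℂ) = k g * (starRingEnd ℂ) (k g) := by
      rw [Complex.mul_conj, Complex.normSq_eq_norm_sq]
    rw [h3]
    push_cast
    ring
  have h3 : ∀ v : ℝ, ((Real.exp (n * v) : ℝ) : ℂ) *
      (II fun g : Mt n => Phi φ k (Real.exp ((u - u') / n) • (Real.exp (v / n) • g)) *
        (starRingEnd ℂ) (Phi φ k (Real.exp (v / n) • g))) =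
      ((k2 k * Real.exp (-(((n : ℝ) - 1) / 2 * (u - u'))) : ℝ) : ℂ) *
        (φ (v + (u - u')) * (starRingEnd ℂ) (φ v) * ((Real.exp v : ℝ) : ℂ)) := by
    intro v
    rw [h2 v]
    have h4 : Real.exp (n * v) * (Real.exp (-((v + (u - u')) * (((n : ℝ) - 1) / 2))) *
        Real.exp (-(v * (((n : ℝ) - 1) / 2)))) =
        Real.exp (-(((n : ℝ) - 1) / 2 * (u - u'))) * Real.exp v := by
      rw [← Real.exp_add, ← Real.exp_add, ← Real.exp_add]
      congr 1
      ring
    have h5 : ((Real.exp (n * v) : ℝ) : ℂ) *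
        ((Real.exp (-((v + (u - u')) * (((n : ℝ) - 1) / 2))) *
          Real.exp (-(v * (((n : ℝ) - 1) / 2))) : ℝ) : ℂ) =
        ((Real.exp (-(((n : ℝ) - 1) / 2 * (u - u'))) * Real.exp v : ℝ) : ℂ) := by
      rw [← Complex.ofReal_mul, h4]
    calc _ = (((Real.exp (n * v) : ℝ) : ℂ) *
        ((Real.exp (-((v + (u - u')) * (((n : ℝ) - 1) / 2))) *
          Real.exp (-(v * (((n : ℝ) - 1) / 2))) : ℝ) : ℂ)) *
        (φ (v + (u - u')) * (starRingEnd ℂ) (φ v) * ((k2 k : ℝ) : ℂ)) := by ring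
      _ = _ := by
        rw [h5]
        push_cast
        ring
  rw [integral_congr_ae (Filter.Eventually.of_forall h3), integral_const_mul]
  have h6 : ∫ v : ℝ, φ (v + (u - u')) * (starRingEnd ℂ) (φ v) * ((Real.exp v : ℝ) : ℂ) =
      ((Real.exp u' : ℝ) : ℂ) * Phc φ u u' := by
    rw [← integral_add_right_eq_self (fun v : ℝ => φ (v + (u - u')) * (starRingEnd ℂ) (φ v) *
      ((Real.exp v : ℝ) : ℂ)) u', Phc, ← integral_const_mul]
    refine integral_congr_ae (Filter.Eventually.of_forall fun v => ?_)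
    show φ (v + u' + (u - u')) * (starRingEnd ℂ) (φ (v + u')) * ((Real.exp (v + u') : ℝ) : ℂ) =
      ((Real.exp u' : ℝ) : ℂ) * (φ (v + u) * (starRingEnd ℂ) (φ (v + u')) *
        ((Real.exp v : ℝ) : ℂ))
    rw [Real.exp_add, show v + u' + (u - u') = v + u by ring]
    push_cast
    ring
  rw [h6]
  push_cast
  ring

/-- for `|u - u'| > 2A` there is no main term -/
theorem Phc_facts_pr {φ : ℝ → ℂ} {A : ℝ} (hφ : TF φ A) :
    Continuous (fun p : ℝ × ℝ => Phc φ p.1 p.2) ∧
    (∀ u u' : ℝ, 2 * A < |u - u'| → Phc φ u u' = 0) ∧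
    (∃ C : ℝ, 0 ≤ C ∧ ∀ u u' : ℝ, ‖Phc φ u u'‖ ≤ C * Real.exp (-u')) ∧
    ∀ u u' : ℝ, Phc φ u' u = (starRingEnd ℂ) (Phc φ u u') := by
  have hcs := S9a_cs hφ
  have hc : Continuous φ := hφ.smooth.continuous
  refine ⟨?_, ?_, ?_, ?_⟩
  · rw [continuous_iff_continuousAt]
    intro p₀
    have hopen : IsOpen {p : ℝ × ℝ | |p.1 - p₀.1| < 1} :=
      isOpen_lt ((continuous_fst.sub continuous_const).abs) continuous_const
    have hmem : p₀ ∈ {p : ℝ × ℝ | |p.1 - p₀.1| < 1} := by simp
    have hcont : ContinuousOn (fun p : ℝ × ℝ => ∫ v : ℝ, φ (v + p.1) *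
        (starRingEnd ℂ) (φ (v + p.2)) * (Real.exp v : ℂ)) {p : ℝ × ℝ | |p.1 - p₀.1| < 1} := by
      refine continuousOn_integral_of_compact_support
        (k := Set.Icc (-A - p₀.1 - 1) (A - p₀.1 + 1)) isCompact_Icc ?_ ?_
      · refine Continuous.continuousOn ?_
        have h1 : Continuous fun x : (ℝ × ℝ) × ℝ => φ (x.2 + x.1.1) := by fun_prop
        have h2 : Continuous fun x : (ℝ × ℝ) × ℝ => (starRingEnd ℂ) (φ (x.2 + x.1.2)) :=
          Complex.continuous_conj.comp (by fun_prop)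
        have h3 : Continuous fun x : (ℝ × ℝ) × ℝ => ((Real.exp x.2 : ℝ) : ℂ) :=
          Complex.continuous_ofReal.comp (by fun_prop)
        exact (h1.mul h2).mul h3
      · intro p v hp hv
        have h4 : φ (v + p.1) = 0 := by
          by_contra hne
          apply hv
          have h5 := abs_le.1 (hφ.supp _ hne)
          have h6 : |p.1 - p₀.1| < 1 := hp
          rw [abs_lt] at h6
          constructor <;> linarith [h5.1, h5.2, h6.1, h6.2]
        rw [h4, zero_mul, zero_mul]
    exact hcont.continuousAt (hopen.mem_nhds hmem)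
  · intro u u' h
    unfold Phc
    rw [← integral_zero ℝ ℂ]
    refine integral_congr_ae (Filter.Eventually.of_forall fun v => ?_)
    show φ (v + u) * (starRingEnd ℂ) (φ (v + u')) * (Real.exp v : ℂ) = 0
    by_cases h1 : φ (v + u) = 0
    · rw [h1, zero_mul, zero_mul]
    · have h2 : φ (v + u') = 0 := by
        by_contra h3
        have h4 := abs_le.1 (hφ.supp _ h1)
        have h5 := abs_le.1 (hφ.supp _ h3)
        have h6 : |u - u'| ≤ 2 * A := by
          rw [abs_le]
          constructor <;> linarith [h4.1, h4.2, h5.1, h5.2]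
        linarith
      rw [h2, map_zero, mul_zero, zero_mul]
  · obtain ⟨M, hM⟩ := hcs.exists_bound_of_continuous hc
    have hM0 : 0 ≤ M := (norm_nonneg _).trans (hM 0)
    have hI0 : 0 ≤ ∫ v : ℝ, ‖φ v‖ * Real.exp v :=
      integral_nonneg fun v => mul_nonneg (norm_nonneg _) (Real.exp_pos _).le
    refine ⟨M * ∫ v : ℝ, ‖φ v‖ * Real.exp v, mul_nonneg hM0 hI0, ?_⟩
    intro u u'
    have hint : ∀ w : ℝ, Integrable fun v : ℝ => ‖φ (v + w)‖ * Real.exp v := by
      intro w
      have h1 : Continuous fun v : ℝ => ‖φ (v + w)‖ * Real.exp v := by fun_prop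
      refine h1.integrable_of_hasCompactSupport ?_
      refine HasCompactSupport.intro (isCompact_Icc : IsCompact (Set.Icc (-A - w) (A - w)))
        fun v hv => ?_
      have h2 : φ (v + w) = 0 := by
        by_contra hne
        apply hv
        have h5 := abs_le.1 (hφ.supp _ hne)
        constructor <;> linarith [h5.1, h5.2]
      rw [h2, norm_zero, zero_mul]
    have h7 : ∫ v : ℝ, ‖φ (v + u')‖ * Real.exp v =
        Real.exp (-u') * ∫ v : ℝ, ‖φ v‖ * Real.exp v := by
      rw [← integral_add_right_eq_self (fun v : ℝ => ‖φ v‖ * Real.exp v) u', ← integral_const_mul]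
      refine integral_congr_ae (Filter.Eventually.of_forall fun v => ?_)
      show ‖φ (v + u')‖ * Real.exp v = Real.exp (-u') * (‖φ (v + u')‖ * Real.exp (v + u'))
      rw [Real.exp_add, Real.exp_neg]
      have := (Real.exp_pos u').ne'
      field_simp
    calc ‖Phc φ u u'‖ ≤ ∫ v : ℝ, ‖φ (v + u) * (starRingEnd ℂ) (φ (v + u')) *
          (Real.exp v : ℂ)‖ := norm_integral_le_integral_norm _
      _ ≤ ∫ v : ℝ, M * (‖φ (v + u')‖ * Real.exp v) := by
          refine integral_mono_of_nonneg (Filter.Eventually.of_forall fun v => norm_nonneg _)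
            ((hint u').const_mul M) (Filter.Eventually.of_forall fun v => ?_)
          show ‖φ (v + u) * (starRingEnd ℂ) (φ (v + u')) * (Real.exp v : ℂ)‖ ≤
            M * (‖φ (v + u')‖ * Real.exp v)
          rw [norm_mul, norm_mul, Complex.norm_conj, Complex.norm_real, Real.norm_eq_abs,
            abs_of_pos (Real.exp_pos v), mul_assoc]
          exact mul_le_mul_of_nonneg_right (hM _)
            (mul_nonneg (norm_nonneg _) (Real.exp_pos _).le)
      _ = M * (∫ v : ℝ, ‖φ v‖ * Real.exp v) * Real.exp (-u') := by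
          rw [integral_const_mul, h7]
          ring
  · intro u u'
    unfold Phc
    rw [← integral_conj]
    refine integral_congr_ae (Filter.Eventually.of_forall fun v => ?_)
    show φ (v + u') * (starRingEnd ℂ) (φ (v + u)) * (Real.exp v : ℂ) =
      (starRingEnd ℂ) (φ (v + u) * (starRingEnd ℂ) (φ (v + u')) * (Real.exp v : ℂ))
    rw [map_mul, map_mul, Complex.conj_conj, Complex.conj_ofReal]
    ring

end

end Pool.Agent.RZH

namespace Pool.Agent.RZH

theorem Phc_facts : type_of% @Phc_facts_pr := @Phc_facts_pr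

theorem Phi_tau : type_of% @Phi_tau_pr := @Phi_tau_pr

end Pool.Agent.RZH
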