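import Pool.Agent.Lib_helper32.LAL.SD2
import Pool.Agent.Lib_helper32.LAL.SDefs
import Pool.Agent.Lib_helper32.LALS.S_SA1
import Pool.Agent.Lib_helper32.LALS.S_SB
import Pool.Agent.Lib_helper32.LALS.S_SD2
import Pool.Agent.Lib_helper32.LALS.S_SH1
import Pool.Agent.Lib_helper41.RZGF.R_N1
import Pool.Agent.Lib_helper41.RZGF.R_S5c
import Pool.Agent.Lib_helper41.RZGF.R_S6a
import Pool.Agent.Lib_helper42.GLM.Defs
import Pool.Agent.Lib_helper75.RZG.Defs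
import Pool.Agent.Lib_helper94.LAL.S2
import Pool.Agent.Lib_helper94.LAL.S2D
import Pool.Agent.Lib_helper96.GLF.O_OE
import Pool.Agent.Lib_helper96.GLF.O_OI
import Pool.Agent.Lib_helper96.GLL.Defs
import Pool.Agent.Lib_helper96.GLL.DefsB
import Pool.Agent.Lib_helper96.LAL.Tr

/-!
# Project RZG, block S7: the sum over the pairs
-/

set_option autoImplicit false

namespace Pool.Agent.RZH

open MeasureTheory Matrix Complex Filter Topology Pool.Agent.GLL Pool.Agent.LAL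
open scoped ENNReal ContDiff

noncomputable section

variable {n : ℕ} {O : Subring (Mt n)}

theorem SW_main_pr (hn : 2 ≤ n) (hO : GLL.Ord O) {Φ : Mt n → ℂ} (hΦ : Tst Φ) {β : Mt n → ℝ}
    (hβ : Bt β) (b₀ : ℕ) (hb₀ : 0 < b₀) (R : ℝ) {θ θ1 : ℝ} (hθ1 : 0 ≤ θ1) (hθ : θ + θ1 < 1)
    (M : ℕ) : ∃ C Q0 : ℝ, 0 ≤ C ∧ 1 ≤ Q0 ∧
      ∀ Q u u' : ℝ, Q0 ≤ Q → u ≤ u' → u' - u ≤ θ1 * Real.log Q → -(2 * Real.log Q) ≤ u →
      ∀ x ∈ K1 n R, ∀ y ∈ K1 n R, ∀ Y ∈ K1 n R, ∀ I I' J J' : Idl O, (b₀ : Mt n) ∈ I.1 →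
      (b₀ : Mt n) ∈ I'.1 → (N J).Coprime b₀ → (N J').Coprime b₀ →
      (N J : ℝ) ≤ Q ^ θ → (N J' : ℝ) ≤ Q ^ θ →
        ‖SW b₀ β Φ Q u u' (infI I J) (infI I' J') x y Y -
          (((covO O ^ 2)⁻¹ * (((N (infI I J) : ℝ) * N (infI I' J')) ^ n)⁻¹ * Q ^ n *
            Real.exp (-(n * u')) : ℝ) : ℂ) * ∑ K ∈ AI (supI J J'), (cs K : ℂ) *
              PT b₀ β Φ (supI I I') K (Real.exp ((u - u') / n))
                (Real.exp ((u + Real.log Q) / n)) x Y‖ ≤ C * (Q ^ M)⁻¹ := by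
  classical
  obtain ⟨-, hΦc, -, -⟩ := Tst_rap hn hΦ
  obtain ⟨-, hβc, -, -⟩ := Tst_rap hn hβ.tst
  have hβd : ∃ c : ℝ, 0 < c ∧ ∀ H, (fun X => (β X : ℂ)) H ≠ 0 → c ≤ |H.det| := hβ.tst.det
  set θ' : ℝ := (1 + θ - θ1) / 2 with hθ'
  have hθ11 : θ' + θ1 < 1 := by rw [hθ']; linarith
  have hθ2 : 0 < θ' - θ := by rw [hθ']; linarith
  obtain ⟨C1, hC1⟩ := N1 hn hO hΦ.smooth hΦc hβ.tst.smooth hβc hβd hb₀ R hθ11 (M + 3 * n)
  obtain ⟨CB, hCB0, -, hI0, hW0⟩ := N1_supp hn hΦc hβc hβd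
  obtain ⟨Cc, hCc, hcnt⟩ := cnt hn hO R CB
  set Sm : ℝ := ∑ D ∈ PI (tr O) b₀, |((mob (tr O) b₀ D : ℤ) : ℝ)| with hSm
  have hSm0 : 0 ≤ Sm := Finset.sum_nonneg fun _ _ => abs_nonneg _
  refine ⟨Sm * (Cc * |C1|), max 1 (((b₀ : ℝ) ^ n) ^ (1 / (θ' - θ))), by positivity,
    le_max_left _ _, ?_⟩
  intro Q u u' hQ huu huq hu2 x hx y hy Y hY I I' J J' hI hI' hJ hJ' hNJ hNJ'
  have hQ1 : 1 ≤ Q := (le_max_left _ _).trans hQ
  have hQ0 : 0 < Q := by linarith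
  have hn0 : (n : ℝ) ≠ 0 := by
    have : (0 : ℝ) < n := by exact_mod_cast (by omega : 0 < n)
    exact this.ne'
  -- sizes of the norms
  have hbQ : (b₀ : ℝ) ^ n ≤ Q ^ (θ' - θ) := by
    have h1 : ((b₀ : ℝ) ^ n) ^ (1 / (θ' - θ)) ≤ Q := (le_max_right _ _).trans hQ
    have h2 := Real.rpow_le_rpow (by positivity) h1 hθ2.le
    rwa [← Real.rpow_mul (by positivity), one_div, inv_mul_cancel₀ hθ2.ne', Real.rpow_one] at h2
  have hsz : ∀ I J : Idl O, (b₀ : Mt n) ∈ I.1 → (N J : ℝ) ≤ Q ^ θ →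
      (N (infI I J) : ℝ) ≤ Q ^ θ' := by
    intro I J hI hNJ
    have h1 : (N (infI I J) : ℝ) ≤ (b₀ : ℝ) ^ n * N J := by
      exact_mod_cast LAL.sh1_inf hn hO hb₀ I J hI
    calc (N (infI I J) : ℝ) ≤ (b₀ : ℝ) ^ n * N J := h1
      _ ≤ Q ^ (θ' - θ) * Q ^ θ := by gcongr
      _ = Q ^ θ' := by rw [← Real.rpow_add hQ0, sub_add_cancel]
  have hA := hsz I J hI hNJ
  have hA' := hsz I' J' hI' hNJ'
  set z : ℝ := Real.exp (u / n) with hzdef
  set z' : ℝ := Real.exp (u' / n) with hz'def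
  have hz : 0 < z := Real.exp_pos _
  have hz' : 0 < z' := Real.exp_pos _
  have hnpos : (0 : ℝ) < n := by exact_mod_cast (by omega : 0 < n)
  have hzn : z ^ n = Real.exp u := by
    rw [hzdef, ← Real.exp_nat_mul, mul_div_cancel₀ _ hn0]
  have hzn' : z' ^ n = Real.exp u' := by
    rw [hz'def, ← Real.exp_nat_mul, mul_div_cancel₀ _ hn0]
  have hzz : z ≤ z' := Real.exp_le_exp.2 (div_le_div_of_nonneg_right huu hnpos.le)
  have hlog : 0 ≤ Real.log Q := Real.log_nonneg hQ1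
  have hzq : (z' / z) ^ n ≤ Q ^ θ1 := by
    rw [div_pow, hzn, hzn', ← Real.exp_sub, Real.rpow_def_of_pos hQ0]
    exact Real.exp_le_exp.2 (by linarith [mul_comm (Real.log Q) θ1])
  have hz2 : (z ^ n)⁻¹ ≤ Q ^ 3 := by
    rw [hzn, ← Real.exp_neg]
    have h1 : Q ^ 3 = Real.exp (3 * Real.log Q) := by
      rw [← Real.exp_log (show (0 : ℝ) < Q ^ 3 by positivity), Real.log_pow]
      norm_num
    rw [h1]
    exact Real.exp_le_exp.2 (by linarith)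
  have hτ : Real.exp ((u - u') / n) = z / z' := by
    rw [hzdef, hz'def, ← Real.exp_sub, sub_div]
  have hτ0 : 0 ≤ z / z' := by positivity
  have hτ1 : z / z' ≤ 1 := (div_le_one hz').2 hzz
  have hxd : x.det ≠ 0 := LAL94.ne_of_abs_one hx.1
  have hyd : y.det ≠ 0 := LAL94.ne_of_abs_one hy.1
  have hYd : Y.det ≠ 0 := LAL94.ne_of_abs_one hY.1
  have hinv : (x⁻¹)⁻¹ = x := Matrix.nonsing_inv_nonsing_inv _ (isUnit_iff_ne_zero.mpr hxd)
  have hxid : (x⁻¹).det ≠ 0 := by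
    rw [← abs_pos, LAL94.dinv, hx.1]
    norm_num
  -- the h which contribute
  set s : ℝ := z * Q ^ (1 / (n : ℝ)) with hs
  have hs0 : 0 < s := by positivity
  have hsE : Real.exp ((u + Real.log Q) / n) = s := by
    rw [hs, hzdef, Real.rpow_def_of_pos hQ0, ← Real.exp_add]
    congr 1
    ring
  obtain ⟨hfin, hcard, -⟩ := hcnt s hs0 x⁻¹ Y hxid hYd hx.2.2 (by rw [hinv]; exact hx.2.1)
    hY.2.1 hY.2.2
  set Hs : Finset O := hfin.toFinset with hHs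
  have hmemH : ∀ h : O, h ∈ Hs ↔ h ≠ 0 ∧ nr (s • (x⁻¹ * (h : Mt n) * Y)) ≤ CB := by
    intro h
    rw [hHs, Set.Finite.mem_toFinset]
    rfl
  have hBB : ∀ h : O, BB Q z x Y (h : Mt n) = s • (x⁻¹ * (h : Mt n) * Y) := fun h => rfl
  have hcard' : (Hs.card : ℝ) ≤ Cc * Q ^ (3 * n) := by
    have h1 : (Hs.card : ℝ) ≤ Cc * s ^ (-((n : ℝ) ^ 2)) := by
      refine le_trans (le_of_eq ?_) hcard
      rw [hHs, Nat.card_coe_set_eq, Set.ncard_eq_toFinset_card _ hfin]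
    refine h1.trans (mul_le_mul_of_nonneg_left ?_ hCc.le)
    have h2 : s ^ (-((n : ℝ) ^ 2)) = ((z ^ n)⁻¹) ^ n * (Q ^ n)⁻¹ := by
      rw [Real.rpow_neg hs0.le]
      have h3 : s ^ ((n : ℝ) ^ 2) = (s ^ n) ^ n := by
        have h4 : ((n : ℝ) ^ 2) = ((n ^ 2 : ℕ) : ℝ) := by push_cast; ring
        rw [h4, Real.rpow_natCast, sq, pow_mul]
      rw [h3, hs, mul_pow, LAL94.rpow_n hn hQ0, mul_pow, mul_inv, inv_pow]
    rw [h2]
    have h4 : (Q ^ n)⁻¹ ≤ 1 := inv_le_one_of_one_le₀ (one_le_pow₀ hQ1)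
    calc ((z ^ n)⁻¹) ^ n * (Q ^ n)⁻¹ ≤ (Q ^ 3) ^ n * 1 := by gcongr
      _ = Q ^ (3 * n) := by rw [mul_one, pow_mul]
  -- vanishing outside Hs
  have hvan : ∀ h : O, h ≠ 0 → h ∉ Hs →
      s2J Φ (fun X => (β X : ℂ)) (z / z') (s • (x⁻¹ * (h : Mt n) * Y)) = 0 ∧
      ∀ A A' D : AddSubgroup (Mt n), ∀ p : O × O,
        s2T2 O Φ (fun X => (β X : ℂ)) Q z z' x y Y h A A' D p = 0 := by
    intro h hh hhs
    have h1 : ¬ nr (s • (x⁻¹ * (h : Mt n) * Y)) ≤ CB := fun h2 => hhs ((hmemH h).2 ⟨hh, h2⟩)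
    have hdh : (h : Mt n).det ≠ 0 := fun h0 => hh (Subtype.ext (hO.div h h.2 h0))
    refine ⟨?_, ?_⟩
    · by_contra h2
      exact h1 (hI0 _ _ hτ0 hτ1 h2)
    · intro A A' D p
      unfold s2T2
      split_ifs with h3
      · by_contra h4
        exact h1 (hW0 Q z z' hQ0 hz hzz x y Y h hxd hyd hYd hdh _ _ h4)
      · rfl
  set A := infI I J with hAdef
  set A' := infI I' J' with hA'def
  set M0 : ℝ := (covO O ^ 2)⁻¹ * (((N A : ℝ) * N A') ^ n)⁻¹ * Q ^ n * (z' ^ (n ^ 2))⁻¹ with hM0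
  let sI : O → ℂ := fun h => s2J Φ (fun X => (β X : ℂ)) (z / z') (s • (x⁻¹ * (h : Mt n) * Y))
  let co : Idl (tr O) → O → ℝ := fun D h => (ix O (tS D) : ℝ)⁻¹ *
    (ix O (A.1 ⊔ A'.1 ⊔ hD (h : Mt n) (tS D)) : ℝ)
  -- the first part: S2
  have hmemP : ∀ D ∈ PI (tr O) b₀, (b₀ : Mt n) ∈ D.1 := fun D hD' =>
    (mem_PI hn (ord_tr hn hO) hb₀ D).1 hD'
  have hstep : ∀ D ∈ PI (tr O) b₀, ‖(∑' h : O, if h = 0 then (0 : ℂ) else
      ∑' p : O × O, s2T2 O Φ (fun X => (β X : ℂ)) Q z z' x y Y h A.1 A'.1 (tS D) p) -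
        ∑ h ∈ Hs, (M0 : ℂ) * (co D h : ℂ) * sI h‖ ≤
      Cc * |C1| * (Q ^ M)⁻¹ := by
    intro D hD'
    obtain ⟨d1, d2⟩ := LAL.sh1_tS D (hmemP D hD')
    have h1 : (∑' h : O, if h = 0 then (0 : ℂ) else
        ∑' p : O × O, s2T2 O Φ (fun X => (β X : ℂ)) Q z z' x y Y h A.1 A'.1 (tS D) p) =
        ∑ h ∈ Hs, ∑' p : O × O, s2T2 O Φ (fun X => (β X : ℂ)) Q z z' x y Y h A.1 A'.1 (tS D) p := by
      rw [tsum_eq_sum (s := Hs)]
      · refine Finset.sum_congr rfl fun h hh => ?_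
        rw [if_neg ((hmemH h).1 hh).1]
      · intro h hh
        by_cases h0 : h = 0
        · rw [if_pos h0]
        · rw [if_neg h0]
          have := (hvan h h0 hh).2 A.1 A'.1 (tS D)
          simp only [this, tsum_zero]
    rw [h1, ← Finset.sum_sub_distrib]
    have h2 : ∀ h ∈ Hs, ‖(∑' p : O × O, s2T2 O Φ (fun X => (β X : ℂ)) Q z z' x y Y h A.1 A'.1
        (tS D) p) - (M0 : ℂ) * (co D h : ℂ) * sI h‖ ≤ |C1| * (Q ^ (M + 3 * n))⁻¹ := by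
      intro h hh
      have h3 := (hC1 Q z z' hQ1 hz hzz hzq hz2 x y Y hx.1 hy.1 hY.1 hx.2.1 hy.2.1 hY.2.1 A A' hA hA'
        (tS D) d1 d2 h ((hmemH h).1 hh).1).2
      refine le_trans (le_of_eq ?_) (h3.trans
        (mul_le_mul_of_nonneg_right (le_abs_self _) (by positivity)))
      congr 2
      show (M0 : ℂ) * (co D h : ℂ) * sI h = _ * s2J Φ (fun X => (β X : ℂ)) (z / z') (BB Q z x Y (h : Mt n))
      rw [hBB]
      congr 1
      rw [← Complex.ofReal_mul]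
      congr 1
      rw [hM0]
      show _ * ((ix O (tS D) : ℝ)⁻¹ * (ix O (A.1 ⊔ A'.1 ⊔ hD (h : Mt n) (tS D)) : ℝ)) = _
      unfold ix
      ring
    refine (norm_sum_le _ _).trans ((Finset.sum_le_sum h2).trans ?_)
    rw [Finset.sum_const, nsmul_eq_mul]
    calc (Hs.card : ℝ) * (|C1| * (Q ^ (M + 3 * n))⁻¹)
        ≤ (Cc * Q ^ (3 * n)) * (|C1| * (Q ^ (M + 3 * n))⁻¹) := by gcongr
      _ = Cc * |C1| * (Q ^ M)⁻¹ := by
          rw [pow_add]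
          field_simp
  -- the algebra
  have hI2 : (b₀ : Mt n) ∈ (supI I I').1 := by
    rw [(IF_inf hn hO I I').2.1]
    exact AddSubgroup.mem_sup_left hI
  have hJJ : J ≤ supI J J' := by
    show J.1 ≤ (supI J J').1
    rw [(IF_inf hn hO J J').2.1]
    exact le_sup_left
  have hdvd : N (supI J J') ∣ N J := (IF_dvd hn hO _ _ hJJ).1
  have hJ2 : (N (supI J J')).Coprime b₀ := Nat.Coprime.coprime_dvd_left hdvd hJ
  have hsup := LAL.sup_fac hn hO hb₀ I I' J J' hI hI' hJ hJ'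
  have hco : ∀ D ∈ PI (tr O) b₀, ∀ h : O, co D h = (ix O (tS D) : ℝ)⁻¹ *
      (ix O ((supI I I').1 ⊔ hD (h : Mt n) (tS D)) : ℝ) *
      ∑ K ∈ AI (supI J J'), if (h : Mt n) ∈ K.1 then cs K else 0 := by
    intro D hD' h
    show (ix O (tS D) : ℝ)⁻¹ * (ix O (A.1 ⊔ A'.1 ⊔ hD (h : Mt n) (tS D)) : ℝ) = _
    rw [hAdef, hA'def, hsup, LAL.ix_fac hn hO hb₀ dvd_rfl (supI I I') (supI J J') hI2 hJ2 D
      (hmemP D hD') h]
    push_cast
    rw [ix_cs hn hO (supI J J') h]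
    ring
  have halg : ∑ D ∈ PI (tr O) b₀, (mob (tr O) b₀ D : ℂ) *
      ∑ h ∈ Hs, (M0 : ℂ) * (co D h : ℂ) * sI h =
      (M0 : ℂ) * ∑ K ∈ AI (supI J J'), (cs K : ℂ) *
              ∑' h : O, (if h ≠ 0 ∧ (h : Mt n) ∈ K.1 then
                (gJ b₀ (supI I I') h : ℂ) * sI h else 0) := by
    have h1 : ∀ K : Idl O, ∑' h : O, (if h ≠ 0 ∧ (h : Mt n) ∈ K.1 then
                (gJ b₀ (supI I I') h : ℂ) * sI h else 0) =
        ∑ h ∈ Hs, (if (h : Mt n) ∈ K.1 then (gJ b₀ (supI I I') h : ℂ) * sI h else 0) := by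
      intro K
      rw [tsum_eq_sum (s := Hs)]
      · refine Finset.sum_congr rfl fun h hh => ?_
        have h0 := ((hmemH h).1 hh).1
        simp only [ne_eq, h0, not_false_eq_true, true_and]
      · intro h hh
        by_cases h0 : h = 0
        · simp [h0]
        · have h2 : sI h = 0 := (hvan h h0 hh).1
          simp [h2]
    simp_rw [h1, Finset.mul_sum]
    rw [Finset.sum_comm]
    conv_rhs => rw [Finset.sum_comm]
    refine Finset.sum_congr rfl fun h _ => ?_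
    have h3 : ∑ D ∈ PI (tr O) b₀, (mob (tr O) b₀ D : ℂ) * ((M0 : ℂ) * (co D h : ℂ) * sI h) =
        (M0 : ℂ) * sI h * (gJ b₀ (supI I I') h : ℂ) *
          ((∑ K ∈ AI (supI J J'), if (h : Mt n) ∈ K.1 then cs K else 0 : ℝ) : ℂ) := by
      unfold gJ
      rw [Complex.ofReal_sum, Finset.mul_sum, Finset.sum_mul]
      refine Finset.sum_congr rfl fun D hD' => ?_
      rw [hco D hD' h]
      push_cast
      ring
    rw [h3, Complex.ofReal_sum, Finset.mul_sum]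
    refine Finset.sum_congr rfl fun K _ => ?_
    split_ifs
    · ring
    · simp
  have hfinal : ‖(∑ D ∈ PI (tr O) b₀, (mob (tr O) b₀ D : ℂ) *
        ∑' h : O, (if h = 0 then (0 : ℂ) else
          ∑' p : O × O, s2T2 O Φ (fun X => (β X : ℂ)) Q z z' x y Y h A.1 A'.1 (tS D) p)) -
      ∑ D ∈ PI (tr O) b₀, (mob (tr O) b₀ D : ℂ) *
        ∑ h ∈ Hs, (M0 : ℂ) * (co D h : ℂ) * sI h‖ ≤ Sm * (Cc * |C1|) * (Q ^ M)⁻¹ := by
    rw [← Finset.sum_sub_distrib]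
    refine (norm_sum_le _ _).trans ?_
    calc ∑ D ∈ PI (tr O) b₀, ‖(mob (tr O) b₀ D : ℂ) * (∑' h : O, (if h = 0 then (0 : ℂ) else
          ∑' p : O × O, s2T2 O Φ (fun X => (β X : ℂ)) Q z z' x y Y h A.1 A'.1 (tS D) p)) -
        (mob (tr O) b₀ D : ℂ) * ∑ h ∈ Hs, (M0 : ℂ) * (co D h : ℂ) * sI h‖
        ≤ ∑ D ∈ PI (tr O) b₀, |((mob (tr O) b₀ D : ℤ) : ℝ)| * (Cc * |C1| * (Q ^ M)⁻¹) := by
          refine Finset.sum_le_sum fun D hD' => ?_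
          rw [← mul_sub, norm_mul]
          have h4 : ‖((mob (tr O) b₀ D : ℤ) : ℂ)‖ = |((mob (tr O) b₀ D : ℤ) : ℝ)| := by
            rw [← Complex.ofReal_intCast, Complex.norm_real, Real.norm_eq_abs]
          rw [h4]
          exact mul_le_mul_of_nonneg_left (hstep D hD') (abs_nonneg _)
      _ = Sm * (Cc * |C1|) * (Q ^ M)⁻¹ := by
          rw [← Finset.sum_mul, ← hSm]
          ring
  rw [halg] at hfinal
  have hM0' : M0 = (covO O ^ 2)⁻¹ * (((N A : ℝ) * N A') ^ n)⁻¹ * Q ^ n *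
      Real.exp (-(n * u')) := by
    rw [hM0]
    congr 1
    rw [show n ^ 2 = n * n by ring, pow_mul, hzn', ← Real.exp_nat_mul, ← Real.exp_neg]
  rw [hM0'] at hfinal
  unfold SW PT
  rw [hτ, hsE]
  convert hfinal using 6


/-- no terms for `u + log Q` large -/
theorem SW_zero_pr (hn : 2 ≤ n) (hO : GLL.Ord O) {Φ : Mt n → ℂ} (hΦ : Tst Φ) {β : Mt n → ℝ}
    (hβ : Bt β) (R : ℝ) : ∃ C : ℝ, 0 < C ∧ ∀ (b₀ : ℕ) (Q u u' : ℝ), 1 ≤ Q → u ≤ u' →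
      C < u + Real.log Q → ∀ x ∈ K1 n R, ∀ y ∈ K1 n R, ∀ Y ∈ K1 n R, ∀ A A' : Idl O,
        SW b₀ β Φ Q u u' A A' x y Y = 0 := by
  classical
  obtain ⟨-, hΦc, -, -⟩ := Tst_rap hn hΦ
  obtain ⟨-, hβc, -, -⟩ := Tst_rap hn hβ.tst
  have hβd : ∃ c : ℝ, 0 < c ∧ ∀ H, (fun X => (β X : ℂ)) H ≠ 0 → c ≤ |H.det| := hβ.tst.det
  obtain ⟨CB, hCB0, -, -, hW0⟩ := N1_supp hn hΦc hβc hβd
  obtain ⟨Cc, hCc, hcnt⟩ := cnt hn hO R CB
  have hn0 : (n : ℝ) ≠ 0 := by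
    have : (0 : ℝ) < n := by exact_mod_cast (by omega : 0 < n)
    exact this.ne'
  have hnpos : (0 : ℝ) < n := by exact_mod_cast (by omega : 0 < n)
  refine ⟨max 1 (n * Real.log Cc), lt_of_lt_of_le one_pos (le_max_left _ _), ?_⟩
  intro b₀ Q u u' hQ huu hC x hx y hy Y hY A A'
  have hQ0 : 0 < Q := by linarith
  set z : ℝ := Real.exp (u / n) with hzdef
  set z' : ℝ := Real.exp (u' / n) with hz'def
  have hz : 0 < z := Real.exp_pos _
  have hzz : z ≤ z' := Real.exp_le_exp.2 (div_le_div_of_nonneg_right huu hnpos.le)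
  set s : ℝ := z * Q ^ (1 / (n : ℝ)) with hs
  have hs0 : 0 < s := by positivity
  have hsE : Real.exp ((u + Real.log Q) / n) = s := by
    rw [hs, hzdef, Real.rpow_def_of_pos hQ0, ← Real.exp_add]
    congr 1
    ring
  have hCs : Cc < s := by
    rw [← hsE, ← Real.log_lt_iff_lt_exp hCc, lt_div_iff₀ hnpos]
    have := (le_max_right 1 (n * Real.log Cc)).trans_lt hC
    linarith [mul_comm (Real.log Cc) (n : ℝ)]
  have hxd : x.det ≠ 0 := LAL94.ne_of_abs_one hx.1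
  have hyd : y.det ≠ 0 := LAL94.ne_of_abs_one hy.1
  have hYd : Y.det ≠ 0 := LAL94.ne_of_abs_one hY.1
  have hinv : (x⁻¹)⁻¹ = x := Matrix.nonsing_inv_nonsing_inv _ (isUnit_iff_ne_zero.mpr hxd)
  have hxid : (x⁻¹).det ≠ 0 := by
    rw [← abs_pos, LAL94.dinv, hx.1]
    norm_num
  obtain ⟨-, -, hemp⟩ := hcnt s hs0 x⁻¹ Y hxid hYd hx.2.2 (by rw [hinv]; exact hx.2.1)
    hY.2.1 hY.2.2
  have hemp' := hemp hCs
  unfold SW
  refine Finset.sum_eq_zero fun D _ => ?_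
  refine mul_eq_zero_of_right _ ?_
  refine (tsum_congr ?_).trans tsum_zero
  · intro h
    split_ifs with hh
    · rfl
    · have hdh : (h : Mt n).det ≠ 0 := fun h0 => hh (Subtype.ext (hO.div h h.2 h0))
      have : ∀ p : O × O, s2T2 O Φ (fun X => (β X : ℂ)) Q z z' x y Y h A.1 A'.1 (tS D) p = 0 := by
        intro p
        unfold s2T2
        split_ifs with h3
        · by_contra h4
          have h5 := hW0 Q z z' hQ0 hz hzz x y Y h hxd hyd hYd hdh _ _ h4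
          have h6 : h ∈ {a : O | a ≠ 0 ∧ nr (s • (x⁻¹ * (a : Mt n) * Y)) ≤ CB} := ⟨hh, h5⟩
          rw [hemp'] at h6
          exact h6
        · rfl
      exact (tsum_congr this).trans tsum_zero


end

end Pool.Agent.RZH

namespace Pool.Agent.RZH

theorem SW_main : type_of% @SW_main_pr := @SW_main_pr

theorem SW_zero : type_of% @SW_zero_pr := @SW_zero_pr

end Pool.Agent.RZH
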