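import Pool.Agent.Lib_helper16.GLL.XDefs
import Pool.Agent.Lib_helper32.LAL.SD2
import Pool.Agent.Lib_helper32.LAL.SDefs
import Pool.Agent.Lib_helper32.LALS.S_EX
import Pool.Agent.Lib_helper32.LALS.S_SA1
import Pool.Agent.Lib_helper32.LALS.S_SA3
import Pool.Agent.Lib_helper32.LALS.S_SB
import Pool.Agent.Lib_helper32.LALS.S_SE2
import Pool.Agent.Lib_helper32.LALS.S_SG2
import Pool.Agent.Lib_helper32.LALS.S_SG3
import Pool.Agent.Lib_helper41.RZGF.R_N1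
import Pool.Agent.Lib_helper41.RZGF.R_S3
import Pool.Agent.Lib_helper41.RZGF.R_S8a
import Pool.Agent.Lib_helper75.RZG.Defs
import Pool.Agent.Lib_helper94.LAL.S2D
import Pool.Agent.Lib_helper96.GLF.O_OA3
import Pool.Agent.Lib_helper96.GLF.X_XA
import Pool.Agent.Lib_helper96.GLL.Defs
import Pool.Agent.Lib_helper96.GLL.DefsB

/-!
# Project RZG, block S8b: the sums over the elements of `K`, for fixed `Y`
-/

set_option autoImplicit false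

namespace Pool.Agent.RZH

open MeasureTheory Matrix Complex Filter Topology Pool.Agent.GLL Pool.Agent.LAL
open scoped ENNReal ContDiff

noncomputable section

variable {n : ℕ} {O : Subring (Mt n)}

/-- the inner integral -/
def s8b_I (Φ : Mt n → ℂ) (τ : ℝ) (X : Mt n) : ℂ :=
  ∫ W : Mt n, Φ (X + τ • W) * (starRingEnd ℂ) (Φ W)

theorem s8b_s2J (Φ β : Mt n → ℂ) (τ : ℝ) (B : Mt n) :
    s2J Φ β τ B = ∫ H : Mt n, β H * s8b_I Φ τ (B * H) := rfl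

theorem s8b_in (hn : 2 ≤ n) {Φ : Mt n → ℂ} (hc : Continuous Φ) (hi : Integrable Φ) {C : ℝ}
    (hC : ∀ X, ‖Φ X‖ ≤ C) (τ : ℝ) :
    (∀ X : Mt n, Integrable fun W : Mt n => Φ (X + τ • W) * (starRingEnd ℂ) (Φ W)) ∧
    Continuous (s8b_I Φ τ) ∧ ∀ Z : Mt n, ‖s8b_I Φ τ Z‖ ≤ C * ∫ X : Mt n, ‖Φ X‖ := by
  have hm : ∀ Z : Mt n, AEStronglyMeasurable
      (fun X : Mt n => Φ (Z + τ • X) * (starRingEnd ℂ) (Φ X)) volume := fun Z =>
    sa3_aesm hn ((hc.comp (continuous_const.add (continuous_id.const_smul τ))).mul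
      (Complex.continuous_conj.comp hc))
  have hb : ∀ Z X : Mt n, ‖Φ (Z + τ • X) * (starRingEnd ℂ) (Φ X)‖ ≤ C * ‖Φ X‖ := fun Z X => by
    rw [norm_mul, RCLike.norm_conj]
    exact mul_le_mul_of_nonneg_right (hC _) (norm_nonneg _)
  refine ⟨fun X => Integrable.mono' (hi.norm.const_mul C) (hm X)
    (Eventually.of_forall (hb X)), ?_, ?_⟩
  · refine continuous_of_dominated (bound := fun X => C * ‖Φ X‖) hm
      (fun Z => Eventually.of_forall (hb Z)) (hi.norm.const_mul C)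
      (Eventually.of_forall fun X => ?_)
    exact (hc.comp (continuous_id.add continuous_const)).mul continuous_const
  · intro Z
    refine (norm_integral_le_of_norm_le (hi.norm.const_mul C) (Eventually.of_forall (hb Z))).trans
      ?_
    rw [integral_const_mul]

/-- facts on the cutoff -/
theorem s8b_beta (hn : 2 ≤ n) {β : Mt n → ℝ} (hβ : Bt β) :
    Continuous (fun X => (β X : ℂ)) ∧ HasCompactSupport (fun X => (β X : ℂ)) ∧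
    Integrable (fun X : Mt n => (β X : ℂ)) ∧ (∃ C : ℝ, ∀ X, (β X : ℂ) ≠ 0 → nr X ≤ C) ∧
    ∃ c : ℝ, 0 < c ∧ ∀ H, (β H : ℂ) ≠ 0 → c ≤ |H.det| := by
  obtain ⟨hr, hcs, hi, -⟩ := Tst_rap hn hβ.tst
  exact ⟨hr.cont, hcs, hi, hβ.tst.supp, hβ.tst.det⟩

/-- the bound of the double integral -/
theorem s8b_bd (hn : 2 ≤ n) {Φ : Mt n → ℂ} (hΦ : Tst Φ) {β : Mt n → ℝ} (hβ : Bt β) :
    ∃ C : ℝ, 0 < C ∧ ∀ (τ : ℝ) (B : Mt n), ‖s2J Φ (fun X => (β X : ℂ)) τ B‖ ≤ C := by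
  obtain ⟨hr, hcs, hi, C, hC⟩ := Tst_rap hn hΦ
  obtain ⟨hbc, hbs, hbi, -, -⟩ := s8b_beta hn hβ
  refine ⟨(∫ H : Mt n, ‖(β H : ℂ)‖) * (C * ∫ X : Mt n, ‖Φ X‖) + 1, ?_, fun τ B => ?_⟩
  · have h1 : 0 ≤ C := (norm_nonneg _).trans (hC 0)
    have h2 : 0 ≤ ∫ X : Mt n, ‖Φ X‖ := integral_nonneg fun _ => norm_nonneg _
    have h3 : 0 ≤ ∫ H : Mt n, ‖(β H : ℂ)‖ := integral_nonneg fun _ => norm_nonneg _
    positivity
  · rw [s8b_s2J]
    have hI := (s8b_in hn hr.cont hi hC τ).2.2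
    have h1 : ∀ H : Mt n, ‖(β H : ℂ) * s8b_I Φ τ (B * H)‖ ≤
        ‖(β H : ℂ)‖ * (C * ∫ X : Mt n, ‖Φ X‖) := fun H => by
      rw [norm_mul]
      exact mul_le_mul_of_nonneg_left (hI _) (norm_nonneg _)
    refine (norm_integral_le_of_norm_le (hbi.norm.mul_const _) (Eventually.of_forall h1)).trans ?_
    rw [integral_mul_const]
    linarith

/-- the data of the sums over `h` -/
theorem s8b_supp (hn : 2 ≤ n) {Φ : Mt n → ℂ} (hΦ : Tst Φ) {β : Mt n → ℝ} (hβ : Bt β) :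
    ∃ C : ℝ, 0 ≤ C ∧ (∀ (τ : ℝ) (B H W : Mt n), 0 ≤ τ → τ ≤ 1 →
        Φ (B * H + τ • W) * (starRingEnd ℂ) (Φ W) * (β H : ℂ) ≠ 0 → nr B ≤ C) ∧
      ∀ (τ : ℝ) (B : Mt n), 0 ≤ τ → τ ≤ 1 → s2J Φ (fun X => (β X : ℂ)) τ B ≠ 0 → nr B ≤ C := by
  obtain ⟨-, hcs, -, -⟩ := Tst_rap hn hΦ
  obtain ⟨-, hbs, -, -, hdet⟩ := s8b_beta hn hβ
  obtain ⟨C, hC0, h1, h2, -⟩ := N1_supp hn hcs hbs hdet
  exact ⟨C, hC0, h1, h2⟩

theorem s8b_ne {x : Mt n} (h : |x.det| = 1) : x.det ≠ 0 := by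
  intro h0
  rw [h0, abs_zero] at h
  exact zero_ne_one h

theorem PT_crude_pr (hn : 2 ≤ n) (hO : GLL.Ord O) {Φ : Mt n → ℂ} (hΦ : Tst Φ) {β : Mt n → ℝ}
    (hβ : Bt β) (b₀ : ℕ) (hb₀ : 0 < b₀) (R : ℝ) : ∃ C : ℝ, 0 < C ∧ ∀ J : Idl O,
      (b₀ : Mt n) ∈ J.1 → ∀ K : Idl O, ∀ τ s : ℝ, 0 ≤ τ → τ ≤ 1 → 0 < s →
      ∀ x ∈ K1 n R, ∀ Y ∈ K1 n R,
        ‖PT b₀ β Φ J K τ s x Y‖ ≤ C * ((s ^ n * N K) ^ n)⁻¹ ∧
        (C < s ^ n * N K → PT b₀ β Φ J K τ s x Y = 0) := by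
  classical
  have hn0 : (0 : ℝ) < n := by exact_mod_cast (by omega : 0 < n)
  obtain ⟨F, RF, hF⟩ := exFG hn hO
  obtain ⟨Cg, hCg0, hCg⟩ := gJ_bd hn hO b₀ b₀ hb₀ hb₀
  obtain ⟨C1, hC10, hC1⟩ := s8b_bd hn hΦ hβ
  obtain ⟨Cs, hCs0, -, hCs⟩ := s8b_supp hn hΦ hβ
  set R' : ℝ := max R RF with hR'
  obtain ⟨C2, hC20, hC2⟩ := cnt hn hO R' Cs
  refine ⟨Cg * C1 * C2 + C2 ^ n, by positivity, fun J hJ K τ s hτ hτ1 hs x hx Y hY => ?_⟩
  obtain ⟨x₁, ⟨hx1, hx1R, hx1R'⟩, g₁, hgp, hg0, hgJ, hred⟩ :=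
    red_K hn hO hF b₀ (fun h => gJ b₀ J h) (fun a c => gJ_per hn hO hb₀ J hJ a c) K x hx.1
  obtain ⟨-, -, hNK, -⟩ := GLL.IF_gen hn hO K
  have hNKR : (0 : ℝ) < N K := by exact_mod_cast hNK
  have hc0 : 0 < (N K : ℝ) ^ (1 / (n : ℝ)) := Real.rpow_pos_of_pos hNKR _
  set s' : ℝ := s * (N K : ℝ) ^ (1 / (n : ℝ)) with hs'
  have hs'0 : 0 < s' := mul_pos hs hc0
  have hs'n : s' ^ n = s ^ n * N K := by
    rw [hs', mul_pow, ← Real.rpow_natCast ((N K : ℝ) ^ (1 / (n : ℝ))) n, ← Real.rpow_mul hNKR.le,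
      one_div_mul_cancel hn0.ne', Real.rpow_one]
  have hx1ne : x₁.det ≠ 0 := s8b_ne hx1
  have hx1i : x₁⁻¹.det ≠ 0 := by
    rw [Matrix.det_nonsing_inv, Ring.inverse_eq_inv']
    exact inv_ne_zero hx1ne
  have hx1ii : (x₁⁻¹)⁻¹ = x₁ := Matrix.nonsing_inv_nonsing_inv _ (isUnit_iff_ne_zero.2 hx1ne)
  have hg : ∀ a, |g₁ a| ≤ Cg := by
    intro a
    obtain ⟨h, hh⟩ := hgJ a
    rw [hh]
    exact hCg J hJ h
  have hYne : Y.det ≠ 0 := s8b_ne hY.1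
  have hRR : R ≤ R' := le_max_left _ _
  have hRR' : RF ≤ R' := le_max_right _ _
  obtain ⟨hfin, hcard, hemp⟩ := hC2 s' hs'0 x₁⁻¹ Y hx1i hYne (hx1R'.trans hRR')
    (by rw [hx1ii]; exact hx1R.trans hRR') (hY.2.1.trans hRR) (hY.2.2.trans hRR)
  have hPT : PT b₀ β Φ J K τ s x Y = ∑' h : O, if h ≠ 0 then
      (g₁ h : ℂ) * s2J Φ (fun X => (β X : ℂ)) τ (s' • (x₁⁻¹ * h * Y)) else 0 := by
    rw [PT]
    exact hred (s2J Φ (fun X => (β X : ℂ)) τ) s Y hs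
  have hterm : ∀ (h : O), h ∉ {a : O | a ≠ 0 ∧ nr (s' • (x₁⁻¹ * (a : Mt n) * Y)) ≤ Cs} →
      (if h ≠ 0 then (g₁ h : ℂ) * s2J Φ (fun X => (β X : ℂ)) τ (s' • (x₁⁻¹ * h * Y)) else 0) =
        0 := by
    intro h hh
    by_cases h0 : h = 0
    · rw [if_neg (not_not.2 h0)]
    · rw [if_pos h0]
      by_contra h1
      exact hh ⟨h0, hCs τ _ hτ hτ1 (right_ne_zero_of_mul h1)⟩
  have hrp : s' ^ (-((n : ℝ) ^ 2)) = ((s ^ n * N K) ^ n)⁻¹ := by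
    rw [← hs'n, ← pow_mul, Real.rpow_neg hs'0.le]
    congr 1
    rw [← Real.rpow_natCast s' (n * n)]
    congr 1
    push_cast
    ring
  constructor
  · rw [hPT, tsum_eq_sum (s := hfin.toFinset) (fun h hh => hterm h (by
      rwa [Set.Finite.mem_toFinset] at hh))]
    refine (norm_sum_le _ _).trans ?_
    have h1 : ∀ h ∈ hfin.toFinset, ‖(if h ≠ 0 then (g₁ h : ℂ) *
        s2J Φ (fun X => (β X : ℂ)) τ (s' • (x₁⁻¹ * h * Y)) else 0)‖ ≤ Cg * C1 := by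
      intro h _
      split_ifs with h0
      · rw [norm_mul, Complex.norm_real, Real.norm_eq_abs]
        exact mul_le_mul (hg h) (hC1 _ _) (norm_nonneg _) hCg0.le
      · rw [norm_zero]
        positivity
    refine (Finset.sum_le_sum h1).trans ?_
    rw [Finset.sum_const, nsmul_eq_mul, mul_comm]
    have h2 : (Nat.card {a : O | a ≠ 0 ∧ nr (s' • (x₁⁻¹ * (a : Mt n) * Y)) ≤ Cs} : ℝ) =
        (hfin.toFinset.card : ℝ) := by
      rw [Nat.card_coe_set_eq, Set.ncard_eq_toFinset_card _ hfin]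
    rw [h2, hrp] at hcard
    have h4 : 0 ≤ ((s ^ n * N K) ^ n)⁻¹ := by positivity
    have h5 : 0 ≤ C2 ^ n * ((s ^ n * N K) ^ n)⁻¹ := by positivity
    calc Cg * C1 * (hfin.toFinset.card : ℝ) ≤ Cg * C1 * (C2 * ((s ^ n * N K) ^ n)⁻¹) :=
          mul_le_mul_of_nonneg_left hcard (by positivity)
      _ ≤ (Cg * C1 * C2 + C2 ^ n) * ((s ^ n * N K) ^ n)⁻¹ := by
        rw [add_mul]
        nlinarith
  · intro hlt
    have h1 : C2 < s' := by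
      have h2 : C2 ^ n < s' ^ n := by
        rw [hs'n]
        have : 0 ≤ Cg * C1 * C2 := by positivity
        linarith
      exact lt_of_pow_lt_pow_left₀ n hs'0.le h2
    rw [hPT]
    have h3 : ∀ h : O, (if h ≠ 0 then (g₁ h : ℂ) *
        s2J Φ (fun X => (β X : ℂ)) τ (s' • (x₁⁻¹ * h * Y)) else 0) = 0 := fun h =>
      hterm h (by rw [hemp h1]; exact Set.notMem_empty _)
    rw [tsum_congr h3, tsum_zero]

/-- the sum over all elements is small -/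
theorem s8b_pt (hn : 2 ≤ n) (hO : GLL.Ord O) {Φ : Mt n → ℂ} (hΦ : Tst Φ)
    (h0 : ∫ X : Mt n, Φ X = 0) {β : Mt n → ℝ} (hβ : Bt β) (b : ℕ) (hb : 0 < b) (R Cg : ℝ)
    (hCg : 0 < Cg) (K : ℕ) : ∃ C : ℝ, 0 ≤ C ∧ ∀ τ σ : ℝ, 0 ≤ τ → τ ≤ 1 → 0 < σ → σ ≤ 1 →
    ∀ x₁ ∈ K1 n R, ∀ Y ∈ K1 n R, ∀ g₁ : O → ℝ, (∀ a c : O, g₁ (a + (b : O) * c) = g₁ a) →
    (∀ a, |g₁ a| ≤ Cg) →
    ‖(∑' h : O, open scoped Classical in if h ≠ 0 then
        (g₁ h : ℂ) * s2J Φ (fun X => (β X : ℂ)) τ (σ • (x₁⁻¹ * h * Y)) else 0) +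
      (g₁ 0 : ℂ) * s2J Φ (fun X => (β X : ℂ)) τ 0‖ ≤ C * σ ^ K := by
  classical
  obtain ⟨hr, hcs, hi, CΦ, hCΦ⟩ := Tst_rap hn hΦ
  obtain ⟨hβc', hβs, hβi, ⟨Cβ, hCβ⟩, ε, hε, hεβ⟩ := s8b_beta hn hβ
  obtain ⟨Cs, hCs0, hCs1, hCs2⟩ := s8b_supp hn hΦ hβ
  obtain ⟨Ci, hCi0, hCi⟩ := sg3_inv n Cβ ε hε
  set R' : ℝ := max (max R (|R| * |Cβ|)) (|Ci| * |R|) with hR'
  obtain ⟨C1, hC1, hC1'⟩ := per_poisT hn hO hΦ.toSm b hb R' K
  set Bn : ℝ := ∫ H : Mt n, ‖(β H : ℂ)‖ with hBn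
  set Pn : ℝ := ∫ W : Mt n, ‖Φ W‖ with hPn
  have hBn0 : 0 ≤ Bn := integral_nonneg fun _ => norm_nonneg _
  have hPn0 : 0 ≤ Pn := integral_nonneg fun _ => norm_nonneg _
  refine ⟨Bn * (Pn * (Cg * C1)), by positivity,
    fun τ σ hτ hτ1 hσ hσ1 x₁ hx₁ Y hY g₁ hper hbd => ?_⟩
  obtain ⟨hx1, hx2, hx3⟩ := hx₁
  obtain ⟨hY1, hY2, hY3⟩ := hY
  have hx0 : x₁.det ≠ 0 := s8b_ne hx1
  have hY0 : Y.det ≠ 0 := s8b_ne hY1
  have hxi0 : (x₁⁻¹).det ≠ 0 := by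
    rw [Matrix.det_nonsing_inv, Ring.inverse_eq_inv']
    exact inv_ne_zero hx0
  have hxii : (x₁⁻¹)⁻¹ = x₁ := Matrix.nonsing_inv_nonsing_inv _ (isUnit_iff_ne_zero.2 hx0)
  -- the finite set
  obtain ⟨_, _, hcnt⟩ := cnt hn hO R Cs
  obtain ⟨hfin, -, -⟩ := hcnt σ hσ x₁⁻¹ Y hxi0 hY0 hx3 (by rw [hxii]; exact hx2) hY2 hY3
  set A : Finset O := insert 0 hfin.toFinset with hA
  have hmemA : ∀ a : O, a ∉ A → ¬ nr (σ • (x₁⁻¹ * (a : Mt n) * Y)) ≤ Cs := by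
    intro a ha h1
    apply ha
    rw [hA, Finset.mem_insert]
    by_cases ha0 : a = 0
    · exact Or.inl ha0
    right
    rw [Set.Finite.mem_toFinset]
    exact ⟨ha0, h1⟩
  have hz : ∀ a : O, a ∉ A → ∀ H W : Mt n, (β H : ℂ) ≠ 0 → Φ W ≠ 0 →
      Φ (σ • (x₁⁻¹ * a * Y) * H + τ • W) = 0 := by
    intro a ha H W hH hW
    by_contra hne
    exact hmemA a ha (hCs1 τ _ H W hτ hτ1
      (mul_ne_zero (mul_ne_zero hne ((map_ne_zero _).2 hW)) hH))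
  have hs0 : ∀ a : O, a ∉ A → s2J Φ (fun X => (β X : ℂ)) τ (σ • (x₁⁻¹ * a * Y)) = 0 := by
    intro a ha
    by_contra hne
    exact hmemA a ha (hCs2 τ _ hτ hτ1 hne)
  have h0A : (0 : O) ∈ A := Finset.mem_insert_self _ _
  have e1 : (∑' h : O, if h ≠ 0 then
        (g₁ h : ℂ) * s2J Φ (fun X => (β X : ℂ)) τ (σ • (x₁⁻¹ * h * Y)) else 0) +
      (g₁ 0 : ℂ) * s2J Φ (fun X => (β X : ℂ)) τ 0 =
      ∑ h ∈ A, (g₁ h : ℂ) * s2J Φ (fun X => (β X : ℂ)) τ (σ • (x₁⁻¹ * h * Y)) := by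
    rw [tsum_eq_sum (s := A) (fun h hh => by
      by_cases h' : h ≠ 0
      · rw [if_pos h', hs0 h hh, mul_zero]
      · rw [if_neg h'])]
    rw [← Finset.add_sum_erase A _ h0A, ← Finset.add_sum_erase A _ h0A]
    rw [if_neg (by simp)]
    have e2 : ∀ h ∈ A.erase 0, (if h ≠ 0 then
        (g₁ h : ℂ) * s2J Φ (fun X => (β X : ℂ)) τ (σ • (x₁⁻¹ * h * Y)) else 0) =
        (g₁ h : ℂ) * s2J Φ (fun X => (β X : ℂ)) τ (σ • (x₁⁻¹ * h * Y)) := by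
      intro h hh
      rw [if_pos (Finset.ne_of_mem_erase hh)]
    rw [Finset.sum_congr rfl e2]
    have e3 : σ • (x₁⁻¹ * ((0 : O) : Mt n) * Y) = 0 := by
      rw [ZeroMemClass.coe_zero, Matrix.mul_zero, Matrix.zero_mul, smul_zero]
    rw [e3]
    ring
  rw [e1]
  obtain ⟨hIi, hIc, -⟩ := s8b_in hn hr.cont hi hCΦ τ
  have hHint : ∀ B : Mt n, Integrable fun H : Mt n => (β H : ℂ) * s8b_I Φ τ (B * H) := by
    intro B
    have h1 : Continuous fun H : Mt n => (β H : ℂ) * s8b_I Φ τ (B * H) :=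
      hβc'.mul (hIc.comp (continuous_const.mul continuous_id))
    exact h1.integrable_of_hasCompactSupport (hβs.mul_right)
  have e2 : ∑ h ∈ A, (g₁ h : ℂ) * s2J Φ (fun X => (β X : ℂ)) τ (σ • (x₁⁻¹ * h * Y)) =
      ∫ H : Mt n, (β H : ℂ) * ∫ W : Mt n, (∑ h ∈ A, (g₁ h : ℂ) *
        Φ (σ • (x₁⁻¹ * h * Y) * H + τ • W)) * (starRingEnd ℂ) (Φ W) := by
    have e3 : ∀ H : Mt n, (β H : ℂ) * ∫ W : Mt n, (∑ h ∈ A, (g₁ h : ℂ) *
        Φ (σ • (x₁⁻¹ * h * Y) * H + τ • W)) * (starRingEnd ℂ) (Φ W) =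
        ∑ h ∈ A, (g₁ h : ℂ) * ((β H : ℂ) * s8b_I Φ τ (σ • (x₁⁻¹ * h * Y) * H)) := by
      intro H
      have e4 : ∀ W : Mt n, (∑ h ∈ A, (g₁ h : ℂ) *
          Φ (σ • (x₁⁻¹ * h * Y) * H + τ • W)) * (starRingEnd ℂ) (Φ W) =
          ∑ h ∈ A, (g₁ h : ℂ) * (Φ (σ • (x₁⁻¹ * h * Y) * H + τ • W) *
            (starRingEnd ℂ) (Φ W)) := by
        intro W
        rw [Finset.sum_mul]
        exact Finset.sum_congr rfl fun h _ => by ring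
      simp only [e4]
      rw [integral_finsetSum _ fun h _ => (hIi _).const_mul _, Finset.mul_sum]
      refine Finset.sum_congr rfl fun h _ => ?_
      rw [integral_const_mul]
      unfold s8b_I
      ring
    simp only [e3]
    rw [integral_finsetSum _ fun h _ => (hHint _).const_mul _]
    refine Finset.sum_congr rfl fun h _ => ?_
    rw [integral_const_mul, s8b_s2J]
  rw [e2]
  have hbound : ∀ H : Mt n, ‖(β H : ℂ) * ∫ W : Mt n, (∑ h ∈ A, (g₁ h : ℂ) *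
        Φ (σ • (x₁⁻¹ * h * Y) * H + τ • W)) * (starRingEnd ℂ) (Φ W)‖ ≤
      ‖(β H : ℂ)‖ * (Pn * (Cg * C1) * σ ^ K) := by
    intro H
    rw [norm_mul]
    by_cases hH : (β H : ℂ) = 0
    · rw [hH, norm_zero, zero_mul, zero_mul]
    refine mul_le_mul_of_nonneg_left ?_ (norm_nonneg _)
    have a1 := hCβ H hH
    have a2 := hεβ H hH
    have a3 := hCi H a1 a2
    have hHd : H.det ≠ 0 := by
      intro h'
      rw [h', abs_zero] at a2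
      linarith
    have hYH : (Y * H).det ≠ 0 := by
      rw [Matrix.det_mul]
      exact mul_ne_zero hY0 hHd
    have b1 : nr (Y * H) ≤ R' := by
      refine (X.nr_mul _ _).trans ((mul_le_mul (hY2.trans (le_abs_self R))
        (a1.trans (le_abs_self Cβ)) (X.nr_nonneg _) (abs_nonneg _)).trans ?_)
      exact (le_max_right _ _).trans (le_max_left _ _)
    have b2 : nr (Y * H)⁻¹ ≤ R' := by
      rw [sg3_mul_inv]
      refine (X.nr_mul _ _).trans ((mul_le_mul (a3.trans (le_abs_self Ci))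
        (hY3.trans (le_abs_self R)) (X.nr_nonneg _) (abs_nonneg _)).trans ?_)
      exact le_max_right _ _
    have hRR : R ≤ R' := (le_max_left _ _).trans (le_max_left _ _)
    have b3 : nr (x₁⁻¹)⁻¹ ≤ R' := by
      rw [hxii]
      exact hx2.trans hRR
    have hW : ∀ W : Mt n, ‖(∑ h ∈ A, (g₁ h : ℂ) *
        Φ (σ • (x₁⁻¹ * h * Y) * H + τ • W)) * (starRingEnd ℂ) (Φ W)‖ ≤
        (Cg * (C1 * σ ^ K)) * ‖Φ W‖ := by
      intro W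
      rw [norm_mul, RCLike.norm_conj]
      by_cases hW0 : Φ W = 0
      · rw [hW0, norm_zero, mul_zero, mul_zero]
      refine mul_le_mul_of_nonneg_right ?_ (norm_nonneg _)
      have b4 := hC1' σ hσ hσ1 x₁⁻¹ (Y * H) hxi0 hYH (hx3.trans hRR) b3 b1 b2 (τ • W)
        (fun a => g₁ a / Cg) (fun a c => by simp only [hper a c])
        (fun a => by
          rw [abs_div, abs_of_pos hCg, div_le_one hCg]
          exact hbd a)
      rw [h0, mul_zero, sub_zero] at b4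
      have b5 : (∑' h : O, ((g₁ h / Cg : ℝ) : ℂ) * Φ (σ • (x₁⁻¹ * h * (Y * H)) + τ • W)) =
          (Cg : ℂ)⁻¹ * ∑ h ∈ A, (g₁ h : ℂ) * Φ (σ • (x₁⁻¹ * h * Y) * H + τ • W) := by
        have c1 : ∀ h : O, σ • (x₁⁻¹ * (h : Mt n) * (Y * H)) = σ • (x₁⁻¹ * h * Y) * H := by
          intro h
          rw [Matrix.smul_mul, Matrix.mul_assoc (x₁⁻¹ * (h : Mt n)) Y H]
        simp only [c1]
        rw [tsum_eq_sum (s := A) (fun h hh => by rw [hz h hh H W hH hW0, mul_zero]),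
          Finset.mul_sum]
        apply Finset.sum_congr rfl
        intro h _
        push_cast
        ring
      rw [b5, norm_mul, norm_inv, Complex.norm_real, Real.norm_eq_abs, abs_of_pos hCg,
        inv_mul_le_iff₀ hCg] at b4
      exact b4
    refine (norm_integral_le_of_norm_le (hi.norm.const_mul _) (Eventually.of_forall hW)).trans ?_
    rw [integral_const_mul, ← hPn]
    exact le_of_eq (by ring)
  refine (norm_integral_le_of_norm_le (hβi.norm.mul_const _) (ae_of_all _ hbound)).trans ?_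
  rw [integral_mul_const, ← hBn]
  exact le_of_eq (by ring)

theorem PT_main_pr (hn : 2 ≤ n) (hO : GLL.Ord O) {Φ : Mt n → ℂ} (hΦ : Tst Φ)
    (h0 : ∫ X : Mt n, Φ X = 0) {β : Mt n → ℝ} (hβ : Bt β) (b₀ : ℕ) (hb₀ : 0 < b₀) (R : ℝ) :
    ∃ C : ℝ, 0 < C ∧ ∀ J : Idl O, (b₀ : Mt n) ∈ J.1 → ∀ K : Idl O, ∀ τ s : ℝ, 0 ≤ τ → τ ≤ 1 →
      0 < s → s ^ n * N K ≤ 1 → ∀ x ∈ K1 n R, ∀ Y ∈ K1 n R,
        ‖PT b₀ β Φ J K τ s x Y + ((rho O b₀ * (N J : ℝ) ^ n * (∫ H : Mt n, β H) : ℝ) : ℂ) *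
          ∫ W : Mt n, Φ (τ • W) * (starRingEnd ℂ) (Φ W)‖ ≤ C * (s ^ n * N K) := by
  classical
  obtain ⟨F, RF, hF⟩ := exFG hn hO
  obtain ⟨Cg, hCg, hCg'⟩ := gJ_bd hn hO b₀ b₀ hb₀ hb₀
  set R' : ℝ := max R RF with hR'
  have hRR : R ≤ R' := le_max_left _ _
  have hRR' : RF ≤ R' := le_max_right _ _
  obtain ⟨C1, hC1, hC1'⟩ := s8b_pt hn hO hΦ h0 hβ b₀ hb₀ R' Cg hCg n
  refine ⟨C1 + 1, by positivity, fun J hJ K τ s hτ hτ1 hs hsK x hx Y hY => ?_⟩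
  obtain ⟨x₁, ⟨hx1, hx1R, hx1R'⟩, g₁, hper, hg0, hg, hred⟩ :=
    red_K hn hO hF b₀ (fun h => gJ b₀ J h) (fun a c => gJ_per hn hO hb₀ J hJ a c) K x hx.1
  have hNK : 0 < (N K : ℝ) := by exact_mod_cast (GLL.IF_gen hn hO K).2.2.1
  have hn0 : (n : ℝ) ≠ 0 := by
    have : n ≠ 0 := by omega
    exact_mod_cast this
  set σ : ℝ := s * (N K : ℝ) ^ (1 / (n : ℝ)) with hσ
  have hσ0 : 0 < σ := by positivity
  have hσn : σ ^ n = s ^ n * N K := by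
    rw [hσ, mul_pow, ← Real.rpow_natCast ((N K : ℝ) ^ (1 / (n : ℝ))) n, ← Real.rpow_mul hNK.le,
      one_div_mul_cancel hn0, Real.rpow_one]
  have hσ1 : σ ≤ 1 := by
    by_contra h
    push Not at h
    have : 1 < σ ^ n := one_lt_pow₀ h (by omega)
    rw [hσn] at this
    linarith
  have hPT : PT b₀ β Φ J K τ s x Y = ∑' h : O, if h ≠ 0 then
      (g₁ h : ℂ) * s2J Φ (fun X => (β X : ℂ)) τ (σ • (x₁⁻¹ * h * Y)) else 0 := by
    rw [PT]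
    exact hred (s2J Φ (fun X => (β X : ℂ)) τ) s Y hs
  have h2 := hC1' τ σ hτ hτ1 hσ0 hσ1 x₁ ⟨hx1, hx1R.trans hRR', hx1R'.trans hRR'⟩ Y
    ⟨hY.1, hY.2.1.trans hRR, hY.2.2.trans hRR⟩ g₁ hper (fun a => by
      obtain ⟨h, hh⟩ := hg a
      rw [hh]
      exact hCg' J hJ h)
  have hs20 : s2J Φ (fun X => (β X : ℂ)) τ 0 =
      ((∫ H : Mt n, β H : ℝ) : ℂ) * ∫ W : Mt n, Φ (τ • W) * (starRingEnd ℂ) (Φ W) := by
    unfold s2J
    simp only [Matrix.zero_mul, zero_add]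
    rw [integral_mul_const, integral_complex_ofReal]
  rw [hPT]
  have e1 : ((rho O b₀ * (N J : ℝ) ^ n * (∫ H : Mt n, β H) : ℝ) : ℂ) *
          ∫ W : Mt n, Φ (τ • W) * (starRingEnd ℂ) (Φ W) =
      (g₁ 0 : ℂ) * s2J Φ (fun X => (β X : ℂ)) τ 0 := by
    rw [hs20, hg0, gJ_zero hn hO hb₀ J]
    push_cast
    ring
  rw [e1]
  refine h2.trans ?_
  rw [hσn]
  have h4 : 0 ≤ s ^ n * (N K : ℝ) := by positivity
  nlinarith [h4]


end

end Pool.Agent.RZH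

namespace Pool.Agent.RZH

theorem PT_crude : type_of% @PT_crude_pr := @PT_crude_pr

theorem PT_main : type_of% @PT_main_pr := @PT_main_pr

end Pool.Agent.RZH
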