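import Pool.Agent.Lib_helper32.LAL.SD2
import Pool.Agent.Lib_helper32.LAL.SDefs
import Pool.Agent.Lib_helper32.LALS.S_SH1
import Pool.Agent.Lib_helper32.LALS.S_SN
import Pool.Agent.Lib_helper41.RZGF.R_S5a
import Pool.Agent.Lib_helper41.RZGF.R_S5b
import Pool.Agent.Lib_helper41.RZGF.R_S6a
import Pool.Agent.Lib_helper41.RZGF.R_S6b
import Pool.Agent.Lib_helper41.RZGF.R_S7
import Pool.Agent.Lib_helper41.RZGF.R_S8b
import Pool.Agent.Lib_helper41.RZGF.R_S9a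
import Pool.Agent.Lib_helper41.RZGF.R_S9b
import Pool.Agent.Lib_helper42.GLM.Defs
import Pool.Agent.Lib_helper75.RZG.Defs
import Pool.Agent.Lib_helper96.GLF.O_OA3
import Pool.Agent.Lib_helper96.GLF.O_OI
import Pool.Agent.Lib_helper96.GLL.Defs
import Pool.Agent.Lib_helper96.GLL.DefsB

set_option autoImplicit false

namespace Pool.Agent.RZH

open MeasureTheory Matrix Complex Filter Topology Pool.Agent.GLL Pool.Agent.LAL
open scoped ENNReal ContDiff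

noncomputable section

variable {n : ℕ} {O : Subring (Mt n)}

theorem s9c_ee_nonneg (C₁ t : ℝ) : 0 ≤ ee C₁ t := by
  unfold ee
  split_ifs
  · exact (Real.exp_pos _).le
  · exact le_rfl

theorem s9c_ee_neg {C₁ t : ℝ} (h1 : 0 ≤ C₁) (ht : t ≤ 0) : ee C₁ t = Real.exp t := by
  unfold ee
  rw [if_pos (ht.trans h1), min_eq_left ht]

theorem s9c_ee_mono {C₁ C₂ : ℝ} (h : C₁ ≤ C₂) (t : ℝ) : ee C₁ t ≤ ee C₂ t := by
  unfold ee
  split_ifs with h1 h2 h2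
  · exact le_rfl
  · exact absurd (h1.trans h) h2
  · exact (Real.exp_pos _).le
  · exact le_rfl

theorem s9c_PT (hn : 2 ≤ n) (hO : GLL.Ord O) {Φ : Mt n → ℂ} (hΦ : Tst Φ)
    (h0 : ∫ X : Mt n, Φ X = 0) {β : Mt n → ℝ} (hβ : Bt β) (b₀ : ℕ) (hb₀ : 0 < b₀) (R : ℝ) :
    ∃ C C₁ : ℝ, 0 ≤ C ∧ 0 ≤ C₁ ∧ ∀ J : Idl O, (b₀ : Mt n) ∈ J.1 → ∀ K : Idl O,
      ∀ τ s t : ℝ, 0 ≤ τ → τ ≤ 1 → 0 < s → s ^ n * N K = Real.exp t →
      ∀ x ∈ K1 n R, ∀ Y ∈ K1 n R,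
      ‖PT b₀ β Φ J K τ s x Y + (if t ≤ 0 then
        ((rho O b₀ * (N J : ℝ) ^ n * (∫ H : Mt n, β H) : ℝ) : ℂ) *
          ∫ W : Mt n, Φ (τ • W) * (starRingEnd ℂ) (Φ W) else 0)‖ ≤ C * ee C₁ t := by
  obtain ⟨C1, hC1, h1⟩ := PT_crude hn hO hΦ hβ b₀ hb₀ R
  obtain ⟨C2, hC2, h2⟩ := PT_main hn hO hΦ h0 hβ b₀ hb₀ R
  refine ⟨max C1 C2, max 0 (Real.log C1), hC1.le.trans (le_max_left _ _), le_max_left _ _, ?_⟩
  intro J hJ K τ s t hτ hτ1 hs ht x hx Y hY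
  by_cases h : t ≤ 0
  · rw [if_pos h, s9c_ee_neg (le_max_left _ _) h]
    have h3 := h2 J hJ K τ s hτ hτ1 hs (by rw [ht]; exact Real.exp_le_one_iff.mpr h) x hx Y hY
    rw [ht] at h3
    exact h3.trans (mul_le_mul_of_nonneg_right (le_max_right _ _) (Real.exp_pos _).le)
  · rw [if_neg h, add_zero]
    push Not at h
    obtain ⟨h3, h4⟩ := h1 J hJ K τ s hτ hτ1 hs x hx Y hY
    rw [ht] at h3 h4
    by_cases h5 : t ≤ max 0 (Real.log C1)
    · have h6 : ee (max 0 (Real.log C1)) t = 1 := by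
        unfold ee
        rw [if_pos h5, min_eq_right h.le, Real.exp_zero]
      rw [h6, mul_one]
      refine h3.trans (le_trans ?_ (le_max_left _ _))
      have h7 : (1 : ℝ) ≤ Real.exp t ^ n := one_le_pow₀ (Real.one_le_exp h.le)
      calc C1 * (Real.exp t ^ n)⁻¹ ≤ C1 * 1 :=
            mul_le_mul_of_nonneg_left (inv_le_one_of_one_le₀ h7) hC1.le
        _ = C1 := mul_one _
    · push Not at h5
      have h6 : C1 < Real.exp t := by
        calc C1 = Real.exp (Real.log C1) := (Real.exp_log hC1).symm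
          _ < Real.exp t := Real.exp_lt_exp.mpr ((le_max_right _ _).trans_lt h5)
      rw [h4 h6, norm_zero]
      exact mul_nonneg (hC1.le.trans (le_max_left _ _)) (s9c_ee_nonneg _ _)

theorem s9c_Npos (hn : 2 ≤ n) (hO : GLL.Ord O) (I : Idl O) : (1 : ℝ) ≤ N I := by
  have h2 : 0 < N I := (IF_gen hn hO _).2.2.1
  exact_mod_cast h2

theorem s9c_sup_le (hn : 2 ≤ n) (hO : GLL.Ord O) (I I' K : Idl O) :
    supI I I' ≤ K ↔ I ≤ K ∧ I' ≤ K := by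
  have h1 := (IF_inf hn hO I I').2.1
  constructor
  · intro h
    have h2 : (supI I I').1 ≤ K.1 := h
    rw [h1] at h2
    exact ⟨le_sup_left.trans h2, le_sup_right.trans h2⟩
  · rintro ⟨h2, h3⟩
    show (supI I I').1 ≤ K.1
    rw [h1]
    exact sup_le h2 h3

/-- the sum over the ideals containing `b c`, real version -/
theorem s9c_sum_PI (hn : 2 ≤ n) (hO : GLL.Ord O) {b c : ℕ} (hb : 0 < b) (hc : 0 < c)
    (h : b.Coprime c) (f : Idl O → ℝ) :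
    ∑ A ∈ PI O (b * c), f A = ∑ I ∈ PI O b, ∑ J ∈ PI O c, f (infI I J) := by
  have h1 := sum_PI hn hO hb hc h (fun A => (f A : ℂ))
  exact_mod_cast h1

theorem s9c_AI_PI (hn : 2 ≤ n) (hO : GLL.Ord O) {b : ℕ} (hb : 0 < b) {J : Idl O}
    (hJ : J ∈ PI O b) (f : Idl O → ℝ) : ∑ K ∈ AI J, f K =
      ∑ K ∈ PI O b, (open scoped Classical in if J ≤ K then f K else 0) := by
  classical
  have h1 := AI_PI hn hO hb hJ (fun A => (f A : ℂ))
  have h2 : ∀ K : Idl O, (if J ≤ K then (f K : ℂ) else 0) = ((if J ≤ K then f K else 0 : ℝ) : ℂ) := by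
    intro K
    split_ifs <;> simp
  simp only [h2] at h1
  exact_mod_cast h1

theorem s9c_yK (hn : 2 ≤ n) (hO : GLL.Ord O) {b₀ b₂ : ℕ} (hb₀ : 0 < b₀) (hb₂ : 0 < b₂)
    (hc : b₀.Coprime b₂) (c : Idl O → ℝ) {K₀ K : Idl O} (hK₀ : K₀ ∈ PI O b₀)
    (hK : K ∈ PI O b₂) : yK (b₀ * b₂) c (infI K₀ K) =
      ∑ I ∈ PI O b₀, (open scoped Classical in if I ≤ K₀ then
        ((N I : ℝ) ^ n)⁻¹ * yI b₂ c I K else 0) := by
  classical
  unfold yK
  rw [s9c_sum_PI hn hO hb₀ hb₂ hc]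
  apply Finset.sum_congr rfl
  intro I hI
  by_cases h : I ≤ K₀
  · rw [if_pos h]
    unfold yI
    rw [Finset.mul_sum]
    apply Finset.sum_congr rfl
    intro J hJ
    have hf := PI_facts hn hO hb₀ hb₂ hc hI hK₀ hJ hK
    have h1 : (infI I J ≤ infI K₀ K) ↔ J ≤ K := by
      rw [hf.2.2.2.2.1]
      exact ⟨fun h => h.2, fun h' => ⟨h, h'⟩⟩
    have h2 : N (infI I J) = N I * N J := hf.2.2.2.1
    by_cases h3 : J ≤ K
    · rw [if_pos (h1.mpr h3), if_pos h3, h2]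
      push_cast
      rw [mul_pow, mul_inv]
      ring
    · rw [if_neg (fun h4 => h3 (h1.mp h4)), if_neg h3, mul_zero]
  · rw [if_neg h]
    apply Finset.sum_eq_zero
    intro J hJ
    have hf := PI_facts hn hO hb₀ hb₂ hc hI hK₀ hJ hK
    rw [if_neg]
    intro h1
    exact h (hf.2.2.2.2.1.mp h1).1

theorem s9c_sup_PI (hn : 2 ≤ n) (hO : GLL.Ord O) {b₀ : ℕ} (hb₀ : 0 < b₀) {I : Idl O}
    (hI : I ∈ PI O b₀) (I' : Idl O) : (b₀ : Mt n) ∈ (supI I I').1 := by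
  rw [(IF_inf hn hO I I').2.1]
  exact AddSubgroup.mem_sup_left ((mem_PI hn hO hb₀ I).mp hI)

/-- the double sum of the main terms -/
theorem s9c_M1 (hn : 2 ≤ n) (hO : GLL.Ord O) {b₀ b₂ : ℕ} (hb₀ : 0 < b₀) (hb₂ : 0 < b₂)
    (hc : b₀.Coprime b₂) (c : Idl O → ℝ) (p : Idl O → Prop) [DecidablePred p] :
    ∑ I ∈ PI O b₀, ∑ I' ∈ PI O b₀, (((N I : ℝ) * N I') ^ n)⁻¹ *
      (∑ K ∈ PI O b₂, (if p K then
        cs K * yI b₂ c I K * yI b₂ c I' K * (N (supI I I') : ℝ) ^ n else 0)) =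
    ∑ K₀ ∈ PI O b₀, ∑ K ∈ PI O b₂, (if p K then
      cs K₀ * cs K * yK (b₀ * b₂) c (infI K₀ K) ^ 2 else 0) := by
  classical
  have h1 : ∀ I ∈ PI O b₀, ∀ I' ∈ PI O b₀, (N (supI I I') : ℝ) ^ n =
      ∑ K₀ ∈ PI O b₀, (if I ≤ K₀ then 1 else 0) * (if I' ≤ K₀ then 1 else 0) * cs K₀ := by
    intro I hI I' hI'
    rw [← (cs_facts hn hO).1 (supI I I'), s9c_AI_PI hn hO hb₀
      ((mem_PI hn hO hb₀ _).mpr (s9c_sup_PI hn hO hb₀ hI I'))]
    apply Finset.sum_congr rfl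
    intro K₀ _
    by_cases h2 : I ≤ K₀ <;> by_cases h3 : I' ≤ K₀ <;>
      simp [s9c_sup_le hn hO I I' K₀, h2, h3]
  have h2 : ∀ I ∈ PI O b₀, ∀ I' ∈ PI O b₀, (((N I : ℝ) * N I') ^ n)⁻¹ *
      (∑ K ∈ PI O b₂, (if p K then
        cs K * yI b₂ c I K * yI b₂ c I' K * (N (supI I I') : ℝ) ^ n else 0)) =
      ∑ K₀ ∈ PI O b₀, ∑ K ∈ PI O b₂, (if p K then cs K₀ * cs K *
        ((if I ≤ K₀ then ((N I : ℝ) ^ n)⁻¹ * yI b₂ c I K else 0) *
         (if I' ≤ K₀ then ((N I' : ℝ) ^ n)⁻¹ * yI b₂ c I' K else 0)) else 0) := by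
    intro I hI I' hI'
    rw [Finset.sum_comm, Finset.mul_sum]
    apply Finset.sum_congr rfl
    intro K _
    by_cases hp : p K
    · simp only [if_pos hp]
      rw [h1 I hI I' hI', Finset.mul_sum, Finset.mul_sum]
      apply Finset.sum_congr rfl
      intro K₀ _
      rw [mul_pow, mul_inv]
      by_cases h2 : I ≤ K₀ <;> by_cases h3 : I' ≤ K₀
      · simp only [if_pos h2, if_pos h3]; ring
      · simp only [if_neg h3]; ring
      · simp only [if_neg h2]; ring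
      · simp only [if_neg h2]; ring
    · simp only [if_neg hp, mul_zero, Finset.sum_const_zero]
  have h3 : ∑ I ∈ PI O b₀, ∑ I' ∈ PI O b₀, (((N I : ℝ) * N I') ^ n)⁻¹ *
      (∑ K ∈ PI O b₂, (if p K then
        cs K * yI b₂ c I K * yI b₂ c I' K * (N (supI I I') : ℝ) ^ n else 0)) =
      ∑ I ∈ PI O b₀, ∑ I' ∈ PI O b₀, ∑ K₀ ∈ PI O b₀, ∑ K ∈ PI O b₂, (if p K then cs K₀ * cs K *
        ((if I ≤ K₀ then ((N I : ℝ) ^ n)⁻¹ * yI b₂ c I K else 0) *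
         (if I' ≤ K₀ then ((N I' : ℝ) ^ n)⁻¹ * yI b₂ c I' K else 0)) else 0) :=
    Finset.sum_congr rfl fun I hI => Finset.sum_congr rfl fun I' hI' => h2 I hI I' hI'
  rw [h3]
  have h4 : ∀ I ∈ PI O b₀, ∑ I' ∈ PI O b₀, ∑ K₀ ∈ PI O b₀, ∑ K ∈ PI O b₂,
      (if p K then cs K₀ * cs K *
        ((if I ≤ K₀ then ((N I : ℝ) ^ n)⁻¹ * yI b₂ c I K else 0) *
         (if I' ≤ K₀ then ((N I' : ℝ) ^ n)⁻¹ * yI b₂ c I' K else 0)) else 0) =
      ∑ K₀ ∈ PI O b₀, ∑ I' ∈ PI O b₀, ∑ K ∈ PI O b₂,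
      (if p K then cs K₀ * cs K *
        ((if I ≤ K₀ then ((N I : ℝ) ^ n)⁻¹ * yI b₂ c I K else 0) *
         (if I' ≤ K₀ then ((N I' : ℝ) ^ n)⁻¹ * yI b₂ c I' K else 0)) else 0) :=
    fun I _ => Finset.sum_comm
  rw [Finset.sum_congr rfl h4, Finset.sum_comm]
  apply Finset.sum_congr rfl
  intro K₀ hK₀
  have h5 : ∀ I ∈ PI O b₀, ∑ I' ∈ PI O b₀, ∑ K ∈ PI O b₂,
      (if p K then cs K₀ * cs K *
        ((if I ≤ K₀ then ((N I : ℝ) ^ n)⁻¹ * yI b₂ c I K else 0) *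
         (if I' ≤ K₀ then ((N I' : ℝ) ^ n)⁻¹ * yI b₂ c I' K else 0)) else 0) =
      ∑ K ∈ PI O b₂, ∑ I' ∈ PI O b₀,
      (if p K then cs K₀ * cs K *
        ((if I ≤ K₀ then ((N I : ℝ) ^ n)⁻¹ * yI b₂ c I K else 0) *
         (if I' ≤ K₀ then ((N I' : ℝ) ^ n)⁻¹ * yI b₂ c I' K else 0)) else 0) :=
    fun I _ => Finset.sum_comm
  rw [Finset.sum_congr rfl h5, Finset.sum_comm]
  apply Finset.sum_congr rfl
  intro K hK
  by_cases hp : p K
  · simp only [if_pos hp]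
    rw [s9c_yK hn hO hb₀ hb₂ hc c hK₀ hK, sq, Finset.sum_mul_sum, Finset.mul_sum]
    apply Finset.sum_congr rfl
    intro I _
    rw [Finset.mul_sum]
  · simp only [if_neg hp, Finset.sum_const_zero]

/-- the sum in the main term -/
theorem s9c_Mn (hn : 2 ≤ n) (hO : GLL.Ord O) {b₀ b₂ : ℕ} (hb₀ : 0 < b₀) (hb₂ : 0 < b₂)
    (hc : b₀.Coprime b₂) (c : Idl O → ℝ) (q : ℝ → Prop) [DecidablePred q] :
    (∑ K ∈ PI O (b₀ * b₂), (if q (Real.log (N K)) then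
        cs K * yK (b₀ * b₂) c K ^ 2 else 0)) =
    ∑ K₀ ∈ PI O b₀, ∑ K ∈ PI O b₂, (if q (Real.log (N K₀) + Real.log (N K)) then
      cs K₀ * cs K * yK (b₀ * b₂) c (infI K₀ K) ^ 2 else 0) := by
  rw [s9c_sum_PI hn hO hb₀ hb₂ hc]
  apply Finset.sum_congr rfl
  intro K₀ hK₀
  apply Finset.sum_congr rfl
  intro K hK
  have hf := PI_facts hn hO hb₀ hb₂ hc hK₀ hK₀ hK hK
  have h1 : Real.log (N (infI K₀ K)) = Real.log (N K₀) + Real.log (N K) := by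
    rw [hf.2.2.2.1]
    push_cast
    exact Real.log_mul (by have := s9c_Npos hn hO K₀; positivity)
      (by have := s9c_Npos hn hO K; positivity)
  rw [h1, (cs_facts hn hO).2.2.2.2 K₀ K hf.2.2.1]

theorem s9c_yK_sq (hn : 2 ≤ n) (hO : GLL.Ord O) {b₀ b₂ : ℕ} (hb₀ : 0 < b₀) (hb₂ : 0 < b₂)
    (hc : b₀.Coprime b₂) (c : Idl O → ℝ) {K₀ K : Idl O} (hK₀ : K₀ ∈ PI O b₀)
    (hK : K ∈ PI O b₂) : yK (b₀ * b₂) c (infI K₀ K) ^ 2 ≤
      (PI O b₀).card * ∑ I ∈ PI O b₀, yI b₂ c I K ^ 2 := by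
  classical
  rw [s9c_yK hn hO hb₀ hb₂ hc c hK₀ hK]
  refine (sq_sum_le_card_mul_sum_sq).trans ?_
  apply mul_le_mul_of_nonneg_left _ (Nat.cast_nonneg _)
  apply Finset.sum_le_sum
  intro I _
  split_ifs with h
  · rw [mul_pow]
    have h1 : ((N I : ℝ) ^ n)⁻¹ ≤ 1 := inv_le_one_of_one_le₀ (one_le_pow₀ (s9c_Npos hn hO I))
    have h2 : 0 ≤ ((N I : ℝ) ^ n)⁻¹ := by positivity
    calc ((N I : ℝ) ^ n)⁻¹ ^ 2 * yI b₂ c I K ^ 2 ≤ 1 * yI b₂ c I K ^ 2 :=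
          mul_le_mul_of_nonneg_right (pow_le_one₀ h2 h1) (sq_nonneg _)
      _ = yI b₂ c I K ^ 2 := one_mul _
  · rw [zero_pow two_ne_zero]
    exact sq_nonneg _

theorem s9c_diff (hn : 2 ≤ n) (hO : GLL.Ord O) {b₀ b₂ : ℕ} (hb₀ : 0 < b₀) (hb₂ : 0 < b₂)
    (hc : b₀.Coprime b₂) (c : Idl O → ℝ) {A CP C₁ : ℝ} (hC₁ : 0 ≤ C₁)
    (hCP : ∀ K₀ ∈ PI O b₀, Real.log (N K₀) ≤ CP) {u u' l : ℝ} (hu : u ≤ u')
    (hA : u' - u ≤ 2 * A) [DecidablePred fun x : ℝ => u ≤ -l - x ∧ u' ≤ -l - x]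
    [DecidablePred fun K : Idl O => u + l + Real.log (N K) ≤ 0] :
    |(∑ K₀ ∈ PI O b₀, ∑ K ∈ PI O b₂, (if u + l + Real.log (N K) ≤ 0 then
      cs K₀ * cs K * yK (b₀ * b₂) c (infI K₀ K) ^ 2 else 0)) -
      ∑ K₀ ∈ PI O b₀, ∑ K ∈ PI O b₂, (if u ≤ -l - (Real.log (N K₀) + Real.log (N K)) ∧
        u' ≤ -l - (Real.log (N K₀) + Real.log (N K)) then
      cs K₀ * cs K * yK (b₀ * b₂) c (infI K₀ K) ^ 2 else 0)| ≤
    (∑ K₀ ∈ PI O b₀, cs K₀) * (PI O b₀).card * Real.exp (CP + 2 * A) *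
      Er b₀ b₂ c C₁ (u + l) := by
  classical
  rw [← Finset.sum_sub_distrib]
  simp only [← Finset.sum_sub_distrib]
  have h1 : ∀ K₀ ∈ PI O b₀, ∀ K ∈ PI O b₂,
      |(if u + l + Real.log (N K) ≤ 0 then
      cs K₀ * cs K * yK (b₀ * b₂) c (infI K₀ K) ^ 2 else 0) -
      (if u ≤ -l - (Real.log (N K₀) + Real.log (N K)) ∧
        u' ≤ -l - (Real.log (N K₀) + Real.log (N K)) then
      cs K₀ * cs K * yK (b₀ * b₂) c (infI K₀ K) ^ 2 else 0)| ≤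
      cs K₀ * (PI O b₀).card * Real.exp (CP + 2 * A) *
        (cs K * ee C₁ (u + l + Real.log (N K)) * ∑ I ∈ PI O b₀, yI b₂ c I K ^ 2) := by
    intro K₀ hK₀ K hK
    have hcs₀ := cs_nonneg hn hO K₀
    have hcs := cs_nonneg hn hO K
    have hX0 : 0 ≤ cs K₀ * cs K * yK (b₀ * b₂) c (infI K₀ K) ^ 2 := by positivity
    have hS : 0 ≤ ∑ I ∈ PI O b₀, yI b₂ c I K ^ 2 := Finset.sum_nonneg fun I _ => sq_nonneg _
    have hR0 : 0 ≤ cs K₀ * (PI O b₀).card * Real.exp (CP + 2 * A) *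
        (cs K * ee C₁ (u + l + Real.log (N K)) * ∑ I ∈ PI O b₀, yI b₂ c I K ^ 2) := by
      have := s9c_ee_nonneg C₁ (u + l + Real.log (N K))
      positivity
    have hl0 : 0 ≤ Real.log (N K₀) := Real.log_nonneg (s9c_Npos hn hO K₀)
    by_cases ht : u + l + Real.log (N K) ≤ 0
    · rw [if_pos ht]
      by_cases hq : u ≤ -l - (Real.log (N K₀) + Real.log (N K)) ∧
        u' ≤ -l - (Real.log (N K₀) + Real.log (N K))
      · rw [if_pos hq, sub_self, abs_zero]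
        exact hR0
      · rw [if_neg hq, sub_zero, abs_of_nonneg hX0, s9c_ee_neg hC₁ ht]
        have h2 : -(CP + 2 * A) ≤ u + l + Real.log (N K) := by
          have h3 := hCP K₀ hK₀
          by_contra h4
          push Not at h4
          apply hq
          constructor <;> linarith
        have h5 : 1 ≤ Real.exp (CP + 2 * A) * Real.exp (u + l + Real.log (N K)) := by
          rw [← Real.exp_add]
          exact Real.one_le_exp (by linarith)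
        have h6 := s9c_yK_sq hn hO hb₀ hb₂ hc c hK₀ hK
        calc cs K₀ * cs K * yK (b₀ * b₂) c (infI K₀ K) ^ 2
            ≤ cs K₀ * cs K * ((PI O b₀).card * ∑ I ∈ PI O b₀, yI b₂ c I K ^ 2) :=
              mul_le_mul_of_nonneg_left h6 (by positivity)
          _ = (cs K₀ * cs K * ((PI O b₀).card * ∑ I ∈ PI O b₀, yI b₂ c I K ^ 2)) * 1 :=
              (mul_one _).symm
          _ ≤ (cs K₀ * cs K * ((PI O b₀).card * ∑ I ∈ PI O b₀, yI b₂ c I K ^ 2)) *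
              (Real.exp (CP + 2 * A) * Real.exp (u + l + Real.log (N K))) :=
              mul_le_mul_of_nonneg_left h5 (by positivity)
          _ = _ := by ring
    · rw [if_neg ht]
      by_cases hq : u ≤ -l - (Real.log (N K₀) + Real.log (N K)) ∧
        u' ≤ -l - (Real.log (N K₀) + Real.log (N K))
      · exfalso
        apply ht
        have := hq.1
        linarith
      · rw [if_neg hq, sub_zero, abs_zero]
        exact hR0
  refine (Finset.abs_sum_le_sum_abs _ _).trans ?_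
  have h2 : ∀ K₀ ∈ PI O b₀, |∑ K ∈ PI O b₂, ((if u + l + Real.log (N K) ≤ 0 then
      cs K₀ * cs K * yK (b₀ * b₂) c (infI K₀ K) ^ 2 else 0) -
      (if u ≤ -l - (Real.log (N K₀) + Real.log (N K)) ∧
        u' ≤ -l - (Real.log (N K₀) + Real.log (N K)) then
      cs K₀ * cs K * yK (b₀ * b₂) c (infI K₀ K) ^ 2 else 0))| ≤
      cs K₀ * ((PI O b₀).card * Real.exp (CP + 2 * A) * Er b₀ b₂ c C₁ (u + l)) := by
    intro K₀ hK₀
    refine (Finset.abs_sum_le_sum_abs _ _).trans ((Finset.sum_le_sum (h1 K₀ hK₀)).trans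
      (le_of_eq ?_))
    rw [← Finset.mul_sum]
    unfold Er
    rw [Finset.sum_comm]
    have h3 : ∀ K ∈ PI O b₂, cs K * ee C₁ (u + l + Real.log (N K)) *
        ∑ I ∈ PI O b₀, yI b₂ c I K ^ 2 =
        ∑ I ∈ PI O b₀, cs K * yI b₂ c I K ^ 2 * ee C₁ (u + l + Real.log (N K)) := by
      intro K _
      rw [Finset.mul_sum]
      apply Finset.sum_congr rfl
      intro I _
      ring
    rw [Finset.sum_congr rfl h3]
    ring
  refine (Finset.sum_le_sum h2).trans (le_of_eq ?_)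
  rw [← Finset.sum_mul]
  ring

theorem s9c_rem (hn : 2 ≤ n) (hO : GLL.Ord O) {b₀ b₂ : ℕ} (c : Idl O → ℝ) {C C₁ v : ℝ}
    (hC : 0 ≤ C) (R : Idl O → Idl O → Idl O → ℂ)
    (hR : ∀ I ∈ PI O b₀, ∀ I' ∈ PI O b₀, ∀ K ∈ PI O b₂, ‖R I I' K‖ ≤
      C * ee C₁ (v + Real.log (N K))) :
    ‖∑ I ∈ PI O b₀, ∑ I' ∈ PI O b₀, (((((N I : ℝ) * N I') ^ n)⁻¹ : ℝ) : ℂ) *
      ∑ K ∈ PI O b₂, ((cs K * yI b₂ c I K * yI b₂ c I' K : ℝ) : ℂ) * R I I' K‖ ≤
      C * (PI O b₀).card * Er b₀ b₂ c C₁ v := by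
  have h1 : ∀ I ∈ PI O b₀, ∀ I' ∈ PI O b₀, ‖(((((N I : ℝ) * N I') ^ n)⁻¹ : ℝ) : ℂ) *
      ∑ K ∈ PI O b₂, ((cs K * yI b₂ c I K * yI b₂ c I' K : ℝ) : ℂ) * R I I' K‖ ≤
      C * ((∑ K ∈ PI O b₂, cs K * yI b₂ c I K ^ 2 * ee C₁ (v + Real.log (N K))) +
        ∑ K ∈ PI O b₂, cs K * yI b₂ c I' K ^ 2 * ee C₁ (v + Real.log (N K))) / 2 := by
    intro I hI I' hI'
    rw [norm_mul, Complex.norm_real, Real.norm_eq_abs]
    have h2 : |(((N I : ℝ) * N I') ^ n)⁻¹| ≤ 1 := by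
      rw [abs_of_nonneg (by positivity)]
      exact inv_le_one_of_one_le₀ (one_le_pow₀ (by
        have := s9c_Npos hn hO I
        have := s9c_Npos hn hO I'
        nlinarith))
    have h3 : ‖∑ K ∈ PI O b₂, ((cs K * yI b₂ c I K * yI b₂ c I' K : ℝ) : ℂ) * R I I' K‖ ≤
        C * ((∑ K ∈ PI O b₂, cs K * yI b₂ c I K ^ 2 * ee C₁ (v + Real.log (N K))) +
        ∑ K ∈ PI O b₂, cs K * yI b₂ c I' K ^ 2 * ee C₁ (v + Real.log (N K))) / 2 := by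
      rw [← Finset.sum_add_distrib, Finset.mul_sum, Finset.sum_div]
      refine norm_sum_le_of_le _ fun K hK => ?_
      rw [norm_mul, Complex.norm_real, Real.norm_eq_abs, abs_mul, abs_mul,
        abs_of_nonneg (cs_nonneg hn hO K)]
      have h4 := hR I hI I' hI' K hK
      have h5 := cs_nonneg hn hO K
      have h6 := s9c_ee_nonneg C₁ (v + Real.log (N K))
      have h7 : |yI b₂ c I K| * |yI b₂ c I' K| ≤ (yI b₂ c I K ^ 2 + yI b₂ c I' K ^ 2) / 2 := by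
        have := sq_nonneg (|yI b₂ c I K| - |yI b₂ c I' K|)
        have e1 := sq_abs (yI b₂ c I K)
        have e2 := sq_abs (yI b₂ c I' K)
        nlinarith
      calc cs K * |yI b₂ c I K| * |yI b₂ c I' K| * ‖R I I' K‖
          ≤ cs K * |yI b₂ c I K| * |yI b₂ c I' K| * (C * ee C₁ (v + Real.log (N K))) :=
            mul_le_mul_of_nonneg_left h4 (by positivity)
        _ = (cs K * C * ee C₁ (v + Real.log (N K))) * (|yI b₂ c I K| * |yI b₂ c I' K|) := by ring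
        _ ≤ (cs K * C * ee C₁ (v + Real.log (N K))) *
            ((yI b₂ c I K ^ 2 + yI b₂ c I' K ^ 2) / 2) :=
            mul_le_mul_of_nonneg_left h7 (by positivity)
        _ = _ := by ring
    calc |(((N I : ℝ) * N I') ^ n)⁻¹| *
        ‖∑ K ∈ PI O b₂, ((cs K * yI b₂ c I K * yI b₂ c I' K : ℝ) : ℂ) * R I I' K‖
        ≤ 1 * ‖∑ K ∈ PI O b₂, ((cs K * yI b₂ c I K * yI b₂ c I' K : ℝ) : ℂ) * R I I' K‖ :=
          mul_le_mul_of_nonneg_right h2 (norm_nonneg _)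
      _ ≤ _ := by rw [one_mul]; exact h3
  refine (norm_sum_le_of_le _ fun I hI => norm_sum_le_of_le _ (h1 I hI)).trans (le_of_eq ?_)
  have h8 : ∀ I ∈ PI O b₀, ∑ I' ∈ PI O b₀,
      C * ((∑ K ∈ PI O b₂, cs K * yI b₂ c I K ^ 2 * ee C₁ (v + Real.log (N K))) +
        ∑ K ∈ PI O b₂, cs K * yI b₂ c I' K ^ 2 * ee C₁ (v + Real.log (N K))) / 2 =
      C * ((PI O b₀).card *
        (∑ K ∈ PI O b₂, cs K * yI b₂ c I K ^ 2 * ee C₁ (v + Real.log (N K))) +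
        Er b₀ b₂ c C₁ v) / 2 := by
    intro I _
    rw [← Finset.sum_div, ← Finset.mul_sum, Finset.sum_add_distrib, Finset.sum_const,
      nsmul_eq_mul]
    rfl
  rw [Finset.sum_congr rfl h8, ← Finset.sum_div, ← Finset.mul_sum, Finset.sum_add_distrib,
    Finset.sum_const, ← Finset.mul_sum, nsmul_eq_mul]
  unfold Er
  ring

theorem near_pr (hn : 2 ≤ n) (hO : GLL.Ord O) {k : Mt n → ℂ} (hk : Sph2 k) {φ : ℝ → ℂ} {A : ℝ}
    (hφ : TF φ A) (h0 : ∫ X : Mt n, Phi φ k X = 0) {β : Mt n → ℝ} (hβ : Bt β) (b₀ : ℕ)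
    (hb₀ : 0 < b₀) (R A₁ : ℝ) {θ θ1 : ℝ} (hθ0 : 0 ≤ θ) (hθ1 : 0 ≤ θ1) (hθ : θ + θ1 < 1) :
    ∃ C C₁ Q0 : ℝ, 0 ≤ C ∧ 0 ≤ C₁ ∧ 1 ≤ Q0 ∧
      ∀ Q u u' : ℝ, Q0 ≤ Q → u ≤ u' → u' - u ≤ θ1 * Real.log Q → -(2 * Real.log Q) ≤ u →
      u' ≤ A₁ → ∀ b₂ : ℕ, 0 < b₂ → b₀.Coprime b₂ → ∀ c : Idl O → ℝ,
      CO O (b₀ * b₂) (Q ^ θ) c → ∀ x ∈ K1 n R, ∀ y ∈ K1 n R, ∀ Y ∈ K1 n R,
        ‖Gt b₀ (b₀ * b₂) β (Phi φ k) c Q u u' x y Y + Mn b₀ (b₀ * b₂) β k φ c Q u u'‖ ≤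
          C * Q ^ n * Real.exp (-(n * u')) * (Er b₀ b₂ c C₁ (u + Real.log Q) + Q⁻¹) ∧
        (C₁ < u + Real.log Q → Gt b₀ (b₀ * b₂) β (Phi φ k) c Q u u' x y Y = 0) := by
  have hcs : HasCompactSupport φ := by
    refine HasCompactSupport.intro (isCompact_Icc : IsCompact (Set.Icc (-A) A)) ?_
    intro v hv
    by_contra h
    exact hv (abs_le.mp (hφ.supp v h))
  have hΦ : Tst (Phi φ k) := IF_TstPhi hn k hk φ hφ.smooth hcs
  obtain ⟨Cp, C₁p, hCp, hC₁p, hPT⟩ := s9c_PT hn hO hΦ h0 hβ b₀ hb₀ R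
  obtain ⟨Cg, Q0, hCg, hQ0, hg⟩ := Gt_near0 hn hO hΦ hβ b₀ hb₀ R hθ0 hθ1 hθ 0
  obtain ⟨Cz, hCz, hz⟩ := SW_zero hn hO hΦ hβ R
  obtain ⟨Cφ, hCφ, hφb⟩ := (Phc_facts hφ).2.2.1
  have hφz := (Phc_facts hφ).2.1
  have hn0 : (n : ℝ) ≠ 0 := by
    have : 0 < n := by omega
    positivity
  set CP : ℝ := Real.log ((b₀ : ℝ) ^ n) with hCPdef
  have hCP : ∀ K₀ ∈ PI O b₀, Real.log (N K₀) ≤ CP := by
    intro K₀ hK₀
    apply Real.log_le_log (by have := s9c_Npos hn hO K₀; positivity)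
    exact_mod_cast sh1_norm hn hO hb₀ K₀ ((mem_PI hn hO hb₀ K₀).mp hK₀)
  set cc : ℝ := |(covO O ^ 2)⁻¹| with hcc
  set G0 : ℝ := cc * |rho O b₀| * |∫ H : Mt n, β H| * |k2 k| with hG0
  set cd : ℝ := ((PI O b₀).card : ℝ) with hcd
  set CS : ℝ := ∑ K₀ ∈ PI O b₀, cs K₀ with hCS
  have hCS0 : 0 ≤ CS := Finset.sum_nonneg fun K _ => cs_nonneg hn hO K
  have hcd0 : 0 ≤ cd := Nat.cast_nonneg _
  have hcc0 : 0 ≤ cc := abs_nonneg _
  have hG00 : 0 ≤ G0 := by positivity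
  set E1 : ℝ := cc * Cp * cd with hE1
  set E2 : ℝ := G0 * Cφ * Real.exp (((n : ℝ) - 1) * A) * (CS * cd * Real.exp (CP + 2 * A))
    with hE2
  set E3 : ℝ := Cg * Real.exp (n * A₁) with hE3
  have hE10 : 0 ≤ E1 := by positivity
  have hE20 : 0 ≤ E2 := by positivity
  have hE30 : 0 ≤ E3 := by positivity
  refine ⟨E1 + E2 + E3, max C₁p Cz, Q0, by positivity, hC₁p.trans (le_max_left _ _), hQ0, ?_⟩
  intro Q u u' hQ huu hnear hu2 hA₁ b₂ hb₂ hcop c hc x hx y hy Y hY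
  have hQ1 : 1 ≤ Q := hQ0.trans hQ
  have hQpos : 0 < Q := by linarith
  refine ⟨?_, ?_⟩
  swap
  · intro hlt
    unfold Gt
    apply Finset.sum_eq_zero
    intro A' _
    apply Finset.sum_eq_zero
    intro A'' _
    rw [hz b₀ Q u u' hQ1 huu ((le_max_right _ _).trans_lt hlt) x hx y hy Y hY A' A'', mul_zero]
  set C₁ : ℝ := max C₁p Cz with hC₁
  have hC₁0 : 0 ≤ C₁ := hC₁p.trans (le_max_left _ _)
  set ER : ℝ := Er b₀ b₂ c C₁ (u + Real.log Q) with hER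
  have hER0 : 0 ≤ ER := by
    rw [hER]
    unfold Er
    refine Finset.sum_nonneg fun I _ => Finset.sum_nonneg fun K _ => ?_
    have h1 := cs_nonneg hn hO K
    have h2 := s9c_ee_nonneg C₁ (u + Real.log Q + Real.log (N K))
    positivity
  set B : ℝ := Q ^ n * Real.exp (-(n * u')) with hB
  have hB0 : 0 < B := by positivity
  have h1 := hg Q u u' hQ huu hnear hu2 b₂ hb₂ hcop c hc x hx y hy Y hY
  rw [pow_zero, inv_one, mul_one] at h1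
  set τ : ℝ := Real.exp ((u - u') / n) with hτ
  set s : ℝ := Real.exp ((u + Real.log Q) / n) with hs
  have hsn : s ^ n = Real.exp (u + Real.log Q) := by
    rw [hs, ← Real.exp_nat_mul]
    congr 1
    field_simp
  have hτ0 : 0 ≤ τ := (Real.exp_pos _).le
  have hτ1 : τ ≤ 1 := by
    rw [hτ]
    apply Real.exp_le_one_iff.mpr
    apply div_nonpos_of_nonpos_of_nonneg (by linarith) (Nat.cast_nonneg _)
  have hst : ∀ K : Idl O, s ^ n * N K = Real.exp (u + Real.log Q + Real.log (N K)) := by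
    intro K
    have hNK := s9c_Npos hn hO K
    rw [hsn, Real.exp_add (u + Real.log Q), Real.exp_log (by linarith)]
  set P2 : ℂ := ∫ W : Mt n, Phi φ k (τ • W) * (starRingEnd ℂ) (Phi φ k W) with hP2
  have hP2' : P2 = ((k2 k * Real.exp (-(((n : ℝ) - 1) / 2 * (u - u'))) * Real.exp u' : ℝ) : ℂ) *
      Phc φ u u' := Phi_tau hn hk hφ u u'
  set RR : Idl O → Idl O → Idl O → ℂ := fun I I' K =>
    PT b₀ β (Phi φ k) (supI I I') K τ s x Y + (if u + Real.log Q + Real.log (N K) ≤ 0 then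
        ((rho O b₀ * (N (supI I I') : ℝ) ^ n * (∫ H : Mt n, β H) : ℝ) : ℂ) * P2 else 0) with hRR
  have hRRb : ∀ I ∈ PI O b₀, ∀ I' ∈ PI O b₀, ∀ K ∈ PI O b₂, ‖RR I I' K‖ ≤
      Cp * ee C₁ (u + Real.log Q + Real.log (N K)) := by
    intro I hI I' hI' K hK
    have h2 := hPT (supI I I') (s9c_sup_PI hn hO hb₀ hI I') K τ s
      (u + Real.log Q + Real.log (N K)) hτ0 hτ1 (Real.exp_pos _) (hst K) x hx Y hY
    exact h2.trans (mul_le_mul_of_nonneg_left (s9c_ee_mono (le_max_left _ _) _) hCp)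
  have hrem := s9c_rem hn hO (b₀ := b₀) (b₂ := b₂) c hCp RR hRRb
  set SR : ℂ := ∑ I ∈ PI O b₀, ∑ I' ∈ PI O b₀, (((((N I : ℝ) * N I') ^ n)⁻¹ : ℝ) : ℂ) *
      ∑ K ∈ PI O b₂, ((cs K * yI b₂ c I K * yI b₂ c I' K : ℝ) : ℂ) * RR I I' K with hSR
  set SP : ℂ := ∑ I ∈ PI O b₀, ∑ I' ∈ PI O b₀, (((((N I : ℝ) * N I') ^ n)⁻¹ : ℝ) : ℂ) *
      ∑ K ∈ PI O b₂, ((cs K * yI b₂ c I K * yI b₂ c I' K : ℝ) : ℂ) *
        PT b₀ β (Phi φ k) (supI I I') K τ s x Y with hSP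
  set M1 : ℝ := ∑ I ∈ PI O b₀, ∑ I' ∈ PI O b₀, (((N I : ℝ) * N I') ^ n)⁻¹ *
      (∑ K ∈ PI O b₂, (if u + Real.log Q + Real.log (N K) ≤ 0 then
        cs K * yI b₂ c I K * yI b₂ c I' K * (N (supI I I') : ℝ) ^ n else 0)) with hM1
  have hsplit : SP = SR - (M1 : ℂ) * (((rho O b₀ * (∫ H : Mt n, β H) : ℝ) : ℂ) * P2) := by
    rw [hSP, hSR, hM1]
    push_cast
    rw [Finset.sum_mul, ← Finset.sum_sub_distrib]
    apply Finset.sum_congr rfl
    intro I _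
    rw [Finset.sum_mul, ← Finset.sum_sub_distrib]
    apply Finset.sum_congr rfl
    intro I' _
    rw [mul_assoc, ← mul_sub]
    congr 1
    rw [Finset.sum_mul, ← Finset.sum_sub_distrib]
    apply Finset.sum_congr rfl
    intro K _
    rw [hRR]
    by_cases hp : u + Real.log Q + Real.log (N K) ≤ 0
    · simp only [if_pos hp]
      push_cast
      ring
    · simp only [if_neg hp]
      push_cast
      ring
  set M2 : ℝ := ∑ K₀ ∈ PI O b₀, ∑ K ∈ PI O b₂,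
      (if u ≤ -Real.log Q - (Real.log (N K₀) + Real.log (N K)) ∧
        u' ≤ -Real.log Q - (Real.log (N K₀) + Real.log (N K)) then
      cs K₀ * cs K * yK (b₀ * b₂) c (infI K₀ K) ^ 2 else 0) with hM2
  have hMn : Mn b₀ (b₀ * b₂) β k φ c Q u u' = (((covO O ^ 2)⁻¹ * Q ^ n * rho O b₀ *
      (∫ H : Mt n, β H) * k2 k * Real.exp (-(((n : ℝ) - 1) / 2 * (u + u'))) * M2 : ℝ) : ℂ) *
        Phc φ u u' := by
    unfold Mn
    have h2 := s9c_Mn hn hO hb₀ hb₂ hcop c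
      (fun x : ℝ => u ≤ -Real.log Q - x ∧ u' ≤ -Real.log Q - x)
    rw [← h2] at hM2
    rw [hM2]
  set g : ℝ := (covO O ^ 2)⁻¹ * Q ^ n * rho O b₀ *
      (∫ H : Mt n, β H) * k2 k * Real.exp (-(((n : ℝ) - 1) / 2 * (u + u'))) with hgdef
  have hexp : Real.exp (-(n * u')) * (Real.exp (-(((n : ℝ) - 1) / 2 * (u - u'))) * Real.exp u') =
      Real.exp (-(((n : ℝ) - 1) / 2 * (u + u'))) := by
    rw [← Real.exp_add, ← Real.exp_add]
    congr 1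
    ring
  have hmain : Gt b₀ (b₀ * b₂) β (Phi φ k) c Q u u' x y Y + Mn b₀ (b₀ * b₂) β k φ c Q u u' =
      (Gt b₀ (b₀ * b₂) β (Phi φ k) c Q u u' x y Y -
        (((covO O ^ 2)⁻¹ * Q ^ n * Real.exp (-(n * u')) : ℝ) : ℂ) * SP) +
      (((covO O ^ 2)⁻¹ * Q ^ n * Real.exp (-(n * u')) : ℝ) : ℂ) * SR +
      ((g * (M2 - M1) : ℝ) : ℂ) * Phc φ u u' := by
    rw [hMn, hsplit, hP2', hgdef, ← hexp]
    push_cast
    ring
  rw [hmain]
  have hT1 : ‖Gt b₀ (b₀ * b₂) β (Phi φ k) c Q u u' x y Y -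
        (((covO O ^ 2)⁻¹ * Q ^ n * Real.exp (-(n * u')) : ℝ) : ℂ) * SP‖ ≤ E3 * B * Q⁻¹ := by
    refine h1.trans ?_
    have h3 : Real.exp (n * A₁) * Real.exp (-(n * u')) ≥ 1 := by
      rw [← Real.exp_add]
      apply Real.one_le_exp
      have : (n : ℝ) * u' ≤ n * A₁ := mul_le_mul_of_nonneg_left hA₁ (Nat.cast_nonneg _)
      linarith
    have h4 : 1 ≤ Q ^ n * Q⁻¹ := by
      have h5 : Q ≤ Q ^ n := le_self_pow₀ hQ1 (by omega)
      rw [← div_eq_mul_inv, one_le_div hQpos]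
      exact h5
    have h6 : 1 ≤ (Real.exp (n * A₁) * Real.exp (-(n * u'))) * (Q ^ n * Q⁻¹) := by
      nlinarith
    calc Cg = Cg * 1 := (mul_one _).symm
      _ ≤ Cg * ((Real.exp (n * A₁) * Real.exp (-(n * u'))) * (Q ^ n * Q⁻¹)) :=
        mul_le_mul_of_nonneg_left h6 hCg
      _ = E3 * B * Q⁻¹ := by rw [hE3, hB]; ring
  have hT2 : ‖(((covO O ^ 2)⁻¹ * Q ^ n * Real.exp (-(n * u')) : ℝ) : ℂ) * SR‖ ≤ E1 * B * ER := by
    rw [norm_mul, Complex.norm_real, Real.norm_eq_abs, abs_mul, abs_mul,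
      abs_of_pos (pow_pos hQpos n), abs_of_pos (Real.exp_pos _), ← hcc]
    calc cc * Q ^ n * Real.exp (-(n * u')) * ‖SR‖
        ≤ cc * Q ^ n * Real.exp (-(n * u')) * (Cp * cd * ER) :=
          mul_le_mul_of_nonneg_left hrem (by positivity)
      _ = E1 * B * ER := by rw [hE1, hB]; ring
  have hT3 : ‖((g * (M2 - M1) : ℝ) : ℂ) * Phc φ u u'‖ ≤ E2 * B * ER := by
    by_cases hPz : 2 * A < |u - u'|
    · rw [hφz u u' hPz, mul_zero, norm_zero]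
      positivity
    · push Not at hPz
      have hA : u' - u ≤ 2 * A := by
        rw [abs_sub_comm, abs_of_nonneg (by linarith)] at hPz
        exact hPz
      have h3 := s9c_diff hn hO hb₀ hb₂ hcop c hC₁0 hCP huu hA (l := Real.log Q)
      rw [← s9c_M1 hn hO hb₀ hb₂ hcop c (fun K => u + Real.log Q + Real.log (N K) ≤ 0)] at h3
      have h4 : |M2 - M1| ≤ CS * cd * Real.exp (CP + 2 * A) * ER := by
        rw [abs_sub_comm]
        exact h3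
      rw [norm_mul, Complex.norm_real, Real.norm_eq_abs, abs_mul]
      have h5 : |g| = G0 * Q ^ n * Real.exp (-(((n : ℝ) - 1) / 2 * (u + u'))) := by
        rw [hgdef, hG0, hcc, abs_mul, abs_mul, abs_mul, abs_mul, abs_mul,
          abs_of_pos (pow_pos hQpos n), abs_of_pos (Real.exp_pos _)]
        ring
      have h6 : Real.exp (-(((n : ℝ) - 1) / 2 * (u + u'))) * Real.exp (-u') ≤
          Real.exp (((n : ℝ) - 1) * A) * Real.exp (-(n * u')) := by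
        rw [← Real.exp_add, ← Real.exp_add]
        apply Real.exp_le_exp.mpr
        have hn1 : (0 : ℝ) ≤ (n : ℝ) - 1 := by
          have : (2 : ℝ) ≤ n := by exact_mod_cast hn
          linarith
        nlinarith [mul_le_mul_of_nonneg_left hA hn1]
      calc |g| * |M2 - M1| * ‖Phc φ u u'‖
          ≤ |g| * (CS * cd * Real.exp (CP + 2 * A) * ER) * (Cφ * Real.exp (-u')) := by
            apply mul_le_mul (mul_le_mul_of_nonneg_left h4 (abs_nonneg _)) (hφb u u')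
              (norm_nonneg _)
            positivity
        _ = G0 * Q ^ n * Cφ * (CS * cd * Real.exp (CP + 2 * A) * ER) *
            (Real.exp (-(((n : ℝ) - 1) / 2 * (u + u'))) * Real.exp (-u')) := by
            rw [h5]; ring
        _ ≤ G0 * Q ^ n * Cφ * (CS * cd * Real.exp (CP + 2 * A) * ER) *
            (Real.exp (((n : ℝ) - 1) * A) * Real.exp (-(n * u'))) :=
            mul_le_mul_of_nonneg_left h6 (by positivity)
        _ = E2 * B * ER := by rw [hE2, hB]; ring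
  refine (norm_add₃_le).trans ?_
  have hQi : 0 ≤ Q⁻¹ := by positivity
  calc _ ≤ E3 * B * Q⁻¹ + E1 * B * ER + E2 * B * ER := add_le_add (add_le_add hT1 hT2) hT3
    _ ≤ (E1 + E2 + E3) * B * (ER + Q⁻¹) := by
        have e1 : 0 ≤ E3 * B * ER := by positivity
        have e2 : 0 ≤ (E1 + E2) * B * Q⁻¹ := by positivity
        nlinarith
    _ = (E1 + E2 + E3) * Q ^ n * Real.exp (-(n * u')) * (ER + Q⁻¹) := by rw [hB]; ring


end

end Pool.Agent.RZH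

namespace Pool.Agent.RZH

theorem near : type_of% @near_pr := @near_pr

end Pool.Agent.RZH
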