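import Pool.Agent.Lib_helper41.RZGF.R_S9a
import Pool.Agent.Lib_helper42.GLM.Defs
import Pool.Agent.Lib_helper75.RZG.Defs
import Pool.Agent.Lib_helper96.GLL.Defs
import Pool.Agent.Lib_helper96.GLL.DefsB

/-!
# Project RZG, block X4: the double integral of the main term
-/

set_option autoImplicit false

namespace Pool.Agent.RZH

open MeasureTheory Matrix Complex Filter Topology Pool.Agent.GLL Pool.Agent.LAL
open scoped ENNReal ContDiff

noncomputable section

variable {n : ℕ} {O : Subring (Mt n)}

private theorem x4_int {X : Type*} [MeasurableSpace X] {μ : Measure X} {F : X → ℂ} {S : Set X}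
    (hμ : μ S < (⊤ : ℝ≥0∞)) (hF : AEStronglyMeasurable F μ) (C : ℝ) (hC : ∀ x, ‖F x‖ ≤ C)
    (h0 : ∀ x, x ∉ S → F x = 0) : Integrable F μ := by
  have h1 : IntegrableOn F S μ :=
    Measure.integrableOn_of_bounded hμ.ne hF (ae_of_all _ hC)
  exact h1.integrable_of_forall_notMem_eq_zero h0

private theorem x4_bd {φ : ℝ → ℂ} {A : ℝ} (hφ : TF φ A) : ∃ C : ℝ, ∀ x, ‖φ x‖ ≤ C := by
  have hc : HasCompactSupport φ := by
    refine HasCompactSupport.intro (K := Set.Icc (-A) A) isCompact_Icc fun x hx => ?_
    by_contra h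
    exact hx (abs_le.1 (hφ.supp x h))
  exact hc.exists_bound_of_continuous hφ.smooth.continuous

private theorem x4_core {φ : ℝ → ℂ} {A : ℝ} (hφ : TF φ A) {a : ℝ → ℂ} (ha : Measurable a)
    {B M : ℝ} (hB : ∀ u, ‖a u‖ ≤ B) (hM : ∀ u, a u ≠ 0 → |u| ≤ M) :
    Integrable (fun p : ℝ × ℝ => a p.1 * (starRingEnd ℂ) (a p.2) * Phc φ p.1 p.2)
      (volume.prod volume) ∧
    ∫ u : ℝ, ∫ u' : ℝ, a u * (starRingEnd ℂ) (a u') * Phc φ u u' =
      ((∫ v : ℝ, Real.exp v * ‖∫ u : ℝ, a u * φ (u + v)‖ ^ 2 : ℝ) : ℂ) := by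
  obtain ⟨Cφ, hCφ⟩ := x4_bd hφ
  have hB0 : 0 ≤ B := (norm_nonneg _).trans (hB 0)
  have hCφ0 : 0 ≤ Cφ := (norm_nonneg _).trans (hCφ 0)
  have hφm : Measurable φ := hφ.smooth.continuous.measurable
  have hIcc : volume (Set.Icc (-M) M) < (⊤ : ℝ≥0∞) := isCompact_Icc.measure_lt_top
  have ha0 : ∀ u, u ∉ Set.Icc (-M) M → a u = 0 := by
    intro u hu
    by_contra h
    exact hu (abs_le.1 (hM u h))
  set P : ℝ → ℂ := fun v => ∫ u : ℝ, a u * φ (u + v) with hP
  have hPm : Measurable P := by
    have h1 : StronglyMeasurable (fun p : ℝ × ℝ => a p.2 * φ (p.2 + p.1)) :=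
      ((ha.comp measurable_snd).mul
        (hφm.comp (measurable_snd.add measurable_fst))).stronglyMeasurable
    exact h1.integral_prod_right'.measurable
  have hPb : ∃ C : ℝ, ∀ v, ‖P v‖ ≤ C := by
    refine ⟨∫ u in Set.Icc (-M) M, B * Cφ, fun v => ?_⟩
    have h1 : P v = ∫ u in Set.Icc (-M) M, a u * φ (u + v) := by
      rw [setIntegral_eq_integral_of_forall_compl_eq_zero]
      intro u hu
      rw [ha0 u hu, zero_mul]
    rw [h1]
    refine norm_integral_le_of_norm_le (integrableOn_const hIcc.ne) (ae_of_all _ fun u => ?_)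
    rw [norm_mul]
    exact mul_le_mul (hB u) (hCφ _) (norm_nonneg _) hB0
  obtain ⟨CP, hCP⟩ := hPb
  have hCP0 : 0 ≤ CP := (norm_nonneg _).trans (hCP 0)
  constructor
  · -- integrability on the square
    obtain ⟨hc, -, ⟨C, hC0, hC⟩, -⟩ := Phc_facts hφ
    have hbig : (volume.prod volume : Measure (ℝ × ℝ)) (Set.Icc (-M) M ×ˢ Set.Icc (-M) M) < (⊤ : ℝ≥0∞) := by
      rw [Measure.prod_prod]
      exact ENNReal.mul_lt_top hIcc hIcc
    refine x4_int hbig ?_ (B * B * (C * Real.exp M)) ?_ ?_
    · exact (((ha.comp measurable_fst).mul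
        (Complex.continuous_conj.measurable.comp
          (ha.comp measurable_snd))).mul hc.measurable).aestronglyMeasurable
    · rintro ⟨u, u'⟩
      by_cases hu : a u' = 0
      · simp only [hu, map_zero, mul_zero, zero_mul, norm_zero]
        positivity
      have hu' := abs_le.1 (hM u' hu)
      simp only [norm_mul, RCLike.norm_conj]
      have h2 : ‖Phc φ u u'‖ ≤ C * Real.exp M :=
        (hC u u').trans (mul_le_mul_of_nonneg_left (Real.exp_le_exp.2 (by linarith [hu'.1])) hC0)
      exact mul_le_mul (mul_le_mul (hB u) (hB u') (norm_nonneg _) hB0) h2 (norm_nonneg _)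
        (by positivity)
    · rintro ⟨u, u'⟩ hu
      rw [Set.mem_prod, not_and_or] at hu
      rcases hu with hu | hu
      · simp only [ha0 u hu, zero_mul]
      · simp only [ha0 u' hu, map_zero, mul_zero, zero_mul]
  · -- step 1: fixed `u`
    have hstep1 : ∀ u : ℝ, ∫ u' : ℝ, a u * (starRingEnd ℂ) (a u') * Phc φ u u' =
        ∫ v : ℝ, a u * φ (v + u) * (Real.exp v : ℂ) * (starRingEnd ℂ) (P v) := by
      intro u
      have e1 : ∀ u' : ℝ, a u * (starRingEnd ℂ) (a u') * Phc φ u u' =
          ∫ v : ℝ, a u * φ (v + u) * (Real.exp v : ℂ) *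
            ((starRingEnd ℂ) (a u' * φ (u' + v))) := by
        intro u'
        rw [Phc, ← integral_const_mul]
        refine integral_congr_ae (ae_of_all _ fun v => ?_)
        simp only [map_mul]
        rw [add_comm u' v]
        ring
      simp_rw [e1]
      rw [integral_integral_swap]
      · refine integral_congr_ae (ae_of_all _ fun v => ?_)
        simp only
        rw [integral_const_mul, hP]
        congr 1
        rw [← integral_conj]
      · -- integrability
        have hK : volume (Set.Icc (-(|A| + |u|)) (|A| + |u|)) < (⊤ : ℝ≥0∞) := isCompact_Icc.measure_lt_top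
        have hbig : (volume.prod volume : Measure (ℝ × ℝ))
            (Set.Icc (-M) M ×ˢ Set.Icc (-(|A| + |u|)) (|A| + |u|)) < (⊤ : ℝ≥0∞) := by
          rw [Measure.prod_prod]
          exact ENNReal.mul_lt_top hIcc hK
        refine x4_int hbig ?_ (B * Cφ * Real.exp (|A| + |u|) * (B * Cφ)) ?_ ?_
        · have m1 : Measurable fun p : ℝ × ℝ => φ (p.2 + u) :=
            hφm.comp (measurable_snd.add_const u)
          have m2 : Measurable fun p : ℝ × ℝ => ((Real.exp p.2 : ℝ) : ℂ) :=
            Complex.measurable_ofReal.comp (Real.measurable_exp.comp measurable_snd)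
          have m3 : Measurable fun p : ℝ × ℝ => (starRingEnd ℂ) (a p.1 * φ (p.1 + p.2)) :=
            Complex.continuous_conj.measurable.comp
              ((ha.comp measurable_fst).mul (hφm.comp (measurable_fst.add measurable_snd)))
          exact (((m1.const_mul (a u)).mul m2).mul m3).aestronglyMeasurable
        · rintro ⟨u', v⟩
          simp only [Function.uncurry]
          by_cases hv : φ (v + u) = 0
          · simp only [hv, mul_zero, zero_mul, norm_zero]
            positivity
          have hv' := abs_le.1 (hφ.supp _ hv)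
          have hv1 : v ≤ |A| + |u| := by
            have := le_abs_self A
            have := neg_abs_le u
            linarith [hv'.2]
          simp only [norm_mul, RCLike.norm_conj]
          have h2 : ‖((Real.exp v : ℝ) : ℂ)‖ ≤ Real.exp (|A| + |u|) := by
            rw [Complex.norm_real, Real.norm_of_nonneg (Real.exp_nonneg _)]
            exact Real.exp_le_exp.2 hv1
          exact mul_le_mul (mul_le_mul (mul_le_mul (hB u) (hCφ _) (norm_nonneg _) hB0) h2
            (norm_nonneg _) (by positivity)) (mul_le_mul (hB u') (hCφ _) (norm_nonneg _) hB0)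
            (by positivity) (by positivity)
        · rintro ⟨u', v⟩ hu
          simp only [Function.uncurry]
          rw [Set.mem_prod, not_and_or] at hu
          rcases hu with hu | hu
          · simp only [ha0 u' hu, zero_mul, map_zero, mul_zero]
          · have : φ (v + u) = 0 := by
              by_contra hv
              apply hu
              have hv' := abs_le.1 (hφ.supp _ hv)
              have := le_abs_self A
              have := neg_abs_le u
              have := le_abs_self u
              simp only [Set.mem_Icc]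
              constructor <;> linarith [hv'.1, hv'.2]
            simp only [this, mul_zero, zero_mul]
    simp_rw [hstep1]
    rw [integral_integral_swap]
    · -- step 2
      have e2 : ∀ v : ℝ, ∫ u : ℝ, a u * φ (v + u) * (Real.exp v : ℂ) * (starRingEnd ℂ) (P v) =
          ((Real.exp v * ‖P v‖ ^ 2 : ℝ) : ℂ) := by
        intro v
        rw [integral_mul_const, integral_mul_const]
        have e3 : ∫ u : ℝ, a u * φ (v + u) = P v := by
          rw [hP]
          refine integral_congr_ae (ae_of_all _ fun u => ?_)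
          simp only [add_comm v u]
        rw [e3, mul_comm (P v), mul_assoc, Complex.mul_conj, Complex.normSq_eq_norm_sq]
        push_cast
        ring
      simp_rw [e2]
      exact integral_ofReal
    · have hK : volume (Set.Icc (-(|A| + M)) (|A| + M)) < (⊤ : ℝ≥0∞) := isCompact_Icc.measure_lt_top
      have hbig : (volume.prod volume : Measure (ℝ × ℝ))
          (Set.Icc (-M) M ×ˢ Set.Icc (-(|A| + M)) (|A| + M)) < (⊤ : ℝ≥0∞) := by
        rw [Measure.prod_prod]
        exact ENNReal.mul_lt_top hIcc hK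
      have hsup : ∀ u v : ℝ, a u ≠ 0 → φ (v + u) ≠ 0 → v ∈ Set.Icc (-(|A| + M)) (|A| + M) := by
        intro u v hu hv
        have hv' := abs_le.1 (hφ.supp _ hv)
        have hu' := abs_le.1 (hM _ hu)
        have := le_abs_self A
        simp only [Set.mem_Icc]
        constructor <;> linarith [hv'.1, hv'.2, hu'.1, hu'.2]
      refine x4_int hbig ?_ (B * Cφ * Real.exp (|A| + M) * CP) ?_ ?_
      · have m1 : Measurable fun p : ℝ × ℝ => φ (p.2 + p.1) :=
          hφm.comp (measurable_snd.add measurable_fst)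
        have m2 : Measurable fun p : ℝ × ℝ => ((Real.exp p.2 : ℝ) : ℂ) :=
          Complex.measurable_ofReal.comp (Real.measurable_exp.comp measurable_snd)
        have m3 : Measurable fun p : ℝ × ℝ => (starRingEnd ℂ) (P p.2) :=
          Complex.continuous_conj.measurable.comp (hPm.comp measurable_snd)
        exact ((((ha.comp measurable_fst).mul m1).mul m2).mul m3).aestronglyMeasurable
      · rintro ⟨u, v⟩
        simp only [Function.uncurry]
        by_cases hv : φ (v + u) = 0
        · simp only [hv, mul_zero, zero_mul, norm_zero]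
          positivity
        by_cases hu : a u = 0
        · simp only [hu, zero_mul, norm_zero]
          positivity
        simp only [norm_mul, RCLike.norm_conj]
        have h2 : ‖((Real.exp v : ℝ) : ℂ)‖ ≤ Real.exp (|A| + M) := by
          rw [Complex.norm_real, Real.norm_of_nonneg (Real.exp_nonneg _)]
          exact Real.exp_le_exp.2 (hsup u v hu hv).2
        exact mul_le_mul (mul_le_mul (mul_le_mul (hB u) (hCφ _) (norm_nonneg _) hB0) h2
          (norm_nonneg _) (by positivity)) (hCP v) (norm_nonneg _) (by positivity)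
      · rintro ⟨u, v⟩ hu
        simp only [Function.uncurry]
        rw [Set.mem_prod, not_and_or] at hu
        rcases hu with hu | hu
        · simp only [ha0 u hu, zero_mul]
        · by_cases h1 : a u = 0
          · simp only [h1, zero_mul]
          by_cases h2 : φ (v + u) = 0
          · simp only [h2, mul_zero, zero_mul]
          exact absurd (hsup u v h1 h2) hu

/-- the double integral of the main term -/
theorem Mn_int_pr (hn : 2 ≤ n) (hO : GLL.Ord O) {k : Mt n → ℂ} (hk : Sph2 k) {φ : ℝ → ℂ} {A : ℝ}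
    (hφ : TF φ A) (β : Mt n → ℝ) (b₀ b : ℕ) (c : Idl O → ℝ) {Q L A₁ : ℝ} (hQ : 1 ≤ Q)
    {κ : ℝ → ℝ} (hκ : CF L A₁ κ) (s : ℂ) :
    DI n κ s (fun u u' => Mn b₀ b β k φ c Q u u') =
      (((covO O ^ 2)⁻¹ * Q ^ n * rho O b₀ * (∫ H : Mt n, β H) * k2 k *
        POS b c (Real.log Q) φ κ s : ℝ) : ℂ) := by
  classical
  -- the cut weights
  set a : ℝ → ℝ → ℂ := fun T u => if u ≤ T then (κ u : ℂ) * Complex.exp (s * u) else 0 with ha_def
  set C0 : ℝ := (covO O ^ 2)⁻¹ * Q ^ n * rho O b₀ * (∫ H : Mt n, β H) * k2 k with hC0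
  set TK : Idl O → ℝ := fun K => -Real.log Q - Real.log (N K) with hTK
  set M : ℝ := 2 * |L| + |A₁| with hM_def
  have hMs : ∀ u, κ u ≠ 0 → |u| ≤ M := by
    intro u hu
    obtain ⟨h1, h2⟩ := hκ.supp u hu
    rw [abs_le]
    have := le_abs_self L
    have := le_abs_self A₁
    have := abs_nonneg L
    have := abs_nonneg A₁
    constructor <;> linarith
  have ham : ∀ T, Measurable (a T) := by
    intro T
    have h1 : Measurable fun u : ℝ => (κ u : ℂ) * Complex.exp (s * u) :=
      (Complex.measurable_ofReal.comp hκ.meas).mul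
        (Complex.measurable_exp.comp (Complex.measurable_ofReal.const_mul s))
    exact Measurable.ite measurableSet_Iic h1 measurable_const
  have haB : ∀ T u, ‖a T u‖ ≤ Real.exp (|s.re| * M) := by
    intro T u
    simp only [ha_def]
    split_ifs with h
    · by_cases hu : κ u = 0
      · simp only [hu, Complex.ofReal_zero, zero_mul, norm_zero]
        positivity
      rw [norm_mul, Complex.norm_real, Complex.norm_exp]
      have h1 : ‖κ u‖ ≤ 1 := hκ.le u
      have h2 : (s * (u : ℂ)).re ≤ |s.re| * M := by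
        simp only [Complex.mul_re, Complex.ofReal_re, Complex.ofReal_im, mul_zero, sub_zero]
        calc s.re * u ≤ |s.re * u| := le_abs_self _
          _ = |s.re| * |u| := abs_mul _ _
          _ ≤ |s.re| * M := mul_le_mul_of_nonneg_left (hMs u hu) (abs_nonneg _)
      calc ‖κ u‖ * Real.exp (s * (u : ℂ)).re ≤ 1 * Real.exp (|s.re| * M) :=
            mul_le_mul h1 (Real.exp_le_exp.2 h2) (Real.exp_nonneg _) zero_le_one
        _ = _ := one_mul _
    · rw [norm_zero]
      positivity
  have haM : ∀ T u, a T u ≠ 0 → |u| ≤ M := by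
    intro T u hu
    apply hMs
    intro h
    apply hu
    simp only [ha_def, h, Complex.ofReal_zero, zero_mul, ite_self]
  -- the pointwise identity
  have hpt : ∀ u u' : ℝ, om n κ s u * (starRingEnd ℂ) (om n κ s u') * Mn b₀ b β k φ c Q u u' =
      ∑ K ∈ PI O b, ((C0 * (cs K * yK b c K ^ 2) : ℝ) : ℂ) *
        (a (TK K) u * (starRingEnd ℂ) (a (TK K) u') * Phc φ u u') := by
    intro u u'
    have he : ((Real.exp (u * (((n : ℝ) - 1) / 2)) : ℝ) : ℂ) *
        ((Real.exp (u' * (((n : ℝ) - 1) / 2)) : ℝ) : ℂ) *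
        ((Real.exp (-(((n : ℝ) - 1) / 2 * (u + u'))) : ℝ) : ℂ) = 1 := by
      rw [← Complex.ofReal_mul, ← Complex.ofReal_mul, ← Real.exp_add, ← Real.exp_add]
      rw [show u * (((n : ℝ) - 1) / 2) + u' * (((n : ℝ) - 1) / 2) +
        -(((n : ℝ) - 1) / 2 * (u + u')) = 0 by ring, Real.exp_zero, Complex.ofReal_one]
    have hMn : Mn b₀ b β k φ c Q u u' = (C0 : ℂ) *
        ((Real.exp (-(((n : ℝ) - 1) / 2 * (u + u'))) : ℝ) : ℂ) *
        (∑ K ∈ PI O b, (((if u ≤ TK K ∧ u' ≤ TK K then cs K * yK b c K ^ 2 else 0 : ℝ)) : ℂ)) *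
        Phc φ u u' := by
      rw [Mn, Complex.ofReal_mul, Complex.ofReal_mul, Complex.ofReal_sum]
    rw [hMn, Finset.mul_sum, Finset.sum_mul, Finset.mul_sum]
    refine Finset.sum_congr rfl fun K _ => ?_
    have hconj : (starRingEnd ℂ) (om n κ s u') = (starRingEnd ℂ) ((κ u' : ℂ) *
        Complex.exp (s * u')) * ((Real.exp (u' * (((n : ℝ) - 1) / 2)) : ℝ) : ℂ) := by
      rw [om, map_mul _ ((κ u' : ℂ) * Complex.exp (s * u')), Complex.conj_ofReal]
    rw [hconj, om]
    simp only [ha_def]
    by_cases h1 : u ≤ TK K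
    · by_cases h2 : u' ≤ TK K
      · rw [if_pos ⟨h1, h2⟩, if_pos h1, if_pos h2]
        rw [Complex.ofReal_mul C0]
        linear_combination ((κ u : ℂ) * Complex.exp (s * u)) *
          (starRingEnd ℂ) ((κ u' : ℂ) * Complex.exp (s * u')) * (C0 : ℂ) *
          ((cs K * yK b c K ^ 2 : ℝ) : ℂ) * Phc φ u u' * he
      · rw [if_neg (fun h => h2 h.2), if_neg h2]
        simp only [Complex.ofReal_zero, mul_zero, zero_mul, map_zero]
    · rw [if_neg (fun h => h1 h.1), if_neg h1]
      simp only [Complex.ofReal_zero, mul_zero, zero_mul]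
  have hcore := fun T => x4_core hφ (ham T) (haB T) (haM T)
  rw [DI]
  simp_rw [hpt]
  rw [integral_integral (f := fun u u' => ∑ K ∈ PI O b, ((C0 * (cs K * yK b c K ^ 2) : ℝ) : ℂ) *
        (a (TK K) u * (starRingEnd ℂ) (a (TK K) u') * Phc φ u u'))
      (integrable_finsetSum _ fun K _ => ((hcore (TK K)).1.const_mul _))]
  rw [integral_finsetSum _ fun K _ => ((hcore (TK K)).1.const_mul _)]
  have hK : ∀ K : Idl O, ∫ p : ℝ × ℝ, ((C0 * (cs K * yK b c K ^ 2) : ℝ) : ℂ) *
        (a (TK K) p.1 * (starRingEnd ℂ) (a (TK K) p.2) * Phc φ p.1 p.2)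
        ∂(volume.prod volume) =
      ((C0 * (cs K * yK b c K ^ 2 * ∫ v : ℝ, Real.exp v *
        ‖∫ u in Set.Iic (-Real.log Q - Real.log (N K)),
          (κ u : ℂ) * Complex.exp (s * u) * φ (u + v)‖ ^ 2) : ℝ) : ℂ) := by
    intro K
    rw [integral_const_mul, ← integral_integral
      (f := fun u u' => a (TK K) u * (starRingEnd ℂ) (a (TK K) u') * Phc φ u u')
      (hcore (TK K)).1, (hcore (TK K)).2]
    have h3 : ∀ v : ℝ, ∫ u : ℝ, a (TK K) u * φ (u + v) =
        ∫ u in Set.Iic (-Real.log Q - Real.log (N K)),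
          (κ u : ℂ) * Complex.exp (s * u) * φ (u + v) := by
      intro v
      rw [← integral_indicator measurableSet_Iic]
      refine integral_congr_ae (ae_of_all _ fun u => ?_)
      simp only [ha_def, Set.indicator, Set.mem_Iic, hTK]
      split_ifs
      · rfl
      · rw [zero_mul]
    simp_rw [h3]
    push_cast
    ring
  simp_rw [hK]
  rw [POS, Finset.mul_sum, Complex.ofReal_sum]

end

end Pool.Agent.RZH

namespace Pool.Agent.RZH

theorem Mn_int : type_of% @Mn_int_pr := @Mn_int_pr

end Pool.Agent.RZH
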