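import Pool.Agent.Lib_helper32.LAL.SDefs
import Pool.Agent.Lib_helper32.LAL.SImp
import Pool.Agent.Lib_helper32.LALS.S_SN
import Pool.Agent.Lib_helper41.RZGF.R_F8
import Pool.Agent.Lib_helper41.RZGF.R_S5a
import Pool.Agent.Lib_helper41.RZGF.R_S9a
import Pool.Agent.Lib_helper41.RZGF.R_S9c
import Pool.Agent.Lib_helper41.RZGF.R_X1
import Pool.Agent.Lib_helper41.RZGF.R_X4
import Pool.Agent.Lib_helper42.GLM.Defs
import Pool.Agent.Lib_helper75.RZG.Defs
import Pool.Agent.Lib_helper96.GLF.O_OA3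
import Pool.Agent.Lib_helper96.GLF.O_OE
import Pool.Agent.Lib_helper96.GLF.O_OI
import Pool.Agent.Lib_helper96.GLL.Defs
import Pool.Agent.Lib_helper96.GLL.DefsB

/-!
# Project RZG, block X5: the double integral, near and far (helper55)
-/

set_option autoImplicit false

namespace Pool.Agent.RZH

open MeasureTheory Matrix Complex Filter Topology Pool.Agent.GLL Pool.Agent.LAL
open scoped ENNReal ContDiff

noncomputable section

variable {n : ℕ} {O : Subring (Mt n)}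

/-! ### Double integrals -/

/-- the shear -/
theorem x5_shear {a b : ℝ → ℝ} (ha : Integrable a) (hb : Integrable b) :
    Integrable (fun p : ℝ × ℝ => a p.1 * b (p.2 - p.1)) (volume.prod volume) ∧
    ∫ p : ℝ × ℝ, a p.1 * b (p.2 - p.1) ∂(volume.prod volume) = (∫ u, a u) * ∫ w, b w := by
  have mp := measurePreserving_prod_add (G := ℝ) (volume : Measure ℝ) (volume : Measure ℝ)
  have me : MeasurableEmbedding (fun z : ℝ × ℝ => (z.1, z.1 + z.2)) :=
    (MeasurableEquiv.shearAddRight ℝ).measurableEmbedding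
  have h1 : Integrable (fun p : ℝ × ℝ => a p.1 * b p.2) (volume.prod volume) := ha.mul_prod hb
  have h2 : ((fun p : ℝ × ℝ => a p.1 * b (p.2 - p.1)) ∘ fun z : ℝ × ℝ => (z.1, z.1 + z.2)) =
      fun p : ℝ × ℝ => a p.1 * b p.2 := by
    funext p
    simp [Function.comp]
  refine ⟨?_, ?_⟩
  · rw [← mp.integrable_comp_emb me, h2]
    exact h1
  · rw [← mp.integral_comp me, ← integral_prod_mul]
    refine integral_congr_ae (Eventually.of_forall fun p => ?_)
    simp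

theorem x5_shear' {a b : ℝ → ℝ} (ha : Integrable a) (hb : Integrable b) :
    Integrable (fun p : ℝ × ℝ => a p.2 * b (p.1 - p.2)) (volume.prod volume) ∧
    ∫ p : ℝ × ℝ, a p.2 * b (p.1 - p.2) ∂(volume.prod volume) = (∫ u, a u) * ∫ w, b w := by
  obtain ⟨h1, h2⟩ := x5_shear ha hb
  refine ⟨h1.swap, ?_⟩
  rw [← h2, ← integral_prod_swap]
  rfl

theorem x5_dbl {a b a' b' : ℝ → ℝ} (ha : Integrable a) (hb : Integrable b) (ha' : Integrable a')
    (hb' : Integrable b') (K : ℝ) {F : ℝ × ℝ → ℂ}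
    (hF : ∀ u u' : ℝ, u ≤ u' → ‖F (u, u')‖ ≤ K * (a u * b (u' - u) + a' u * b' (u' - u)) ∧
      ‖F (u', u)‖ ≤ K * (a u * b (u' - u) + a' u * b' (u' - u)))
    (hpos : ∀ u w : ℝ, 0 ≤ K * (a u * b w + a' u * b' w)) :
    ‖∫ p, F p ∂(volume.prod volume)‖ ≤
      2 * (K * ((∫ u, a u) * (∫ w, b w) + (∫ u, a' u) * ∫ w, b' w)) := by
  obtain ⟨h1, h1'⟩ := x5_shear ha hb
  obtain ⟨h2, h2'⟩ := x5_shear ha' hb'
  obtain ⟨h3, h3'⟩ := x5_shear' ha hb
  obtain ⟨h4, h4'⟩ := x5_shear' ha' hb'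
  have hA : Integrable (fun p : ℝ × ℝ => a p.1 * b (p.2 - p.1) + a' p.1 * b' (p.2 - p.1))
      (volume.prod volume) := h1.add h2
  have hB : Integrable (fun p : ℝ × ℝ => a p.2 * b (p.1 - p.2) + a' p.2 * b' (p.1 - p.2))
      (volume.prod volume) := h3.add h4
  have hg : Integrable (fun p : ℝ × ℝ => K * (a p.1 * b (p.2 - p.1) + a' p.1 * b' (p.2 - p.1)) +
      K * (a p.2 * b (p.1 - p.2) + a' p.2 * b' (p.1 - p.2))) (volume.prod volume) :=
    (hA.const_mul K).add (hB.const_mul K)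
  have hb : ∀ p : ℝ × ℝ, ‖F p‖ ≤
      (fun p : ℝ × ℝ => K * (a p.1 * b (p.2 - p.1) + a' p.1 * b' (p.2 - p.1)) +
        K * (a p.2 * b (p.1 - p.2) + a' p.2 * b' (p.1 - p.2))) p := by
    rintro ⟨u, u'⟩
    rcases le_total u u' with h | h
    · have := (hF u u' h).1
      have h5 := hpos u' (u - u')
      simp only
      linarith
    · have := (hF u' u h).2
      have h5 := hpos u (u' - u)
      simp only
      linarith
  refine (norm_integral_le_of_norm_le hg (Eventually.of_forall hb)).trans (le_of_eq ?_)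
  have e1 : ∫ p : ℝ × ℝ, (K * (a p.1 * b (p.2 - p.1) + a' p.1 * b' (p.2 - p.1)) +
        K * (a p.2 * b (p.1 - p.2) + a' p.2 * b' (p.1 - p.2))) ∂(volume.prod volume) =
      K * ((∫ u, a u) * (∫ w, b w) + (∫ u, a' u) * ∫ w, b' w) +
        K * ((∫ u, a u) * (∫ w, b w) + (∫ u, a' u) * ∫ w, b' w) := by
    rw [integral_add (hA.const_mul K) (hB.const_mul K), integral_const_mul,
      integral_const_mul, integral_add h1 h2, integral_add h3 h4, h1', h2', h3', h4']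
  calc _ = _ := e1
    _ = _ := by ring

/-! ### Elementary integrals -/

/-- `e^(-δ w)` for `w ≥ r` -/
def x5b (δ r w : ℝ) : ℝ := open scoped Classical in if r ≤ w then Real.exp (-δ * w) else 0

theorem x5b_int {δ : ℝ} (hδ : 0 < δ) (r : ℝ) : Integrable (x5b δ r) ∧
    ∫ w, x5b δ r w = Real.exp (-(δ * r)) / δ := by
  have h1 : x5b δ r = (Set.Ici r).indicator (fun w => Real.exp (-δ * w)) := by
    funext w
    by_cases h : r ≤ w
    · rw [Set.indicator_of_mem (show w ∈ Set.Ici r from h), x5b, if_pos h]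
    · rw [Set.indicator_of_notMem (show w ∉ Set.Ici r from h), x5b, if_neg h]
  have h2 : IntegrableOn (fun w => Real.exp (-δ * w)) (Set.Ioi r) :=
    integrableOn_exp_mul_Ioi (by linarith) r
  refine ⟨?_, ?_⟩
  · rw [h1, integrable_indicator_iff measurableSet_Ici, integrableOn_Ici_iff_integrableOn_Ioi]
    exact h2
  · rw [h1, integral_indicator measurableSet_Ici, integral_Ici_eq_integral_Ioi,
      integral_exp_mul_Ioi (by linarith)]
    rw [neg_mul, neg_div_neg_eq]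

/-- `e^(v/2)` for `v ≤ C` -/
def x5g (C v : ℝ) : ℝ := open scoped Classical in if v ≤ C then Real.exp (1 / 2 * v) else 0

theorem x5g_nonneg (C v : ℝ) : 0 ≤ x5g C v := by
  unfold x5g
  split_ifs
  · exact (Real.exp_pos _).le
  · exact le_rfl

theorem x5b_nonneg (δ r w : ℝ) : 0 ≤ x5b δ r w := by
  unfold x5b
  split_ifs
  · exact (Real.exp_pos _).le
  · exact le_rfl

theorem x5g_int (C : ℝ) : Integrable (x5g C) ∧ ∫ w, x5g C w = 2 * Real.exp (1 / 2 * C) := by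
  have h1 : x5g C = (Set.Iic C).indicator (fun w => Real.exp (1 / 2 * w)) := by
    funext w
    by_cases h : w ≤ C
    · rw [Set.indicator_of_mem (show w ∈ Set.Iic C from h), x5g, if_pos h]
    · rw [Set.indicator_of_notMem (show w ∉ Set.Iic C from h), x5g, if_neg h]
  have h2 : IntegrableOn (fun w => Real.exp (1 / 2 * w)) (Set.Iic C) :=
    integrableOn_exp_mul_Iic (by norm_num) C
  refine ⟨?_, ?_⟩
  · rw [h1, integrable_indicator_iff measurableSet_Iic]
    exact h2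
  · rw [h1, integral_indicator measurableSet_Iic, integral_exp_mul_Iic (by norm_num)]
    ring

/-- the indicator function of an interval -/
def x5i (α β u : ℝ) : ℝ := (Set.Ioc α β).indicator (fun _ => (1 : ℝ)) u

theorem x5i_int (α β : ℝ) : Integrable (x5i α β) ∧ ∫ w, x5i α β w ≤ max (β - α) 0 := by
  refine ⟨?_, ?_⟩
  · unfold x5i
    rw [integrable_indicator_iff measurableSet_Ioc]
    exact integrableOn_const (by simp)
  · unfold x5i
    rw [integral_indicator measurableSet_Ioc, setIntegral_const, smul_eq_mul, mul_one]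
    rw [measureReal_def, Real.volume_Ioc, ENNReal.toReal_ofReal']

theorem x5i_nonneg (α β u : ℝ) : 0 ≤ x5i α β u := by
  unfold x5i
  exact Set.indicator_nonneg (fun _ _ => zero_le_one) u

theorem x5i_one {α β u : ℝ} (h : α < u) (h' : u ≤ β) : x5i α β u = 1 := by
  unfold x5i
  rw [Set.indicator_of_mem (show u ∈ Set.Ioc α β from ⟨h, h'⟩)]

/-- `ee` against an exponential -/
theorem x5_ee {lam Λ C v : ℝ} (h1 : -(1 / 2) ≤ lam) (h2 : lam ≤ Λ) (hΛ : 0 ≤ Λ) (hC : 0 ≤ C) :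
    Real.exp (lam * v) * ee C v ≤ Real.exp (Λ * C) * x5g C v := by
  unfold ee x5g
  by_cases hv : v ≤ C
  · rw [if_pos hv, if_pos hv, ← Real.exp_add, ← Real.exp_add]
    refine Real.exp_le_exp.2 ?_
    rcases le_total v 0 with h | h
    · rw [min_eq_left h]
      nlinarith [mul_nonneg hΛ hC]
    · rw [min_eq_right h]
      have := mul_le_mul h2 hv h hΛ
      nlinarith
  · rw [if_neg hv, if_neg hv, mul_zero, mul_zero]

/-! ### The weights -/

theorem x5_om {L A₁ : ℝ} {κ : ℝ → ℝ} (hκ : CF L A₁ κ) (s : ℂ) (u : ℝ) :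
    ‖om n κ s u‖ ≤ Real.exp ((s.re + ((n : ℝ) - 1) / 2) * u) ∧
      (om n κ s u ≠ 0 → -(2 * L) < u ∧ u ≤ A₁) := by
  refine ⟨?_, fun h => hκ.supp u fun h0 => h ?_⟩
  · unfold om
    rw [norm_mul, norm_mul, Complex.norm_real, Complex.norm_real, Complex.norm_exp,
      Real.norm_eq_abs, Real.norm_eq_abs, abs_of_pos (Real.exp_pos _)]
    have h1 : (s * (u : ℂ)).re = s.re * u := by simp
    rw [h1, mul_assoc, ← Real.exp_add,
      show s.re * u + u * (((n : ℝ) - 1) / 2) = (s.re + ((n : ℝ) - 1) / 2) * u by ring]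
    exact mul_le_of_le_one_left (Real.exp_pos _).le (hκ.le u)
  · unfold om
    rw [h0]
    simp

theorem x5_om_meas {L A₁ : ℝ} {κ : ℝ → ℝ} (hκ : CF L A₁ κ) (s : ℂ) :
    Measurable (om n κ s) := by
  unfold om
  have h1 := hκ.meas
  have h2 : Measurable fun u : ℝ => ((κ u : ℝ) : ℂ) := Complex.measurable_ofReal.comp h1
  have h3 : Measurable fun u : ℝ => Complex.exp (s * u) := by fun_prop
  have h4 : Measurable fun u : ℝ => ((Real.exp (u * (((n : ℝ) - 1) / 2)) : ℝ) : ℂ) := by fun_prop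
  exact (h2.mul h3).mul h4

/-- the integrands are integrable -/
theorem x5_intble {L A₁ : ℝ} {κ : ℝ → ℝ} (hκ : CF L A₁ κ) (s : ℂ) {g : ℝ → ℝ → ℂ}
    (hg : Measurable fun p : ℝ × ℝ => g p.1 p.2) {B : ℝ}
    (hB : ∀ u u' : ℝ, -(2 * L) ≤ u → u ≤ A₁ → -(2 * L) ≤ u' → u' ≤ A₁ → ‖g u u'‖ ≤ B) :
    Integrable (fun p : ℝ × ℝ => om n κ s p.1 * (starRingEnd ℂ) (om n κ s p.2) * g p.1 p.2)
      (volume.prod volume) := by
  set S : Set (ℝ × ℝ) := Set.Icc (-(2 * L)) A₁ ×ˢ Set.Icc (-(2 * L)) A₁ with hS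
  have hSc : IsCompact S := isCompact_Icc.prod isCompact_Icc
  set h : ℝ × ℝ → ℝ := fun p => Real.exp ((s.re + ((n : ℝ) - 1) / 2) * p.1) *
    Real.exp ((s.re + ((n : ℝ) - 1) / 2) * p.2) with hh
  have hc : Continuous h := by fun_prop
  obtain ⟨M, hM⟩ := hSc.exists_bound_of_continuousOn hc.continuousOn
  have hom := x5_om_meas (n := n) hκ s
  have hmeas : Measurable (fun p : ℝ × ℝ => om n κ s p.1 * (starRingEnd ℂ) (om n κ s p.2) *
      g p.1 p.2) := by
    have h1 : Measurable fun p : ℝ × ℝ => om n κ s p.1 := hom.comp measurable_fst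
    have h2 : Measurable fun p : ℝ × ℝ => (starRingEnd ℂ) (om n κ s p.2) :=
      (Complex.continuous_conj.measurable).comp (hom.comp measurable_snd)
    exact (h1.mul h2).mul hg
  have hsupp : Function.support (fun p : ℝ × ℝ => om n κ s p.1 * (starRingEnd ℂ) (om n κ s p.2) *
      g p.1 p.2) ⊆ S := by
    intro p hp
    have h1 : om n κ s p.1 ≠ 0 := fun h0 => hp (by simp [h0])
    have h2 : om n κ s p.2 ≠ 0 := fun h0 => hp (by simp [h0])
    have h3 := (x5_om hκ s p.1).2 h1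
    have h4 := (x5_om hκ s p.2).2 h2
    exact ⟨⟨h3.1.le, h3.2⟩, ⟨h4.1.le, h4.2⟩⟩
  rw [← integrableOn_iff_integrable_of_support_subset hsupp]
  refine Measure.integrableOn_of_bounded (M := M * B) ?_ hmeas.aestronglyMeasurable ?_
  · exact hSc.measure_lt_top.ne
  · refine (ae_restrict_iff' hSc.measurableSet).2 (Eventually.of_forall fun p hp => ?_)
    have h1 := (x5_om (n := n) hκ s p.1).1
    have h2 := (x5_om (n := n) hκ s p.2).1
    have h3 := hB p.1 p.2 hp.1.1 hp.1.2 hp.2.1 hp.2.2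
    have h4 := hM p hp
    rw [hh] at h4
    simp only at h4
    rw [Real.norm_eq_abs, abs_of_nonneg (by positivity)] at h4
    rw [norm_mul, norm_mul, RCLike.norm_conj]
    have h5 : ‖om n κ s p.1‖ * ‖om n κ s p.2‖ ≤ M :=
      (mul_le_mul h1 h2 (norm_nonneg _) (Real.exp_pos _).le).trans h4
    exact mul_le_mul h5 h3 (norm_nonneg _) ((mul_nonneg (norm_nonneg _) (norm_nonneg _)).trans h5)

/-! ### The main term -/

theorem x5_Mn_zero (b₀ b : ℕ) (β : Mt n → ℝ) (k : Mt n → ℂ) (φ : ℝ → ℂ) (c : Idl O → ℝ)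
    (hN : ∀ K : Idl O, 0 < N K) {Q u u' : ℝ} (h : -Real.log Q < u) :
    Mn b₀ b β k φ c Q u u' = 0 := by
  unfold Mn
  have h1 : ∀ K : Idl O, ¬ (u ≤ -Real.log Q - Real.log (N K) ∧
      u' ≤ -Real.log Q - Real.log (N K)) := by
    rintro K ⟨h2, -⟩
    have h3 : 0 ≤ Real.log (N K) := Real.log_nonneg (by exact_mod_cast hN K)
    linarith
  simp [h1]

theorem x5_Mn_symm (b₀ b : ℕ) (β : Mt n → ℝ) (k : Mt n → ℂ) {φ : ℝ → ℂ} {A : ℝ} (hφ : TF φ A)
    (c : Idl O → ℝ) (Q u u' : ℝ) :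
    Mn b₀ b β k φ c Q u' u = (starRingEnd ℂ) (Mn b₀ b β k φ c Q u u') := by
  have h1 : (∑ K ∈ PI O b, open scoped Classical in
      (if u' ≤ -Real.log Q - Real.log (N K) ∧ u ≤ -Real.log Q - Real.log (N K) then
        cs K * yK b c K ^ 2 else (0 : ℝ))) = ∑ K ∈ PI O b, open scoped Classical in
      (if u ≤ -Real.log Q - Real.log (N K) ∧ u' ≤ -Real.log Q - Real.log (N K) then
        cs K * yK b c K ^ 2 else (0 : ℝ)) := by
    refine Finset.sum_congr rfl fun K _ => ?_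
    by_cases h : u ≤ -Real.log Q - Real.log (N K) ∧ u' ≤ -Real.log Q - Real.log (N K)
    · rw [if_pos h, if_pos ⟨h.2, h.1⟩]
    · rw [if_neg h, if_neg fun h' => h ⟨h'.2, h'.1⟩]
  unfold Mn
  rw [map_mul, Complex.conj_ofReal, (Phc_facts hφ).2.2.2 u u', add_comm u' u, h1]

theorem x5_Mn_meas (b₀ b : ℕ) (β : Mt n → ℝ) (k : Mt n → ℂ) {φ : ℝ → ℂ} {A : ℝ} (hφ : TF φ A)
    (c : Idl O → ℝ) (Q L A₁ : ℝ) :
    Measurable (fun p : ℝ × ℝ => Mn b₀ b β k φ c Q p.1 p.2) ∧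
    ∃ B : ℝ, ∀ u u' : ℝ, -(2 * L) ≤ u → u ≤ A₁ → -(2 * L) ≤ u' → u' ≤ A₁ →
      ‖Mn b₀ b β k φ c Q u u'‖ ≤ B := by
  classical
  have hPc := (Phc_facts hφ).1
  refine ⟨?_, ?_⟩
  · unfold Mn
    refine Measurable.mul (Complex.measurable_ofReal.comp ?_) hPc.measurable
    refine Measurable.mul (by fun_prop) (Finset.measurable_sum _ fun K _ => ?_)
    refine Measurable.ite ?_ measurable_const measurable_const
    exact (measurableSet_le measurable_fst measurable_const).inter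
      (measurableSet_le measurable_snd measurable_const)
  · set S : Set (ℝ × ℝ) := Set.Icc (-(2 * L)) A₁ ×ˢ Set.Icc (-(2 * L)) A₁ with hS
    have hSc : IsCompact S := isCompact_Icc.prod isCompact_Icc
    set h : ℝ × ℝ → ℂ := fun p => (((covO O ^ 2)⁻¹ * Q ^ n * rho O b₀ * (∫ H : Mt n, β H) * k2 k *
      Real.exp (-(((n : ℝ) - 1) / 2 * (p.1 + p.2))) : ℝ) : ℂ) * Phc φ p.1 p.2 with hh
    have hc : Continuous h := by
      rw [hh]
      exact (by fun_prop : Continuous fun p : ℝ × ℝ => (((covO O ^ 2)⁻¹ * Q ^ n * rho O b₀ *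
        (∫ H : Mt n, β H) * k2 k *
        Real.exp (-(((n : ℝ) - 1) / 2 * (p.1 + p.2))) : ℝ) : ℂ)).mul hPc
    obtain ⟨M, hM⟩ := hSc.exists_bound_of_continuousOn hc.continuousOn
    refine ⟨M * ∑ K ∈ PI O b, |cs K * yK b c K ^ 2|, fun u u' h1 h2 h3 h4 => ?_⟩
    have h5 := hM (u, u') ⟨⟨h1, h2⟩, ⟨h3, h4⟩⟩
    have h6 : Mn b₀ b β k φ c Q u u' = h (u, u') * (((∑ K ∈ PI O b,
      (if u ≤ -Real.log Q - Real.log (N K) ∧ u' ≤ -Real.log Q - Real.log (N K) then
        cs K * yK b c K ^ 2 else (0 : ℝ))) : ℝ) : ℂ) := by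
      unfold Mn
      rw [hh]
      push_cast
      ring
    rw [h6, norm_mul, Complex.norm_real]
    refine mul_le_mul h5 ?_ (norm_nonneg _) ((norm_nonneg _).trans h5)
    have h7 := norm_sum_le (PI O b) (fun K : Idl O =>
      (if u ≤ -Real.log Q - Real.log (N K) ∧ u' ≤ -Real.log Q - Real.log (N K) then
        cs K * yK b c K ^ 2 else (0 : ℝ)))
    refine h7.trans (Finset.sum_le_sum fun K _ => ?_)
    split_ifs
    · exact le_rfl
    · rw [norm_zero]
      exact abs_nonneg _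

/-! ### The function of the first scale -/

/-- the weight of the near part -/
def x5a (b₀ b₂ : ℕ) (c : Idl O → ℝ) (C₁ lam L M E : ℝ) (u : ℝ) : ℝ :=
  (∑ I ∈ PI O b₀, ∑ K ∈ PI O b₂, cs K * yI b₂ c I K ^ 2 *
    (Real.exp (-(lam * (L + Real.log (N K)))) * (M * x5g C₁ (u + (L + Real.log (N K)))))) +
  E * x5i (-(2 * L)) 0 u

theorem x5a_nonneg (hcs : ∀ K : Idl O, 0 ≤ cs K) (b₀ b₂ : ℕ) (c : Idl O → ℝ) {C₁ lam L M E : ℝ}
    (hM : 0 ≤ M) (hE : 0 ≤ E) (u : ℝ) : 0 ≤ x5a b₀ b₂ c C₁ lam L M E u := by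
  unfold x5a
  refine add_nonneg (Finset.sum_nonneg fun I _ => Finset.sum_nonneg fun K _ => ?_)
    (mul_nonneg hE (x5i_nonneg _ _ _))
  have h1 := hcs K
  have h2 := x5g_nonneg C₁ (u + (L + Real.log (N K)))
  positivity

theorem x5a_int (hcs : ∀ K : Idl O, 0 ≤ cs K) (b₀ b₂ : ℕ) (c : Idl O → ℝ)
    {C₁ lam L M E R : ℝ} (hM : 0 ≤ M) (hE : 0 ≤ E) (hL : 0 ≤ L)
    (hR : ∀ I K : Idl O, yI b₂ c I K ≠ 0 → -(lam * Real.log (N K)) ≤ R) :
    Integrable (x5a b₀ b₂ c C₁ lam L M E) ∧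
    ∫ u, x5a b₀ b₂ c C₁ lam L M E u ≤
      M * (2 * Real.exp (1 / 2 * C₁)) * Real.exp R * (Real.exp (-(lam * L)) * Ss b₀ b₂ c) +
        E * (2 * L) := by
  obtain ⟨g1, g2⟩ := x5g_int C₁
  obtain ⟨i1, i2⟩ := x5i_int (-(2 * L)) 0
  have t1 : ∀ K : Idl O, Integrable (fun u : ℝ => x5g C₁ (u + (L + Real.log (N K)))) :=
    fun K => g1.comp_add_right _
  have t2 : ∀ K : Idl O, ∫ u : ℝ, x5g C₁ (u + (L + Real.log (N K))) =
      2 * Real.exp (1 / 2 * C₁) := fun K => by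
    rw [integral_add_right_eq_self (fun u => x5g C₁ u), g2]
  have t3 : ∀ I K : Idl O, Integrable (fun u : ℝ => cs K * yI b₂ c I K ^ 2 *
      (Real.exp (-(lam * (L + Real.log (N K)))) *
        (M * x5g C₁ (u + (L + Real.log (N K)))))) := fun I K =>
    (((t1 K).const_mul M).const_mul _).const_mul _
  have t4 : Integrable (fun u : ℝ => ∑ I ∈ PI O b₀, ∑ K ∈ PI O b₂, cs K * yI b₂ c I K ^ 2 *
      (Real.exp (-(lam * (L + Real.log (N K)))) *
        (M * x5g C₁ (u + (L + Real.log (N K)))))) :=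
    integrable_finsetSum _ fun I _ => integrable_finsetSum _ fun K _ => t3 I K
  refine ⟨t4.add (i1.const_mul E), ?_⟩
  unfold x5a
  rw [integral_add t4 (i1.const_mul E), integral_const_mul]
  refine add_le_add ?_ ?_
  · rw [integral_finsetSum _ fun I _ => integrable_finsetSum _ fun K _ => t3 I K]
    have e1 : ∀ I : Idl O, ∫ u : ℝ, ∑ K ∈ PI O b₂, cs K * yI b₂ c I K ^ 2 *
        (Real.exp (-(lam * (L + Real.log (N K)))) *
          (M * x5g C₁ (u + (L + Real.log (N K))))) =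
        ∑ K ∈ PI O b₂, cs K * yI b₂ c I K ^ 2 *
          (Real.exp (-(lam * (L + Real.log (N K)))) * (M * (2 * Real.exp (1 / 2 * C₁)))) := by
      intro I
      rw [integral_finsetSum _ fun K _ => t3 I K]
      refine Finset.sum_congr rfl fun K _ => ?_
      rw [integral_const_mul, integral_const_mul, integral_const_mul, t2]
    simp only [e1]
    unfold Ss
    rw [Finset.mul_sum, Finset.mul_sum]
    refine Finset.sum_le_sum fun I _ => ?_
    rw [Finset.mul_sum, Finset.mul_sum]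
    refine Finset.sum_le_sum fun K _ => ?_
    by_cases hy : yI b₂ c I K = 0
    · rw [hy]
      simp
    · have h1 := hR I K hy
      have h2 : Real.exp (-(lam * (L + Real.log (N K)))) ≤
          Real.exp R * Real.exp (-(lam * L)) := by
        rw [← Real.exp_add]
        exact Real.exp_le_exp.2 (by linarith)
      have h3 := hcs K
      calc cs K * yI b₂ c I K ^ 2 *
            (Real.exp (-(lam * (L + Real.log (N K)))) * (M * (2 * Real.exp (1 / 2 * C₁))))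
          ≤ cs K * yI b₂ c I K ^ 2 *
            ((Real.exp R * Real.exp (-(lam * L))) * (M * (2 * Real.exp (1 / 2 * C₁)))) := by
            gcongr
        _ = _ := by ring
  · refine mul_le_mul_of_nonneg_left (i2.trans ?_) hE
    rw [sub_neg_eq_add, zero_add]
    exact max_le le_rfl (by linarith)

/-- the near part is bounded by the weight -/
theorem x5a_ge (hcs : ∀ K : Idl O, 0 ≤ cs K) (b₀ b₂ : ℕ) (c : Idl O → ℝ)
    {C₁ lam Λ L q E u : ℝ} (h1 : -(1 / 2) ≤ lam) (h2 : lam ≤ Λ) (hΛ : 0 ≤ Λ) (hC : 0 ≤ C₁)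
    (hu : -(2 * L) < u) (hu' : u ≤ 0) (hE : Real.exp (lam * u) * q ≤ E) :
    Real.exp (lam * u) * (Er b₀ b₂ c C₁ (u + L) + q) ≤
      x5a b₀ b₂ c C₁ lam L (Real.exp (Λ * C₁)) E u := by
  unfold x5a
  rw [mul_add]
  refine add_le_add ?_ ?_
  · unfold Er
    rw [Finset.mul_sum]
    refine Finset.sum_le_sum fun I _ => ?_
    rw [Finset.mul_sum]
    refine Finset.sum_le_sum fun K _ => ?_
    have h3 := x5_ee (v := u + (L + Real.log (N K))) h1 h2 hΛ hC
    have h4 : Real.exp (lam * u) = Real.exp (-(lam * (L + Real.log (N K)))) *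
        Real.exp (lam * (u + (L + Real.log (N K)))) := by
      rw [← Real.exp_add]
      congr 1
      ring
    have h5 := hcs K
    rw [add_assoc u L]
    calc Real.exp (lam * u) * (cs K * yI b₂ c I K ^ 2 * ee C₁ (u + (L + Real.log (N K))))
        = cs K * yI b₂ c I K ^ 2 * (Real.exp (-(lam * (L + Real.log (N K)))) *
          (Real.exp (lam * (u + (L + Real.log (N K)))) *
            ee C₁ (u + (L + Real.log (N K))))) := by rw [h4]; ring
      _ ≤ _ := by gcongr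
  · rw [x5i_one hu hu', mul_one]
    exact hE

/-- `L ^ m` against an exponential -/
theorem x5_pow (m : ℕ) {ε : ℝ} (hε : 0 < ε) {L : ℝ} (hL : 0 ≤ L) :
    L ^ m ≤ (m.factorial : ℝ) * (1 / ε) ^ m * Real.exp (ε * L) := by
  have h1 := Real.pow_div_factorial_le_exp (ε * L) (by positivity) m
  have h2 : (0 : ℝ) < m.factorial := by exact_mod_cast Nat.factorial_pos m
  rw [div_le_iff₀ h2] at h1
  have h3 : L ^ m = (1 / ε) ^ m * (ε * L) ^ m := by
    rw [← mul_pow]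
    congr 1
    field_simp
  rw [h3]
  calc (1 / ε) ^ m * (ε * L) ^ m ≤ (1 / ε) ^ m * (Real.exp (ε * L) * m.factorial) := by gcongr
    _ = _ := by ring

theorem x5_N_le (hn : 2 ≤ n) (hO : GLL.Ord O) {b₀ b₂ : ℕ} {c : Idl O → ℝ} {Y : ℝ}
    (hc : CO O (b₀ * b₂) Y c) {I K : Idl O} (h : yI b₂ c I K ≠ 0) : (N K : ℝ) ≤ Y := by
  classical
  unfold yI at h
  obtain ⟨J, -, hJ⟩ := Finset.exists_ne_zero_of_sum_ne_zero h
  have hJK : J ≤ K := by
    by_contra h1
    exact hJ (if_neg h1)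
  rw [if_pos hJK] at hJ
  have h2 : c (infI I J) ≠ 0 := fun h0 => hJ (by rw [h0, zero_mul])
  have h3 := hc.cut _ h2
  have h4 : infI I J ≤ J := by
    show (infI I J).1 ≤ J.1
    rw [(IF_inf hn hO I J).1]
    exact inf_le_right
  have h5 : N K ∣ N (infI I J) :=
    (IF_dvd hn hO K J hJK).1.trans (IF_dvd hn hO J (infI I J) h4).1
  have h6 : 0 < N (infI I J) := (IF_gen hn hO _).2.2.1
  exact le_trans (by exact_mod_cast Nat.le_of_dvd h6 h5) h3

/-- the final estimate -/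
theorem x5_final {δ θ1 L Cf Ia I' M' A₁ c1 e4 X Q : ℝ} (hδ : 0 < δ) (hθ1 : 0 < θ1) (hL1 : 1 ≤ L)
    (hQ : Q = Real.exp L) (hM' : 0 ≤ M') (hc1 : 0 ≤ c1) (he4 : 0 ≤ e4) (hX : 0 ≤ X)
    (hIa : Ia ≤ c1 * X + e4 * Q⁻¹ * (2 * L)) (hI' : I' ≤ max (A₁ - -(2 * L)) 0) :
    Ia * (1 / δ) + I' * (M' * L ^ Cf) * (Real.exp (-(δ * (θ1 * L))) / δ) ≤
      (1 / δ * c1 + 1 / δ * (4 * e4) + (|A₁| + 2) * M' *
        (((⌈Cf⌉₊ + 1).factorial : ℝ) * (1 / (δ * θ1 / 2)) ^ (⌈Cf⌉₊ + 1)) / δ) *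
        (X + Q ^ (-(min (1 / 2) (δ * θ1 / 2)))) := by
  have hL0 : 0 < L := by linarith
  have hQp : 0 < Q := by rw [hQ]; exact Real.exp_pos _
  have hεp : 0 < δ * θ1 / 2 := by positivity
  generalize hε : δ * θ1 / 2 = ε at hεp ⊢
  have hZe : Q ^ (-(min (1 / 2) ε)) = Real.exp (-(min (1 / 2) ε) * L) := by
    rw [Real.rpow_def_of_pos hQp, hQ, Real.log_exp, mul_comm]
  have hZ1 : Real.exp (-(1 / 2 * L)) ≤ Real.exp (-(min (1 / 2) ε) * L) := by
    refine Real.exp_le_exp.2 ?_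
    have := mul_le_mul_of_nonneg_right (min_le_left (1 / 2) ε) hL0.le
    linarith
  have hZ2 : Real.exp (-(ε * L)) ≤ Real.exp (-(min (1 / 2) ε) * L) := by
    refine Real.exp_le_exp.2 ?_
    have := mul_le_mul_of_nonneg_right (min_le_right (1 / 2) ε) hL0.le
    linarith
  rw [hZe]
  generalize Real.exp (-(min (1 / 2) ε) * L) = Z at hZ1 hZ2
  have hZ0 : 0 < Z := lt_of_lt_of_le (Real.exp_pos _) hZ1
  have hLQ : L * Q⁻¹ ≤ 2 * Z := by
    have h1 : L ≤ 2 * Real.exp (1 / 2 * L) := by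
      have := Real.add_one_le_exp (1 / 2 * L)
      linarith
    have h2 : Q⁻¹ = Real.exp (-L) := by rw [hQ, Real.exp_neg]
    calc L * Q⁻¹ ≤ 2 * Real.exp (1 / 2 * L) * Real.exp (-L) := by rw [h2]; gcongr
      _ = 2 * Real.exp (-(1 / 2 * L)) := by
          rw [mul_assoc, ← Real.exp_add]
          congr 2
          ring
      _ ≤ _ := by gcongr
  have hIa2 : Ia ≤ c1 * X + 4 * e4 * Z := by
    refine hIa.trans ?_
    have h1 : e4 * Q⁻¹ * (2 * L) ≤ 4 * e4 * Z := by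
      calc e4 * Q⁻¹ * (2 * L) = 2 * e4 * (L * Q⁻¹) := by ring
        _ ≤ 2 * e4 * (2 * Z) := by gcongr
        _ = _ := by ring
    linarith
  generalize hD : (((⌈Cf⌉₊ + 1).factorial : ℝ) * (1 / ε) ^ (⌈Cf⌉₊ + 1)) = D
  have hD0 : 0 ≤ D := by rw [← hD]; positivity
  have hp := x5_pow (⌈Cf⌉₊ + 1) hεp hL0.le
  rw [hD] at hp
  have h1 : I' ≤ (|A₁| + 2) * L := by
    refine hI'.trans (max_le ?_ (by positivity))
    have h2 := le_abs_self A₁
    have h3 := mul_le_mul_of_nonneg_left hL1 (abs_nonneg A₁)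
    linarith
  have h2 : L * L ^ Cf ≤ L ^ (⌈Cf⌉₊ + 1) := by
    have h3 : L ^ Cf ≤ L ^ ((⌈Cf⌉₊ : ℕ) : ℝ) :=
      Real.rpow_le_rpow_of_exponent_le hL1 (Nat.le_ceil _)
    rw [Real.rpow_natCast] at h3
    rw [pow_succ']
    exact mul_le_mul_of_nonneg_left h3 hL0.le
  have h5 : Real.exp (ε * L) * Real.exp (-(δ * (θ1 * L))) = Real.exp (-(ε * L)) := by
    rw [← Real.exp_add, ← hε]
    congr 1
    ring
  have hIa' : I' * (M' * L ^ Cf) * Real.exp (-(δ * (θ1 * L))) ≤ (|A₁| + 2) * M' * D * Z := by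
    have h6 := h2.trans hp
    have h7 : 0 ≤ M' * L ^ Cf * Real.exp (-(δ * (θ1 * L))) := by positivity
    calc I' * (M' * L ^ Cf) * Real.exp (-(δ * (θ1 * L)))
        = I' * (M' * L ^ Cf * Real.exp (-(δ * (θ1 * L)))) := by ring
      _ ≤ (|A₁| + 2) * L * (M' * L ^ Cf * Real.exp (-(δ * (θ1 * L)))) :=
          mul_le_mul_of_nonneg_right h1 h7
      _ = (|A₁| + 2) * M' * Real.exp (-(δ * (θ1 * L))) * (L * L ^ Cf) := by ring
      _ ≤ (|A₁| + 2) * M' * Real.exp (-(δ * (θ1 * L))) * (D * Real.exp (ε * L)) :=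
          mul_le_mul_of_nonneg_left h6 (by positivity)
      _ = (|A₁| + 2) * M' * D * (Real.exp (ε * L) * Real.exp (-(δ * (θ1 * L)))) := by ring
      _ = (|A₁| + 2) * M' * D * Real.exp (-(ε * L)) := by rw [h5]
      _ ≤ _ := mul_le_mul_of_nonneg_left hZ2 (by positivity)
  have h3 : 0 ≤ 1 / δ * c1 * Z := by positivity
  have h4 : 0 ≤ (1 / δ * (4 * e4) + (|A₁| + 2) * M' * D / δ) * X := by positivity
  have h8 : Ia * (1 / δ) ≤ (c1 * X + 4 * e4 * Z) * (1 / δ) :=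
    mul_le_mul_of_nonneg_right hIa2 (by positivity)
  have h9 : I' * (M' * L ^ Cf) * (Real.exp (-(δ * (θ1 * L))) / δ) ≤
      (|A₁| + 2) * M' * D * Z / δ := by
    rw [← mul_div_assoc]
    exact div_le_div_of_nonneg_right hIa' hδ.le
  have h10 : (1 / δ * c1 + 1 / δ * (4 * e4) + (|A₁| + 2) * M' * D / δ) * (X + Z) =
      ((c1 * X + 4 * e4 * Z) * (1 / δ) + (|A₁| + 2) * M' * D * Z / δ) +
      (1 / δ * c1 * Z + (1 / δ * (4 * e4) + (|A₁| + 2) * M' * D / δ) * X) := by ring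
  rw [h10]
  linarith

set_option linter.unusedVariables false in
theorem Gt_int_pr (hn : 2 ≤ n) (hO : GLL.Ord O) {θ : ℝ} (hθ0 : 0 ≤ θ) (hθ : θ < 1) {σ₂ : ℝ}
    (hσ₂ : σ₂ < ((n : ℝ) + 1) / 2) : ∃ c₀ : ℝ, 0 < c₀ ∧ ∀ {k : Mt n → ℂ}, Sph2 k →
    ∀ {φ : ℝ → ℂ} {A : ℝ}, TF φ A → ∫ X : Mt n, Phi φ k X = 0 → ∀ {β : Mt n → ℝ}, Bt β →
    ∀ b₀ : ℕ, 0 < b₀ → ∀ A₁ R R' : ℝ, ∃ C Q0 : ℝ, 0 ≤ C ∧ 1 ≤ Q0 ∧
      ∀ Q : ℝ, Q0 ≤ Q → ∀ b₂ : ℕ, b₂ ∣ primorial ⌊Q⌋₊ → b₀.Coprime b₂ →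
      ∀ c : Idl O → ℝ, CO O (b₀ * b₂) (Q ^ θ) c → ∀ κ : ℝ → ℝ, CF (Real.log Q) A₁ κ →
      ∀ s : ℂ, 1 / 2 - R / Real.log Q ≤ s.re → s.re ≤ σ₂ →
      ∀ x ∈ K1 n R', ∀ y ∈ K1 n R', ∀ Y ∈ K1 n R',
        ‖(DI n κ s fun u u' => Gt b₀ (b₀ * b₂) β (Phi φ k) c Q u u' x y Y) +
          (((covO O ^ 2)⁻¹ * Q ^ n * rho O b₀ * (∫ H : Mt n, β H) * k2 k *
            POS (b₀ * b₂) c (Real.log Q) φ κ s : ℝ) : ℂ)‖ ≤
          C * Q ^ n * (Real.exp (-((2 * s.re - 1) * Real.log Q)) * Ss b₀ b₂ c + Q ^ (-c₀)) := by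
  set θ1 : ℝ := (1 - θ) / 2 with hθ1
  have hθ1p : 0 < θ1 := by rw [hθ1]; linarith
  have hθs : θ + θ1 < 1 := by rw [hθ1]; linarith
  set δ : ℝ := ((n : ℝ) + 1) / 2 - σ₂ with hδ
  have hδp : 0 < δ := by rw [hδ]; linarith
  refine ⟨min (1 / 2) (δ * θ1 / 2), lt_min (by norm_num) (by positivity), ?_⟩
  intro k hk φ A hφ h0 β hβ b₀ hb₀ A₁ R R'
  have hφc : HasCompactSupport φ := by
    refine HasCompactSupport.of_support_subset_isCompact (isCompact_Icc (a := -A) (b := A)) ?_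
    intro v hv
    exact abs_le.1 (hφ.supp v hv)
  have hT : Tst (Phi φ k) := IF_TstPhi_pr hn k hk φ hφ.smooth hφc
  have hNp : ∀ K : Idl O, 0 < N K := fun K => (IF_gen hn hO K).2.2.1
  have hcs : ∀ K : Idl O, 0 ≤ cs K := cs_nonneg hn hO
  obtain ⟨Cn, C₁, Qn, hCn, hC₁, hQn, Hn⟩ :=
    near hn hO hk hφ h0 hβ b₀ hb₀ R' A₁ hθ0 hθ1p.le hθs
  obtain ⟨Cf, r₁, Qf, hCf, hr₁, hQf, Hf⟩ := far hn hO hT h0 hβ b₀ hb₀ R' A₁ hθ0 hθ
  set Λ : ℝ := |2 * σ₂ - 1| with hΛ
  have hΛ0 : 0 ≤ Λ := abs_nonneg _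
  set M : ℝ := Real.exp (Λ * C₁) with hM
  set M' : ℝ := Real.exp (4 * |R| + Λ * |A₁|) with hM'
  set Cm : ℝ := max Cn Cf with hCm
  have hCm0 : 0 ≤ Cm := hCn.trans (le_max_left _ _)
  set T : ℝ := 1 + 4 * |R| + C₁ + r₁ / θ1 + 2 * |A| / θ1 + 1 with hTdef
  have hT1 : 0 ≤ r₁ / θ1 := by positivity
  have hT2 : 0 ≤ 2 * |A| / θ1 := by positivity
  have hR0 : 0 ≤ |R| := abs_nonneg _
  refine ⟨2 * Cm * (1 / δ * (M * (2 * Real.exp (1 / 2 * C₁)) * Real.exp (2 * |R|)) +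
    1 / δ * (4 * Real.exp (4 * |R|)) + (|A₁| + 2) * M' *
      (((⌈Cf⌉₊ + 1).factorial : ℝ) * (1 / (δ * θ1 / 2)) ^ (⌈Cf⌉₊ + 1)) / δ),
    max (max Qn Qf) (Real.exp T), by positivity,
    hQn.trans ((le_max_left _ _).trans (le_max_left _ _)), ?_⟩
  intro Q hQ b₂ hb₂ hcop c hc κ hκ s hs1 hs2 x hx y hy Y hY
  have hQn' : Qn ≤ Q := ((le_max_left _ _).trans (le_max_left _ _)).trans hQ
  have hQf' : Qf ≤ Q := ((le_max_right _ _).trans (le_max_left _ _)).trans hQ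
  have hQT : Real.exp T ≤ Q := (le_max_right _ _).trans hQ
  have hQ1 : 1 ≤ Q := hQn.trans hQn'
  have hQp : 0 < Q := by linarith
  set L : ℝ := Real.log Q with hL
  have hLT : T ≤ L := by
    rw [hL, Real.le_log_iff_exp_le hQp]
    exact hQT
  have hL1 : 1 ≤ L := by linarith
  have hL0 : 0 < L := by linarith
  have hLC : C₁ ≤ L := by linarith
  have hLR : 4 * |R| ≤ L := by linarith
  have hLr : r₁ ≤ θ1 * L := by
    have : r₁ / θ1 ≤ L := by linarith
    rw [div_le_iff₀ hθ1p] at this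
    linarith
  have hLA : 2 * |A| ≤ θ1 * L := by
    have : 2 * |A| / θ1 ≤ L := by linarith
    rw [div_le_iff₀ hθ1p] at this
    linarith
  have hQe : Q = Real.exp L := by rw [hL, Real.exp_log hQp]
  have hb₂0 : 0 < b₂ := Nat.pos_of_dvd_of_pos hb₂ (primorial_pos _)
  set lam : ℝ := 2 * s.re - 1 with hlam
  have hlamL : -lam * L ≤ 2 * |R| := by
    have h1 : (1 / 2 - R / L) * L ≤ s.re * L := mul_le_mul_of_nonneg_right hs1 hL0.le
    have h2 : (1 / 2 - R / L) * L = L / 2 - R := by field_simp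
    have h3 := le_abs_self R
    rw [hlam]
    nlinarith
  have hlam1 : -(1 / 2) ≤ lam := by
    by_contra h
    push Not at h
    have h1 : 1 / 2 * L < -lam * L := mul_lt_mul_of_pos_right (by linarith) hL0
    linarith
  have hlam2 : lam ≤ Λ := by
    rw [hΛ, hlam]
    exact (by linarith : 2 * s.re - 1 ≤ 2 * σ₂ - 1).trans (le_abs_self _)
  -- bounds of exponentials
  have hlu : ∀ u : ℝ, -(2 * L) ≤ u → u ≤ 0 → lam * u ≤ 4 * |R| := by
    intro u h1 h2
    rcases le_total 0 lam with h3 | h3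
    · nlinarith
    · nlinarith [mul_nonneg (neg_nonneg.2 h3) (by linarith : (0 : ℝ) ≤ 2 * L + u)]
  have hlK : ∀ I K : Idl O, yI b₂ c I K ≠ 0 → -(lam * Real.log (N K)) ≤ 2 * |R| := by
    intro I K h
    have h1 := x5_N_le hn hO hc h
    have h2 : 0 ≤ Real.log (N K) := Real.log_nonneg (by exact_mod_cast hNp K)
    have h3 : Real.log (N K) ≤ L := by
      have h4 := Real.log_le_log (by exact_mod_cast hNp K : (0 : ℝ) < N K) h1
      rw [Real.log_rpow hQp] at h4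
      nlinarith
    rcases le_total 0 lam with h5 | h5
    · nlinarith
    · nlinarith [mul_nonneg (neg_nonneg.2 h5) (by linarith : (0 : ℝ) ≤ L - Real.log (N K))]
  set E : ℝ := Real.exp (4 * |R|) * Q⁻¹ with hE
  have hE0 : 0 ≤ E := by positivity
  -- the four functions
  obtain ⟨a1, a2⟩ := x5a_int (O := O) hcs b₀ b₂ c (C₁ := C₁) (lam := lam) (L := L) (M := M)
    (E := E) (R := 2 * |R|) (Real.exp_pos _).le hE0 hL0.le hlK
  obtain ⟨b1, b2⟩ := x5b_int hδp 0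
  obtain ⟨i1, i2⟩ := x5i_int (-(2 * L)) A₁
  obtain ⟨d1, d2⟩ := x5b_int hδp (θ1 * L)
  have a'1 : Integrable (fun u => x5i (-(2 * L)) A₁ u * (M' * L ^ Cf)) := i1.mul_const _
  -- integrability
  have hGc := Gt_cont hn hO hT hβ b₀ (b₀ * b₂) c hQp R' hx hy hY
  have hGB : ∃ B : ℝ, ∀ u u' : ℝ, -(2 * L) ≤ u → u ≤ A₁ → -(2 * L) ≤ u' → u' ≤ A₁ →
      ‖Gt b₀ (b₀ * b₂) β (Phi φ k) c Q u u' x y Y‖ ≤ B := by
    obtain ⟨B, hB⟩ := ((isCompact_Icc (a := -(2 * L)) (b := A₁)).prod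
      (isCompact_Icc (a := -(2 * L)) (b := A₁))).exists_bound_of_continuousOn hGc.continuousOn
    exact ⟨B, fun u u' h1 h2 h3 h4 => hB (u, u') ⟨⟨h1, h2⟩, ⟨h3, h4⟩⟩⟩
  obtain ⟨B, hB⟩ := hGB
  have hG := x5_intble (n := n) hκ s
    (g := fun u u' => Gt b₀ (b₀ * b₂) β (Phi φ k) c Q u u' x y Y) hGc.measurable hB
  obtain ⟨hMm, B', hB'⟩ := x5_Mn_meas (O := O) b₀ (b₀ * b₂) β k hφ c Q L A₁
  have hMi := x5_intble (n := n) hκ s (g := fun u u' => Mn b₀ (b₀ * b₂) β k φ c Q u u') hMm hB'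
  have e1 : (DI n κ s fun u u' => Gt b₀ (b₀ * b₂) β (Phi φ k) c Q u u' x y Y) =
      ∫ p : ℝ × ℝ, om n κ s p.1 * (starRingEnd ℂ) (om n κ s p.2) *
        Gt b₀ (b₀ * b₂) β (Phi φ k) c Q p.1 p.2 x y Y ∂(volume.prod volume) :=
    integral_integral hG
  have e2 : (DI n κ s fun u u' => Mn b₀ (b₀ * b₂) β k φ c Q u u') =
      ∫ p : ℝ × ℝ, om n κ s p.1 * (starRingEnd ℂ) (om n κ s p.2) *
        Mn b₀ (b₀ * b₂) β k φ c Q p.1 p.2 ∂(volume.prod volume) :=
    integral_integral hMi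
  rw [← Mn_int hn hO hk hφ β b₀ (b₀ * b₂) c hQ1 hκ s, e1, e2, ← integral_add hG hMi]
  -- the pointwise bound
  have hpos : ∀ u w : ℝ, 0 ≤ (Cm * Q ^ n) * (x5a b₀ b₂ c C₁ lam L M E u * x5b δ 0 w +
      (x5i (-(2 * L)) A₁ u * (M' * L ^ Cf)) * x5b δ (θ1 * L) w) := by
    intro u w
    have h1 := x5a_nonneg (O := O) hcs b₀ b₂ c (C₁ := C₁) (lam := lam) (L := L)
      (Real.exp_pos (Λ * C₁)).le hE0 u
    have h2 := x5b_nonneg δ 0 w
    have h3 := x5b_nonneg δ (θ1 * L) w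
    have h4 := x5i_nonneg (-(2 * L)) A₁ u
    positivity
  have hF : ∀ u u' : ℝ, u ≤ u' → ‖om n κ s u‖ * ‖om n κ s u'‖ *
      ‖Gt b₀ (b₀ * b₂) β (Phi φ k) c Q u u' x y Y + Mn b₀ (b₀ * b₂) β k φ c Q u u'‖ ≤
      (Cm * Q ^ n) * (x5a b₀ b₂ c C₁ lam L M E u * x5b δ 0 (u' - u) +
      (x5i (-(2 * L)) A₁ u * (M' * L ^ Cf)) * x5b δ (θ1 * L) (u' - u)) := by
    intro u u' huu
    by_cases hz : om n κ s u = 0
    · rw [hz, norm_zero, zero_mul, zero_mul]
      exact hpos _ _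
    by_cases hz' : om n κ s u' = 0
    · rw [hz', norm_zero, mul_zero, zero_mul]
      exact hpos _ _
    obtain ⟨o1, o2⟩ := x5_om (n := n) hκ s u
    obtain ⟨o1', o2'⟩ := x5_om (n := n) hκ s u'
    obtain ⟨u1, u2⟩ := o2 hz
    obtain ⟨u1', u2'⟩ := o2' hz'
    have hw : 0 ≤ u' - u := by linarith
    have hex : Real.exp ((s.re + ((n : ℝ) - 1) / 2) * u) *
        Real.exp ((s.re + ((n : ℝ) - 1) / 2) * u') * Real.exp (-(n * u')) ≤
        Real.exp (lam * u) * Real.exp (-δ * (u' - u)) := by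
      rw [← Real.exp_add, ← Real.exp_add, ← Real.exp_add]
      refine Real.exp_le_exp.2 ?_
      have h1 : δ ≤ ((n : ℝ) + 1) / 2 - s.re := by rw [hδ]; linarith
      have h2 := mul_le_mul_of_nonneg_right h1 hw
      rw [hlam]
      nlinarith
    have hprod : ∀ {G X : ℝ}, 0 ≤ X → G ≤ Real.exp (-(n * u')) * X →
        ‖om n κ s u‖ * ‖om n κ s u'‖ * G ≤
          Real.exp (lam * u) * Real.exp (-δ * (u' - u)) * X := by
      intro G X hX hG'
      calc ‖om n κ s u‖ * ‖om n κ s u'‖ * G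
          ≤ ‖om n κ s u‖ * ‖om n κ s u'‖ * (Real.exp (-(n * u')) * X) := by gcongr
        _ ≤ Real.exp ((s.re + ((n : ℝ) - 1) / 2) * u) *
            Real.exp ((s.re + ((n : ℝ) - 1) / 2) * u') * (Real.exp (-(n * u')) * X) := by
            gcongr
        _ = (Real.exp ((s.re + ((n : ℝ) - 1) / 2) * u) *
            Real.exp ((s.re + ((n : ℝ) - 1) / 2) * u') * Real.exp (-(n * u'))) * X := by ring
        _ ≤ _ := by gcongr
    have ha0 := x5a_nonneg (O := O) hcs b₀ b₂ c (C₁ := C₁) (lam := lam) (L := L)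
      (Real.exp_pos (Λ * C₁)).le hE0 u
    have hi0 := x5i_nonneg (-(2 * L)) A₁ u
    have hb0 := x5b_nonneg δ 0 (u' - u)
    have hb0' := x5b_nonneg δ (θ1 * L) (u' - u)
    rcases le_or_gt (u' - u) (θ1 * L) with hw1 | hw1
    · -- near
      obtain ⟨n1, n2⟩ := Hn Q u u' hQn' huu hw1 u1.le u2' b₂ hb₂0 hcop c hc x hx y hy Y hY
      by_cases hCu : C₁ < u + Real.log Q
      · rw [n2 hCu, x5_Mn_zero b₀ (b₀ * b₂) β k φ c hNp (by linarith), add_zero, norm_zero,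
          mul_zero]
        exact hpos _ _
      · push Not at hCu
        have hu0 : u ≤ 0 := by rw [← hL] at hCu; linarith
        have hEr : 0 ≤ Er b₀ b₂ c C₁ (u + Real.log Q) := by
          unfold Er
          refine Finset.sum_nonneg fun I _ => Finset.sum_nonneg fun K _ => ?_
          have h1 := hcs K
          have h2 : 0 ≤ ee C₁ (u + Real.log Q + Real.log (N K)) := by
            unfold ee
            split_ifs
            · exact (Real.exp_pos _).le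
            · exact le_rfl
          positivity
        have hE' : Real.exp (lam * u) * Q⁻¹ ≤ E := by
          rw [hE]
          have := Real.exp_le_exp.2 (hlu u u1.le hu0)
          gcongr
        have h3 := x5a_ge (O := O) hcs b₀ b₂ c (C₁ := C₁) (lam := lam) (Λ := Λ) (L := L)
          (q := Q⁻¹) (E := E) (u := u) hlam1 hlam2 hΛ0 hC₁ u1 hu0 hE'
        have h4 := hprod (G := ‖Gt b₀ (b₀ * b₂) β (Phi φ k) c Q u u' x y Y +
          Mn b₀ (b₀ * b₂) β k φ c Q u u'‖)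
          (X := Cn * Q ^ n * (Er b₀ b₂ c C₁ (u + Real.log Q) + Q⁻¹)) (by positivity)
          (n1.trans (le_of_eq (by ring)))
        refine h4.trans ?_
        have h5 : x5b δ 0 (u' - u) = Real.exp (-δ * (u' - u)) := by
          unfold x5b
          rw [if_pos hw]
        rw [h5]
        have h6 : 0 ≤ (x5i (-(2 * L)) A₁ u * (M' * L ^ Cf)) * x5b δ (θ1 * L) (u' - u) := by
          positivity
        calc Real.exp (lam * u) * Real.exp (-δ * (u' - u)) *
              (Cn * Q ^ n * (Er b₀ b₂ c C₁ (u + Real.log Q) + Q⁻¹))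
            = Cn * Q ^ n * ((Real.exp (lam * u) *
              (Er b₀ b₂ c C₁ (u + L) + Q⁻¹)) * Real.exp (-δ * (u' - u))) := by
              rw [hL]; ring
          _ ≤ Cm * Q ^ n * (x5a b₀ b₂ c C₁ lam L M E u * Real.exp (-δ * (u' - u))) := by
              have : Cn ≤ Cm := le_max_left _ _
              gcongr
          _ ≤ _ := by
              rw [mul_add]
              have : 0 ≤ Cm * Q ^ n * ((x5i (-(2 * L)) A₁ u * (M' * L ^ Cf)) *
                x5b δ (θ1 * L) (u' - u)) := by positivity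
              linarith
    · -- far
      have f1 := Hf Q u u' hQf' (by linarith) u2' u1.le b₂ hb₂ hcop c hc x hx y hy Y hY
      have f2 : Mn b₀ (b₀ * b₂) β k φ c Q u u' = 0 := by
        unfold Mn
        rw [(Phc_facts hφ).2.1 u u' ?_, mul_zero]
        rw [abs_sub_comm, abs_of_nonneg hw]
        have := le_abs_self A
        linarith
      rw [f2, add_zero]
      have h4 := hprod (G := ‖Gt b₀ (b₀ * b₂) β (Phi φ k) c Q u u' x y Y‖)
        (X := Cf * Q ^ n * L ^ Cf) (by positivity) (f1.trans (le_of_eq (by rw [hL]; ring)))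
      refine h4.trans ?_
      have h5 : x5b δ (θ1 * L) (u' - u) = Real.exp (-δ * (u' - u)) := by
        unfold x5b
        rw [if_pos hw1.le]
      rw [h5, x5i_one u1 u2, one_mul]
      have h6 : Real.exp (lam * u) ≤ M' := by
        rw [hM']
        refine Real.exp_le_exp.2 ?_
        rcases le_total u 0 with h7 | h7
        · have := hlu u u1.le h7
          have : 0 ≤ Λ * |A₁| := by positivity
          linarith
        · have h8 : lam * u ≤ Λ * u := mul_le_mul_of_nonneg_right hlam2 h7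
          have h9 : Λ * u ≤ Λ * |A₁| :=
            mul_le_mul_of_nonneg_left (u2.trans (le_abs_self _)) hΛ0
          linarith
      have h7 : 0 ≤ x5a b₀ b₂ c C₁ lam L M E u * x5b δ 0 (u' - u) := by positivity
      calc Real.exp (lam * u) * Real.exp (-δ * (u' - u)) * (Cf * Q ^ n * L ^ Cf)
          ≤ M' * Real.exp (-δ * (u' - u)) * (Cm * Q ^ n * L ^ Cf) := by
            have : Cf ≤ Cm := le_max_right _ _
            gcongr
        _ = Cm * Q ^ n * (M' * L ^ Cf * Real.exp (-δ * (u' - u))) := by ring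
        _ ≤ _ := by
            rw [mul_add]
            have : 0 ≤ Cm * Q ^ n * (x5a b₀ b₂ c C₁ lam L M E u * x5b δ 0 (u' - u)) := by
              positivity
            linarith
  -- the double integral
  have hdbl := x5_dbl a1 b1 a'1 d1 (Cm * Q ^ n)
    (F := fun p : ℝ × ℝ => om n κ s p.1 * (starRingEnd ℂ) (om n κ s p.2) *
        Gt b₀ (b₀ * b₂) β (Phi φ k) c Q p.1 p.2 x y Y +
      om n κ s p.1 * (starRingEnd ℂ) (om n κ s p.2) *
        Mn b₀ (b₀ * b₂) β k φ c Q p.1 p.2) (by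
      intro u u' huu
      refine ⟨?_, ?_⟩
      · simp only
        rw [← mul_add, norm_mul, norm_mul, RCLike.norm_conj]
        exact hF u u' huu
      · simp only
        rw [← mul_add, norm_mul, norm_mul, RCLike.norm_conj,
          Gt_symm hn hO hT hβ b₀ (b₀ * b₂) hb₀ c hQp u u' R' hx hy hY,
          x5_Mn_symm b₀ (b₀ * b₂) β k hφ c Q u u', ← map_add, RCLike.norm_conj,
          mul_comm ‖om n κ s u'‖]
        exact hF u u' huu) hpos
  refine hdbl.trans ?_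
  have hSs : 0 ≤ Ss b₀ b₂ c := by
    unfold Ss
    refine Finset.sum_nonneg fun I _ => Finset.sum_nonneg fun K _ => ?_
    have := hcs K
    positivity
  have hfin := x5_final (Cf := Cf) (A₁ := A₁) hδp hθ1p hL1 hQe (Real.exp_pos _).le
    (by positivity) (Real.exp_pos _).le (mul_nonneg (Real.exp_pos _).le hSs) a2 i2
    (M' := M')
  rw [b2, d2, mul_zero, neg_zero, Real.exp_zero, integral_mul_const]
  refine (mul_le_mul_of_nonneg_left (mul_le_mul_of_nonneg_left hfin (by positivity))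
    (by norm_num : (0 : ℝ) ≤ 2)).trans (le_of_eq ?_)
  rw [hQe]
  ring


end

end Pool.Agent.RZH

namespace Pool.Agent.RZH

theorem Gt_int : type_of% @Gt_int_pr := @Gt_int_pr

end Pool.Agent.RZH
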