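import Pool.Agent.Lib_helper16.GLL.XDefs
import Pool.Agent.Lib_helper32.LAL.SD2
import Pool.Agent.Lib_helper32.LAL.SDefs
import Pool.Agent.Lib_helper32.LALS.S_EX
import Pool.Agent.Lib_helper32.LALS.S_SC3
import Pool.Agent.Lib_helper32.LALS.S_SH4
import Pool.Agent.Lib_helper32.LALS.S_SI4
import Pool.Agent.Lib_helper32.LALS.S_SL
import Pool.Agent.Lib_helper32.LALS.S_SN
import Pool.Agent.Lib_helper32.LALS.S_SQ
import Pool.Agent.Lib_helper41.RZGF.R_S5a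
import Pool.Agent.Lib_helper41.RZGF.R_X2
import Pool.Agent.Lib_helper41.RZGF.R_X2b
import Pool.Agent.Lib_helper41.RZGF.R_X3
import Pool.Agent.Lib_helper41.RZGF.R_X5
import Pool.Agent.Lib_helper42.GLM.Defs
import Pool.Agent.Lib_helper75.RZG.Defs
import Pool.Agent.Lib_helper96.GLF.H_HF1
import Pool.Agent.Lib_helper96.GLF.O_OA3
import Pool.Agent.Lib_helper96.GLF.O_OH
import Pool.Agent.Lib_helper96.GLF.O_OL2
import Pool.Agent.Lib_helper96.GLF.O_OL4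
import Pool.Agent.Lib_helper96.GLF.T_TK
import Pool.Agent.Lib_helper96.GLF.T_TN
import Pool.Agent.Lib_helper96.GLF.X_GLUE_11
import Pool.Agent.Lib_helper96.GLF.X_XB
import Pool.Agent.Lib_helper96.GLF.X_XE1
import Pool.Agent.Lib_helper96.GLF.X_XG
import Pool.Agent.Lib_helper96.GLL.Defs
import Pool.Agent.Lib_helper96.GLL.DefsB

/-!
# Project RZG, block X6: the sieve bound (helper25)
-/

set_option autoImplicit false

namespace Pool.Agent.RZH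

open MeasureTheory Matrix Complex Filter Topology Pool.Agent.GLL Pool.Agent.LAL
open scoped ENNReal ContDiff

noncomputable section

variable {n : ℕ} {O : Subring (Mt n)}

/-! ### The coefficients `bF` -/

theorem x6_mem (hn : 2 ≤ n) (hO : GLL.Ord O) {b : ℕ} (hb : 0 < b) (I : Idl O) :
    I ∈ PI O b ↔ (b : Mt n) ∈ I.1 := by
  classical
  have hfin : {I : Idl O | (b : Mt n) ∈ I.1}.Finite := (IF_mob hn hO b hb).2.2.1
  rw [PI, dif_pos hfin, Set.Finite.mem_toFinset]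
  rfl

theorem x6_unit (hn : 2 ≤ n) (hO : GLL.Ord O) {b : ℕ} (hb : 0 < b) (γ : Oˣ) (J : Idl O) :
    J ∈ PI O b ↔ aI (γ : O) J ∈ PI O b := by
  rw [x6_mem hn hO hb, x6_mem hn hO hb,
    ((IF_aI hn hO (γ : O) (GLH.hf1_ne hn γ)).1 J).1]
  have e1 : ((γ : O) : Mt n) * (((γ⁻¹ : Oˣ) : O) : Mt n) = 1 := by
    have h3 : (γ : O) * ((γ⁻¹ : Oˣ) : O) = 1 := Units.mul_inv γ
    exact congrArg Subtype.val h3
  have e2 : (((γ⁻¹ : Oˣ) : O) : Mt n) * ((γ : O) : Mt n) = 1 := by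
    have h3 : ((γ⁻¹ : Oˣ) : O) * (γ : O) = 1 := Units.inv_mul γ
    exact congrArg Subtype.val h3
  have hcomm : ∀ M : Mt n, (b : Mt n) * M = M * (b : Mt n) := fun M => Nat.cast_commute b M
  constructor
  · intro h
    refine ⟨(b : Mt n) * (((γ⁻¹ : Oˣ) : O) : Mt n), J.2.2.2 _ h _ ((γ⁻¹ : Oˣ) : O).2, ?_⟩
    show ((γ : O) : Mt n) * ((b : Mt n) * (((γ⁻¹ : Oˣ) : O) : Mt n)) = (b : Mt n)
    rw [hcomm, ← mul_assoc, e1, one_mul]
  · rintro ⟨y, hy, hyb⟩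
    have hyb' : ((γ : O) : Mt n) * y = (b : Mt n) := hyb
    have h1 : y * ((γ : O) : Mt n) = (b : Mt n) := by
      have h2 : y = (((γ⁻¹ : Oˣ) : O) : Mt n) * (b : Mt n) := by
        rw [← hyb', ← mul_assoc, e2, one_mul]
      rw [h2, mul_assoc, hcomm, ← mul_assoc, e2, one_mul]
    rw [← h1]
    exact J.2.2.2 y hy _ (γ : O).2

theorem x6_hk (hn : 2 ≤ n) (hO : GLL.Ord O) {b : ℕ} (hb : 0 < b) {c : Idl O → ℝ}
    (hc : IsHk c) : IsHk (bF b c) := by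
  classical
  have hcu : ∀ (γ : Oˣ) (J : Idl O), c (aI (γ : O) J) = c J := by
    intro γ J
    obtain ⟨h1, h2, _, _⟩ := IF_gen hn hO J
    have h3 : J = pI (gen J) h1 := Subtype.ext h2
    have h4 := hc γ (gen J) h1 (GLH.hf1_mul_ne γ h1)
    rw [← GLH.hf1_pI hn hO γ (gen J) h1 (GLH.hf1_mul_ne γ h1), ← h3] at h4
    exact h4
  intro γ a h h'
  rw [← GLH.hf1_pI hn hO γ a h h']
  set g := pI a h with hg
  unfold bF
  congr 1
  symm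
  refine Finset.sum_bijective (fun J : Idl O => aI (γ : O) J) (GLH.hf1_bij hn hO γ)
    (fun J => x6_unit hn hO hb γ J) (fun J _ => ?_)
  show (if g ≤ J then c J else 0) =
    if aI (γ : O) g ≤ aI (γ : O) J then c (aI (γ : O) J) else 0
  rw [hcu γ J]
  by_cases hgJ : g ≤ J
  · rw [if_pos hgJ, if_pos ((GLH.hf1_le hn hO γ g J).2 hgJ)]
  · rw [if_neg hgJ, if_neg (fun hh => hgJ ((GLH.hf1_le hn hO γ g J).1 hh))]

theorem x6_bd (b : ℕ) (c : Idl O → ℝ) (I : Idl O) :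
    ‖bF b c I‖ ≤ (∑ A ∈ PI O b, |c A|) * (N I : ℝ) ^ (0 : ℝ) := by
  classical
  rw [Real.rpow_zero, mul_one]
  unfold bF
  rw [Complex.norm_real, Real.norm_eq_abs]
  refine (Finset.abs_sum_le_sum_abs _ _).trans (Finset.sum_le_sum fun A _ => ?_)
  split_ifs
  · exact le_rfl
  · rw [abs_zero]
    exact abs_nonneg _

theorem x6_indep (hn : 2 ≤ n) (hO : GLL.Ord O) {Φ : Mt n → ℂ} (hΦ : Tst Φ) {β : Mt n → ℝ}
    (hβ : Bt β) (b₀ : ℕ) {b : ℕ} (hb : 0 < b) {F F' : Set (Mt n)} (hF : IsFD O F)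
    (hF' : IsFD O F') {Q : ℝ} (hQ : 0 < Q) {c : Idl O → ℝ} (hc : IsHk c) :
    TOT F b₀ β Q (bF b c) Φ = TOT F' b₀ β Q (bF b c) Φ := by
  have h := TOT_indep hn hO hΦ hβ b₀ hF hF' hQ (bF b c) (x6_hk hn hO hb hc) 0
    (∑ A ∈ PI O b, |c A|) (x6_bd b c) one_pos
  simpa only [one_smul] using h

/-! ### Positivity -/

theorem x6_POS (hn : 2 ≤ n) (hO : GLL.Ord O) (b : ℕ) (c : Idl O → ℝ) (L : ℝ) (φ : ℝ → ℂ)
    (κ : ℝ → ℝ) (s : ℂ) : 0 ≤ POS b c L φ κ s := by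
  unfold POS
  refine Finset.sum_nonneg fun K _ => mul_nonneg (mul_nonneg (cs_nonneg hn hO K) (sq_nonneg _)) ?_
  exact integral_nonneg fun v => mul_nonneg (Real.exp_pos v).le (sq_nonneg _)

theorem x6_Ss (hn : 2 ≤ n) (hO : GLL.Ord O) (b₀ b₂ : ℕ) (c : Idl O → ℝ) : 0 ≤ Ss b₀ b₂ c := by
  unfold Ss
  exact Finset.sum_nonneg fun I _ => Finset.sum_nonneg fun K _ =>
    mul_nonneg (cs_nonneg hn hO K) (sq_nonneg _)

/-! ### The average over the quotient -/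

/-- the triple integral of a function which is almost constant -/
theorem x6_avg {μ : Measure (Mt n)} [IsFiniteMeasure μ] {K : Set (Mt n)} (hK : ∀ᵐ x ∂μ, x ∈ K)
    {G : Mt n → Mt n → ℂ} {D : Mt n → Mt n → Mt n → ℂ} {M : ℂ} {E : ℝ}
    (hG : ∀ x ∈ K, Integrable (G x) μ) (hG' : Integrable (fun x => ∫ y, G x y ∂μ) μ)
    (hD : ∀ x ∈ K, ∀ y ∈ K, Integrable (D x y) μ ∧ G x y = ∫ Y, D x y Y ∂μ)
    (hE : ∀ x ∈ K, ∀ y ∈ K, ∀ Y ∈ K, ‖D x y Y + M‖ ≤ E) :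
    ‖(∫ x, ∫ y, G x y ∂μ ∂μ) + ((μ.real Set.univ ^ 3 : ℝ) : ℂ) * M‖ ≤
      μ.real Set.univ ^ 3 * E := by
  set V : ℝ := μ.real Set.univ with hV
  have h1 : ∀ x ∈ K, ∀ y ∈ K, ‖G x y + (V : ℂ) * M‖ ≤ E * V := by
    intro x hx y hy
    obtain ⟨d1, d2⟩ := hD x hx y hy
    have h2 : G x y + (V : ℂ) * M = ∫ Y, (D x y Y + M) ∂μ := by
      rw [integral_add d1 (integrable_const M), integral_const, Complex.real_smul, d2]
    rw [h2]
    refine norm_integral_le_of_norm_le_const ?_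
    filter_upwards [hK] with Y hY
    exact hE x hx y hy Y hY
  have h3 : ∀ x ∈ K, ‖(∫ y, G x y ∂μ) + ((V ^ 2 : ℝ) : ℂ) * M‖ ≤ E * V * V := by
    intro x hx
    have h4 : (∫ y, G x y ∂μ) + ((V ^ 2 : ℝ) : ℂ) * M = ∫ y, (G x y + (V : ℂ) * M) ∂μ := by
      rw [integral_add (hG x hx) (integrable_const _), integral_const, Complex.real_smul]
      push_cast
      ring
    rw [h4]
    refine norm_integral_le_of_norm_le_const ?_
    filter_upwards [hK] with y hy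
    exact h1 x hx y hy
  have h5 : (∫ x, ∫ y, G x y ∂μ ∂μ) + ((V ^ 3 : ℝ) : ℂ) * M =
      ∫ x, ((∫ y, G x y ∂μ) + ((V ^ 2 : ℝ) : ℂ) * M) ∂μ := by
    rw [integral_add hG' (integrable_const _), integral_const, Complex.real_smul]
    push_cast
    ring
  rw [h5]
  have h6 : ‖∫ x, ((∫ y, G x y ∂μ) + ((V ^ 2 : ℝ) : ℂ) * M) ∂μ‖ ≤ E * V * V * V := by
    refine norm_integral_le_of_norm_le_const ?_
    filter_upwards [hK] with x hx
    exact h3 x hx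
  refine h6.trans (le_of_eq ?_)
  ring

theorem x6_ae (hn : 2 ≤ n) {F : Set (Mt n)} {R : ℝ} (hF : IsFG O F R) :
    ∀ᵐ x ∂((X.hm n).restrict F), x ∈ K1 n R := by
  have h1 : ∀ᵐ x ∂((X.hm n).restrict F), |x.det| = 1 :=
    ae_restrict_of_ae (X.hm_supp (by omega : 1 ≤ n))
  filter_upwards [h1, ae_restrict_mem hF.meas] with x hx hxF
  have h2 := hF.bd x hxF
  rw [X.hat_one hx] at h2
  exact ⟨hx, h2.1, h2.2⟩

theorem TOT_up_pr (hn : 2 ≤ n) (hO : GLL.Ord O) {θ : ℝ} (hθ0 : 0 ≤ θ) (hθ : θ < 1) {σ₂ : ℝ}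
    (hσ₂ : σ₂ < ((n : ℝ) + 1) / 2) : ∃ c₀ : ℝ, 0 < c₀ ∧ ∀ {k : Mt n → ℂ}, Sph2 k →
    ∀ {φ : ℝ → ℂ} {A : ℝ}, TF φ A → ∫ X : Mt n, Phi φ k X = 0 → ∀ {β : Mt n → ℝ}, Bt β →
    0 < ∫ H : Mt n, β H → ∀ b₀ : ℕ, 0 < b₀ → ∀ A₁ R : ℝ, ∃ C Q0 : ℝ, 0 ≤ C ∧ 1 ≤ Q0 ∧
      ∀ F, IsFD O F → ∀ Q : ℝ, Q0 ≤ Q → ∀ b₂ : ℕ, b₂ ∣ primorial ⌊Q⌋₊ → b₀.Coprime b₂ →
      ∀ c : Idl O → ℝ, CO O (b₀ * b₂) (Q ^ θ) c → ∀ κ : ℝ → ℝ, CF (Real.log Q) A₁ κ →
      ∀ s : ℂ, 1 / 2 - R / Real.log Q ≤ s.re → s.re ≤ σ₂ →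
        0 ≤ POS (b₀ * b₂) c (Real.log Q) φ κ s ∧ 0 ≤ Ss b₀ b₂ c ∧
        (TOT F b₀ β Q (bF (b₀ * b₂) c) (Phi (ph φ κ s) k)).re ≤
          vol F * k2 k * (Del O b₀ β Q * Dg (b₀ * b₂) c φ κ s -
            Dm O F b₀ β Q * (vol F / covO O) * POS (b₀ * b₂) c (Real.log Q) φ κ s) +
          vol F * Dm O F b₀ β Q * (C * Real.exp (-((2 * s.re - 1) * Real.log Q)) *
            Ss b₀ b₂ c + C * Q ^ (-c₀)) := by
  classical
  obtain ⟨F0, R0, hF0⟩ := exFG hn hO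
  obtain ⟨c₀, hc₀, hmain⟩ := Gt_int hn hO hθ0 hθ hσ₂
  refine ⟨c₀, hc₀, ?_⟩
  intro k hk φ A hφ h0 β hβ hβi b₀ hb₀ A₁ R
  obtain ⟨C, Q0, hC, hQ0, hint⟩ := hmain hk hφ h0 hβ b₀ hb₀ A₁ R R0
  have hv0 : 0 < vol F0 := IF_vol hn hO F0 hF0.toIsFD
  have hcov : 0 < covO O := GLL.T.covO_pos_pr hO
  have hrho : 0 < rho O b₀ := (IF_rho hn hO b₀ hb₀).1
  set B : ℝ := ∫ H : Mt n, β H with hB
  refine ⟨C * vol F0 * covO O / (rho O b₀ * B), Q0, by positivity, hQ0, ?_⟩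
  intro F hF Q hQ b₂ hb₂ hcop c hc κ hκ s hs1 hs2
  have hQ1 : 1 ≤ Q := hQ0.trans hQ
  have hQp : 0 < Q := by linarith
  have hb₂0 : 0 < b₂ := Nat.pos_of_dvd_of_pos hb₂ (primorial_pos _)
  have hb : 0 < b₀ * b₂ := Nat.mul_pos hb₀ hb₂0
  refine ⟨x6_POS hn hO _ c _ φ κ s, x6_Ss hn hO b₀ b₂ c, ?_⟩
  obtain ⟨hψ, hψ'⟩ := ph_TF hφ hκ s
  have hT : Tst (Phi (ph φ κ s) k) := IF_TstPhi hn k hk (ph φ κ s) hψ hψ'
  have hv : vol F = vol F0 := GLL.T.tn_vol_eq hn hO hF hF0.toIsFD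
  have hDm : Dm O F b₀ β Q = Dm O F0 b₀ β Q := by
    unfold Dm
    rw [hv]
  rw [x6_indep hn hO hT hβ b₀ hb hF hF0.toIsFD hQp hc.hk, hv, hDm]
  obtain ⟨-, hTOT⟩ := TOT_bF hn hO hk hψ hψ' hβ b₀ (b₀ * b₂) hb hF0 c hQp
  rw [hTOT]
  -- the triple integral
  have hfin := X.fd_fin hn hO hF0.toIsFD
  have hfinM : IsFiniteMeasure ((X.hm n).restrict F0) := ⟨by
    rw [Measure.restrict_apply_univ]
    exact hfin⟩
  have hV : ((X.hm n).restrict F0).real Set.univ = vol F0 := sl_volm hn hF0.toIsFD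
  set G : Mt n → Mt n → ℂ := fun x y =>
    ∑ I ∈ PI O (b₀ * b₂), ∑ I' ∈ PI O (b₀ * b₂), ((c I * c I' : ℝ) : ℂ) *
        OF b₀ β Q I I' (Phi (ph φ κ s) k) x y with hG
  set M : ℝ := (covO O ^ 2)⁻¹ * Q ^ n * rho O b₀ * B * k2 k *
    POS (b₀ * b₂) c (Real.log Q) φ κ s with hM
  set E : ℝ := C * Q ^ n * (Real.exp (-((2 * s.re - 1) * Real.log Q)) * Ss b₀ b₂ c +
    Q ^ (-c₀)) with hE
  have hOF := fun I I' : Idl O => OF_int hn hO hT hβ b₀ hF0 hQp one_pos I I'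
  simp only [one_smul] at hOF
  have hG1 : ∀ x ∈ K1 n R0, Integrable (G x) ((X.hm n).restrict F0) := by
    intro x hx
    refine integrable_finsetSum _ fun I _ => integrable_finsetSum _ fun I' _ => ?_
    exact ((hOF I I').1 x hx.1).const_mul _
  have hG2 : Integrable (fun x => ∫ y, G x y ∂((X.hm n).restrict F0))
      ((X.hm n).restrict F0) := by
    have h1 : Integrable (fun x => ∑ I ∈ PI O (b₀ * b₂), ∑ I' ∈ PI O (b₀ * b₂),
        ((c I * c I' : ℝ) : ℂ) * ∫ y in F0, OF b₀ β Q I I' (Phi (ph φ κ s) k) x y ∂(X.hm n))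
        ((X.hm n).restrict F0) := by
      refine integrable_finsetSum _ fun I _ => integrable_finsetSum _ fun I' _ => ?_
      exact (hOF I I').2.const_mul _
    refine h1.congr ?_
    filter_upwards [x6_ae hn hF0] with x hx
    rw [hG]
    simp only
    rw [integral_finsetSum _ fun I _ => integrable_finsetSum _ fun I' _ =>
      ((hOF I I').1 x hx.1).const_mul _]
    refine Finset.sum_congr rfl fun I _ => ?_
    rw [integral_finsetSum _ fun I' _ => ((hOF I I').1 x hx.1).const_mul _]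
    refine Finset.sum_congr rfl fun I' _ => ?_
    rw [integral_const_mul]
  have hD : ∀ x ∈ K1 n R0, ∀ y ∈ K1 n R0, Integrable (fun Y => DI n κ s fun u u' =>
      Gt b₀ (b₀ * b₂) β (Phi φ k) c Q u u' x y Y) ((X.hm n).restrict F0) ∧
      G x y = ∫ Y, (DI n κ s fun u u' => Gt b₀ (b₀ * b₂) β (Phi φ k) c Q u u' x y Y)
        ∂((X.hm n).restrict F0) := fun x hx y hy =>
    OF_exp hn hO hk hφ hβ b₀ (b₀ * b₂) hb₀ hF0 c hQp hκ s hx hy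
  have hav := x6_avg (x6_ae hn hF0) hG1 hG2 hD (M := (M : ℂ)) (E := E)
    (fun x hx y hy Y hY => hint Q hQ b₂ hb₂ hcop c hc κ hκ s hs1 hs2 x hx y hy Y hY)
  rw [hV] at hav
  have hre := (Complex.abs_re_le_norm _).trans hav
  rw [Complex.add_re, ← Complex.ofReal_mul, Complex.ofReal_re] at hre
  have hle := (abs_le.1 hre).2
  rw [Complex.add_re, Complex.ofReal_re]
  have hgoal : (∫ x in F0, ∫ y in F0, G x y ∂(X.hm n) ∂(X.hm n)).re ≤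
      vol F0 ^ 3 * E - vol F0 ^ 3 * M := by linarith
  have e1 : vol F0 ^ 3 * E = vol F0 * Dm O F0 b₀ β Q *
      (C * vol F0 * covO O / (rho O b₀ * B) *
        Real.exp (-((2 * s.re - 1) * Real.log Q)) * Ss b₀ b₂ c +
        C * vol F0 * covO O / (rho O b₀ * B) * Q ^ (-c₀)) := by
    unfold Dm
    rw [hE, ← hB]
    field_simp
  have e2 : vol F0 ^ 3 * M = vol F0 * k2 k * (Dm O F0 b₀ β Q * (vol F0 / covO O) *
      POS (b₀ * b₂) c (Real.log Q) φ κ s) := by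
    unfold Dm
    rw [hM, ← hB]
    field_simp
  have e3 : Del O b₀ β Q * (vol F0 * (k2 k * ∑' I : Idl O, ‖bF (b₀ * b₂) c I‖ ^ 2 *
        ((N I : ℝ) ^ (n - 1))⁻¹ * ‖ph φ κ s (Real.log (N I))‖ ^ 2)) =
      vol F0 * k2 k * (Del O b₀ β Q * Dg (b₀ * b₂) c φ κ s) := by
    unfold Dg
    ring
  rw [e3, ← e1, mul_sub, ← e2]
  linarith


end

end Pool.Agent.RZH

namespace Pool.Agent.RZH

theorem TOT_up : type_of% @TOT_up_pr := @TOT_up_pr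

end Pool.Agent.RZH
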