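import Pool.Agent.Lib_helper32.LAL.Defs
import Pool.Agent.Lib_helper32.LAL.DefsB
import Pool.Agent.Lib_helper32.LAL.SDefs
import Pool.Agent.Lib_helper32.LALS.S_SL
import Pool.Agent.Lib_helper32.LALS.S_SN
import Pool.Agent.Lib_helper41.LALF.M_MC1
import Pool.Agent.Lib_helper41.LALF.M_MS1
import Pool.Agent.Lib_helper41.RZGF.D_E
import Pool.Agent.Lib_helper41.RZGF.R_M1
import Pool.Agent.Lib_helper41.RZGF.R_M8
import Pool.Agent.Lib_helper41.RZGF.R_TA2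
import Pool.Agent.Lib_helper41.RZGF.R_TA3
import Pool.Agent.Lib_helper41.RZGF.R_TG
import Pool.Agent.Lib_helper41.RZGF.R_X2b
import Pool.Agent.Lib_helper41.RZGF.R_X6
import Pool.Agent.Lib_helper42.GLM.Defs
import Pool.Agent.Lib_helper42.LAM.Defs
import Pool.Agent.Lib_helper75.RZG.Defs
import Pool.Agent.Lib_helper96.GLF.F_K2
import Pool.Agent.Lib_helper96.GLF.M_MHB
import Pool.Agent.Lib_helper96.GLF.X_GLUE_10
import Pool.Agent.Lib_helper96.GLF.X_GLUE_11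
import Pool.Agent.Lib_helper96.GLL.Defs
import Pool.Agent.Lib_helper96.GLL.DefsB

/-!
# Project RZG, block E1: the basic inequality
-/

set_option autoImplicit false
set_option maxHeartbeats 1000000

namespace Pool.Agent.RZH

open MeasureTheory Matrix Complex Filter Topology Pool.Agent.GLL Pool.Agent.LAL
open scoped ENNReal ContDiff

noncomputable section

variable {n : ℕ} {O : Subring (Mt n)}

theorem E1_sq {x y d η : ℝ} (hη : 0 < η) (hx : 0 ≤ x) (h : x ≤ y + d) :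
    x ^ 2 ≤ (1 + η) * y ^ 2 + (1 + η⁻¹) * d ^ 2 := by
  have h1 : x ^ 2 ≤ (y + d) ^ 2 := pow_le_pow_left₀ hx h 2
  have h2 : 0 ≤ η⁻¹ * (η * y - d) ^ 2 := by positivity
  have h3 : η⁻¹ * (η * y - d) ^ 2 = η * y ^ 2 - 2 * y * d + η⁻¹ * d ^ 2 := by
    field_simp
    ring
  nlinarith

theorem E1_CF {t t' L A A₁ θ : ℝ} (ht : |t| ≤ 1) (ht' : |t'| ≤ 1) (hL : 0 ≤ L) (hA : 0 ≤ A)
    (hA₁ : A ≤ A₁) (hθ : 0 < θ) (hθ1 : θ < 1) : CF L A₁ (kp t t' (θ / 2 * L - A) L A₁) := by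
  classical
  have hθL : 0 ≤ θ / 2 * L := by positivity
  have hθL' : θ / 2 * L ≤ 2 * L := by nlinarith
  refine ⟨?_, ?_, ?_⟩
  · unfold kp
    refine Measurable.ite ?_ measurable_const (Measurable.ite ?_ measurable_const measurable_const)
    · exact measurableSet_Ioc (a := -(2 * L)) (b := -(θ / 2 * L - A))
    · exact measurableSet_Ioc (a := -(θ / 2 * L - A)) (b := A₁)
  · intro u
    unfold kp
    split_ifs
    · exact ht
    · exact ht'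
    · simp
  · intro u hu
    unfold kp at hu
    split_ifs at hu with h1 h2
    · exact ⟨h1.1, by linarith [h1.2]⟩
    · exact ⟨by linarith [h2.1], h2.2⟩
    · exact absurd rfl hu

theorem E1_alg {v k M D Dg PO E S C C' L η r r' : ℝ} (hv : 0 < v) (hM : 0 < M) (hk : 0 < k)
    (hDg : 0 ≤ Dg) (hE : 0 < E) (hC : 0 ≤ C) (hS : S ≤ C' / L) (hL : 0 < L)
    (hD : D ≤ (1 + η) * M) (hCC : C * C' / (η * k) ≤ L) (hη : 0 < η) (hr : C * r ≤ k * r')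
    (cov : ℝ) :
    v * k * (D * Dg - M * (v / cov) * PO) + v * M * (C * E * S + C * r) ≤
      v * M * k * ((1 + η) * Dg - v / cov * PO + η * E + r') := by
  have h1 : D * Dg ≤ (1 + η) * M * Dg := mul_le_mul_of_nonneg_right hD hDg
  have h2 : C * E * S ≤ η * k * E := by
    have h3 : C * E * S ≤ C * E * (C' / L) := mul_le_mul_of_nonneg_left hS (by positivity)
    have h4 : C * C' / L ≤ η * k := by
      rw [div_le_iff₀ hL]
      rw [div_le_iff₀ (by positivity)] at hCC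
      linarith
    calc C * E * S ≤ C * E * (C' / L) := h3
      _ = C * C' / L * E := by ring
      _ ≤ η * k * E := mul_le_mul_of_nonneg_right h4 hE.le
  have h5 : v * k * (D * Dg) ≤ v * k * ((1 + η) * M * Dg) :=
    mul_le_mul_of_nonneg_left h1 (by positivity)
  have h6 : v * M * (C * E * S + C * r) ≤ v * M * (η * k * E + k * r') :=
    mul_le_mul_of_nonneg_left (add_le_add h2 hr) (by positivity)
  have h7 : v * k * (D * Dg - M * (v / cov) * PO) = v * k * (D * Dg) -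
      v * k * (M * (v / cov) * PO) := by ring
  have h8 : v * M * k * ((1 + η) * Dg - v / cov * PO + η * E + r') =
      v * k * ((1 + η) * M * Dg) - v * k * (M * (v / cov) * PO) +
        v * M * (η * k * E + k * r') := by ring
  rw [h7, h8]
  linarith

theorem msq_pr (hn : 2 ≤ n) (hO : GLL.Ord O) {θ : ℝ} (hθ : 0 < θ) (hθ1 : θ < 1) {σ₂ : ℝ}
    (hσ₂ : σ₂ < ((n : ℝ) + 1) / 2) : ∃ c₀ : ℝ, 0 < c₀ ∧
    ∀ {φ : ℝ → ℂ} {A : ℝ}, TF φ A → 0 ≤ A →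
    ∫ v : ℝ, φ v * Complex.exp ((((n : ℂ) + 1) / 2) * v) = 0 → ∀ {A₁ : ℝ}, A ≤ A₁ →
    ∀ P : ℕ, PG O P → ∀ k : Mt n → ℂ, Sph2 k → ∀ c1 c2 : ℝ, 0 < c1 → c1 < c2 →
    ∀ β : Mt n → ℝ, Cut c1 c2 β → ∀ (g : ℝ → ℝ) (ε : ℝ), CutG g ε → ∀ η₁ : ℝ, 0 < η₁ →
    ∀ R S₀ η : ℝ, 0 < η → ∃ Q0 : ℝ, 1 ≤ Q0 ∧ ∀ Q : ℝ, Q0 ≤ Q → ∀ F, IsFD O F →
    ∀ s : ∀ q : {q // q ∈ Fam P c1 c2 Q}, Sys O F q.1, ∀ F0 : Finset (Ix s),
    (∀ i ∈ F0, η₁ ≤ wE (Fe s i) k) → ∀ Lf : Ix s → ℂ → ℂ, (∀ i ∈ F0, LAL.IsLf (Fe s i) (Lf i)) →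
    ∀ w : ℂ, 1 / 2 - R / Real.log Q ≤ w.re → w.re ≤ σ₂ → ‖w‖ ≤ S₀ →
    ∀ t t' : ℝ, |t| ≤ 1 → |t'| ≤ 1 →
      ‖phh φ w‖ ^ 2 * ∑ i ∈ F0, wt s k i * ‖(t : ℂ) * (Fm s g θ Lf i w - 1) + t'‖ ^ 2 ≤
        (1 + η) * (vol F * Dm O F (primorial P) β Q * k2 k) *
          ((1 + η) * Dg (O := O) (primorial ⌊Q⌋₊) (cT O g (θ * Real.log Q) (primorial ⌊Q⌋₊)) φ
              (kp t t' (θ / 2 * Real.log Q - A) (Real.log Q) A₁) w -
            vol F / covO O * POS (O := O) (primorial ⌊Q⌋₊)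
              (cT O g (θ * Real.log Q) (primorial ⌊Q⌋₊)) (Real.log Q) φ
              (kp t t' (θ / 2 * Real.log Q - A) (Real.log Q) A₁) w +
            η * Real.exp (-((2 * w.re - 1) * Real.log Q)) + Q ^ (-c₀)) +
        Q⁻¹ * ∑ i ∈ F0, wt s k i := by
  classical
  obtain ⟨c₀, hc₀, hTOT⟩ := TOT_up hn hO hθ.le hθ1 hσ₂
  refine ⟨c₀ / 2, by positivity, ?_⟩
  intro φ A hφ hA h0 A₁ hA₁ P hP k hk c1 c2 hc1 hc2 β hβ g ε hg η₁ hη₁ R S₀ η hη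
  have hk2 : 0 < k2 k := IF_k2 hn k hk
  have hφc : HasCompactSupport φ := by
    refine HasCompactSupport.intro (isCompact_Icc (a := -A) (b := A)) fun v hv => ?_
    by_contra h
    exact hv (abs_le.1 (hφ.supp v h))
  have hint : ∫ X : Mt n, Phi φ k X = 0 := by
    rw [(IF_intPhi hn k hk φ hφ.smooth hφc).1, h0, mul_zero]
  obtain ⟨C, Q1, hC, hQ1, hT⟩ := hTOT hk hφ hint hβ.bt hβ.pos (primorial P) (primorial_pos P)
    A₁ R
  obtain ⟨C', L₀, hC', hSs⟩ := Ss_le hn hO P hg hθ hθ1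
  obtain ⟨Q2, hQ2, hrep⟩ := rep hn hO hk hφ hA hθ hθ1 c2 S₀ A₁ hA₁ 1
  obtain ⟨CD, hCD, hD⟩ := IF_Del hn hO hβ.bt (primorial P) (primorial_pos P) 0
  obtain ⟨cY, hcY, hY⟩ := Ym_eq hn hO P hc1 hc2 hβ
  obtain ⟨F₀, hF₀, -⟩ := IF_FD hn hO
  have hv0 : 0 < vol F₀ := IF_vol hn hO F₀ hF₀
  obtain ⟨s0, hs0, hbd⟩ := bF_bd hn hO
  have hev : ∀ᶠ Q : ℝ in atTop, Q1 ≤ Q ∧ Q2 ≤ Q ∧ Real.exp 1 ≤ Q ∧ Real.exp L₀ ≤ Q ∧
      (P : ℝ) + 1 ≤ Q ∧ CD * vol F₀ / (η * cY) ≤ Q ∧ Real.exp (C * C' / (η * k2 k)) ≤ Q ∧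
      C / k2 k ≤ Q ^ (c₀ / 2) ∧ (1 + η⁻¹) * η₁⁻¹ ≤ Q := by
    filter_upwards [eventually_ge_atTop Q1, eventually_ge_atTop Q2,
      eventually_ge_atTop (Real.exp 1), eventually_ge_atTop (Real.exp L₀),
      eventually_ge_atTop ((P : ℝ) + 1), eventually_ge_atTop (CD * vol F₀ / (η * cY)),
      eventually_ge_atTop (Real.exp (C * C' / (η * k2 k))),
      (tendsto_rpow_atTop (by positivity : 0 < c₀ / 2)).eventually_ge_atTop (C / k2 k),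
      eventually_ge_atTop ((1 + η⁻¹) * η₁⁻¹)] with Q h1 h2 h3 h4 h5 h6 h7 h8 h9
    exact ⟨h1, h2, h3, h4, h5, h6, h7, h8, h9⟩
  obtain ⟨Q3, hQ3⟩ := eventually_atTop.1 hev
  refine ⟨max 1 Q3, le_max_left _ _, ?_⟩
  intro Q hQ F hF s F0 hF0 Lf hLf w hw1 hw2 hw3 t t' ht ht'
  obtain ⟨e1, e2, e3, e4, e5, e6, e7, e8, e9⟩ := hQ3 Q ((le_max_right _ _).trans hQ)
  have hQ1' : 1 ≤ Q := (le_max_left _ _).trans hQ
  have hQp : 0 < Q := by linarith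
  have hL1 : 1 ≤ Real.log Q := (Real.le_log_iff_exp_le hQp).2 e3
  have hLp : 0 < Real.log Q := by linarith
  have hL0 : L₀ ≤ Real.log Q := (Real.le_log_iff_exp_le hQp).2 e4
  have hLC : C * C' / (η * k2 k) ≤ Real.log Q := (Real.le_log_iff_exp_le hQp).2 e7
  have hPQ : P ≤ ⌊Q⌋₊ := Nat.le_floor (by linarith)
  obtain ⟨hb1, hb2, hb3, -, hb5⟩ := primorial_bX P ⌊Q⌋₊ hPQ
  have hTp : 0 < θ * Real.log Q := by positivity
  have hexpT : Real.exp (θ * Real.log Q) = Q ^ θ := by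
    rw [Real.rpow_def_of_pos hQp, mul_comm]
  obtain ⟨hCO, -, -, -⟩ := cT_facts hn hO hg hTp (primorial_pos ⌊Q⌋₊)
  rw [hexpT] at hCO
  set c : Idl O → ℝ := cT O g (θ * Real.log Q) (primorial ⌊Q⌋₊) with hc
  set κ : ℝ → ℝ := kp t t' (θ / 2 * Real.log Q - A) (Real.log Q) A₁ with hκ
  have hCF : CF (Real.log Q) A₁ κ := E1_CF ht ht' hLp.le hA hA₁ hθ hθ1
  obtain ⟨hψ, hψ'⟩ := ph_TF hφ hCF w
  -- the sieve
  obtain ⟨hPOS, hSs0, hup⟩ := hT F hF Q e1 (bX (primorial P) ⌊Q⌋₊) hb3 hb2 c (hb1 ▸ hCO) κ hCF w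
    hw1 hw2
  rw [← hb1] at hup hPOS
  have hSs1 : Ss (O := O) (primorial P) (bX (primorial P) ⌊Q⌋₊) c ≤ C' / Real.log Q := by
    have := hSs (Real.log Q) hL0
    rwa [Real.exp_log hQp] at this
  have hvF : vol F = vol F₀ := vol_indep hn hO hF hF₀
  have hvp : 0 < vol F := by rw [hvF]; exact hv0
  set M : ℝ := Dm O F (primorial P) β Q with hM
  set D : ℝ := Del O (primorial P) β Q with hDel
  have hvM : vol F * M = cY * Q ^ n := hY Q hQp F hF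
  have hMp : 0 < M := by
    have : 0 < vol F * M := by rw [hvM]; positivity
    exact (mul_pos_iff_of_pos_left hvp).1 this
  have hDM : D ≤ (1 + η) * M := by
    obtain ⟨-, h2⟩ := hD F hF Q hQ1'
    have h3 : |D - M| ≤ CD := by simpa using h2
    have h4 : CD ≤ η * M := by
      rw [div_le_iff₀ (by positivity)] at e6
      have h5 : Q ≤ Q ^ n := le_self_pow₀ hQ1' (by omega)
      have h6 : CD * vol F₀ ≤ η * (vol F * M) := by
        rw [hvM]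
        calc CD * vol F₀ ≤ Q * (η * cY) := e6
          _ ≤ Q ^ n * (η * cY) := mul_le_mul_of_nonneg_right h5 (by positivity)
          _ = η * (cY * Q ^ n) := by ring
      rw [hvF] at h6
      have h7 : CD * vol F₀ ≤ η * M * vol F₀ := by linarith
      exact le_of_mul_le_mul_right h7 hv0
    have := (le_abs_self _).trans h3
    linarith
  have hDg : 0 ≤ Dg (O := O) (primorial ⌊Q⌋₊) c φ κ w := by
    unfold Dg
    exact tsum_nonneg fun I => by positivity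
  have hr : C * Q ^ (-c₀) ≤ k2 k * Q ^ (-(c₀ / 2)) := by
    have h1 : Q ^ (-c₀) = Q ^ (-(c₀ / 2)) * Q ^ (-(c₀ / 2)) := by
      rw [← Real.rpow_add hQp]
      congr 1
      ring
    have h2 : Q ^ (c₀ / 2) * Q ^ (-(c₀ / 2)) = 1 := by
      rw [← Real.rpow_add hQp]
      simp
    have h3 : 0 < Q ^ (-(c₀ / 2)) := Real.rpow_pos_of_pos hQp _
    rw [div_le_iff₀ hk2] at e8
    have h4 : C * Q ^ (-(c₀ / 2)) ≤ k2 k := by
      calc C * Q ^ (-(c₀ / 2)) ≤ Q ^ (c₀ / 2) * k2 k * Q ^ (-(c₀ / 2)) :=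
            mul_le_mul_of_nonneg_right e8 h3.le
        _ = k2 k * (Q ^ (c₀ / 2) * Q ^ (-(c₀ / 2))) := by ring
        _ = k2 k := by rw [h2, mul_one]
    rw [h1, ← mul_assoc]
    exact mul_le_mul_of_nonneg_right h4 h3.le
  have hmain : (TOT F (primorial P) β Q (bF (primorial ⌊Q⌋₊) c) (Phi (ph φ κ w) k)).re ≤
      vol F * M * k2 k * ((1 + η) * Dg (O := O) (primorial ⌊Q⌋₊) c φ κ w -
        vol F / covO O * POS (O := O) (primorial ⌊Q⌋₊) c (Real.log Q) φ κ w +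
        η * Real.exp (-((2 * w.re - 1) * Real.log Q)) + Q ^ (-(c₀ / 2))) :=
    hup.trans (E1_alg hvp hMp hk2 hDg (Real.exp_pos _) hC hSs1 hLp hDM hLC hη hr (covO O))
  -- the star
  obtain ⟨hHk, hAct⟩ := bF_ok hn hO hg hTp (primorial_pos ⌊Q⌋₊)
  obtain ⟨hsum, hle⟩ := hP.star (primorial P) (dvd_refl _) c1 c2 hc1 hc2 β hβ.bt hβ.one F hF Q
    hQ1' s (bF (primorial ⌊Q⌋₊) c) s0 2 hHk
    (fun q i => hAct q.1 (s q).ρ (fam_QOK hP s q) ((s q).E i))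
    (hbd (primorial ⌊Q⌋₊) (primorial_pos _) c hCO.le) (Phi (ph φ κ w) k)
    (IF_TstPhi hn k hk (ph φ κ w) hψ hψ') 1 one_pos
  simp only [one_smul] at hsum hle
  have hstar : ∑ i ∈ F0, tw s i * ‖LAL.ch (Fe s i) (bF (primorial ⌊Q⌋₊) c)
      (Phi (ph φ κ w) k)‖ ^ 2 ≤
      (TOT F (primorial P) β Q (bF (primorial ⌊Q⌋₊) c) (Phi (ph φ κ w) k)).re := by
    refine le_trans ?_ hle
    exact ms1_sigma (fun q : {q // q ∈ Fam P c1 c2 Q} => ((q.1.totient : ℝ))⁻¹)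
      (fun q i => ‖(s q).ch i (bF (primorial ⌊Q⌋₊) c) (Phi (ph φ κ w) k)‖ ^ 2)
      (fun q => inv_nonneg.mpr (Nat.cast_nonneg _)) (fun q i => sq_nonneg _) hsum F0
  -- the representation
  have htw : ∀ i : Ix s, 0 ≤ tw s i := fun i => inv_nonneg.mpr (Nat.cast_nonneg _)
  have hterm : ∀ i ∈ F0, ‖phh φ w‖ ^ 2 *
      (wt s k i * ‖(t : ℂ) * (Fm s g θ Lf i w - 1) + t'‖ ^ 2) ≤
      (1 + η) * (tw s i * ‖LAL.ch (Fe s i) (bF (primorial ⌊Q⌋₊) c)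
        (Phi (ph φ κ w) k)‖ ^ 2) + Q⁻¹ * wt s k i := by
    intro i hi
    have hq := fam_mem (i.1.2)
    have h1 := hrep Q e2 i.1.1 (s i.1).ρ (fam_QOK hP s i.1) hq.2.2.1 (Fe s i) (Lf i) (hLf i hi)
      g ε hg w ((Complex.abs_re_le_norm w).trans hw3) t t' ht ht'
    rw [pow_one] at h1
    have h2 : ‖phh φ w * (Fe s i).kh k * (t * (Lf i w * MG (Fe s i) (primorial ⌊Q⌋₊) g
        (θ * Real.log Q) w - 1) + t')‖ ≤ ‖LAL.ch (Fe s i) (bF (primorial ⌊Q⌋₊) c)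
        (Phi (ph φ κ w) k)‖ + Q⁻¹ := by
      have h3 := norm_sub_norm_le (phh φ w * (Fe s i).kh k * (t * (Lf i w *
        MG (Fe s i) (primorial ⌊Q⌋₊) g (θ * Real.log Q) w - 1) + t'))
        (LAL.ch (Fe s i) (bF (primorial ⌊Q⌋₊) c) (Phi (ph φ κ w) k))
      rw [norm_sub_rev] at h3
      linarith
    have h4 := E1_sq hη (norm_nonneg _) h2
    have h5 : ‖phh φ w * (Fe s i).kh k * (t * (Lf i w * MG (Fe s i) (primorial ⌊Q⌋₊) g
        (θ * Real.log Q) w - 1) + t')‖ ^ 2 = ‖phh φ w‖ ^ 2 * (wE (Fe s i) k *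
          ‖(t : ℂ) * (Fm s g θ Lf i w - 1) + t'‖ ^ 2) := by
      unfold Fm LAL.wE
      rw [norm_mul, norm_mul]
      ring
    rw [h5] at h4
    have h6 := mul_le_mul_of_nonneg_left h4 (htw i)
    have h7 : tw s i * ((1 + η⁻¹) * Q⁻¹ ^ 2) ≤ Q⁻¹ * wt s k i := by
      have h8 : (1 + η⁻¹) ≤ Q * η₁ := by
        have := mul_le_mul_of_nonneg_right e9 hη₁.le
        rwa [mul_assoc, inv_mul_cancel₀ hη₁.ne', mul_one] at this
      have h9 : η₁ ≤ wE (Fe s i) k := hF0 i hi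
      have h10 : (1 + η⁻¹) * Q⁻¹ ^ 2 ≤ Q⁻¹ * wE (Fe s i) k := by
        calc (1 + η⁻¹) * Q⁻¹ ^ 2 ≤ Q * η₁ * Q⁻¹ ^ 2 :=
              mul_le_mul_of_nonneg_right h8 (by positivity)
          _ = Q⁻¹ * η₁ := by field_simp
          _ ≤ Q⁻¹ * wE (Fe s i) k := mul_le_mul_of_nonneg_left h9 (by positivity)
      calc tw s i * ((1 + η⁻¹) * Q⁻¹ ^ 2) ≤ tw s i * (Q⁻¹ * wE (Fe s i) k) :=
            mul_le_mul_of_nonneg_left h10 (htw i)
        _ = Q⁻¹ * wt s k i := by unfold wt; ring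
    have h11 : ‖phh φ w‖ ^ 2 * (wt s k i * ‖(t : ℂ) * (Fm s g θ Lf i w - 1) + t'‖ ^ 2) =
        tw s i * (‖phh φ w‖ ^ 2 * (wE (Fe s i) k *
          ‖(t : ℂ) * (Fm s g θ Lf i w - 1) + t'‖ ^ 2)) := by
      unfold wt
      ring
    rw [h11]
    refine h6.trans ?_
    rw [mul_add]
    refine add_le_add (le_of_eq (by ring)) h7
  rw [Finset.mul_sum]
  refine (Finset.sum_le_sum hterm).trans ?_
  rw [Finset.sum_add_distrib, ← Finset.mul_sum, ← Finset.mul_sum]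
  refine add_le_add ?_ le_rfl
  rw [mul_assoc (1 + η)]
  exact mul_le_mul_of_nonneg_left (hstar.trans hmain) (by positivity)

end

end Pool.Agent.RZH

namespace Pool.Agent.RZH


end Pool.Agent.RZH

namespace Pool.Agent.RZH

theorem msq : type_of% @msq_pr := @msq_pr

end Pool.Agent.RZH
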