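import Pool.Agent.Lib_helper32.LAL.SD2
import Pool.Agent.Lib_helper32.LAL.SDefs
import Pool.Agent.Lib_helper41.RZGF.R_S5a
import Pool.Agent.Lib_helper41.RZGF.R_S5b
import Pool.Agent.Lib_helper41.RZGF.R_S5c
import Pool.Agent.Lib_helper41.RZGF.R_S6a
import Pool.Agent.Lib_helper41.RZGF.R_S6b
import Pool.Agent.Lib_helper41.RZGF.R_S7
import Pool.Agent.Lib_helper41.RZGF.R_S8b
import Pool.Agent.Lib_helper41.RZGF.R_S9b
import Pool.Agent.Lib_helper42.GLM.Defs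
import Pool.Agent.Lib_helper75.DZN.Defs
import Pool.Agent.Lib_helper75.DZNF.L4
import Pool.Agent.Lib_helper75.RZG.Defs
import Pool.Agent.Lib_helper96.GLF.O_OA3
import Pool.Agent.Lib_helper96.GLF.O_OE
import Pool.Agent.Lib_helper96.GLF.O_OI
import Pool.Agent.Lib_helper96.GLL.Defs
import Pool.Agent.Lib_helper96.GLL.DefsB

/-!
# Project RZG, block S10: the crude bound at one scale (helper25)
-/

set_option autoImplicit false

namespace Pool.Agent.RZH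

open MeasureTheory Matrix Complex Filter Topology Pool.Agent.GLL Pool.Agent.LAL
open scoped ENNReal ContDiff

noncomputable section

variable {n : ℕ} {O : Subring (Mt n)}

theorem s10_pos (hn : 2 ≤ n) (hO : GLL.Ord O) (I : Idl O) : (0 : ℝ) < N I :=
  Nat.cast_pos.2 (IF_gen hn hO I).2.2.1

theorem s10_K (hn : 2 ≤ n) (hO : GLL.Ord O) (L : Idl O) :
    ∑ K ∈ AI L, cs K * ((N K : ℝ) ^ n)⁻¹ ≤ (N L : ℝ) ^ n := by
  calc ∑ K ∈ AI L, cs K * ((N K : ℝ) ^ n)⁻¹ ≤ ∑ K ∈ AI L, (1 : ℝ) := by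
        refine Finset.sum_le_sum fun K _ => ?_
        have h1 := (cs_facts hn hO).2.1 K
        have h2 : (0 : ℝ) < (N K : ℝ) ^ n := pow_pos (s10_pos hn hO K) n
        rw [← div_eq_mul_inv, div_le_one h2]
        exact h1
    _ = ((AI L).card : ℝ) := by simp
    _ ≤ _ := card_AI hn hO L

theorem s10_y (b₂ : ℕ) (c : Idl O → ℝ) (I K : Idl O) :
    |yI b₂ c I K| ≤ ∑ J ∈ PI O b₂, (open scoped Classical in
      if J ≤ K then |c (infI I J)| * ((N J : ℝ) ^ n)⁻¹ else 0) := by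
  classical
  unfold yI
  refine (Finset.abs_sum_le_sum_abs _ _).trans (Finset.sum_le_sum fun J _ => ?_)
  split_ifs
  · rw [abs_mul, abs_of_nonneg (inv_nonneg.2 (by positivity) : 0 ≤ ((N J : ℝ) ^ n)⁻¹)]
  · simp

theorem s10_sum (hn : 2 ≤ n) (hO : GLL.Ord O) (b₂ : ℕ) (c : Idl O → ℝ)
    (I I' : Idl O) :
    ∑ K ∈ PI O b₂, cs K * ((N K : ℝ) ^ n)⁻¹ * (|yI b₂ c I K| * |yI b₂ c I' K|) ≤
      ∑ J ∈ PI O b₂, ∑ J' ∈ PI O b₂,
        |c (infI I J)| * |c (infI I' J')| * ((N (infI J J') : ℝ) ^ n)⁻¹ := by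
  classical
  calc _ ≤ ∑ K ∈ PI O b₂, cs K * ((N K : ℝ) ^ n)⁻¹ *
        ((∑ J ∈ PI O b₂, if J ≤ K then |c (infI I J)| * ((N J : ℝ) ^ n)⁻¹ else 0) *
         (∑ J' ∈ PI O b₂, if J' ≤ K then |c (infI I' J')| * ((N J' : ℝ) ^ n)⁻¹ else 0)) := by
        refine Finset.sum_le_sum fun K _ => mul_le_mul_of_nonneg_left ?_
          (mul_nonneg (cs_nonneg hn hO K) (by positivity))
        exact mul_le_mul (s10_y b₂ c I K) (s10_y b₂ c I' K) (abs_nonneg _)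
          (Finset.sum_nonneg fun J _ => by split_ifs <;> positivity)
    _ = ∑ K ∈ PI O b₂, ∑ J ∈ PI O b₂, ∑ J' ∈ PI O b₂,
        (if J ≤ K ∧ J' ≤ K then cs K * ((N K : ℝ) ^ n)⁻¹ else 0) *
          (|c (infI I J)| * ((N J : ℝ) ^ n)⁻¹ * (|c (infI I' J')| * ((N J' : ℝ) ^ n)⁻¹)) := by
        refine Finset.sum_congr rfl fun K _ => ?_
        rw [Finset.sum_mul_sum, Finset.mul_sum]
        refine Finset.sum_congr rfl fun J _ => ?_
        rw [Finset.mul_sum]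
        refine Finset.sum_congr rfl fun J' _ => ?_
        by_cases h1 : J ≤ K <;> by_cases h2 : J' ≤ K <;> simp [h1, h2]
    _ = ∑ J ∈ PI O b₂, ∑ J' ∈ PI O b₂, ∑ K ∈ PI O b₂,
        (if J ≤ K ∧ J' ≤ K then cs K * ((N K : ℝ) ^ n)⁻¹ else 0) *
          (|c (infI I J)| * ((N J : ℝ) ^ n)⁻¹ * (|c (infI I' J')| * ((N J' : ℝ) ^ n)⁻¹)) := by
        rw [Finset.sum_comm]
        refine Finset.sum_congr rfl fun J _ => ?_
        rw [Finset.sum_comm]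
    _ ≤ _ := by
        refine Finset.sum_le_sum fun J hJ => Finset.sum_le_sum fun J' hJ' => ?_
        rw [← Finset.sum_mul]
        have h1 : ∑ K ∈ PI O b₂, (if J ≤ K ∧ J' ≤ K then cs K * ((N K : ℝ) ^ n)⁻¹ else 0) ≤
            (N (supI J J') : ℝ) ^ n := by
          refine le_trans ?_ (s10_K hn hO (supI J J'))
          rw [← Finset.sum_filter]
          refine Finset.sum_le_sum_of_subset_of_nonneg ?_
            (fun K _ _ => mul_nonneg (cs_nonneg hn hO K) (by positivity))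
          intro K hK
          rw [Finset.mem_filter] at hK
          have hfin : {K : Idl O | supI J J' ≤ K}.Finite := (IF_sup hn hO (supI J J')).1
          rw [AI, dif_pos hfin, Set.Finite.mem_toFinset]
          show (supI J J').1 ≤ K.1
          rw [(IF_inf hn hO J J').2.1]
          exact sup_le hK.2.1 hK.2.2
        have h2 : (N (infI J J') : ℝ) * N (supI J J') = N J * N J' := by
          exact_mod_cast (IF_inf hn hO J J').2.2
        have h3 : ((N J : ℝ) ^ n)⁻¹ * ((N J' : ℝ) ^ n)⁻¹ =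
            ((N (infI J J') : ℝ) ^ n)⁻¹ * ((N (supI J J') : ℝ) ^ n)⁻¹ := by
          rw [← mul_inv, ← mul_inv, ← mul_pow, ← mul_pow, ← h2]
        have h4 : (N (supI J J') : ℝ) ^ n * ((N (supI J J') : ℝ) ^ n)⁻¹ = 1 :=
          mul_inv_cancel₀ (pow_pos (s10_pos hn hO _) n).ne'
        calc _ ≤ (N (supI J J') : ℝ) ^ n *
              (|c (infI I J)| * ((N J : ℝ) ^ n)⁻¹ * (|c (infI I' J')| * ((N J' : ℝ) ^ n)⁻¹)) :=
              mul_le_mul_of_nonneg_right h1 (by positivity)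
          _ = (N (supI J J') : ℝ) ^ n * (|c (infI I J)| * |c (infI I' J')| *
              (((N J : ℝ) ^ n)⁻¹ * ((N J' : ℝ) ^ n)⁻¹)) := by ring
          _ = ((N (supI J J') : ℝ) ^ n * ((N (supI J J') : ℝ) ^ n)⁻¹) *
              (|c (infI I J)| * |c (infI I' J')| * ((N (infI J J') : ℝ) ^ n)⁻¹) := by
              rw [h3]; ring
          _ = _ := by rw [h4, one_mul]

theorem s10_sumPI (hn : 2 ≤ n) (hO : GLL.Ord O) {b c : ℕ} (hb : 0 < b) (hc : 0 < c)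
    (h : b.Coprime c) (f : Idl O → ℝ) :
    ∑ A ∈ PI O (b * c), f A = ∑ I ∈ PI O b, ∑ J ∈ PI O c, f (infI I J) := by
  have h1 := sum_PI hn hO hb hc h (fun A => (f A : ℂ))
  exact_mod_cast h1

theorem s10_inf (hn : 2 ≤ n) (hO : GLL.Ord O) {b : ℕ} (hb : 0 < b) {I I' : Idl O}
    (hI : I ∈ PI O b) (hI' : I' ∈ PI O b) : infI I I' ∈ PI O b := by
  rw [mem_PI hn hO hb] at hI hI' ⊢
  rw [(IF_inf hn hO I I').1]
  exact AddSubgroup.mem_inf.2 ⟨hI, hI'⟩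

theorem s10_QA (hn : 2 ≤ n) (hO : GLL.Ord O) {b₀ b₂ : ℕ} (hb₀ : 0 < b₀) (hb₂ : 0 < b₂)
    (h : b₀.Coprime b₂) (c : Idl O → ℝ) (hc : ∀ A, |c A| ≤ |(mob O (b₀ * b₂) A : ℝ)|) :
    ∑ I ∈ PI O b₀, ∑ I' ∈ PI O b₀, (((N I : ℝ) * N I') ^ n)⁻¹ *
      ∑ K ∈ PI O b₂, cs K * ((N K : ℝ) ^ n)⁻¹ * (|yI b₂ c I K| * |yI b₂ c I' K|) ≤
        DZN.QA O (b₀ * b₂) := by
  unfold DZN.QA
  rw [s10_sumPI hn hO hb₀ hb₂ h]
  refine Finset.sum_le_sum fun I hI => ?_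
  have e1 : ∀ J ∈ PI O b₂, ∑ B ∈ PI O (b₀ * b₂), |(mob O (b₀ * b₂) (infI I J) : ℝ)| *
      |(mob O (b₀ * b₂) B : ℝ)| * ((N (infI (infI I J) B) : ℝ) ^ n)⁻¹ =
      ∑ I' ∈ PI O b₀, ∑ J' ∈ PI O b₂, |(mob O (b₀ * b₂) (infI I J) : ℝ)| *
      |(mob O (b₀ * b₂) (infI I' J') : ℝ)| *
        ((N (infI (infI I J) (infI I' J')) : ℝ) ^ n)⁻¹ := fun J _ =>
    s10_sumPI hn hO hb₀ hb₂ h (fun B => |(mob O (b₀ * b₂) (infI I J) : ℝ)| *
      |(mob O (b₀ * b₂) B : ℝ)| * ((N (infI (infI I J) B) : ℝ) ^ n)⁻¹)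
  rw [Finset.sum_congr rfl e1, Finset.sum_comm]
  refine Finset.sum_le_sum fun I' hI' => ?_
  refine (mul_le_mul_of_nonneg_left (s10_sum hn hO b₂ c I I') (by positivity)).trans ?_
  rw [Finset.mul_sum]
  refine Finset.sum_le_sum fun J hJ => ?_
  rw [Finset.mul_sum]
  refine Finset.sum_le_sum fun J' hJ' => ?_
  have f1 := PI_facts hn hO hb₀ hb₂ h hI hI' hJ hJ'
  have f2 := PI_facts hn hO hb₀ hb₂ h (s10_inf hn hO hb₀ hI hI') hI (s10_inf hn hO hb₂ hJ hJ') hJ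
  have e2 : (N (infI (infI I J) (infI I' J')) : ℝ) = N (infI I I') * N (infI J J') := by
    rw [f1.2.2.2.2.2.1]
    exact_mod_cast f2.2.2.2.1
  have e3 : (N (infI I I') : ℝ) * N (supI I I') = N I * N I' := by
    exact_mod_cast (IF_inf hn hO I I').2.2
  have e4 : (1 : ℝ) ≤ N (supI I I') := by
    exact_mod_cast (IF_gen hn hO (supI I I')).2.2.1
  have p1 := s10_pos hn hO (infI I I')
  have p2 := s10_pos hn hO (infI J J')
  have e5 : (N (infI I I') : ℝ) ≤ N I * N I' := by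
    rw [← e3]
    nlinarith
  have e6 : (((N I : ℝ) * N I') ^ n)⁻¹ ≤ ((N (infI I I') : ℝ) ^ n)⁻¹ :=
    inv_anti₀ (pow_pos p1 n) (pow_le_pow_left₀ p1.le e5 n)
  have e7 : (((N (infI I I') : ℝ) * N (infI J J')) ^ n)⁻¹ =
      ((N (infI I I') : ℝ) ^ n)⁻¹ * ((N (infI J J') : ℝ) ^ n)⁻¹ := by rw [mul_pow, mul_inv]
  rw [e2, e7]
  calc (((N I : ℝ) * N I') ^ n)⁻¹ * (|c (infI I J)| * |c (infI I' J')| *
        ((N (infI J J') : ℝ) ^ n)⁻¹)
      = (|c (infI I J)| * |c (infI I' J')|) * ((((N I : ℝ) * N I') ^ n)⁻¹ *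
        ((N (infI J J') : ℝ) ^ n)⁻¹) := by ring
    _ ≤ (|(mob O (b₀ * b₂) (infI I J) : ℝ)| * |(mob O (b₀ * b₂) (infI I' J') : ℝ)|) *
        (((N (infI I I') : ℝ) ^ n)⁻¹ * ((N (infI J J') : ℝ) ^ n)⁻¹) := by
        refine mul_le_mul (mul_le_mul (hc _) (hc _) (abs_nonneg _) (abs_nonneg _)) ?_
          (by positivity) (by positivity)
        exact mul_le_mul_of_nonneg_right e6 (by positivity)

theorem crude0_pr (hn : 2 ≤ n) (hO : GLL.Ord O) {Φ : Mt n → ℂ} (hΦ : Tst Φ) {β : Mt n → ℝ}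
    (hβ : Bt β) (b₀ : ℕ) (hb₀ : 0 < b₀) (R : ℝ) {θ : ℝ} (hθ0 : 0 ≤ θ) (hθ : θ < 1) :
    ∃ C Q0 : ℝ, 0 ≤ C ∧ 1 ≤ Q0 ∧
      ∀ Q u : ℝ, Q0 ≤ Q → -(2 * Real.log Q) ≤ u → ∀ b₂ : ℕ, 0 < b₂ → b₀.Coprime b₂ →
      ∀ c : Idl O → ℝ, CO O (b₀ * b₂) (Q ^ θ) c →
      ∀ x ∈ K1 n R, ∀ y ∈ K1 n R, ∀ Y ∈ K1 n R,
        ‖Gt b₀ (b₀ * b₂) β Φ c Q u u x y Y‖ ≤
          (open scoped Classical in if u + Real.log Q ≤ C then
            C * (DZN.QA O (b₀ * b₂) + 1) * Real.exp (-(2 * n * u)) else 0) := by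
  classical
  obtain ⟨C1, Q1, hC1, hQ1, h1⟩ := Gt_near0 hn hO hΦ hβ b₀ hb₀ R hθ0 (le_refl (0 : ℝ))
    (by simpa using hθ) 0
  obtain ⟨C2, hC2, h2⟩ := PT_crude hn hO hΦ hβ b₀ hb₀ R
  obtain ⟨C3, hC3, h3⟩ := SW_zero hn hO hΦ hβ R
  have hcv : 0 ≤ (covO O ^ 2)⁻¹ := by positivity
  set E : ℝ := (covO O ^ 2)⁻¹ * C2 + C1 * Real.exp (2 * n * C3) with hE
  have hE0 : 0 ≤ E := by positivity
  refine ⟨max C3 E, Q1, le_max_of_le_left hC3.le, hQ1,
    fun Q u hQ hu b₂ hb₂ hcop c hc x hx y hy Y hY => ?_⟩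
  have hQ1' : 1 ≤ Q := hQ1.trans hQ
  have hQ0 : 0 < Q := by linarith
  have hQA : 0 ≤ DZN.QA O (b₀ * b₂) := by
    unfold DZN.QA
    exact Finset.sum_nonneg fun I _ => Finset.sum_nonneg fun J _ => by positivity
  have hz : C3 < u + Real.log Q → Gt b₀ (b₀ * b₂) β Φ c Q u u x y Y = 0 := by
    intro h
    unfold Gt
    refine Finset.sum_eq_zero fun A _ => Finset.sum_eq_zero fun A' _ => ?_
    rw [h3 b₀ Q u u hQ1' le_rfl h x hx y hy Y hY A A', mul_zero]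
  by_cases hc3 : C3 < u + Real.log Q
  · rw [hz hc3, norm_zero]
    split_ifs
    · exact mul_nonneg (mul_nonneg (le_max_of_le_left hC3.le) (by linarith)) (Real.exp_pos _).le
    · exact le_rfl
  rw [not_lt] at hc3
  rw [if_pos (hc3.trans (le_max_left _ _))]
  have k1 := h1 Q u u hQ le_rfl (by simp) hu b₂ hb₂ hcop c hc x hx y hy Y hY
  rw [pow_zero, inv_one, mul_one] at k1
  -- the main term
  set s : ℝ := Real.exp ((u + Real.log Q) / n) with hs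
  have hn0 : (n : ℝ) ≠ 0 := by
    have : (0 : ℝ) < n := by exact_mod_cast (by omega : 0 < n)
    exact this.ne'
  have hsn : s ^ n = Real.exp u * Q := by
    rw [hs, ← Real.exp_nat_mul, mul_div_cancel₀ _ hn0, Real.exp_add, Real.exp_log hQ0]
  have hPT : ∀ I ∈ PI O b₀, ∀ I' ∈ PI O b₀, ∀ K : Idl O,
      ‖PT b₀ β Φ (supI I I') K (Real.exp ((u - u) / n)) s x Y‖ ≤
        C2 * Real.exp (-(n * u)) * (Q ^ n)⁻¹ * ((N K : ℝ) ^ n)⁻¹ := by
    intro I hI I' hI' K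
    have hm : (b₀ : Mt n) ∈ (supI I I').1 := by
      rw [(IF_inf hn hO I I').2.1]
      exact (le_sup_left : I.1 ≤ I.1 ⊔ I'.1) ((mem_PI hn hO hb₀ I).1 hI)
    refine (h2 (supI I I') hm K (Real.exp ((u - u) / n)) s (Real.exp_pos _).le (by simp)
      (Real.exp_pos _) x hx Y hY).1.trans (le_of_eq ?_)
    rw [hsn, mul_pow, mul_pow, ← Real.exp_nat_mul, mul_inv, mul_inv, ← Real.exp_neg]
    ring
  set MT : ℂ := (((covO O ^ 2)⁻¹ * Q ^ n * Real.exp (-(n * u)) : ℝ) : ℂ) *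
            ∑ I ∈ PI O b₀, ∑ I' ∈ PI O b₀, (((((N I : ℝ) * N I') ^ n)⁻¹ : ℝ) : ℂ) *
            ∑ K ∈ PI O b₂, ((cs K * yI b₂ c I K * yI b₂ c I' K : ℝ) : ℂ) *
              PT b₀ β Φ (supI I I') K (Real.exp ((u - u) / n)) s x Y with hMT
  have hM : ‖MT‖ ≤ (covO O ^ 2)⁻¹ * C2 * DZN.QA O (b₀ * b₂) * Real.exp (-(2 * n * u)) := by
    rw [hMT, norm_mul, Complex.norm_real, Real.norm_of_nonneg (by positivity)]
    have k2 : ‖∑ I ∈ PI O b₀, ∑ I' ∈ PI O b₀, (((((N I : ℝ) * N I') ^ n)⁻¹ : ℝ) : ℂ) *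
            ∑ K ∈ PI O b₂, ((cs K * yI b₂ c I K * yI b₂ c I' K : ℝ) : ℂ) *
              PT b₀ β Φ (supI I I') K (Real.exp ((u - u) / n)) s x Y‖ ≤
        (C2 * Real.exp (-(n * u)) * (Q ^ n)⁻¹) * DZN.QA O (b₀ * b₂) := by
      refine le_trans ?_ (mul_le_mul_of_nonneg_left (s10_QA hn hO hb₀ hb₂ hcop c hc.le)
        (by positivity))
      rw [Finset.mul_sum]
      refine (norm_sum_le _ _).trans (Finset.sum_le_sum fun I hI => ?_)
      rw [Finset.mul_sum]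
      refine (norm_sum_le _ _).trans (Finset.sum_le_sum fun I' hI' => ?_)
      rw [norm_mul, Complex.norm_real, Real.norm_of_nonneg (by positivity), mul_left_comm]
      refine mul_le_mul_of_nonneg_left ?_ (by positivity)
      rw [Finset.mul_sum]
      refine (norm_sum_le _ _).trans (Finset.sum_le_sum fun K _ => ?_)
      rw [norm_mul, Complex.norm_real, Real.norm_eq_abs, abs_mul, abs_mul,
        abs_of_nonneg (cs_nonneg hn hO K)]
      calc cs K * |yI b₂ c I K| * |yI b₂ c I' K| *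
            ‖PT b₀ β Φ (supI I I') K (Real.exp ((u - u) / n)) s x Y‖
          ≤ cs K * |yI b₂ c I K| * |yI b₂ c I' K| *
            (C2 * Real.exp (-(n * u)) * (Q ^ n)⁻¹ * ((N K : ℝ) ^ n)⁻¹) :=
            mul_le_mul_of_nonneg_left (hPT I hI I' hI' K)
              (mul_nonneg (mul_nonneg (cs_nonneg hn hO K) (abs_nonneg _)) (abs_nonneg _))
        _ = _ := by ring
    calc (covO O ^ 2)⁻¹ * Q ^ n * Real.exp (-(n * u)) * _
        ≤ (covO O ^ 2)⁻¹ * Q ^ n * Real.exp (-(n * u)) *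
          ((C2 * Real.exp (-(n * u)) * (Q ^ n)⁻¹) * DZN.QA O (b₀ * b₂)) :=
          mul_le_mul_of_nonneg_left k2 (by positivity)
      _ = (covO O ^ 2)⁻¹ * C2 * DZN.QA O (b₀ * b₂) *
          (Real.exp (-(n * u)) * Real.exp (-(n * u))) * (Q ^ n * (Q ^ n)⁻¹) := by ring
      _ = _ := by
          rw [mul_inv_cancel₀ (pow_pos hQ0 n).ne', mul_one, ← Real.exp_add]
          congr 2
          ring
  have hEr : C1 ≤ C1 * Real.exp (2 * n * C3) * Real.exp (-(2 * n * u)) := by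
    rw [mul_assoc, ← Real.exp_add]
    refine le_mul_of_one_le_right hC1 (Real.one_le_exp ?_)
    have h5 : 0 ≤ Real.log Q := Real.log_nonneg hQ1'
    have h6 : (0 : ℝ) ≤ n := Nat.cast_nonneg n
    have h7 : 0 ≤ 2 * (n : ℝ) * (C3 - u) := mul_nonneg (by linarith) (by linarith)
    linarith
  have hex := Real.exp_pos (-(2 * (n : ℝ) * u))
  calc ‖Gt b₀ (b₀ * b₂) β Φ c Q u u x y Y‖
      = ‖(Gt b₀ (b₀ * b₂) β Φ c Q u u x y Y - MT) + MT‖ := by rw [sub_add_cancel]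
    _ ≤ ‖Gt b₀ (b₀ * b₂) β Φ c Q u u x y Y - MT‖ + ‖MT‖ := norm_add_le _ _
    _ ≤ C1 * Real.exp (2 * n * C3) * Real.exp (-(2 * n * u)) +
        (covO O ^ 2)⁻¹ * C2 * DZN.QA O (b₀ * b₂) * Real.exp (-(2 * n * u)) :=
        add_le_add (k1.trans hEr) hM
    _ ≤ E * (DZN.QA O (b₀ * b₂) + 1) * Real.exp (-(2 * n * u)) := by
        rw [← add_mul]
        refine mul_le_mul_of_nonneg_right ?_ hex.le
        have a1 : 0 ≤ C1 * Real.exp (2 * n * C3) := by positivity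
        have a2 : 0 ≤ (covO O ^ 2)⁻¹ * C2 := by positivity
        rw [hE]
        nlinarith [mul_nonneg a1 hQA]
    _ ≤ _ := by
        refine mul_le_mul_of_nonneg_right (mul_le_mul_of_nonneg_right (le_max_right _ _) ?_)
          hex.le
        linarith


end

end Pool.Agent.RZH

namespace Pool.Agent.RZH

theorem crude0 : type_of% @crude0_pr := @crude0_pr

end Pool.Agent.RZH
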