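import Pool.Agent.Lib_helper16.GLL.XDefs
import Pool.Agent.Lib_helper32.LAL.SD2
import Pool.Agent.Lib_helper32.LAL.SDefs
import Pool.Agent.Lib_helper32.LALS.S_EX
import Pool.Agent.Lib_helper32.LALS.S_SA1
import Pool.Agent.Lib_helper32.LALS.S_SC3
import Pool.Agent.Lib_helper32.LALS.S_SH2
import Pool.Agent.Lib_helper32.LALS.S_SI4
import Pool.Agent.Lib_helper32.LALS.S_SN
import Pool.Agent.Lib_helper41.RZGF.R_S10
import Pool.Agent.Lib_helper41.RZGF.R_S6a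
import Pool.Agent.Lib_helper41.RZGF.R_TF4
import Pool.Agent.Lib_helper41.RZGF.R_X1
import Pool.Agent.Lib_helper41.RZGF.R_X3
import Pool.Agent.Lib_helper42.GLM.Defs
import Pool.Agent.Lib_helper75.DZN.Defs
import Pool.Agent.Lib_helper75.RZG.Defs
import Pool.Agent.Lib_helper94.LAL.S2D
import Pool.Agent.Lib_helper96.GLF.O_OA3
import Pool.Agent.Lib_helper96.GLF.T_TN
import Pool.Agent.Lib_helper96.GLF.X_GLUE_11
import Pool.Agent.Lib_helper96.GLF.X_XB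
import Pool.Agent.Lib_helper96.GLF.X_XE1
import Pool.Agent.Lib_helper96.GLF.X_XG
import Pool.Agent.Lib_helper96.GLL.Defs
import Pool.Agent.Lib_helper96.GLL.DefsB
import Pool.Agent.Lib_helper96.LAL.DefsC
import Pool.Agent.Lib_helper96.LAL.Tr

/-! # RZG block X7 (helper16): the crude bound for `TOT` at one scale -/

set_option autoImplicit false

namespace Pool.Agent.RZH

open MeasureTheory Matrix Complex Filter Topology Pool.Agent.GLL Pool.Agent.LAL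
open scoped ENNReal ContDiff

noncomputable section

variable {n : ℕ} {O : Subring (Mt n)}

/-! ### scaling -/

theorem x7_Phi (hn : 2 ≤ n) {k : Mt n → ℂ} (hk : Sph2 k) (φ : ℝ → ℂ) (u : ℝ) (X : Mt n) :
    Phi φ k (Real.exp (u / n) • X) =
      ((Real.exp (-(((n : ℝ) - 1) / 2 * u)) : ℝ) : ℂ) * Phi (fun v => φ (v + u)) k X := by
  have hn0 : (n : ℝ) ≠ 0 := by
    have : 0 < n := by omega
    exact_mod_cast this.ne'
  have hz : Real.exp (u / n) ^ n = Real.exp u := by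
    rw [← Real.exp_nat_mul, mul_div_cancel₀ _ hn0]
  have hdet : (Real.exp (u / n) • X).det = Real.exp u * X.det := by
    rw [Matrix.det_smul, Fintype.card_fin, hz]
  unfold Phi
  by_cases h : X.det = 0
  · rw [if_pos (by rw [hdet, h, mul_zero]), if_pos h, mul_zero]
  · have h' : (Real.exp (u / n) • X).det ≠ 0 := by
      rw [hdet]
      exact mul_ne_zero (Real.exp_pos _).ne' h
    have hd : 0 < |X.det| := abs_pos.2 h
    rw [if_neg h', if_neg h, hdet, abs_mul, abs_of_pos (Real.exp_pos u),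
      Real.log_mul (Real.exp_pos u).ne' hd.ne', Real.log_exp,
      Real.mul_rpow (Real.exp_pos u).le hd.le, ← Real.exp_mul, hk.scal _ X (Real.exp_pos _) h,
      add_comm u]
    have e1 : u * -(((n : ℝ) - 1) / 2) = -(((n : ℝ) - 1) / 2 * u) := by ring
    rw [e1]
    push_cast
    ring

theorem x7_OP (a : ℝ) (A A' : Idl O) (S : Mt n → ℂ) (L : Idl (tr O)) (x y : Mt n) :
    OP A A' (fun X => (a : ℂ) * S X) L x y = ((a ^ 2 : ℝ) : ℂ) * OP A A' S L x y := by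
  unfold OP
  rw [← tsum_mul_left]
  refine tsum_congr fun p => ?_
  split_ifs
  · rw [map_mul, Complex.conj_ofReal]
    push_cast
    ring
  · rw [mul_zero]

theorem x7_OF (b₀ : ℕ) (β : Mt n → ℝ) (Q a : ℝ) (A A' : Idl O) (S : Mt n → ℂ) (x y : Mt n) :
    OF b₀ β Q A A' (fun X => (a : ℂ) * S X) x y = ((a ^ 2 : ℝ) : ℂ) * OF b₀ β Q A A' S x y := by
  unfold OF
  rw [← tsum_mul_left]
  refine tsum_congr fun L => ?_
  split_ifs
  · rw [x7_OP]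
    ring
  · rw [mul_zero]

theorem x7_HSL (a : ℝ) (c : Idl O → ℂ) (S : Mt n → ℂ) (L : Idl (tr O)) (x y : Mt n) :
    HSL c (fun X => (a : ℂ) * S X) L x y = ((a ^ 2 : ℝ) : ℂ) * HSL c S L x y := by
  unfold HSL
  rw [← tsum_mul_left]
  refine tsum_congr fun p => ?_
  split_ifs
  · rw [map_mul, Complex.conj_ofReal]
    push_cast
    ring
  · rw [mul_zero]

theorem x7_TOT (F : Set (Mt n)) (b₀ : ℕ) (β : Mt n → ℝ) (Q a : ℝ) (c : Idl O → ℂ)
    (S : Mt n → ℂ) :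
    TOT F b₀ β Q c (fun X => (a : ℂ) * S X) = ((a ^ 2 : ℝ) : ℂ) * TOT F b₀ β Q c S := by
  unfold TOT
  rw [← tsum_mul_left]
  refine tsum_congr fun L => ?_
  split_ifs
  · unfold HSI
    simp only [x7_HSL, integral_const_mul]
    ring
  · rw [mul_zero]

/-! ### the coefficients -/

theorem x7_le (α : O) (hα : α ≠ 0) (K : Idl O) : pI α hα ≤ K ↔ (α : Mt n) ∈ K.1 := by
  change xO O (α : Mt n) ≤ K.1 ↔ (α : Mt n) ∈ K.1
  constructor
  · intro h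
    apply h
    exact ⟨1, O.one_mem, mul_one _⟩
  · rintro h x ⟨y, hy, rfl⟩
    exact K.2.2.2 _ h y hy

theorem x7_inv (hn : 2 ≤ n) (hO : GLL.Ord O) {c : Idl O → ℝ} (hc : IsHk c) (γ : Oˣ)
    (A : Idl O) : c (si4_sg γ A) = c A := by
  obtain ⟨h1, h2, -, -⟩ := IF_gen hn hO A
  have hA : A = pI (gen A) h1 := Subtype.ext h2
  have h3 : (γ : O) * gen A ≠ 0 := by
    intro h
    apply h1
    calc gen A = ((γ⁻¹ : Oˣ) : O) * ((γ : O) * gen A) := by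
          rw [← mul_assoc, Units.inv_mul, one_mul]
      _ = 0 := by rw [h, mul_zero]
  have h4 : si4_sg γ A = pI ((γ : O) * gen A) h3 := by
    refine Subtype.ext ?_
    show A.1.map (AddMonoidHom.mulLeft ((γ : O) : Mt n)) = xO O (((γ : O) * gen A : O) : Mt n)
    rw [h2]
    ext X
    unfold xO
    simp only [AddSubgroup.mem_map]
    constructor
    · rintro ⟨Y, ⟨Z, hZ, rfl⟩, rfl⟩
      refine ⟨Z, hZ, ?_⟩
      show (((γ : O) * gen A : O) : Mt n) * Z = ((γ : O) : Mt n) * ((gen A : Mt n) * Z)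
      rw [Subring.coe_mul, Matrix.mul_assoc]
    · rintro ⟨Z, hZ, rfl⟩
      refine ⟨(gen A : Mt n) * Z, ⟨Z, hZ, rfl⟩, ?_⟩
      show ((γ : O) : Mt n) * ((gen A : Mt n) * Z) = (((γ : O) * gen A : O) : Mt n) * Z
      rw [Subring.coe_mul, Matrix.mul_assoc]
  rw [h4, hc γ (gen A) h1 h3, ← hA]

/-- the ideals containing `b` are permuted by the units -/
theorem x7_mem (γ : Oˣ) (b : ℕ) (A : Idl O) :
    (b : Mt n) ∈ (si4_sg γ A).1 ↔ (b : Mt n) ∈ A.1 := by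
  have hc : ∀ M : Mt n, M * (b : Mt n) = (b : Mt n) * M := fun M => (Nat.cast_commute b M).symm.eq
  have h1 := si4_mem γ A ((((γ⁻¹ : Oˣ) : O) : Mt n) * (b : Mt n))
  rw [← Matrix.mul_assoc, si4_can, Matrix.one_mul] at h1
  rw [h1]
  constructor
  · intro h
    have h2 := A.2.2.2 _ h _ (γ : O).2
    rw [hc, Matrix.mul_assoc, si4_can', Matrix.mul_one] at h2
    exact h2
  · intro h
    rw [hc]
    exact A.2.2.2 _ h _ ((γ⁻¹ : Oˣ) : O).2

theorem x7_hk (hn : 2 ≤ n) (hO : GLL.Ord O) {b : ℕ} (hb : 0 < b) {c : Idl O → ℝ}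
    (hc : IsHk c) : IsHk (bF b c) := by
  classical
  intro γ a h h'
  unfold bF
  congr 1
  symm
  refine Finset.sum_bij' (fun A _ => si4_sg γ A) (fun A _ => si4_sg γ⁻¹ A) ?_ ?_ ?_ ?_ ?_
  · intro A hA
    rw [mem_PI hn hO hb] at hA ⊢
    exact (x7_mem γ b A).2 hA
  · intro A hA
    rw [mem_PI hn hO hb] at hA ⊢
    exact (x7_mem γ⁻¹ b A).2 hA
  · intro A _
    have h1 := si4_sg_inv γ⁻¹ A
    rwa [inv_inv] at h1
  · intro A _
    exact si4_sg_inv γ A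
  · intro A _
    have h1 : pI ((γ : O) * a) h' ≤ si4_sg γ A ↔ pI a h ≤ A := by
      rw [x7_le, x7_le]
      exact si4_mem γ A (a : Mt n)
    rw [x7_inv hn hO hc γ A]
    by_cases h2 : pI a h ≤ A
    · rw [if_pos h2, if_pos (h1.2 h2)]
    · rw [if_neg h2, if_neg fun h3 => h2 (h1.1 h3)]

theorem x7_bd (b : ℕ) (c : Idl O → ℝ) (I : Idl O) :
    ‖bF b c I‖ ≤ (∑ A ∈ PI O b, |c A|) * (N I : ℝ) ^ (0 : ℝ) := by
  classical
  rw [Real.rpow_zero, mul_one]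
  unfold bF
  rw [Complex.norm_real, Real.norm_eq_abs]
  refine (Finset.abs_sum_le_sum_abs _ _).trans (Finset.sum_le_sum fun A _ => ?_)
  split_ifs
  · exact le_rfl
  · rw [abs_zero]
    exact abs_nonneg _

/-! ### the integral over `Y` -/

theorem x7_norm (hn : 2 ≤ n) {Φ : Mt n → ℂ} (hΦ : Tst Φ) : ∃ C : ℝ, 0 ≤ C ∧ ∀ X, ‖Φ X‖ ≤ C := by
  obtain ⟨C, hC⟩ := (Tst_rap hn hΦ).1.dec 0
  refine ⟨C, ?_, fun X => by have := hC X; rwa [pow_zero, mul_one] at this⟩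
  have := hC 0
  rw [pow_zero, mul_one] at this
  exact (norm_nonneg _).trans this

/-- a bound for `SW`, uniform in `Y` -/
theorem x7_SWbd (hn : 2 ≤ n) (hO : GLL.Ord O) {Φ : Mt n → ℂ} (hΦ : Tst Φ) {β : Mt n → ℝ}
    (hβ : Bt β) (b₀ : ℕ) (R Q u : ℝ) (hQ : 0 < Q) : ∃ C : ℝ, 0 ≤ C ∧ ∀ A A' : Idl O,
      ∀ x ∈ K1 n R, ∀ y ∈ K1 n R, ∀ Y ∈ K1 n R, ‖SW b₀ β Φ Q u u A A' x y Y‖ ≤ C := by
  classical
  obtain ⟨H, S, hHS⟩ := SW_fin hn hO hΦ hβ R |u| Q hQ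
  obtain ⟨C1, hC1, h1⟩ := x7_norm hn hΦ
  obtain ⟨C2, hC2, h2⟩ := x7_norm hn hβ.tst
  refine ⟨∑ D ∈ PI (tr O) b₀, ‖(mob (tr O) b₀ D : ℂ)‖ * ∑ h ∈ H, ∑ p ∈ S, (C1 * C1 * C2),
    Finset.sum_nonneg fun D _ => mul_nonneg (norm_nonneg _) (Finset.sum_nonneg fun h _ =>
      Finset.sum_nonneg fun p _ => by positivity), fun A A' x hx y hy Y hY => ?_⟩
  obtain ⟨h3, h4⟩ := hHS u u le_rfl le_rfl x hx y hy Y hY
  have hW : ∀ (h : O) (D : Idl (tr O)) (p : O × O), ‖s2T2 O Φ (fun X => (β X : ℂ)) Q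
      (Real.exp (u / n)) (Real.exp (u / n)) x y Y h A.1 A'.1 (tS D) p‖ ≤ C1 * C1 * C2 := by
    intro h D p
    unfold s2T2
    split_ifs
    · unfold s2W2
      rw [norm_mul, norm_mul, RCLike.norm_conj]
      exact mul_le_mul (mul_le_mul (h1 _) (h1 _) (norm_nonneg _) hC1) (h2 _) (norm_nonneg _)
        (by positivity)
    · rw [norm_zero]
      positivity
  have hp : ∀ (h : O) (D : Idl (tr O)), h ≠ 0 → ∀ p : O × O, p ∉ S →
      s2T2 O Φ (fun X => (β X : ℂ)) Q (Real.exp (u / n)) (Real.exp (u / n)) x y Y h A.1 A'.1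
        (tS D) p = 0 := by
    intro h D h0 p hp
    unfold s2T2
    split_ifs
    · exact h4 p hp h h0
    · rfl
  have hh : ∀ (h : O) (D : Idl (tr O)), h ≠ 0 → h ∉ H → ∀ p : O × O,
      s2T2 O Φ (fun X => (β X : ℂ)) Q (Real.exp (u / n)) (Real.exp (u / n)) x y Y h A.1 A'.1
        (tS D) p = 0 := by
    intro h D h0 hH p
    unfold s2T2
    split_ifs
    · exact h3 h h0 hH p
    · rfl
  unfold SW
  refine (norm_sum_le _ _).trans (Finset.sum_le_sum fun D _ => ?_)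
  rw [norm_mul]
  refine mul_le_mul_of_nonneg_left ?_ (norm_nonneg _)
  rw [tsum_eq_sum (s := H)]
  · refine (norm_sum_le _ _).trans (Finset.sum_le_sum fun h _ => ?_)
    by_cases h0 : h = 0
    · rw [if_pos h0, norm_zero]
      exact Finset.sum_nonneg fun p _ => by positivity
    · rw [if_neg h0, tsum_eq_sum (s := S) (fun p hp' => hp h D h0 p hp')]
      exact (norm_sum_le _ _).trans (Finset.sum_le_sum fun p _ => hW h D p)
  · intro h hH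
    by_cases h0 : h = 0
    · rw [if_pos h0]
    · rw [if_neg h0, tsum_congr (fun p => hh h D h0 hH p), tsum_zero]

theorem x7_SWint (hn : 2 ≤ n) (hO : GLL.Ord O) {Φ : Mt n → ℂ} (hΦ : Tst Φ) {β : Mt n → ℝ}
    (hβ : Bt β) (b₀ : ℕ) {F : Set (Mt n)} {R : ℝ} (hF : IsFG O F R) {Q : ℝ} (hQ : 0 < Q) (u : ℝ)
    {x y : Mt n} (hx : x ∈ K1 n R) (hy : y ∈ K1 n R) (A A' : Idl O) :
    IntegrableOn (fun Y => SW b₀ β Φ Q u u A A' x y Y) F (X.hm n) := by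
  obtain ⟨C, -, hC⟩ := x7_SWbd hn hO hΦ hβ b₀ R Q u hQ
  have hfin : IsFiniteMeasure ((X.hm n).restrict F) := ⟨by
    rw [Measure.restrict_apply_univ]
    exact X.fd_fin hn hO hF.toIsFD⟩
  refine Integrable.of_bound (C := C) ?_ ?_
  · have := sh2_meas hn hO hΦ hβ b₀ (F := F) hQ (Real.exp_pos (u / n)) hx.1 hy.1 A.1 A'.1
    exact this
  · have h1 : ∀ᵐ Y ∂((X.hm n).restrict F), |Y.det| = 1 :=
      ae_restrict_of_ae (X.hm_supp (by omega : 1 ≤ n))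
    filter_upwards [h1, ae_restrict_mem hF.meas] with Y hY hYF
    have h2 := hF.bd Y hYF
    rw [X.hat_one hY] at h2
    exact hC A A' x hx y hy Y ⟨hY, h2.1, h2.2⟩

/-- `switch`, summed over the ideals -/
theorem x7_switch (hn : 2 ≤ n) (hO : GLL.Ord O) {Φ : Mt n → ℂ} (hΦ : Tst Φ) {β : Mt n → ℝ}
    (hβ : Bt β) (b₀ b : ℕ) (hb₀ : 0 < b₀) {F : Set (Mt n)} {R : ℝ} (hF : IsFG O F R)
    (c : Idl O → ℝ) {Q : ℝ} (hQ : 0 < Q) (u : ℝ) {x y : Mt n} (hx : x ∈ K1 n R)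
    (hy : y ∈ K1 n R) :
    ∑ I ∈ PI O b, ∑ I' ∈ PI O b, ((c I * c I' : ℝ) : ℂ) *
        OF b₀ β Q I I' (fun X => Φ (Real.exp (u / n) • X)) x y =
      ∫ Y in F, Gt b₀ b β Φ c Q u u x y Y ∂(X.hm n) := by
  have hi := x7_SWint hn hO hΦ hβ b₀ hF hQ u hx hy
  have h1 : ∀ I I' : Idl O, OF b₀ β Q I I' (fun X => Φ (Real.exp (u / n) • X)) x y =
      ∫ Y in F, SW b₀ β Φ Q u u I I' x y Y ∂(X.hm n) := by
    intro I I'
    have := switch hn hO hΦ hβ b₀ hb₀ hF I I' hQ (Real.exp_pos (u / n)) hx.1 hy.1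
    exact this
  unfold Gt
  rw [integral_finsetSum _ fun I _ => integrable_finsetSum _ fun I' _ => (hi I I').const_mul _]
  refine Finset.sum_congr rfl fun I _ => ?_
  rw [integral_finsetSum _ fun I' _ => (hi I I').const_mul _]
  refine Finset.sum_congr rfl fun I' _ => ?_
  rw [integral_const_mul, h1]

/-- the double integral of a bounded function -/
theorem x7_dbl (hn : 2 ≤ n) {F : Set (Mt n)} {R : ℝ} (hF : IsFG O F R) (hO : GLL.Ord O)
    (f : Mt n → Mt n → ℂ) {B : ℝ} (hB : ∀ x ∈ K1 n R, ∀ y ∈ K1 n R, ‖f x y‖ ≤ B) :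
    ‖∫ x in F, ∫ y in F, f x y ∂(X.hm n) ∂(X.hm n)‖ ≤ B * vol F * vol F := by
  have hfin : IsFiniteMeasure ((X.hm n).restrict F) := ⟨by
    rw [Measure.restrict_apply_univ]
    exact X.fd_fin hn hO hF.toIsFD⟩
  have hK : ∀ᵐ x ∂((X.hm n).restrict F), x ∈ K1 n R := by
    have h1 : ∀ᵐ Y ∂((X.hm n).restrict F), |Y.det| = 1 :=
      ae_restrict_of_ae (X.hm_supp (by omega : 1 ≤ n))
    filter_upwards [h1, ae_restrict_mem hF.meas] with Y hY hYF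
    have h2 := hF.bd Y hYF
    rw [X.hat_one hY] at h2
    exact ⟨hY, h2.1, h2.2⟩
  have h1 : ∀ᵐ x ∂((X.hm n).restrict F), ‖∫ y in F, f x y ∂(X.hm n)‖ ≤ B * vol F := by
    filter_upwards [hK] with x hx
    have h2 := norm_integral_le_of_norm_le_const (μ := (X.hm n).restrict F) (f := f x)
      (hK.mono fun y hy => hB x hx y hy)
    rwa [sh2_vol hn hF.toIsFD] at h2
  have h3 := norm_integral_le_of_norm_le_const h1
  rwa [sh2_vol hn hF.toIsFD] at h3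

/-- the local factor -/
theorem x7_QA (hn : 2 ≤ n) (hO : GLL.Ord O) (b₀ : ℕ) (hb₀ : 0 < b₀) : ∃ C : ℝ, 0 ≤ C ∧
    ∀ Q : ℝ, 3 ≤ Q → 1 ≤ Real.log Q → ∀ b₂ : ℕ, b₂ ∣ primorial ⌊Q⌋₊ → b₀.Coprime b₂ →
      DZN.QA O (b₀ * b₂) + 1 ≤ C * Real.log Q ^ 3 := by
  obtain ⟨hmul, C, hC, hQA⟩ := QA_le' hn hO
  refine ⟨|DZN.QA O b₀| * C + 1, by positivity, fun Q hQ hL b₂ hb₂ hc => ?_⟩
  have hb2 : 0 < b₂ := Nat.pos_of_dvd_of_pos hb₂ (primorial_pos _)
  have hf : 3 ≤ ⌊Q⌋₊ := Nat.le_floor (by exact_mod_cast hQ)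
  obtain ⟨h1, h2⟩ := hQA ⌊Q⌋₊ b₂ hf hb₂
  have hQ0 : 0 < Q := by linarith
  have h3 : Real.log (⌊Q⌋₊ : ℝ) ≤ Real.log Q := by
    apply Real.log_le_log
    · have : 0 < ⌊Q⌋₊ := by omega
      exact_mod_cast this
    · exact Nat.floor_le hQ0.le
  have h4 : 0 ≤ Real.log (⌊Q⌋₊ : ℝ) := Real.log_natCast_nonneg _
  have h5 : Real.log (⌊Q⌋₊ : ℝ) ^ 3 ≤ Real.log Q ^ 3 := pow_le_pow_left₀ h4 h3 3
  have h6 : DZN.QA O b₂ ≤ C * Real.log Q ^ 3 := h2.trans (mul_le_mul_of_nonneg_left h5 hC)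
  have h7 : (1 : ℝ) ≤ Real.log Q ^ 3 := one_le_pow₀ hL
  rw [hmul b₀ b₂ hb₀ hb2 hc]
  have h8 : DZN.QA O b₀ * DZN.QA O b₂ ≤ |DZN.QA O b₀| * (C * Real.log Q ^ 3) :=
    mul_le_mul (le_abs_self _) h6 h1 (abs_nonneg _)
  nlinarith

theorem TOT_crude_pr (hn : 2 ≤ n) (hO : GLL.Ord O) {θ : ℝ} (hθ0 : 0 ≤ θ) (hθ : θ < 1)
    {k : Mt n → ℂ} (hk : Sph2 k) {φ : ℝ → ℂ} {A : ℝ} (hφ : TF φ A) {β : Mt n → ℝ} (hβ : Bt β)
    (b₀ : ℕ) (hb₀ : 0 < b₀) : ∃ C Q0 : ℝ, 0 ≤ C ∧ 1 ≤ Q0 ∧ ∀ F, IsFD O F →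
      ∀ Q : ℝ, Q0 ≤ Q → ∀ b₂ : ℕ, b₂ ∣ primorial ⌊Q⌋₊ → b₀.Coprime b₂ →
      ∀ c : Idl O → ℝ, CO O (b₀ * b₂) (Q ^ θ) c → ∀ u : ℝ, -(2 * Real.log Q) ≤ u →
        Real.exp (((n : ℝ) - 1) * u) *
            (TOT F b₀ β Q (bF (b₀ * b₂) c) (fun X => Phi φ k (Real.exp (u / n) • X))).re ≤
          vol F * Del O b₀ β Q * (k2 k * ∑' I : Idl O, ‖bF (b₀ * b₂) c I‖ ^ 2 *
            ((N I : ℝ) ^ (n - 1))⁻¹ * ‖φ (u + Real.log (N I))‖ ^ 2) +
          (open scoped Classical in if u + Real.log Q ≤ C then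
            C * Real.log Q ^ C * Real.exp (-(((n : ℝ) + 1) * u)) else 0) := by
  classical
  obtain ⟨F0, R, hF0⟩ := exFG hn hO
  have hφs : HasCompactSupport φ := by
    refine HasCompactSupport.intro (isCompact_Icc (a := -A) (b := A)) fun v hv => ?_
    by_contra h
    exact hv ⟨(abs_le.1 (hφ.supp v h)).1, (abs_le.1 (hφ.supp v h)).2⟩
  have hΦ : Tst (Phi φ k) := IF_TstPhi hn k hk φ hφ.smooth hφs
  obtain ⟨C1, Q1, hC1, hQ1, hcr⟩ := crude0 hn hO hΦ hβ b₀ hb₀ R hθ0 hθ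
  obtain ⟨C2, hC2, hQA⟩ := x7_QA hn hO b₀ hb₀
  have hv0 : 0 ≤ vol F0 := (IF_vol hn hO F0 hF0.toIsFD).le
  set C : ℝ := C1 + vol F0 ^ 3 * C1 * C2 + 3 with hCdef
  have hC0 : 0 ≤ C := by positivity
  have hC1C : C1 ≤ C := by
    have : 0 ≤ vol F0 ^ 3 * C1 * C2 := by positivity
    linarith
  have hC3 : 3 ≤ C := by
    have : 0 ≤ vol F0 ^ 3 * C1 * C2 := by positivity
    linarith
  refine ⟨C, max Q1 (Real.exp 3), hC0, le_max_of_le_left hQ1,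
    fun F hF Q hQ b₂ hb₂ hcop c hc u hu => ?_⟩
  have hQ1' : Q1 ≤ Q := (le_max_left _ _).trans hQ
  have hQe : Real.exp 3 ≤ Q := (le_max_right _ _).trans hQ
  have hQp : 0 < Q := (Real.exp_pos _).trans_le hQe
  have hL3 : 3 ≤ Real.log Q := (Real.le_log_iff_exp_le hQp).2 hQe
  have hQ3 : 3 ≤ Q := by
    have := Real.add_one_le_exp (3 : ℝ)
    linarith
  have hb2 : 0 < b₂ := Nat.pos_of_dvd_of_pos hb₂ (primorial_pos _)
  have hb : 0 < b₀ * b₂ := Nat.mul_pos hb₀ hb2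
  have hz := Real.exp_pos (u / n)
  have hT := TOT_indep hn hO hΦ hβ b₀ hF hF0.toIsFD hQp (bF (b₀ * b₂) c) (x7_hk hn hO hb hc.hk)
    0 (∑ A ∈ PI O (b₀ * b₂), |c A|) (x7_bd (b₀ * b₂) c) hz
  have hv : vol F = vol F0 := GLL.T.tn_vol_eq hn hO hF hF0.toIsFD
  -- the scaled function
  set ψ : ℝ → ℂ := fun v => φ (v + u) with hψd
  have hψ : ContDiff ℝ ∞ ψ := hφ.smooth.comp (contDiff_id.add contDiff_const)
  have hψs : HasCompactSupport ψ := by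
    refine HasCompactSupport.intro (isCompact_Icc (a := -A - u) (b := A - u)) fun v hv => ?_
    by_contra h
    have h1 := abs_le.1 (hφ.supp (v + u) h)
    exact hv ⟨by linarith [h1.1], by linarith [h1.2]⟩
  set a : ℝ := Real.exp (-(((n : ℝ) - 1) / 2 * u)) with had
  have ha2 : a ^ 2 = Real.exp (-(((n : ℝ) - 1) * u)) := by
    rw [had, ← Real.exp_nat_mul]
    congr 1
    push_cast
    ring
  have hS : (fun X => Phi φ k (Real.exp (u / n) • X)) = fun X => (a : ℂ) * Phi ψ k X := by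
    funext X
    exact x7_Phi hn hk φ u X
  have hE : Real.exp (((n : ℝ) - 1) * u) * a ^ 2 = 1 := by
    rw [ha2, ← Real.exp_add, add_neg_cancel, Real.exp_zero]
  obtain ⟨-, hbF⟩ := TOT_bF hn hO hk hψ hψs hβ b₀ (b₀ * b₂) hb hF0 c hQp
  have hre : Real.exp (((n : ℝ) - 1) * u) *
      (TOT F b₀ β Q (bF (b₀ * b₂) c) (fun X => Phi φ k (Real.exp (u / n) • X))).re =
      (TOT F0 b₀ β Q (bF (b₀ * b₂) c) (Phi ψ k)).re := by
    rw [hT, hS, x7_TOT, Complex.re_ofReal_mul, ← mul_assoc, hE, one_mul]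
  rw [hre, hbF, Complex.add_re, Complex.ofReal_re, hv]
  have hψN : ∀ I : Idl O, ψ (Real.log (N I)) = φ (u + Real.log (N I)) := by
    intro I
    rw [hψd]
    simp only
    rw [add_comm]
  simp only [hψN]
  have hfirst : ∀ X : ℝ, Del O b₀ β Q * (vol F0 * (k2 k * X)) =
      vol F0 * Del O b₀ β Q * (k2 k * X) := fun X => by ring
  rw [hfirst]
  refine add_le_add le_rfl ?_
  -- the second part
  set B : ℝ := if u + Real.log Q ≤ C1 then
      C1 * (DZN.QA O (b₀ * b₂) + 1) * Real.exp (-(2 * n * u)) else 0 with hB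
  have hpt : ∀ x ∈ K1 n R, ∀ y ∈ K1 n R, ‖∑ I ∈ PI O (b₀ * b₂), ∑ I' ∈ PI O (b₀ * b₂),
      ((c I * c I' : ℝ) : ℂ) * OF b₀ β Q I I' (Phi ψ k) x y‖ ≤
      Real.exp (((n : ℝ) - 1) * u) * (B * vol F0) := by
    intro x hx y hy
    have h1 := x7_switch hn hO hΦ hβ b₀ (b₀ * b₂) hb₀ hF0 c hQp u hx hy
    rw [hS] at h1
    simp only [x7_OF] at h1
    have h2 : ∑ I ∈ PI O (b₀ * b₂), ∑ I' ∈ PI O (b₀ * b₂), ((c I * c I' : ℝ) : ℂ) *
        OF b₀ β Q I I' (Phi ψ k) x y = ((Real.exp (((n : ℝ) - 1) * u) : ℝ) : ℂ) *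
        ∫ Y in F0, Gt b₀ (b₀ * b₂) β (Phi φ k) c Q u u x y Y ∂(X.hm n) := by
      rw [← h1, Finset.mul_sum]
      refine Finset.sum_congr rfl fun I _ => ?_
      rw [Finset.mul_sum]
      refine Finset.sum_congr rfl fun I' _ => ?_
      have h3 : ((Real.exp (((n : ℝ) - 1) * u) : ℝ) : ℂ) * ((a ^ 2 : ℝ) : ℂ) = 1 := by
        rw [← Complex.ofReal_mul, hE, Complex.ofReal_one]
      calc ((c I * c I' : ℝ) : ℂ) * OF b₀ β Q I I' (Phi ψ k) x y =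
          (((Real.exp (((n : ℝ) - 1) * u) : ℝ) : ℂ) * ((a ^ 2 : ℝ) : ℂ)) *
            (((c I * c I' : ℝ) : ℂ) * OF b₀ β Q I I' (Phi ψ k) x y) := by rw [h3, one_mul]
        _ = _ := by ring
    rw [h2, norm_mul, Complex.norm_real, Real.norm_eq_abs, abs_of_pos (Real.exp_pos _)]
    refine mul_le_mul_of_nonneg_left ?_ (Real.exp_pos _).le
    have hK : ∀ᵐ Y ∂((X.hm n).restrict F0),
        ‖Gt b₀ (b₀ * b₂) β (Phi φ k) c Q u u x y Y‖ ≤ B := by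
      have h3 : ∀ᵐ Y ∂((X.hm n).restrict F0), |Y.det| = 1 :=
        ae_restrict_of_ae (X.hm_supp (by omega : 1 ≤ n))
      filter_upwards [h3, ae_restrict_mem hF0.meas] with Y hY hYF
      have h4 := hF0.bd Y hYF
      rw [X.hat_one hY] at h4
      exact hcr Q u hQ1' hu b₂ hb2 hcop c hc x hx y hy Y ⟨hY, h4.1, h4.2⟩
    have hfin : IsFiniteMeasure ((X.hm n).restrict F0) := ⟨by
      rw [Measure.restrict_apply_univ]
      exact X.fd_fin hn hO hF0.toIsFD⟩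
    have h5 := norm_integral_le_of_norm_le_const hK
    rwa [sh2_vol hn hF0.toIsFD] at h5
  have h6 := x7_dbl hn hF0 hO (fun x y => ∑ I ∈ PI O (b₀ * b₂), ∑ I' ∈ PI O (b₀ * b₂),
      ((c I * c I' : ℝ) : ℂ) * OF b₀ β Q I I' (Phi ψ k) x y) hpt
  refine (Complex.re_le_norm _).trans (h6.trans ?_)
  have hQA' := hQA Q hQ3 (by linarith) b₂ hb₂ hcop
  have hLC : Real.log Q ^ (3 : ℕ) ≤ Real.log Q ^ C := by
    rw [← Real.rpow_natCast]
    exact Real.rpow_le_rpow_of_exponent_le (by linarith) (by push_cast; exact hC3)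
  have hLp : 0 ≤ Real.log Q ^ (3 : ℕ) := by positivity
  have hEe : Real.exp (((n : ℝ) - 1) * u) * Real.exp (-(2 * n * u)) =
      Real.exp (-(((n : ℝ) + 1) * u)) := by
    rw [← Real.exp_add]
    congr 1
    ring
  by_cases h7 : u + Real.log Q ≤ C1
  · rw [if_pos (h7.trans hC1C)]
    rw [hB, if_pos h7]
    calc Real.exp (((n : ℝ) - 1) * u) * (C1 * (DZN.QA O (b₀ * b₂) + 1) *
          Real.exp (-(2 * n * u)) * vol F0) * vol F0 * vol F0
        = (vol F0 ^ 3 * C1) * (DZN.QA O (b₀ * b₂) + 1) *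
          (Real.exp (((n : ℝ) - 1) * u) * Real.exp (-(2 * n * u))) := by ring
      _ ≤ (vol F0 ^ 3 * C1) * (C2 * Real.log Q ^ 3) * Real.exp (-(((n : ℝ) + 1) * u)) := by
          rw [hEe]
          gcongr
      _ = (vol F0 ^ 3 * C1 * C2) * Real.log Q ^ 3 * Real.exp (-(((n : ℝ) + 1) * u)) := by ring
      _ ≤ C * Real.log Q ^ C * Real.exp (-(((n : ℝ) + 1) * u)) := by
          have h8 : vol F0 ^ 3 * C1 * C2 ≤ C := by linarith
          have h9 : 0 ≤ vol F0 ^ 3 * C1 * C2 := by positivity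
          gcongr
  · rw [hB, if_neg h7, zero_mul, mul_zero, zero_mul, zero_mul]
    split_ifs
    · have : 0 ≤ Real.log Q ^ C := Real.rpow_nonneg (by linarith) _
      positivity
    · exact le_rfl


end

end Pool.Agent.RZH

namespace Pool.Agent.RZH

theorem TOT_crude : type_of% @TOT_crude_pr := @TOT_crude_pr

end Pool.Agent.RZH
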