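import Pool.Agent.Lib_helper32.LAL.Defs
import Pool.Agent.Lib_helper32.LAL.DefsB
import Pool.Agent.Lib_helper32.LAL.SDefs
import Pool.Agent.Lib_helper32.LALS.All
import Pool.Agent.Lib_helper32.LALS.S_EX
import Pool.Agent.Lib_helper32.LALS.S_SA1
import Pool.Agent.Lib_helper32.LALS.S_SL
import Pool.Agent.Lib_helper32.LALS.S_SN
import Pool.Agent.Lib_helper41.RZGF.D_E
import Pool.Agent.Lib_helper41.RZGF.R_D5
import Pool.Agent.Lib_helper41.RZGF.R_M1
import Pool.Agent.Lib_helper41.RZGF.R_M2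
import Pool.Agent.Lib_helper41.RZGF.R_M5
import Pool.Agent.Lib_helper41.RZGF.R_M6
import Pool.Agent.Lib_helper41.RZGF.R_M7
import Pool.Agent.Lib_helper41.RZGF.R_TA2
import Pool.Agent.Lib_helper41.RZGF.R_TA3
import Pool.Agent.Lib_helper41.RZGF.R_X7
import Pool.Agent.Lib_helper42.GLM.Defs
import Pool.Agent.Lib_helper42.LAM.Defs
import Pool.Agent.Lib_helper75.RZG.Defs
import Pool.Agent.Lib_helper96.GLF.F_K2
import Pool.Agent.Lib_helper96.GLF.O_OL4
import Pool.Agent.Lib_helper96.GLF.T_T1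
import Pool.Agent.Lib_helper96.GLF.T_TD
import Pool.Agent.Lib_helper96.GLF.T_TK
import Pool.Agent.Lib_helper96.GLF.T_TN
import Pool.Agent.Lib_helper96.GLF.X_GLUE_11
import Pool.Agent.Lib_helper96.GLL.Defs
import Pool.Agent.Lib_helper96.GLL.DefsB

set_option autoImplicit false

namespace Pool.Agent.RZH

open MeasureTheory Matrix Complex Filter Topology Pool.Agent.GLL Pool.Agent.LAL
open scoped ENNReal ContDiff

noncomputable section

variable {n : ℕ} {O : Subring (Mt n)}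

/-- Cauchy-Schwarz -/
theorem e4_cs {μ : Measure ℝ} [IsFiniteMeasure μ] {f : ℝ → ℂ} (hf : Integrable f μ)
    (hf2 : Integrable (fun x => ‖f x‖ ^ 2) μ) :
    ‖∫ x, f x ∂μ‖ ^ 2 ≤ μ.real Set.univ * ∫ x, ‖f x‖ ^ 2 ∂μ := by
  obtain ⟨m, hm⟩ : ∃ m, m = ∫ x, ‖f x‖ ∂μ := ⟨_, rfl⟩
  obtain ⟨V, hV⟩ : ∃ V, V = μ.real Set.univ := ⟨_, rfl⟩
  have h1 : ‖∫ x, f x ∂μ‖ ≤ m := by
    rw [hm]
    exact norm_integral_le_integral_norm f
  have hm0 : 0 ≤ m := (norm_nonneg _).trans h1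
  have hV0 : 0 ≤ V := by rw [hV]; exact measureReal_nonneg
  rcases hV0.eq_or_lt with h0 | h0
  · have hμ : μ = 0 := by
      have : μ.real Set.univ = 0 := by rw [← hV, ← h0]
      rw [measureReal_eq_zero_iff (measure_ne_top μ _)] at this
      exact Measure.measure_univ_eq_zero.1 this
    rw [hμ]
    simp
  · have h2 : 0 ≤ ∫ x, (‖f x‖ - m / V) ^ 2 ∂μ := integral_nonneg fun x => sq_nonneg _
    have h3 : ∫ x, (‖f x‖ - m / V) ^ 2 ∂μ =
        (∫ x, ‖f x‖ ^ 2 ∂μ) - 2 * (m / V) * m + (m / V) ^ 2 * V := by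
      have e : ∀ x, (‖f x‖ - m / V) ^ 2 = (‖f x‖ ^ 2 - 2 * (m / V) * ‖f x‖) + (m / V) ^ 2 :=
        fun x => by ring
      have i1 : Integrable (fun x => ‖f x‖ ^ 2 - 2 * (m / V) * ‖f x‖) μ :=
        hf2.sub (hf.norm.const_mul _)
      rw [integral_congr_ae (Filter.Eventually.of_forall e), integral_add i1 (integrable_const _),
        integral_sub hf2 (hf.norm.const_mul _), integral_const_mul, ← hm, integral_const, ← hV,
        smul_eq_mul]
      ring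
    rw [h3] at h2
    have h4 : m ^ 2 ≤ V * ∫ x, ‖f x‖ ^ 2 ∂μ := by
      have h5 : 0 ≤ V * ((∫ x, ‖f x‖ ^ 2 ∂μ) - 2 * (m / V) * m + (m / V) ^ 2 * V) :=
        mul_nonneg h0.le h2
      have h6 : V * ((∫ x, ‖f x‖ ^ 2 ∂μ) - 2 * (m / V) * m + (m / V) ^ 2 * V) =
          V * (∫ x, ‖f x‖ ^ 2 ∂μ) - m ^ 2 := by
        field_simp
        ring
      linarith
    rw [← hV]
    exact (pow_le_pow_left₀ (norm_nonneg _) h1 2).trans h4

/-- finite sums over the family -/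
theorem e4_ix {P : ℕ} {c1 c2 Q : ℝ} {F : Set (Mt n)}
    (s : ∀ q : {q // q ∈ Fam P c1 c2 Q}, Sys O F q.1) (F0 : Finset (Ix s)) (f : Ix s → ℝ)
    (hf : ∀ i, 0 ≤ f i) (hs : ∀ q, Summable fun j : (s q).ι => f (Sigma.mk q j)) :
    ∑ i ∈ F0, f i ≤ ∑ q, ∑' j : (s q).ι, f (Sigma.mk q j) := by
  have h1 : Summable (fun x : (Σ q : {q // q ∈ Fam P c1 c2 Q}, (s q).ι) => f x) := by
    rw [summable_sigma_of_nonneg (fun x => hf x)]
    exact ⟨hs, summable_of_hasFiniteSupport (Set.toFinite _)⟩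
  have h1' : Summable (fun x : Ix s => f x) := h1
  have h2 : ∑ i ∈ F0, f i ≤ ∑' x : Ix s, f x := h1'.sum_le_tsum F0 fun i _ => hf i
  refine h2.trans (le_of_eq ?_)
  exact (Summable.tsum_sigma' hs h1).trans (tsum_fintype _)

theorem e4_fam {P : ℕ} {c1 c2 Q : ℝ} (q : {q // q ∈ Fam P c1 c2 Q}) (hQ : 0 ≤ c2 * Q) :
    1 < q.1 ∧ (q.1 : ℝ) ≤ c2 * Q ∧ Squarefree q.1 ∧ ∀ p : ℕ, p.Prime → p ∣ q.1 → P < p := by
  classical
  have h1 := q.2
  unfold Fam at h1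
  rw [Finset.mem_filter, Finset.mem_Icc] at h1
  refine ⟨by omega, ?_, h1.2.2.1, h1.2.2.2⟩
  have h2 : (q.1 : ℝ) ≤ (⌊c2 * Q⌋₊ : ℝ) := by exact_mod_cast h1.1.2
  exact h2.trans (Nat.floor_le hQ)

theorem e4_qok {P : ℕ} {c1 c2 Q : ℝ} {F : Set (Mt n)} (hP : PG O P) (hQ : 0 ≤ c2 * Q)
    (s : ∀ q : {q // q ∈ Fam P c1 c2 Q}, Sys O F q.1) (q : {q // q ∈ Fam P c1 c2 Q}) :
    LAL.QOK O q.1 (s q).ρ := by
  obtain ⟨h1, -, h3, h4⟩ := e4_fam q hQ
  exact hP.ok q.1 h3 h1 h4 (s q).ρ (s q).red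

theorem e4_tst (hn : 2 ≤ n) {k : Mt n → ℂ} (hk : Sph2 k) {φ : ℝ → ℂ} {A : ℝ} (hφ : TF φ A) :
    Tst (Phi φ k) := by
  refine IF_TstPhi hn k hk φ hφ.smooth ?_
  refine HasCompactSupport.intro (isCompact_Icc (a := -A) (b := A)) fun v hv => ?_
  by_contra h
  exact hv (abs_le.1 (hφ.supp v h))

/-- the mean square of the densities -/
theorem e4_star (hn : 2 ≤ n) (hO : GLL.Ord O) {P : ℕ} (hP : PG O P) {k : Mt n → ℂ}
    (hk : Sph2 k) {c1 c2 : ℝ} (h1 : 0 < c1) (h2 : c1 < c2) {β : Mt n → ℝ} (hβ : Cut c1 c2 β)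
    {g : ℝ → ℝ} {ε : ℝ} (hg : CutG g ε) {φ : ℝ → ℂ} {A : ℝ} (hφ : TF φ A) {Q : ℝ} (hQ : 1 ≤ Q)
    {F : Set (Mt n)} (hF : IsFD O F) (s : ∀ q : {q // q ∈ Fam P c1 c2 Q}, Sys O F q.1)
    (F0 : Finset (Ix s)) {T : ℝ} (hT : 0 < T) {b : ℕ} (hb : 0 < b) (u : ℝ) :
    ∑ i ∈ F0, tw s i * ‖EG (Fe s i) b g T (Phi φ k) u‖ ^ 2 ≤
      Real.exp (((n : ℝ) - 1) * u) * (TOT F (primorial P) β Q (bF b (cT O g T b))
        (fun X => Phi φ k (Real.exp (u / n) • X))).re := by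
  have hQ0 : 0 ≤ c2 * Q := by nlinarith
  have hΦ := e4_tst hn hk hφ
  have hR : Rap (Phi φ k) := (Tst_rap hn hΦ).1
  obtain ⟨hHk, hAct⟩ := bF_ok hn hO hg hT hb
  obtain ⟨s0, hs0, hbd⟩ := bF_bd hn hO (O := O)
  have hle : ∀ A, |cT O g T b A| ≤ |(mob O b A : ℝ)| := (cT_facts hn hO hg hT hb).1.le
  have hstar := hP.star (primorial P) dvd_rfl c1 c2 h1 h2 β hβ.bt hβ.one F hF Q hQ s
    (bF b (cT O g T b)) s0 2 hHk (fun q => ?_) (fun I => hbd b hb _ hle I) (Phi φ k) hΦ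
    (Real.exp (u / n)) (Real.exp_pos _)
  swap
  · intro i
    have := (s q).ne
    exact hAct q.1 (s q).ρ (e4_qok hP hQ0 s q) ((s q).E i)
  obtain ⟨hsum, hle2⟩ := hstar
  have e : ∀ i : Ix s, ‖EG (Fe s i) b g T (Phi φ k) u‖ ^ 2 = Real.exp (((n : ℝ) - 1) * u) *
      ‖LAL.ch (Fe s i) (bF b (cT O g T b)) (fun X => Phi φ k (Real.exp (u / n) • X))‖ ^ 2 := by
    intro i
    rw [EG_ch hn hO (e4_qok hP hQ0 s i.1) (Fe s i) hg hT hb hR u, norm_mul, mul_pow,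
      Complex.norm_real, Real.norm_eq_abs, abs_of_pos (Real.exp_pos _), ← Real.exp_nat_mul]
    congr 2
    push_cast
    ring
  have e2 : ∑ i ∈ F0, tw s i * ‖EG (Fe s i) b g T (Phi φ k) u‖ ^ 2 =
      Real.exp (((n : ℝ) - 1) * u) * ∑ i ∈ F0, tw s i *
      ‖LAL.ch (Fe s i) (bF b (cT O g T b)) (fun X => Phi φ k (Real.exp (u / n) • X))‖ ^ 2 := by
    rw [Finset.mul_sum]
    refine Finset.sum_congr rfl fun i _ => ?_
    rw [e i]
    ring
  rw [e2]
  refine mul_le_mul_of_nonneg_left ?_ (Real.exp_pos _).le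
  refine (e4_ix s F0 (fun i => tw s i * ‖LAL.ch (Fe s i) (bF b (cT O g T b))
    (fun X => Phi φ k (Real.exp (u / n) • X))‖ ^ 2) (fun i => ?_) (fun q => ?_)).trans ?_
  · refine mul_nonneg ?_ (sq_nonneg _)
    unfold tw
    positivity
  · exact (hsum q).mul_left ((q.1.totient : ℝ)⁻¹)
  · refine le_trans (le_of_eq ?_) hle2
    refine Finset.sum_congr rfl fun q _ => ?_
    exact tsum_mul_left (a := (q.1.totient : ℝ)⁻¹)

/-- the error of the mollified function as an integral of the density -/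
theorem e4_rep (hn : 2 ≤ n) (hO : GLL.Ord O) {q : ℕ} [NeZero q] {ρ : O →+* Mq n q}
    (h : LAL.QOK O q ρ) (E : LAL.Eig ρ) {k : Mt n → ℂ} (hk : Sph2 k) {φ : ℝ → ℂ} {A : ℝ}
    (hφ : TF φ A) {Lf : ℂ → ℂ} (hL : LAL.IsLf E Lf) {g : ℝ → ℝ} {ε : ℝ} (hg : CutG g ε) {T : ℝ}
    (hT : 0 < T) {X : ℕ} (hX : Real.exp T ≤ X) (hAT : 2 * A < T / 2) (w : ℂ) :
    phh φ w * E.kh k * (Lf w * MG E (primorial X) g T w - 1) =
      ∫ u in Set.Iic (A - T / 2), EG E (primorial X) g T (Phi φ k) u * Complex.exp (w * u) := by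
  obtain ⟨h1, h2⟩ := EG_transform hn hO h E hk hφ hL hg hT (primorial_pos X) w
  have hc : HasCompactSupport φ :=
    HasCompactSupport.intro (isCompact_Icc (a := -A) (b := A)) fun v hv => by
      by_contra h
      exact hv (abs_le.1 (hφ.supp v h))
  have h3 : Integrable (fun v : ℝ => φ v * Complex.exp (w * v)) := by
    refine Continuous.integrable_of_hasCompactSupport ?_ hc.mul_right
    exact hφ.smooth.continuous.mul (by fun_prop)
  have h4 : phh φ w * E.kh k = ∫ v : ℝ, φ v * Complex.exp (w * v) * E.kh k := by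
    unfold phh
    rw [integral_mul_const]
  rw [mul_sub, mul_one, ← h2, h4, ← integral_sub h1 (h3.mul_const _),
    ← integral_indicator measurableSet_Iic]
  refine integral_congr_ae (Filter.Eventually.of_forall fun u => ?_)
  show EG E (primorial X) g T (Phi φ k) u * Complex.exp (w * u) -
    φ u * Complex.exp (w * u) * E.kh k = _
  obtain ⟨g1, -, -⟩ := EG_near hn hO h E hk hφ hg hT hX (u := u)
  by_cases hu : u ≤ A - T / 2
  · rw [Set.indicator_of_mem (Set.mem_Iic.2 hu)]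
    have h0 : φ u = 0 := by
      by_contra hne
      have := (abs_le.1 (hφ.supp u hne)).1
      linarith
    rw [h0, zero_mul, zero_mul, sub_zero]
  · rw [Set.indicator_of_notMem (by rwa [Set.mem_Iic]), g1 (not_le.1 hu)]
    ring

/-- the exponents in the far region -/
theorem e4_exp (hn : 2 ≤ n) {σ S L C u : ℝ} (h1 : (3 * (n : ℝ) + 4) / 8 ≤ σ) (h2 : σ ≤ S)
    (hL : 0 ≤ L) (hC : 0 ≤ C) (h3 : -(2 * L) ≤ u) (h4 : u + L ≤ C) :
    2 * σ * u + -(((n : ℝ) + 1) * u) ≤ ((n : ℝ) - 1) * L + 2 * |S| * C := by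
  have hn' : (2 : ℝ) ≤ n := by exact_mod_cast hn
  have hS : S ≤ |S| := le_abs_self S
  have hSC : 0 ≤ 2 * |S| * C := by positivity
  have hnL : 0 ≤ ((n : ℝ) - 1) * L := mul_nonneg (by linarith) hL
  have e : 2 * σ * u + -(((n : ℝ) + 1) * u) = (2 * σ - (n + 1)) * u := by ring
  rw [e]
  rcases le_total (2 * σ - (n + 1)) 0 with h | h
  · have h5 : (2 * σ - (n + 1)) * u ≤ (2 * σ - (n + 1)) * (-(2 * L)) :=
      mul_le_mul_of_nonpos_left h3 h
    have h6 : (2 * σ - (n + 1)) * (-(2 * L)) ≤ ((n : ℝ) - 1) * L := by nlinarith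
    linarith
  · have h5 : (2 * σ - (n + 1)) * u ≤ (2 * σ - (n + 1)) * (C - L) :=
      mul_le_mul_of_nonneg_left (by linarith) h
    have h6 : 0 ≤ (2 * σ - (n + 1)) * L := mul_nonneg h hL
    have h7 : (2 * σ - (n + 1)) * C ≤ 2 * |S| * C :=
      mul_le_mul_of_nonneg_right (by linarith) hC
    nlinarith

/-- the total error is small -/
theorem e4_small (η K1 K3 C : ℝ) : ∃ L₀ : ℝ, 1 ≤ L₀ ∧ ∀ L : ℝ, L₀ ≤ L →
    2 / η * Real.exp (-(2 * L)) + 8 * L ^ 2 * (K1 * Real.exp (-(7 / 10 * L)) +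
      K3 * (L ^ C * Real.exp (-L))) ≤ Real.exp (-(1 / 4 * L)) := by
  have t1 : Tendsto (fun L : ℝ => 2 / η * Real.exp (-(7 / 4) * L)) atTop (𝓝 0) := by
    have := (tendsto_rpow_mul_exp_neg_mul_atTop_nhds_zero 0 (7 / 4) (by norm_num)).const_mul (2 / η)
    rw [mul_zero] at this
    refine this.congr fun L => ?_
    rw [Real.rpow_zero, one_mul]
  have t2 : Tendsto (fun L : ℝ => 8 * K1 * (L ^ (2 : ℝ) * Real.exp (-(9 / 20) * L))) atTop
      (𝓝 0) := by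
    have := (tendsto_rpow_mul_exp_neg_mul_atTop_nhds_zero 2 (9 / 20) (by norm_num)).const_mul
      (8 * K1)
    rwa [mul_zero] at this
  have t3 : Tendsto (fun L : ℝ => 8 * K3 * (L ^ (2 + C) * Real.exp (-(3 / 4) * L))) atTop
      (𝓝 0) := by
    have := (tendsto_rpow_mul_exp_neg_mul_atTop_nhds_zero (2 + C) (3 / 4)
      (by norm_num)).const_mul (8 * K3)
    rwa [mul_zero] at this
  have t := (t1.add t2).add t3
  rw [add_zero, add_zero] at t
  have hev := (t.eventually (gt_mem_nhds one_pos)).and (eventually_ge_atTop (1 : ℝ))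
  obtain ⟨L₀, hL₀⟩ := eventually_atTop.1 hev
  refine ⟨max L₀ 1, le_max_right _ _, fun L hL => ?_⟩
  obtain ⟨h1, h2⟩ := hL₀ L ((le_max_left _ _).trans hL)
  have hL0 : 0 < L := by linarith
  have e1 : Real.exp (-(2 * L)) = Real.exp (-(7 / 4) * L) * Real.exp (-(1 / 4 * L)) := by
    rw [← Real.exp_add]
    congr 1
    ring
  have e2 : Real.exp (-(7 / 10 * L)) = Real.exp (-(9 / 20) * L) * Real.exp (-(1 / 4 * L)) := by
    rw [← Real.exp_add]
    congr 1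
    ring
  have e3 : Real.exp (-L) = Real.exp (-(3 / 4) * L) * Real.exp (-(1 / 4 * L)) := by
    rw [← Real.exp_add]
    congr 1
    ring
  have e4 : L ^ (2 + C) = L ^ 2 * L ^ C := by
    rw [Real.rpow_add hL0, ← Real.rpow_natCast]
    norm_num
  have e5 : L ^ (2 : ℝ) = L ^ 2 := by
    rw [← Real.rpow_natCast]
    norm_num
  rw [e4, e5] at h1
  have e6 : 2 / η * Real.exp (-(2 * L)) + 8 * L ^ 2 * (K1 * Real.exp (-(7 / 10 * L)) +
      K3 * (L ^ C * Real.exp (-L))) =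
      (2 / η * Real.exp (-(7 / 4) * L) + 8 * K1 * (L ^ 2 * Real.exp (-(9 / 20) * L)) +
        8 * K3 * (L ^ 2 * L ^ C * Real.exp (-(3 / 4) * L))) * Real.exp (-(1 / 4 * L)) := by
    rw [e1, e2, e3]
    ring
  rw [e6]
  exact mul_le_of_le_one_left (Real.exp_pos _).le h1.le

/-- one form: the error of the mollified function -/
theorem e4_one (hn : 2 ≤ n) (hO : GLL.Ord O) {q : ℕ} [NeZero q] {ρ : O →+* Mq n q}
    (h : LAL.QOK O q ρ) (E : LAL.Eig ρ) {k : Mt n → ℂ} (hk : Sph2 k) {φ : ℝ → ℂ} {A : ℝ}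
    (hφ : TF φ A) {Lf : ℂ → ℂ} (hL : LAL.IsLf E Lf) {g : ℝ → ℝ} {ε : ℝ} (hg : CutG g ε) {T : ℝ}
    (hT : 0 < T) {X : ℕ} (hX : Real.exp T ≤ X) (hAT : 2 * A < T / 2) {w : ℂ}
    (hw : 1 ≤ ‖phh φ w‖) {L δ : ℝ} (hδ : 0 ≤ δ) (hL2 : -(2 * L) ≤ A - T / 2) (hA : A ≤ T / 2)
    (hfi : IntegrableOn (fun u : ℝ => ‖EG E (primorial X) g T (Phi φ k) u *
      Complex.exp (w * u)‖) (Set.Iic (-(2 * L))))
    (hfar : ∫ u in Set.Iic (-(2 * L)), ‖EG E (primorial X) g T (Phi φ k) u *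
      Complex.exp (w * u)‖ ≤ δ) :
    IntegrableOn (fun u : ℝ => ‖EG E (primorial X) g T (Phi φ k) u‖ ^ 2 *
      Real.exp (2 * w.re * u)) (Set.Ioc (-(2 * L)) (A - T / 2)) ∧
    wE E k * ‖Lf w * MG E (primorial X) g T w - 1‖ ^ 2 ≤ 2 * δ ^ 2 + 4 * L *
      ∫ u in Set.Ioc (-(2 * L)) (A - T / 2), ‖EG E (primorial X) g T (Phi φ k) u‖ ^ 2 *
        Real.exp (2 * w.re * u) := by
  obtain ⟨f, hf⟩ : ∃ f : ℝ → ℂ, f = fun u : ℝ => EG E (primorial X) g T (Phi φ k) u *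
    Complex.exp (w * u) := ⟨_, rfl⟩
  have hcE : Continuous (EG E (primorial X) g T (Phi φ k)) :=
    (EG_near hn hO h E hk hφ hg hT hX (u := 0)).2.2
  have hcf : Continuous f := by
    rw [hf]
    exact hcE.mul (by fun_prop)
  have hint : Integrable f := by
    rw [hf]
    exact (EG_transform hn hO h E hk hφ hL hg hT (primorial_pos X) w).1
  have hnf : ∀ u, ‖f u‖ ^ 2 = ‖EG E (primorial X) g T (Phi φ k) u‖ ^ 2 *
      Real.exp (2 * w.re * u) := by
    intro u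
    rw [hf]
    show ‖EG E (primorial X) g T (Phi φ k) u * Complex.exp (w * u)‖ ^ 2 = _
    rw [norm_mul, mul_pow, Complex.norm_exp, ← Real.exp_nat_mul]
    congr 2
    simp
    ring
  have hi2 : IntegrableOn (fun u => ‖f u‖ ^ 2) (Set.Ioc (-(2 * L)) (A - T / 2)) :=
    ((hcf.norm.pow 2).integrableOn_Icc).mono_set Set.Ioc_subset_Icc_self
  have hrep := e4_rep hn hO h E hk hφ hL hg hT hX hAT w
  have hsplit : ∫ u in Set.Iic (A - T / 2), f u =
      (∫ u in Set.Iic (-(2 * L)), f u) + ∫ u in Set.Ioc (-(2 * L)) (A - T / 2), f u := by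
    rw [← setIntegral_union (Set.Iic_disjoint_Ioc le_rfl) measurableSet_Ioc hint.integrableOn
      hint.integrableOn, Set.Iic_union_Ioc_eq_Iic hL2]
  have hmid : ‖∫ u in Set.Ioc (-(2 * L)) (A - T / 2), f u‖ ^ 2 ≤
      2 * L * ∫ u in Set.Ioc (-(2 * L)) (A - T / 2), ‖f u‖ ^ 2 := by
    refine (e4_cs hint.integrableOn hi2).trans ?_
    refine mul_le_mul_of_nonneg_right ?_ (integral_nonneg fun u => sq_nonneg _)
    rw [measureReal_restrict_apply_univ, Real.volume_real_Ioc_of_le hL2]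
    linarith
  have hf1 : ‖∫ u in Set.Iic (-(2 * L)), f u‖ ≤ δ := by
    refine (norm_integral_le_integral_norm _).trans ?_
    rw [hf]
    exact hfar
  have hmain : wE E k * ‖Lf w * MG E (primorial X) g T w - 1‖ ^ 2 ≤
      ‖∫ u in Set.Iic (A - T / 2), f u‖ ^ 2 := by
    rw [hf]
    show _ ≤ ‖∫ u in Set.Iic (A - T / 2), EG E (primorial X) g T (Phi φ k) u *
      Complex.exp (w * u)‖ ^ 2
    rw [← hrep, norm_mul, norm_mul, mul_pow, mul_pow]
    refine mul_le_mul_of_nonneg_right ?_ (sq_nonneg _)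
    unfold LAL.wE
    exact le_mul_of_one_le_left (sq_nonneg _) (one_le_pow₀ hw)
  refine ⟨?_, hmain.trans ?_⟩
  · refine hi2.congr_fun (fun u _ => hnf u) measurableSet_Ioc
  · rw [hsplit]
    have h5 : ‖(∫ u in Set.Iic (-(2 * L)), f u) + ∫ u in Set.Ioc (-(2 * L)) (A - T / 2), f u‖ ^ 2 ≤
        2 * ‖∫ u in Set.Iic (-(2 * L)), f u‖ ^ 2 +
          2 * ‖∫ u in Set.Ioc (-(2 * L)) (A - T / 2), f u‖ ^ 2 := by
      have h6 := norm_add_le (∫ u in Set.Iic (-(2 * L)), f u)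
        (∫ u in Set.Ioc (-(2 * L)) (A - T / 2), f u)
      have h7 := pow_le_pow_left₀ (norm_nonneg _) h6 2
      nlinarith [sq_nonneg (‖∫ u in Set.Iic (-(2 * L)), f u‖ -
        ‖∫ u in Set.Ioc (-(2 * L)) (A - T / 2), f u‖)]
    refine h5.trans ?_
    have h8 : ‖∫ u in Set.Iic (-(2 * L)), f u‖ ^ 2 ≤ δ ^ 2 :=
      pow_le_pow_left₀ (norm_nonneg _) hf1 2
    have h9 : ∫ u in Set.Ioc (-(2 * L)) (A - T / 2), ‖f u‖ ^ 2 =
        ∫ u in Set.Ioc (-(2 * L)) (A - T / 2), ‖EG E (primorial X) g T (Phi φ k) u‖ ^ 2 *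
          Real.exp (2 * w.re * u) := by
      refine setIntegral_congr_fun measurableSet_Ioc fun u _ => hnf u
    rw [← h9]
    nlinarith

/-- the total weight is at least a constant times `Q^n`, and `Del ≤ 2 Dm` -/
theorem e4_mass (hn : 2 ≤ n) (hO : GLL.Ord O) {P : ℕ} {k : Mt n → ℂ} (hk : Sph2 k) {c1 c2 : ℝ}
    {β : Mt n → ℝ} (hβ : Cut c1 c2 β) : ∃ Cm Q0 : ℝ, 0 ≤ Cm ∧ 1 ≤ Q0 ∧ ∀ Q : ℝ, Q0 ≤ Q →
      ∀ F, IsFD O F → 0 ≤ Dm O F (primorial P) β Q ∧ 0 < vol F ∧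
        Del O (primorial P) β Q ≤ 2 * Dm O F (primorial P) β Q ∧
        Q ^ n ≤ Cm * (vol F * Dm O F (primorial P) β Q * k2 k) := by
  obtain ⟨F₀, R, hF₀⟩ := exFG hn hO
  obtain ⟨C, hC0, hC⟩ := IF_Del hn hO hβ.bt (primorial P) (primorial_pos P) 0
  have hv := IF_vol hn hO F₀ hF₀.toIsFD
  have hr := (IF_rho hn hO (primorial P) (primorial_pos P)).1
  have hcov := GLL.T.covO_pos_pr hO
  have hk2 := IF_k2 hn k hk
  have hβp := hβ.pos
  obtain ⟨d, hd⟩ : ∃ d : ℝ, d = rho O (primorial P) * vol F₀ * (∫ H : Mt n, β H) / covO O :=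
    ⟨_, rfl⟩
  have hd0 : 0 < d := by
    rw [hd]
    positivity
  refine ⟨1 / (vol F₀ * d * k2 k), max 1 (C / d), by positivity, le_max_left _ _,
    fun Q hQ F hF => ?_⟩
  have hQ1 : 1 ≤ Q := (le_max_left _ _).trans hQ
  have hQ2 : C / d ≤ Q := (le_max_right _ _).trans hQ
  have hvF : vol F = vol F₀ := GLL.T.tn_vol_eq hn hO hF hF₀.toIsFD
  have hDm : Dm O F (primorial P) β Q = d * Q ^ n := by
    unfold Dm
    rw [hvF, hd]
    ring
  have hQn : Q ≤ Q ^ n := le_self_pow₀ hQ1 (by omega)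
  have h1 := (hC F hF Q hQ1).2
  rw [Nat.cast_zero, zero_mul, neg_zero, Real.exp_zero, mul_one] at h1
  rw [hDm] at h1 ⊢
  have h2 : C ≤ d * Q ^ n := by
    rw [div_le_iff₀ hd0] at hQ2
    nlinarith
  have hQn0 : 0 < Q ^ n := by positivity
  refine ⟨by positivity, by rw [hvF]; exact hv, ?_, ?_⟩
  · have := (abs_le.1 h1).2
    linarith
  · rw [hvF]
    refine le_of_eq ?_
    field_simp

theorem ms_far_pr (hn : 2 ≤ n) (hO : GLL.Ord O) (T S₀ : ℝ) : ∃ c' : ℝ, 0 < c' ∧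
    ∀ P : ℕ, PG O P → ∀ k : Mt n → ℂ, Sph2 k → ∀ c1 c2 : ℝ, 0 < c1 → c1 < c2 →
    ∀ β : Mt n → ℝ, Cut c1 c2 β → ∀ (g : ℝ → ℝ) (ε : ℝ), CutG g ε → 0 ≤ ε → ε ≤ 1 →
    ∀ η₁ : ℝ, 0 < η₁ → ∃ Q0 : ℝ, 1 ≤ Q0 ∧ ∀ Q : ℝ, Q0 ≤ Q → ∀ F, IsFD O F →
    ∀ s : ∀ q : {q // q ∈ Fam P c1 c2 Q}, Sys O F q.1, ∀ F0 : Finset (Ix s),
    (∀ i ∈ F0, η₁ ≤ wE (Fe s i) k) → ∀ Lf : Ix s → ℂ → ℂ, (∀ i ∈ F0, LAL.IsLf (Fe s i) (Lf i)) →
    vol F * Dm O F (primorial P) β Q * k2 k ≤ 2 * ∑ i ∈ F0, wt s k i →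
    ∀ w : ℂ, (3 * (n : ℝ) + 4) / 8 ≤ w.re → w.re ≤ S₀ → |w.im| ≤ T →
      ∑ i ∈ F0, wt s k i * ‖Fm s g (99 / 100) Lf i w - 1‖ ^ 2 ≤
        Q ^ (-c') * ∑ i ∈ F0, wt s k i := by
  obtain ⟨φ, hφ1, hφ2, hφ3⟩ := GLL.IF_bump (|S₀| + |T|)
  obtain ⟨A, hA0, hA⟩ := GLL.T.td_bound hφ2
  have hφ : TF φ A := ⟨hφ1, hA⟩
  have hθ : (0 : ℝ) < 99 / 100 := by norm_num
  have hθ1 : (99 / 100 : ℝ) < 1 := by norm_num
  obtain ⟨CD, hCD0, hCD⟩ := Dg_one hn hO hθ hθ1 hφ
  have hn' : (2 : ℝ) ≤ n := by exact_mod_cast hn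
  refine ⟨1 / 4, by norm_num, fun P hP k hk c1 c2 hc1 hc12 β hβ g ε hg hε0 hε1 η₁ hη => ?_⟩
  obtain ⟨CT, QT, hCT0, hQT1, hCT⟩ := TOT_crude hn hO hθ.le hθ1 hk hφ hβ.bt (primorial P)
    (primorial_pos P)
  obtain ⟨QF, hQF1, hQF⟩ := EG_far hn hO hk hφ hθ hθ1 c2 |S₀| 1
  obtain ⟨Cm, Qm, hCm0, hQm1, hCm⟩ := e4_mass hn hO (P := P) hk hβ
  obtain ⟨LD, hLD⟩ := hCD g ε hg hε0 hε1
  obtain ⟨Ls, hLs1, hLs⟩ := e4_small η₁ (4 * CD * Real.exp (2 * |S₀| * A))
    (2 * Cm * CT * Real.exp (2 * |S₀| * CT)) CT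
  obtain ⟨Lq, hLq⟩ : ∃ Lq : ℝ, ∀ Q : ℝ, Lq ≤ Q → Q ^ (99 / 100 : ℝ) + 1 ≤ Q := by
    have h1 : Tendsto (fun Q : ℝ => Q ^ (-(1 / 100) : ℝ)) atTop (𝓝 0) :=
      tendsto_rpow_neg_atTop (by norm_num)
    have h2 := (h1.eventually (gt_mem_nhds (show (0 : ℝ) < 1 / 2 by norm_num))).and
      (eventually_ge_atTop (2 : ℝ))
    obtain ⟨a, ha⟩ := eventually_atTop.1 h2
    refine ⟨a, fun Q hQ => ?_⟩
    obtain ⟨h3, h4⟩ := ha Q hQ
    have h5 : Q ^ (99 / 100 : ℝ) = Q * Q ^ (-(1 / 100) : ℝ) := by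
      rw [← Real.rpow_one_add' (by linarith) (by norm_num)]
      norm_num
    rw [h5]
    nlinarith
  obtain ⟨Q0, hQ0def⟩ : ∃ Q0 : ℝ, Q0 = max (max (max QT QF) (max Qm (Real.exp LD)))
    (max (max (Real.exp Ls) Lq) (max ((P : ℝ) + 1) (Real.exp (8 * A + 8)))) := ⟨_, rfl⟩
  refine ⟨Q0, ?_, fun Q hQ F hF s F0 hF0 Lf hLf hW w hw1 hw2 hw3 => ?_⟩
  · rw [hQ0def]
    exact hQT1.trans ((le_max_left _ _).trans ((le_max_left _ _).trans (le_max_left _ _)))
  have q1 : QT ≤ Q := by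
    refine le_trans ?_ hQ
    rw [hQ0def]
    exact (le_max_left _ _).trans ((le_max_left _ _).trans (le_max_left _ _))
  have q2 : QF ≤ Q := by
    refine le_trans ?_ hQ
    rw [hQ0def]
    exact (le_max_right _ _).trans ((le_max_left _ _).trans (le_max_left _ _))
  have q3 : Qm ≤ Q := by
    refine le_trans ?_ hQ
    rw [hQ0def]
    exact (le_max_left _ _).trans ((le_max_right _ _).trans (le_max_left _ _))
  have q4 : Real.exp LD ≤ Q := by
    refine le_trans ?_ hQ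
    rw [hQ0def]
    exact (le_max_right _ _).trans ((le_max_right _ _).trans (le_max_left _ _))
  have q5 : Real.exp Ls ≤ Q := by
    refine le_trans ?_ hQ
    rw [hQ0def]
    exact (le_max_left _ _).trans ((le_max_left _ _).trans (le_max_right _ _))
  have q6 : Lq ≤ Q := by
    refine le_trans ?_ hQ
    rw [hQ0def]
    exact (le_max_right _ _).trans ((le_max_left _ _).trans (le_max_right _ _))
  have q7 : (P : ℝ) + 1 ≤ Q := by
    refine le_trans ?_ hQ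
    rw [hQ0def]
    exact (le_max_left _ _).trans ((le_max_right _ _).trans (le_max_right _ _))
  have q8 : Real.exp (8 * A + 8) ≤ Q := by
    refine le_trans ?_ hQ
    rw [hQ0def]
    exact (le_max_right _ _).trans ((le_max_right _ _).trans (le_max_right _ _))
  have hQ1 : 1 ≤ Q := hQT1.trans q1
  have hQp : 0 < Q := by linarith
  obtain ⟨L, hLdef⟩ : ∃ L : ℝ, L = Real.log Q := ⟨_, rfl⟩
  have hQL : Real.exp L = Q := by rw [hLdef, Real.exp_log hQp]
  have l4 : LD ≤ L := by rw [hLdef, Real.le_log_iff_exp_le hQp]; exact q4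
  have l5 : Ls ≤ L := by rw [hLdef, Real.le_log_iff_exp_le hQp]; exact q5
  have l8 : 8 * A + 8 ≤ L := by rw [hLdef, Real.le_log_iff_exp_le hQp]; exact q8
  have hL0 : 0 < L := by linarith
  -- the mollifier
  obtain ⟨X, hXdef⟩ : ∃ X : ℕ, X = ⌊Q⌋₊ := ⟨_, rfl⟩
  obtain ⟨U, hU⟩ : ∃ U : ℝ, U = 99 / 100 * L := ⟨_, rfl⟩
  have hU0 : 0 < U := by rw [hU]; positivity
  have hUQ : Real.exp U = Q ^ (99 / 100 : ℝ) := by
    rw [Real.rpow_def_of_pos hQp, hU, hLdef, mul_comm]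
  have hX : Real.exp U ≤ X := by
    have h1 := hLq Q q6
    have h2 := Nat.lt_floor_add_one Q
    rw [hUQ, hXdef]
    linarith
  have hPX : P ≤ X := by
    have h1 : P ≤ ⌊Q⌋₊ := by
      apply Nat.le_floor
      linarith
    rw [hXdef]
    exact h1
  obtain ⟨hb1, hb2, hb3, -, hb5⟩ := primorial_bX P X hPX
  obtain ⟨hm1, hm2, hm3, hm4⟩ := hCm Q q3 F hF
  have hk2 := IF_k2 hn k hk
  obtain ⟨W, hWdef⟩ : ∃ W : ℝ, W = ∑ i ∈ F0, wt s k i := ⟨_, rfl⟩
  rw [← hWdef] at hW ⊢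
  have htw : ∀ i : Ix s, 0 ≤ tw s i := fun i => by
    unfold tw
    positivity
  have hwt : ∀ i ∈ F0, η₁ * tw s i ≤ wt s k i := by
    intro i hi
    unfold wt
    rw [mul_comm]
    exact mul_le_mul_of_nonneg_left (hF0 i hi) (htw i)
  have hsumtw : ∑ i ∈ F0, tw s i ≤ W / η₁ := by
    rw [le_div_iff₀ hη, hWdef, Finset.sum_mul]
    refine Finset.sum_le_sum fun i hi => ?_
    rw [mul_comm]
    exact hwt i hi
  have hW0 : 0 ≤ W := by
    have : 0 ≤ vol F * Dm O F (primorial P) β Q * k2 k := by positivity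
    linarith
  have hnw : ‖w‖ ≤ |S₀| + |T| := by
    have h1 := Complex.norm_le_abs_re_add_abs_im w
    have h2 : |w.re| ≤ |S₀| := by
      rw [abs_of_nonneg (by linarith : 0 ≤ w.re)]
      exact hw2.trans (le_abs_self _)
    have h3 : |w.im| ≤ |T| := hw3.trans (le_abs_self _)
    linarith
  have hphh : 1 ≤ ‖phh φ w‖ := hφ3 w hnw
  have hre : |w.re| ≤ |S₀| := by
    rw [abs_of_nonneg (by linarith : 0 ≤ w.re)]
    exact hw2.trans (le_abs_self _)
  have hre2 : w.re ≤ |S₀| := (le_abs_self _).trans hre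
  -- the bound for one form
  have hc2Q : 0 ≤ c2 * Q := by
    have : 0 < c2 := hc1.trans hc12
    positivity
  have hone : ∀ i ∈ F0, IntegrableOn (fun u : ℝ => ‖EG (Fe s i) (primorial X) g U
        (Phi φ k) u‖ ^ 2 * Real.exp (2 * w.re * u)) (Set.Ioc (-(2 * L)) (A - U / 2)) ∧
      wt s k i * ‖Fm s g (99 / 100) Lf i w - 1‖ ^ 2 ≤ tw s i * (2 * (Q⁻¹) ^ 2) + 4 * L *
        ∫ u in Set.Ioc (-(2 * L)) (A - U / 2), tw s i * (‖EG (Fe s i) (primorial X) g U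
          (Phi φ k) u‖ ^ 2 * Real.exp (2 * w.re * u)) := by
    intro i hi
    have hqok := e4_qok hP hc2Q s i.1
    obtain ⟨hf1, hf2⟩ := hQF Q q2 i.1.1 (s i.1).ρ hqok (e4_fam i.1 hc2Q).2.1 (Fe s i) g ε hg
      (primorial X) (primorial_pos X) w hre
    rw [← hLdef, ← hU] at hf1 hf2
    rw [pow_one] at hf2
    obtain ⟨h1, h2⟩ := e4_one hn hO hqok (Fe s i) hk hφ (hLf i hi) hg hU0 hX
      (by rw [hU]; linarith) hphh (L := L) (δ := Q⁻¹) (by positivity) (by rw [hU]; linarith)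
      (by rw [hU]; linarith) hf1 hf2
    refine ⟨h1, ?_⟩
    have h3 := mul_le_mul_of_nonneg_left h2 (htw i)
    have h4 : wt s k i * ‖Fm s g (99 / 100) Lf i w - 1‖ ^ 2 =
        tw s i * (wE (Fe s i) k * ‖Lf i w * MG (Fe s i) (primorial X) g U w - 1‖ ^ 2) := by
      unfold wt Fm
      rw [hXdef, hU, hLdef]
      ring
    rw [h4, integral_const_mul]
    refine h3.trans (le_of_eq ?_)
    ring
  -- the pointwise bound
  obtain ⟨M, hM⟩ : ∃ M : ℝ, M = (4 * CD * Real.exp (2 * |S₀| * A)) * Real.exp (-(7 / 10 * L)) +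
      (2 * Cm * CT * Real.exp (2 * |S₀| * CT)) * (L ^ CT * Real.exp (-L)) := ⟨_, rfl⟩
  have hpt : ∀ u ∈ Set.Ioc (-(2 * L)) (A - U / 2), ∑ i ∈ F0, tw s i *
      (‖EG (Fe s i) (primorial X) g U (Phi φ k) u‖ ^ 2 * Real.exp (2 * w.re * u)) ≤ M * W := by
    intro u hu
    obtain ⟨hu1, hu2⟩ := hu
    have h1 := e4_star hn hO hP hk hc1 hc12 hβ hg hφ hQ1 hF s F0 hU0 (primorial_pos X) u
    have hCO := (cT_facts hn hO hg hU0 (primorial_pos X)).1
    rw [hUQ] at hCO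
    have h2 := hCT F hF Q q1 (bX (primorial P) X) (by rw [← hXdef]; exact hb3) hb2
      (cT O g U (primorial X)) (by rw [← hb1]; exact hCO) u (by rw [← hLdef]; exact hu1.le)
    rw [← hb1, ← hLdef] at h2
    have h3 := hLD L l4 u hu1.le
    rw [hQL, ← hXdef, ← hU] at h3
    have h4 : ∑ i ∈ F0, tw s i * (‖EG (Fe s i) (primorial X) g U (Phi φ k) u‖ ^ 2 *
        Real.exp (2 * w.re * u)) = Real.exp (2 * w.re * u) * ∑ i ∈ F0, tw s i *
          ‖EG (Fe s i) (primorial X) g U (Phi φ k) u‖ ^ 2 := by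
      rw [Finset.mul_sum]
      refine Finset.sum_congr rfl fun i _ => by ring
    rw [h4]
    have h5 := h1.trans h2
    -- the diagonal
    have h6 : vol F * Del O (primorial P) β Q * (k2 k * ∑' I : Idl O,
        ‖bF (primorial X) (cT O g U (primorial X)) I‖ ^ 2 * ((N I : ℝ) ^ (n - 1))⁻¹ *
          ‖φ (u + Real.log (N I))‖ ^ 2) ≤ 4 * W * (CD * Real.exp (-u)) := by
      have a1 : vol F * Del O (primorial P) β Q * k2 k ≤ 4 * W := by
        have : vol F * Del O (primorial P) β Q * k2 k ≤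
            vol F * (2 * Dm O F (primorial P) β Q) * k2 k := by
          gcongr
        linarith
      have a2 : 0 ≤ ∑' I : Idl O, ‖bF (primorial X) (cT O g U (primorial X)) I‖ ^ 2 *
          ((N I : ℝ) ^ (n - 1))⁻¹ * ‖φ (u + Real.log (N I))‖ ^ 2 :=
        tsum_nonneg fun I => by positivity
      calc _ = (vol F * Del O (primorial P) β Q * k2 k) * ∑' I : Idl O,
            ‖bF (primorial X) (cT O g U (primorial X)) I‖ ^ 2 * ((N I : ℝ) ^ (n - 1))⁻¹ *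
              ‖φ (u + Real.log (N I))‖ ^ 2 := by ring
        _ ≤ (4 * W) * ∑' I : Idl O,
            ‖bF (primorial X) (cT O g U (primorial X)) I‖ ^ 2 * ((N I : ℝ) ^ (n - 1))⁻¹ *
              ‖φ (u + Real.log (N I))‖ ^ 2 := mul_le_mul_of_nonneg_right a1 a2
        _ ≤ (4 * W) * (CD * Real.exp (-u)) := mul_le_mul_of_nonneg_left h3 (by linarith)
    have h7 : Real.exp (2 * w.re * u) * (4 * W * (CD * Real.exp (-u))) ≤
        (4 * CD * Real.exp (2 * |S₀| * A)) * Real.exp (-(7 / 10 * L)) * W := by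
      have b1 : Real.exp (2 * w.re * u) * Real.exp (-u) ≤
          Real.exp (2 * |S₀| * A) * Real.exp (-(7 / 10 * L)) := by
        rw [← Real.exp_add, ← Real.exp_add]
        refine Real.exp_le_exp.2 ?_
        have b2 : (2 * w.re - 1) * u ≤ (2 * w.re - 1) * (A - U / 2) :=
          mul_le_mul_of_nonneg_left hu2 (by linarith)
        have b3 : (2 * w.re - 1) * A ≤ 2 * |S₀| * A :=
          mul_le_mul_of_nonneg_right (by linarith) hA0
        have b4 : 3 / 2 * (U / 2) ≤ (2 * w.re - 1) * (U / 2) :=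
          mul_le_mul_of_nonneg_right (by linarith) (by positivity)
        rw [hU] at b2 b4
        nlinarith
      calc Real.exp (2 * w.re * u) * (4 * W * (CD * Real.exp (-u))) =
            4 * W * CD * (Real.exp (2 * w.re * u) * Real.exp (-u)) := by ring
        _ ≤ 4 * W * CD * (Real.exp (2 * |S₀| * A) * Real.exp (-(7 / 10 * L))) :=
            mul_le_mul_of_nonneg_left b1 (by positivity)
        _ = _ := by ring
    -- the remaining part
    have h8 : Real.exp (2 * w.re * u) * (open scoped Classical in if u + L ≤ CT then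
        CT * L ^ CT * Real.exp (-(((n : ℝ) + 1) * u)) else 0) ≤
        (2 * Cm * CT * Real.exp (2 * |S₀| * CT)) * (L ^ CT * Real.exp (-L)) * W := by
      have hLC : 0 ≤ L ^ CT := Real.rpow_nonneg hL0.le _
      split_ifs with hc
      · have b1 : Real.exp (2 * w.re * u) * Real.exp (-(((n : ℝ) + 1) * u)) ≤
            Real.exp (2 * |S₀| * CT) * (Real.exp (-L) * (2 * Cm * W)) := by
          have b2 := e4_exp hn hw1 hw2 hL0.le hCT0 hu1.le hc
          have b3 : Real.exp (((n : ℝ) - 1) * L) ≤ Real.exp (-L) * (2 * Cm * W) := by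
            have b4 : Real.exp (((n : ℝ) - 1) * L) = Real.exp (-L) * Q ^ n := by
              rw [← hQL, ← Real.exp_nat_mul, ← Real.exp_add]
              congr 1
              ring
            rw [b4]
            refine mul_le_mul_of_nonneg_left ?_ (Real.exp_pos _).le
            refine hm4.trans ?_
            nlinarith
          calc Real.exp (2 * w.re * u) * Real.exp (-(((n : ℝ) + 1) * u)) =
                Real.exp (2 * w.re * u + -(((n : ℝ) + 1) * u)) := (Real.exp_add _ _).symm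
            _ ≤ Real.exp (((n : ℝ) - 1) * L + 2 * |S₀| * CT) := Real.exp_le_exp.2 b2
            _ = Real.exp (2 * |S₀| * CT) * Real.exp (((n : ℝ) - 1) * L) := by
                rw [Real.exp_add]; ring
            _ ≤ _ := mul_le_mul_of_nonneg_left b3 (Real.exp_pos _).le
        calc Real.exp (2 * w.re * u) * (CT * L ^ CT * Real.exp (-(((n : ℝ) + 1) * u))) =
              CT * L ^ CT * (Real.exp (2 * w.re * u) * Real.exp (-(((n : ℝ) + 1) * u))) := by ring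
          _ ≤ CT * L ^ CT * (Real.exp (2 * |S₀| * CT) * (Real.exp (-L) * (2 * Cm * W))) :=
              mul_le_mul_of_nonneg_left b1 (by positivity)
          _ = _ := by ring
      · rw [mul_zero]
        positivity
    calc Real.exp (2 * w.re * u) * ∑ i ∈ F0, tw s i *
          ‖EG (Fe s i) (primorial X) g U (Phi φ k) u‖ ^ 2 ≤
          Real.exp (2 * w.re * u) * (4 * W * (CD * Real.exp (-u)) +
            (open scoped Classical in if u + L ≤ CT then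
              CT * L ^ CT * Real.exp (-(((n : ℝ) + 1) * u)) else 0)) := by
          refine mul_le_mul_of_nonneg_left (h5.trans ?_) (Real.exp_pos _).le
          gcongr
      _ = Real.exp (2 * w.re * u) * (4 * W * (CD * Real.exp (-u))) +
          Real.exp (2 * w.re * u) * (open scoped Classical in if u + L ≤ CT then
            CT * L ^ CT * Real.exp (-(((n : ℝ) + 1) * u)) else 0) := mul_add _ _ _
      _ ≤ M * W := by
          rw [hM]
          refine (add_le_add h7 h8).trans (le_of_eq ?_)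
          ring
  -- the integral
  have hMW : 0 ≤ M * W := by
    rw [hM]
    have : 0 ≤ L ^ CT := Real.rpow_nonneg hL0.le _
    positivity
  have hIoc : -(2 * L) ≤ A - U / 2 := by rw [hU]; linarith
  have hI : ∑ i ∈ F0, ∫ u in Set.Ioc (-(2 * L)) (A - U / 2), tw s i *
      (‖EG (Fe s i) (primorial X) g U (Phi φ k) u‖ ^ 2 * Real.exp (2 * w.re * u)) ≤
      2 * L * (M * W) := by
    rw [← integral_finsetSum _ fun i hi => ((hone i hi).1.const_mul _)]
    have h1 : ∫ u in Set.Ioc (-(2 * L)) (A - U / 2), ∑ i ∈ F0, tw s i *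
        (‖EG (Fe s i) (primorial X) g U (Phi φ k) u‖ ^ 2 * Real.exp (2 * w.re * u)) ≤
        ∫ u in Set.Ioc (-(2 * L)) (A - U / 2), M * W := by
      refine setIntegral_mono_on (integrable_finsetSum _ fun i hi =>
        ((hone i hi).1.const_mul _)) ?_ measurableSet_Ioc hpt
      exact integrableOn_const (by simp)
    refine h1.trans ?_
    rw [setIntegral_const, Real.volume_real_Ioc_of_le hIoc, smul_eq_mul]
    refine mul_le_mul_of_nonneg_right ?_ hMW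
    rw [hU]
    linarith
  -- the end
  have hfin := hLs L l5
  calc ∑ i ∈ F0, wt s k i * ‖Fm s g (99 / 100) Lf i w - 1‖ ^ 2 ≤
        ∑ i ∈ F0, (tw s i * (2 * (Q⁻¹) ^ 2) + 4 * L *
          ∫ u in Set.Ioc (-(2 * L)) (A - U / 2), tw s i * (‖EG (Fe s i) (primorial X) g U
            (Phi φ k) u‖ ^ 2 * Real.exp (2 * w.re * u))) :=
        Finset.sum_le_sum fun i hi => (hone i hi).2
    _ = (∑ i ∈ F0, tw s i) * (2 * (Q⁻¹) ^ 2) + 4 * L * ∑ i ∈ F0,
          ∫ u in Set.Ioc (-(2 * L)) (A - U / 2), tw s i * (‖EG (Fe s i) (primorial X) g U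
            (Phi φ k) u‖ ^ 2 * Real.exp (2 * w.re * u)) := by
        rw [Finset.sum_add_distrib, Finset.sum_mul, Finset.mul_sum]
    _ ≤ (W / η₁) * (2 * (Q⁻¹) ^ 2) + 4 * L * (2 * L * (M * W)) := by
        gcongr
    _ = (2 / η₁ * Real.exp (-(2 * L)) + 8 * L ^ 2 * M) * W := by
        have e1 : Real.exp (-(2 * L)) = (Q⁻¹) ^ 2 := by
          rw [← hQL, ← Real.exp_neg, ← Real.exp_nat_mul]
          congr 1
          push_cast
          ring
        rw [e1]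
        ring
    _ ≤ Real.exp (-(1 / 4 * L)) * W := by
        refine mul_le_mul_of_nonneg_right ?_ hW0
        rw [hM]
        exact hfin
    _ = Q ^ (-(1 / 4) : ℝ) * W := by
        rw [Real.rpow_def_of_pos hQp, ← hLdef]
        congr 2
        ring

end

end Pool.Agent.RZH

namespace Pool.Agent.RZH

theorem ms_far : type_of% @ms_far_pr := @ms_far_pr

end Pool.Agent.RZH
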