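import Pool.Agent.Lib_helper32.LAL.Defs
import Pool.Agent.Lib_helper32.LAL.DefsB
import Pool.Agent.Lib_helper41.LALF.G_IF_lam
import Pool.Agent.Lib_helper41.LALF.G_IF_lam_le
import Pool.Agent.Lib_helper41.LALF.G_IF_lam_one
import Pool.Agent.Lib_helper41.LALF.G_IF_mu
import Pool.Agent.Lib_helper41.LALF.G_IF_mu_unique
import Pool.Agent.Lib_helper41.LALF.G_IF_vE
import Pool.Agent.Lib_helper42.LAM.Defs
import Pool.Agent.Lib_helper75.DZNF.AA
import Pool.Agent.Lib_helper75.DZNF.ZO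
import Pool.Agent.Lib_helper75.RZG.Defs
import Pool.Agent.Lib_helper96.GLL.Defs

/-!
# Project RZG, block M9: far to the right; from the completed function to the L-function
-/

set_option autoImplicit false

namespace Pool.Agent.RZH

open MeasureTheory Matrix Complex Filter Topology Pool.Agent.GLL Pool.Agent.LAL
open scoped ENNReal ContDiff

noncomputable section

variable {n : ℕ} {O : Subring (Mt n)}

theorem MG_right_pr (hn : 2 ≤ n) (hO : GLL.Ord O) : ∃ s2 : ℝ, 1 ≤ s2 ∧ ∀ (q : ℕ) [NeZero q]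
    (ρ : O →+* Mq n q), LAL.QOK O q ρ → ∀ (E : LAL.Eig ρ) (Lf : ℂ → ℂ), LAL.IsLf E Lf →
    ∀ b : ℕ, 0 < b → ∀ (g : ℝ → ℝ) (ε T : ℝ), CutG g ε → 0 < T → ∀ s : ℂ, s2 ≤ s.re →
      ‖Lf s * MG E b g T s - 1‖ ≤ 1 / 2 := by
  obtain ⟨s0, hs0⟩ := LAL.IF_vE hn hO
  have hn3 : (0 : ℝ) ≤ (n : ℝ) ^ 3 := by positivity
  have hn4 : (0 : ℝ) ≤ (n : ℝ) ^ 4 := by positivity
  have hs00 := abs_nonneg s0
  have hs01 := le_abs_self s0
  refine ⟨(n : ℝ) ^ 4 + (n : ℝ) ^ 3 + |s0| + 10, by linarith,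
    fun q _ ρ h E Lf hLf b hb g ε T hg hT s hs => ?_⟩
  obtain ⟨hv1, hv2, -, -⟩ := hs0 b hb q ρ h E
  have hY : 1 ≤ ⌊Real.exp T⌋₊ := by
    rw [Nat.one_le_floor_iff]
    exact Real.one_le_exp hT.le
  -- the L-function
  have hL : ‖Lf s - 1‖ ≤ 1 / 16 := by
    rw [hLf.2 s (by linarith)]
    refine DZN.zo_series (a := (n : ℝ) ^ 3) (B := 1) (LAL.IF_lam_one hn hO h E) zero_le_one
      (fun m hm => ?_) (by linarith)
    rw [one_mul]
    have h1 := LAL.IF_lam_le hn hO h E m hm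
    have h2 : (m : ℝ) ^ ((n : ℝ) ^ 3) = (m : ℝ) ^ (n ^ 3) := by
      have h3 := Real.rpow_natCast (m : ℝ) (n ^ 3)
      rw [Nat.cast_pow] at h3
      exact h3
    rw [h2]
    exact h1
  -- the mollifier
  have hM : ‖MG E b g T s - 1‖ ≤ 2 / 16 := by
    unfold MG
    rw [DZN.zo_fsum ⌊Real.exp T⌋₊ (fun j => (aT g T j : ℂ) * LAL.vE E b j) s]
    refine DZN.zo_series (a := s0) (B := 2) ?_ (by norm_num) (fun m hm => ?_) (by linarith)
    · rw [if_pos (Finset.mem_Icc.2 ⟨le_refl 1, hY⟩), hv1, mul_one]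
      unfold aT
      rw [Nat.cast_one, Real.log_one, zero_div, hg.one 0 le_rfl (by norm_num)]
      simp
    · split_ifs
      · rw [norm_mul, Complex.norm_real, Real.norm_eq_abs]
        have h1 : |aT g T m| ≤ 1 := by
          unfold aT
          rw [abs_of_nonneg (hg.nonneg _)]
          exact hg.le_one _
        calc |aT g T m| * ‖LAL.vE E b m‖ ≤ 1 * ‖LAL.vE E b m‖ :=
              mul_le_mul_of_nonneg_right h1 (norm_nonneg _)
          _ = ‖LAL.vE E b m‖ := one_mul _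
          _ ≤ 2 * (m : ℝ) ^ s0 := hv2 m
      · rw [norm_zero]
        positivity
  have hM2 : ‖MG E b g T s‖ ≤ 18 / 16 := by
    calc ‖MG E b g T s‖ = ‖(MG E b g T s - 1) + 1‖ := by ring_nf
      _ ≤ ‖MG E b g T s - 1‖ + ‖(1 : ℂ)‖ := norm_add_le _ _
      _ ≤ 2 / 16 + 1 := by
          rw [norm_one]
          linarith
      _ = 18 / 16 := by norm_num
  have e : Lf s * MG E b g T s - 1 =
      (Lf s - 1) * MG E b g T s + (MG E b g T s - 1) := by ring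
  rw [e]
  calc ‖(Lf s - 1) * MG E b g T s + (MG E b g T s - 1)‖
      ≤ ‖(Lf s - 1) * MG E b g T s‖ + ‖MG E b g T s - 1‖ := norm_add_le _ _
    _ ≤ (1 / 16) * (18 / 16) + 2 / 16 := by
        refine add_le_add ?_ hM
        rw [norm_mul]
        exact mul_le_mul hL hM2 (norm_nonneg _) (by norm_num)
    _ ≤ 1 / 2 := by norm_num

theorem Lf_of_Lam_pr (hn : 2 ≤ n) (hO : GLL.Ord O) {q : ℕ} [NeZero q] {ρ : O →+* Mq n q}
    (h : LAL.QOK O q ρ) (E : LAL.Eig ρ) {Λ : ℂ → ℂ} (hΛ : LAL.IsLam E.f E.lam Λ) :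
    ∃ Lf : ℂ → ℂ, LAL.IsLf E Lf ∧ (∀ s, Λ s = 0 → Lf s = 0) ∧
      ∀ s, Λ s = 0 → Λ (1 - (starRingEnd ℂ) s) = 0 := by
  obtain ⟨hd, μ, hμ, A, hA⟩ := hΛ
  have hμ' : LAL.IsMu E μ := hμ
  obtain ⟨Λ₀, hΛ₀, hf₀, ⟨om, hom, hfe⟩, -⟩ := LAL.IF_lam hn hO h E μ hμ'
  obtain ⟨μ1, hμ1, hre1⟩ := LAL.IF_mu hn hO h E
  obtain ⟨σ, hσ⟩ := LAL.IF_mu_unique E μ1 μ hμ1 hμ'
  have heq : Λ = Λ₀ := by
    refine DZN.zo_ident hd hΛ₀.1 (max A ((n : ℝ) ^ 4 + 2)) fun s hs => ?_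
    rw [(hA s (lt_of_le_of_lt (le_max_left _ _) hs)).2,
      hf₀ s (lt_of_le_of_lt (le_max_right _ _) hs)]
  subst heq
  refine ⟨fun s => Λ s * ∏ j, (Gammaℝ (s + μ j))⁻¹, ⟨?_, ?_⟩, ?_, ?_⟩
  · refine hd.mul ?_
    refine Differentiable.fun_finsetProd fun j _ => ?_
    exact differentiable_Gammaℝ_inv.comp (differentiable_id.add_const (μ j))
  · intro s hs
    have hne : ∀ j, Gammaℝ (s + μ j) ≠ 0 := by
      intro j
      refine Gammaℝ_ne_zero_of_re_pos ?_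
      rw [Complex.add_re, hσ j]
      have h1 := hre1 (σ j)
      have h2 : (2 : ℝ) ≤ n := by exact_mod_cast hn
      have h3 : (n : ℝ) ≤ (n : ℝ) ^ 4 := by
        calc (n : ℝ) = (n : ℝ) ^ 1 := (pow_one _).symm
          _ ≤ (n : ℝ) ^ 4 := pow_le_pow_right₀ (by linarith) (by norm_num)
      linarith
    simp only
    rw [hf₀ s hs, mul_comm (∏ j, Gammaℝ (s + μ j)), mul_assoc, ← Finset.prod_mul_distrib,
      Finset.prod_congr rfl fun j _ => mul_inv_cancel₀ (hne j), Finset.prod_const_one, mul_one]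
  · intro s hs
    simp only
    rw [hs, zero_mul]
  · intro s hs
    have h1 := hfe s
    rw [hs] at h1
    have h2 : om ≠ 0 := by
      intro h0
      rw [h0, norm_zero] at hom
      norm_num at hom
    have h3 := (mul_eq_zero.1 h1.symm).resolve_left (mul_ne_zero h2 (Complex.exp_ne_zero _))
    exact (map_eq_zero (starRingEnd ℂ)).1 h3

end


end Pool.Agent.RZH

namespace Pool.Agent.RZH

theorem Lf_of_Lam : type_of% @Lf_of_Lam_pr := @Lf_of_Lam_pr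

theorem MG_right : type_of% @MG_right_pr := @MG_right_pr

end Pool.Agent.RZH
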