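import Pool.Agent.Lib_helper75.DZNF.CU
import Pool.Agent.Lib_helper75.RZG.Defs

/-!
# Project RZG, block TA1: the cut-off
-/

set_option autoImplicit false

namespace Pool.Agent.RZH

open MeasureTheory Matrix Complex Filter Topology Pool.Agent.GLL Pool.Agent.LAL
open scoped ENNReal ContDiff

noncomputable section

/-- the bump function on `[1/2, 1]` -/
def ta1_B {ε : ℝ} (hε : 0 < ε) : ContDiffBump (3 / 4 : ℝ) where
  rIn := 1 / (4 * (1 + ε))
  rOut := 1 / 4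
  rIn_pos := by positivity
  rIn_lt_rOut := by
    rw [div_lt_div_iff₀ (by positivity) (by norm_num)]
    linarith

/-- the normalised bump function -/
def ta1_b {ε : ℝ} (hε : 0 < ε) (y : ℝ) : ℝ := (ta1_B hε).normed volume y

theorem ta1_b_cont {ε : ℝ} (hε : 0 < ε) : Continuous (ta1_b hε) :=
  (ta1_B hε).continuous_normed

theorem ta1_b_smooth {ε : ℝ} (hε : 0 < ε) : ContDiff ℝ ∞ (ta1_b hε) :=
  (ta1_B hε).contDiff_normed

theorem ta1_b_nonneg {ε : ℝ} (hε : 0 < ε) (y : ℝ) : 0 ≤ ta1_b hε y :=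
  (ta1_B hε).nonneg_normed y

theorem ta1_b_le {ε : ℝ} (hε : 0 < ε) (y : ℝ) : ta1_b hε y ≤ 2 * (1 + ε) := by
  have h := (ta1_B hε).normed_le_div_measure_closedBall_rIn volume y
  have h1 : (volume : Measure ℝ).real (Metric.closedBall (3 / 4 : ℝ) (ta1_B hε).rIn) =
      2 * (1 / (4 * (1 + ε))) := by
    have h2 : (0 : ℝ) ≤ 1 / (4 * (1 + ε)) := by positivity
    rw [Real.volume_real_closedBall (r := (ta1_B hε).rIn) h2]
    rfl
  rw [h1] at h
  refine h.trans (le_of_eq ?_)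
  have h3 : (1 + ε) ≠ 0 := by positivity
  field_simp
  norm_num

theorem ta1_b_supp {ε : ℝ} (hε : 0 < ε) : Function.support (ta1_b hε) = Set.Ioo (1 / 2) 1 := by
  have h : Function.support (ta1_b hε) = Metric.ball (3 / 4 : ℝ) (ta1_B hε).rOut :=
    (ta1_B hε).support_normed_eq
  rw [h]
  have h1 : (ta1_B hε).rOut = 1 / 4 := rfl
  rw [h1, Real.ball_eq_Ioo]
  norm_num

/-- the smooth step -/
def ta1_G {ε : ℝ} (hε : 0 < ε) (y : ℝ) : ℝ := ∫ t in y..1, ta1_b hε t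

theorem ta1_G_one {ε : ℝ} (hε : 0 < ε) {y : ℝ} (hy : y ≤ 1 / 2) : ta1_G hε y = 1 := by
  unfold ta1_G
  rw [intervalIntegral.integral_eq_integral_of_support_subset]
  · exact (ta1_B hε).integral_normed
  · rw [ta1_b_supp hε]
    intro t ht
    exact ⟨lt_of_le_of_lt hy ht.1, ht.2.le⟩

theorem ta1_b_zero {ε : ℝ} (hε : 0 < ε) {y : ℝ} (hy : 1 ≤ y) : ta1_b hε y = 0 := by
  by_contra h
  have h1 : y ∈ Function.support (ta1_b hε) := h
  rw [ta1_b_supp hε] at h1
  exact absurd h1.2 (not_lt.2 hy)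

theorem ta1_G_zero {ε : ℝ} (hε : 0 < ε) {y : ℝ} (hy : 1 ≤ y) : ta1_G hε y = 0 := by
  unfold ta1_G
  rw [intervalIntegral.integral_congr (g := fun _ => (0 : ℝ))]
  · exact intervalIntegral.integral_zero
  · intro t ht
    rw [Set.uIcc_comm, Set.uIcc_of_le hy] at ht
    exact ta1_b_zero hε ht.1

theorem ta1_G_nonneg {ε : ℝ} (hε : 0 < ε) (y : ℝ) : 0 ≤ ta1_G hε y := by
  rcases le_total y 1 with h | h
  · exact intervalIntegral.integral_nonneg h fun t _ => ta1_b_nonneg hε t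
  · exact (ta1_G_zero hε h).ge

theorem ta1_G_le {ε : ℝ} (hε : 0 < ε) (y : ℝ) : ta1_G hε y ≤ 1 := by
  have h1 : ta1_G hε (min y (1 / 2)) = 1 := ta1_G_one hε (min_le_right _ _)
  have h2 : (∫ t in (min y (1 / 2))..y, ta1_b hε t) + ta1_G hε y =
      ta1_G hε (min y (1 / 2)) :=
    intervalIntegral.integral_add_adjacent_intervals
      ((ta1_b_cont hε).intervalIntegrable _ _) ((ta1_b_cont hε).intervalIntegrable _ _)
  have h3 : 0 ≤ ∫ t in (min y (1 / 2))..y, ta1_b hε t :=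
    intervalIntegral.integral_nonneg (min_le_left _ _) fun t _ => ta1_b_nonneg hε t
  linarith

theorem ta1_G_deriv {ε : ℝ} (hε : 0 < ε) (y : ℝ) : HasDerivAt (ta1_G hε) (-ta1_b hε y) y :=
  intervalIntegral.integral_hasDerivAt_left ((ta1_b_cont hε).intervalIntegrable _ _)
    (ta1_b_cont hε).stronglyMeasurable.stronglyMeasurableAtFilter (ta1_b_cont hε).continuousAt

theorem ta1_G_smooth {ε : ℝ} (hε : 0 < ε) : ContDiff ℝ ∞ (ta1_G hε) := by
  rw [contDiff_infty_iff_deriv]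
  refine ⟨fun y => (ta1_G_deriv hε y).differentiableAt, ?_⟩
  have h : deriv (ta1_G hε) = fun y => -ta1_b hε y := funext fun y => (ta1_G_deriv hε y).deriv
  rw [h]
  exact (ta1_b_smooth hε).neg

/-- the cut-off -/
def ta1_g {ε : ℝ} (hε : 0 < ε) (y : ℝ) : ℝ := ta1_G hε y * ta1_G hε (-y)

theorem ta1_g_smooth {ε : ℝ} (hε : 0 < ε) : ContDiff ℝ ∞ (ta1_g hε) :=
  (ta1_G_smooth hε).mul ((ta1_G_smooth hε).comp contDiff_neg)

theorem ta1_g_eq {ε : ℝ} (hε : 0 < ε) {y : ℝ} (hy : -(1 / 2) ≤ y) : ta1_g hε y = ta1_G hε y := by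
  unfold ta1_g
  rw [ta1_G_one hε (y := -y) (by linarith), mul_one]

theorem ta1_g_supp {ε : ℝ} (hε : 0 < ε) {y : ℝ} (hy : 1 ≤ |y|) : ta1_g hε y = 0 := by
  unfold ta1_g
  rcases le_abs.1 hy with h | h
  · rw [ta1_G_zero hε h, zero_mul]
  · rw [ta1_G_zero hε h, mul_zero]

/-- the function `g (2 π y) e^(2 π A y)` -/
def ta1_F (A : ℝ) (g : ℝ → ℝ) (y : ℝ) : ℂ :=
  ((g (2 * Real.pi * y) * Real.exp (A * (2 * Real.pi * y)) : ℝ) : ℂ)

theorem ta1_F_smooth (A : ℝ) {g : ℝ → ℝ} (hg : ContDiff ℝ (⊤ : ℕ∞) g) :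
    ContDiff ℝ (⊤ : ℕ∞) (ta1_F A g) := by
  have h1 : ContDiff ℝ (⊤ : ℕ∞) fun y : ℝ => 2 * Real.pi * y := contDiff_const.mul contDiff_id
  have h2 : ContDiff ℝ (⊤ : ℕ∞) fun y : ℝ => g (2 * Real.pi * y) := hg.comp h1
  have h3 : ContDiff ℝ (⊤ : ℕ∞) fun y : ℝ => Real.exp (A * (2 * Real.pi * y)) :=
    Real.contDiff_exp.comp (contDiff_const.mul h1)
  exact Complex.ofRealCLM.contDiff.comp (h2.mul h3)

theorem ta1_F_supp (A : ℝ) {g : ℝ → ℝ} (hg : ∀ y, 1 ≤ |y| → g y = 0) :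
    HasCompactSupport (ta1_F A g) := by
  refine HasCompactSupport.intro (K := Set.Icc (-1) 1) isCompact_Icc fun y hy => ?_
  have h1 : 1 ≤ |2 * Real.pi * y| := by
    have h2 : 1 < |y| := by
      by_contra h
      exact hy (abs_le.1 (not_lt.1 h))
    rw [abs_mul, abs_of_pos Real.two_pi_pos]
    have h3 : 1 ≤ 2 * Real.pi := by
      have := Real.pi_gt_three
      linarith
    nlinarith
  unfold ta1_F
  rw [hg _ h1, zero_mul, Complex.ofReal_zero]

theorem ta1_rep (A : ℝ) {g : ℝ → ℝ} (hg : ContDiff ℝ (⊤ : ℕ∞) g)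
    (hg0 : ∀ y, 1 ≤ |y| → g y = 0) :
    ∃ φ : ℝ → ℂ, Continuous φ ∧ (Integrable fun u : ℝ => ‖φ u‖ * (1 + |u|) ^ 4) ∧
    ∀ x : ℝ, ((g x : ℝ) : ℂ) = ∫ u : ℝ, φ u * Complex.exp (-((A + u * I) * x)) := by
  let F : SchwartzMap ℝ ℂ := (ta1_F_supp A hg0).toSchwartzMap (ta1_F_smooth A hg)
  let φ : SchwartzMap ℝ ℂ := FourierTransformInv.fourierInv F
  have hF : FourierTransform.fourier φ = F := FourierTransform.fourier_fourierInv_eq F
  refine ⟨φ, φ.continuous, ?_, fun x => ?_⟩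
  · have h1 : (fun u : ℝ => ‖φ u‖ * (1 + |u|) ^ 4) = fun u : ℝ =>
        ∑ j ∈ Finset.range (4 + 1), (Nat.choose 4 j : ℝ) * (‖u‖ ^ j * ‖φ u‖) := by
      funext u
      rw [add_comm (1 : ℝ) |u|, add_pow, Finset.mul_sum]
      refine Finset.sum_congr rfl fun j _ => ?_
      rw [Real.norm_eq_abs, one_pow]
      ring
    rw [h1]
    refine integrable_finsetSum _ fun j _ => ?_
    exact (φ.integrable_pow_mul volume j).const_mul _
  · have h1 : (FourierTransform.fourier φ : SchwartzMap ℝ ℂ) (x / (2 * Real.pi)) =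
        ta1_F A g (x / (2 * Real.pi)) := by
      rw [hF]
      rfl
    have h2 : (FourierTransform.fourier φ : SchwartzMap ℝ ℂ) (x / (2 * Real.pi)) =
        ∫ u : ℝ, Complex.exp (((-2 * Real.pi * (u * (x / (2 * Real.pi)))) : ℝ) * I) * φ u := by
      rw [SchwartzMap.fourier_coe, Real.fourier_eq']
      refine integral_congr_ae (Filter.Eventually.of_forall fun u => ?_)
      show Complex.exp (((-2 * Real.pi * (inner ℝ u (x / (2 * Real.pi)))) : ℝ) * I) • φ u = _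
      rw [smul_eq_mul]
      congr 4
      rw [real_inner_comm]
      rfl
    have h3 : ta1_F A g (x / (2 * Real.pi)) = ((g x : ℝ) : ℂ) * Complex.exp (A * x) := by
      unfold ta1_F
      have h4 : 2 * Real.pi * (x / (2 * Real.pi)) = x := by
        have := Real.two_pi_pos.ne'
        field_simp
      rw [h4]
      push_cast
      rfl
    rw [h1, h3] at h2
    have h5 : ((g x : ℝ) : ℂ) = (((g x : ℝ) : ℂ) * Complex.exp (A * x)) *
        Complex.exp (-(A * x)) := by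
      rw [mul_assoc, ← Complex.exp_add, add_neg_cancel, Complex.exp_zero, mul_one]
    rw [h5, h2, ← integral_mul_const]
    refine integral_congr_ae (Filter.Eventually.of_forall fun u => ?_)
    have h6 : ((-2 * Real.pi * (u * (x / (2 * Real.pi))) : ℝ) : ℂ) = -((u : ℂ) * x) := by
      have h7 : -2 * Real.pi * (u * (x / (2 * Real.pi))) = -(u * x) := by
        have := Real.two_pi_pos.ne'
        field_simp
      rw [h7]
      push_cast
      ring
    show Complex.exp (((-2 * Real.pi * (u * (x / (2 * Real.pi))) : ℝ) : ℂ) * I) * φ u *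
      Complex.exp (-(A * x)) = φ u * Complex.exp (-((A + u * I) * x))
    rw [h6]
    have h8 : Complex.exp (-((A + u * I) * x)) =
        Complex.exp (-((u : ℂ) * x) * I) * Complex.exp (-(A * x)) := by
      rw [← Complex.exp_add]
      congr 1
      ring
    rw [h8]
    ring

theorem cutG_ex_pr {ε : ℝ} (hε : 0 < ε) : ∃ g : ℝ → ℝ, CutG g ε := by
  refine ⟨ta1_g hε, ⟨ta1_g_smooth hε, fun y => ?_, fun y => ?_, fun y hy hy1 => ?_, fun y hy => ?_,
    fun y hy => ?_, fun A₀ => ?_⟩⟩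
  · exact mul_nonneg (ta1_G_nonneg hε _) (ta1_G_nonneg hε _)
  · exact mul_le_one₀ (ta1_G_le hε _) (ta1_G_nonneg hε _) (ta1_G_le hε _)
  · rw [ta1_g_eq hε (by linarith), ta1_G_one hε hy1]
  · rw [ta1_g_eq hε (by linarith), ta1_G_zero hε hy]
  · have h1 : ta1_g hε =ᶠ[𝓝 y] ta1_G hε := by
      filter_upwards [Ioi_mem_nhds (show -(1 / 2 : ℝ) < y by linarith)] with z hz
      exact ta1_g_eq hε (le_of_lt hz)
    rw [h1.deriv_eq, (ta1_G_deriv hε y).deriv, abs_neg, abs_of_nonneg (ta1_b_nonneg hε y)]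
    exact ta1_b_le hε y
  · obtain ⟨c, h1, h2, h3⟩ := ta1_rep A₀ (ta1_g_smooth hε) fun y hy => ta1_g_supp hε hy
    exact ⟨c, h1, h2, fun y _ => h3 y⟩


end

end Pool.Agent.RZH

namespace Pool.Agent.RZH

theorem cutG_ex : type_of% @cutG_ex_pr := @cutG_ex_pr

end Pool.Agent.RZH
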